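import Mathlib

/-! A monoid with the ACC on principal left ideals and on principal right ideals, but not on
principal two-sided ideals. -/

namespace Q15Acc

/-- letters acting from one side -/
inductive Lt : Type
  | red (i : ℕ) : Lt
  | bld (i : ℕ) : Lt
deriving DecidableEq

open Lt

/-- the rays -/
def ray (n : ℕ) : ℕ → List Lt
  | 0 => []
  | l + 1 => bld (n + l) :: ray n l

lemma ray_length (n l : ℕ) : (ray n l).length = l := by
  induction l with
  | zero => rfl
  | succ l ih => simp [ray, ih]

lemma ray_append (n l : ℕ) : ray (n + 1) l ++ [bld n] = ray n (l + 1) := by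
  induction l with
  | zero => simp [ray]
  | succ l ih =>
    rw [ray, List.cons_append, ih]
    conv_rhs => rw [ray]
    congr 2
    omega

/-- points: left word, index, right word (the head of each word is the outermost letter). -/
abbrev X : Type := List Lt × ℕ × List Lt

/-- exchange of the two sides -/
def sw (x : X) : X := (x.2.2, x.2.1, x.1)

@[simp] lemma sw_sw (x : X) : sw (sw x) = x := rfl

/-- action of a letter on the first side -/
def act : Lt → X → X
  | .red i, (s, n, t) =>
    if s = [] ∧ i + 1 = n then ([], i, t ++ [bld i])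
    else if n ≤ i ∧ s = ray n (i - n + 1) then (ray n (i - n), n, t)
    else (red i :: s, n, t)
  | .bld i, (s, n, t) => (bld i :: s, n, t)

/-- action of a letter on the second side -/
def ract (a : Lt) (x : X) : X := sw (act a (sw x))

lemma act_bld (i : ℕ) (s : List Lt) (n : ℕ) (t : List Lt) :
    act (bld i) (s, n, t) = (bld i :: s, n, t) := rfl

lemma act_red1 (n : ℕ) (t : List Lt) : act (red n) ([], n + 1, t) = ([], n, t ++ [bld n]) := by
  simp [act]

lemma act_red2 (n l : ℕ) (t : List Lt) :
    act (red (n + l)) (ray n (l + 1), n, t) = (ray n l, n, t) := by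
  have h : ray n (l + 1) ≠ [] := by simp [ray]
  simp [act, h]

lemma act_red3 (i : ℕ) (s : List Lt) (n : ℕ) (t : List Lt) (h1 : ¬ (s = [] ∧ i + 1 = n))
    (h2 : ¬ ∃ l, i = n + l ∧ s = ray n (l + 1)) : act (red i) (s, n, t) = (red i :: s, n, t) := by
  have h3 : ¬ (n ≤ i ∧ s = ray n (i - n + 1)) := fun h => h2 ⟨i - n, by omega, h.2⟩
  simp only [act, if_neg h1, if_neg h3]

/-- The cases of the action. -/
lemma act_cases (a : Lt) (x : X) :
    (∃ n t, a = red n ∧ x = ([], n + 1, t)) ∨
    (∃ n l t, a = red (n + l) ∧ x = (ray n (l + 1), n, t)) ∨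
    (∃ i s n t, a = red i ∧ x = (s, n, t) ∧ ¬ (s = [] ∧ i + 1 = n) ∧
      ¬ ∃ l, i = n + l ∧ s = ray n (l + 1)) ∨
    (∃ i s n t, a = bld i ∧ x = (s, n, t)) := by
  obtain ⟨s, n, t⟩ := x
  cases a with
  | bld i => exact Or.inr (Or.inr (Or.inr ⟨i, s, n, t, rfl, rfl⟩))
  | red i =>
    by_cases h1 : s = [] ∧ i + 1 = n
    · obtain ⟨rfl, rfl⟩ := h1
      exact Or.inl ⟨i, t, rfl, rfl⟩
    · by_cases h2 : ∃ l, i = n + l ∧ s = ray n (l + 1)
      · obtain ⟨l, rfl, rfl⟩ := h2
        exact Or.inr (Or.inl ⟨n, l, t, rfl, rfl⟩)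
      · exact Or.inr (Or.inr (Or.inl ⟨i, s, n, t, rfl, rfl, h1, h2⟩))

lemma ract_bld (i : ℕ) (s : List Lt) (n : ℕ) (t : List Lt) :
    ract (bld i) (s, n, t) = (s, n, bld i :: t) := rfl

lemma ract_red1 (n : ℕ) (s : List Lt) :
    ract (red n) (s, n + 1, []) = (s ++ [bld n], n, []) := by
  unfold ract
  change sw (act (red n) ([], n + 1, s)) = _
  rw [act_red1]; rfl

lemma ract_red2 (n l : ℕ) (s : List Lt) :
    ract (red (n + l)) (s, n, ray n (l + 1)) = (s, n, ray n l) := by
  unfold ract
  change sw (act (red (n + l)) (ray n (l + 1), n, s)) = _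
  rw [act_red2]; rfl

lemma ract_red3 (i : ℕ) (s : List Lt) (n : ℕ) (t : List Lt) (h1 : ¬ (t = [] ∧ i + 1 = n))
    (h2 : ¬ ∃ l, i = n + l ∧ t = ray n (l + 1)) : ract (red i) (s, n, t) = (s, n, red i :: t) := by
  unfold ract
  change sw (act (red i) (t, n, s)) = _
  rw [act_red3 i t n s h1 h2]; rfl

lemma ray_inj {n l l' : ℕ} (h : ray n l = ray n l') : l = l' := by
  have := congrArg List.length h
  simpa [ray_length] using this

/-- appending a letter at the inner end -/
lemma snoc_ray {n l : ℕ} {s : List Lt} (h : s ++ [bld n] = ray n (l + 1)) :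
    s = ray (n + 1) l := by
  rw [← ray_append] at h
  exact (List.append_inj' h rfl).1

/-- The actions on the two sides commute. -/
theorem comm (a b : Lt) (x : X) : act a (ract b x) = ract b (act a x) := by
  obtain ⟨s, n, t⟩ := x
  cases a with
  | bld i =>
    have e0 : act (bld i) (s, n, t) = (bld i :: s, n, t) := rfl
    rw [e0]
    rcases act_cases b (t, n, s) with ⟨m, r, rfl, e⟩ | ⟨m, l, r, rfl, e⟩ |
      ⟨j, r, m, q, rfl, e, h1, h2⟩ | ⟨j, r, m, q, rfl, e⟩
    · cases e
      rw [ract_red1, ract_red1, act_bld]; rfl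
    · cases e
      rw [ract_red2, ract_red2, act_bld]
    · cases e
      rw [ract_red3 _ _ _ _ h1 h2, ract_red3 _ _ _ _ h1 h2, act_bld]
    · rw [ract_bld, ract_bld, act_bld]
  | red i =>
    rcases act_cases (red i) (s, n, t) with ⟨m, r, e0, e⟩ | ⟨m, l, r, e0, e⟩ |
      ⟨j, r, m, q, e0, e, h1, h2⟩ | ⟨j, r, m, q, e0, e⟩
    · -- first rule on the left
      cases e0; cases e
      rw [act_red1]
      rcases act_cases b (t, i + 1, []) with ⟨m, r, rfl, e⟩ | ⟨m, l, r, rfl, e⟩ |
        ⟨j, r, m, q, rfl, e, h1, h2⟩ | ⟨j, r, m, q, rfl, e⟩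
      · cases e
        rw [ract_red1]
        have h1 : ([] ++ [bld i] : List Lt) = ray i (0 + 1) := rfl
        have h2 := act_red2 i 0 []
        have h3 := ract_red2 i 0 []
        rw [h1]
        exact h2.trans h3.symm
      · cases e
        rw [ract_red2, act_red1, ray_append, ray_append]
        have := ract_red2 i (l + 1) []
        rw [show i + 1 + l = i + (l + 1) by omega, this]
      · cases e
        rw [ract_red3 _ _ _ _ h1 h2, act_red1, ract_red3]
        · rfl
        · rintro ⟨h, -⟩
          simp at h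
        · rintro ⟨l, rfl, h⟩
          have h3 := snoc_ray h
          cases l with
          | zero => exact h1 ⟨h3, by omega⟩
          | succ l => exact h2 ⟨l, by omega, h3⟩
      · cases e
        rw [ract_bld, act_red1, ract_bld]; rfl
    · -- second rule on the left
      cases e0; cases e
      rw [act_red2]
      rcases act_cases b (t, n, ray n (l + 1)) with ⟨m, r, rfl, e⟩ | ⟨m, l', r, rfl, e⟩ |
        ⟨j, r, m, q, rfl, e, h1, h2⟩ | ⟨j, r, m, q, rfl, e⟩
      · cases e
        rw [ract_red1, ract_red1, ray_append, ray_append]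
        have := act_red2 m (l + 1) []
        rw [show m + 1 + l = m + (l + 1) by omega, this]
      · cases e
        rw [ract_red2, ract_red2, act_red2]
      · cases e
        rw [ract_red3 _ _ _ _ h1 h2, ract_red3 _ _ _ _ h1 h2, act_red2]
      · cases e
        rw [ract_bld, ract_bld, act_red2]
    · -- third rule on the left
      cases e0; cases e
      rw [act_red3 _ _ _ _ h1 h2]
      rcases act_cases b (t, n, s) with ⟨m, r, rfl, e⟩ | ⟨m, l', r, rfl, e⟩ |
        ⟨j, r, m, q, rfl, e, h3, h4⟩ | ⟨j, r, m, q, rfl, e⟩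
      · cases e
        rw [ract_red1, ract_red1, act_red3]
        · rfl
        · rintro ⟨h, -⟩
          simp at h
        · rintro ⟨l, rfl, h⟩
          have h3 := snoc_ray h
          cases l with
          | zero => exact h1 ⟨h3, by omega⟩
          | succ l => exact h2 ⟨l, by omega, h3⟩
      · cases e
        rw [ract_red2, ract_red2, act_red3 _ _ _ _ h1 h2]
      · cases e
        rw [ract_red3 _ _ _ _ h3 h4, ract_red3 _ _ _ _ h3 h4, act_red3 _ _ _ _ h1 h2]
      · cases e
        rw [ract_bld, ract_bld, act_red3 _ _ _ _ h1 h2]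
    · cases e0

/-- excess over the maximal ray -/
def exc (n : ℕ) : List Lt → ℕ
  | [] => 0
  | x :: s => if exc n s = 0 ∧ x = bld (n + s.length) then 0 else exc n s + 1

lemma exc_ray (n l : ℕ) : exc n (ray n l) = 0 := by
  induction l with
  | zero => rfl
  | succ l ih => simp [ray, exc, ih, ray_length]

lemma eq_ray_of_exc {n : ℕ} {s : List Lt} (h : exc n s = 0) : s = ray n s.length := by
  induction s with
  | nil => rfl
  | cons x s ih =>
    rw [exc] at h
    split_ifs at h with h1
    rw [List.length_cons, ray, ← ih h1.1, h1.2]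

/-- the rank for the first side -/
def rk (x : X) : ℕ := x.2.2.length + exc x.2.1 x.1

/-- The rank does not decrease; if it does not change, the step can be undone. -/
theorem rk_act (a : Lt) (x : X) :
    rk x ≤ rk (act a x) ∧ (rk x = rk (act a x) → ∃ b, act b (act a x) = x) := by
  rcases act_cases a x with ⟨m, r, rfl, rfl⟩ | ⟨m, l, r, rfl, rfl⟩ |
      ⟨j, s, m, q, rfl, rfl, h1, h2⟩ | ⟨j, s, m, q, rfl, rfl⟩
  · rw [act_red1]
    simp [rk, exc]
  · rw [act_red2]
    refine ⟨by simp [rk, exc_ray], fun _ => ⟨bld (m + l), ?_⟩⟩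
    rw [act_bld]; rfl
  · rw [act_red3 _ _ _ _ h1 h2]
    simp only [rk, exc]
    rw [if_neg (by simp)]
    exact ⟨by omega, by omega⟩
  · rw [act_bld]
    simp only [rk, exc]
    split_ifs with h
    · refine ⟨by omega, fun _ => ?_⟩
      obtain ⟨h3, h4⟩ := h
      have h5 : j = m + s.length := by
        injection h4
      refine ⟨red j, ?_⟩
      have h6 := eq_ray_of_exc h3
      rw [h5]
      conv_lhs => rw [h6]
      rw [ray_length]
      have := act_red2 m s.length q
      rw [ray] at this
      rw [this, ← h6]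
    · exact ⟨by omega, by omega⟩

/-! ### the monoid -/

/-- left action of a letter on points, with zero -/
def lz : Lt ⊕ Lt → Option X → Option X
  | .inl a, z => z.map (act a)
  | .inr _, _ => none

/-- right action of a letter on points, with zero -/
def rz (z : Option X) : Lt ⊕ Lt → Option X
  | .inl _ => none
  | .inr a => z.map (ract a)

lemma lz_none (a : Lt ⊕ Lt) : lz a none = none := by cases a <;> rfl

lemma rz_none (a : Lt ⊕ Lt) : rz none a = none := by cases a <;> rfl

lemma lz_rz (a b : Lt ⊕ Lt) (z : Option X) : lz a (rz z b) = rz (lz a z) b := by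
  cases z with
  | none => rw [rz_none, lz_none, rz_none]
  | some x =>
    cases a <;> cases b
    · rfl
    · simp [lz, rz, comm]
    · rfl
    · rfl

/-- left action of words -/
def lw (w : List (Lt ⊕ Lt)) (z : Option X) : Option X := w.foldr lz z

/-- right action of words -/
def rw' (z : Option X) (w : List (Lt ⊕ Lt)) : Option X := w.foldl rz z

lemma lw_none (w : List (Lt ⊕ Lt)) : lw w none = none := by
  induction w with
  | nil => rfl
  | cons a w ih => rw [lw, List.foldr_cons]; rw [lw] at ih; rw [ih, lz_none]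

lemma rw_none (w : List (Lt ⊕ Lt)) : rw' none w = none := by
  induction w with
  | nil => rfl
  | cons a w ih => rw [rw', List.foldl_cons, rz_none]; exact ih

lemma lw_append (w w' : List (Lt ⊕ Lt)) (z : Option X) : lw (w ++ w') z = lw w (lw w' z) := by
  simp [lw, List.foldr_append]

lemma rw_append (z : Option X) (w w' : List (Lt ⊕ Lt)) : rw' z (w ++ w') = rw' (rw' z w) w' := by
  simp [rw', List.foldl_append]

lemma lz_rw (a : Lt ⊕ Lt) (z : Option X) (w : List (Lt ⊕ Lt)) :
    lz a (rw' z w) = rw' (lz a z) w := by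
  induction w generalizing z with
  | nil => rfl
  | cons b w ih =>
    change lz a (rw' (rz z b) w) = rw' (rz (lz a z) b) w
    rw [ih, lz_rz]

lemma lw_rw (w : List (Lt ⊕ Lt)) (z : Option X) (w' : List (Lt ⊕ Lt)) :
    lw w (rw' z w') = rw' (lw w z) w' := by
  induction w with
  | nil => rfl
  | cons a w ih =>
    change lz a (lw w (rw' z w')) = rw' (lz a (lw w z)) w'
    rw [ih, lz_rw]

/-- The monoid. -/
inductive H : Type
  | word (w : List (Lt ⊕ Lt)) : H
  | pt (z : Option X) : H

open H

instance : Mul H where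
  mul
    | .word w, .word w' => .word (w ++ w')
    | .word w, .pt z => .pt (lw w z)
    | .pt z, .word w => .pt (rw' z w)
    | .pt _, .pt _ => .pt none

lemma ww (w w' : List (Lt ⊕ Lt)) : word w * word w' = word (w ++ w') := rfl
lemma wp (w : List (Lt ⊕ Lt)) (z : Option X) : word w * pt z = pt (lw w z) := rfl
lemma pw (z : Option X) (w : List (Lt ⊕ Lt)) : pt z * word w = pt (rw' z w) := rfl
lemma pp (z z' : Option X) : pt z * pt z' = pt none := rfl

instance : Monoid H where
  one := word []
  one_mul x := by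
    change word [] * x = x
    cases x <;> rfl
  mul_one x := by
    change x * word [] = x
    cases x with
    | word w => rw [ww, List.append_nil]
    | pt z => rfl
  mul_assoc x y z := by
    cases x <;> cases y <;> cases z
    · rw [ww, ww, ww, ww, List.append_assoc]
    · rw [ww, wp, wp, wp, lw_append]
    · rw [wp, pw, pw, wp, lw_rw]
    · rw [wp, pp, pp, wp, lw_none]
    · rw [pw, pw, ww, pw, rw_append]
    · rw [pw, pp, wp, pp]
    · rw [pp, pw, pw, pp, rw_none]
    · rw [pp, pp, pp, pp]

/-- rank of points with zero -/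
def rkL : Option X → ℕ ×ₗ ℕ
  | none => toLex (2, 0)
  | some x => toLex (1, rk x)

/-- rank of points with zero -/
def rkR : Option X → ℕ ×ₗ ℕ
  | none => toLex (2, 0)
  | some x => toLex (1, rk (sw x))

lemma one_lt_two' (n : ℕ) : (toLex (1, n) : ℕ ×ₗ ℕ) < toLex (2, 0) := by
  rw [Prod.Lex.toLex_lt_toLex]; left; exact Nat.one_lt_two

lemma le_iff' (m n : ℕ) : (toLex (1, m) : ℕ ×ₗ ℕ) ≤ toLex (1, n) ↔ m ≤ n := by
  rw [Prod.Lex.toLex_le_toLex]; simp

lemma rkL_lz (a : Lt ⊕ Lt) (z : Option X) :
    rkL z ≤ rkL (lz a z) ∧ (rkL z = rkL (lz a z) → ∃ b, lz b (lz a z) = z) := by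
  cases z with
  | none => rw [lz_none]; exact ⟨le_rfl, fun _ => ⟨a, lz_none a⟩⟩
  | some x =>
    cases a with
    | inr a =>
      exact ⟨(one_lt_two' _).le, fun h => absurd h (one_lt_two' _).ne⟩
    | inl a =>
      obtain ⟨h1, h2⟩ := rk_act a x
      refine ⟨(le_iff' _ _).mpr h1, fun h => ?_⟩
      have h3 : rk x = rk (act a x) := le_antisymm h1 ((le_iff' _ _).mp h.ge)
      obtain ⟨b, hb⟩ := h2 h3
      refine ⟨.inl b, ?_⟩
      simp [lz, hb]

lemma rkR_rz (a : Lt ⊕ Lt) (z : Option X) :
    rkR z ≤ rkR (rz z a) ∧ (rkR z = rkR (rz z a) → ∃ b, rz (rz z a) b = z) := by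
  cases z with
  | none => rw [rz_none]; exact ⟨le_rfl, fun _ => ⟨a, rz_none a⟩⟩
  | some x =>
    cases a with
    | inl a =>
      exact ⟨(one_lt_two' _).le, fun h => absurd h (one_lt_two' _).ne⟩
    | inr a =>
      obtain ⟨h1, h2⟩ := rk_act a (sw x)
      refine ⟨(le_iff' _ _).mpr h1, fun h => ?_⟩
      have h3 : rk (sw x) = rk (act a (sw x)) := le_antisymm h1 ((le_iff' _ _).mp h.ge)
      obtain ⟨b, hb⟩ := h2 h3
      refine ⟨.inr b, ?_⟩
      simp [rz, ract, hb]

lemma rkL_lw (w : List (Lt ⊕ Lt)) (z : Option X) :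
    rkL z ≤ rkL (lw w z) ∧ (rkL z = rkL (lw w z) → ∃ w', lw w' (lw w z) = z) := by
  induction w with
  | nil => exact ⟨le_rfl, fun _ => ⟨[], rfl⟩⟩
  | cons a w ih =>
    change rkL z ≤ rkL (lz a (lw w z)) ∧ (rkL z = rkL (lz a (lw w z)) →
      ∃ w', lw w' (lz a (lw w z)) = z)
    obtain ⟨h1, h2⟩ := rkL_lz a (lw w z)
    refine ⟨ih.1.trans h1, fun h => ?_⟩
    have h3 : rkL z = rkL (lw w z) := le_antisymm ih.1 (h ▸ h1)
    obtain ⟨w', hw'⟩ := ih.2 h3
    obtain ⟨b, hb⟩ := h2 (h3.symm.trans h)
    refine ⟨w' ++ [b], ?_⟩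
    rw [lw_append]
    change lw w' (lz b (lz a (lw w z))) = z
    rw [hb, hw']

lemma rkR_rw (w : List (Lt ⊕ Lt)) (z : Option X) :
    rkR z ≤ rkR (rw' z w) ∧ (rkR z = rkR (rw' z w) → ∃ w', rw' (rw' z w) w' = z) := by
  induction w generalizing z with
  | nil => exact ⟨le_rfl, fun _ => ⟨[], rfl⟩⟩
  | cons a w ih =>
    change rkR z ≤ rkR (rw' (rz z a) w) ∧ (rkR z = rkR (rw' (rz z a) w) →
      ∃ w', rw' (rw' (rz z a) w) w' = z)
    obtain ⟨h1, h2⟩ := rkR_rz a z
    obtain ⟨i1, i2⟩ := ih (rz z a)
    refine ⟨h1.trans i1, fun h => ?_⟩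
    have h3 : rkR z = rkR (rz z a) := le_antisymm h1 (h ▸ i1)
    obtain ⟨w', hw'⟩ := i2 (h3.symm.trans h)
    obtain ⟨b, hb⟩ := h2 h3
    refine ⟨w' ++ [b], ?_⟩
    rw [rw_append, hw']
    exact hb

/-- rank on the monoid for left divisibility -/
def RL : H → ℕ ×ₗ ℕ
  | .word w => toLex (0, w.length)
  | .pt z => rkL z

/-- rank on the monoid for right divisibility -/
def RR : H → ℕ ×ₗ ℕ
  | .word w => toLex (0, w.length)
  | .pt z => rkR z

lemma zero_lt_rkL (n : ℕ) (z : Option X) : (toLex (0, n) : ℕ ×ₗ ℕ) < rkL z := by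
  cases z with
  | none => rw [rkL, Prod.Lex.toLex_lt_toLex]; left; exact Nat.two_pos
  | some x => rw [rkL, Prod.Lex.toLex_lt_toLex]; left; exact Nat.one_pos

lemma zero_lt_rkR (n : ℕ) (z : Option X) : (toLex (0, n) : ℕ ×ₗ ℕ) < rkR z := by
  cases z with
  | none => rw [rkR, Prod.Lex.toLex_lt_toLex]; left; exact Nat.two_pos
  | some x => rw [rkR, Prod.Lex.toLex_lt_toLex]; left; exact Nat.one_pos

lemma rkL_le_none (z : Option X) : rkL z ≤ rkL none := by
  cases z with
  | none => exact le_rfl
  | some x => exact (one_lt_two' _).le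

lemma rkR_le_none (z : Option X) : rkR z ≤ rkR none := by
  cases z with
  | none => exact le_rfl
  | some x => exact (one_lt_two' _).le

/-- `y = h * z` -/
theorem RL_mul (h z : H) : RL z ≤ RL (h * z) ∧ (RL z = RL (h * z) → ∃ k, z = k * (h * z)) := by
  cases h with
  | word w =>
    cases z with
    | word w' =>
      rw [ww]
      refine ⟨?_, ?_⟩
      · change (toLex (0, w'.length) : ℕ ×ₗ ℕ) ≤ toLex (0, (w ++ w').length)
        rw [Prod.Lex.toLex_le_toLex]
        right
        simp
      · intro h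
        have h1 : (0, w'.length) = (0, (w ++ w').length) := toLex.injective h
        simp only [List.length_append, Prod.mk.injEq, true_and] at h1
        have : w = [] := List.length_eq_zero_iff.mp (by omega)
        subst this
        exact ⟨word [], rfl⟩
    | pt z =>
      rw [wp]
      obtain ⟨h1, h2⟩ := rkL_lw w z
      refine ⟨h1, fun h => ?_⟩
      obtain ⟨w', hw'⟩ := h2 h
      exact ⟨word w', by rw [wp, hw']⟩
  | pt z' =>
    cases z with
    | word w' =>
      rw [pw]
      exact ⟨(zero_lt_rkL _ _).le, fun h => absurd h (zero_lt_rkL _ _).ne⟩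
    | pt z =>
      rw [pp]
      refine ⟨rkL_le_none z, fun h => ?_⟩
      cases z with
      | none => exact ⟨word [], rfl⟩
      | some x => exact absurd h (one_lt_two' _).ne

/-- `y = z * h` -/
theorem RR_mul (z h : H) : RR z ≤ RR (z * h) ∧ (RR z = RR (z * h) → ∃ k, z = (z * h) * k) := by
  cases h with
  | word w =>
    cases z with
    | word w' =>
      rw [ww]
      refine ⟨?_, ?_⟩
      · change (toLex (0, w'.length) : ℕ ×ₗ ℕ) ≤ toLex (0, (w' ++ w).length)
        rw [Prod.Lex.toLex_le_toLex]
        right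
        simp
      · intro h
        have h1 : (0, w'.length) = (0, (w' ++ w).length) := toLex.injective h
        simp only [List.length_append, Prod.mk.injEq, true_and] at h1
        have : w = [] := List.length_eq_zero_iff.mp (by omega)
        subst this
        exact ⟨word [], by rw [ww, List.append_nil, List.append_nil]⟩
    | pt z =>
      rw [pw]
      obtain ⟨h1, h2⟩ := rkR_rw w z
      refine ⟨h1, fun h => ?_⟩
      obtain ⟨w', hw'⟩ := h2 h
      exact ⟨word w', by rw [pw, hw']⟩
  | pt z' =>
    cases z with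
    | word w' =>
      rw [wp]
      exact ⟨(zero_lt_rkR _ _).le, fun h => absurd h (zero_lt_rkR _ _).ne⟩
    | pt z =>
      rw [pp]
      refine ⟨rkR_le_none z, fun h => ?_⟩
      cases z with
      | none => exact ⟨word [], rfl⟩
      | some x => exact absurd h (one_lt_two' _).ne

/-- index bound -/
def idx : Option X → ℕ
  | none => 0
  | some x => x.2.1

lemma idx_act (a : Lt) (x : X) : (act a x).2.1 ≤ x.2.1 := by
  rcases act_cases a x with ⟨m, r, rfl, rfl⟩ | ⟨m, l, r, rfl, rfl⟩ |
      ⟨j, s, m, q, rfl, rfl, h1, h2⟩ | ⟨j, s, m, q, rfl, rfl⟩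
  · rw [act_red1]; exact Nat.le_succ _
  · rw [act_red2]
  · rw [act_red3 _ _ _ _ h1 h2]
  · exact le_rfl

lemma idx_lz (a : Lt ⊕ Lt) (z : Option X) : idx (lz a z) ≤ idx z := by
  cases z with
  | none => rw [lz_none]
  | some x =>
    cases a with
    | inl a => exact idx_act a x
    | inr a => exact Nat.zero_le _

lemma idx_rz (z : Option X) (a : Lt ⊕ Lt) : idx (rz z a) ≤ idx z := by
  cases z with
  | none => rw [rz_none]
  | some x =>
    cases a with
    | inr a => exact idx_act a (sw x)
    | inl a => exact Nat.zero_le _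

lemma idx_lw (w : List (Lt ⊕ Lt)) (z : Option X) : idx (lw w z) ≤ idx z := by
  induction w with
  | nil => exact le_rfl
  | cons a w ih => exact (idx_lz a _).trans ih

lemma idx_rw (z : Option X) (w : List (Lt ⊕ Lt)) : idx (rw' z w) ≤ idx z := by
  induction w generalizing z with
  | nil => exact le_rfl
  | cons a w ih => exact (ih _).trans (idx_rz z a)

/-- the chain -/
def xs (n : ℕ) : H := pt (some ([], n, []))

lemma xs_eq (n : ℕ) : xs n = word [.inl (red n)] * xs (n + 1) * word [.inr (red n)] := by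
  unfold xs
  rw [wp, pw]
  congr 1
  change some ([], n, []) = Option.map (ract (red n)) (some (act (red n) ([], n + 1, [])))
  rw [act_red1]
  have := ract_red2 n 0 []
  simp only [Option.map_some]
  congr 1
  exact this.symm

lemma xs_not (n : ℕ) (h k : H) : xs (n + 1) ≠ h * xs n * k := by
  unfold xs
  intro e
  cases h with
  | word w =>
    rw [wp] at e
    cases k with
    | word w' =>
      rw [pw] at e
      injection e with e
      have h1 := idx_rw (lw w (some ([], n, []))) w'
      have h2 := idx_lw w (some ([], n, []))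
      rw [← e] at h1
      have := h1.trans h2
      simp [idx] at this
    | pt z => rw [pp] at e; cases e
  | pt z =>
    rw [pp] at e
    cases k with
    | word w' => rw [pw, rw_none] at e; cases e
    | pt z => rw [pp] at e; cases e

end Q15Acc
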