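import Mathlib

/-!
# The ai-semirings `B_2` and `B_0`: definitions and the combinatorics of closed sets of words
-/

set_option autoImplicit false
set_option linter.dupNamespace false
set_option linter.unusedSectionVars false

namespace Pool.Agent.Q15.B2

/-- Terms in the variables `x_0, x_1, …` and the two binary operations. -/
inductive Term : Type
  | var : ℕ → Term
  | add : Term → Term → Term
  | mul : Term → Term → Term
deriving DecidableEq

/-- The value of a term. -/
def Term.eval {A : Type} [Add A] [Mul A] (v : ℕ → A) : Term → A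
  | .var n => v n
  | .add s t => s.eval v + t.eval v
  | .mul s t => s.eval v * t.eval v

/-- The identity `e.1 ≈ e.2` holds in the algebra `A`. -/
def Holds (A : Type) [Add A] [Mul A] (e : Term × Term) : Prop :=
  ∀ v : ℕ → A, e.1.eval v = e.2.eval v

/-- The algebra `S` is finitely based: there is a finite set of identities of `S` such that all
algebras satisfying them satisfy all identities of `S`. -/
def FinitelyBased (S : Type) [Add S] [Mul S] : Prop :=
  ∃ E : Finset (Term × Term), (∀ e ∈ E, Holds S e) ∧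
    ∀ (A : Type) [Add A] [Mul A], (∀ e ∈ E, Holds A e) → ∀ e, Holds S e → Holds A e

/-- The Brandt semigroup `B_2` of the `2 × 2` matrix units and the zero matrix: `none` is the zero
matrix and `some (i, j)` is the matrix unit `e_ij`. -/
def B2 : Type := Option (Fin 2 × Fin 2)

instance : DecidableEq B2 := inferInstanceAs (DecidableEq (Option (Fin 2 × Fin 2)))
instance : Fintype B2 := inferInstanceAs (Fintype (Option (Fin 2 × Fin 2)))

/-- the zero matrix -/
def zro : B2 := (none : Option (Fin 2 × Fin 2))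

/-- the matrix unit `e_ij` -/
def unt (i j : Fin 2) : B2 := (some (i, j) : Option (Fin 2 × Fin 2))

/-- Multiplication of matrix units: `e_ij e_kl` is `e_il` if `j = k` and zero otherwise. -/
def mulB : B2 → B2 → B2
  | some (i, j), some (k, l) => if j = k then some (i, l) else none
  | _, _ => none

instance : Mul B2 := ⟨mulB⟩

/-- The flat addition: `x + x = x`, and `x + y = 0` if `x ≠ y`. -/
instance : Add B2 := ⟨fun x y => if x = y then x else none⟩

/-- The subset `{a, ab, ba, 0}` of `B_2`, where `a = e_12`, `ab = e_11`, `ba = e_22`: all elements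
except `b = e_21`. -/
def B0 : Type := {x : B2 // x ≠ unt 1 0}

instance : Mul B0 := ⟨fun x y => ⟨x.1 * y.1, by
  rcases x with ⟨x, hx⟩
  rcases y with ⟨y, hy⟩
  revert x y
  decide⟩⟩

instance : Add B0 := ⟨fun x y => ⟨x.1 + y.1, by
  rcases x with ⟨x, hx⟩
  rcases y with ⟨y, hy⟩
  revert x y
  decide⟩⟩

/-! ### The combinatorial part -/

/-- closed sets of nonempty words -/
structure Closed (D : Set (List ℕ)) : Prop where
  ne : ∀ l ∈ D, l ≠ []
  r1 : ∀ a b c d : List ℕ, a ++ b ∈ D → c ++ b ∈ D → c ++ d ∈ D → a ++ d ≠ [] → a ++ d ∈ D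
  r2 : ∀ (a b c d : List ℕ) (y : ℕ), a ++ y :: b ∈ D → c ++ y :: d ∈ D → a ++ y :: d ∈ D

/-- add the empty word if there is a formal reason for it -/
def ext (D : Set (List ℕ)) : Set (List ℕ) :=
  {l | l ∈ D ∨ (l = [] ∧ ∃ b c, b ∈ D ∧ c ∈ D ∧ c ++ b ∈ D)}

section

variable {D : Set (List ℕ)} (hD : Closed D)
include hD

theorem mem_ext_ne {l : List ℕ} (h : l ∈ ext D) (hl : l ≠ []) : l ∈ D := by
  rcases h with h | ⟨h, _⟩
  · exact h
  · exact absurd h hl

theorem ext_r2 (a b c d : List ℕ) (y : ℕ) (h1 : a ++ y :: b ∈ ext D) (h2 : c ++ y :: d ∈ ext D) :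
    a ++ y :: d ∈ ext D :=
  Or.inl (hD.r2 a b c d y (mem_ext_ne hD h1 (by simp)) (mem_ext_ne hD h2 (by simp)))

/-- if the empty word is formal, `D` is closed under products -/
theorem prod_mem {b0 c0 : List ℕ} (hb : b0 ∈ D) (hc : c0 ∈ D) (hcb : c0 ++ b0 ∈ D)
    {a d : List ℕ} (ha : a ∈ D) (hd : d ∈ D) : a ++ d ∈ D := by
  have h1 : a ++ b0 ∈ D := by
    have := hD.r1 a [] c0 b0 (by simpa using ha) (by simpa using hc) hcb
      (by simp [hD.ne a ha])
    exact this
  exact hD.r1 a b0 [] d h1 (by simpa using hb) (by simpa using hd) (by simp [hD.ne a ha])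

theorem ext_r1 (a b c d : List ℕ) (h1 : a ++ b ∈ ext D) (h2 : c ++ b ∈ ext D)
    (h3 : c ++ d ∈ ext D) : a ++ d ∈ ext D := by
  by_cases hnil : ∃ b c, b ∈ D ∧ c ∈ D ∧ c ++ b ∈ D
  · -- the empty word belongs to `ext D`
    have hemp : ([] : List ℕ) ∈ ext D := Or.inr ⟨rfl, hnil⟩
    obtain ⟨b0, c0, hb0, hc0, hcb0⟩ := hnil
    by_cases had : a ++ d = []
    · rw [had]; exact hemp
    by_cases hab : a ++ b = []
    · obtain ⟨rfl, rfl⟩ := List.append_eq_nil_iff.1 hab
      simp only [List.nil_append, List.append_nil] at *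
      rcases eq_or_ne c [] with rfl | hc
      · simpa using h3
      · have hc' := mem_ext_ne hD h2 hc
        have hcd := mem_ext_ne hD h3 (by simp [hc])
        have h4 : c ++ b0 ∈ D := prod_mem hD hb0 hc0 hcb0 hc' hb0
        exact Or.inl (hD.r1 [] b0 c d (by simpa using hb0) h4 hcd (by simpa using had))
    by_cases hcb : c ++ b = []
    · obtain ⟨rfl, rfl⟩ := List.append_eq_nil_iff.1 hcb
      simp only [List.nil_append, List.append_nil] at *
      rcases eq_or_ne d [] with rfl | hd
      · simpa using h1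
      · exact Or.inl (prod_mem hD hb0 hc0 hcb0 (mem_ext_ne hD h1 hab) (mem_ext_ne hD h3 hd))
    by_cases hcd : c ++ d = []
    · obtain ⟨rfl, rfl⟩ := List.append_eq_nil_iff.1 hcd
      simp only [List.nil_append, List.append_nil] at *
      have hab' := mem_ext_ne hD h1 hab
      have hb' := mem_ext_ne hD h2 hcb
      have h4 : c0 ++ b ∈ D := prod_mem hD hb0 hc0 hcb0 hc0 hb'
      have := hD.r1 a b c0 [] hab' h4 (by simpa using hc0) (by simpa using had)
      exact Or.inl (by simpa using this)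
    exact Or.inl (hD.r1 a b c d (mem_ext_ne hD h1 hab) (mem_ext_ne hD h2 hcb)
      (mem_ext_ne hD h3 hcd) had)
  · have hin : ∀ l, l ∈ ext D → l ∈ D := by
      rintro l (h | ⟨_, h⟩)
      · exact h
      · exact absurd h hnil
    have h1' := hin _ h1
    have h2' := hin _ h2
    have h3' := hin _ h3
    by_cases had : a ++ d = []
    · obtain ⟨rfl, rfl⟩ := List.append_eq_nil_iff.1 had
      simp only [List.nil_append, List.append_nil] at *
      exact absurd ⟨b, c, h1', h3', h2'⟩ hnil
    · exact Or.inl (hD.r1 a b c d h1' h2' h3' had)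

end

/-- prefixes ending at a point of plus type -/
def Pre : Option ℕ → List ℕ → Prop
  | none, a => a = []
  | some x, a => ∃ p, a = p ++ [x]

/-- suffixes starting at a point of minus type -/
def Suf : Option ℕ → List ℕ → Prop
  | none, b => b = []
  | some y, b => ∃ q, b = y :: q

/-- the identification of points -/
def F (D : Set (List ℕ)) (α β : Option ℕ) : Prop :=
  ∃ a b, Pre α a ∧ Suf β b ∧ a ++ b ∈ ext D

section

variable {D : Set (List ℕ)} (hD : Closed D)
include hD

theorem strong {α β : Option ℕ} (h : F D α β) {a' b' a'' b'' : List ℕ} (h1 : Pre α a')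
    (h2 : a' ++ b' ∈ ext D) (h3 : Suf β b'') (h4 : a'' ++ b'' ∈ ext D) : a' ++ b'' ∈ ext D := by
  obtain ⟨a, b, ha, hb, hab⟩ := h
  have h5 : a' ++ b ∈ ext D := by
    rcases α with _ | x
    · obtain rfl : a' = [] := h1
      obtain rfl : a = [] := ha
      exact hab
    · obtain ⟨p', rfl⟩ := h1
      obtain ⟨p, rfl⟩ := ha
      rw [List.append_assoc, List.singleton_append] at *
      exact ext_r2 hD p' b' p b x h2 hab
  rcases β with _ | y
  · obtain rfl : b'' = [] := h3
    obtain rfl : b = [] := hb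
    exact h5
  · obtain ⟨q'', rfl⟩ := h3
    obtain ⟨q, rfl⟩ := hb
    exact ext_r2 hD a' q a'' q'' y h5 h4

theorem zig {α₁ β₁ α₂ β₂ : Option ℕ} (h1 : F D α₁ β₁) (h2 : F D α₂ β₁) (h3 : F D α₂ β₂) :
    F D α₁ β₂ := by
  obtain ⟨a₁, b₁, ha₁, hb₁, h₁⟩ := h1
  obtain ⟨a₂, b₂, ha₂, hb₂, h₃⟩ := h3
  have h4 : a₂ ++ b₁ ∈ ext D := strong hD h2 ha₂ h₃ hb₁ h₁
  exact ⟨a₁, b₂, ha₁, hb₂, ext_r1 hD a₁ b₁ a₂ b₂ h₁ h4 h₃⟩

/-- words all of whose links are identified belong to `D` -/
theorem mem_of_links {w : List ℕ} (hw : w ≠ []) (hne : ∃ l, l ∈ D)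
    (h : ∀ p q, w = p ++ q → ∀ α β, Pre α p → Suf β q → F D α β) : w ∈ D := by
  have key : ∀ p q, w = p ++ q → ∃ b', p ++ b' ∈ ext D := by
    intro p
    induction p using List.reverseRecOn with
    | nil =>
      intro q _
      obtain ⟨l, hl⟩ := hne
      exact ⟨l, Or.inl hl⟩
    | append_singleton p x ih =>
      intro q hq
      have hq' : w = p ++ (x :: q) := by rw [hq]; simp
      obtain ⟨b', hb'⟩ := ih _ hq'
      obtain ⟨α, hα⟩ : ∃ α, Pre α p := by
        rcases List.eq_nil_or_concat p with rfl | ⟨p', y, rfl⟩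
        · exact ⟨none, rfl⟩
        · exact ⟨some y, p', by simp⟩
      have hF := h p (x :: q) hq' α (some x) hα ⟨q, rfl⟩
      obtain ⟨a, b, _, ⟨r, rfl⟩, hab⟩ := hF
      have := strong hD (h p (x :: q) hq' α (some x) hα ⟨q, rfl⟩) hα hb' (β := some x)
        (b'' := x :: r) ⟨r, rfl⟩ hab
      refine ⟨r, ?_⟩
      simpa using this
  obtain ⟨b', hb'⟩ := key w [] (by simp)
  obtain ⟨α, hα⟩ : ∃ α, Pre α w := by
    rcases List.eq_nil_or_concat w with rfl | ⟨p', y, rfl⟩
    · exact ⟨none, rfl⟩
    · exact ⟨some y, p', by simp⟩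
  have hF := h w [] (by simp) α none hα rfl
  obtain ⟨a, b, _, rfl, hab⟩ := hF
  have := strong hD (h w [] (by simp) α none hα rfl) hα hb' (β := none) (b'' := []) rfl hab
  rw [List.append_nil] at this
  exact mem_ext_ne hD this hw

end

end Pool.Agent.Q15.B2
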