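import Pool.Agent.Q15.B2Main

/-!
# The ai-semirings `B_2` and `B_0` are finitely based: separation of words, main theorems
-/

set_option autoImplicit false
set_option linter.dupNamespace false
set_option linter.unusedSectionVars false

namespace Pool.Agent.Q15.B2

open Classical in
/-- the indicator of a proposition -/
noncomputable def ind (P : Prop) : Fin 2 := if P then 1 else 0

theorem ind_eq {P Q : Prop} (h : P ↔ Q) : ind P = ind Q := by
  have : P = Q := propext h
  rw [this]

theorem ind_iff {P Q : Prop} (h : ind P = ind Q) (hP : P) : Q := by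
  unfold ind at h
  rw [if_pos hP] at h
  by_contra hQ
  rw [if_neg hQ] at h
  exact absurd h (by decide)

theorem isAI_B2 : IsAI B2 := isAI_of fun e he => holds_basis2 e (by
  unfold basis2
  rw [List.mem_append, List.mem_append]
  exact Or.inl (Or.inl he))

theorem unt_mul (i j k : Fin 2) : unt i j * unt j k = unt i k := by
  revert i j k; decide

theorem mul_eq_unt : ∀ (a b : B2) (i j : Fin 2), a * b = unt i j →
    ∃ k, a = unt i k ∧ b = unt k j := by decide

theorem eq_unt_of_le : ∀ (x : B2) (i j : Fin 2), x + unt i j = unt i j → x = unt i j := by decide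

theorem unt_inj {i j k l : Fin 2} (h : unt i j = unt k l) : i = k ∧ j = l := by
  revert i j k l; decide

theorem zro_ne (i j : Fin 2) : zro ≠ unt i j := by
  revert i j; decide

/-- the letters of the words of a term -/
def Ltr (s : Term) (x : ℕ) : Prop := ∃ p q, p ++ x :: q ∈ s.words

open Classical in
/-- the assignment of matrix units -/
noncomputable def phi (s : Term) (fm fp : Option ℕ → Fin 2) (x : ℕ) : B2 :=
  if Ltr s x then unt (fm (some x)) (fp (some x)) else zro

theorem phi_unt {s : Term} {fm fp : Option ℕ → Fin 2} {x : ℕ} {i j : Fin 2}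
    (h : phi s fm fp x = unt i j) : Ltr s x ∧ fm (some x) = i ∧ fp (some x) = j := by
  unfold phi at h
  split_ifs at h with hx
  · exact ⟨hx, unt_inj h⟩
  · exact absurd h (zro_ne i j)

theorem phi_of {s : Term} (fm fp : Option ℕ → Fin 2) {x : ℕ} (h : Ltr s x) :
    phi s fm fp x = unt (fm (some x)) (fp (some x)) := by
  unfold phi
  rw [if_pos h]

section

variable {D : Set (List ℕ)} (hD : Closed D) {s : Term} (hs : s.words ⊆ D)
  (fm fp : Option ℕ → Fin 2) (hf : ∀ α β, F D α β → fp α = fm β)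
include hD hs hf

theorem val_words : ∀ w ∈ s.words, val (phi s fm fp) w = unt (fp none) (fm none) := by
  have key : ∀ (q p : List ℕ) (x : ℕ), p ++ x :: q ∈ s.words →
      val (phi s fm fp) (x :: q) = unt (fm (some x)) (fm none) := by
    intro q
    induction q with
    | nil =>
      intro p x h
      show phi s fm fp x = _
      rw [phi_of fm fp ⟨p, [], h⟩]
      rw [hf (some x) none ⟨p ++ [x], [], ⟨p, rfl⟩, rfl, Or.inl (by simpa using hs h)⟩]
    | cons y q ih =>
      intro p x h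
      have h1 := ih (p ++ [x]) y (by simpa using h)
      show phi s fm fp x * val (phi s fm fp) (y :: q) = _
      rw [h1, phi_of fm fp ⟨p, y :: q, h⟩]
      rw [hf (some x) (some y) ⟨p ++ [x], y :: q, ⟨p, rfl⟩, ⟨q, rfl⟩, Or.inl (by simpa using hs h)⟩]
      exact unt_mul _ _ _
  intro w hw
  rcases w with _ | ⟨x, q⟩
  · exact absurd rfl (words_ne s _ hw)
  · rw [key q [] x hw, hf none (some x) ⟨[], x :: q, rfl, ⟨q, rfl⟩, Or.inl (hs hw)⟩]

theorem eval_phi : s.eval (phi s fm fp) = unt (fp none) (fm none) := by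
  apply eq_unt_of_le
  apply (eval_mem_ideal isAI_B2 (phi s fm fp) s _ (ideal_le isAI_B2 _)).2
  intro w hw
  rw [val_words hD hs fm fp hf w hw]
  exact isAI_B2.add_idem _

/-- the links of a word of a term `t` with the same value as `s` -/
theorem links {t : Term} (ht : s.eval (phi s fm fp) = t.eval (phi s fm fp)) {w : List ℕ}
    (hw : w ∈ t.words) (p q : List ℕ) (hpq : w = p ++ q) (α β : Option ℕ) (hα : Pre α p)
    (hβ : Suf β q) : fp α = fm β ∧ (∀ x, α = some x → Ltr s x) ∧ (∀ y, β = some y → Ltr s y) := by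
  have hval : val (phi s fm fp) w = unt (fp none) (fm none) := by
    apply eq_unt_of_le
    have := (words_sub_below isAI_B2 (phi s fm fp) t hw).2
    rwa [← ht, eval_phi hD hs fm fp hf] at this
  have hhead : ∀ (y : ℕ) (q' : List ℕ) (i j : Fin 2), val (phi s fm fp) (y :: q') = unt i j →
      Ltr s y ∧ fm (some y) = i := by
    intro y q' i j h
    rcases q' with _ | ⟨z, q'⟩
    · exact ⟨(phi_unt h).1, (phi_unt h).2.1⟩
    · obtain ⟨k, h1, _⟩ := mul_eq_unt _ _ i j h
      exact ⟨(phi_unt h1).1, (phi_unt h1).2.1⟩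
  have hlast : ∀ (x : ℕ) (p' : List ℕ) (i j : Fin 2), val (phi s fm fp) (p' ++ [x]) = unt i j →
      Ltr s x ∧ fp (some x) = j := by
    intro x p' i j h
    rcases eq_or_ne p' [] with rfl | hp'
    · exact ⟨(phi_unt h).1, (phi_unt h).2.2⟩
    · rw [val_append isAI_B2 _ p' [x] hp' (by simp)] at h
      obtain ⟨k, _, h1⟩ := mul_eq_unt _ _ i j h
      exact ⟨(phi_unt h1).1, (phi_unt h1).2.2⟩
  have hwne := words_ne t w hw
  rcases α with _ | x <;> rcases β with _ | y
  · obtain rfl : p = [] := hα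
    obtain rfl : q = [] := hβ
    exact absurd hpq hwne
  · obtain rfl : p = [] := hα
    obtain ⟨q', rfl⟩ := hβ
    rw [hpq] at hval
    obtain ⟨h1, h2⟩ := hhead y q' _ _ hval
    refine ⟨h2.symm, fun x hx => (by cases hx), fun y' hy' => ?_⟩
    cases hy'
    exact h1
  · obtain ⟨p', rfl⟩ := hα
    obtain rfl : q = [] := hβ
    rw [hpq, List.append_nil] at hval
    obtain ⟨h1, h2⟩ := hlast x p' _ _ hval
    refine ⟨h2, fun x' hx' => ?_, fun y hy => (by cases hy)⟩
    cases hx'
    exact h1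
  · obtain ⟨p', rfl⟩ := hα
    obtain ⟨q', rfl⟩ := hβ
    rw [hpq, val_append isAI_B2 _ _ _ (by simp) (by simp)] at hval
    obtain ⟨k, h1, h2⟩ := mul_eq_unt _ _ _ _ hval
    obtain ⟨h3, h4⟩ := hlast x p' _ _ h1
    obtain ⟨h5, h6⟩ := hhead y q' _ _ h2
    refine ⟨h4.trans h6.symm, fun x' hx' => ?_, fun y' hy' => ?_⟩
    · cases hx'
      exact h3
    · cases hy'
      exact h5

end

/-- points which occur have a partner -/
theorem partner_plus {D : Set (List ℕ)} {s : Term} (hs : s.words ⊆ D) (α : Option ℕ)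
    (hα : ∀ x, α = some x → Ltr s x) : ∃ β, F D α β := by
  rcases α with _ | x
  · obtain ⟨l, hl⟩ := words_nonempty s
    rcases l with _ | ⟨y, q⟩
    · exact absurd rfl (words_ne s _ hl)
    · exact ⟨some y, [], y :: q, rfl, ⟨q, rfl⟩, Or.inl (hs hl)⟩
  · obtain ⟨p, q, h⟩ := hα x rfl
    rcases q with _ | ⟨y, q⟩
    · exact ⟨none, p ++ [x], [], ⟨p, rfl⟩, rfl, Or.inl (by simpa using hs h)⟩
    · exact ⟨some y, p ++ [x], y :: q, ⟨p, rfl⟩, ⟨q, rfl⟩, Or.inl (by simpa using hs h)⟩

theorem partner_minus {D : Set (List ℕ)} {s : Term} (hs : s.words ⊆ D) (β : Option ℕ)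
    (hβ : ∀ y, β = some y → Ltr s y) : ∃ α, F D α β := by
  rcases β with _ | y
  · obtain ⟨l, hl⟩ := words_nonempty s
    rcases List.eq_nil_or_concat l with rfl | ⟨p, x, rfl⟩
    · exact absurd rfl (words_ne s _ hl)
    · exact ⟨some x, p ++ [x], [], ⟨p, rfl⟩, rfl, Or.inl (by simpa using hs hl)⟩
  · obtain ⟨p, q, h⟩ := hβ y rfl
    rcases List.eq_nil_or_concat p with rfl | ⟨p', x, rfl⟩
    · exact ⟨none, [], y :: q, rfl, ⟨q, rfl⟩, Or.inl (hs h)⟩
    · exact ⟨some x, p' ++ [x], y :: q, ⟨p', rfl⟩, ⟨q, rfl⟩, Or.inl (by simpa using hs h)⟩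

/-- an identity of `B_2`: the words of one side are in the closure of the words of the other -/
theorem words_mem_B2 {s t : Term} (h : Holds B2 (s, t)) {D : Set (List ℕ)} (hD : Closed D)
    (hs : s.words ⊆ D) : t.words ⊆ D := by
  intro w hw
  obtain ⟨l, hl⟩ := words_nonempty s
  refine mem_of_links hD (words_ne t w hw) ⟨l, hs hl⟩ fun p q hpq α β hα hβ => ?_
  have hf : ∀ α' β', F D α' β' → ind (∃ γ, F D α' γ ∧ F D α γ) = ind (F D α β') := by
    intro α' β' h'
    apply ind_eq
    constructor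
    · rintro ⟨γ, h1, h2⟩
      exact zig hD h2 h1 h'
    · intro h1
      exact ⟨β', h', h1⟩
  obtain ⟨h1, h2, _⟩ := links hD hs (fun β' => ind (F D α β'))
    (fun α' => ind (∃ γ, F D α' γ ∧ F D α γ)) hf (h _) hw p q hpq α β hα hβ
  obtain ⟨γ, hγ⟩ := partner_plus hs α h2
  exact ind_iff h1 ⟨γ, hγ, hγ⟩

theorem finitelyBased_B2 : FinitelyBased B2 := by
  classical
  refine ⟨basis2.toFinset, fun e he => holds_basis2 e (List.mem_toFinset.1 he), ?_⟩
  intro A _ _ hA' e he v
  have hA : ∀ e ∈ basis2, Holds A e := fun e he => hA' e (List.mem_toFinset.2 he)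
  have hAI : IsAI A := isAI_of fun e he => hA e (by
    unfold basis2
    rw [List.mem_append, List.mem_append]
    exact Or.inl (Or.inl he))
  obtain ⟨s, t⟩ := e
  apply eval_eq_of_words hAI
  · exact words_mem_B2 (s := t) (t := s) (fun v => (he v).symm) (below_closed hAI hA v _)
      (words_sub_below hAI v t)
  · exact words_mem_B2 he (below_closed hAI hA v _) (words_sub_below hAI v s)

/-! ### `B_0` -/

/-- reachability -/
inductive Reach (D : Set (List ℕ)) (α₀ : Option ℕ) : Option ℕ → Prop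
  | base {β : Option ℕ} : F D α₀ β → Reach D α₀ β
  | step {x : ℕ} {β : Option ℕ} : Reach D α₀ (some x) → F D (some x) β → Reach D α₀ β

section

variable {D : Set (List ℕ)} (hD : Closed D)
include hD

/-- the last step of a walk can be changed -/
theorem Reach.swap {α₀ α β β' : Option ℕ} (h : Reach D α₀ β) (h1 : F D α β) (h2 : F D α β') :
    Reach D α₀ β' := by
  cases h with
  | base h => exact Reach.base (zig hD h h1 h2)
  | step h h' => exact Reach.step h (zig hD h' h1 h2)

theorem Reach.trans {α₀ α₁ β₀ β : Option ℕ} (h : Reach D α₀ β₀) (h1 : F D α₁ β₀)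
    (h2 : Reach D α₁ β) : Reach D α₀ β := by
  induction h2 with
  | base h3 => exact Reach.swap hD h h1 h3
  | step _ h4 ih => exact Reach.step ih h4

/-- walks can be realised by words -/
theorem Reach.walk {α β : Option ℕ} (h : Reach D α β) {a' b' : List ℕ} (h1 : Pre α a')
    (h2 : a' ++ b' ∈ ext D) : ∃ u, ∀ a'' b'', Suf β b'' → a'' ++ b'' ∈ ext D →
      a' ++ (u ++ b'') ∈ ext D := by
  induction h with
  | base h3 => exact ⟨[], fun a'' b'' h4 h5 => strong hD h3 h1 h2 h4 h5⟩
  | @step x β _ h4 ih =>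
    obtain ⟨u, hu⟩ := ih
    obtain ⟨a, b, ⟨p, rfl⟩, _, hab⟩ := id h4
    refine ⟨u ++ [x], fun a'' b'' h5 h6 => ?_⟩
    have h7 := hu p (x :: b) ⟨b, rfl⟩ (by simpa using hab)
    have h8 := strong hD h4 (a' := a' ++ (u ++ [x])) (b' := b) ⟨a' ++ u, by simp⟩
      (by simpa using h7) h5 h6
    simpa using h8

variable (h3 : ∀ (p u q : List ℕ) (x : ℕ), p ++ (x :: u ++ [x]) ++ q ∈ D → p ++ [x, x] ++ q ∈ D)
include h3

theorem Reach.loop {x : ℕ} (h : Reach D (some x) (some x)) (hx : ∃ β, F D (some x) β) :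
    F D (some x) (some x) := by
  obtain ⟨β, a, b, ⟨p, rfl⟩, _, hab⟩ := hx
  obtain ⟨u, hu⟩ := Reach.walk hD h (a' := p ++ [x]) (b' := b) ⟨p, rfl⟩ hab
  have h4 := hu p (x :: b) ⟨b, rfl⟩ (by simpa using hab)
  have h5 := mem_ext_ne hD h4 (by simp)
  have h6 := h3 p u b x (by simpa using h5)
  exact ⟨p ++ [x], x :: b, ⟨p, rfl⟩, ⟨b, rfl⟩, Or.inl (by simpa using h6)⟩

theorem Reach.collapse {α₀ β₀ : Option ℕ} (h : Reach D α₀ β₀)
    (h1 : ∃ α₁, F D α₁ β₀ ∧ ∃ β, F D α₀ β ∧ Reach D α₁ β)
    (hp : ∀ x, Reach D α₀ (some x) → ∃ α, F D α (some x)) : F D α₀ β₀ := by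
  induction h with
  | base h => exact h
  | @step z β₀ h4 h5 ih =>
    obtain ⟨α₁, h6, β, h7, h8⟩ := h1
    obtain ⟨α₂, h9⟩ := hp z h4
    have h10 : Reach D α₂ β := Reach.trans hD (Reach.step (Reach.base h9) h5) h6 h8
    have h11 : F D α₀ (some z) := ih ⟨α₂, h9, β, h7, h10⟩
    have h12 : Reach D (some z) (some z) :=
      Reach.trans hD (Reach.trans hD (Reach.base h5) h6 h8) h7 h4
    have h13 : F D (some z) (some z) := Reach.loop hD h3 h12 ⟨β₀, h5⟩
    exact zig hD h11 h13 h5

end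

theorem eval_B0 (v : ℕ → B0) : ∀ t : Term, (t.eval v).1 = t.eval (fun n => (v n).1)
  | .var n => rfl
  | .add s t => by
    show (s.eval v).1 + (t.eval v).1 = _
    rw [eval_B0 v s, eval_B0 v t]
    rfl
  | .mul s t => by
    show (s.eval v).1 * (t.eval v).1 = _
    rw [eval_B0 v s, eval_B0 v t]
    rfl

theorem holds_B0_iff (e : Term × Term) : Holds B0 e ↔
    ∀ v : ℕ → B2, (∀ n, v n ≠ unt 1 0) → e.1.eval v = e.2.eval v := by
  constructor
  · intro h v hv
    have := congrArg Subtype.val (h fun n => ⟨v n, hv n⟩)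
    rwa [eval_B0, eval_B0] at this
  · intro h v
    apply Subtype.ext
    rw [eval_B0, eval_B0]
    exact h _ fun n => (v n).2

/-- an identity of `B_0`: the words of one side are in the closure of the words of the other -/
theorem words_mem_B0 {s t : Term} (h : Holds B0 (s, t)) {D : Set (List ℕ)} (hD : Closed D)
    (h3 : ∀ (p u q : List ℕ) (x : ℕ), p ++ (x :: u ++ [x]) ++ q ∈ D → p ++ [x, x] ++ q ∈ D)
    (hs : s.words ⊆ D) : t.words ⊆ D := by
  rw [holds_B0_iff] at h
  -- the functions given by a point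
  have main : ∀ α₀ : Option ℕ, ∀ w ∈ t.words, ∀ (p q : List ℕ), w = p ++ q → ∀ α β, Pre α p →
      Suf β q → ((∃ γ, F D α γ ∧ Reach D α₀ γ) ↔ Reach D α₀ β) ∧ (∀ x, α = some x → Ltr s x) ∧
        (∀ y, β = some y → Ltr s y) := by
    intro α₀ w hw p q hpq α β hα hβ
    have hf0 : ∀ α' β', F D α' β' → ((∃ γ, F D α' γ ∧ Reach D α₀ γ) ↔ Reach D α₀ β') := by
      intro α' β' h'
      constructor
      · rintro ⟨γ, h1, h2⟩
        exact Reach.swap hD h2 h1 h'
      · intro h1
        exact ⟨β', h', h1⟩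
    have hf : ∀ α' β', F D α' β' → ind (∃ γ, F D α' γ ∧ Reach D α₀ γ) = ind (Reach D α₀ β') :=
      fun α' β' h' => ind_eq (hf0 α' β' h')
    have hne : ∀ n, phi s (fun β' => ind (Reach D α₀ β'))
        (fun α' => ind (∃ γ, F D α' γ ∧ Reach D α₀ γ)) n ≠ unt 1 0 := by
      intro n hn
      obtain ⟨h1, h2, h4⟩ := phi_unt hn
      have h5 : Reach D α₀ (some n) := by
        by_contra hcon
        have h6 : ind (Reach D α₀ (some n)) = 0 := if_neg hcon
        simp only [h6] at h2
        exact absurd h2 (by decide)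
      obtain ⟨γ, hγ⟩ := partner_plus hs (some n) (fun x hx => by cases hx; exact h1)
      have h6 : ind (∃ γ, F D (some n) γ ∧ Reach D α₀ γ) = 1 := if_pos ⟨γ, hγ, Reach.step h5 hγ⟩
      simp only [h6] at h4
      exact absurd h4 (by decide)
    obtain ⟨h1, h2, h4⟩ := links hD hs (fun β' => ind (Reach D α₀ β'))
      (fun α' => ind (∃ γ, F D α' γ ∧ Reach D α₀ γ)) hf (h _ hne) hw p q hpq α β hα hβ
    exact ⟨⟨fun h => ind_iff h1 h, fun h => ind_iff h1.symm h⟩, h2, h4⟩
  intro w hw
  obtain ⟨l, hl⟩ := words_nonempty s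
  refine mem_of_links hD (words_ne t w hw) ⟨l, hs hl⟩ fun p q hpq α β hα hβ => ?_
  obtain ⟨h1, h2, h4⟩ := main α w hw p q hpq α β hα hβ
  obtain ⟨γ, hγ⟩ := partner_plus hs α h2
  have h5 : Reach D α β := h1.1 ⟨γ, hγ, Reach.base hγ⟩
  obtain ⟨α₁, hα₁⟩ := partner_minus hs β h4
  obtain ⟨h6, _, _⟩ := main α₁ w hw p q hpq α β hα hβ
  obtain ⟨δ, h7, h8⟩ := h6.2 (Reach.base hα₁)
  refine Reach.collapse hD h3 h5 ⟨α₁, hα₁, δ, h7, h8⟩ ?_
  intro x hx
  cases hx with
  | base h => exact ⟨_, h⟩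
  | step _ h => exact ⟨_, h⟩

theorem r3_dec : ∀ x y : B2, x ≠ unt 1 0 → y ≠ unt 1 0 → x * (y * x) + x * x = x * (y * x) := by
  decide

theorem holds_basis0 : ∀ e ∈ basis0, Holds B0 e := by
  intro e he
  rw [holds_B0_iff]
  rcases List.mem_append.1 he with he | he
  · exact fun v _ => holds_basis2 e he v
  · obtain rfl : e = R3 := by simpa using he
    intro v hv
    exact r3_dec (v 0) (v 1) (hv 0) (hv 1)

theorem finitelyBased_B0 : FinitelyBased B0 := by
  classical
  refine ⟨basis0.toFinset, fun e he => holds_basis0 e (List.mem_toFinset.1 he), ?_⟩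
  intro A _ _ hA' e he v
  have hA : ∀ e ∈ basis2, Holds A e := fun e he =>
    hA' e (List.mem_toFinset.2 (List.mem_append_left _ he))
  have hR3 : Holds A R3 := hA' R3 (List.mem_toFinset.2 (List.mem_append_right _ (by simp)))
  have hAI : IsAI A := isAI_of fun e he => hA e (by
    unfold basis2
    rw [List.mem_append, List.mem_append]
    exact Or.inl (Or.inl he))
  obtain ⟨s, t⟩ := e
  apply eval_eq_of_words hAI
  · exact words_mem_B0 (s := t) (t := s) (fun v => (he v).symm) (below_closed hAI hA v _)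
      (below_r3 hAI hR3 v _) (words_sub_below hAI v t)
  · exact words_mem_B0 he (below_closed hAI hA v _) (below_r3 hAI hR3 v _)
      (words_sub_below hAI v s)

end Pool.Agent.Q15.B2
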