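import Pool.Agent.Q15.B2Sem

/-!
# The ai-semirings `B_2` and `B_0` are finitely based
-/

set_option autoImplicit false
set_option linter.dupNamespace false
set_option linter.unusedSectionVars false

namespace Pool.Agent.Q15.B2

/-! ### `B_2` satisfies the identities -/

/-- the assignment with five values -/
def asg5 {A : Type} (a b c d e : A) : ℕ → A
  | 0 => a
  | 1 => b
  | 2 => c
  | 3 => d
  | _ => e

/-- the variable `n` occurs -/
def occ (n : ℕ) : Term → Bool
  | .var m => m == n
  | .add s t => occ n s || occ n t
  | .mul s t => occ n s || occ n t

theorem eval_congr {A : Type} [Add A] [Mul A] (v w : ℕ → A) : ∀ t : Term,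
    (∀ n, occ n t = true → v n = w n) → t.eval v = t.eval w
  | .var n, h => h n (by simp [occ])
  | .add s t, h => by
    show s.eval v + t.eval v = s.eval w + t.eval w
    rw [eval_congr v w s fun n hn => h n (by simp [occ, hn]),
      eval_congr v w t fun n hn => h n (by simp [occ, hn])]
  | .mul s t, h => by
    show s.eval v * t.eval v = s.eval w * t.eval w
    rw [eval_congr v w s fun n hn => h n (by simp [occ, hn]),
      eval_congr v w t fun n hn => h n (by simp [occ, hn])]

/-- only the first five variables occur -/
def small : Term → Bool
  | .var n => n < 5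
  | .add s t => small s && small t
  | .mul s t => small s && small t

theorem occ_small (n : ℕ) : ∀ t : Term, small t = true → occ n t = true → n < 5
  | .var m, h, h' => by
    have h1 : m < 5 := by simpa [small] using h
    have h2 : m = n := by simpa [occ] using h'
    omega
  | .add s t, h, h' => by
    have h1 : small s = true ∧ small t = true := by simpa [small] using h
    have h2 : occ n s = true ∨ occ n t = true := by simpa [occ] using h'
    exact h2.elim (occ_small n s h1.1) (occ_small n t h1.2)
  | .mul s t, h, h' => by
    have h1 : small s = true ∧ small t = true := by simpa [small] using h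
    have h2 : occ n s = true ∨ occ n t = true := by simpa [occ] using h'
    exact h2.elim (occ_small n s h1.1) (occ_small n t h1.2)

theorem basis0_small : ∀ e ∈ basis0, small e.1 = true ∧ small e.2 = true := by decide

/-- the values to be tested for a variable -/
def dom (used : Bool) : List B2 :=
  if used then [zro, unt 0 0, unt 0 1, unt 1 0, unt 1 1] else [zro]

/-- the variable occurs in the identity -/
def use (n : ℕ) (e : Term × Term) : Bool := occ n e.1 || occ n e.2

theorem basis2_dec : ∀ e ∈ basis2, ∀ a ∈ dom (use 0 e), ∀ b ∈ dom (use 1 e), ∀ c ∈ dom (use 2 e),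
    ∀ d ∈ dom (use 3 e), ∀ f ∈ dom (use 4 e),
    e.1.eval (asg5 a b c d f) = e.2.eval (asg5 a b c d f) := by
  decide +kernel

theorem mem_dom : ∀ (x : B2) (b : Bool), (if b then x else zro) ∈ dom b := by
  decide

theorem holds_basis2 : ∀ e ∈ basis2, Holds B2 e := by
  intro e he v
  have h := basis0_small e (List.mem_append_left _ he)
  have key := basis2_dec e he _ (mem_dom (v 0) _) _ (mem_dom (v 1) _) _ (mem_dom (v 2) _) _
    (mem_dom (v 3) _) _ (mem_dom (v 4) _)
  have h1 : ∀ n, use n e = true → n < 5 → v n = asg5 (if use 0 e then v 0 else zro)
      (if use 1 e then v 1 else zro) (if use 2 e then v 2 else zro) (if use 3 e then v 3 else zro)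
      (if use 4 e then v 4 else zro) n := by
    intro n hn hn5
    interval_cases n <;> simp [asg5, hn]
  rw [eval_congr v _ e.1 fun n hn => h1 n (by simp [use, hn]) (occ_small n e.1 h.1 hn),
    eval_congr v _ e.2 fun n hn => h1 n (by simp [use, hn]) (occ_small n e.2 h.2 hn)]
  exact key

end Pool.Agent.Q15.B2
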