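import Pool.Agent.Q15.B2Defs

/-!
# The ai-semirings `B_2` and `B_0`: evaluation of words, the finite bases
-/

set_option autoImplicit false
set_option linter.dupNamespace false
set_option linter.unusedSectionVars false

namespace Pool.Agent.Q15.B2

/-! ### words of a term -/

/-- the words of a term -/
def Term.words : Term → Set (List ℕ)
  | .var n => {[n]}
  | .add s t => s.words ∪ t.words
  | .mul s t => {l | ∃ u ∈ s.words, ∃ v ∈ t.words, l = u ++ v}

theorem words_ne : ∀ (t : Term) (l : List ℕ), l ∈ t.words → l ≠ [] := by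
  intro t
  induction t with
  | var n => rintro l rfl; simp
  | add s t hs ht =>
    rintro l (h | h)
    · exact hs l h
    · exact ht l h
  | mul s t hs ht =>
    rintro l ⟨u, hu, v, hv, rfl⟩
    simp [hs u hu]

theorem words_nonempty : ∀ t : Term, ∃ l, l ∈ t.words := by
  intro t
  induction t with
  | var n => exact ⟨[n], rfl⟩
  | add s t hs ht => exact ⟨_, Or.inl hs.choose_spec⟩
  | mul s t hs ht => exact ⟨_, _, hs.choose_spec, _, ht.choose_spec, rfl⟩

/-- the value of a (nonempty) word -/
def val {A : Type} [Mul A] (v : ℕ → A) : List ℕ → A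
  | [] => v 0
  | [x] => v x
  | x :: y :: l => v x * val v (y :: l)

/-- the laws of ai-semirings -/
structure IsAI (A : Type) [Add A] [Mul A] : Prop where
  add_comm : ∀ x y : A, x + y = y + x
  add_assoc : ∀ x y z : A, x + y + z = x + (y + z)
  add_idem : ∀ x : A, x + x = x
  mul_assoc : ∀ x y z : A, x * y * z = x * (y * z)
  add_mul : ∀ x y z : A, (x + y) * z = x * z + y * z
  mul_add : ∀ x y z : A, x * (y + z) = x * y + x * z

section AI

variable {A : Type} [Add A] [Mul A] (hA : IsAI A)
include hA

theorem val_append (v : ℕ → A) : ∀ (a b : List ℕ), a ≠ [] → b ≠ [] →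
    val v (a ++ b) = val v a * val v b := by
  intro a
  induction a with
  | nil => intro b h; exact absurd rfl h
  | cons x a ih =>
    intro b _ hb
    rcases a with _ | ⟨y, a⟩
    · rcases b with _ | ⟨z, b⟩
      · exact absurd rfl hb
      · rfl
    · have := ih b (by simp) hb
      show v x * val v (y :: (a ++ b)) = v x * val v (y :: a) * val v b
      rw [hA.mul_assoc, ← this]
      rfl

/-- an ideal for the order -/
structure IsIdeal (I : A → Prop) : Prop where
  add_iff : ∀ x y : A, I (x + y) ↔ I x ∧ I y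

theorem ideal_le (z : A) : IsIdeal (fun x : A => x + z = z) := by
  refine ⟨fun x y => ⟨fun h => ⟨?_, ?_⟩, fun h => ?_⟩⟩
  · show x + z = z
    have h' : x + y + z = z := h
    calc x + z = x + (x + y + z) := by rw [h']
      _ = (x + x) + y + z := by rw [hA.add_assoc x x y, ← hA.add_assoc x (x + y) z]
      _ = z := by rw [hA.add_idem, h']
  · show y + z = z
    have h' : x + y + z = z := h
    calc y + z = y + (x + y + z) := by rw [h']
      _ = (x + (y + y)) + z := by
          rw [← hA.add_assoc y (x + y) z, ← hA.add_assoc y x y, hA.add_comm y x, hA.add_assoc x y y]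
      _ = z := by rw [hA.add_idem, h']
  · show x + y + z = z
    have h1 : x + z = z := h.1
    have h2 : y + z = z := h.2
    rw [hA.add_assoc, h2, h1]

theorem ideal_left {I : A → Prop} (hI : IsIdeal I) (p : A) : IsIdeal (fun x : A => I (p * x)) :=
  ⟨fun x y => by
    show I (p * (x + y)) ↔ _
    rw [hA.mul_add, hI.add_iff]⟩

theorem ideal_right {I : A → Prop} (hI : IsIdeal I) (p : A) : IsIdeal (fun x : A => I (x * p)) :=
  ⟨fun x y => by
    show I ((x + y) * p) ↔ _
    rw [hA.add_mul, hI.add_iff]⟩

/-- the value of a term is the least upper bound of the values of its words -/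
theorem eval_mem_ideal (v : ℕ → A) (t : Term) : ∀ (I : A → Prop), IsIdeal I →
    (I (t.eval v) ↔ ∀ w ∈ t.words, I (val v w)) := by
  induction t with
  | var n =>
    intro I _
    constructor
    · rintro h w rfl; exact h
    · intro h; exact h [n] rfl
  | add s t hs ht =>
    intro I hI
    show I (s.eval v + t.eval v) ↔ _
    rw [hI.add_iff, hs I hI, ht I hI]
    constructor
    · rintro ⟨h1, h2⟩ w (hw | hw)
      · exact h1 w hw
      · exact h2 w hw
    · intro h
      exact ⟨fun w hw => h w (Or.inl hw), fun w hw => h w (Or.inr hw)⟩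
  | mul s t hs ht =>
    intro I hI
    show I (s.eval v * t.eval v) ↔ _
    rw [hs _ (ideal_right hA hI (t.eval v))]
    constructor
    · rintro h w ⟨u, hu, w', hw', rfl⟩
      rw [val_append hA v u w' (words_ne s u hu) (words_ne t w' hw')]
      exact (ht _ (ideal_left hA hI (val v u))).1 (h u hu) w' hw'
    · intro h u hu
      apply (ht _ (ideal_left hA hI (val v u))).2
      intro w' hw'
      have := h (u ++ w') ⟨u, hu, w', hw', rfl⟩
      rwa [val_append hA v u w' (words_ne s u hu) (words_ne t w' hw')] at this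

/-- the set of words below an element -/
def below (v : ℕ → A) (z : A) : Set (List ℕ) := {l | l ≠ [] ∧ val v l + z = z}

theorem words_sub_below (v : ℕ → A) (t : Term) : t.words ⊆ below (A := A) v (t.eval v) := by
  intro w hw
  refine ⟨words_ne t w hw, ?_⟩
  exact (eval_mem_ideal hA v t _ (ideal_le hA (t.eval v))).1 (hA.add_idem _) w hw

/-- if the words of `s` are below `t` and conversely, the values are equal -/
theorem eval_eq_of_words (v : ℕ → A) (s t : Term) (h1 : s.words ⊆ below (A := A) v (t.eval v))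
    (h2 : t.words ⊆ below (A := A) v (s.eval v)) : s.eval v = t.eval v := by
  have h3 : s.eval v + t.eval v = t.eval v :=
    (eval_mem_ideal hA v s _ (ideal_le hA (t.eval v))).2 fun w hw => (h1 hw).2
  have h4 : t.eval v + s.eval v = s.eval v :=
    (eval_mem_ideal hA v t _ (ideal_le hA (s.eval v))).2 fun w hw => (h2 hw).2
  rw [hA.add_comm] at h3
  rw [← h4, h3]

end AI

/-! ### the identities -/

/-- the term of a word -/
def wt : List ℕ → Term
  | [] => .var 0
  | [x] => .var x
  | x :: y :: l => .mul (.var x) (wt (y :: l))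

theorem eval_wt {A : Type} [Add A] [Mul A] (v : ℕ → A) : ∀ l : List ℕ, (wt l).eval v = val v l
  | [] => rfl
  | [_] => rfl
  | x :: y :: l => by
    show v x * (wt (y :: l)).eval v = v x * val v (y :: l)
    rw [eval_wt v (y :: l)]

/-- an optional letter -/
def opt (f : Bool) (k : ℕ) : List ℕ := if f then [k] else []

/-- `ab + cb + cd + ad ≈ ab + cb + cd`, some of the letters may be missing -/
def R1 (fa fb fc fd : Bool) : Term × Term :=
  (.add (.add (.add (wt (opt fa 0 ++ opt fb 1)) (wt (opt fc 2 ++ opt fb 1)))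
      (wt (opt fc 2 ++ opt fd 3))) (wt (opt fa 0 ++ opt fd 3)),
    .add (.add (wt (opt fa 0 ++ opt fb 1)) (wt (opt fc 2 ++ opt fb 1))) (wt (opt fc 2 ++ opt fd 3)))

/-- `ayb + cyd + ayd ≈ ayb + cyd`, some of the letters `a`, `b`, `c`, `d` may be missing -/
def R2 (fa fb fc fd : Bool) : Term × Term :=
  (.add (.add (wt (opt fa 0 ++ 4 :: opt fb 1)) (wt (opt fc 2 ++ 4 :: opt fd 3)))
      (wt (opt fa 0 ++ 4 :: opt fd 3)),
    .add (wt (opt fa 0 ++ 4 :: opt fb 1)) (wt (opt fc 2 ++ 4 :: opt fd 3)))

/-- `xyx + xx ≈ xyx` -/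
def R3 : Term × Term := (.add (wt [0, 1, 0]) (wt [0, 0]), wt [0, 1, 0])

/-- all quadruples of flags -/
def flags : List (Bool × Bool × Bool × Bool) :=
  [true, false].flatMap fun a => [true, false].flatMap fun b => [true, false].flatMap fun c =>
    [true, false].map fun d => (a, b, c, d)

/-- the quadruples of flags for which no word of `R1` is empty -/
def ok (f : Bool × Bool × Bool × Bool) : Bool :=
  (f.1 || f.2.1) && (f.2.2.1 || f.2.1) && (f.2.2.1 || f.2.2.2) && (f.1 || f.2.2.2)

/-- the laws of ai-semirings as identities -/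
def aiLaws : List (Term × Term) :=
  [(.add (.var 0) (.var 1), .add (.var 1) (.var 0)),
    (.add (.add (.var 0) (.var 1)) (.var 2), .add (.var 0) (.add (.var 1) (.var 2))),
    (.add (.var 0) (.var 0), .var 0),
    (.mul (.mul (.var 0) (.var 1)) (.var 2), .mul (.var 0) (.mul (.var 1) (.var 2))),
    (.mul (.add (.var 0) (.var 1)) (.var 2), .add (.mul (.var 0) (.var 2)) (.mul (.var 1) (.var 2))),
    (.mul (.var 0) (.add (.var 1) (.var 2)), .add (.mul (.var 0) (.var 1)) (.mul (.var 0) (.var 2)))]

/-- the basis of `B_2` -/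
def basis2 : List (Term × Term) :=
  aiLaws ++ (flags.filter ok).map (fun f => R1 f.1 f.2.1 f.2.2.1 f.2.2.2) ++
    flags.map (fun f => R2 f.1 f.2.1 f.2.2.1 f.2.2.2)

/-- the basis of `B_0` -/
def basis0 : List (Term × Term) := basis2 ++ [R3]

theorem isAI_of {A : Type} [Add A] [Mul A] (h : ∀ e ∈ aiLaws, Holds A e) : IsAI A := by
  have e0 := h _ (show _ ∈ aiLaws from List.mem_cons_self)
  have e1 := h (.add (.add (.var 0) (.var 1)) (.var 2), .add (.var 0) (.add (.var 1) (.var 2)))
    (by simp [aiLaws])
  have e2 := h (.add (.var 0) (.var 0), .var 0) (by simp [aiLaws])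
  have e3 := h (.mul (.mul (.var 0) (.var 1)) (.var 2), .mul (.var 0) (.mul (.var 1) (.var 2)))
    (by simp [aiLaws])
  have e4 := h (.mul (.add (.var 0) (.var 1)) (.var 2),
    .add (.mul (.var 0) (.var 2)) (.mul (.var 1) (.var 2))) (by simp [aiLaws])
  have e5 := h (.mul (.var 0) (.add (.var 1) (.var 2)),
    .add (.mul (.var 0) (.var 1)) (.mul (.var 0) (.var 2))) (by simp [aiLaws])
  let asg : A → A → A → ℕ → A := fun x y z n => if n = 0 then x else if n = 1 then y else z
  exact ⟨fun x y => e0 (asg x y y), fun x y z => e1 (asg x y z), fun x => e2 (asg x x x),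
    fun x y z => e3 (asg x y z), fun x y z => e4 (asg x y z), fun x y z => e5 (asg x y z)⟩

theorem mem_flags (a b c d : Bool) : (a, b, c, d) ∈ flags := by
  revert a b c d; decide

/-! ### closure of the set of words below an element -/

/-- the flag of a word -/
def fl (l : List ℕ) : Bool := !l.isEmpty

theorem fl_true {l : List ℕ} (h : l ≠ []) : fl l = true := by
  cases l with
  | nil => exact absurd rfl h
  | cons x l => rfl

section closure

variable {A : Type} [Add A] [Mul A] (hA : IsAI A)
include hA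

/-- assignment of the values of words to letters -/
def asg (v : ℕ → A) (a b c d : List ℕ) (y : ℕ) : ℕ → A
  | 0 => val v a
  | 1 => val v b
  | 2 => val v c
  | 3 => val v d
  | _ => v y

theorem val_two (v u : ℕ → A) (a b : List ℕ) (i j : ℕ) (hi : u i = val v a) (hj : u j = val v b)
    (h : a ++ b ≠ []) : val u (opt (fl a) i ++ opt (fl b) j) = val v (a ++ b) := by
  rcases eq_or_ne a [] with rfl | ha
  · have hb : b ≠ [] := by simpa using h
    rw [fl_true hb]
    simpa [opt, fl, val] using hj
  · rcases eq_or_ne b [] with rfl | hb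
    · rw [fl_true ha]
      simpa [opt, fl, val] using hi
    · rw [fl_true ha, fl_true hb, val_append hA v a b ha hb, ← hi, ← hj]
      rfl

theorem val_three (v u : ℕ → A) (a b : List ℕ) (y i j : ℕ) (hi : u i = val v a)
    (hj : u j = val v b) (hy : u 4 = v y) :
    val u (opt (fl a) i ++ 4 :: opt (fl b) j) = val v (a ++ y :: b) := by
  have h1 : ∀ b : List ℕ, u j = val v b → val u (4 :: opt (fl b) j) = val v (y :: b) := by
    intro b hb'
    rcases b with _ | ⟨z, b⟩
    · simpa [opt, fl, val] using hy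
    · show u 4 * u j = v y * val v (z :: b)
      rw [hy, hb']
  rcases eq_or_ne a [] with rfl | ha
  · exact h1 b hj
  · rw [fl_true ha, val_append hA v a (y :: b) ha (by simp), ← hi, ← h1 b hj]
    rfl

theorem add_le3 {x y z w : A} (hx : x + w = w) (hy : y + w = w) (hz : z + w = w) :
    x + y + z + w = w := by
  rw [hA.add_assoc, hz, hA.add_assoc, hy, hx]

theorem below_r1 (hE : ∀ e ∈ basis2, Holds A e) (v : ℕ → A) (z : A) (a b c d : List ℕ)
    (h1 : a ++ b ∈ below v z) (h2 : c ++ b ∈ below v z) (h3 : c ++ d ∈ below v z)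
    (h4 : a ++ d ≠ []) : a ++ d ∈ below v z := by
  refine ⟨h4, ?_⟩
  have hok : ok (fl a, fl b, fl c, fl d) = true := by
    have n1 := h1.1
    have n2 := h2.1
    have n3 := h3.1
    simp only [ne_eq, List.append_eq_nil_iff, not_and_or] at n1 n2 n3 h4
    have hf : ∀ {p q : List ℕ}, (¬ p = [] ∨ ¬ q = []) → (fl p || fl q) = true := by
      intro p q h
      rcases h with h | h
      · rw [fl_true h]; rfl
      · rw [fl_true h, Bool.or_true]
    simp only [ok, Bool.and_eq_true]
    exact ⟨⟨⟨hf n1, hf n2⟩, hf n3⟩, hf h4⟩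
  have hmem : R1 (fl a) (fl b) (fl c) (fl d) ∈ basis2 := by
    unfold basis2
    rw [List.mem_append, List.mem_append]
    left; right
    rw [List.mem_map]
    exact ⟨(fl a, fl b, fl c, fl d), List.mem_filter.2 ⟨mem_flags _ _ _ _, hok⟩, rfl⟩
  have key := hE _ hmem (asg v a b c d 0)
  simp only [R1, Term.eval, eval_wt] at key
  rw [val_two hA v _ a b 0 1 rfl rfl h1.1, val_two hA v _ c b 2 1 rfl rfl h2.1,
    val_two hA v _ c d 2 3 rfl rfl h3.1, val_two hA v _ a d 0 3 rfl rfl h4] at key
  have h5 := add_le3 hA h1.2 h2.2 h3.2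
  calc val v (a ++ d) + z = val v (a ++ d) +
        (val v (a ++ b) + val v (c ++ b) + val v (c ++ d) + z) := by rw [h5]
    _ = (val v (a ++ b) + val v (c ++ b) + val v (c ++ d) + val v (a ++ d)) + z := by
        rw [← hA.add_assoc, hA.add_comm (val v (a ++ d))]
    _ = z := by rw [key, h5]

theorem below_r2 (hE : ∀ e ∈ basis2, Holds A e) (v : ℕ → A) (z : A) (a b c d : List ℕ) (y : ℕ)
    (h1 : a ++ y :: b ∈ below v z) (h2 : c ++ y :: d ∈ below v z) :
    a ++ y :: d ∈ below v z := by
  refine ⟨by simp, ?_⟩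
  have hmem : R2 (fl a) (fl b) (fl c) (fl d) ∈ basis2 := by
    unfold basis2
    rw [List.mem_append]
    right
    rw [List.mem_map]
    exact ⟨(fl a, fl b, fl c, fl d), mem_flags _ _ _ _, rfl⟩
  have key := hE _ hmem (asg v a b c d y)
  simp only [R2, Term.eval, eval_wt] at key
  rw [val_three hA v _ a b y 0 1 rfl rfl rfl, val_three hA v _ c d y 2 3 rfl rfl rfl,
    val_three hA v _ a d y 0 3 rfl rfl rfl] at key
  have h5 : val v (a ++ y :: b) + val v (c ++ y :: d) + z = z := by
    rw [hA.add_assoc, h2.2, h1.2]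
  calc val v (a ++ y :: d) + z = val v (a ++ y :: d) +
        (val v (a ++ y :: b) + val v (c ++ y :: d) + z) := by rw [h5]
    _ = (val v (a ++ y :: b) + val v (c ++ y :: d) + val v (a ++ y :: d)) + z := by
        rw [← hA.add_assoc, hA.add_comm (val v (a ++ y :: d))]
    _ = z := by rw [key, h5]

theorem below_closed (hE : ∀ e ∈ basis2, Holds A e) (v : ℕ → A) (z : A) :
    Closed (below v z) :=
  ⟨fun _ h => h.1, below_r1 hA hE v z, below_r2 hA hE v z⟩

theorem le_context (v : ℕ → A) (z : A) (l1 l2 : List ℕ) (h1 : l1 ≠ []) (h2 : l2 ≠ [])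
    (h : val v l1 + val v l2 = val v l1) (p q : List ℕ) (hp : p ++ l1 ++ q ∈ below v z) :
    p ++ l2 ++ q ∈ below v z := by
  refine ⟨by simp [h2], ?_⟩
  have h3 : val v (p ++ l1) + val v (p ++ l2) = val v (p ++ l1) := by
    rcases eq_or_ne p [] with rfl | hp
    · exact h
    · rw [val_append hA v p l1 hp h1, val_append hA v p l2 hp h2, ← hA.mul_add, h]
  have h4 : val v (p ++ l1 ++ q) + val v (p ++ l2 ++ q) = val v (p ++ l1 ++ q) := by
    rcases eq_or_ne q [] with rfl | hq
    · simpa using h3
    · rw [val_append hA v (p ++ l1) q (by simp [h1]) hq,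
        val_append hA v (p ++ l2) q (by simp [h2]) hq, ← hA.add_mul, h3]
  have h5 := hp.2
  calc val v (p ++ l2 ++ q) + z = val v (p ++ l2 ++ q) + (val v (p ++ l1 ++ q) + z) := by rw [h5]
    _ = (val v (p ++ l1 ++ q) + val v (p ++ l2 ++ q)) + z := by
        rw [← hA.add_assoc, hA.add_comm (val v (p ++ l2 ++ q))]
    _ = z := by rw [h4, h5]

theorem below_r3 (hE : Holds A R3) (v : ℕ → A) (z : A) (p u q : List ℕ) (x : ℕ)
    (h : p ++ (x :: u ++ [x]) ++ q ∈ below v z) : p ++ [x, x] ++ q ∈ below v z := by
  rcases eq_or_ne u [] with rfl | hu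
  · exact h
  refine le_context hA v z (x :: u ++ [x]) [x, x] (by simp) (by simp) ?_ p q h
  have key := hE (fun n => if n = 0 then v x else val v u)
  have h1 : val v (x :: u ++ [x]) = v x * (val v u * v x) := by
    have : x :: u ++ [x] = [x] ++ (u ++ [x]) := by simp
    rw [this, val_append hA v [x] (u ++ [x]) (by simp) (by simp), val_append hA v u [x] hu (by simp)]
    rfl
  rw [h1]
  exact key

end closure

end Pool.Agent.Q15.B2
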