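import Mathlib

/-! Clones, term depth and the Bergman property. -/

namespace Q15Berg

/-- A set of finitary operations on `A`: `U n` is its set of `(n+1)`-ary members. -/
abbrev OpSet (A : Type*) := ∀ n : ℕ, Set ((Fin (n + 1) → A) → A)

/-- `F` is a clone: it contains the projections and is closed under composition. -/
structure IsClone {A : Type*} (F : OpSet A) : Prop where
  proj : ∀ (n : ℕ) (i : Fin (n + 1)), (fun x => x i) ∈ F n
  comp : ∀ (n m : ℕ) (f : (Fin (n + 1) → A) → A) (g : Fin (n + 1) → ((Fin (m + 1) → A) → A)),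
    f ∈ F n → (∀ j, g j ∈ F m) → (fun x => f fun j => g j x) ∈ F m

/-- `H` generates the clone `F`: `F` is the smallest clone containing `H`. -/
structure Generates {A : Type*} (H F : OpSet A) : Prop where
  isClone : IsClone F
  subset : ∀ n, H n ⊆ F n
  least : ∀ D : OpSet A, IsClone D → (∀ n, H n ⊆ D n) → ∀ n, F n ⊆ D n

/-- `dep U k i` is `U^{[k+1,i]}`: the `(k+1)`-ary functions given by terms over `U` of depth at
most `i`. -/
def dep {A : Type*} (U : OpSet A) (k : ℕ) : ℕ → Set ((Fin (k + 1) → A) → A)
  | 0 => {f | ∃ i, f = fun x => x i}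
  | i + 1 => {f | ∃ (n : ℕ) (g : (Fin (n + 1) → A) → A) (h : Fin (n + 1) → (Fin (k + 1) → A) → A),
      g ∈ U n ∧ (∀ j, h j ∈ dep U k i) ∧ f = fun x => g fun j => h j x} ∪ dep U k i

/-- The Bergman property of a clone `F`. -/
def Bergman {A : Type*} (F : OpSet A) : Prop :=
  ∀ H : OpSet A, Generates H F → ∀ k : ℕ, ∃ n : ℕ, dep H k n = F k

/-- The polymorphism clone of an ordered set: all monotone maps. -/
def orderPol (A : Type*) [Preorder A] : OpSet A := fun _ => {f | Monotone f}

/-- The polymorphism clone of a metric space: all maps `f` of several variables with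
`d(f(x), f(y)) ≤ max_i d(x_i, y_i)`. -/
def metricPol (X : Type*) [MetricSpace X] : OpSet X :=
  fun n => {f | ∀ x y : Fin (n + 1) → X, dist (f x) (f y) ≤ ⨆ i, dist (x i) (y i)}

/-- `X` is a Fraisse limit of the class of all finite metric spaces with distances in `Δ`:
it is countable, has distances in `Δ`, contains all finite metric spaces with distances in `Δ`,
and every isometry between finite subspaces extends to an isometry of `X` onto `X`. -/
structure IsFraisseLimit (Δ : Set ℝ) (X : Type) [MetricSpace X] : Prop where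
  countable : Countable X
  dist_mem : ∀ x y : X, dist x y ∈ Δ
  universal : ∀ (Y : Type) [MetricSpace Y], Finite Y → (∀ x y : Y, dist x y ∈ Δ) →
    ∃ f : Y → X, Isometry f
  homogeneous : ∀ (s : Set X) (f : s → X), s.Finite → Isometry f →
    ∃ e : X ≃ᵢ X, ∀ x : s, e x = f x

/-- The rational numbers, as a set of distances. -/
def ratDist : Set ℝ := {r | ∃ q : ℚ, r = q}

/-- The rational numbers at most `1`, as a set of distances. -/
def ratDistOne : Set ℝ := {r | ∃ q : ℚ, r = q ∧ q ≤ 1}

end Q15Berg
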