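import Mathlib
import Pool.Agent.Q15.BergDefs

/-! The distortion criterion and the case of `(ℚ, ≤)`. -/

namespace Q15Berg

section general
variable {A : Type*}

lemma dep_mono (U : OpSet A) (k : ℕ) {i j : ℕ} (h : i ≤ j) : dep U k i ⊆ dep U k j := by
  induction h with
  | refl => exact subset_rfl
  | step _ ih => exact ih.trans Set.subset_union_right

lemma dep_proj (U : OpSet A) (k i : ℕ) (j : Fin (k + 1)) : (fun x => x j) ∈ dep U k i :=
  dep_mono U k (Nat.zero_le i) ⟨j, rfl⟩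

lemma dep_comp (U : OpSet A) (n k a b : ℕ) (f : (Fin (n + 1) → A) → A)
    (g : Fin (n + 1) → (Fin (k + 1) → A) → A) (hf : f ∈ dep U n a) (hg : ∀ j, g j ∈ dep U k b) :
    (fun x => f fun j => g j x) ∈ dep U k (a + b) := by
  induction a generalizing f with
  | zero =>
    obtain ⟨i, rfl⟩ := hf
    rw [Nat.zero_add]
    exact hg i
  | succ a ih =>
    rcases hf with ⟨m, p, h, hp, hh, rfl⟩ | hf
    · rw [Nat.succ_add]
      refine Or.inl ⟨m, p, fun j x => h j fun j => g j x, hp, fun j => ih _ (hh j), rfl⟩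
    · exact dep_mono U k (by omega) (ih f hf)

/-- the union of all depths is a clone -/
lemma dep_union_clone (U : OpSet A) : IsClone (fun k => ⋃ i, dep U k i) where
  proj n i := Set.mem_iUnion.mpr ⟨0, i, rfl⟩
  comp n m f g hf hg := by
    obtain ⟨a, ha⟩ := Set.mem_iUnion.mp hf
    choose b hb using fun j => Set.mem_iUnion.mp (hg j)
    refine Set.mem_iUnion.mpr ⟨a + Finset.univ.sup b, dep_comp U n m _ _ f g ha fun j => ?_⟩
    exact dep_mono U m (Finset.le_sup (Finset.mem_univ j)) (hb j)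

lemma subset_dep (U : OpSet A) (n : ℕ) : U n ⊆ dep U n 1 := fun f hf =>
  Or.inl ⟨n, f, fun j x => x j, hf, fun j => ⟨j, rfl⟩, rfl⟩

lemma exists_dep {H F : OpSet A} (h : Generates H F) (n : ℕ) (f) (hf : f ∈ F n) :
    ∃ i, f ∈ dep H n i := by
  have := h.least _ (dep_union_clone H) (fun n f hf => Set.mem_iUnion.mpr ⟨1, subset_dep H n hf⟩) n
    hf
  exact Set.mem_iUnion.mp this

lemma dep_subset {H F : OpSet A} (h : Generates H F) (k i : ℕ) : dep H k i ⊆ F k := by
  induction i with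
  | zero =>
    rintro f ⟨i, rfl⟩
    exact h.isClone.proj k i
  | succ i ih =>
    rintro f (⟨n, g, p, hg, hp, rfl⟩ | hf)
    · exact h.isClone.comp n k g p (h.subset n hg) fun j => ih (hp j)
    · exact ih hf

/-- Strong distortion implies the Bergman property. -/
theorem bergman_of_distortion (F : OpSet A)
    (h : ∀ k : ℕ, ∃ l : ℕ → ℕ, ∀ f : ℕ → (Fin (k + 1) → A) → A, (∀ n, f n ∈ F k) →
      ∃ G : OpSet A, (∀ n, G n ⊆ F n) ∧
        {p : Σ n : ℕ, (Fin (n + 1) → A) → A | p.2 ∈ G p.1}.Finite ∧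
        ∀ n, f n ∈ dep G k (l n)) : Bergman F := by
  intro H hH k
  by_contra hcon
  push Not at hcon
  obtain ⟨l, hl⟩ := h k
  have h1 : ∀ n, ∃ f ∈ F k, f ∉ dep H k n := by
    intro n
    by_contra h2
    push Not at h2
    exact hcon n (Set.Subset.antisymm (dep_subset hH k n) h2)
  choose f hf hf' using h1
  obtain ⟨G, hGF, hfin, hG⟩ := hl (fun n => f (n * l n)) fun n => hf _
  have h3 : ∀ p : Σ n : ℕ, (Fin (n + 1) → A) → A, ∃ i, p.2 ∈ G p.1 → p.2 ∈ dep H p.1 i := by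
    intro p
    by_cases hp : p.2 ∈ G p.1
    · obtain ⟨i, hi⟩ := exists_dep hH p.1 p.2 (hGF _ hp)
      exact ⟨i, fun _ => hi⟩
    · exact ⟨0, fun h => absurd h hp⟩
  choose i hi using h3
  obtain ⟨m, hm⟩ : ∃ m, ∀ n, ∀ g ∈ G n, g ∈ dep H n m := by
    obtain ⟨m, hm⟩ := (hfin.image i).bddAbove
    refine ⟨m, fun n g hg => ?_⟩
    exact dep_mono H n (hm ⟨⟨n, g⟩, hg, rfl⟩) (hi ⟨n, g⟩ hg)
  have h4 : ∀ j, dep G k j ⊆ dep H k (m * j) := by
    intro j
    induction j with
    | zero => exact subset_rfl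
    | succ j ih =>
      rintro f (⟨n, g, p, hg, hp, rfl⟩ | hf)
      · have := dep_comp H n k m (m * j) g p (hm n g hg) fun j => ih (hp j)
        rwa [show m * (j + 1) = m + m * j by ring]
      · exact dep_mono H k (by rw [Nat.mul_succ]; omega) (ih hf)
  exact hf' _ (h4 _ (hG m))

end general

/-! ### the ordered rationals -/

lemma isClone_orderPol (A : Type*) [Preorder A] : IsClone (orderPol A) where
  proj _ i := fun _ _ h => h i
  comp _ _ _ _ hf hg := fun _ _ h => hf fun j => hg j h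

section order

variable {k : ℕ}

/-- the combined function -/
noncomputable def big (f : ℤ → (Fin (k + 1) → ℚ) → ℚ) (x : Fin (k + 1) → ℚ) (a b : ℤ) : ℚ :=
  if h : a ≤ b then (Finset.Icc a b).sup' ⟨a, Finset.mem_Icc.mpr ⟨le_rfl, h⟩⟩ fun n => f n x
  else (Finset.Icc b a).inf' ⟨b, Finset.mem_Icc.mpr ⟨le_rfl, (not_le.mp h).le⟩⟩ fun n => f n x

lemma big_mono (f : ℤ → (Fin (k + 1) → ℚ) → ℚ) (hf : ∀ n, Monotone (f n))
    {x x' : Fin (k + 1) → ℚ} {a a' b b' : ℤ} (hx : x ≤ x') (ha : a' ≤ a) (hb : b ≤ b') :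
    big f x a b ≤ big f x' a' b' := by
  unfold big
  by_cases h : a ≤ b
  · rw [dif_pos h, dif_pos (ha.trans (h.trans hb))]
    apply Finset.sup'_le
    intro n hn
    rw [Finset.mem_Icc] at hn
    exact (hf n hx).trans (Finset.le_sup' (fun n => f n x')
      (Finset.mem_Icc.mpr ⟨ha.trans hn.1, hn.2.trans hb⟩))
  · have h' := (not_le.mp h).le
    rw [dif_neg h]
    by_cases h2 : a' ≤ b'
    · rw [dif_pos h2]
      -- a common index
      have hn : max a' b ∈ Finset.Icc a' b' :=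
        Finset.mem_Icc.mpr ⟨le_max_left _ _, max_le h2 hb⟩
      have hn' : max a' b ∈ Finset.Icc b a :=
        Finset.mem_Icc.mpr ⟨le_max_right _ _, max_le ha h'⟩
      exact (Finset.inf'_le (fun n => f n x) hn').trans ((hf _ hx).trans
        (Finset.le_sup' (fun n => f n x') hn))
    · rw [dif_neg h2]
      apply Finset.le_inf'
      intro n hn
      rw [Finset.mem_Icc] at hn
      exact (Finset.inf'_le (fun n => f n x)
        (Finset.mem_Icc.mpr ⟨hb.trans hn.1, hn.2.trans ha⟩)).trans (hf n hx)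

lemma big_self (f : ℤ → (Fin (k + 1) → ℚ) → ℚ) (x : Fin (k + 1) → ℚ) (n : ℤ) :
    big f x n n = f n x := by
  unfold big
  rw [dif_pos le_rfl]
  simp

/-- the `(k+3)`-ary operation -/
noncomputable def bigOp (f : ℤ → (Fin (k + 1) → ℚ) → ℚ) (p : Fin (k + 2 + 1) → ℚ) : ℚ :=
  big f (fun i => p i.castSucc.castSucc) ⌈-p (Fin.last (k + 2))⌉ ⌊p (Fin.last (k + 1)).castSucc⌋

lemma bigOp_mono (f : ℤ → (Fin (k + 1) → ℚ) → ℚ) (hf : ∀ n, Monotone (f n)) :
    Monotone (bigOp f) := fun p q h =>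
  big_mono f hf (fun i => h _) (Int.ceil_mono (neg_le_neg (h _))) (Int.floor_mono (h _))

theorem bergman_rat : Bergman (orderPol ℚ) := by
  apply bergman_of_distortion
  intro k
  refine ⟨fun n => n + 2, fun f hf => ?_⟩
  let f' : ℤ → (Fin (k + 1) → ℚ) → ℚ := fun n => f n.toNat
  have hf' : ∀ n, Monotone (f' n) := fun n => hf _
  let z : (Fin (0 + 1) → ℚ) → ℚ := fun _ => 0
  let s : (Fin (0 + 1) → ℚ) → ℚ := fun x => x 0 + 1
  let t : (Fin (0 + 1) → ℚ) → ℚ := fun x => x 0 - 1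
  let G : OpSet ℚ := fun n => {g | (⟨n, g⟩ : Σ n : ℕ, (Fin (n + 1) → ℚ) → ℚ) ∈
    ({⟨0, z⟩, ⟨0, s⟩, ⟨0, t⟩, ⟨k + 2, bigOp f'⟩} : Set (Σ n : ℕ, (Fin (n + 1) → ℚ) → ℚ))}
  have hz : z ∈ G 0 := Or.inl rfl
  have hs : s ∈ G 0 := Or.inr (Or.inl rfl)
  have ht : t ∈ G 0 := Or.inr (Or.inr (Or.inl rfl))
  have hB : bigOp f' ∈ G (k + 2) := Or.inr (Or.inr (Or.inr rfl))
  refine ⟨G, ?_, ?_, ?_⟩
  · rintro n g (h | h | h | h)
    · cases h
      exact fun _ _ _ => le_rfl
    · cases h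
      exact fun x y h => by
        have := h 0
        change x 0 + 1 ≤ y 0 + 1
        linarith
    · cases h
      exact fun x y h => by
        have := h 0
        change x 0 - 1 ≤ y 0 - 1
        linarith
    · cases h
      exact bigOp_mono f' hf'
  · have : {p : Σ n : ℕ, (Fin (n + 1) → ℚ) → ℚ | p.2 ∈ G p.1} =
        {⟨0, z⟩, ⟨0, s⟩, ⟨0, t⟩, ⟨k + 2, bigOp f'⟩} := rfl
    rw [this]
    exact Set.toFinite _
  · intro n
    have h1 : ∀ n : ℕ, (fun _ => (n : ℚ)) ∈ dep G k (n + 1) := by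
      intro n
      induction n with
      | zero =>
        exact Or.inl ⟨0, z, fun _ x => x 0, hz, fun _ => ⟨0, rfl⟩, by simp [z]⟩
      | succ n ih =>
        exact Or.inl ⟨0, s, fun _ _ => (n : ℚ), hs, fun _ => ih, by simp [s]⟩
    have h2 : ∀ n : ℕ, (fun _ => -(n : ℚ)) ∈ dep G k (n + 1) := by
      intro n
      induction n with
      | zero =>
        exact Or.inl ⟨0, z, fun _ x => x 0, hz, fun _ => ⟨0, rfl⟩, by simp [z]⟩
      | succ n ih =>
        refine Or.inl ⟨0, t, fun _ _ => -(n : ℚ), ht, fun _ => ih, ?_⟩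
        funext x
        simp only [t]
        push_cast
        ring
    refine Or.inl ⟨k + 2, bigOp f', fun j x =>
      (Fin.snoc (α := fun _ => ℚ) (Fin.snoc (α := fun _ => ℚ) x (n : ℚ)) (-(n : ℚ)) :
        Fin (k + 2 + 1) → ℚ) j, hB, ?_, ?_⟩
    · intro j
      refine Fin.lastCases ?_ (fun j => ?_) j
      · simp only [Fin.snoc_last]
        exact h2 n
      · refine Fin.lastCases ?_ (fun j => ?_) j
        · simp only [Fin.snoc_castSucc, Fin.snoc_last]
          exact h1 n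
        · simp only [Fin.snoc_castSucc]
          exact dep_proj G k _ j
    · funext x
      simp only [bigOp, Fin.snoc_last, Fin.snoc_castSucc, neg_neg]
      rw [show ⌈((n : ℕ) : ℚ)⌉ = (n : ℤ) by simp, show ⌊((n : ℕ) : ℚ)⌋ = (n : ℤ) by simp,
        big_self]
      simp [f']

end order

end Q15Berg
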