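import Mathlib
import Pool.Agent.Q15.BergDefs
import Pool.Agent.Q15.BergMain

/-! The rational Urysohn space and the rational Urysohn sphere. -/

namespace Q15Berg

section ext

variable {X : Type} [MetricSpace X]

/-- The one-point extension of a subset. -/
noncomputable def optMetric (E : Set X) (f : X → ℝ) (h0 : ∀ a ∈ E, 0 < f a)
    (h1 : ∀ a ∈ E, ∀ b ∈ E, f a ≤ f b + dist a b)
    (h2 : ∀ a ∈ E, ∀ b ∈ E, dist a b ≤ f a + f b) : MetricSpace (Option E) where
  dist x y := match x, y with
    | none, none => 0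
    | none, some e => f e
    | some e, none => f e
    | some e, some e' => dist (e : X) (e' : X)
  dist_self x := by
    cases x with
    | none => rfl
    | some e => exact dist_self _
  dist_comm x y := by
    cases x <;> cases y
    · rfl
    · rfl
    · rfl
    · exact dist_comm _ _
  dist_triangle x y z := by
    rcases x with _ | ⟨a, ha⟩ <;> rcases y with _ | ⟨b, hb⟩ <;> rcases z with _ | ⟨c, hc⟩
    · change (0 : ℝ) ≤ 0 + 0; norm_num
    · change f c ≤ 0 + f c; linarith
    · change (0 : ℝ) ≤ f b + f b; linarith [h0 b hb]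
    · change f c ≤ f b + dist b c; have := h1 c hc b hb; rw [dist_comm] at this; exact this
    · change f a ≤ f a + 0; linarith
    · exact h2 a ha c hc
    · change f a ≤ dist a b + f b; linarith [h1 a ha b hb]
    · exact dist_triangle a b c
  eq_of_dist_eq_zero {x y} h := by
    rcases x with _ | ⟨a, ha⟩ <;> rcases y with _ | ⟨b, hb⟩
    · rfl
    · exact absurd h (h0 b hb).ne'
    · exact absurd h (h0 a ha).ne'
    · have : a = b := eq_of_dist_eq_zero h
      subst this; rfl

theorem extension {Δ : Set ℝ} (hX : IsFraisseLimit Δ X) (E : Set X) (hE : E.Finite) (f : X → ℝ)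
    (hΔ : ∀ a ∈ E, f a ∈ Δ) (hz : (0 : ℝ) ∈ Δ) (h0 : ∀ a ∈ E, 0 < f a)
    (h1 : ∀ a ∈ E, ∀ b ∈ E, f a ≤ f b + dist a b)
    (h2 : ∀ a ∈ E, ∀ b ∈ E, dist a b ≤ f a + f b) : ∃ w, ∀ a ∈ E, dist w a = f a := by
  letI := optMetric E f h0 h1 h2
  have : Finite E := hE
  obtain ⟨φ, hφ⟩ := hX.universal (Option E) inferInstance (by
    intro x y
    rcases x with _ | ⟨a, ha⟩ <;> rcases y with _ | ⟨b, hb⟩
    · exact hz
    · exact hΔ b hb
    · exact hΔ a ha
    · exact hX.dist_mem a b)
  obtain ⟨e, he⟩ := hX.homogeneous E (fun a => φ (some a)) hE (by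
    apply Isometry.of_dist_eq
    intro a b
    rw [hφ.dist_eq]
    rfl)
  refine ⟨e.symm (φ none), fun a ha => ?_⟩
  have h3 : dist (e.symm (φ none)) a = dist (φ none) (e a) := by
    rw [← e.dist_eq, e.apply_symm_apply]
  rw [h3, he ⟨a, ha⟩, hφ.dist_eq]
  rfl

end ext

section sphere

variable {X : Type} [MetricSpace X]

lemma zero_mem_one : (0 : ℝ) ∈ ratDistOne := ⟨0, by simp, by norm_num⟩

lemma mem_one_iff {r : ℝ} : r ∈ ratDistOne ↔ r ∈ ratDist ∧ r ≤ 1 := by
  constructor
  · rintro ⟨q, rfl, hq⟩
    exact ⟨⟨q, rfl⟩, by exact_mod_cast hq⟩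
  · rintro ⟨⟨q, rfl⟩, hq⟩
    exact ⟨q, rfl, by exact_mod_cast hq⟩

lemma rat_add {r s : ℝ} (hr : r ∈ ratDist) (hs : s ∈ ratDist) : r + s ∈ ratDist := by
  obtain ⟨p, rfl⟩ := hr
  obtain ⟨q, rfl⟩ := hs
  exact ⟨p + q, by push_cast; rfl⟩

lemma rat_sub {r s : ℝ} (hr : r ∈ ratDist) (hs : s ∈ ratDist) : r - s ∈ ratDist := by
  obtain ⟨p, rfl⟩ := hr
  obtain ⟨q, rfl⟩ := hs
  exact ⟨p - q, by push_cast; rfl⟩

theorem amalgam (hX : IsFraisseLimit ratDistOne X) {ι : Type*} [Finite ι] (p : ι → X) (r : ι → ℝ)
    (hr : ∀ i, r i ∈ ratDist) (hr0 : ∀ i, 0 ≤ r i) (hpr : ∀ i j, dist (p i) (p j) ≤ r i + r j)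
    (E : Set X) (hE : E.Finite) : ∃ w, ∀ a ∈ E, (∀ i, dist w a ≤ r i + dist (p i) a) ∧
      (dist w a = 1 ∨ ∃ i, dist w a = r i + dist (p i) a) := by
  classical
  have hle1 : ∀ a b : X, dist a b ≤ 1 := fun a b => (mem_one_iff.mp (hX.dist_mem a b)).2
  cases nonempty_fintype ι
  let S : X → Finset ℝ := fun a => insert 1 (Finset.univ.image fun i => r i + dist (p i) a)
  let F : X → ℝ := fun a => (S a).min' (Finset.insert_nonempty _ _)
  have hF1 : ∀ a, F a ≤ 1 := fun a => Finset.min'_le _ _ (Finset.mem_insert_self _ _)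
  have hF2 : ∀ a i, F a ≤ r i + dist (p i) a := fun a i => Finset.min'_le _ _
    (Finset.mem_insert_of_mem (Finset.mem_image_of_mem _ (Finset.mem_univ i)))
  have hF3 : ∀ a, F a = 1 ∨ ∃ i, F a = r i + dist (p i) a := by
    intro a
    have := Finset.min'_mem (S a) (Finset.insert_nonempty _ _)
    rw [Finset.mem_insert, Finset.mem_image] at this
    rcases this with h | ⟨i, -, h⟩
    · exact Or.inl h
    · exact Or.inr ⟨i, h.symm⟩
  have hF0 : ∀ a, 0 ≤ F a := by
    intro a
    rcases hF3 a with h | ⟨i, h⟩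
    · rw [h]; norm_num
    · rw [h]; exact add_nonneg (hr0 i) dist_nonneg
  have hK1 : ∀ a b, F a ≤ F b + dist a b := by
    intro a b
    rcases hF3 b with h | ⟨i, h⟩
    · rw [h]; linarith [hF1 a, dist_nonneg (x := a) (y := b)]
    · rw [h]
      have h3 := hF2 a i
      have h4 := dist_triangle (p i) b a
      rw [dist_comm b a] at h4
      linarith
  have hK2 : ∀ a b, dist a b ≤ F a + F b := by
    intro a b
    rcases hF3 a with h | ⟨i, h⟩
    · rw [h]; linarith [hle1 a b, hF0 b]
    · rcases hF3 b with h' | ⟨j, h'⟩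
      · rw [h']; linarith [hle1 a b, hF0 a]
      · rw [h, h']
        have h3 := hpr i j
        have h4 := dist_triangle4 a (p i) (p j) b
        rw [dist_comm a (p i)] at h4
        linarith
  have hFr : ∀ a, F a ∈ ratDistOne := by
    intro a
    rw [mem_one_iff]
    refine ⟨?_, hF1 a⟩
    rcases hF3 a with h | ⟨i, h⟩
    · rw [h]; exact ⟨1, by simp⟩
    · rw [h]; exact rat_add (hr i) (mem_one_iff.mp (hX.dist_mem _ _)).1
  have key : ∃ w, ∀ a ∈ E, dist w a = F a := by
    by_cases h : ∃ e ∈ E, F e = 0
    · obtain ⟨e, he, h⟩ := h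
      refine ⟨e, fun a _ => ?_⟩
      have h3 := hK1 a e
      have h4 := hK2 e a
      rw [dist_comm a e] at h3
      rw [h] at h3 h4
      linarith
    · push Not at h
      exact extension hX E hE F (fun a _ => hFr a) zero_mem_one
        (fun a ha => lt_of_le_of_ne (hF0 a) (h a ha).symm) (fun a _ b _ => hK1 a b)
        (fun a _ b _ => hK2 a b)
  obtain ⟨w, hw⟩ := key
  refine ⟨w, fun a ha => ?_⟩
  rw [hw a ha]
  exact ⟨hF2 a, hF3 a⟩

/-- Construction of sequences. -/
theorem exists_seq {Y : Type*} [Nonempty Y] (P : (ℕ → Y) → ℕ → Prop)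
    (hloc : ∀ u v n, (∀ m, m ≤ n → u m = v m) → P u n → P v n)
    (hstep : ∀ n u, (∀ m, m < n → P u m) → ∃ x, P (Function.update u n x) n) :
    ∃ u, ∀ n, P u n := by
  classical
  let S : ℕ → Type _ := fun n => {u : ℕ → Y // ∀ m, m < n → P u m}
  have step : ∀ n (u : S n), ∃ v : S (n + 1), ∀ m, m ≠ n → v.1 m = u.1 m := by
    intro n u
    obtain ⟨x, hx⟩ := hstep n u.1 u.2
    refine ⟨⟨Function.update u.1 n x, fun m hm => ?_⟩, fun m hm => Function.update_of_ne hm _ _⟩
    rcases Nat.lt_succ_iff_lt_or_eq.mp hm with h | rfl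
    · refine hloc u.1 _ m (fun i hi => ?_) (u.2 m h)
      rw [Function.update_of_ne (by omega)]
    · exact hx
  choose next hnext using step
  obtain ⟨y0⟩ := ‹Nonempty Y›
  let T : ∀ n, S n := fun n => Nat.rec ⟨fun _ => y0, fun m hm => absurd hm (Nat.not_lt_zero m)⟩
    (fun n u => next n u) n
  have hT : ∀ n m, m ≠ n → (T (n + 1)).1 m = (T n).1 m := fun n m h => hnext n (T n) m h
  have hst : ∀ m k, (T (m + 1 + k)).1 m = (T (m + 1)).1 m := by
    intro m k
    induction k with
    | zero => rfl
    | succ k ih => rw [← ih]; exact hT (m + 1 + k) m (by omega)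
  refine ⟨fun n => (T (n + 1)).1 n, fun n => ?_⟩
  refine hloc (T (n + 1)).1 _ n (fun m hm => ?_) ((T (n + 1)).2 n (Nat.lt_succ_self n))
  obtain ⟨k, rfl⟩ := Nat.exists_eq_add_of_le hm
  have := hst m k
  rw [show m + 1 + k = m + k + 1 by omega] at this
  exact this

theorem exists_nice (hX : IsFraisseLimit ratDistOne X) [Nonempty X] (δ : ℕ → ℕ → ℝ)
    (hδ : ∀ n m, δ n m ∈ ratDist) (hδ1 : ∀ n m, δ n m ≤ 1) (hδ0 : ∀ n m, 0 ≤ δ n m)
    (hδs : ∀ n, δ n n = 0) (hδc : ∀ n m, δ n m = δ m n)
    (hδt : ∀ n m l, δ n l ≤ δ n m + δ m l) :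
    ∃ u : ℕ → X, (∀ n m, dist (u n) (u m) = δ n m) ∧
      ∀ g : ℕ → X, (∀ n m, dist (g n) (g m) ≤ δ n m) →
        ∃ G : X → X, (∀ x y, dist (G x) (G y) ≤ dist x y) ∧ ∀ n, G (u n) = g n := by
  classical
  have := hX.countable
  have hle1 : ∀ a b : X, dist a b ≤ 1 := fun a b => (mem_one_iff.mp (hX.dist_mem a b)).2
  have hrat : ∀ a b : X, dist a b ∈ ratDist := fun a b => (mem_one_iff.mp (hX.dist_mem a b)).1
  obtain ⟨x, hx⟩ := exists_surjective_nat X
  obtain ⟨u, hu⟩ := exists_seq (Y := X) (fun u n => (∀ m, m < n → dist (u n) (u m) = δ n m) ∧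
      (∀ i, i < n → dist (u n) (x i) = 1 ∨
        ∃ m, m < n ∧ dist (u n) (x i) = δ m n + dist (u m) (x i)))
    (by
      rintro u v n h ⟨h1, h2⟩
      refine ⟨fun m hm => ?_, fun i hi => ?_⟩
      · rw [← h n le_rfl, ← h m hm.le]; exact h1 m hm
      · rw [← h n le_rfl]
        rcases h2 i hi with h3 | ⟨m, hm, h3⟩
        · exact Or.inl h3
        · refine Or.inr ⟨m, hm, ?_⟩
          rw [← h m hm.le]; exact h3)
    (by
      intro n u hu
      have hdist : ∀ i j : ℕ, i < n → j < n → dist (u i) (u j) = δ i j := by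
        intro i j hi hj
        rcases lt_trichotomy i j with h | rfl | h
        · rw [dist_comm, hδc]; exact (hu j hj).1 i h
        · rw [dist_self, hδs]
        · exact (hu i hi).1 j h
      obtain ⟨w, hw⟩ := amalgam hX (fun i : Fin n => u i) (fun i => δ i n) (fun i => hδ _ _)
        (fun i => hδ0 _ _) (fun i j => by
          rw [hdist i j i.2 j.2, hδc j n]
          exact hδt _ _ _)
        (Set.range (fun i : Fin n => x i) ∪ Set.range (fun i : Fin n => u i))
        ((Set.finite_range _).union (Set.finite_range _))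
      refine ⟨w, ?_, ?_⟩
      · intro m hm
        rw [Function.update_self, Function.update_of_ne (by omega)]
        obtain ⟨h1, h2⟩ := hw (u m) (Or.inr ⟨⟨m, hm⟩, rfl⟩)
        apply le_antisymm
        · have := h1 ⟨m, hm⟩
          simp only [dist_self, add_zero] at this
          rw [hδc]; exact this
        · rcases h2 with h2 | ⟨i, h2⟩
          · rw [h2]; exact hδ1 _ _
          · rw [h2, hdist i m i.2 hm, hδc i n]
            exact hδt _ _ _
      · intro i hi
        rw [Function.update_self]
        rcases (hw (x i) (Or.inl ⟨⟨i, hi⟩, rfl⟩)).2 with h | ⟨m, h⟩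
        · exact Or.inl h
        · refine Or.inr ⟨m, m.2, ?_⟩
          rw [Function.update_of_ne m.2.ne]; exact h)
  have hdist : ∀ i j : ℕ, dist (u i) (u j) = δ i j := by
    intro i j
    rcases lt_trichotomy i j with h | rfl | h
    · rw [dist_comm, hδc]; exact (hu j).1 i h
    · rw [dist_self, hδs]
    · exact (hu i).1 j h
  refine ⟨u, hdist, fun g hg => ?_⟩
  obtain ⟨v, hv⟩ := exists_seq (Y := X) (fun v j => (∀ n, dist (v j) (g n) ≤ dist (x j) (u n)) ∧
      (∀ i, i < j → dist (v j) (v i) ≤ dist (x j) (x i)))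
    (by
      rintro v w n h ⟨h1, h2⟩
      refine ⟨fun m => ?_, fun i hi => ?_⟩
      · rw [← h n le_rfl]; exact h1 m
      · rw [← h n le_rfl, ← h i hi.le]; exact h2 i hi)
    (by
      intro j v hv
      have hvv : ∀ i i' : ℕ, i < j → i' < j → dist (v i) (v i') ≤ dist (x i) (x i') := by
        intro i i' hi hi'
        rcases lt_trichotomy i i' with h | rfl | h
        · rw [dist_comm, dist_comm (x i)]; exact (hv i' hi').2 i h
        · rw [dist_self]; exact dist_nonneg
        · exact (hv i hi).2 i' h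
      let p : Fin (j + 1) ⊕ Fin j → X := Sum.elim (fun m => g m) (fun i => v i)
      let r : Fin (j + 1) ⊕ Fin j → ℝ :=
        Sum.elim (fun m => dist (x j) (u m)) (fun i => dist (x j) (x i))
      obtain ⟨w, hw⟩ := amalgam hX p r
        (by rintro (m | i) <;> exact hrat _ _) (by rintro (m | i) <;> exact dist_nonneg)
        (by
          rintro (m | i) (m' | i')
          · change dist (g m) (g m') ≤ dist (x j) (u m) + dist (x j) (u m')
            have h1 := hg m m'
            rw [← hdist] at h1
            have h2 := dist_triangle (u m) (x j) (u m')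
            rw [dist_comm (u m) (x j)] at h2
            linarith
          · change dist (g m) (v i') ≤ dist (x j) (u m) + dist (x j) (x i')
            have h1 := (hv i' i'.2).1 m
            have h2 := dist_triangle (x i') (x j) (u m)
            rw [dist_comm (x i') (x j)] at h2
            rw [dist_comm (g m)]
            linarith
          · change dist (v i) (g m') ≤ dist (x j) (x i) + dist (x j) (u m')
            have h1 := (hv i i.2).1 m'
            have h2 := dist_triangle (x i) (x j) (u m')
            rw [dist_comm (x i) (x j)] at h2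
            linarith
          · change dist (v i) (v i') ≤ dist (x j) (x i) + dist (x j) (x i')
            have h1 := hvv i i' i.2 i'.2
            have h2 := dist_triangle (x i) (x j) (x i')
            rw [dist_comm (x i) (x j)] at h2
            linarith)
        (Set.range p) (Set.finite_range _)
      have hw' : ∀ t, dist w (p t) ≤ r t := by
        intro t
        have := (hw (p t) ⟨t, rfl⟩).1 t
        simpa using this
      refine ⟨w, ?_, ?_⟩
      · intro n
        rw [Function.update_self]
        induction n using Nat.strong_induction_on with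
        | _ n ih =>
          rcases Nat.lt_or_ge j n with h | h
          · rcases (hu n).2 j h with h1 | ⟨m, hm, h1⟩
            · rw [dist_comm (x j), h1]; exact hle1 _ _
            · rw [dist_comm (x j), h1]
              have h2 := ih m hm
              have h3 := dist_triangle w (g m) (g n)
              have h4 := hg m n
              rw [dist_comm (x j)] at h2
              linarith
          · exact hw' (.inl ⟨n, by omega⟩)
      · intro i hi
        rw [Function.update_self, Function.update_of_ne (by omega)]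
        exact hw' (.inr ⟨i, hi⟩))
  have hvv : ∀ i i' : ℕ, dist (v i) (v i') ≤ dist (x i) (x i') := by
    intro i i'
    rcases lt_trichotomy i i' with h | rfl | h
    · rw [dist_comm, dist_comm (x i)]; exact (hv i').2 i h
    · rw [dist_self]; exact dist_nonneg
    · exact (hv i).2 i' h
  choose c hc using hx
  refine ⟨fun y => v (c y), fun y z => ?_, fun n => ?_⟩
  · have := hvv (c y) (c z)
    rwa [hc, hc] at this
  · have := (hv (c (u n))).1 n
    rw [hc, dist_self] at this
    exact dist_le_zero.mp this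

lemma iSup_le' {k : ℕ} {f : Fin (k + 1) → ℝ} {a : ℝ} (h : ∀ i, f i ≤ a) : ⨆ i, f i ≤ a :=
  ciSup_le h

lemma le_iSup' {k : ℕ} (f : Fin (k + 1) → ℝ) (i : Fin (k + 1)) : f i ≤ ⨆ i, f i :=
  le_ciSup (Finite.bddAbove_range f) i

theorem bergman_sphere (hX : IsFraisseLimit ratDistOne X) : Bergman (metricPol X) := by
  classical
  have := hX.countable
  have hle1 : ∀ a b : X, dist a b ≤ 1 := fun a b => (mem_one_iff.mp (hX.dist_mem a b)).2
  have hrat : ∀ a b : X, dist a b ∈ ratDist := fun a b => (mem_one_iff.mp (hX.dist_mem a b)).1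
  obtain ⟨⟨x0⟩⟩ : Nonempty (Nonempty X) := by
    obtain ⟨f, -⟩ := hX.universal Unit inferInstance (fun x y => by
      rw [Subsingleton.elim x y, dist_self]; exact zero_mem_one)
    exact ⟨⟨f ()⟩⟩
  have : Nonempty X := ⟨x0⟩
  apply bergman_of_distortion
  intro k
  refine ⟨fun n => n + 2, fun f hf => ?_⟩
  let D : (Fin (k + 1) → X) → (Fin (k + 1) → X) → ℝ := fun x y => ⨆ i, dist (x i) (y i)
  let δC : ℕ × (Fin (k + 1) → X) → ℕ × (Fin (k + 1) → X) → ℝ := fun a b =>
    if a.1 = b.1 then D a.2 b.2 else 1
  have hD1 : ∀ x y, D x y ≤ 1 := fun x y => iSup_le' fun i => hle1 _ _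
  have hD0 : ∀ x y, 0 ≤ D x y := fun x y =>
    dist_nonneg.trans (le_iSup' (fun i => dist (x i) (y i)) 0)
  have hDr : ∀ x y, D x y ∈ ratDist := by
    intro x y
    obtain ⟨i, hi⟩ := exists_eq_ciSup_of_finite (f := fun i => dist (x i) (y i))
    change (⨆ i, dist (x i) (y i)) ∈ ratDist
    rw [← hi]; exact hrat _ _
  have hDs : ∀ x, D x x = 0 := by
    intro x
    apply le_antisymm _ (hD0 x x)
    exact iSup_le' fun i => by rw [dist_self]
  have hDc : ∀ x y, D x y = D y x := by
    intro x y
    simp only [D, dist_comm]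
  have hDt : ∀ x y z, D x z ≤ D x y + D y z := fun x y z => iSup_le' fun i =>
    (dist_triangle _ (y i) _).trans (add_le_add (le_iSup' (fun i => dist (x i) (y i)) i)
      (le_iSup' (fun i => dist (y i) (z i)) i))
  obtain ⟨c, hc⟩ := exists_surjective_nat (ℕ × (Fin (k + 1) → X))
  choose code hcode using hc
  obtain ⟨u, hu, hext⟩ := exists_nice hX (fun i j => δC (c i) (c j))
    (fun i j => by
      by_cases h : (c i).1 = (c j).1
      · simp only [δC, if_pos h]; exact hDr _ _
      · simp only [δC, if_neg h]; exact ⟨1, by simp⟩)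
    (fun i j => by
      by_cases h : (c i).1 = (c j).1
      · simp only [δC, if_pos h]; exact hD1 _ _
      · simp only [δC, if_neg h]; exact le_rfl)
    (fun i j => by
      by_cases h : (c i).1 = (c j).1
      · simp only [δC, if_pos h]; exact hD0 _ _
      · simp only [δC, if_neg h]; norm_num)
    (fun i => by simp only [δC, if_true]; exact hDs _)
    (fun i j => by
      by_cases h : (c i).1 = (c j).1
      · simp only [δC, if_pos h, if_pos h.symm]; exact hDc _ _
      · simp only [δC, if_neg h, if_neg (Ne.symm h)])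
    (fun i j l => by
      by_cases h : (c i).1 = (c j).1
      · by_cases h' : (c j).1 = (c l).1
        · simp only [δC, if_pos h, if_pos h', if_pos (h.trans h')]; exact hDt _ _ _
        · have h2 : ¬ (c i).1 = (c l).1 := fun e => h' (h.symm.trans e)
          simp only [δC, if_pos h, if_neg h', if_neg h2]
          linarith [hD0 (c i).2 (c j).2]
      · by_cases h' : (c j).1 = (c l).1
        · have h2 : ¬ (c i).1 = (c l).1 := fun e => h (e.trans h'.symm)
          simp only [δC, if_neg h, if_pos h', if_neg h2]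
          linarith [hD0 (c j).2 (c l).2]
        · simp only [δC, if_neg h, if_neg h']
          split_ifs
          · linarith [hD1 (c i).2 (c l).2]
          · norm_num)
  let α : ℕ → (Fin (k + 1) → X) → X := fun n x => u (code (n, x))
  have hα : ∀ n m x y, dist (α n x) (α m y) = δC (n, x) (m, y) := by
    intro n m x y
    simp only [α, hu, hcode]
  obtain ⟨s, hs, hs'⟩ := hext (fun i => α ((c i).1 + 1) (c i).2) (fun i j => by
    rw [hα]
    by_cases h : (c i).1 = (c j).1
    · simp only [δC, if_pos h, h, if_true]; exact le_rfl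
    · have h2 : ¬ (c i).1 + 1 = (c j).1 + 1 := fun e => h (Nat.succ_injective e)
      simp only [δC, if_neg h, if_neg h2]; exact le_rfl)
  obtain ⟨h, hh, hh'⟩ := hext (fun i => f (c i).1 (c i).2) (fun i j => by
    by_cases e : (c i).1 = (c j).1
    · simp only [δC, if_pos e]
      rw [e]
      exact hf _ _ _
    · simp only [δC, if_neg e]
      exact hle1 _ _)
  have hsα : ∀ n x, s (α n x) = α (n + 1) x := by
    intro n x
    simp only [α]
    rw [hs', hcode]
  have hhα : ∀ n x, h (α n x) = f n x := by
    intro n x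
    simp only [α]
    rw [hh', hcode]
  let sO : (Fin (0 + 1) → X) → X := fun x => s (x 0)
  let hO : (Fin (0 + 1) → X) → X := fun x => h (x 0)
  let G : OpSet X := fun n => {g | (⟨n, g⟩ : Σ n : ℕ, (Fin (n + 1) → X) → X) ∈
    ({⟨0, sO⟩, ⟨0, hO⟩, ⟨k, α 0⟩} : Set (Σ n : ℕ, (Fin (n + 1) → X) → X))}
  refine ⟨G, ?_, ?_, ?_⟩
  · rintro n g (h | h | h)
    · cases h
      exact fun x y => (hs _ _).trans (le_iSup' (fun i => dist (x i) (y i)) 0)
    · cases h
      exact fun x y => (hh _ _).trans (le_iSup' (fun i => dist (x i) (y i)) 0)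
    · cases h
      intro x y
      rw [hα]
      simp only [δC, if_true]
      exact le_rfl
  · have : {p : Σ n : ℕ, (Fin (n + 1) → X) → X | p.2 ∈ G p.1} =
        {⟨0, sO⟩, ⟨0, hO⟩, ⟨k, α 0⟩} := rfl
    rw [this]
    exact Set.toFinite _
  · intro n
    have h1 : ∀ n, α n ∈ dep G k (n + 1) := by
      intro n
      induction n with
      | zero =>
        exact Or.inl ⟨k, α 0, fun j x => x j, Or.inr (Or.inr rfl), fun j => ⟨j, rfl⟩, rfl⟩
      | succ n ih =>
        refine Or.inl ⟨0, sO, fun _ => α n, Or.inl rfl, fun _ => ih, ?_⟩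
        funext x
        exact (hsα n x).symm
    refine Or.inl ⟨0, hO, fun _ => α n, Or.inr (Or.inl rfl), fun _ => h1 n, ?_⟩
    funext x
    exact (hhα n x).symm

end sphere

section space

variable {X : Type} [MetricSpace X]

theorem not_bergman_space (hX : IsFraisseLimit ratDist X) : ¬ Bergman (metricPol X) := by
  classical
  obtain ⟨x0⟩ : Nonempty X := by
    obtain ⟨f, -⟩ := hX.universal Unit inferInstance (fun x y => ⟨0, by simp⟩)
    exact ⟨f ()⟩
  have hz : (0 : ℝ) ∈ ratDist := ⟨0, by simp⟩
  -- points at a given distance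
  have hpt : ∀ n : ℕ, ∃ y : X, dist y x0 = (n : ℝ) + 1 := by
    intro n
    obtain ⟨w, hw⟩ := extension hX {x0} (Set.finite_singleton _) (fun _ => (n : ℝ) + 1)
      (fun a _ => ⟨n + 1, by push_cast; rfl⟩) hz (fun a _ => by positivity)
      (fun a _ b _ => by linarith [dist_nonneg (x := a) (y := b)])
      (fun a ha b hb => by
        rw [Set.mem_singleton_iff] at ha hb
        rw [ha, hb, dist_self]; positivity)
    exact ⟨w, hw x0 rfl⟩
  -- intermediate points
  have hmid : ∀ (m : ℕ) (y : X), dist x0 y ≤ (m : ℝ) + 1 →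
      ∃ q, dist x0 q ≤ m ∧ dist q y ≤ 1 := by
    intro m y hy
    by_cases h1 : dist x0 y ≤ m
    · exact ⟨y, h1, by rw [dist_self]; norm_num⟩
    push Not at h1
    rcases Nat.eq_zero_or_pos m with rfl | hm
    · exact ⟨x0, by simp, by simpa using hy⟩
    have hm' : (0 : ℝ) < m := by exact_mod_cast hm
    let f : X → ℝ := fun a => if a = x0 then m else dist x0 y - m
    have hyx : y ≠ x0 := by
      rintro rfl
      rw [dist_self] at h1
      linarith
    have hf0 : f x0 = m := if_pos rfl
    have hfy : f y = dist x0 y - m := if_neg hyx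
    obtain ⟨w, hw⟩ := extension hX {x0, y} (Set.toFinite _) f
      (by
        rintro a (rfl | rfl)
        · rw [hf0]; exact ⟨m, by simp⟩
        · rw [hfy]; exact rat_sub (hX.dist_mem _ _) ⟨m, by simp⟩)
      hz
      (by
        rintro a (rfl | rfl)
        · rw [hf0]; exact hm'
        · rw [hfy]; linarith)
      (by
        rintro a (rfl | rfl) b (rfl | rfl)
        · rw [dist_self]; linarith
        · rw [hf0, hfy]; linarith
        · rw [hf0, hfy, dist_comm]; linarith
        · rw [dist_self]; linarith)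
      (by
        rintro a (rfl | rfl) b (rfl | rfl)
        · rw [dist_self, hf0]; linarith
        · rw [hf0, hfy]; linarith
        · rw [hf0, hfy, dist_comm]; linarith
        · rw [dist_self, hfy]; linarith)
    refine ⟨w, ?_, ?_⟩
    · rw [dist_comm, hw x0 (Or.inl rfl), hf0]
    · rw [hw y (Or.inr rfl), hfy]; linarith
  -- transitivity
  have htrans : ∀ y : X, ∃ e : X ≃ᵢ X, e x0 = y := by
    intro y
    obtain ⟨e, he⟩ := hX.homogeneous {x0} (fun _ => y) (Set.finite_singleton _) (by
      apply Isometry.of_dist_eq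
      intro a b
      rw [Subsingleton.elim a b, dist_self, dist_self])
    exact ⟨e, he ⟨x0, rfl⟩⟩
  let H : OpSet X := fun n => {f | f ∈ metricPol X n ∧ dist (f fun _ => x0) x0 ≤ 1}
  have hisom : ∀ e : X ≃ᵢ X, (fun x : Fin (0 + 1) → X => e (x 0)) ∈ metricPol X 0 := by
    intro e x y
    rw [e.dist_eq]
    exact le_iSup' (fun i => dist (x i) (y i)) 0
  have hgen : Generates H (metricPol X) := by
    refine ⟨⟨?_, ?_⟩, fun n f hf => hf.1, ?_⟩
    · intro n i x y
      exact le_iSup' (fun i => dist (x i) (y i)) i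
    · intro n m f g hf hg x y
      exact (hf _ _).trans (iSup_le' fun j => hg j x y)
    · intro D hD hHD n f hf
      -- all isometries moving `x0` to a given point
      have key : ∀ (m : ℕ) (y : X), dist x0 y ≤ m → ∃ e : X ≃ᵢ X, e x0 = y ∧
          (fun x : Fin (0 + 1) → X => e (x 0)) ∈ D 0 := by
        intro m
        induction m with
        | zero =>
          intro y hy
          have : x0 = y := dist_le_zero.mp (by simpa using hy)
          subst this
          exact ⟨IsometryEquiv.refl X, rfl, hD.proj 0 0⟩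
        | succ m ih =>
          intro y hy
          obtain ⟨q, hq, hqy⟩ := hmid m y (by push_cast at hy; exact hy)
          obtain ⟨e, he, heD⟩ := ih q hq
          obtain ⟨b, hb⟩ := htrans (e.symm y)
          have hbD : (fun x : Fin (0 + 1) → X => b (x 0)) ∈ D 0 := by
            apply hHD
            refine ⟨hisom b, ?_⟩
            change dist (b x0) x0 ≤ 1
            rw [hb, ← e.dist_eq, e.apply_symm_apply, he, dist_comm]
            exact hqy
          refine ⟨b.trans e, ?_, ?_⟩
          · rw [IsometryEquiv.trans_apply, hb, e.apply_symm_apply]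
          · exact hD.comp 0 0 _ (fun _ => fun x => b (x 0)) heD fun _ => hbD
      obtain ⟨m, hm⟩ := exists_nat_ge (dist x0 (f fun _ => x0))
      obtain ⟨e, he, heD⟩ := key m _ hm
      have h1 : (fun x => e.symm (f x)) ∈ D n := by
        apply hHD
        refine ⟨fun x y => ?_, ?_⟩
        · rw [e.symm.dist_eq]; exact hf x y
        · change dist (e.symm (f fun _ => x0)) x0 ≤ 1
          rw [← he, e.symm_apply_apply, dist_self]; norm_num
      have h2 := hD.comp 0 n _ (fun _ => fun x => e.symm (f x)) heD fun _ => h1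
      have h3 : (fun x => e (e.symm (f x))) = f := by
        funext x
        exact e.apply_symm_apply _
      rw [h3] at h2
      exact h2
  intro hB
  obtain ⟨n, hn⟩ := hB H hgen 0
  have hdep : ∀ i, ∀ f ∈ dep H 0 i, dist (f fun _ => x0) x0 ≤ i := by
    intro i
    induction i with
    | zero =>
      rintro f ⟨j, rfl⟩
      simp
    | succ i ih =>
      rintro f (⟨m, g, p, hg, hp, rfl⟩ | hf)
      · have h1 := hg.1 (fun j => p j fun _ => x0) (fun _ => x0)
        have h2 : (⨆ j, dist (p j fun _ => x0) x0) ≤ i := iSup_le' fun j => ih _ (hp j)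
        have h3 := hg.2
        have h4 := dist_triangle (g fun j => p j fun _ => x0) (g fun _ => x0) x0
        push_cast
        linarith
      · have := ih f hf
        push_cast
        linarith
  obtain ⟨y, hy⟩ := hpt n
  have h1 : (fun _ => y) ∈ metricPol X 0 := by
    intro a b
    rw [dist_self]
    exact dist_nonneg.trans (le_iSup' (fun i => dist (a i) (b i)) 0)
  rw [← hn] at h1
  have h2 := hdep n _ h1
  rw [hy] at h2
  linarith

end space

end Q15Berg
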