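import Mathlib

/-! Basic definitions: `d`-CP structures on monoids, their combinations, and the
universal CP monoid. -/

namespace Q15CP

/-- A `d`-CP structure `(Φ; τ_1, …, τ_d)` on the monoid `M`. -/
@[ext]
structure CPStr (M : Type*) [Monoid M] (d : ℕ) where
  Φ : (Fin d → M) → M
  τ : Fin d → M
  bij : Function.Bijective Φ
  proj : ∀ (m : Fin d → M) (i : Fin d), τ i * Φ m = m i

/-- The 1-CP structure `(id; 1)`. -/
def CPStr.one (M : Type*) [Monoid M] : CPStr M 1 where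
  Φ m := m 0
  τ _ := 1
  bij := ⟨fun m m' h => by funext i; rw [Subsingleton.elim i 0]; exact h,
    fun x => ⟨fun _ => x, rfl⟩⟩
  proj m i := by rw [one_mul, Subsingleton.elim i 0]

/-- Combination of an `s`-CP structure `Ψ` with `d i`-CP structures `Φ i`, `i < s`. -/
def CPStr.comb {M : Type*} [Monoid M] {s : ℕ} (Ψ : CPStr M s) {d : Fin s → ℕ}
    (Φ : ∀ i, CPStr M (d i)) : CPStr M (∑ i, d i) where
  Φ m := Ψ.Φ fun i => (Φ i).Φ fun j => m (finSigmaFinEquiv ⟨i, j⟩)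
  τ k := (Φ (finSigmaFinEquiv.symm k).1).τ (finSigmaFinEquiv.symm k).2 *
    Ψ.τ (finSigmaFinEquiv.symm k).1
  bij := by
    constructor
    · intro m m' h
      have h1 := Ψ.bij.1 h
      funext k
      obtain ⟨⟨i, j⟩, rfl⟩ := finSigmaFinEquiv.surjective k
      exact congrFun ((Φ i).bij.1 (congrFun h1 i)) j
    · intro x
      obtain ⟨y, rfl⟩ := Ψ.bij.2 x
      choose z hz using fun i => (Φ i).bij.2 (y i)
      refine ⟨fun k => z (finSigmaFinEquiv.symm k).1 (finSigmaFinEquiv.symm k).2, ?_⟩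
      change Ψ.Φ _ = Ψ.Φ y
      refine congrArg Ψ.Φ (funext fun i => ?_)
      rw [← hz i]
      refine congrArg (Φ i).Φ (funext fun j => ?_)
      beta_reduce
      rw [Equiv.symm_apply_apply]
  proj m k := by
    rw [mul_assoc, Ψ.proj, (Φ _).proj]
    simp

/-- The set `𝕊(M)` of all structures obtained from `(Σ; π_1, π_2)` and `(id; 1)` by repeated
combination. -/
inductive InS {M : Type*} [Monoid M] (c : CPStr M 2) : (d : ℕ) → CPStr M d → Prop
  | base : InS c 2 c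
  | one : InS c 1 (CPStr.one M)
  | comb {s : ℕ} (Ψ : CPStr M s) (d : Fin s → ℕ) (Φ : ∀ i, CPStr M (d i)) :
      InS c s Ψ → (∀ i, InS c (d i) (Φ i)) → InS c (∑ i, d i) (Ψ.comb Φ)

/-- The map `φ_Φ : E_d → M`, `φ_Φ(f) = Φ(τ_{f(1)}, …, τ_{f(d)})`. -/
def phi {M : Type*} [Monoid M] {d : ℕ} (S : CPStr M d) (f : Fin d → Fin d) : M :=
  S.Φ fun i => S.τ (f i)

/-- The map `ψ_{Φ,τ} : S_d → M`, `ψ(σ) = Φ(τ_{σ⁻¹(1)}, …, τ_{σ⁻¹(d)})`. -/
def psi {M : Type*} [Monoid M] {d : ℕ} (S : CPStr M d) (σ : Equiv.Perm (Fin d)) : M :=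
  S.Φ fun i => S.τ (σ⁻¹ i)

/-- `f` is a homomorphism of CP monoids `(M, c) → (N, c')`. -/
def IsCPHom {M N : Type*} [Monoid M] [Monoid N] (c : CPStr M 2) (c' : CPStr N 2)
    (f : M →* N) : Prop :=
  (∀ i, f (c.τ i) = c'.τ i) ∧ ∀ m : Fin 2 → M, f (c.Φ m) = c'.Φ fun i => f (m i)

/-- `(U, c)` is an initial object in the category of CP monoids (with carriers in the
universe `v`), that is, a universal CP monoid. -/
def IsUniversal.{u, v} {U : Type u} [Monoid U] (c : CPStr U 2) : Prop :=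
  ∀ (N : Type v) [Monoid N] (c' : CPStr N 2), ∃! f : U →* N, IsCPHom c c' f

end Q15CP
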