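import Mathlib
import Pool.Agent.Q15.CPDefs

/-! A concrete model of the universal CP monoid: maps of the Cantor space which are
locally prefix replacements. -/

namespace Q15CP

/-- Cantor space. -/
abbrev C := Stream' Bool

/-- Labelled binary trees. -/
inductive LT : Type
  | leaf (w : List Bool) : LT
  | node (l r : LT) : LT

/-- The map of Cantor space described by a labelled tree. -/
def LT.eval : LT → C → C
  | .leaf w, x => w ++ₛ x
  | .node l r, x => if x.head then r.eval x.tail else l.eval x.tail

@[simp] lemma eval_leaf (w : List Bool) (x : C) : (LT.leaf w).eval x = w ++ₛ x := by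
  rw [LT.eval]

@[simp] lemma eval_node_false (l r : LT) (x : C) :
    (LT.node l r).eval (Stream'.cons false x) = l.eval x := by
  rw [LT.eval]; simp

@[simp] lemma eval_node_true (l r : LT) (x : C) :
    (LT.node l r).eval (Stream'.cons true x) = r.eval x := by
  rw [LT.eval]; simp

lemma cases_stream (x : C) : ∃ b y, x = Stream'.cons b y :=
  ⟨x.head, x.tail, (Stream'.eta x).symm⟩

lemma ext_cons {f g : C → C} (h : ∀ b x, f (Stream'.cons b x) = g (Stream'.cons b x)) :
    f = g := by
  funext x
  obtain ⟨b, y, rfl⟩ := cases_stream x
  exact h b y

/-- the subtree at `b`. -/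
def LT.sub (b : Bool) : LT → LT
  | .leaf w => .leaf (w ++ [b])
  | .node l r => if b then r else l

lemma eval_sub (b : Bool) (t : LT) (x : C) : (t.sub b).eval x = t.eval (Stream'.cons b x) := by
  cases t with
  | leaf w =>
    rw [LT.sub, eval_leaf, eval_leaf, Stream'.append_append_stream]
    rfl
  | node l r =>
    cases b <;> simp [LT.sub]

/-- `f` is represented by some tree. -/
def IsU (f : C → C) : Prop := ∃ t : LT, t.eval = f

lemma isU_word (w : List Bool) : IsU (fun x => w ++ₛ x) := ⟨.leaf w, by funext x; simp⟩

lemma isU_id : IsU id := ⟨.leaf [], by funext x; simp⟩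

lemma isU_node {f : C → C} (h0 : IsU fun x => f (Stream'.cons false x))
    (h1 : IsU fun x => f (Stream'.cons true x)) : IsU f := by
  obtain ⟨l, hl⟩ := h0
  obtain ⟨r, hr⟩ := h1
  refine ⟨.node l r, ext_cons ?_⟩
  intro b x
  cases b
  · simp [hl]
  · simp [hr]

lemma isU_cons {f : C → C} (b : Bool) (h : IsU f) : IsU fun x => f (Stream'.cons b x) := by
  obtain ⟨t, rfl⟩ := h
  exact ⟨t.sub b, by funext x; exact eval_sub b t x⟩

lemma isU_append {f : C → C} (w : List Bool) (h : IsU f) : IsU fun x => f (w ++ₛ x) := by
  induction w generalizing f with
  | nil => exact h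
  | cons b w ih => exact ih (isU_cons b h)

lemma isU_comp {f g : C → C} (hf : IsU f) (hg : IsU g) : IsU (g ∘ f) := by
  obtain ⟨t, rfl⟩ := hf
  induction t with
  | leaf w =>
    have := isU_append w hg
    convert this using 1
    funext x
    simp
  | node l r ihl ihr =>
    apply isU_node
    · convert ihl using 1
      funext x
      simp
    · convert ihr using 1
      funext x
      simp

/-- The model of the universal CP monoid. -/
def U : Type := {f : C → C // IsU f}

instance : Monoid U where
  mul f g := ⟨g.1 ∘ f.1, isU_comp f.2 g.2⟩
  one := ⟨id, isU_id⟩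
  mul_assoc _ _ _ := rfl
  one_mul _ := rfl
  mul_one _ := rfl

lemma U.ext {u v : U} (h : ∀ x, u.1 x = v.1 x) : u = v := Subtype.ext (funext h)

@[simp] lemma mul_val (u v : U) (x : C) : (u * v).1 x = v.1 (u.1 x) := rfl
@[simp] lemma one_val (x : C) : (1 : U).1 x = x := rfl

/-- The element of the model attached to a word. -/
def word (w : List Bool) : U := ⟨fun x => w ++ₛ x, isU_word w⟩

@[simp] lemma word_val (w : List Bool) (x : C) : (word w).1 x = w ++ₛ x := rfl

/-- index of a bit -/
def bi (b : Bool) : Fin 2 := if b then 1 else 0

/-- bit of an index -/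
def ib (i : Fin 2) : Bool := decide (i = 1)

@[simp] lemma ib_bi (b : Bool) : ib (bi b) = b := by cases b <;> rfl
@[simp] lemma bi_ib (i : Fin 2) : bi (ib i) = i := by fin_cases i <;> rfl

/-- The 2-CP structure of the model. -/
def cU : CPStr U 2 where
  Φ m := ⟨fun x => (m (bi x.head)).1 x.tail, by
    apply isU_node
    · exact (m 0).2
    · exact (m 1).2⟩
  τ i := word [ib i]
  bij := by
    constructor
    · intro m m' h
      funext i
      apply U.ext
      intro x
      have := congrFun (congrArg Subtype.val h) (Stream'.cons (ib i) x)
      simpa using this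
    · intro u
      refine ⟨fun i => ⟨fun x => u.1 (Stream'.cons (ib i) x), isU_cons _ u.2⟩, ?_⟩
      apply U.ext
      intro x
      obtain ⟨b, y, rfl⟩ := cases_stream x
      simp
  proj m i := by
    apply U.ext
    intro x
    simp

/-- evaluation of a word in another CP monoid -/
def wordN {N : Type*} [Monoid N] (c : CPStr N 2) : List Bool → N
  | [] => 1
  | b :: w => wordN c w * c.τ (bi b)

/-- evaluation of a tree in another CP monoid -/
def evalN {N : Type*} [Monoid N] (c : CPStr N 2) : LT → N
  | .leaf w => wordN c w
  | .node l r => c.Φ ![evalN c l, evalN c r]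

section
variable {N : Type*} [Monoid N] (c : CPStr N 2)

lemma wordN_append (w w' : List Bool) : wordN c (w ++ w') = wordN c w' * wordN c w := by
  induction w with
  | nil => simp [wordN]
  | cons b w ih => simp [wordN, ih, mul_assoc]

lemma wordN_snoc (w : List Bool) (b : Bool) : wordN c (w ++ [b]) = c.τ (bi b) * wordN c w := by
  rw [wordN_append]; simp [wordN]

lemma recomb (n : N) : c.Φ ![c.τ 0 * n, c.τ 1 * n] = n := by
  obtain ⟨m, rfl⟩ := c.bij.2 n
  congr 1
  rw [c.proj, c.proj]
  funext i
  fin_cases i <;> rfl

lemma tau_mul_evalN (b : Bool) (t : LT) : c.τ (bi b) * evalN c t = evalN c (t.sub b) := by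
  cases t with
  | leaf w => rw [evalN, LT.sub, evalN, wordN_snoc]
  | node l r =>
    rw [evalN, c.proj]
    cases b <;> simp [LT.sub, bi]

lemma evalN_sub (t : LT) : c.Φ ![evalN c (t.sub false), evalN c (t.sub true)] = evalN c t := by
  rw [← tau_mul_evalN, ← tau_mul_evalN]
  exact recomb c _

lemma word_inj {w w' : List Bool} (h : ∀ x : C, w ++ₛ x = w' ++ₛ x) : w = w' := by
  -- a stream argument
  induction w generalizing w' with
  | nil =>
    cases w' with
    | nil => rfl
    | cons b w' =>
      have h1 := h (Stream'.const (!b))
      have h2 := congrArg Stream'.head h1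
      rw [Stream'.nil_append_stream, Stream'.cons_append_stream] at h2
      rw [Stream'.head_cons] at h2
      cases b <;> simp [Stream'.head, Stream'.get, Stream'.const] at h2
  | cons a w ih =>
    cases w' with
    | nil =>
      have h1 := h (Stream'.const (!a))
      have h2 := congrArg Stream'.head h1
      rw [Stream'.nil_append_stream, Stream'.cons_append_stream] at h2
      rw [Stream'.head_cons] at h2
      cases a <;> simp [Stream'.head, Stream'.get, Stream'.const] at h2
    | cons b w' =>
      have hab : a = b := by
        have h2 := congrArg Stream'.head (h (Stream'.const true))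
        rw [Stream'.cons_append_stream, Stream'.cons_append_stream] at h2
        simpa using h2
      subst hab
      congr 1
      apply ih
      intro x
      have h2 := congrArg Stream'.tail (h x)
      rw [Stream'.cons_append_stream, Stream'.cons_append_stream] at h2
      simpa using h2

lemma evalN_congr_leaf (t : LT) (w : List Bool) (h : t.eval = (LT.leaf w).eval) :
    evalN c t = evalN c (.leaf w) := by
  induction t generalizing w with
  | leaf w' =>
    have : w' = w := word_inj fun x => by simpa using congrFun h x
    rw [this]
  | node l r ihl ihr =>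
    have hl := ihl (w ++ [false]) (by
      funext x
      have := congrFun h (Stream'.cons false x)
      rw [eval_node_false] at this
      rw [this, eval_leaf, eval_leaf, Stream'.append_append_stream]
      rfl)
    have hr := ihr (w ++ [true]) (by
      funext x
      have := congrFun h (Stream'.cons true x)
      rw [eval_node_true] at this
      rw [this, eval_leaf, eval_leaf, Stream'.append_append_stream]
      rfl)
    rw [← evalN_sub c (.leaf w)]
    change c.Φ ![evalN c l, evalN c r] = _
    rw [hl, hr]
    rfl

lemma evalN_congr (t t' : LT) (h : t.eval = t'.eval) : evalN c t = evalN c t' := by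
  induction t generalizing t' with
  | leaf w => exact (evalN_congr_leaf c t' w h.symm).symm
  | node l r ihl ihr =>
    have hl := ihl (t'.sub false) (by
      funext x
      rw [eval_sub, ← h, eval_node_false])
    have hr := ihr (t'.sub true) (by
      funext x
      rw [eval_sub, ← h, eval_node_true])
    rw [evalN, hl, hr]
    exact evalN_sub c t'

/-- the canonical map -/
noncomputable def hmap (u : U) : N := evalN c u.2.choose

lemma hmap_eq (u : U) (t : LT) (h : t.eval = u.1) : hmap c u = evalN c t :=
  evalN_congr c _ _ (u.2.choose_spec.trans h.symm)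

lemma hmap_cons (b : Bool) (v : U) : hmap c (word [b] * v) = c.τ (bi b) * hmap c v := by
  obtain ⟨t, ht⟩ := v.2
  rw [hmap_eq c v t ht, tau_mul_evalN]
  apply hmap_eq
  funext x
  rw [eval_sub, ht]
  simp

lemma hmap_word (w : List Bool) (v : U) : hmap c (word w * v) = wordN c w * hmap c v := by
  induction w generalizing v with
  | nil => rw [wordN, one_mul]; congr 1
  | cons b w ih =>
    have : word (b :: w) = word w * word [b] := by
      apply U.ext; intro x
      rfl
    rw [this, mul_assoc, ih, hmap_cons, wordN, mul_assoc]

lemma hmap_mul (u v : U) : hmap c (u * v) = hmap c u * hmap c v := by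
  obtain ⟨t, ht⟩ := u.2
  rw [hmap_eq c u t ht]
  induction t generalizing u with
  | leaf w =>
    have : u = word w := by
      apply U.ext; intro x; rw [← ht]; simp
    rw [this, hmap_word, evalN]
  | node l r ihl ihr =>
    have hl := ihl (word [false] * u) (by funext x; simp [← ht])
    have hr := ihr (word [true] * u) (by funext x; simp [← ht])
    have key := recomb c (hmap c (u * v))
    have e0 := hmap_cons c false (u * v)
    have e1 := hmap_cons c true (u * v)
    simp only [bi, Bool.false_eq_true, ↓reduceIte] at e0 e1
    rw [← e0, ← e1, ← mul_assoc, ← mul_assoc, hl, hr] at key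
    rw [← key, evalN]
    -- Φ(a,b) * n = Φ(a n, b n)
    obtain ⟨m, hm⟩ := c.bij.2 (c.Φ ![evalN c l, evalN c r] * hmap c v)
    rw [← hm]
    congr 1
    funext i
    have := c.proj m i
    rw [← this, hm, ← mul_assoc, c.proj]
    fin_cases i <;> rfl

/-- The homomorphism. -/
noncomputable def homN : U →* N where
  toFun := hmap c
  map_one' := hmap_eq c 1 (.leaf []) (by funext x; simp)
  map_mul' := hmap_mul c

end

theorem universal_cU.{v} : IsUniversal.{0, v} cU := by
  intro N _ c
  refine ⟨homN c, ⟨?_, ?_⟩, ?_⟩
  · intro i
    have : hmap c (word [ib i]) = evalN c (.leaf [ib i]) :=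
      hmap_eq c _ _ (by funext x; simp)
    change hmap c (word [ib i]) = _
    rw [this]
    simp [evalN, wordN]
  · intro m
    obtain ⟨t0, h0⟩ := (m 0).2
    obtain ⟨t1, h1⟩ := (m 1).2
    change hmap c _ = _
    rw [hmap_eq c _ (.node t0 t1) (by
      apply ext_cons
      intro b x
      cases b
      · simp [h0, cU, bi]
      · simp [h1, cU, bi]), evalN]
    congr 1
    funext i
    fin_cases i
    · exact (hmap_eq c (m 0) t0 h0).symm
    · exact (hmap_eq c (m 1) t1 h1).symm
  · rintro g ⟨g1, g2⟩
    have gw : ∀ w, g (word w) = wordN c w := by
      intro w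
      induction w with
      | nil => exact g.map_one
      | cons b w ih =>
        have : word (b :: w) = word w * word [b] := by
          apply U.ext; intro x
          rfl
        rw [this, map_mul, ih, wordN]
        congr 1
        have := g1 (bi b)
        rw [← this]
        congr 1
        simp [cU]
    have gt : ∀ (t : LT) (u : U), t.eval = u.1 → g u = evalN c t := by
      intro t
      induction t with
      | leaf w =>
        intro u hu
        have : u = word w := by
          apply U.ext; intro x; rw [← hu]; simp
        rw [this, gw, evalN]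
      | node l r ihl ihr =>
        intro u hu
        have hl := ihl (word [false] * u) (by funext x; simp [← hu])
        have hr := ihr (word [true] * u) (by funext x; simp [← hu])
        have : u = cU.Φ ![word [false] * u, word [true] * u] := by
          have := recomb cU u
          exact this.symm
        rw [this, g2, evalN]
        congr 1
        funext i
        fin_cases i
        · exact hl
        · exact hr
    ext u
    obtain ⟨t, ht⟩ := u.2
    rw [gt t u ht]
    exact (hmap_eq c u t ht).symm

end Q15CP
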