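import Mathlib
import Pool.Agent.Q15.CPDefs
import Pool.Agent.Q15.CPModel

/-! The submonoid generated by the images of the transformation monoids. -/

namespace Q15CP

section
variable {M : Type*} [Monoid M] {d : ℕ}

lemma CPStr.ext_tau (S : CPStr M d) {a b : M} (h : ∀ i, S.τ i * a = S.τ i * b) : a = b := by
  obtain ⟨m, rfl⟩ := S.bij.2 a
  obtain ⟨m', rfl⟩ := S.bij.2 b
  congr 1
  funext i
  have := h i
  rwa [S.proj, S.proj] at this

lemma CPStr.tau_inj [Nontrivial M] (S : CPStr M d) : Function.Injective S.τ := by
  intro i j h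
  by_contra hij
  obtain ⟨a, b, hab⟩ := exists_pair_ne M
  have h1 := S.proj (Function.update (fun _ => a) j b) i
  have h2 := S.proj (Function.update (fun _ => a) j b) j
  rw [h, h2, Function.update_self, Function.update_of_ne hij] at h1
  exact hab h1.symm

lemma tau_phi (S : CPStr M d) (f : Fin d → Fin d) (i : Fin d) :
    S.τ i * phi S f = S.τ (f i) := S.proj _ _

lemma phi_mul (S : CPStr M d) (f g : Fin d → Fin d) : phi S f * phi S g = phi S (g ∘ f) := by
  apply S.ext_tau
  intro i
  rw [← mul_assoc, tau_phi, tau_phi, tau_phi]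
  rfl

lemma phi_id (S : CPStr M d) : phi S id = 1 := by
  apply S.ext_tau
  intro i
  rw [tau_phi, mul_one]
  rfl

lemma phi_inj [Nontrivial M] (S : CPStr M d) {f g : Fin d → Fin d} (h : phi S f = phi S g) :
    f = g := by
  funext i
  apply S.tau_inj
  rw [← tau_phi, h, tau_phi]

/-- right cancellable -/
def RC (x : M) : Prop := ∀ a b : M, a * x = b * x → a = b

lemma phi_unit_of_inj (S : CPStr M d) {f : Fin d → Fin d} (hf : Function.Injective f) :
    IsUnit (phi S f) := by
  let e : Equiv.Perm (Fin d) := Equiv.ofBijective f (Finite.injective_iff_bijective.mp hf)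
  refine ⟨⟨phi S f, phi S e.symm, ?_, ?_⟩, rfl⟩
  · rw [phi_mul, ← phi_id S]
    congr 1
    funext i
    exact e.symm_apply_apply i
  · rw [phi_mul, ← phi_id S]
    congr 1
    funext i
    exact e.apply_symm_apply i

lemma phi_rc [Nontrivial M] (S : CPStr M d) (f : Fin d → Fin d) (h : RC (phi S f)) :
    IsUnit (phi S f) := by
  apply phi_unit_of_inj
  intro i j hij
  have h1 : phi S (Function.update id i j) * phi S f = phi S id * phi S f := by
    rw [phi_mul, phi_mul]
    congr 1
    funext k
    by_cases hk : k = i
    · subst hk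
      simp [hij]
    · simp [Function.update_of_ne hk]
  have h2 := congrFun (phi_inj S (h _ _ h1)) i
  simpa using h2.symm

/-- The union of all the images `φ_Φ(E_d)` over all `d ≥ 1` and all `d`-CP structures. -/
def allImages (M : Type*) [Monoid M] : Set M :=
  {m | ∃ (d : ℕ) (S : CPStr M d) (f : Fin d → Fin d), m = phi S f}

lemma rc_unit [Nontrivial M] (x : M) (hx : x ∈ Submonoid.closure (allImages M)) :
    RC x → IsUnit x := by
  induction hx using Submonoid.closure_induction with
  | mem x hx =>
    obtain ⟨d, S, f, rfl⟩ := hx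
    exact phi_rc S f
  | one => exact fun _ => isUnit_one
  | mul x y hx hy ihx ihy =>
    intro h
    have h1 : RC x := by
      intro a b hab
      apply h
      rw [← mul_assoc, hab, mul_assoc]
    have u1 := ihx h1
    have h2 : RC y := by
      intro a b hab
      obtain ⟨u, rfl⟩ := u1
      have h3 : (a * (↑u⁻¹ : M)) = b * (↑u⁻¹ : M) := by
        apply h
        rw [mul_assoc, mul_assoc, ← mul_assoc (↑u⁻¹ : M), Units.inv_mul, one_mul, hab]
      simpa using congrArg (· * (↑u : M)) h3
    exact u1.mul (ihy h2)

theorem tau_not_mem [Nontrivial M] (c : CPStr M 2) (i : Fin 2) :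
    c.τ i ∉ Submonoid.closure (allImages M) := by
  intro h
  have hrc : RC (c.τ i) := by
    intro a b hab
    have := congrArg (· * c.Φ fun _ => 1) hab
    simpa [mul_assoc, c.proj] using this
  obtain ⟨u, hu⟩ := rc_unit _ h hrc
  obtain ⟨a, b, hab⟩ := exists_pair_ne M
  apply hab
  have h1 : c.τ i * c.Φ (Function.update (fun _ => a) i 1) =
      c.τ i * c.Φ (Function.update (fun _ => b) i 1) := by
    rw [c.proj, c.proj]
    simp
  rw [← hu] at h1
  have h2 := c.bij.1 (u.isUnit.mul_left_cancel h1)
  have h3 := congrFun h2 (i + 1)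
  have hne : i + 1 ≠ i := by fin_cases i <;> decide
  rwa [Function.update_of_ne hne, Function.update_of_ne hne] at h3

/-- Transport of a `d`-CP structure along an isomorphism. -/
def CPStr.map {N : Type*} [Monoid N] (e : M ≃* N) (S : CPStr M d) : CPStr N d where
  Φ m := e (S.Φ fun i => e.symm (m i))
  τ i := e (S.τ i)
  bij := by
    constructor
    · intro m m' h
      have := S.bij.1 (e.injective h)
      funext i
      exact e.symm.injective (congrFun this i)
    · intro x
      obtain ⟨m, hm⟩ := S.bij.2 (e.symm x)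
      refine ⟨fun i => e (m i), ?_⟩
      simp [hm]
  proj m i := by
    rw [← map_mul, S.proj]
    simp

end

instance : Nontrivial U := ⟨⟨word [false], word [true], by
  intro h
  have := congrArg Stream'.head (congrFun (congrArg Subtype.val h) (Stream'.const true))
  change Stream'.head ([false] ++ₛ _) = Stream'.head ([true] ++ₛ _) at this
  rw [Stream'.cons_append_stream, Stream'.cons_append_stream, Stream'.head_cons,
    Stream'.head_cons] at this
  exact absurd this (by decide)⟩⟩

theorem nontrivial_of_universal.{u, v} {V : Type u} [Monoid V] (c : CPStr V 2)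
    (hc : IsUniversal.{u, v} c) : Nontrivial V := by
  by_contra hV
  rw [not_nontrivial_iff_subsingleton] at hV
  let c' : CPStr (ULift.{v} U) 2 := cU.map MulEquiv.ulift.symm
  obtain ⟨f, ⟨h1, h2⟩, -⟩ := hc (ULift.{v} U) c'
  have h3 : c'.τ 0 = c'.τ 1 := by
    rw [← h1, ← h1, Subsingleton.elim (c.τ 0) (c.τ 1)]
  exact absurd (c'.tau_inj h3) (by decide)

end Q15CP
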