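import Mathlib
import Pool.Agent.Q15.CPDefs
import Pool.Agent.Q15.CPModel
import Pool.Agent.Q15.CPGen

/-! The unit group of the universal CP monoid is generated by the images of the symmetric
groups. -/

namespace Q15CP

/-- The subgroup generated by the images of symmetric groups. -/
def HS {M : Type*} [Monoid M] (c : CPStr M 2) : Subgroup Mˣ :=
  Subgroup.closure {u | ∃ (d : ℕ) (S : CPStr M d), 2 ≤ d ∧ InS c d S ∧
    ∃ σ : Equiv.Perm (Fin d), (u : M) = psi S σ}

section
variable {M : Type*} [Monoid M] {d : ℕ}

lemma psi_eq_phi (S : CPStr M d) (σ : Equiv.Perm (Fin d)) : psi S σ = phi S ⇑σ⁻¹ := rfl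

lemma isUnit_psi (S : CPStr M d) (σ : Equiv.Perm (Fin d)) : IsUnit (psi S σ) := by
  rw [psi_eq_phi]
  exact phi_unit_of_inj S (Equiv.injective _)

lemma comb_tau {s : ℕ} (Ψ : CPStr M s) {d : Fin s → ℕ} (Φ : ∀ i, CPStr M (d i)) (i : Fin s)
    (j : Fin (d i)) : (Ψ.comb Φ).τ (finSigmaFinEquiv ⟨i, j⟩) = (Φ i).τ j * Ψ.τ i := by
  unfold CPStr.comb
  dsimp only
  rw [Equiv.symm_apply_apply]

end

/-- incomparable words: disjoint cones -/
def Incomp (a b : List Bool) : Prop := ∀ x y : C, a ++ₛ x ≠ b ++ₛ y

lemma Incomp.symm {a b : List Bool} (h : Incomp a b) : Incomp b a := fun x y e => h y x e.symm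

lemma not_incomp_nil (b : List Bool) : ¬ Incomp [] b := fun h =>
  h (b ++ₛ Stream'.const true) (Stream'.const true) rfl

lemma not_incomp_self (a : List Bool) : ¬ Incomp a a := fun h =>
  h (Stream'.const true) (Stream'.const true) rfl

lemma not_incomp_append (a v : List Bool) : ¬ Incomp a (a ++ v) := fun h =>
  h (v ++ₛ Stream'.const true) (Stream'.const true) (by rw [Stream'.append_append_stream])

lemma word_mul_cons (b : Bool) (w : List Bool) : word w * word [b] = word (b :: w) := by
  apply U.ext; intro x; rfl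

lemma exists_S1 (a : List Bool) :
    ∃ (d : ℕ) (S : CPStr U d), InS cU d S ∧ ∃ i, S.τ i = word a := by
  induction a with
  | nil => exact ⟨1, _, InS.one, 0, rfl⟩
  | cons b a ih =>
    obtain ⟨d, S, hS, i, hi⟩ := ih
    refine ⟨_, _, InS.comb cU (fun _ => d) (fun _ => S) InS.base (fun _ => hS),
      finSigmaFinEquiv ⟨bi b, i⟩, ?_⟩
    rw [comb_tau, hi]
    change word a * word [ib (bi b)] = _
    rw [ib_bi, word_mul_cons]

lemma exists_S2 (a b : List Bool) (h : Incomp a b) :
    ∃ (d : ℕ) (S : CPStr U d), InS cU d S ∧ ∃ i j, S.τ i = word a ∧ S.τ j = word b := by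
  induction a generalizing b with
  | nil => exact absurd h (not_incomp_nil b)
  | cons p a ih =>
    cases b with
    | nil => exact absurd h.symm (not_incomp_nil _)
    | cons q b =>
      by_cases hpq : p = q
      · subst hpq
        obtain ⟨d, S, hS, i, j, hi, hj⟩ := ih b (by
          intro x y e
          apply h x y
          rw [Stream'.cons_append_stream, Stream'.cons_append_stream, e])
        refine ⟨_, _, InS.comb cU (fun _ => d) (fun _ => S) InS.base (fun _ => hS),
          finSigmaFinEquiv ⟨bi p, i⟩, finSigmaFinEquiv ⟨bi p, j⟩, ?_, ?_⟩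
        · rw [comb_tau, hi]
          change word a * word [ib (bi p)] = _
          rw [ib_bi, word_mul_cons]
        · rw [comb_tau, hj]
          change word b * word [ib (bi p)] = _
          rw [ib_bi, word_mul_cons]
      · have hne : bi q ≠ bi p := by
          intro e
          apply hpq
          rw [← ib_bi p, ← ib_bi q, e]
        have key : ∀ k : Fin 2, ∃ (d : ℕ) (S : CPStr U d), InS cU d S ∧
            ∃ i, S.τ i = word (if k = bi p then a else b) := fun k => exists_S1 _
        choose d S hS i hi using key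
        refine ⟨_, _, InS.comb cU d S InS.base hS, finSigmaFinEquiv ⟨bi p, i _⟩,
          finSigmaFinEquiv ⟨bi q, i _⟩, ?_, ?_⟩
        · rw [comb_tau, hi, if_pos rfl]
          change word a * word [ib (bi p)] = _
          rw [ib_bi, word_mul_cons]
        · rw [comb_tau, hi, if_neg hne]
          change word b * word [ib (bi q)] = _
          rw [ib_bi, word_mul_cons]

lemma covering {d : ℕ} {S : CPStr U d} (hS : InS cU d S) :
    ∀ y : C, ∃ k z, y = (S.τ k).1 z := by
  induction hS with
  | base =>
    intro y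
    obtain ⟨b, z, rfl⟩ := cases_stream y
    refine ⟨bi b, z, ?_⟩
    change _ = [ib (bi b)] ++ₛ z
    rw [ib_bi]
    rfl
  | one => exact fun y => ⟨0, y, rfl⟩
  | comb Ψ d Φ _ _ ih1 ih2 =>
    intro y
    obtain ⟨i, z, rfl⟩ := ih1 y
    obtain ⟨j, z', rfl⟩ := ih2 i z
    refine ⟨finSigmaFinEquiv ⟨i, j⟩, z', ?_⟩
    rw [comb_tau]
    rfl

lemma exists_swap (a b : List Bool) (h : Incomp a b) :
    ∃ s ∈ HS cU, (∀ x, (s : U).1 (a ++ₛ x) = b ++ₛ x) ∧ (∀ x, (s : U).1 (b ++ₛ x) = a ++ₛ x) ∧
      ∀ c, Incomp c a → Incomp c b → ∀ x, (s : U).1 (c ++ₛ x) = c ++ₛ x := by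
  obtain ⟨d, S, hS, i, j, hi, hj⟩ := exists_S2 a b h
  have hij : i ≠ j := by
    rintro rfl
    rw [hi] at hj
    exact h (Stream'.const true) (Stream'.const true)
      (congrFun (congrArg Subtype.val hj) (Stream'.const true))
  have hd : 2 ≤ d := by
    have := i.2
    have := j.2
    have : (i : ℕ) ≠ j := fun e => hij (Fin.ext e)
    omega
  obtain ⟨s, hs⟩ := isUnit_psi S (Equiv.swap i j)
  have hk : ∀ k z, (s : U).1 ((S.τ k).1 z) = (S.τ (Equiv.swap i j k)).1 z := by
    intro k z
    rw [← mul_val, hs, psi_eq_phi, tau_phi, Equiv.swap_inv]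
  refine ⟨s, Subgroup.subset_closure ⟨d, S, hd, hS, _, hs⟩, ?_, ?_, ?_⟩
  · intro x
    have := hk i x
    rw [Equiv.swap_apply_left, hi, hj] at this
    exact this
  · intro x
    have := hk j x
    rw [Equiv.swap_apply_right, hi, hj] at this
    exact this
  · intro c hca hcb x
    obtain ⟨k, z, hkz⟩ := covering hS (c ++ₛ x)
    rw [hkz, hk]
    have h1 : k ≠ i := by
      rintro rfl
      rw [hi] at hkz
      exact hca _ _ hkz
    have h2 : k ≠ j := by
      rintro rfl
      rw [hj] at hkz
      exact hcb _ _ hkz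
    rw [Equiv.swap_apply_of_ne_of_ne h1 h2]

/-- labels of a tree -/
def LT.labels : LT → List (List Bool)
  | .leaf w => [w]
  | .node l r => l.labels ++ r.labels

/-- relabelling -/
def LT.map (g : List Bool → List Bool) : LT → LT
  | .leaf w => .leaf (g w)
  | .node l r => .node (l.map g) (r.map g)

/-- size -/
def LT.size : LT → ℕ
  | .leaf _ => 0
  | .node l r => l.size + r.size + 1

lemma size_map (g : List Bool → List Bool) (t : LT) : (t.map g).size = t.size := by
  induction t with
  | leaf w => rfl
  | node l r ihl ihr => simp [LT.map, LT.size, ihl, ihr]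

lemma labels_map (g : List Bool → List Bool) (t : LT) :
    (t.map g).labels = t.labels.map g := by
  induction t with
  | leaf w => rfl
  | node l r ihl ihr => simp [LT.map, LT.labels, ihl, ihr]

lemma eval_map (g : List Bool → List Bool) (s : C → C) (t : LT)
    (h : ∀ w ∈ t.labels, ∀ x, s (w ++ₛ x) = g w ++ₛ x) (x : C) :
    (t.map g).eval x = s (t.eval x) := by
  induction t generalizing x with
  | leaf w =>
    rw [LT.map, eval_leaf, eval_leaf, h w (by simp [LT.labels])]
  | node l r ihl ihr =>
    obtain ⟨b, y, rfl⟩ := cases_stream x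
    cases b
    · rw [LT.map, eval_node_false, eval_node_false, ihl fun w hw => h w (by
        simp [LT.labels, hw])]
    · rw [LT.map, eval_node_true, eval_node_true, ihr fun w hw => h w (by
        simp [LT.labels, hw])]

lemma mem_range_of_label {t : LT} {w : List Bool} (h : w ∈ t.labels) (z : C) :
    ∃ x, t.eval x = w ++ₛ z := by
  induction t with
  | leaf w' =>
    rw [LT.labels, List.mem_singleton] at h
    subst h
    exact ⟨z, eval_leaf _ _⟩
  | node l r ihl ihr =>
    rw [LT.labels, List.mem_append] at h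
    rcases h with h | h
    · obtain ⟨x, hx⟩ := ihl h
      exact ⟨Stream'.cons false x, by rw [eval_node_false, hx]⟩
    · obtain ⟨x, hx⟩ := ihr h
      exact ⟨Stream'.cons true x, by rw [eval_node_true, hx]⟩

lemma label_of_eval (t : LT) (x : C) : ∃ w ∈ t.labels, ∃ z, t.eval x = w ++ₛ z := by
  induction t generalizing x with
  | leaf w' => exact ⟨w', by simp [LT.labels], x, eval_leaf _ _⟩
  | node l r ihl ihr =>
    obtain ⟨b, y, rfl⟩ := cases_stream x
    cases b
    · obtain ⟨w, hw, z, hz⟩ := ihl y
      exact ⟨w, by simp [LT.labels, hw], z, by rw [eval_node_false, hz]⟩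
    · obtain ⟨w, hw, z, hz⟩ := ihr y
      exact ⟨w, by simp [LT.labels, hw], z, by rw [eval_node_true, hz]⟩

lemma pairwise_of_injective (t : LT) (h : Function.Injective t.eval) :
    t.labels.Pairwise Incomp := by
  induction t with
  | leaf w => simp [LT.labels]
  | node l r ihl ihr =>
    rw [LT.labels, List.pairwise_append]
    refine ⟨ihl ?_, ihr ?_, ?_⟩
    · intro x y e
      have := @h (Stream'.cons false x) (Stream'.cons false y) (by simpa using e)
      exact Stream'.cons_injective_right _ this
    · intro x y e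
      have := @h (Stream'.cons true x) (Stream'.cons true y) (by simpa using e)
      exact Stream'.cons_injective_right _ this
    · intro w hw w' hw' x y e
      obtain ⟨x', hx'⟩ := mem_range_of_label hw x
      obtain ⟨y', hy'⟩ := mem_range_of_label hw' y
      have := @h (Stream'.cons false x') (Stream'.cons true y') (by
        rw [eval_node_false, eval_node_true, hx', hy', e])
      have := congrArg Stream'.head this
      simp at this

/-- `t` has a caret with labels `a`, `b`. -/
inductive Caret : LT → List Bool → List Bool → Prop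
  | base (a b : List Bool) : Caret (.node (.leaf a) (.leaf b)) a b
  | left {l r : LT} {a b : List Bool} : Caret l a b → Caret (.node l r) a b
  | right {l r : LT} {a b : List Bool} : Caret r a b → Caret (.node l r) a b

lemma exists_caret (t : LT) : (∃ w, t = .leaf w) ∨ ∃ a b, Caret t a b := by
  induction t with
  | leaf w => exact Or.inl ⟨w, rfl⟩
  | node l r ihl ihr =>
    right
    rcases ihl with ⟨a, rfl⟩ | ⟨a, b, h⟩
    · rcases ihr with ⟨b, rfl⟩ | ⟨a, b, h⟩
      · exact ⟨a, b, .base a b⟩
      · exact ⟨a, b, .right h⟩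
    · exact ⟨a, b, .left h⟩

lemma Caret.map {t : LT} {a b : List Bool} (h : Caret t a b) (g : List Bool → List Bool) :
    Caret (t.map g) (g a) (g b) := by
  induction h with
  | base a b => exact .base _ _
  | left _ ih => exact .left ih
  | right _ ih => exact .right ih

lemma Caret.mem {t : LT} {a b : List Bool} (h : Caret t a b) : a ∈ t.labels ∧ b ∈ t.labels := by
  induction h with
  | base a b => simp [LT.labels]
  | left _ ih => simp [LT.labels, ih.1, ih.2]
  | right _ ih => simp [LT.labels, ih.1, ih.2]

lemma Caret.incomp {t : LT} {a b : List Bool} (h : Caret t a b)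
    (hp : t.labels.Pairwise Incomp) : Incomp a b := by
  induction h with
  | base a b => simpa [LT.labels] using hp
  | left _ ih =>
    rw [LT.labels, List.pairwise_append] at hp
    exact ih hp.1
  | right _ ih =>
    rw [LT.labels, List.pairwise_append] at hp
    exact ih hp.2.1

lemma reduce_aux {t : LT} {a b : List Bool} (h : Caret t a b) (q : List Bool)
    (ha : a = q ++ [false]) (hb : b = q ++ [true]) :
    ∃ t' : LT, t'.size < t.size ∧ t'.eval = t.eval := by
  induction h with
  | base a b =>
    refine ⟨.leaf q, by simp [LT.size], ?_⟩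
    apply ext_cons
    intro c x
    subst ha hb
    cases c
    · rw [eval_node_false, eval_leaf, eval_leaf, Stream'.append_append_stream]; rfl
    · rw [eval_node_true, eval_leaf, eval_leaf, Stream'.append_append_stream]; rfl
  | @left l r a b _ ih =>
    obtain ⟨t', h1, h2⟩ := ih ha hb
    refine ⟨.node t' r, by simp only [LT.size]; omega, ?_⟩
    apply ext_cons
    intro c x
    cases c
    · rw [eval_node_false, eval_node_false, h2]
    · rw [eval_node_true, eval_node_true]
  | @right l r a b _ ih =>
    obtain ⟨t', h1, h2⟩ := ih ha hb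
    refine ⟨.node l t', by simp only [LT.size]; omega, ?_⟩
    apply ext_cons
    intro c x
    cases c
    · rw [eval_node_false, eval_node_false]
    · rw [eval_node_true, eval_node_true, h2]

lemma prefix_of_append {w w' : List Bool} {z z' : C} (h : w' ++ₛ z = w ++ₛ z')
    (hl : w'.length ≤ w.length) : ∃ v, w = w' ++ v := by
  induction w' generalizing w with
  | nil => exact ⟨w, rfl⟩
  | cons b w' ih =>
    cases w with
    | nil => simp at hl
    | cons a w =>
      rw [Stream'.cons_append_stream, Stream'.cons_append_stream] at h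
      have h1 := congrArg Stream'.head h
      have h2 := congrArg Stream'.tail h
      rw [Stream'.head_cons, Stream'.head_cons] at h1
      rw [Stream'.tail_cons, Stream'.tail_cons] at h2
      obtain ⟨v, hv⟩ := ih h2 (by simpa using hl)
      exact ⟨v, by rw [h1, hv]; rfl⟩

lemma siblings (L : List (List Bool)) (hL : ∀ w ∈ L, ∀ w' ∈ L, w = w' ∨ Incomp w w')
    (hcov : ∀ y : C, ∃ w ∈ L, ∃ z, y = w ++ₛ z) (a b : List Bool) (ha : a ∈ L) (hb : b ∈ L)
    (hab : a ≠ b) : ∃ q : List Bool, q ++ [false] ∈ L ∧ q ++ [true] ∈ L := by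
  obtain ⟨w, hw, hmax⟩ : ∃ w ∈ L, ∀ w' ∈ L, w'.length ≤ w.length := by
    have hne : (L.toFinset).Nonempty := ⟨a, by simpa using ha⟩
    obtain ⟨w, hw, h⟩ := Finset.exists_max_image L.toFinset List.length hne
    exact ⟨w, by simpa using hw, fun w' hw' => h w' (by simpa using hw')⟩
  have hwne : w ≠ [] := by
    rintro rfl
    have h1 := (hL _ hw _ ha).resolve_right (not_incomp_nil _)
    have h2 := (hL _ hw _ hb).resolve_right (not_incomp_nil _)
    exact hab (h1.symm.trans h2)
  obtain ⟨q, β, rfl⟩ : ∃ q β, w = q ++ [β] :=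
    ⟨w.dropLast, w.getLast hwne, (List.dropLast_append_getLast hwne).symm⟩
  have key : q ++ [!β] ∈ L := by
    obtain ⟨w', hw', z, hz⟩ := hcov ((q ++ [!β]) ++ₛ Stream'.const true)
    have hl : w'.length ≤ (q ++ [!β]).length := by
      have := hmax w' hw'
      simpa using this
    obtain ⟨v, hv⟩ := prefix_of_append hz.symm hl
    rcases List.eq_nil_or_concat v with rfl | ⟨v', c, rfl⟩
    · rw [List.append_nil] at hv
      rwa [hv]
    · exfalso
      have hq : q = w' ++ v' := by
        have : q ++ [!β] = (w' ++ v') ++ [c] := by rw [hv]; simp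
        exact (List.append_inj' this rfl).1
      rcases hL _ hw' _ hw with h | h
      · have := congrArg List.length h
        rw [hq] at this
        simp at this
      · rw [hq, List.append_assoc] at h
        exact not_incomp_append _ _ h
  cases β
  · exact ⟨q, hw, key⟩
  · exact ⟨q, key, hw⟩

lemma swap_in_H (L : List (List Bool)) (hL : ∀ w ∈ L, ∀ w' ∈ L, w = w' ∨ Incomp w w')
    (a b : List Bool) (ha : a ∈ L) (hb : b ∈ L) :
    ∃ s ∈ HS cU, ∀ w ∈ L, ∀ x, (s : U).1 (w ++ₛ x) = (Equiv.swap a b w) ++ₛ x := by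
  rcases hL a ha b hb with rfl | hab
  · refine ⟨1, one_mem _, ?_⟩
    intro w _ x
    rw [Equiv.swap_self]
    rfl
  · obtain ⟨s, hs, h1, h2, h3⟩ := exists_swap a b hab
    refine ⟨s, hs, ?_⟩
    intro w hw x
    by_cases hwa : w = a
    · subst hwa
      rw [Equiv.swap_apply_left]
      exact h1 x
    · by_cases hwb : w = b
      · subst hwb
        rw [Equiv.swap_apply_right]
        exact h2 x
      · rw [Equiv.swap_apply_of_ne_of_ne hwa hwb]
        exact h3 w ((hL w hw a ha).resolve_left hwa) ((hL w hw b hb).resolve_left hwb) x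

lemma unit_bijective (u : Uˣ) : Function.Bijective (u : U).1 := by
  constructor
  · intro x y h
    have h1 : ∀ z, ((u⁻¹ : Uˣ) : U).1 ((u : U).1 z) = z := by
      intro z
      rw [← mul_val, Units.mul_inv, one_val]
    rw [← h1 x, h, h1]
  · intro y
    refine ⟨((u⁻¹ : Uˣ) : U).1 y, ?_⟩
    rw [← mul_val, Units.inv_mul, one_val]

theorem unit_mem (n : ℕ) : ∀ (t : LT) (u : Uˣ), t.size ≤ n → t.eval = (u : U).1 →
    u ∈ HS cU := by
  induction n with
  | zero =>
    intro t u ht hu
    have hbij := unit_bijective u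
    rw [← hu] at hbij
    cases t with
    | node l r => simp [LT.size] at ht
    | leaf w =>
      cases w with
      | nil =>
        have : u = 1 := by
          apply Units.ext
          apply U.ext
          intro x
          rw [← hu]
          simp
        rw [this]
        exact one_mem _
      | cons b w =>
        exfalso
        obtain ⟨x, hx⟩ := hbij.2 (Stream'.const (!b))
        rw [eval_leaf, Stream'.cons_append_stream] at hx
        have := congrArg Stream'.head hx
        rw [Stream'.head_cons] at this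
        cases b <;> simp [Stream'.head, Stream'.get, Stream'.const] at this
  | succ n ih =>
    intro t u ht hu
    have hbij := unit_bijective u
    rw [← hu] at hbij
    rcases exists_caret t with ⟨w, rfl⟩ | ⟨a, b, hc⟩
    · exact ih (.leaf w) u (by simp [LT.size]) hu
    · have hpw := pairwise_of_injective t hbij.1
      have hab := hc.incomp hpw
      have hne : a ≠ b := by
        rintro rfl
        exact not_incomp_self _ hab
      have hL : ∀ w ∈ t.labels, ∀ w' ∈ t.labels, w = w' ∨ Incomp w w' := by
        intro w hw w' hw'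
        by_cases e : w = w'
        · exact Or.inl e
        · have : Std.Symm Incomp := ⟨fun _ _ h => h.symm⟩
          exact Or.inr (hpw.forall hw hw' e)
      have hcov : ∀ y : C, ∃ w ∈ t.labels, ∃ z, y = w ++ₛ z := by
        intro y
        obtain ⟨x, rfl⟩ := hbij.2 y
        exact label_of_eval t x
      obtain ⟨q, hq0, hq1⟩ := siblings _ hL hcov a b hc.mem.1 hc.mem.2 hne
      have hq : q ++ [false] ≠ q ++ [true] := by simp
      have swap_mem : ∀ a' b' w : List Bool, a' ∈ t.labels → b' ∈ t.labels → w ∈ t.labels →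
          Equiv.swap a' b' w ∈ t.labels := by
        intro a' b' w ha' hb' hw
        rw [Equiv.swap_apply_def]
        split_ifs <;> assumption
      obtain ⟨s1, hs1, h1⟩ := swap_in_H _ hL a (q ++ [false]) hc.mem.1 hq0
      set g1 := Equiv.swap a (q ++ [false]) with hg1
      have hb1 : g1 b ∈ t.labels := swap_mem _ _ _ hc.mem.1 hq0 hc.mem.2
      obtain ⟨s2, hs2, h2⟩ := swap_in_H _ hL (g1 b) (q ++ [true]) hb1 hq1
      set g2 := Equiv.swap (g1 b) (q ++ [true]) with hg2
      have hc2 := (hc.map g1).map g2
      have e1 : g2 (g1 b) = q ++ [true] := Equiv.swap_apply_left _ _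
      have e0 : g2 (g1 a) = q ++ [false] := by
        have : g1 a = q ++ [false] := Equiv.swap_apply_left _ _
        rw [this]
        apply Equiv.swap_apply_of_ne_of_ne
        · rw [← this]
          exact fun e => hne (g1.injective e)
        · exact hq
      obtain ⟨t', ht', he⟩ := reduce_aux hc2 q e0 e1
      rw [size_map, size_map] at ht'
      have hmem := ih t' (u * s1 * s2) (by omega) (by
        rw [he]
        funext x
        rw [eval_map g2 (s2 : U).1 _ (by
          intro w hw
          rw [labels_map, List.mem_map] at hw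
          obtain ⟨w', hw', rfl⟩ := hw
          exact h2 _ (swap_mem _ _ _ hc.mem.1 hq0 hw')), eval_map g1 (s1 : U).1 _ h1, hu]
        rfl)
      have := mul_mem (mul_mem hmem (inv_mem hs2)) (inv_mem hs1)
      simpa using this

theorem HS_top : HS cU = ⊤ := by
  rw [eq_top_iff]
  rintro u -
  obtain ⟨t, ht⟩ := (u : U).2
  exact unit_mem t.size t u le_rfl ht

section transport
variable {M N : Type*} [Monoid M] [Monoid N] (e : M ≃* N)

lemma map_comb {s : ℕ} (Ψ : CPStr M s) {d : Fin s → ℕ} (Φ : ∀ i, CPStr M (d i)) :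
    (Ψ.comb Φ).map e = (Ψ.map e).comb fun i => (Φ i).map e := by
  apply CPStr.ext
  · funext m
    simp [CPStr.map, CPStr.comb]
  · funext m
    simp [CPStr.map, CPStr.comb]

lemma map_one_str : (CPStr.one M).map e = CPStr.one N := by
  apply CPStr.ext
  · funext m
    simp [CPStr.map, CPStr.one]
  · funext m
    simp [CPStr.map, CPStr.one]

lemma map_InS (c : CPStr M 2) {d : ℕ} {S : CPStr M d} (h : InS c d S) :
    InS (c.map e) d (S.map e) := by
  induction h with
  | base => exact .base
  | one => rw [map_one_str]; exact .one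
  | comb Ψ d Φ _ _ ih1 ih2 => rw [map_comb]; exact .comb _ _ _ ih1 ih2

lemma psi_map {d : ℕ} (S : CPStr M d) (σ : Equiv.Perm (Fin d)) :
    psi (S.map e) σ = e (psi S σ) := by
  simp [psi, CPStr.map]

lemma HS_map (c : CPStr M 2) (h : HS c = ⊤) : HS (c.map e) = ⊤ := by
  rw [eq_top_iff]
  rintro u -
  have h1 : (Units.mapEquiv e).symm u ∈ HS c := h ▸ Subgroup.mem_top _
  have h2 : (Units.mapEquiv e).toMonoidHom ((Units.mapEquiv e).symm u) ∈
      (HS c).map (Units.mapEquiv e).toMonoidHom := Subgroup.mem_map_of_mem _ h1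
  have h3 : (Units.mapEquiv e).toMonoidHom ((Units.mapEquiv e).symm u) = u :=
    (Units.mapEquiv e).apply_symm_apply u
  rw [h3, HS, MonoidHom.map_closure] at h2
  refine Subgroup.closure_mono ?_ h2
  rintro _ ⟨v, ⟨d, S, hd, hS, σ, hv⟩, rfl⟩
  refine ⟨d, S.map e, hd, map_InS e c hS, σ, ?_⟩
  rw [psi_map, ← hv]
  rfl

end transport

theorem exists_iso.{u} {V : Type u} [Monoid V] (c : CPStr V 2) (hc : IsUniversal.{u, u} c) :
    ∃ e : U ≃* V, cU.map e = c := by
  obtain ⟨g, hg, -⟩ := universal_cU V c
  let eu : ULift.{u} U ≃* U := MulEquiv.ulift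
  obtain ⟨f, hf, -⟩ := hc (ULift.{u} U) (cU.map eu.symm)
  let f' : V →* U := eu.toMonoidHom.comp f
  have hf' : IsCPHom c cU f' := by
    constructor
    · intro i
      change eu (f (c.τ i)) = _
      rw [hf.1]
      exact eu.apply_symm_apply _
    · intro m
      change eu (f (c.Φ m)) = _
      rw [hf.2]
      exact eu.apply_symm_apply _
  have h1 : g.comp f' = MonoidHom.id V := by
    obtain ⟨k, -, hk⟩ := hc V c
    rw [hk (g.comp f') ⟨fun i => by simp [hf'.1, hg.1], fun m => by simp [hf'.2, hg.2]⟩,
      hk (MonoidHom.id V) ⟨fun i => rfl, fun m => rfl⟩]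
  have h2 : f'.comp g = MonoidHom.id U := by
    obtain ⟨k, -, hk⟩ := universal_cU U cU
    rw [hk (f'.comp g) ⟨fun i => by simp [hf'.1, hg.1], fun m => by simp [hf'.2, hg.2]⟩,
      hk (MonoidHom.id U) ⟨fun i => rfl, fun m => rfl⟩]
  let e : U ≃* V := MonoidHom.toMulEquiv g f' h2 h1
  refine ⟨e, ?_⟩
  apply CPStr.ext
  · funext m
    change g (cU.Φ fun i => e.symm (m i)) = _
    rw [hg.2]
    congr 1
    funext i
    exact e.apply_symm_apply _
  · funext i
    exact hg.1 i

end Q15CP
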