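import Pool.Agent.Q15.FM2D
import Pool.Agent.W134.FM.Cyclo
import Pool.Agent.W215.FM.Gen

/-! Characters of order two of the absolute Galois group of `ℚ`. -/

set_option autoImplicit false
set_option linter.unusedSectionVars false

namespace Pool.Agent.Q15.FM2E

open NumberField Matrix IsLocalRing Pool.Agent.W569.FM Pool.Agent.W569.UF Pool.Agent.W571.FM
  Pool.Agent.TH831.OE Pool.Agent.Q15.FMNT Pool.Agent.Q15.FMScal Pool.Agent.Q15.FMRankB
  Pool.Agent.Q15.FMMain Pool.Agent.Q15.FM2A Pool.Agent.Q15.FM2B Pool.Agent.Q15.FM2C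
  Pool.Agent.Q15.FM2D

theorem absNorm_cm {l : ℕ} (hl : l.Prime) {P : Ideal (OO ℚ)} (hP : P.IsMaximal)
    (h : (l : OO ℚ) ∈ P) : Ideal.absNorm (cm P) = l := by
  rw [cm_eq hl hP h, absNorm_pl]

theorem prime_unique {l j : ℕ} (hl : l.Prime) (hj : j.Prime) {P : Ideal (OO ℚ)}
    (hP : P.IsMaximal) (h : (l : OO ℚ) ∈ P) (h' : (j : OO ℚ) ∈ P) : l = j := by
  rw [← absNorm_cm hl hP h, ← absNorm_cm hj hP h']

theorem zmod2 : ∀ b : ZMod 2, b ≠ 0 → b = 1 := by decide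

theorem sq_one {R : Type} [Ring R] [CharP R 2] (a : Multiplicative R) : a ^ 2 = 1 := by
  apply Multiplicative.toAdd.injective
  rw [toAdd_pow, two_nsmul, CharTwo.add_self_eq_zero, toAdd_one]

/-- the characters -/
structure Data (κ : Type) [Field κ] (n : ℕ) (l : Fin n → ℕ) : Type where
  P : Fin n → Ideal (OO ℚ)
  τ : Fin n → GF ℚ
  σ : Fin n → GF ℚ
  ψ : Fin n → GF ℚ →* Multiplicative κ
  max : ∀ i, (P i).IsMaximal
  mem : ∀ i, (l i : OO ℚ) ∈ P i
  hτ : ∀ i, InInertia (P i) (τ i)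
  hσ : ∀ i, FrobAt (l i) (P i) (σ i)
  sq : ∀ i j, i ≠ j → Multiplicative.toAdd (ψ i (σ j)) =
    if (l j : ZMod (l i)) ^ ((l i - 1) / 2) = 1 then 0 else 1
  span : ∀ x : GF ℚ →* Multiplicative κ, IsOpen (x.ker : Set (GF ℚ)) →
    (∀ P : Ideal (OO ℚ), P.IsMaximal → (∀ i, (l i : OO ℚ) ∉ P) → ∀ τ, InInertia P τ → x τ = 1) →
    ∀ g, Multiplicative.toAdd (x g) =
      ∑ i, Multiplicative.toAdd (x (τ i)) * Multiplicative.toAdd (ψ i g)

theorem exists_data (κ : Type) [Field κ] [Finite κ] [CharP κ 2] {n : ℕ} (l : Fin n → ℕ)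
    (hl : ∀ i, (l i).Prime) (h2 : ∀ i, l i ≠ 2) (hinj : Function.Injective l) :
    Nonempty (Data κ n l) := by
  classical
  have hp2 : (2 : ℕ).Prime := Nat.prime_two
  have : Fact (Nat.Prime 2) := ⟨hp2⟩
  have hcyc : ∀ i, ∃ ψ : GF ℚ →* Multiplicative (ZMod 2), IsOpen (ψ.ker : Set (GF ℚ)) ∧
      (∀ P : Ideal (OO ℚ), P.IsMaximal → (l i : OO ℚ) ∉ P → ∀ τ : GF ℚ, InInertia P τ → ψ τ = 1) ∧
      (∃ g, ψ g ≠ 1) ∧
      ∀ q : ℕ, q.Prime → q ≠ l i → ∀ P : Ideal (OO ℚ), P.IsMaximal → (q : OO ℚ) ∈ P →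
        ∀ σ : GF ℚ, FrobAt q P σ → (ψ σ = 1 ↔ (q : ZMod (l i)) ^ ((l i - 1) / 2) = 1) := by
    intro i
    refine Pool.Agent.W134.FM.main 2 (l i) hp2 (hl i) ?_
    obtain ⟨m, hm⟩ := (hl i).odd_of_ne_two (h2 i)
    exact ⟨m, by omega⟩
  choose ψ₀ hψo hψu hψn hψq using hcyc
  have hram : ∀ i, ∃ P : Ideal (OO ℚ), P.IsMaximal ∧ (l i : OO ℚ) ∈ P ∧ ∃ τ : GF ℚ,
      InInertia P τ ∧ ψ₀ i τ ≠ 1 := by
    intro i
    by_contra hcon
    push Not at hcon
    obtain ⟨g, hg⟩ := hψn i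
    apply hg
    refine Pool.Agent.W215.FM.main _ (ψ₀ i) (hψo i) (fun P hP τ hτ => ?_) g
    by_cases h : (l i : OO ℚ) ∈ P
    · exact hcon P hP h τ hτ
    · exact hψu i P hP h τ hτ
  choose P hP hlP τ hτ hψτ using hram
  have hfrob : ∀ i, ∃ σ : GF ℚ, FrobAt (l i) (P i) σ := by
    intro i
    obtain ⟨σ, hσ⟩ := exists_frobAt (hP i) (cm_ne_bot (hP i))
    rw [absNorm_cm (hl i) (hP i) (hlP i)] at hσ
    exact ⟨σ, hσ⟩
  choose σ hσ using hfrob
  let ι : ZMod 2 →+* κ := ZMod.castHom (dvd_refl 2) κ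
  have hval : ∀ a : Multiplicative (ZMod 2), ι (Multiplicative.toAdd a) = if a = 1 then 0 else 1 := by
    intro a
    by_cases h : a = 1
    · rw [if_pos h, h, toAdd_one, map_zero]
    · rw [if_neg h]
      have h4 : Multiplicative.toAdd a ≠ 0 := fun h' => h (Multiplicative.toAdd.injective
        (h'.trans toAdd_one.symm))
      rw [zmod2 _ h4, map_one]
  let ψ : Fin n → GF ℚ →* Multiplicative κ := fun i =>
    (AddMonoidHom.toMultiplicative ι.toAddMonoidHom).comp (ψ₀ i)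
  have hψ : ∀ i g, Multiplicative.toAdd (ψ i g) = ι (Multiplicative.toAdd (ψ₀ i g)) :=
    fun i g => rfl
  have hψ1 : ∀ i g, ψ₀ i g = 1 → ψ i g = 1 := by
    intro i g h
    apply Multiplicative.toAdd.injective
    rw [hψ, h, toAdd_one, toAdd_one, map_zero]
  refine ⟨⟨P, τ, σ, ψ, hP, hlP, hτ, hσ, ?_, ?_⟩⟩
  · intro i j hij
    rw [hψ, hval]
    have h3 := hψq i (l j) (hl j) (fun h => hij (hinj h).symm) (P j) (hP j) (hlP j) (σ j) (hσ j)
    by_cases h4 : ψ₀ i (σ j) = 1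
    · rw [if_pos h4, if_pos (h3.1 h4)]
    · rw [if_neg h4, if_neg (fun h => h4 (h3.2 h))]
  · intro x hxo hxu
    -- on the inertia groups
    have hloc : ∀ i, ∀ τ', InInertia (P i) τ' → Multiplicative.toAdd (x τ') =
        Multiplicative.toAdd (x (τ i)) * Multiplicative.toAdd (ψ i τ') := by
      intro i
      let f : GF ℚ →* Multiplicative κ × Multiplicative (ZMod 2) := x.prod (ψ₀ i)
      have hE : IsPGroup 2 (Multiplicative κ × Multiplicative (ZMod 2)) := by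
        intro y
        refine ⟨1, ?_⟩
        rw [pow_one]
        exact Prod.ext (sq_one y.1) (sq_one y.2)
      have hfo : IsOpen (f.ker : Set (GF ℚ)) := by
        have h3 : (f.ker : Set (GF ℚ)) = (x.ker : Set (GF ℚ)) ∩ ((ψ₀ i).ker : Set (GF ℚ)) := by
          ext g
          show (x g, ψ₀ i g) = 1 ↔ _
          rw [Prod.mk_eq_one]
          rfl
        rw [h3]
        exact hxo.inter (hψo i)
      obtain ⟨τ₀, -, hτ₀⟩ := tame_gen hE f hfo (hP i) (fun h => h2 i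
        (prime_unique (hl i) hp2 (hP i) (hlP i) (by exact_mod_cast h)))
      have hmul : ∀ τ', InInertia (P i) τ' → ∃ m : ℤ,
          Multiplicative.toAdd (x τ') = (m : κ) * Multiplicative.toAdd (x τ₀) ∧
          Multiplicative.toAdd (ψ₀ i τ') = (m : ZMod 2) * Multiplicative.toAdd (ψ₀ i τ₀) := by
        intro τ' hτ'
        obtain ⟨m, hm⟩ := Subgroup.mem_zpowers_iff.1 (hτ₀ τ' hτ')
        have h3 : x τ₀ ^ m = x τ' := congrArg Prod.fst hm
        have h4 : ψ₀ i τ₀ ^ m = ψ₀ i τ' := congrArg Prod.snd hm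
        refine ⟨m, ?_, ?_⟩
        · rw [← h3, toAdd_zpow, zsmul_eq_mul]
        · rw [← h4, toAdd_zpow, zsmul_eq_mul]
      obtain ⟨m₀, h3, h4⟩ := hmul (τ i) (hτ i)
      have hne : Multiplicative.toAdd (ψ₀ i (τ i)) ≠ 0 := fun h => hψτ i
        (Multiplicative.toAdd.injective (h.trans toAdd_one.symm))
      have h5 : (m₀ : ZMod 2) = 1 := zmod2 _ (fun h => hne (by rw [h4, h, zero_mul]))
      have h6 : Multiplicative.toAdd (ψ₀ i τ₀) = 1 := zmod2 _ (fun h => hne (by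
        rw [h4, h, mul_zero]))
      have hcast : ∀ m : ℤ, ι (m : ZMod 2) = (m : κ) := fun m => map_intCast ι m
      intro τ' hτ'
      obtain ⟨m, h7, h8⟩ := hmul τ' hτ'
      rw [h7, h3, hψ, h8, h6, mul_one, hcast, ← hcast m₀, h5, map_one, one_mul, mul_comm]
    -- at the other primes above `l i`
    have hloc' : ∀ i, ∀ Q : Ideal (OO ℚ), Q.IsMaximal → (l i : OO ℚ) ∈ Q → ∀ τ', InInertia Q τ' →
        Multiplicative.toAdd (x τ') =
          Multiplicative.toAdd (x (τ i)) * Multiplicative.toAdd (ψ i τ') := by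
      intro i Q hQ hlQ τ' hτ'
      obtain ⟨g, hg⟩ := exists_smul (K := ℚ) Q (P i) hQ.isPrime (hP i).isPrime
        ((cm_eq (hl i) hQ hlQ).trans (cm_eq (hl i) (hP i) (hlP i)).symm)
      have h3 : InInertia (P i) (g * τ' * g⁻¹) := by
        intro z
        rw [hg, smul_sub, smul_smul]
        have h5 : g⁻¹ * (g * τ' * g⁻¹) = τ' * g⁻¹ := by group
        rw [h5, ← smul_smul]
        exact hτ' _
      have h4 := hloc i _ h3
      have h5 : ∀ f : GF ℚ →* Multiplicative κ, f (g * τ' * g⁻¹) = f τ' := by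
        intro f
        rw [map_mul, map_mul, map_inv, mul_comm (f g), mul_inv_cancel_right]
      rwa [h5, h5] at h4
    -- the difference
    let F : GF ℚ →* Multiplicative κ :=
      { toFun := fun g => Multiplicative.ofAdd (Multiplicative.toAdd (x g) -
          ∑ i, Multiplicative.toAdd (x (τ i)) * Multiplicative.toAdd (ψ i g))
        map_one' := by simp
        map_mul' := fun g h => by
          rw [← ofAdd_add]
          congr 1
          simp only [map_mul, toAdd_mul, mul_add, Finset.sum_add_distrib]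
          ring }
    have hF : ∀ g, Multiplicative.toAdd (F g) = Multiplicative.toAdd (x g) -
        ∑ i, Multiplicative.toAdd (x (τ i)) * Multiplicative.toAdd (ψ i g) := fun g => rfl
    have hFo : IsOpen (F.ker : Set (GF ℚ)) := by
      have h3 : IsOpen ((x.ker ⊓ ⨅ i, (ψ₀ i).ker : Subgroup (GF ℚ)) : Set (GF ℚ)) := by
        rw [Subgroup.coe_inf, Subgroup.coe_iInf]
        exact hxo.inter (isOpen_iInter_of_finite hψo)
      refine Subgroup.isOpen_mono ?_ h3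
      rintro g ⟨hg1, hg2⟩
      apply Multiplicative.toAdd.injective
      have h4 : x g = 1 := hg1
      have h5 : ∀ i, ψ i g = 1 := fun i => hψ1 i g ((Subgroup.mem_iInf.1 hg2) i)
      rw [hF, h4, toAdd_one, zero_sub, neg_eq_zero]
      apply Finset.sum_eq_zero
      intro i _
      rw [h5, toAdd_one, mul_zero]
    intro g
    have h3 := Pool.Agent.W215.FM.main _ F hFo (fun Q hQ τ' hτ' => ?_) g
    · have h4 := congrArg Multiplicative.toAdd h3
      rw [hF, toAdd_one] at h4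
      exact sub_eq_zero.1 h4
    · apply Multiplicative.toAdd.injective
      rw [hF, toAdd_one, sub_eq_zero]
      by_cases h : ∃ i, (l i : OO ℚ) ∈ Q
      · obtain ⟨i, hi⟩ := h
        rw [Finset.sum_eq_single i, hloc' i Q hQ hi τ' hτ']
        · intro j _ hji
          have h4 : (l j : OO ℚ) ∉ Q := fun h => hji (hinj (prime_unique (hl j) (hl i) hQ h hi))
          rw [hψ1 j τ' (hψu j Q hQ h4 τ' hτ'), toAdd_one, mul_zero]
        · intro h
          exact absurd (Finset.mem_univ i) h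
      · push Not at h
        rw [hxu Q hQ h τ' hτ', toAdd_one, eq_comm]
        apply Finset.sum_eq_zero
        intro j _
        rw [hψ1 j τ' (hψu j Q hQ (h j) τ' hτ'), toAdd_one, mul_zero]

/-- four primes with a special pattern of quadratic residues -/
structure Quad (l : Fin 4 → ℕ) : Prop where
  prime : ∀ i, (l i).Prime
  inj : Function.Injective l
  zero : l 0 % 4 = 1
  three : ∀ i, i ≠ 0 → l i % 4 = 3
  link : ∀ i, i ≠ 0 → ¬ IsSquare ((l 0 : ℕ) : ZMod (l i))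
  cyc : IsSquare ((l 2 : ℕ) : ZMod (l 1)) ∧ IsSquare ((l 3 : ℕ) : ZMod (l 2)) ∧
    IsSquare ((l 1 : ℕ) : ZMod (l 3))

/-- the primes of `ℚ` which divide one of the numbers `l i` -/
def SQ (l : Fin 4 → ℕ) : Set (Ideal (𝓞 ℚ)) := {v | ∃ i, (l i : 𝓞 ℚ) ∈ v}

/-- the residue symbols -/
theorem euler {l j : ℕ} (hl : l.Prime) (hl2 : l ≠ 2) (hj : j.Prime) (hlj : j ≠ l) :
    (j : ZMod l) ^ ((l - 1) / 2) = 1 ↔ IsSquare ((j : ℕ) : ZMod l) := by
  have : Fact l.Prime := ⟨hl⟩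
  have h1 : (j : ZMod l) ≠ 0 := by
    rw [Ne, ZMod.natCast_eq_zero_iff]
    intro h
    exact hlj ((Nat.prime_dvd_prime_iff_eq hl hj).1 h).symm
  rw [ZMod.euler_criterion l h1]
  have h2 : (l - 1) / 2 = l / 2 := by
    have := hl.odd_of_ne_two hl2
    obtain ⟨m, hm⟩ := this
    omega
  rw [h2]

/-- four numbers -/
theorem four {κ : Type} [Field κ] (x y : Fin 4 → κ)
    (hx0 : x 0 ≠ 0 → y 0 = 0 ∧ y 1 + y 2 + y 3 = 0) (hx1 : x 1 ≠ 0 → y 1 = 0 ∧ y 0 + y 2 = 0)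
    (hx2 : x 2 ≠ 0 → y 2 = 0 ∧ y 0 + y 3 = 0) (hx3 : x 3 ≠ 0 → y 3 = 0 ∧ y 0 + y 1 = 0)
    (hy0 : y 0 ≠ 0 → x 0 = 0 ∧ x 1 + x 2 + x 3 = 0) (hy1 : y 1 ≠ 0 → x 1 = 0 ∧ x 0 + x 2 = 0)
    (hy2 : y 2 ≠ 0 → x 2 = 0 ∧ x 0 + x 3 = 0) (hy3 : y 3 ≠ 0 → x 3 = 0 ∧ x 0 + x 1 = 0) :
    (∀ i, x i = 0) ∨ ∀ i, y i = 0 := by
  -- the case `x 0 ≠ 0`
  have main : ∀ x y : Fin 4 → κ,
      (x 0 ≠ 0 → y 0 = 0 ∧ y 1 + y 2 + y 3 = 0) → (y 1 ≠ 0 → x 1 = 0 ∧ x 0 + x 2 = 0) →
      (y 2 ≠ 0 → x 2 = 0 ∧ x 0 + x 3 = 0) → (y 3 ≠ 0 → x 3 = 0 ∧ x 0 + x 1 = 0) →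
      (x 1 ≠ 0 → y 1 = 0) → (x 2 ≠ 0 → y 2 = 0) → (x 3 ≠ 0 → y 3 = 0) →
      x 0 ≠ 0 → ∀ i, y i = 0 := by
    intro x y h0 h1 h2 h3 h4 h5 h6 hx
    obtain ⟨e0, e1⟩ := h0 hx
    have k1 : y 1 ≠ 0 → y 2 = 0 := fun h => h5 (fun h' => hx (by
      have := (h1 h).2
      rwa [h', add_zero] at this))
    have k2 : y 2 ≠ 0 → y 3 = 0 := fun h => h6 (fun h' => hx (by
      have := (h2 h).2
      rwa [h', add_zero] at this))
    have k3 : y 3 ≠ 0 → y 1 = 0 := fun h => h4 (fun h' => hx (by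
      have := (h3 h).2
      rwa [h', add_zero] at this))
    have r1 : y 1 = 0 := by
      by_contra h
      have h7 := k1 h
      have h8 : y 3 = 0 := by
        by_contra h9
        exact h (k3 h9)
      rw [h7, h8, add_zero, add_zero] at e1
      exact h e1
    have r2 : y 2 = 0 := by
      by_contra h
      have h7 := k2 h
      rw [r1, h7, zero_add, add_zero] at e1
      exact h e1
    have r3 : y 3 = 0 := by
      rw [r1, r2, zero_add, zero_add] at e1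
      exact e1
    intro i
    fin_cases i
    · exact e0
    · exact r1
    · exact r2
    · exact r3
  by_cases h0 : x 0 = 0
  swap
  · exact Or.inr (main x y hx0 hy1 hy2 hy3 (fun h => (hx1 h).1) (fun h => (hx2 h).1)
      (fun h => (hx3 h).1) h0)
  by_cases h0' : y 0 = 0
  swap
  · exact Or.inl (main y x hy0 hx1 hx2 hx3 (fun h => (hy1 h).1) (fun h => (hy2 h).1)
      (fun h => (hy3 h).1) h0')
  rw [h0, zero_add] at hy1 hy2 hy3
  rw [h0', zero_add] at hx1 hx2 hx3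
  by_cases h1 : x 1 = 0
  swap
  · right
    obtain ⟨e1, e2⟩ := hx1 h1
    have e3 : y 3 = 0 := by
      by_contra h
      exact h1 (hy3 h).2
    intro i
    fin_cases i
    · exact h0'
    · exact e1
    · exact e2
    · exact e3
  by_cases h2 : x 2 = 0
  swap
  · right
    obtain ⟨e1, e2⟩ := hx2 h2
    have e3 : y 1 = 0 := by
      by_contra h
      exact h2 (hy1 h).2
    intro i
    fin_cases i
    · exact h0'
    · exact e3
    · exact e1
    · exact e2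
  by_cases h3 : x 3 = 0
  swap
  · right
    obtain ⟨e1, e2⟩ := hx3 h3
    have e3 : y 2 = 0 := by
      by_contra h
      exact h3 (hy2 h).2
    intro i
    fin_cases i
    · exact h0'
    · exact e2
    · exact e3
    · exact e1
  left
  intro i
  fin_cases i
  · exact h0
  · exact h1
  · exact h2
  · exact h3

theorem Quad.ne_two {l : Fin 4 → ℕ} (h : Quad l) (i : Fin 4) : l i ≠ 2 := by
  intro e
  by_cases hi : i = 0
  · subst hi
    have := h.zero
    omega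
  · have := h.three i hi
    omega

section

variable {κ : Type} [Field κ] {l : Fin 4 → ℕ}

theorem sym_one (h : Quad l) (D : Data κ 4 l) {i j : Fin 4} (hij : i ≠ j)
    (hs : ¬ IsSquare ((l j : ℕ) : ZMod (l i))) : Multiplicative.toAdd (D.ψ i (D.σ j)) = 1 := by
  rw [D.sq i j hij, if_neg]
  rw [euler (h.prime i) (h.ne_two i) (h.prime j) (fun e => hij (h.inj e).symm)]
  exact hs

theorem sym_zero (h : Quad l) (D : Data κ 4 l) {i j : Fin 4} (hij : i ≠ j)
    (hs : IsSquare ((l j : ℕ) : ZMod (l i))) : Multiplicative.toAdd (D.ψ i (D.σ j)) = 0 := by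
  rw [D.sq i j hij, if_pos]
  rw [euler (h.prime i) (h.ne_two i) (h.prime j) (fun e => hij (h.inj e).symm)]
  exact hs

theorem recip33 (h : Quad l) {i j : Fin 4} (hi : i ≠ 0) (hj : j ≠ 0) (hij : i ≠ j)
    (hs : IsSquare ((l j : ℕ) : ZMod (l i))) : ¬ IsSquare ((l i : ℕ) : ZMod (l j)) := by
  have h1 : Fact (l i).Prime := ⟨h.prime i⟩
  have h2 : Fact (l j).Prime := ⟨h.prime j⟩
  exact (ZMod.exists_sq_eq_prime_iff_of_mod_four_eq_three (h.three i hi) (h.three j hj)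
    (fun e => hij (h.inj e))).1 hs

theorem recip1 (h : Quad l) {i : Fin 4} (hi : i ≠ 0) : ¬ IsSquare ((l i : ℕ) : ZMod (l 0)) := by
  have h1 : Fact (l i).Prime := ⟨h.prime i⟩
  have h2 : Fact (l 0).Prime := ⟨h.prime 0⟩
  intro hs
  exact h.link i hi
    ((ZMod.exists_sq_eq_prime_iff_of_mod_four_eq_one h.zero (h.ne_two i)).1 hs)

/-- the values at the Frobenius elements -/
theorem values (h : Quad l) (D : Data κ 4 l) (y : GF ℚ →* Multiplicative κ)
    (hy : ∀ g, Multiplicative.toAdd (y g) =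
      ∑ i, Multiplicative.toAdd (y (D.τ i)) * Multiplicative.toAdd (D.ψ i g)) (i : Fin 4)
    (h1 : y (D.τ i) = 1) (h2 : y (D.σ i) = 1) :
    (i = 0 → Multiplicative.toAdd (y (D.τ 1)) + Multiplicative.toAdd (y (D.τ 2)) +
      Multiplicative.toAdd (y (D.τ 3)) = 0) ∧
    (i = 1 → Multiplicative.toAdd (y (D.τ 0)) + Multiplicative.toAdd (y (D.τ 2)) = 0) ∧
    (i = 2 → Multiplicative.toAdd (y (D.τ 0)) + Multiplicative.toAdd (y (D.τ 3)) = 0) ∧
    (i = 3 → Multiplicative.toAdd (y (D.τ 0)) + Multiplicative.toAdd (y (D.τ 1)) = 0) := by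
  have h3 := hy (D.σ i)
  rw [h2, toAdd_one, Fin.sum_univ_four] at h3
  obtain ⟨c1, c2, c3⟩ := h.cyc
  refine ⟨?_, ?_, ?_, ?_⟩
  · rintro rfl
    rw [h1, toAdd_one, sym_one h D (by decide) (h.link 1 (by decide)),
      sym_one h D (by decide) (h.link 2 (by decide)),
      sym_one h D (by decide) (h.link 3 (by decide))] at h3
    linear_combination -h3
  · rintro rfl
    rw [h1, toAdd_one, sym_one h D (by decide) (recip1 h (by decide)),
      sym_one h D (by decide) (recip33 h (by decide) (by decide) (by decide) c1),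
      sym_zero h D (by decide) c3] at h3
    linear_combination -h3
  · rintro rfl
    rw [h1, toAdd_one, sym_one h D (by decide) (recip1 h (by decide)),
      sym_one h D (by decide) (recip33 h (by decide) (by decide) (by decide) c2),
      sym_zero h D (by decide) c1] at h3
    linear_combination -h3
  · rintro rfl
    rw [h1, toAdd_one, sym_one h D (by decide) (recip1 h (by decide)),
      sym_one h D (by decide) (recip33 h (by decide) (by decide) (by decide) c3),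
      sym_zero h D (by decide) c2] at h3
    linear_combination -h3

theorem mem_SQ {P : Ideal (OO ℚ)} : cm P ∈ SQ l ↔ ∃ i, (l i : OO ℚ) ∈ P := by
  constructor
  · rintro ⟨i, hi⟩
    exact ⟨i, natCast_mem_cm.1 hi⟩
  · rintro ⟨i, hi⟩
    exact ⟨i, natCast_mem_cm.2 hi⟩

theorem triv (D : Data κ 4 l) (y : GF ℚ →* Multiplicative κ)
    (hy : ∀ g, Multiplicative.toAdd (y g) =
      ∑ i, Multiplicative.toAdd (y (D.τ i)) * Multiplicative.toAdd (D.ψ i g))
    (h : ∀ i, Multiplicative.toAdd (y (D.τ i)) = 0) (g : GF ℚ) : y g = 1 := by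
  apply Multiplicative.toAdd.injective
  rw [hy, toAdd_one]
  apply Finset.sum_eq_zero
  intro i _
  rw [h, zero_mul]

theorem np [Finite κ] [CharP κ 2] (h : Quad l) : NP κ (UrS (SQ l)) (TS (SQ l)) := by
  obtain ⟨D⟩ := exists_data κ l h.prime h.ne_two h.inj
  intro x y hx hy h1 h2
  have hT : ∀ i, TS (SQ l) (D.τ i) (D.σ i) (l i) := fun i =>
    ⟨D.P i, D.max i, mem_SQ.2 ⟨i, D.mem i⟩, D.hτ i, D.hσ i,
      (absNorm_cm (h.prime i) (D.max i) (D.mem i)).symm⟩
  have hsp : ∀ x : GF ℚ →* Multiplicative κ, Chr κ (UrS (SQ l)) x → ∀ g,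
      Multiplicative.toAdd (x g) =
        ∑ i, Multiplicative.toAdd (x (D.τ i)) * Multiplicative.toAdd (D.ψ i g) := by
    intro x hx
    refine D.span x hx.op fun P hP hl τ hτ => hx.ur τ ⟨P, hP, fun h => ?_, hτ⟩
    obtain ⟨i, hi⟩ := mem_SQ.1 h
    exact hl i hi
  have hx' := hsp x hx
  have hy' := hsp y hy
  have hne : ∀ (x : GF ℚ →* Multiplicative κ) i, Multiplicative.toAdd (x (D.τ i)) ≠ 0 →
      x (D.τ i) ≠ 1 := by
    intro x i h3 h4
    rw [h4, toAdd_one] at h3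
    exact h3 rfl
  have hxv : ∀ i, Multiplicative.toAdd (x (D.τ i)) ≠ 0 → Multiplicative.toAdd (y (D.τ i)) = 0 ∧
      _ := fun i h3 =>
    ⟨by rw [(h1 _ _ _ (hT i) (hne x i h3)).1, toAdd_one],
      values h D y hy' i (h1 _ _ _ (hT i) (hne x i h3)).1 (h1 _ _ _ (hT i) (hne x i h3)).2⟩
  have hyv : ∀ i, Multiplicative.toAdd (y (D.τ i)) ≠ 0 → Multiplicative.toAdd (x (D.τ i)) = 0 ∧
      _ := fun i h3 =>
    ⟨by rw [(h2 _ _ _ (hT i) (hne y i h3)).1, toAdd_one],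
      values h D x hx' i (h2 _ _ _ (hT i) (hne y i h3)).1 (h2 _ _ _ (hT i) (hne y i h3)).2⟩
  rcases four (fun i => Multiplicative.toAdd (x (D.τ i))) (fun i => Multiplicative.toAdd (y (D.τ i)))
    (fun h3 => ⟨(hxv 0 h3).1, (hxv 0 h3).2.1 rfl⟩) (fun h3 => ⟨(hxv 1 h3).1, (hxv 1 h3).2.2.1 rfl⟩)
    (fun h3 => ⟨(hxv 2 h3).1, (hxv 2 h3).2.2.2.1 rfl⟩)
    (fun h3 => ⟨(hxv 3 h3).1, (hxv 3 h3).2.2.2.2 rfl⟩)
    (fun h3 => ⟨(hyv 0 h3).1, (hyv 0 h3).2.1 rfl⟩) (fun h3 => ⟨(hyv 1 h3).1, (hyv 1 h3).2.2.1 rfl⟩)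
    (fun h3 => ⟨(hyv 2 h3).1, (hyv 2 h3).2.2.2.1 rfl⟩)
    (fun h3 => ⟨(hyv 3 h3).1, (hyv 3 h3).2.2.2.2 rfl⟩) with h3 | h3
  · exact Or.inl (triv D x hx' h3)
  · exact Or.inr (triv D y hy' h3)

theorem dep [Finite κ] [CharP κ 2] (h : Quad l) :
    Dep κ (UrS {v | v ∈ SQ l ∧ 4 ∣ Ideal.absNorm v - 1}) := by
  obtain ⟨D⟩ := exists_data κ l h.prime h.ne_two h.inj
  have hsp : ∀ x : GF ℚ →* Multiplicative κ,
      Chr κ (UrS {v | v ∈ SQ l ∧ 4 ∣ Ideal.absNorm v - 1}) x → ∀ g,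
      Multiplicative.toAdd (x g) =
        Multiplicative.toAdd (x (D.τ 0)) * Multiplicative.toAdd (D.ψ 0 g) := by
    intro x hx g
    rw [D.span x hx.op (fun P hP hl τ hτ => hx.ur τ ⟨P, hP, fun h => ?_, hτ⟩) g]
    · rw [Finset.sum_eq_single 0]
      · intro i _ hi
        rw [hx.ur (D.τ i) ⟨D.P i, D.max i, fun h' => ?_, D.hτ i⟩, toAdd_one, zero_mul]
        have h3 := h'.2
        rw [absNorm_cm (h.prime i) (D.max i) (D.mem i)] at h3
        have h4 := h.three i hi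
        omega
      · intro h
        exact absurd (Finset.mem_univ _) h
    · obtain ⟨i, hi⟩ := mem_SQ.1 h.1
      exact hl i hi
  intro x y z hx hy hz
  by_cases h0 : Multiplicative.toAdd (x (D.τ 0)) = 0 ∧ Multiplicative.toAdd (y (D.τ 0)) = 0
  · refine ⟨1, 0, 0, fun h => one_ne_zero h.1, fun g => ?_⟩
    rw [hsp x hx, h0.1]
    ring
  · refine ⟨Multiplicative.toAdd (y (D.τ 0)), -Multiplicative.toAdd (x (D.τ 0)), 0, fun h => h0
      ⟨neg_eq_zero.1 h.2.1, h.1⟩, fun g => ?_⟩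
    linear_combination (Multiplicative.toAdd (y (D.τ 0))) * hsp x hx g -
      (Multiplicative.toAdd (x (D.τ 0))) * hsp y hy g

end

end Pool.Agent.Q15.FM2E
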