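import Pool.Agent.TH831.OE.Dvr

/-! Two-dimensional representations and their residual characters. -/

set_option autoImplicit false
set_option linter.unusedSectionVars false

namespace Pool.Agent.Q15.FM2A

open Matrix Pool.Agent.TH831.OE

section defs
variable {κ : Type} [Field κ] {G : Type} [Group G] [TopologicalSpace G]

/-- a character with values in `κ` -/
structure Chr (κ : Type) [Field κ] (Ur : Set G) (x : G →* Multiplicative κ) : Prop where
  op : IsOpen (x.ker : Set G)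
  ur : ∀ u ∈ Ur, x u = 1

/-- no pair of mutually split characters -/
def NP (κ : Type) [Field κ] (Ur : Set G) (T : G → G → ℕ → Prop) : Prop :=
  ∀ x y : G →* Multiplicative κ, Chr κ Ur x → Chr κ Ur y →
    (∀ τ σ q, T τ σ q → x τ ≠ 1 → y τ = 1 ∧ y σ = 1) →
    (∀ τ σ q, T τ σ q → y τ ≠ 1 → x τ = 1 ∧ x σ = 1) → (∀ g, x g = 1) ∨ ∀ g, y g = 1

/-- the matrix of characters -/
def mat (X : Fin 2 → Fin 2 → G →* Multiplicative κ) (g : G) : Matrix (Fin 2) (Fin 2) κ :=
  Matrix.of fun i j => Multiplicative.toAdd (X i j g)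

/-- no triple -/
def NT (κ : Type) [Field κ] (Ur : Set G) (T : G → G → ℕ → Prop) (p r : ℕ) : Prop :=
  ∀ X : Fin 2 → Fin 2 → G →* Multiplicative κ, (∀ i j, Chr κ Ur (X i j)) →
    (∀ τ σ q, T τ σ q → mat X τ * mat X τ = 0) →
    (∀ τ σ q, T τ σ q → ¬ p ^ r ∣ q - 1 → mat X τ = 0) →
    (∀ τ σ q, T τ σ q →
      mat X σ * mat X τ - mat X τ * mat X σ = (((q - 1) / p ^ r : ℕ) : κ) • mat X τ) →
    ∃ w : Fin 2 → κ, w ≠ 0 ∧ ∀ τ σ q, T τ σ q → mat X τ *ᵥ w = 0

theorem gen_triv {Ur : Set G} {T : G → G → ℕ → Prop} (h : NP κ Ur T)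
    (x : G →* Multiplicative κ) (hx : Chr κ Ur x) (hT : ∀ τ σ q, T τ σ q → x τ = 1) :
    ∀ g, x g = 1 := by
  rcases h x x hx hx (fun τ σ q h1 h2 => absurd (hT τ σ q h1) h2)
    (fun τ σ q h1 h2 => absurd (hT τ σ q h1) h2) with h1 | h1 <;> exact h1

end defs

section
variable {O κ : Type} [CommRing O] [IsDomain O] [Field κ] {B : Bas O κ}
  {G : Type} [Group G] [TopologicalSpace G] [IsTopologicalGroup G]

/-- the conditions on the representation -/
structure Good (B : Bas O κ) (Ur : Set G) (T : G → G → ℕ → Prop) (ρ : G →* GL (Fin 2) O) :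
    Prop where
  cts : Cts B ρ
  ur : ∀ u ∈ Ur, ρ u = 1
  sq : ∀ τ σ q, T τ σ q → (mt (ρ τ) - 1) * (mt (ρ τ) - 1) = 0
  rel : ∀ τ σ q, T τ σ q → mt (ρ σ) * (mt (ρ τ) - 1) = (q : O) • ((mt (ρ τ) - 1) * mt (ρ σ))

theorem cancel_right {Q A C : Matrix (Fin 2) (Fin 2) O} (hQ : Q.det ≠ 0) (h : A * Q = C * Q) :
    A = C := by
  have h1 : A * Q * Q.adjugate = C * Q * Q.adjugate := by rw [h]
  rw [mul_assoc, mul_assoc, Matrix.mul_adjugate, Matrix.mul_smul, Matrix.mul_smul,
    Matrix.mul_one, Matrix.mul_one] at h1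
  exact smul_right_injective _ hQ h1

theorem Good.conj {Ur : Set G} {T : G → G → ℕ → Prop} {ρ ρ' : G →* GL (Fin 2) O}
    (h : Good B Ur T ρ) (hr : Rel ρ ρ') : Good B Ur T ρ' := by
  refine ⟨hr.cts h.cts, fun u hu => hr.unr (h.ur u hu), ?_, ?_⟩
  · intro τ σ q hT
    obtain ⟨Q, hQ, hh⟩ := hr
    apply cancel_right hQ
    have h1 : ∀ g, (mt (ρ' g) - 1) * Q = Q * (mt (ρ g) - 1) := fun g => by
      rw [sub_mul, mul_sub, one_mul, mul_one, hh]
    rw [mul_assoc, h1, ← mul_assoc, h1, mul_assoc, h.sq τ σ q hT, mul_zero, zero_mul]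
  · intro τ σ q hT
    obtain ⟨Q, hQ, hh⟩ := hr
    apply cancel_right hQ
    have h1 : ∀ g, (mt (ρ' g) - 1) * Q = Q * (mt (ρ g) - 1) := fun g => by
      rw [sub_mul, mul_sub, one_mul, mul_one, hh]
    rw [mul_assoc, h1, ← mul_assoc, ← hh, mul_assoc, h.rel τ σ q hT, Matrix.smul_mul, mul_assoc,
      ← hh, ← mul_assoc, h1, Matrix.mul_smul, mul_assoc]

theorem Rel.trans' {ρ ρ' ρ'' : G →* GL (Fin 2) O} (h : Rel ρ ρ') (h' : Rel ρ' ρ'') :
    Rel ρ ρ'' := Rel.trans h h'

theorem sq_zero_entries {M : Matrix (Fin 2) (Fin 2) O} (h : M * M = 0) :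
    M 0 0 + M 1 1 = 0 ∧ M 0 0 * M 1 1 - M 0 1 * M 1 0 = 0 := by
  have h1 : M.trace = 0 :=
    (Matrix.isNilpotent_trace_of_isNilpotent ⟨2, by rw [pow_two, h]⟩).eq_zero
  have h2 : M.det = 0 := by
    have e := congrArg Matrix.det h
    rw [Matrix.det_mul, Matrix.det_zero] at e
    exact mul_self_eq_zero.1 e
  rw [Matrix.trace_fin_two] at h1
  rw [Matrix.det_fin_two] at h2
  exact ⟨h1, h2⟩

theorem rel_entries {a b c d a' b' c' d' q t : O}
    (h : (1 + t • !![a', b'; c', d']) * (t • !![a, b; c, d]) =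
      q • ((t • !![a, b; c, d]) * (1 + t • !![a', b'; c', d']))) :
    (1 + t * a') * (t * a) + t * b' * (t * c) = q * (t * a * (1 + t * a') + t * b * (t * c')) ∧
    (1 + t * a') * (t * b) + t * b' * (t * d) = q * (t * a * (t * b') + t * b * (1 + t * d')) ∧
    t * c' * (t * a) + (1 + t * d') * (t * c) = q * (t * c * (1 + t * a') + t * d * (t * c')) := by
  have e1 : (1 : Matrix (Fin 2) (Fin 2) O) + t • !![a', b'; c', d'] =
      !![1 + t * a', t * b'; t * c', 1 + t * d'] := by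
    ext i j
    fin_cases i <;> fin_cases j <;> simp
  have e2 : t • !![a, b; c, d] = !![t * a, t * b; t * c, t * d] := by
    ext i j
    fin_cases i <;> fin_cases j <;> simp
  rw [e1, e2, Matrix.mul_fin_two, Matrix.mul_fin_two] at h
  have h00 := congrFun (congrFun h 0) 0
  have h01 := congrFun (congrFun h 0) 1
  have h10 := congrFun (congrFun h 1) 0
  simp at h00 h01 h10
  exact ⟨h00, h01, h10⟩

/-- **odd levels** -/
theorem od_step {Ur : Set G} {T : G → G → ℕ → Prop} (hNP : NP κ Ur T)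
    (hq : ∀ τ σ q, T τ σ q → (q : O) - 1 ≠ 0) {ρ : G →* GL (Fin 2) O} (hG : Good B Ur T ρ) {m : ℕ}
    (hod : Od B m ρ) : ∃ ρ' : G →* GL (Fin 2) O, Rel ρ ρ' ∧ Ev B (m + 1) ρ' := by
  choose a b c d h using hod
  have hmul := fun g g' => mt_mul ρ g g'
  -- the first character
  obtain ⟨x, hxo, hx, hxu⟩ := exists_hom ρ hG.cts b (fun g g' => by
      have h1 := congrFun (congrFun (hmul g g') 0) 1
      rw [h, h, h] at h1
      simp [Matrix.mul_apply, Fin.sum_univ_two] at h1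
      have h2 : B.π ^ m * (b (g * g') - (b g + b g')) =
          B.π ^ m * (B.π * (B.π ^ m * (a g * b g' + b g * d g'))) := by
        linear_combination h1
      exact ⟨_, dvd_cancel h2⟩) (m + 1) (fun g hg => by
      obtain ⟨α, hα⟩ := hg
      have h1 := congrFun (congrFun hα 0) 1
      rw [h] at h1
      simp at h1
      have h2 : B.π ^ m * b g = B.π ^ m * (B.π * α 0 1) := by
        rw [← mul_assoc, ← pow_succ]
        exact h1
      exact ⟨_, dvd_cancel h2⟩)
  obtain ⟨y, hyo, hy, hyu⟩ := exists_hom ρ hG.cts c (fun g g' => by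
      have h1 := congrFun (congrFun (hmul g g') 1) 0
      rw [h, h, h] at h1
      simp [Matrix.mul_apply, Fin.sum_univ_two] at h1
      have h2 : B.π ^ (m + 1) * (c (g * g') - (c g + c g')) =
          B.π ^ (m + 1) * (B.π * (B.π ^ m * (c g * a g' + d g * c g'))) := by
        linear_combination h1
      exact ⟨_, dvd_cancel h2⟩) (m + 2) (fun g hg => by
      obtain ⟨α, hα⟩ := hg
      have h1 := congrFun (congrFun hα 1) 0
      rw [h] at h1
      simp at h1
      have h2 : B.π ^ (m + 1) * c g = B.π ^ (m + 1) * (B.π * α 1 0) := by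
        linear_combination h1
      exact ⟨_, dvd_cancel h2⟩)
  have hx1 : ∀ g, x g = 1 ↔ B.q (b g) = 0 := fun g => by
    rw [hx]
    exact ofAdd_eq_one
  have hy1 : ∀ g, y g = 1 ↔ B.q (c g) = 0 := fun g => by
    rw [hy]
    exact ofAdd_eq_one
  -- the local conditions
  have key : ∀ τ σ q, T τ σ q → (B.q (b τ) = 0 ∨ B.q (c τ) = 0) ∧
      (B.q (b τ) * B.q (c σ) = B.q (b σ) * B.q (c τ)) := by
    intro τ σ q hT
    have hsq := hG.sq τ σ q hT
    have hN : mt (ρ τ) - 1 = B.π ^ m • !![B.π * a τ, b τ; B.π * c τ, B.π * d τ] := by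
      rw [h, add_sub_cancel_left]
    rw [hN, Matrix.smul_mul, Matrix.mul_smul, smul_smul, ← pow_add] at hsq
    have hsq2 : !![B.π * a τ, b τ; B.π * c τ, B.π * d τ] *
        !![B.π * a τ, b τ; B.π * c τ, B.π * d τ] = 0 := by
      refine smul_cancel (B := B) (k := m + m) ?_
      rw [hsq, smul_zero]
    obtain ⟨h1, h2⟩ := sq_zero_entries hsq2
    simp at h1 h2
    have hbc : b τ * c τ = B.π * (a τ * d τ) := by
      apply mul_left_cancel₀ B.hπ
      linear_combination -h2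
    have hbc2 : B.q (b τ) * B.q (c τ) = 0 := by
      rw [← map_mul, hbc, map_mul, q_pi, zero_mul]
    refine ⟨mul_eq_zero.1 hbc2, ?_⟩
    have hrel := hG.rel τ σ q hT
    rw [hN, h σ] at hrel
    obtain ⟨V, u, hVu, hu⟩ := spl (B := B) ((q : O) - 1) (hq τ σ q hT)
    obtain ⟨h00, h01, h10⟩ := rel_entries hrel
    rcases Nat.lt_or_ge m V with hV | hV
    · -- `q - 1` is divisible by a high power
      obtain ⟨s, rfl⟩ : ∃ s, V = m + 1 + s := ⟨V - (m + 1), by omega⟩
      have h3 : B.π ^ (m + m + 1) * (b σ * c τ - b τ * c σ) =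
          B.π ^ (m + m + 1) * (B.π * (B.π ^ s * u * (a τ + B.π ^ (m + 1) * (a τ * a σ) +
            B.π ^ m * (b τ * c σ)))) := by
        linear_combination h00 + B.π ^ m * (B.π * a τ + B.π ^ m * (B.π * a τ * (B.π * a σ) + b τ * (B.π * c σ))) * hVu
      have h4 := congrArg B.q (dvd_cancel h3)
      rw [map_mul B.q B.π, q_pi, zero_mul, map_sub, map_mul, map_mul, sub_eq_zero] at h4
      exact h4.symm
    · -- `q - 1` is divisible by a low power only
      obtain ⟨s, rfl⟩ : ∃ s, m = V + s := ⟨m - V, by omega⟩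
      have h3 : B.π ^ (V + s + V) * (u * b τ) = B.π ^ (V + s + V) * (B.π * (B.π ^ s *
          (a σ * b τ + b σ * d τ - q * (a τ * b σ + b τ * d σ)))) := by
        linear_combination -h01 - B.π ^ (V + s) * b τ * hVu
      have h4 := congrArg B.q (dvd_cancel h3)
      rw [map_mul, map_mul B.q B.π, q_pi, zero_mul] at h4
      have h5 : B.q (b τ) = 0 := (mul_eq_zero.1 h4).resolve_left hu
      have h6 : B.π ^ (V + s + V + 1) * (u * c τ) = B.π ^ (V + s + V + 1) * (B.π * (B.π ^ s *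
          (c σ * a τ + d σ * c τ - q * (c τ * a σ + d τ * c σ)))) := by
        linear_combination -h10 - B.π ^ (V + s) * (B.π * c τ) * hVu
      have h7 := congrArg B.q (dvd_cancel h6)
      rw [map_mul, map_mul B.q B.π, q_pi, zero_mul] at h7
      have h8 : B.q (c τ) = 0 := (mul_eq_zero.1 h7).resolve_left hu
      rw [h5, h8, zero_mul, mul_zero]
  rcases hNP x y ⟨hxo, fun u hu => hxu u (hG.ur u hu)⟩ ⟨hyo, fun u hu => hyu u (hG.ur u hu)⟩
    (fun τ σ q hT hne => by
      rw [Ne, hx1] at hne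
      rw [hy1, hy1]
      obtain ⟨h1, h2⟩ := key τ σ q hT
      have h3 := h1.resolve_left hne
      rw [h3, mul_zero] at h2
      exact ⟨h3, (mul_eq_zero.1 h2).resolve_left hne⟩)
    (fun τ σ q hT hne => by
      rw [Ne, hy1] at hne
      rw [hx1, hx1]
      obtain ⟨h1, h2⟩ := key τ σ q hT
      have h3 := h1.resolve_right hne
      rw [h3, zero_mul] at h2
      exact ⟨h3, (mul_eq_zero.1 h2.symm).resolve_right hne⟩) with h1 | h1
  · have h2 := move3 ρ a b c d h (fun g => (B.ker _).1 ((hx1 g).1 (h1 g)))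
    exact ⟨ρ, Rel.refl ρ, h2⟩
  · exact move2 ρ a b c d h (fun g => (B.ker _).1 ((hy1 g).1 (h1 g)))

end

end Pool.Agent.Q15.FM2A
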