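import Pool.Agent.Q15.FM2A

/-! Even levels, and the main theorem for groups. -/

set_option autoImplicit false
set_option linter.unusedSectionVars false

namespace Pool.Agent.Q15.FM2B

open Matrix Pool.Agent.TH831.OE Pool.Agent.Q15.FM2A

section
variable {O κ : Type} [CommRing O] [IsDomain O] [Field κ] {B : Bas O κ}
  {G : Type} [Group G] [TopologicalSpace G] [IsTopologicalGroup G]

/-- an entry of a matrix -/
def ent {O : Type} [CommRing O] (i j : Fin 2) : Matrix (Fin 2) (Fin 2) O →ₗ[O] O where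
  toFun := fun M => M i j
  map_add' := fun _ _ => rfl
  map_smul' := fun _ _ => rfl

/-- **even levels** -/
theorem ev_step {Ur : Set G} {T : G → G → ℕ → Prop} (hNP : NP κ Ur T) {p e : ℕ} (hp : p.Prime)
    (hpκ : ∀ n : ℕ, (n : κ) = 0 ↔ p ∣ n) (he : 1 ≤ e) {c : O} (hc : (p : O) = B.π ^ e * c)
    (hqc : B.q c ≠ 0) (hNT : ∀ r, (r ≠ 0 ∨ e ≠ 1) → NT κ Ur T p r)
    (hq : ∀ τ σ q, T τ σ q → 2 ≤ q) {ρ : G →* GL (Fin 2) O} (hG : Good B Ur T ρ) {k : ℕ}
    (hk : 1 ≤ k) (hev : Ev B k ρ) : ∃ ρ' : G →* GL (Fin 2) O, Rel ρ ρ' ∧ Od B k ρ' := by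
  choose X hX using hev
  have hmul : ∀ g g', X (g * g') = X g + X g' + B.π ^ k • (X g * X g') := by
    intro g g'
    have h1 := mt_mul ρ g g'
    rw [hX, hX, hX] at h1
    refine smul_cancel (B := B) (k := k) ?_
    have h2 : B.π ^ k • X (g * g') = (1 + B.π ^ k • X g) * (1 + B.π ^ k • X g') - 1 := by
      rw [← h1, add_sub_cancel_left]
    rw [h2]
    simp only [add_mul, mul_add, one_mul, mul_one, Matrix.smul_mul, Matrix.mul_smul, smul_add]
    abel
  have hkπ : B.π ∣ B.π ^ k := dvd_pow_self _ (by omega)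
  have hcong : ∀ g, Cong B (k + 1) (mt (ρ g)) → ∃ α : Matrix (Fin 2) (Fin 2) O,
      X g = B.π • α := by
    rintro g ⟨α, hα⟩
    refine ⟨α, smul_cancel (B := B) (k := k) ?_⟩
    rw [hX, add_right_inj] at hα
    rw [hα, smul_smul, ← pow_succ]
  -- linear functions of `X` are characters
  have hlin : ∀ f : Matrix (Fin 2) (Fin 2) O →ₗ[O] O, ∃ F : G →* Multiplicative κ, Chr κ Ur F ∧
      ∀ g, F g = Multiplicative.ofAdd (B.q (f (X g))) := by
    intro f
    obtain ⟨F, hFo, hF, hFu⟩ := exists_hom ρ hG.cts (fun g => f (X g)) (fun g g' => by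
        show B.π ∣ f (X (g * g')) - (f (X g) + f (X g'))
        rw [hmul, map_add, map_add, add_sub_cancel_left, map_smul, smul_eq_mul]
        exact hkπ.mul_right _) (k + 1) (fun g hg => by
        obtain ⟨α, hα⟩ := hcong g hg
        show B.π ∣ f (X g)
        rw [hα, map_smul, smul_eq_mul]
        exact dvd_mul_right _ _)
    exact ⟨F, ⟨hFo, fun u hu => hFu u (hG.ur u hu)⟩, hF⟩
  -- the local conditions
  have hsq : ∀ τ σ q, T τ σ q → X τ * X τ = 0 := by
    intro τ σ q hT
    have h1 := hG.sq τ σ q hT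
    rw [hX, add_sub_cancel_left, Matrix.smul_mul, Matrix.mul_smul, smul_smul, ← pow_add] at h1
    refine smul_cancel (B := B) (k := k + k) ?_
    rw [h1, smul_zero]
  have hrel : ∀ τ σ q, T τ σ q →
      B.π ^ k • (X σ * X τ - (q : O) • (X τ * X σ)) = ((q : O) - 1) • X τ := by
    intro τ σ q hT
    have h1 := hG.rel τ σ q hT
    rw [hX τ, hX σ, add_sub_cancel_left] at h1
    refine smul_cancel (B := B) (k := k) ?_
    simp only [add_mul, mul_add, one_mul, mul_one, Matrix.smul_mul, Matrix.mul_smul, smul_add] at h1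
    have h2 : B.π ^ k • (B.π ^ k • (X σ * X τ)) - (q : O) • (B.π ^ k • (B.π ^ k • (X τ * X σ))) =
        (q : O) • (B.π ^ k • X τ) - B.π ^ k • X τ := by
      rw [sub_eq_sub_iff_add_eq_add, add_comm, h1]
    rw [smul_sub, smul_sub, sub_smul, one_smul, smul_sub, smul_comm (B.π ^ k) (q : O) (X τ),
      smul_comm (B.π ^ k) (q : O) (X τ * X σ),
      smul_comm (B.π ^ k) (q : O) (B.π ^ k • (X τ * X σ))]
    exact h2
  -- the valuation of `q - 1`
  have hval : ∀ τ σ q, T τ σ q → ∃ r' m : ℕ, q - 1 = p ^ r' * m ∧ ¬ p ∣ m ∧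
      (e * r' < k → red B (X τ) = 0) ∧
      (k ≤ e * r' → red B (X σ) * red B (X τ) - red B (X τ) * red B (X σ) =
        B.q (B.π ^ (e * r' - k) * c ^ r' * m) • red B (X τ)) := by
    intro τ σ q hT
    have hq2 := hq τ σ q hT
    obtain ⟨r', m, hm, hqm⟩ := Nat.exists_eq_pow_mul_and_not_dvd (show q - 1 ≠ 0 by omega) p hp.ne_one
    have hmO : B.q (m : O) ≠ 0 := by
      rw [map_natCast, Ne, hpκ]
      exact hm
    have hqO : (q : O) - 1 = B.π ^ (e * r') * (c ^ r' * m) := by
      have h1 : ((q - 1 : ℕ) : O) = (q : O) - 1 := by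
        rw [Nat.cast_sub (by omega), Nat.cast_one]
      rw [← h1, hqm]
      push_cast
      rw [hc, mul_pow, ← pow_mul]
      ring
    refine ⟨r', m, hqm, hm, ?_, ?_⟩
    · intro hlt
      obtain ⟨s, hs⟩ : ∃ s, k = e * r' + 1 + s := ⟨k - (e * r' + 1), by omega⟩
      have h1 := hrel τ σ q hT
      rw [hqO, hs] at h1
      have h2 : (c ^ r' * (m : O)) • X τ =
          B.π • (B.π ^ s • (X σ * X τ - (q : O) • (X τ * X σ))) := by
        refine smul_cancel (B := B) (k := e * r') ?_
        rw [smul_smul, ← h1, smul_smul, smul_smul]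
        congr 1
        ring
      have h3 := congrArg (red B) h2
      rw [red_smul, red_smul, q_pi, zero_smul, map_mul, map_pow] at h3
      exact (smul_eq_zero.1 h3).resolve_left (mul_ne_zero (pow_ne_zero _ hqc) hmO)
    · intro hle
      have hr0 : r' ≠ 0 := by
        rintro rfl
        omega
      have hq1 : B.q (q : O) = 1 := by
        have h1 : B.q ((q : O) - 1) = 0 := by
          rw [hqO, map_mul, map_pow, q_pi, zero_pow (by
            have : 1 ≤ e * r' := hk.trans hle
            omega), zero_mul]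
        rw [map_sub, map_one] at h1
        exact sub_eq_zero.1 h1
      have h1 := hrel τ σ q hT
      have h2 : X σ * X τ - (q : O) • (X τ * X σ) =
          (B.π ^ (e * r' - k) * c ^ r' * m) • X τ := by
        refine smul_cancel (B := B) (k := k) ?_
        rw [h1, hqO, smul_smul]
        congr 1
        have h3 : B.π ^ (e * r') = B.π ^ k * B.π ^ (e * r' - k) := by
          rw [← pow_add, Nat.add_sub_cancel' hle]
        rw [h3]
        ring
      have h3 := congrArg (red B) h2
      rw [map_sub, map_mul, red_smul, red_smul, map_mul (red B) (X τ), hq1, one_smul] at h3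
      exact h3
  -- the tuple
  have hw : ∃ w : Fin 2 → κ, w ≠ 0 ∧ ∀ τ σ q, T τ σ q → red B (X τ) *ᵥ w = 0 := by
    have main : ∀ (r : ℕ) (s : O), B.q s ≠ 0 → (r ≠ 0 ∨ e ≠ 1) →
        (∀ τ σ q, T τ σ q → ¬ p ^ r ∣ q - 1 → red B (X τ) = 0) →
        (∀ τ σ q, T τ σ q → B.q s • (red B (X σ) * red B (X τ) - red B (X τ) * red B (X σ)) =
          (((q - 1) / p ^ r : ℕ) : κ) • red B (X τ)) →
        ∃ w : Fin 2 → κ, w ≠ 0 ∧ ∀ τ σ q, T τ σ q → red B (X τ) *ᵥ w = 0 := by
      intro r s hs hr h1 h2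
      have hex : ∀ i j : Fin 2, ∃ F : G →* Multiplicative κ, Chr κ Ur F ∧
          ∀ g, F g = Multiplicative.ofAdd (B.q (s * X g i j)) := by
        intro i j
        obtain ⟨F, hF, hF2⟩ := hlin (s • ent i j)
        exact ⟨F, hF, hF2⟩
      choose F hF hF2 using hex
      have hmat : ∀ g, mat F g = B.q s • red B (X g) := by
        intro g
        ext i j
        show Multiplicative.toAdd (F i j g) = _
        rw [hF2, toAdd_ofAdd, Matrix.smul_apply, red_apply, smul_eq_mul, map_mul]
      obtain ⟨w, hw, hww⟩ := hNT r hr F hF (fun τ σ q hT => by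
          rw [hmat, Matrix.smul_mul, Matrix.mul_smul, ← map_mul, hsq τ σ q hT, map_zero, smul_zero,
            smul_zero]) (fun τ σ q hT hd => by
          rw [hmat, h1 τ σ q hT hd, smul_zero]) (fun τ σ q hT => by
          rw [hmat, hmat, Matrix.smul_mul, Matrix.mul_smul, Matrix.smul_mul, Matrix.mul_smul,
            ← smul_sub, ← smul_sub, h2 τ σ q hT, smul_comm])
      refine ⟨w, hw, fun τ σ q hT => ?_⟩
      have h3 := hww τ σ q hT
      rw [hmat, Matrix.smul_mulVec] at h3
      exact (smul_eq_zero.1 h3).resolve_left hs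
    by_cases hek : e ∣ k
    · obtain ⟨r, rfl⟩ := hek
      have hr0 : r ≠ 0 := by
        rintro rfl
        omega
      obtain ⟨s, hs⟩ := B.surj ((B.q c ^ r)⁻¹)
      refine main r s (by rw [hs]; exact inv_ne_zero (pow_ne_zero _ hqc)) (Or.inl hr0) ?_ ?_
      · intro τ σ q hT hd
        obtain ⟨r', m, h1, h2, h3, h4⟩ := hval τ σ q hT
        apply h3
        apply Nat.mul_lt_mul_of_pos_left _ he
        by_contra hge
        apply hd
        rw [h1]
        exact (pow_dvd_pow p (by omega)).mul_right _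
      · intro τ σ q hT
        obtain ⟨r', m, h1, h2, h3, h4⟩ := hval τ σ q hT
        rcases Nat.lt_or_ge r' r with hlt | hge
        · rw [h3 (Nat.mul_lt_mul_of_pos_left hlt he), mul_zero, zero_mul, sub_zero, smul_zero,
            smul_zero]
        · obtain ⟨t, rfl⟩ := Nat.exists_eq_add_of_le hge
          have h5 : (q - 1) / p ^ r = p ^ t * m := by
            rw [h1, pow_add, mul_assoc, Nat.mul_div_cancel_left _ (pow_pos hp.pos r)]
          rw [h4 (Nat.mul_le_mul_left e hge), h5, smul_smul]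
          congr 1
          have h6 : ((p ^ t * m : ℕ) : κ) = B.q ((p : O) ^ t * m) := by
            push_cast
            rw [map_mul, map_pow, map_natCast, map_natCast]
          have h7 : e * (r + t) - e * r = e * t := by
            rw [mul_add, Nat.add_sub_cancel_left]
          rw [h6, h7, hc, hs, mul_pow, ← pow_mul, pow_add]
          simp only [map_mul, map_pow]
          have h8 : B.q c ^ r ≠ 0 := pow_ne_zero _ hqc
          field_simp
    · have he1 : e ≠ 1 := by
        rintro rfl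
        exact hek (one_dvd k)
      refine main 0 1 (by rw [map_one]; exact one_ne_zero) (Or.inr he1) ?_ ?_
      · intro τ σ q hT hd
        exact absurd (by rw [pow_zero]; exact one_dvd _) hd
      · intro τ σ q hT
        obtain ⟨r', m, h1, h2, h3, h4⟩ := hval τ σ q hT
        have hne : e * r' ≠ k := fun h => hek ⟨r', h.symm⟩
        rcases lt_or_gt_of_ne hne with hlt | hgt
        · rw [h3 hlt, mul_zero, zero_mul, sub_zero, smul_zero, smul_zero]
        · have hr0 : r' ≠ 0 := by
            rintro rfl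
            omega
          have h5 : (((q - 1) / p ^ 0 : ℕ) : κ) = 0 := by
            rw [pow_zero, Nat.div_one, hpκ, h1]
            exact (dvd_pow_self p hr0).mul_right _
          have h6 : B.q (B.π ^ (e * r' - k) * c ^ r' * m) = 0 := by
            rw [map_mul, map_mul, map_pow, q_pi, zero_pow (by omega), zero_mul, zero_mul]
          rw [h4 (by omega), h5, h6, zero_smul, smul_zero]
  obtain ⟨w, hw, hww⟩ := hw
  -- all values kill `w`
  have hall : ∀ g, red B (X g) *ᵥ w = 0 := by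
    intro g
    funext i
    choose w' hw' using fun j => B.surj (w j)
    have hf : ∀ M : Matrix (Fin 2) (Fin 2) O,
        B.q ((w' 0 • ent i 0 + w' 1 • ent i 1 : Matrix (Fin 2) (Fin 2) O →ₗ[O] O) M) =
          (red B M *ᵥ w) i := by
      intro M
      show B.q (w' 0 * M i 0 + w' 1 * M i 1) = _
      rw [Matrix.mulVec, dotProduct, Fin.sum_univ_two, map_add, map_mul, map_mul, hw', hw',
        red_apply, red_apply]
      ring
    obtain ⟨F, hF, hF2⟩ := hlin (w' 0 • ent i 0 + w' 1 • ent i 1)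
    have h1 := gen_triv hNP F hF (fun τ σ q hT => by
      rw [hF2, hf, hww τ σ q hT]
      rfl) g
    rw [hF2, hf] at h1
    exact ofAdd_eq_one.1 h1
  have htr : ∀ g, B.π ∣ (X g).trace := by
    intro g
    obtain ⟨F, hF, hF2⟩ := hlin (Matrix.traceLinearMap (Fin 2) O O)
    have h1 := gen_triv hNP F hF (fun τ σ q hT => by
      rw [hF2]
      show Multiplicative.ofAdd (B.q (X τ).trace) = 1
      rw [Matrix.trace_fin_two, (sq_zero_entries (hsq τ σ q hT)).1, map_zero, ofAdd_zero]) g
    rw [hF2] at h1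
    exact (B.ker _).1 (ofAdd_eq_one.1 h1)
  exact move1 ρ X hX w hw hall htr

/-- **the main theorem for groups** -/
theorem main {Ur : Set G} {T : G → G → ℕ → Prop} (hNP : NP κ Ur T) {p e : ℕ} (hp : p.Prime)
    (hpκ : ∀ n : ℕ, (n : κ) = 0 ↔ p ∣ n) (he : 1 ≤ e) {c : O} (hc : (p : O) = B.π ^ e * c)
    (hqc : B.q c ≠ 0) (hNT : ∀ r, (r ≠ 0 ∨ e ≠ 1) → NT κ Ur T p r)
    (hq : ∀ τ σ q, T τ σ q → 2 ≤ q) (hqO : ∀ τ σ q, T τ σ q → (q : O) - 1 ≠ 0)
    {ρ : G →* GL (Fin 2) O} (hG : Good B Ur T ρ)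
    (hod : ∃ ρ' : G →* GL (Fin 2) O, Rel ρ ρ' ∧ Od B 0 ρ') (g : G) : ρ g = 1 := by
  have hall : ∀ m, ∃ ρ' : G →* GL (Fin 2) O, Rel ρ ρ' ∧ Od B m ρ' := by
    intro m
    induction m with
    | zero => exact hod
    | succ m ih =>
      obtain ⟨ρ₁, h1, h2⟩ := ih
      have hG1 := hG.conj h1
      obtain ⟨ρ₂, h3, h4⟩ := od_step hNP hqO hG1 h2
      have hG2 := hG1.conj h3
      obtain ⟨ρ₃, h5, h6⟩ := ev_step hNP hp hpκ he hc hqc hNT hq hG2 (by omega) h4
      exact ⟨ρ₃, (h1.trans h3).trans h5, h6⟩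
  -- all elements are unipotent
  have hzero : ∀ x : O, (∀ m : ℕ, B.π ^ (m + 1) ∣ x) → x = 0 := by
    intro x hx
    by_contra hne
    obtain ⟨n, hn⟩ := B.fin x hne
    exact hn (hx n)
  have htr : ∀ g, (mt (ρ g)).trace = 2 := by
    intro g
    apply sub_eq_zero.1
    apply hzero
    intro m
    obtain ⟨ρ', h1, h2⟩ := hall m
    obtain ⟨a, b, c', d, h3⟩ := h2 g
    rw [← h1.trace, h3, Matrix.trace_fin_two]
    refine ⟨a + d, ?_⟩
    simp
    ring
  have hdet : ∀ g, (mt (ρ g)).det = 1 := by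
    intro g
    apply sub_eq_zero.1
    apply hzero
    intro m
    obtain ⟨ρ', h1, h2⟩ := hall m
    obtain ⟨a, b, c', d, h3⟩ := h2 g
    rw [← h1.det, h3, Matrix.det_fin_two]
    refine ⟨a + d + B.π ^ (m + 1) * (a * d) - B.π ^ m * (b * c'), ?_⟩
    simp
    ring
  have hsq : ∀ g, (mt (ρ g) - 1) * (mt (ρ g) - 1) = 0 := by
    intro g
    rw [sq_sub_one (hdet g), htr, sub_self, zero_smul]
  -- products
  have hprod : ∀ M N : Matrix (Fin 2) (Fin 2) O, M * M = 0 → N * N = 0 → (M * N).trace = 0 →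
      M * N = 0 := by
    intro M N hM hN hMN
    obtain ⟨h1, h2⟩ := sq_zero_entries hM
    obtain ⟨h3, h4⟩ := sq_zero_entries hN
    rw [Matrix.trace_fin_two, Matrix.mul_apply, Matrix.mul_apply, Fin.sum_univ_two,
      Fin.sum_univ_two] at hMN
    have e1 : M 1 1 = - M 0 0 := by linear_combination h1
    have e2 : N 1 1 = - N 0 0 := by linear_combination h3
    rw [e1] at h2 hMN
    rw [e2] at h4 hMN
    ext i j
    rw [Matrix.mul_apply, Fin.sum_univ_two]
    fin_cases i <;> fin_cases j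
    · simp only [Fin.zero_eta, Matrix.zero_apply]
      apply pow_eq_zero_iff (two_ne_zero) |>.1
      linear_combination (-N 0 0 ^ 2) * h2 + (M 0 1 * M 1 0) * h4 + (M 0 1 * N 1 0) * hMN
    · simp only [Fin.zero_eta, Fin.mk_one, Matrix.zero_apply, e2]
      apply pow_eq_zero_iff (two_ne_zero) |>.1
      linear_combination (-N 0 1 ^ 2) * h2 - (M 0 1 ^ 2) * h4 - (M 0 1 * N 0 1) * hMN
    · simp only [Fin.zero_eta, Fin.mk_one, Matrix.zero_apply, e1]
      apply pow_eq_zero_iff (two_ne_zero) |>.1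
      linear_combination (-N 1 0 ^ 2) * h2 - (M 1 0 ^ 2) * h4 - (M 1 0 * N 1 0) * hMN
    · simp only [Fin.mk_one, Matrix.zero_apply, e1, e2]
      apply pow_eq_zero_iff (two_ne_zero) |>.1
      linear_combination (-N 0 0 ^ 2) * h2 + (M 0 1 * M 1 0) * h4 + (M 1 0 * N 0 1) * hMN
  have hadd : ∀ g g', (mt (ρ g) - 1) * (mt (ρ g') - 1) = 0 := by
    intro g g'
    apply hprod _ _ (hsq g) (hsq g')
    have h1 : (mt (ρ g) - 1) * (mt (ρ g') - 1) =
        mt (ρ (g * g')) - mt (ρ g) - mt (ρ g') + 1 := by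
      rw [mt_mul]
      noncomm_ring
    rw [h1, Matrix.trace_add, Matrix.trace_sub, Matrix.trace_sub, htr, htr, htr, Matrix.trace_one]
    simp
  -- inertia acts trivially
  have hin : ∀ τ σ q, T τ σ q → mt (ρ τ) - 1 = 0 := by
    intro τ σ q hT
    have h1 := hG.rel τ σ q hT
    have h2 : mt (ρ σ) = 1 + (mt (ρ σ) - 1) := by abel
    rw [h2, add_mul, mul_add, hadd, hadd, add_zero, add_zero, one_mul, mul_one] at h1
    have h3 : ((q : O) - 1) • (mt (ρ τ) - 1) = 0 := by
      rw [sub_smul, one_smul, ← h1, sub_self]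
    exact (smul_eq_zero.1 h3).resolve_left (hqO τ σ q hT)
  have hhom : ∀ g g' i j, (mt (ρ (g * g')) - 1) i j =
      (mt (ρ g) - 1) i j + (mt (ρ g') - 1) i j := by
    intro g g' i j
    have h1 : mt (ρ (g * g')) - 1 = (mt (ρ g) - 1) + (mt (ρ g') - 1) +
        (mt (ρ g) - 1) * (mt (ρ g') - 1) := by
      rw [mt_mul]
      noncomm_ring
    rw [h1, hadd, add_zero, Matrix.add_apply]
  -- all entries are divisible by all powers
  have hdiv : ∀ (m : ℕ) (g : G) (i j : Fin 2), B.π ^ m ∣ (mt (ρ g) - 1) i j := by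
    intro m
    induction m with
    | zero => intro g i j; rw [pow_zero]; exact one_dvd _
    | succ m ih =>
      intro g i j
      choose f hf using fun g => ih g i j
      obtain ⟨F, hFo, hF, hFu⟩ := exists_hom ρ hG.cts f (fun g g' => by
          have h1 := hhom g g' i j
          rw [hf, hf, hf, ← mul_add] at h1
          rw [dvd_cancel h1, sub_self]
          exact dvd_zero _) (m + 1) (fun g hg => by
          obtain ⟨α, hα⟩ := hg
          have h1 : (mt (ρ g) - 1) i j = B.π ^ m * (B.π * α i j) := by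
            rw [hα, add_sub_cancel_left, Matrix.smul_apply, smul_eq_mul, pow_succ, mul_assoc]
          rw [hf] at h1
          exact ⟨_, dvd_cancel h1⟩)
      have h2 := gen_triv hNP F ⟨hFo, fun u hu => hFu u (hG.ur u hu)⟩ (fun τ σ q hT => by
          rw [hF]
          have h3 : B.π ^ m * f τ = B.π ^ m * 0 := by
            rw [← hf, hin τ σ q hT, mul_zero]
            rfl
          rw [dvd_cancel h3, map_zero, ofAdd_zero]) g
      rw [hF] at h2
      obtain ⟨y, hy⟩ := (B.ker _).1 (ofAdd_eq_one.1 h2)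
      exact ⟨y, by rw [hf, hy, pow_succ, mul_assoc]⟩
  apply Units.ext
  apply sub_eq_zero.1
  ext i j
  exact hzero _ fun m => hdiv (m + 1) g i j

end

end Pool.Agent.Q15.FM2B
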