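import Pool.Agent.Q15.FMRes

/-! Matrices of finite order which are trivial modulo a power of the maximal ideal. -/

set_option autoImplicit false

namespace Pool.Agent.Q15.FMTors

open Matrix IsLocalRing Pool.Agent.W569.UF Pool.Agent.Q15.FMRes

variable {A : Type} [CommRing A] [IsLocalRing A]

theorem Fil_pow {n a : ℕ} {x : Matrix (Fin n) (Fin n) A} (hx : x ∈ Fil A n a) (m : ℕ) :
    x ^ (m + 1) ∈ Fil A n ((m + 1) * a) := by
  induction m with
  | zero => simpa using hx
  | succ m ih =>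
    rw [pow_succ]
    have h1 := Fil_mul ih hx
    have h2 : (m + 1) * a + a = (m + 1 + 1) * a := by ring
    rwa [h2] at h1

theorem Fil_mul_right {n a : ℕ} {x : Matrix (Fin n) (Fin n) A} (hx : x ∈ Fil A n a)
    (y : Matrix (Fin n) (Fin n) A) : x * y ∈ Fil A n a := by
  have h1 : y ∈ Fil A n 0 := fun i j => by simp
  have h2 := Fil_mul hx h1
  rwa [add_zero] at h2

theorem one_add_pow {R : Type} [Ring R] (Z : R) (r : ℕ) :
    ∃ W, (1 + Z) ^ r = 1 + r • Z + Z * Z * W := by
  induction r with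
  | zero => exact ⟨0, by simp⟩
  | succ r ih =>
    obtain ⟨W, hW⟩ := ih
    refine ⟨(r : R) + W * (1 + Z), ?_⟩
    rw [pow_succ, hW, succ_nsmul, nsmul_eq_mul]
    have h1 : Z * Z * ((r : R) + W * (1 + Z)) = (r : R) * Z * Z + Z * Z * W * (1 + Z) := by
      rw [mul_add, ← mul_assoc, ← (Nat.cast_commute r (Z * Z)).eq, mul_assoc (r : R)]
    rw [h1]
    noncomm_ring

theorem isUnit_of_ne {p r : ℕ} (hp : p.Prime) (hr : r.Prime) (hne : r ≠ p)
    (hpA : (p : A) ∈ maximalIdeal A) : IsUnit (r : A) := by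
  by_contra h
  have h1 : (r : A) ∈ maximalIdeal A := (mem_maximalIdeal _).2 h
  have hco : Nat.Coprime r p := (Nat.coprime_primes hr hp).2 hne
  have hb := Nat.gcd_eq_gcd_ab r p
  rw [hco] at hb
  have : (1 : A) ∈ maximalIdeal A := by
    have e : (1 : A) = (r : A) * ((r.gcdA p : ℤ) : A) + (p : A) * ((r.gcdB p : ℤ) : A) := by
      have := congrArg (fun z : ℤ => (z : A)) hb
      push_cast at this
      exact this
    rw [e]
    exact Ideal.add_mem _ (Ideal.mul_mem_right _ _ h1) (Ideal.mul_mem_right _ _ hpA)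
  exact (Ideal.IsPrime.ne_top (I := maximalIdeal A) inferInstance)
    ((Ideal.eq_top_iff_one _).2 this)

/-- one step, prime order different from `p` -/
theorem step_ne {p r n z : ℕ} (hp : p.Prime) (hr : r.Prime) (hne : r ≠ p)
    (hpA : (p : A) ∈ maximalIdeal A) (hz : 1 ≤ z) {Z : Matrix (Fin n) (Fin n) A}
    (hZ : Z ∈ Fil A n z) (h : (1 + Z) ^ r = 1) : Z ∈ Fil A n (z + 1) := by
  obtain ⟨W, hW⟩ := one_add_pow Z r
  rw [h] at hW
  have h1 : r • Z = - (Z * Z * W) := by
    have h2 : r • Z + Z * Z * W = 0 := by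
      have h3 : (1 : Matrix (Fin n) (Fin n) A) + (r • Z + Z * Z * W) = 1 + 0 := by
        rw [add_zero, ← add_assoc, ← hW]
      exact add_left_cancel h3
    exact eq_neg_of_add_eq_zero_left h2
  have h2 : r • Z ∈ Fil A n (z + 1) := by
    rw [h1]
    refine Submodule.neg_mem _ (Fil_anti (b := z + z) (by omega) ?_)
    exact Fil_mul_right (Fil_mul hZ hZ) W
  obtain ⟨u, hu⟩ := isUnit_of_ne hp hr hne hpA
  intro i j
  have h3 := h2 i j
  rw [Matrix.smul_apply, nsmul_eq_mul, ← hu] at h3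
  have h4 : Z i j = (↑u⁻¹ : A) * ((u : A) * Z i j) := by
    rw [← mul_assoc, Units.inv_mul, one_mul]
  rw [h4]
  exact Ideal.mul_mem_left _ _ h3

/-- one step, order `p` -/
theorem step_eq {p e0 n z : ℕ} (hp : p.Prime) (hreg : RegOrd A p e0) (hz : 1 ≤ z)
    (hz2 : e0 < (p - 1) * z) {Z : Matrix (Fin n) (Fin n) A}
    (hZ : Z ∈ Fil A n z) (h : (1 + Z) ^ p = 1) : Z ∈ Fil A n (z + 1) := by
  have h1 := (Commute.one_left Z).add_pow_prime_eq' hp
  rw [h, one_pow] at h1
  have hp2 := hp.two_le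
  have hmem : p - 1 ∈ Finset.Ioo 0 p := by
    rw [Finset.mem_Ioo]
    omega
  rw [← Finset.add_sum_erase _ _ hmem] at h1
  have hch : p.choose (p - 1) / p = 1 := by
    rw [Nat.choose_symm_of_eq_add (show p = (p - 1) + 1 by omega), Nat.choose_one_right,
      Nat.div_self hp.pos]
  have hpp : p - (p - 1) = 1 := by omega
  rw [hch, hpp, one_pow, one_mul, pow_one, Nat.cast_one, mul_one] at h1
  set R := ∑ x ∈ (Finset.Ioo 0 p).erase (p - 1),
    (1 : Matrix (Fin n) (Fin n) A) ^ x * Z ^ (p - x) * ((p.choose x / p : ℕ) :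
      Matrix (Fin n) (Fin n) A) with hR
  have hRF : R ∈ Fil A n (z + 1) := by
    rw [hR]
    refine Submodule.sum_mem _ fun x hx => ?_
    rw [Finset.mem_erase, Finset.mem_Ioo] at hx
    refine Fil_mul_right ?_ _
    rw [one_pow, one_mul]
    obtain ⟨m, hm⟩ : ∃ m, p - x = m + 1 + 1 := ⟨p - x - 2, by omega⟩
    rw [hm]
    refine Fil_anti (b := (m + 1 + 1) * z) (by nlinarith) (Fil_pow hZ (m + 1))
  have hZp : Z ^ p ∈ Fil A n (z + e0 + 1) := by
    obtain ⟨m, hm⟩ : ∃ m, p = m + 1 := ⟨p - 1, by omega⟩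
    have h2 := Fil_pow hZ m
    rw [← hm] at h2
    refine Fil_anti (b := p * z) ?_ h2
    have h3 : p * z = z + (p - 1) * z := by
      have : p = 1 + (p - 1) := by omega
      conv_lhs => rw [this]
      ring
    omega
  have h2 : (p : Matrix (Fin n) (Fin n) A) * Z = - (Z ^ p) - (p : Matrix (Fin n) (Fin n) A) * R := by
    have h3 : (1 : Matrix (Fin n) (Fin n) A) +
        (Z ^ p + (p : Matrix (Fin n) (Fin n) A) * (Z + R)) = 1 + 0 := by
      rw [add_zero, ← add_assoc]
      exact h1.symm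
    have h4 := add_left_cancel h3
    rw [mul_add] at h4
    have h5 : Z ^ p + ((p : Matrix (Fin n) (Fin n) A) * Z + (p : Matrix (Fin n) (Fin n) A) * R) -
        (Z ^ p + (p : Matrix (Fin n) (Fin n) A) * R) =
        0 - (Z ^ p + (p : Matrix (Fin n) (Fin n) A) * R) := by rw [h4]
    have h6 : (p : Matrix (Fin n) (Fin n) A) * Z =
        Z ^ p + ((p : Matrix (Fin n) (Fin n) A) * Z + (p : Matrix (Fin n) (Fin n) A) * R) -
          (Z ^ p + (p : Matrix (Fin n) (Fin n) A) * R) := by abel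
    rw [h6, h5]
    abel
  have hent : ∀ (Y : Matrix (Fin n) (Fin n) A) (i j : Fin n),
      ((p : Matrix (Fin n) (Fin n) A) * Y) i j = (p : A) * Y i j := by
    intro Y i j
    rw [← nsmul_eq_mul, Matrix.smul_apply, nsmul_eq_mul]
  intro i j
  refine hreg.2 z (Z i j) (hZ i j) ?_
  rw [← hent, h2, Matrix.sub_apply, Matrix.neg_apply, hent]
  refine Ideal.sub_mem _ (Ideal.neg_mem_iff _ |>.2 (hZp i j)) ?_
  have h3 : z + e0 + 1 = e0 + (z + 1) := by ring
  rw [h3, pow_add]
  exact Ideal.mul_mem_mul hreg.1 (hRF i j)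

variable [IsNoetherianRing A]

theorem eq_one_of_pow {p e0 n j : ℕ} (hp : p.Prime) (hpA : (p : A) ∈ maximalIdeal A)
    (hreg : RegOrd A p e0) (hj1 : 1 ≤ j) (hj : e0 < (p - 1) * j) (m : ℕ) (hm : 0 < m)
    (X : Matrix (Fin n) (Fin n) A) (hX : X - 1 ∈ Fil A n j) (h : X ^ m = 1) : X = 1 := by
  induction m using Nat.strong_induction_on generalizing X with
  | _ m ih =>
    by_cases hm1 : m = 1
    · rw [hm1, pow_one] at h
      exact h
    obtain ⟨r, hr, d, rfl⟩ := Nat.exists_prime_and_dvd hm1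
    have hd : 0 < d := Nat.pos_of_ne_zero (by rintro rfl; simp at hm)
    -- the power
    have hXd : X ^ d - 1 ∈ Fil A n j := by
      obtain ⟨w, hw⟩ : (X - 1) ∣ X ^ d - 1 := by
        have := sub_one_dvd_pow_sub_one X d
        exact this
      rw [hw]
      exact Fil_mul_right hX w
    have hY : (X ^ d) ^ r = 1 := by rw [← pow_mul, mul_comm d r, h]
    have hall : ∀ a, X ^ d - 1 ∈ Fil A n (j + a) := by
      intro a
      induction a with
      | zero => exact hXd
      | succ a iha =>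
        have h1 : (1 + (X ^ d - 1)) ^ r = 1 := by
          rw [add_sub_cancel, hY]
        by_cases hrp : r = p
        · subst hrp
          refine step_eq (z := j + a) hr hreg (Nat.le_add_right_of_le hj1) ?_ iha h1
          exact hj.trans_le (Nat.mul_le_mul_left _ (Nat.le_add_right j a))
        · exact step_ne (z := j + a) hp hr hrp hpA (Nat.le_add_right_of_le hj1) iha h1
    have h0 : X ^ d - 1 = 0 := eq_zero_of_Fil fun a => Fil_anti (by omega) (hall a)
    refine ih d ?_ hd X hX (sub_eq_zero.1 h0)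
    have := hr.two_le
    nlinarith

end Pool.Agent.Q15.FMTors
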