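import Pool.Agent.Q15.FMScal
import Pool.Agent.Q15.FMTors
import Pool.Agent.W569.UF.CycC

/-! The main theorems. -/

set_option autoImplicit false
set_option linter.unusedSectionVars false

namespace Pool.Agent.Q15.FMMain

open NumberField IsLocalRing Pool.Agent.W569.FM Pool.Agent.W569.UF Pool.Agent.W571.FM
  Pool.Agent.Q15.FMNT Pool.Agent.Q15.FMScal Pool.Agent.Q15.FMRes

section

variable {k : Type} [Field k] [NumberField k]

theorem cm_ne_bot {P : Ideal (OO k)} (hP : P.IsMaximal) : cm P ≠ ⊥ := by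
  have : Algebra.IsIntegral (𝓞 k) (OO k) := by
    refine ⟨fun x => ?_⟩
    have h1 : IsIntegral ℤ x := by
      have h2 : IsIntegral ℤ (x : AlgebraicClosure k) := x.2
      exact (isIntegral_algHom_iff (IsScalarTower.toAlgHom ℤ (OO k) (AlgebraicClosure k))
        (FaithfulSMul.algebraMap_injective (OO k) (AlgebraicClosure k))).1 h2
    exact h1.tower_top
  have h1 : (cm P).IsMaximal := Ideal.isMaximal_comap_of_isIntegral_of_isMaximal (R := 𝓞 k) P
  exact Ring.ne_bot_of_isMaximal_of_not_isField h1 (RingOfIntegers.not_isField k)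

/-- the local conditions for a set of primes -/
def LocS (H : Subgroup (GF k)) [H.Normal] (p b c : ℕ) (γ : GF k) (S : Set (Ideal (𝓞 k))) : Prop :=
  ∀ P : Ideal (OO k), P.IsMaximal → cm P ∈ S → ∀ τ : H, InInertia P (τ : GF k) → Loc H p b c γ τ

theorem prime_ne {p : ℕ} {P : Ideal (OO k)} (hP : P.IsMaximal) (hpP : (p : OO k) ∉ P) :
    ∃ l : ℕ, l.Prime ∧ p ≠ l ∧ (l : OO k) ∈ P := by
  obtain ⟨l, hl, hlP⟩ := exists_prime_mem hP (cm_ne_bot hP)
  refine ⟨l, hl, ?_, hlP⟩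
  rintro rfl
  exact hpP hlP

/-- the local conditions in the quadratic case -/
theorem locS_quadratic {p b : ℕ} [Fact p.Prime] (H : Subgroup (GF k)) [H.Normal]
    (hHo : IsOpen (H : Set (GF k))) (hi : H.index = 2) (γ : GF k) (hγ : γ ∉ H)
    (S : Set (Ideal (𝓞 k)))
    (hS : ∀ v ∈ S, (p : 𝓞 k) ∉ v ∧ ¬ Ideal.absNorm v ≡ 1 [MOD p] ∧
      ¬ p ^ (b + 1) ∣ Ideal.absNorm v + 1) : LocS H p b (p - 1) γ S := by
  have hp : p.Prime := Fact.out
  intro P hP hPS τ hτ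
  obtain ⟨h1, h2, h3⟩ := hS _ hPS
  have hpP : (p : OO k) ∉ P := fun h => h1 (natCast_mem_cm.2 h)
  obtain ⟨l, hl, hpl, hlP⟩ := prime_ne hP hpP
  obtain ⟨σ, hσ⟩ := exists_frobAt hP (cm_ne_bot hP)
  have hq0 := absNorm_ne_zero (cm_ne_bot hP)
  set q := Ideal.absNorm (cm P) with hq
  have hq1 : 1 ≤ q := Nat.one_le_iff_ne_zero.2 hq0
  have h2' : ¬ p ∣ q - 1 := fun h => h2 ((Nat.modEq_iff_dvd' hq1).2 h).symm
  by_cases hσH : σ ∈ H
  · exact loc_of_mem hl hpl hq0 h2' H hHo γ P hP hlP σ hσH hσ τ hτ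
  · have hsq : q ^ 2 - 1 = (q + 1) * (q - 1) := by
      have := Nat.sq_sub_sq q 1
      rwa [one_pow] at this
    by_cases hq2 : p ∣ q + 1
    · have hc : (q : ZMod p) = ((p - 1 : ℕ) : ZMod p) := by
        rw [Nat.cast_sub hp.one_le, Nat.cast_one, ZMod.natCast_self, zero_sub]
        have h4 : ((q + 1 : ℕ) : ZMod p) = 0 := (ZMod.natCast_eq_zero_iff _ _).2 hq2
        push_cast at h4
        exact eq_neg_of_add_eq_zero_left h4
      refine loc_of_frob (M := 2) hl hpl hq0 H hHo γ (Subgroup.sq_mem_of_index_two hi _) ?_ hc P hP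
        hlP σ ?_ hσ τ hτ
      · rw [hsq]
        intro h
        have hco : Nat.Coprime (p ^ (b + 1)) (q - 1) :=
          Nat.Coprime.pow_left _ ((Nat.Prime.coprime_iff_not_dvd hp).2 h2')
        exact h3 (hco.dvd_of_dvd_mul_right h)
      · rw [Subgroup.mul_mem_iff_of_index_two hi, inv_mem_iff]
        tauto
    · refine loc_of_mem (q := q ^ 2) hl hpl (pow_ne_zero _ hq0) ?_ H hHo γ P hP hlP (σ ^ 2)
        (Subgroup.sq_mem_of_index_two hi _) (frobAt_pow' hσ hq0 2) τ hτ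
      rw [hsq]
      intro h
      rcases (Nat.Prime.dvd_mul hp).1 h with h | h
      · exact hq2 h
      · exact h2' h

/-- the local conditions in the cyclic case -/
theorem locS_cyclic {p b c d : ℕ} [Fact p.Prime] (H : Subgroup (GF k)) [H.Normal]
    (hHo : IsOpen (H : Set (GF k))) (γ : GF k) (hγ : γ ^ d ∈ H)
    (S : Set (Ideal (𝓞 k)))
    (hS : ∀ v ∈ S, (p : 𝓞 k) ∉ v ∧ Ideal.absNorm v ≡ c [MOD p] ∧
      ¬ p ^ (b + 1) ∣ Ideal.absNorm v ^ d - 1 ∧ ∀ P : Ideal (OO k), P.IsMaximal → cm P = v →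
        ∃ σ : GF k, FrobAt (Ideal.absNorm v) P σ ∧ γ * σ⁻¹ ∈ H) : LocS H p b c γ S := by
  intro P hP hPS τ hτ
  obtain ⟨h1, h2, h3, h4⟩ := hS _ hPS
  have hpP : (p : OO k) ∉ P := fun h => h1 (natCast_mem_cm.2 h)
  obtain ⟨l, hl, hpl, hlP⟩ := prime_ne hP hpP
  obtain ⟨σ, hσ, hσH⟩ := h4 P hP rfl
  exact loc_of_frob hl hpl (absNorm_ne_zero (cm_ne_bot hP)) H hHo γ hγ h3
    ((ZMod.natCast_eq_natCast_iff _ _ _).2 h2) P hP hlP σ hσH hσ τ hτ

variable {A : Type} [CommRing A] [IsLocalRing A] [IsNoetherianRing A] [TopologicalSpace A] {n : ℕ}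

/-- unramified outside `S` and `p`, finite images of inertia above `p` -/
def PotUr {H : Subgroup (GF k)} (p : ℕ) (S : Set (Ideal (𝓞 k))) (ρ : H →* GL (Fin n) A) : Prop :=
  ∀ P : Ideal (OO k), P.IsMaximal →
    ((p : OO k) ∈ P → (ρ '' {τ : H | InInertia P (τ : GF k)}).Finite) ∧
    ((p : OO k) ∉ P → cm P ∉ S → ∀ τ : H, InInertia P (τ : GF k) → ρ τ = 1)

theorem inertia_pow {P : Ideal (OO k)} {τ : GF k} (hτ : InInertia P τ) (m : ℕ) :
    InInertia P (τ ^ m) := by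
  induction m with
  | zero => intro x; rw [pow_zero, one_smul, sub_self]; exact P.zero_mem
  | succ m ih =>
    intro x
    rw [pow_succ, mul_smul]
    have h2 := P.add_mem (ih (τ • x)) (hτ x)
    have h3 : τ ^ m • τ • x - τ • x + (τ • x - x) = τ ^ m • τ • x - x := by ring
    rwa [h3] at h2

/-- finite order from finite image -/
theorem exists_pow_eq_one {G : Type} [Group G] {T : Set G} (hT : T.Finite) {g : G}
    (hg : ∀ m : ℕ, g ^ m ∈ T) : ∃ m : ℕ, 0 < m ∧ g ^ m = 1 := by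
  have h1 : ¬ Function.Injective (fun m : ℕ => (⟨g ^ m, hg m⟩ : T)) := by
    intro h
    have := hT.to_subtype
    exact not_injective_infinite_finite _ h
  rw [Function.Injective] at h1
  push Not at h1
  obtain ⟨a, b, hab, hne⟩ := h1
  have h2 : g ^ a = g ^ b := congrArg Subtype.val hab
  rcases lt_or_gt_of_ne hne with h | h
  · refine ⟨b - a, by omega, ?_⟩
    have h3 : g ^ a * g ^ (b - a) = g ^ a * 1 := by
      rw [← pow_add, Nat.add_sub_cancel' h.le, mul_one, h2]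
    exact mul_left_cancel h3
  · refine ⟨a - b, by omega, ?_⟩
    have h3 : g ^ b * g ^ (a - b) = g ^ b * 1 := by
      rw [← pow_add, Nat.add_sub_cancel' h.le, mul_one, h2]
    exact mul_left_cancel h3

/-- residually trivial representations -/
theorem main_res {p e c : ℕ} [Fact p.Prime] {H : Subgroup (GF k)} [H.Normal] (hi : H.index ≠ 0)
    {γ : GF k} {S : Set (Ideal (𝓞 k))} (hScal : Scal H p e c γ (UrS S))
    (hSp : ∀ v ∈ S, (p : 𝓞 k) ∉ v)
    (hA : IsAdic (maximalIdeal A)) (hfin : Finite (ResidueField A))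
    (hpA : (p : A) ∈ maximalIdeal A) {e0 : ℕ} (he0 : 1 ≤ e0) (hreg : RegOrd A p e0) {N j : ℕ}
    (hN : 1 ≤ N) (hNe : e * e0 < N * j) (hj : e0 < (p - 1) * j)
    (hc : ∀ i, 2 ≤ i → i ≤ N → ¬ c ^ i ≡ c [MOD p])
    (ρ : H →* GL (Fin n) A) (hρ : Continuous ρ) (hur : PotUr p S ρ)
    (hres : ∀ g, (ρ g : Matrix (Fin n) (Fin n) A) - 1 ∈ Fil A n j) : ∀ g, ρ g = 1 := by
  have hp : p.Prime := Fact.out
  have hj1 : 1 ≤ j := by
    rcases Nat.eq_zero_or_pos j with h | h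
    · rw [h, mul_zero] at hj
      omega
    · exact h
  refine mainR Pool.Agent.W885.UF.main Pool.Agent.W975.UF.main hp hA hfin hpA hreg hi hScal hN hNe
    hc ρ hρ ?_ hres
  rintro τ ⟨P, hP, hPS, hτ⟩
  obtain ⟨h1, h2⟩ := hur P hP
  by_cases hpP : (p : OO k) ∈ P
  · obtain ⟨m, hm, hm1⟩ := exists_pow_eq_one (h1 hpP) (g := ρ τ) (fun m => by
      refine ⟨τ ^ m, ?_, map_pow ρ τ m⟩
      show InInertia P ((τ ^ m : H) : GF k)
      rw [Subgroup.coe_pow]
      exact inertia_pow hτ m)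
    apply Units.ext
    refine Pool.Agent.Q15.FMTors.eq_one_of_pow hp hpA hreg hj1 hj m hm _ (hres τ) ?_
    rw [← Units.val_pow_eq_pow_val, hm1, Units.val_one]
  · exact h2 hpP hPS τ hτ

/-- residually unipotent representations -/
theorem main_uni {p e c : ℕ} [Fact p.Prime] {H : Subgroup (GF k)} [H.Normal] (hi : H.index ≠ 0)
    {γ : GF k} {S : Set (Ideal (𝓞 k))} (hScal : Scal H p e c γ (UrS S))
    (hA : IsAdic (maximalIdeal A)) (hfin : Finite (ResidueField A))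
    (hpA : (p : A) ∈ maximalIdeal A) {e0 : ℕ} (hreg : RegOrd A p e0) {N : ℕ}
    (hNe : n * e * e0 < N) (hc : ∀ i, 2 ≤ i → i ≤ N → ¬ c ^ i ≡ c [MOD p])
    (ρ : H →* GL (Fin n) A) (hρ : Continuous ρ)
    (hur : ∀ P : Ideal (OO k), P.IsMaximal → cm P ∉ S → ∀ τ : H, InInertia P (τ : GF k) → ρ τ = 1)
    (hres : ∀ g, ∃ M : ℕ, ∀ i j,
      (((ρ g : Matrix (Fin n) (Fin n) A) - 1) ^ M) i j ∈ maximalIdeal A) : ∀ g, ρ g = 1 :=
  mainG Pool.Agent.W885.UF.main Pool.Agent.W975.UF.main Pool.Agent.W756.UF.main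
    Pool.Agent.W880.UF2.tri Fact.out hA hfin hpA hreg hi hScal hNe hc ρ hρ
    (fun τ ⟨P, hP, hPS, hτ⟩ => hur P hP hPS τ hτ) hres

end

/-- the exponents -/
theorem pow_ne {p c d : ℕ} [Fact p.Prime] (hd : 0 < d) (ho : orderOf (c : ZMod p) = d) :
    ∀ i, 2 ≤ i → i ≤ d → ¬ c ^ i ≡ c [MOD p] := by
  intro i h2 hi h
  have h1 := (ZMod.natCast_eq_natCast_iff _ _ _).2 h
  rw [Nat.cast_pow] at h1
  have hc0 : (c : ZMod p) ≠ 0 := by
    intro h0
    rw [h0, orderOf_eq_zero_iff'.2] at ho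
    · omega
    · intro m hm
      rw [zero_pow hm.ne']
      exact zero_ne_one
  have h3 : (c : ZMod p) ^ (i - 1) = 1 := by
    have h4 : (c : ZMod p) ^ (i - 1) * c = 1 * c := by
      rw [← pow_succ, Nat.sub_add_cancel (by omega), h1, one_mul]
    exact mul_right_cancel₀ hc0 h4
  have h5 := Nat.le_of_dvd (by omega) (orderOf_dvd_of_pow_eq_one h3)
  omega

theorem not_dvd {p c d : ℕ} [Fact p.Prime] (hd : 0 < d) (ho : orderOf (c : ZMod p) = d) :
    ¬ p ∣ d := by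
  have hp : p.Prime := Fact.out
  have hc0 : (c : ZMod p) ≠ 0 := by
    intro h0
    rw [h0, orderOf_eq_zero_iff'.2] at ho
    · omega
    · intro m hm
      rw [zero_pow hm.ne']
      exact zero_ne_one
  have h1 : d ∣ p - 1 := by
    rw [← ho]
    exact orderOf_dvd_of_pow_eq_one (ZMod.pow_card_sub_one_eq_one hc0)
  intro h
  have h2 := Nat.le_of_dvd (by have := hp.two_le; omega) (h.trans h1)
  have := hp.two_le
  omega

end Pool.Agent.Q15.FMMain
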