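import Pool.Agent.Q15.FMRankA
import Pool.Agent.Q15.FMMain
import Pool.Agent.W258.FM.TameFin
import Pool.Agent.W327.FM.TameAbs

/-! Number fields and two primes. -/

set_option autoImplicit false
set_option linter.unusedSectionVars false

namespace Pool.Agent.Q15.FMRankB

open NumberField IsLocalRing Pool.Agent.W569.FM Pool.Agent.W569.UF Pool.Agent.W571.FM
  Pool.Agent.Q15.FMNT Pool.Agent.Q15.FMScal Pool.Agent.Q15.FMRes Pool.Agent.Q15.FMMain

section group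

variable {G : Type} [Group G] [TopologicalSpace G] [IsTopologicalGroup G]

/-- homomorphisms to `ℤ/p`, trivial on `Ur`, with open kernel -/
def Ch (p : ℕ) (Ur : Set G) (f : G →* Multiplicative (ZMod p)) : Prop :=
  IsOpen (f.ker : Set G) ∧ ∀ τ ∈ Ur, f τ = 1

/-- any three characters are dependent -/
def Dep (p : ℕ) (Ur : Set G) : Prop :=
  ∀ f₁ f₂ f₃ : G →* Multiplicative (ZMod p), Ch p Ur f₁ → Ch p Ur f₂ → Ch p Ur f₃ →
    ∃ a b c : ℕ, ¬ (p ∣ a ∧ p ∣ b ∧ p ∣ c) ∧ ∀ g, f₁ g ^ a * f₂ g ^ b * f₃ g ^ c = 1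

theorem dvd_of_pow {p : ℕ} [Fact p.Prime] {x : Multiplicative (ZMod p)} (hx : x ≠ 1) {a : ℕ}
    (h : x ^ a = 1) : p ∣ a := by
  have h1 := congrArg Multiplicative.toAdd h
  rw [toAdd_pow, nsmul_eq_mul, toAdd_one] at h1
  rcases mul_eq_zero.1 h1 with h2 | h2
  · exact (ZMod.natCast_eq_zero_iff _ _).1 h2
  · exact absurd (Multiplicative.toAdd.injective (h2.trans toAdd_one.symm)) hx

/-- two elements which detect the characters -/
theorem exists_gen {p : ℕ} [Fact p.Prime] {Ur : Set G} (h : Dep p Ur) :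
    ∃ g₁ g₂ : G, ∀ f : G →* Multiplicative (ZMod p), IsOpen (f.ker : Set G) →
      (∀ τ ∈ Ur, f τ = 1) → f g₁ = 1 → f g₂ = 1 → ∀ g, f g = 1 := by
  by_cases h1 : ∀ f : G →* Multiplicative (ZMod p), Ch p Ur f → ∀ g, f g = 1
  · exact ⟨1, 1, fun f h2 h3 _ _ => h1 f ⟨h2, h3⟩⟩
  push Not at h1
  obtain ⟨f₁, hf₁, g₁, hg₁⟩ := h1
  by_cases h2 : ∀ f : G →* Multiplicative (ZMod p), Ch p Ur f → f g₁ = 1 → ∀ g, f g = 1
  · exact ⟨g₁, 1, fun f h3 h4 h5 _ => h2 f ⟨h3, h4⟩ h5⟩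
  push Not at h2
  obtain ⟨f₂, hf₂, hf₂1, g₂, hg₂⟩ := h2
  refine ⟨g₁, g₂, fun f h3 h4 h5 h6 g => ?_⟩
  obtain ⟨a, b, c, hne, habc⟩ := h f₁ f₂ f hf₁ hf₂ ⟨h3, h4⟩
  have ha : p ∣ a := by
    have h7 := habc g₁
    rw [hf₂1, h5, one_pow, one_pow, mul_one, mul_one] at h7
    exact dvd_of_pow hg₁ h7
  have hpow : ∀ (x : Multiplicative (ZMod p)) (a : ℕ), p ∣ a → x ^ a = 1 := by
    rintro x a ⟨m, rfl⟩
    apply Multiplicative.toAdd.injective
    rw [toAdd_pow, nsmul_eq_mul, Nat.cast_mul, ZMod.natCast_self, zero_mul, zero_mul, toAdd_one]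
  have hb : p ∣ b := by
    have h7 := habc g₂
    rw [hpow _ a ha, h6, one_pow, one_mul, mul_one] at h7
    exact dvd_of_pow hg₂ h7
  have h8 := habc g
  rw [hpow _ a ha, hpow _ b hb, one_mul, one_mul] at h8
  by_contra h9
  exact hne ⟨ha, hb, dvd_of_pow h9 h8⟩

end group

section

variable {k : Type} [Field k] [NumberField k]

/-- tame relation for abelian groups -/
theorem tame_abel {p : ℕ} [Fact p.Prime] {E : Type} [CommGroup E] (hE : IsPGroup p E)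
    (f : GF k →* E) (hf : IsOpen (f.ker : Set (GF k))) {P : Ideal (OO k)} (hP : P.IsMaximal)
    (hpP : (p : OO k) ∉ P) {τ : GF k} (hτ : InInertia P τ) :
    f τ ^ (Ideal.absNorm (cm P) - 1) = 1 := by
  have hp : p.Prime := Fact.out
  obtain ⟨l, hl, hpl, hlP⟩ := prime_ne hP hpP
  obtain ⟨σ, hσ⟩ := exists_frobAt hP (cm_ne_bot hP)
  have hq0 := absNorm_ne_zero (cm_ne_bot hP)
  set q := Ideal.absNorm (cm P) with hq
  have h1 := tame k hp hl hpl hq0 ⊤ isOpen_univ E hE (f.comp (⊤ : Subgroup (GF k)).subtype)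
    (hf.preimage continuous_subtype_val) P hP hlP ⟨τ, trivial⟩ σ hτ hσ
  have h2 : f (σ * τ * σ⁻¹) = f τ ^ q := h1
  rw [map_mul, map_mul, map_inv, mul_comm (f σ), mul_inv_cancel_right] at h2
  have h4 : f τ ^ (q - 1) * f τ = 1 * f τ := by
    rw [← pow_succ, Nat.sub_add_cancel (Nat.one_le_iff_ne_zero.2 hq0), ← h2, one_mul]
  exact mul_right_cancel h4

theorem pow_eq_one {p : ℕ} [Fact p.Prime] {E : Type} [CommGroup E] (hE : IsPGroup p E) {x : E}
    {m e : ℕ} (hm : ¬ p ^ (e + 1) ∣ m) (hx : x ^ m = 1) : x ^ p ^ e = 1 := by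
  have hp : p.Prime := Fact.out
  obtain ⟨n, hn⟩ := hE x
  obtain ⟨t, -, ht⟩ := (Nat.dvd_prime_pow hp).1 (orderOf_dvd_of_pow_eq_one hn)
  have h1 := orderOf_dvd_of_pow_eq_one hx
  rw [ht] at h1
  have h2 : t ≤ e := by
    by_contra h
    exact hm ((pow_dvd_pow p (by omega)).trans h1)
  rw [← orderOf_dvd_iff_pow_eq_one, ht]
  exact pow_dvd_pow p h2

/-- cyclic images of the tame inertia groups -/
theorem tame_gen {p : ℕ} [Fact p.Prime] {E : Type} [Group E] (hE : IsPGroup p E)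
    (f : GF k →* E) (hf : IsOpen (f.ker : Set (GF k))) {P : Ideal (OO k)} (hP : P.IsMaximal)
    (hpP : (p : OO k) ∉ P) :
    ∃ τ₀ : GF k, InInertia P τ₀ ∧ ∀ τ : GF k, InInertia P τ → f τ ∈ Subgroup.zpowers (f τ₀) := by
  have hp : p.Prime := Fact.out
  obtain ⟨l, hl, hpl, hlP⟩ := prime_ne hP hpP
  refine (Pool.Agent.W327.FM.gen k p l hl.ne_zero ?_ E hE f hf P hP hlP).2
  intro L _ _ _ _ hG P hP h0 hlP
  have hmax : P.IsMaximal := hP.isMaximal h0
  have : FiniteDimensional k L := Module.Finite.of_restrictScalars_finite ℚ k L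
  obtain ⟨t, ht⟩ := (IsPGroup.iff_card (p := p) (G := Gal(L/k))).1 hG
  have hN : ((p ^ t : ℕ) : 𝓞 L) ∉ P := by
    intro h
    push_cast at h
    have hpP : (p : 𝓞 L) ∈ P := hP.mem_of_pow_mem t h
    have hco : Nat.Coprime p l := (Nat.coprime_primes hp hl).2 hpl
    have hb := Nat.gcd_eq_gcd_ab p l
    rw [hco] at hb
    apply hmax.ne_top
    rw [Ideal.eq_top_iff_one]
    have e : (1 : 𝓞 L) = (p : 𝓞 L) * ((p.gcdA l : ℤ) : 𝓞 L) + (l : 𝓞 L) * ((p.gcdB l : ℤ) : 𝓞 L) := by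
      have := congrArg (fun z : ℤ => (z : 𝓞 L)) hb
      push_cast at this
      exact this
    rw [e]
    exact Ideal.add_mem _ (Ideal.mul_mem_right _ _ hpP) (Ideal.mul_mem_right _ _ hlP)
  have hGN : ∀ g : Gal(L/k), g ^ (p ^ t) = 1 := by
    intro g
    rw [← ht]
    exact pow_card_eq_one'
  have : FaithfulSMul Gal(L/k) (𝓞 L) := by
    refine ⟨?_⟩
    intro a b hab
    ext x
    obtain ⟨y, z, hz, rfl⟩ := IsFractionRing.div_surjective (A := 𝓞 L) x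
    have ey : a (algebraMap (𝓞 L) L y) = b (algebraMap (𝓞 L) L y) :=
      congrArg (algebraMap (𝓞 L) L) (hab y)
    have ez : a (algebraMap (𝓞 L) L z) = b (algebraMap (𝓞 L) L z) :=
      congrArg (algebraMap (𝓞 L) L) (hab z)
    rw [map_div₀, map_div₀, ey, ez]
  refine ⟨?_, ?_⟩
  · intro τ hτ σ hσ
    exact Pool.Agent.W258.FM.tame_rel hmax h0 hN hGN hl.ne_zero hτ hσ
  · exact Pool.Agent.W258.FM.tame_cyclic hmax h0 hN hGN

/-- there is no unramified character -/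
def NoUnr (k : Type) [Field k] [NumberField k] (p : ℕ) : Prop :=
  ∀ f : GF k →* Multiplicative (ZMod p), IsOpen (f.ker : Set (GF k)) →
    (∀ P : Ideal (OO k), P.IsMaximal → ∀ τ : GF k, InInertia P τ → f τ = 1) → ∀ g, f g = 1

theorem noUnr_group {p : ℕ} [Fact p.Prime] (hk : NoUnr k p) (E : Type) [CommGroup E] [Finite E]
    (hE : IsPGroup p E) (f : GF k →* E) (hf : IsOpen (f.ker : Set (GF k)))
    (hu : ∀ P : Ideal (OO k), P.IsMaximal → ∀ τ : GF k, InInertia P τ → f τ = 1) :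
    ∀ g, f g = 1 := by
  intro g
  by_contra hg
  obtain ⟨χ, y, hy⟩ := exists_char Fact.out f.range (hE.to_subgroup f.range)
    ⟨f g, g, rfl⟩ (fun h => hg (congrArg Subtype.val h))
  obtain ⟨_, z, rfl⟩ := y
  apply hy
  refine hk (χ.comp f.rangeRestrict) ?_ ?_ z
  · refine Subgroup.isOpen_mono (H₁ := f.ker) ?_ hf
    intro x hx
    have h1 : f.rangeRestrict x = 1 := Subtype.ext hx
    rw [MonoidHom.mem_ker, MonoidHom.comp_apply, h1, map_one]
  · intro P hP τ hτ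
    have h1 : f.rangeRestrict τ = 1 := Subtype.ext (hu P hP τ hτ)
    rw [MonoidHom.comp_apply, h1, map_one]

/-- the condition on the set `S` -/
structure TwoPrimes (p e : ℕ) (v₁ v₂ : Ideal (𝓞 k)) (S : Set (Ideal (𝓞 k))) : Prop where
  tame : ∀ v ∈ S, (p : 𝓞 k) ∉ v
  exp : ∀ v ∈ S, ¬ p ^ (e + 1) ∣ Ideal.absNorm v - 1
  two : ∀ v ∈ S, v ≠ v₁ → v ≠ v₂ → ¬ p ∣ Ideal.absNorm v - 1

theorem exp_of_two {p e : ℕ} [Fact p.Prime] {v₁ v₂ : Ideal (𝓞 k)} {S : Set (Ideal (𝓞 k))}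
    (hk : NoUnr k p) (hS : TwoPrimes p e v₁ v₂ S) :
    ∀ (E : Type) [CommGroup E] [Finite E], IsPGroup p E → ∀ f : GF k →* E,
      IsOpen (f.ker : Set (GF k)) → (∀ τ ∈ UrS S, f τ = 1) → ∀ g, f g ^ p ^ e = 1 := by
  intro E _ _ hE f hf hu g
  have h1 := noUnr_group hk E hE ((powMonoidHom (p ^ e)).comp f) ?_ ?_ g
  · exact h1
  · apply Subgroup.isOpen_mono (H₁ := f.ker) _ hf
    intro x hx
    have h2 : f x = 1 := hx
    show f x ^ p ^ e = 1
    rw [h2, one_pow]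
  · intro P hP τ hτ
    show f τ ^ p ^ e = 1
    by_cases hPS : cm P ∈ S
    · have hpP : (p : OO k) ∉ P := fun h => hS.tame _ hPS (natCast_mem_cm.2 h)
      exact pow_eq_one hE (hS.exp _ hPS) (tame_abel hE f hf hP hpP hτ)
    · rw [hu τ ⟨P, hP, hPS, hτ⟩, one_pow]

theorem linear_algebra {p : ℕ} [Fact p.Prime] (x y : Fin 3 → ZMod p) :
    ∃ a b c : ℕ, ¬ (p ∣ a ∧ p ∣ b ∧ p ∣ c) ∧ a * x 0 + b * x 1 + c * x 2 = 0 ∧
      a * y 0 + b * y 1 + c * y 2 = 0 := by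
  let F : (Fin 3 → ZMod p) →ₗ[ZMod p] (Fin 2 → ZMod p) :=
    Matrix.mulVecLin !![x 0, x 1, x 2; y 0, y 1, y 2]
  have h1 : LinearMap.ker F ≠ ⊥ := by
    apply LinearMap.ker_ne_bot_of_finrank_lt
    simp
  obtain ⟨v, hv, hv0⟩ := (Submodule.ne_bot_iff _).1 h1
  have h2 := congrFun (LinearMap.mem_ker.1 hv) 0
  have h3 := congrFun (LinearMap.mem_ker.1 hv) 1
  simp [F, Matrix.mulVec, dotProduct, Fin.sum_univ_three] at h2 h3
  refine ⟨(v 0).val, (v 1).val, (v 2).val, ?_, ?_, ?_⟩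
  · rintro ⟨ha, hb, hc⟩
    apply hv0
    have h4 : ∀ i, p ∣ (v i).val → v i = 0 := by
      intro i hi
      rw [← ZMod.natCast_zmod_val (v i)]
      exact (ZMod.natCast_eq_zero_iff _ _).2 hi
    funext i
    fin_cases i
    · exact h4 0 ha
    · exact h4 1 hb
    · exact h4 2 hc
  · rw [ZMod.natCast_zmod_val, ZMod.natCast_zmod_val, ZMod.natCast_zmod_val]
    linear_combination h2
  · rw [ZMod.natCast_zmod_val, ZMod.natCast_zmod_val, ZMod.natCast_zmod_val]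
    linear_combination h3

theorem dep_of_two {p e : ℕ} [Fact p.Prime] {v₁ v₂ : Ideal (𝓞 k)} {S : Set (Ideal (𝓞 k))}
    (hk : NoUnr k p) (hS : TwoPrimes p e v₁ v₂ S) : Dep p (UrS S) := by
  intro f₁ f₂ f₃ hf₁ hf₂ hf₃
  let E := Fin 3 → Multiplicative (ZMod p)
  have hE : IsPGroup p E := by
    intro x
    refine ⟨1, ?_⟩
    funext i
    apply Multiplicative.toAdd.injective
    rw [pow_one]
    show Multiplicative.toAdd (x i ^ p) = _
    rw [toAdd_pow, nsmul_eq_mul, ZMod.natCast_self, zero_mul]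
    rfl
  let F : GF k →* E := MonoidHom.pi ![f₁, f₂, f₃]
  have hF0 : ∀ g, F g 0 = f₁ g := fun g => rfl
  have hF1 : ∀ g, F g 1 = f₂ g := fun g => rfl
  have hF2 : ∀ g, F g 2 = f₃ g := fun g => rfl
  have hFo : IsOpen (F.ker : Set (GF k)) := by
    have h1 : (F.ker : Set (GF k)) = (f₁.ker : Set (GF k)) ∩ (f₂.ker : Set (GF k)) ∩
        (f₃.ker : Set (GF k)) := by
      ext g
      constructor
      · intro hg
        have h2 : F g = 1 := hg
        exact ⟨⟨congrFun h2 0, congrFun h2 1⟩, congrFun h2 2⟩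
      · rintro ⟨⟨h1, h2⟩, h3⟩
        show F g = 1
        funext i
        fin_cases i
        · exact h1
        · exact h2
        · exact h3
    rw [h1]
    exact (hf₁.1.inter hf₂.1).inter hf₃.1
  -- generators of the inertia images
  have hgen : ∀ v : Ideal (𝓞 k), ∃ t : E, (p : 𝓞 k) ∉ v →
      ∀ P : Ideal (OO k), P.IsMaximal → cm P = v → ∀ τ : GF k, InInertia P τ →
        F τ ∈ Subgroup.zpowers t := by
    intro v
    by_cases h1 : ∃ P : Ideal (OO k), P.IsMaximal ∧ cm P = v ∧ (p : 𝓞 k) ∉ v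
    · obtain ⟨P, hP, hPv, hpv⟩ := h1
      have hpP : (p : OO k) ∉ P := fun h => hpv (hPv ▸ natCast_mem_cm.2 h)
      obtain ⟨τ₀, -, h2⟩ := tame_gen hE F hFo hP hpP
      refine ⟨F τ₀, fun _ Q hQ hQv τ hτ => ?_⟩
      obtain ⟨g, hg⟩ := exists_smul (K := k) Q P hQ.isPrime hP.isPrime (hQv.trans hPv.symm)
      have h3 : InInertia P (g * τ * g⁻¹) := by
        intro x
        rw [hg, smul_sub, smul_smul]
        have h5 : g⁻¹ * (g * τ * g⁻¹) = τ * g⁻¹ := by group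
        rw [h5, ← smul_smul]
        exact hτ _
      have h4 := h2 _ h3
      rw [map_mul, map_mul, map_inv, mul_comm (F g), mul_inv_cancel_right] at h4
      exact h4
    · refine ⟨1, fun hpv P hP hPv => ?_⟩
      exact absurd ⟨P, hP, hPv, hpv⟩ h1
  obtain ⟨t₁, ht₁⟩ := hgen v₁
  obtain ⟨t₂, ht₂⟩ := hgen v₂
  obtain ⟨a, b, c, hne, hx, hy⟩ := linear_algebra (p := p)
    (fun i => Multiplicative.toAdd (t₁ i)) (fun i => Multiplicative.toAdd (t₂ i))
  refine ⟨a, b, c, hne, ?_⟩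
  -- the combination
  let χ : GF k →* Multiplicative (ZMod p) :=
    ((powMonoidHom a).comp f₁) * ((powMonoidHom b).comp f₂) * ((powMonoidHom c).comp f₃)
  have hχ : ∀ g, χ g = f₁ g ^ a * f₂ g ^ b * f₃ g ^ c := fun g => rfl
  intro g
  rw [← hχ]
  have hχo : IsOpen (χ.ker : Set (GF k)) := by
    refine Subgroup.isOpen_mono (H₁ := F.ker) ?_ hFo
    intro x hx
    have h1 : F x = 1 := hx
    rw [MonoidHom.mem_ker, hχ, ← hF0, ← hF1, ← hF2, h1, Pi.one_apply, Pi.one_apply, Pi.one_apply,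
      one_pow, one_pow, one_pow, one_mul, one_mul]
  refine hk χ hχo ?_ g
  have key : ∀ (t : E), (a : ZMod p) * Multiplicative.toAdd (t 0) + b * Multiplicative.toAdd (t 1) +
      c * Multiplicative.toAdd (t 2) = 0 → ∀ τ : GF k, F τ ∈ Subgroup.zpowers t → χ τ = 1 := by
    intro t ht τ hτ
    obtain ⟨m, hm⟩ := Subgroup.mem_zpowers_iff.1 hτ
    rw [hχ, ← hF0, ← hF1, ← hF2, ← hm]
    show (t 0 ^ m) ^ a * (t 1 ^ m) ^ b * (t 2 ^ m) ^ c = 1
    have h1 : t 0 ^ a * t 1 ^ b * t 2 ^ c = 1 := by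
      apply Multiplicative.toAdd.injective
      rw [toAdd_mul, toAdd_mul, toAdd_pow, toAdd_pow, toAdd_pow, nsmul_eq_mul, nsmul_eq_mul,
        nsmul_eq_mul, ht, toAdd_one]
    have h2 : ∀ (x : Multiplicative (ZMod p)) (a : ℕ), (x ^ m) ^ a = (x ^ a) ^ m := by
      intro x a
      rw [← zpow_natCast, ← zpow_natCast, ← zpow_mul, ← zpow_mul, mul_comm]
    rw [h2, h2, h2, ← mul_zpow, ← mul_zpow, h1, one_zpow]
  intro P hP τ hτ
  by_cases hPS : cm P ∈ S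
  · have hpv := hS.tame _ hPS
    have hpP : (p : OO k) ∉ P := fun h => hpv (natCast_mem_cm.2 h)
    by_cases h1 : cm P = v₁
    · exact key t₁ hx τ (ht₁ (h1 ▸ hpv) P hP h1 τ hτ)
    by_cases h2 : cm P = v₂
    · exact key t₂ hy τ (ht₂ (h2 ▸ hpv) P hP h2 τ hτ)
    have h3 := pow_eq_one (e := 0) (pgroup_zmod p) (by
      rw [zero_add, pow_one]
      exact hS.two _ hPS h1 h2) (tame_abel (pgroup_zmod p) χ hχo hP hpP hτ)
    rwa [pow_zero, pow_one] at h3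
  · rw [hχ, hf₁.2 τ ⟨P, hP, hPS, hτ⟩, hf₂.2 τ ⟨P, hP, hPS, hτ⟩, hf₃.2 τ ⟨P, hP, hPS, hτ⟩,
      one_pow, one_pow, one_pow, one_mul, one_mul]

end

end Pool.Agent.Q15.FMRankB
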