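import Pool.Agent.Q15.FM2B
import Pool.Agent.Q15.FMRankB

/-! Two-dimensional representations of number fields. -/

set_option autoImplicit false
set_option linter.unusedSectionVars false

namespace Pool.Agent.Q15.FM2C

open NumberField Matrix IsLocalRing Pool.Agent.W569.FM Pool.Agent.W569.UF Pool.Agent.W571.FM
  Pool.Agent.TH831.OE Pool.Agent.Q15.FMNT Pool.Agent.Q15.FMScal Pool.Agent.Q15.FMRankB
  Pool.Agent.Q15.FMMain Pool.Agent.Q15.FM2A Pool.Agent.Q15.FM2B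

variable {k : Type} [Field k] [NumberField k]

section quot
variable {O κ : Type} [CommRing O] [IsDomain O] [Field κ] {B : Bas O κ}

/-- equality can be tested in finite `p`-groups -/
theorem test {p : ℕ} (hp : p.Prime) (hpπ : B.π ∣ (p : O)) (ρ : GF k →* GL (Fin 2) O)
    (hρ : Cts B ρ) (hres : ResU B ρ) (x y : GF k)
    (h : ∀ (E : Type) [Group E] [Finite E], IsPGroup p E → ∀ f : GF k →* E,
      IsOpen (f.ker : Set (GF k)) → f x = f y) : ρ x = ρ y := by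
  apply Units.ext
  ext i j
  rw [← sub_eq_zero]
  by_contra hne
  obtain ⟨N, hN⟩ := B.fin _ hne
  apply hN
  rw [← Ideal.mem_span_singleton, ← Ideal.Quotient.eq]
  set I : Ideal O := Ideal.span {B.π ^ (N + 1)} with hI
  let φ : GL (Fin 2) O →* GL (Fin 2) (O ⧸ I) :=
    Matrix.GeneralLinearGroup.map (Ideal.Quotient.mk I)
  have hφ : ∀ (M : GL (Fin 2) O) (i j : Fin 2), ((φ M : GL (Fin 2) (O ⧸ I)) :
      Matrix (Fin 2) (Fin 2) (O ⧸ I)) i j =
        Ideal.Quotient.mk I ((M : Matrix (Fin 2) (Fin 2) O) i j) := fun M i j => rfl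
  let f : GF k →* GL (Fin 2) (O ⧸ I) := φ.comp ρ
  have hone : ∀ M : GL (Fin 2) O, Cong B (N + 1) (M : Matrix (Fin 2) (Fin 2) O) → φ M = 1 := by
    rintro M ⟨β, hβ⟩
    apply Units.ext
    ext i j
    rw [hφ, hβ, Matrix.add_apply, Matrix.smul_apply, smul_eq_mul, map_add, map_mul]
    have h0 : Ideal.Quotient.mk I (B.π ^ (N + 1)) = 0 := by
      rw [Ideal.Quotient.eq_zero_iff_mem, hI]
      exact Ideal.mem_span_singleton_self _
    rw [h0, zero_mul, add_zero, Units.val_one]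
    by_cases hij : i = j
    · subst hij
      rw [Matrix.one_apply_eq, Matrix.one_apply_eq, map_one]
    · rw [Matrix.one_apply_ne hij, Matrix.one_apply_ne hij, map_zero]
  have hfo : IsOpen (f.rangeRestrict.ker : Set (GF k)) := by
    apply Subgroup.isOpen_of_mem_nhds _ (g := (1 : GF k))
    filter_upwards [hρ (N + 1)] with g hg
    show f.rangeRestrict g = 1
    apply Subtype.ext
    exact hone _ hg
  have hE : IsPGroup p f.range := by
    rintro ⟨_, g, rfl⟩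
    obtain ⟨N0, β, hβ⟩ := hres g
    refine ⟨N0 + (N + 1), ?_⟩
    apply Subtype.ext
    show (f g) ^ (p ^ (N0 + (N + 1))) = 1
    rw [← map_pow]
    show φ (ρ (g ^ p ^ (N0 + (N + 1)))) = 1
    apply hone
    rw [map_pow, Units.val_pow_eq_pow_val, pow_add, pow_mul]
    obtain ⟨γ, hγ⟩ := cong_iter hpπ (cong_one_of_nilp hp hpπ hβ) (N + 1)
    refine ⟨B.π • γ, ?_⟩
    rw [hγ, smul_smul, ← pow_succ]
  have hfin : Finite f.range := by
    have h1 : Finite (GF k ⧸ f.rangeRestrict.ker) := Subgroup.quotient_finite_of_isOpen _ hfo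
    exact Finite.of_equiv _
      (QuotientGroup.quotientKerEquivOfSurjective _ f.rangeRestrict_surjective).toEquiv
  have h1 := congrArg Subtype.val (h f.range hE f.rangeRestrict hfo)
  exact congrArg (fun M : GL (Fin 2) (O ⧸ I) =>
    (M : Matrix (Fin 2) (Fin 2) (O ⧸ I)) i j) h1

/-- **the tame relation** -/
theorem exact_rel {p : ℕ} (hp : p.Prime) (hpπ : B.π ∣ (p : O)) (ρ : GF k →* GL (Fin 2) O)
    (hρ : Cts B ρ) (hres : ResU B ρ) {P : Ideal (OO k)} (hP : P.IsMaximal)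
    (hpP : (p : OO k) ∉ P) {τ σ : GF k}
    (hτ : InInertia P τ) (hσ : FrobAt (Ideal.absNorm (cm P)) P σ) :
    mt (ρ σ) * mt (ρ τ) = mt (ρ τ) ^ (Ideal.absNorm (cm P)) * mt (ρ σ) := by
  obtain ⟨l, hl, hpl, hlP⟩ := prime_ne hP hpP
  have hq0 := absNorm_ne_zero (cm_ne_bot hP)
  set q := Ideal.absNorm (cm P) with hq
  have key : ρ (σ * τ * σ⁻¹) = ρ (τ ^ q) := by
    refine test hp hpπ ρ hρ hres _ _ fun E _ _ hE f hf => ?_
    have h1 := tame k hp hl hpl hq0 ⊤ isOpen_univ E hE (f.comp (⊤ : Subgroup (GF k)).subtype)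
      (hf.preimage continuous_subtype_val) P hP hlP ⟨τ, trivial⟩ σ hτ hσ
    rw [map_pow]
    exact h1
  have h5 : ρ σ * ρ τ = ρ τ ^ q * ρ σ := by
    rw [map_mul, map_mul, map_inv, map_pow] at key
    rw [← key, inv_mul_cancel_right]
  have := congrArg (fun M : GL (Fin 2) O => mt M) h5
  simpa using this

/-- primes with norm not congruent to one are unramified -/
theorem triv_of_not_dvd {p : ℕ} (hp : p.Prime) (hpπ : B.π ∣ (p : O)) (ρ : GF k →* GL (Fin 2) O)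
    (hρ : Cts B ρ) (hres : ResU B ρ) {P : Ideal (OO k)} (hP : P.IsMaximal)
    (hpP : (p : OO k) ∉ P) {τ : GF k} (hτ : InInertia P τ)
    (hd : ¬ p ∣ Ideal.absNorm (cm P) - 1) : ρ τ = 1 := by
  obtain ⟨l, hl, hpl, hlP⟩ := prime_ne hP hpP
  obtain ⟨σ, hσ⟩ := exists_frobAt hP (cm_ne_bot hP)
  have hq0 := absNorm_ne_zero (cm_ne_bot hP)
  set q := Ideal.absNorm (cm P) with hq
  rw [← map_one ρ]
  refine test hp hpπ ρ hρ hres _ _ fun E _ _ hE f hf => ?_
  have h1 := tame k hp hl hpl hq0 ⊤ isOpen_univ E hE (f.comp (⊤ : Subgroup (GF k)).subtype)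
    (hf.preimage continuous_subtype_val) P hP hlP ⟨τ, trivial⟩ σ hτ hσ
  have h2 : f (σ * τ * σ⁻¹) = f τ ^ q := h1
  rw [map_mul, map_mul, map_inv] at h2
  have h3 : ∀ n : ℕ, f σ ^ n * f τ * (f σ ^ n)⁻¹ = f τ ^ q ^ n := by
    intro n
    induction n with
    | zero => simp
    | succ n ih =>
      have e : f σ ^ (n + 1) * f τ * (f σ ^ (n + 1))⁻¹ =
          f σ * (f σ ^ n * f τ * (f σ ^ n)⁻¹) * (f σ)⁻¹ := by
        rw [pow_succ']
        group
      rw [e, ih, ← conj_pow, h2, ← pow_mul, ← pow_succ']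
  obtain ⟨n, hn⟩ := hE (f σ)
  have h4 := h3 (p ^ n)
  rw [hn, inv_one, mul_one, one_mul] at h4
  rw [map_one]
  have h5 : f τ ^ (q ^ p ^ n - 1) = 1 := by
    have h6 : 1 ≤ q ^ p ^ n := Nat.one_le_iff_ne_zero.2 (pow_ne_zero _ hq0)
    have h7 : f τ ^ (q ^ p ^ n - 1) * f τ = 1 * f τ := by
      rw [← pow_succ, Nat.sub_add_cancel h6, ← h4, one_mul]
    exact mul_right_cancel h7
  obtain ⟨t, ht⟩ := hE (f τ)
  have h6 : Nat.Coprime (q ^ p ^ n - 1) (p ^ t) := by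
    apply Nat.Coprime.pow_right
    apply Nat.Coprime.symm
    rw [Nat.Prime.coprime_iff_not_dvd hp]
    intro h7
    apply hd
    have : Fact p.Prime := ⟨hp⟩
    have h8 : 1 ≤ q ^ p ^ n := Nat.one_le_iff_ne_zero.2 (pow_ne_zero _ hq0)
    rw [← ZMod.natCast_eq_zero_iff] at h7 ⊢
    rw [Nat.cast_sub h8, Nat.cast_pow, ZMod.pow_card_pow] at h7
    rw [Nat.cast_sub (Nat.one_le_iff_ne_zero.2 hq0)]
    exact h7
  have h7 : orderOf (f τ) ∣ 1 := by
    rw [← h6]
    exact Nat.dvd_gcd (orderOf_dvd_of_pow_eq_one h5) (orderOf_dvd_of_pow_eq_one ht)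
  exact orderOf_eq_one_iff.1 (Nat.dvd_one.1 h7)

theorem one_add_pow {R : Type} [CommRing R] {N : Matrix (Fin 2) (Fin 2) R} (h : N * N = 0)
    (l : ℕ) : (1 + N) ^ l = 1 + (l : R) • N := by
  induction l with
  | zero => simp
  | succ l ih =>
    rw [pow_succ, ih]
    simp only [mul_add, add_mul, mul_one, one_mul, Matrix.smul_mul, h, smul_zero, add_zero]
    rw [Nat.cast_succ, add_smul, one_smul]
    abel

theorem rel_of_sq {M P : Matrix (Fin 2) (Fin 2) O} {l : ℕ} (hsq : (M - 1) * (M - 1) = 0)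
    (h : P * M = M ^ l * P) : P * (M - 1) = (l : O) • ((M - 1) * P) := by
  set N := M - 1 with hN
  have h5 : M = 1 + N := by rw [hN]; abel
  rw [h5, one_add_pow hsq, mul_add, add_mul, mul_one, one_mul, add_right_inj,
    Matrix.smul_mul] at h
  exact h

theorem sq_zero_of_nil {R : Type} [CommRing R] [IsDomain R] {N : Matrix (Fin 2) (Fin 2) R}
    (h : IsNilpotent N) : N.trace = 0 ∧ N.det = 0 := by
  have h1 : N.trace = 0 := (Matrix.isNilpotent_trace_of_isNilpotent h).eq_zero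
  refine ⟨h1, ?_⟩
  obtain ⟨k, hk⟩ := h
  have h3 := congrArg Matrix.det hk
  rw [Matrix.det_pow] at h3
  rw [Matrix.det_zero] at h3
  have hk0 : k ≠ 0 := by
    rintro rfl
    rw [pow_zero] at h3
    exact one_ne_zero h3
  exact (pow_eq_zero_iff hk0).1 h3

theorem resU_q {G : Type} [Group G] {ρ : G →* GL (Fin 2) O} (h : ResU B ρ) (g : G) :
    B.q (mt (ρ g)).trace = 2 ∧ B.q (mt (ρ g)).det = 1 := by
  obtain ⟨N, β, hβ⟩ := h g
  have h1 : IsNilpotent (red B (mt (ρ g)) - 1) := by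
    refine ⟨N, ?_⟩
    have e := congrArg (red B) hβ
    rw [map_pow, map_sub, map_one, Pool.Agent.TH831.OE.red_smul, q_pi, zero_smul] at e
    exact e
  obtain ⟨h3, h4⟩ := sq_zero_of_nil h1
  have e1 : B.q (mt (ρ g)).trace = red B (mt (ρ g)) 0 0 + red B (mt (ρ g)) 1 1 := by
    rw [Matrix.trace_fin_two, map_add]
    rfl
  have e2 : B.q (mt (ρ g)).det = red B (mt (ρ g)) 0 0 * red B (mt (ρ g)) 1 1 -
      red B (mt (ρ g)) 0 1 * red B (mt (ρ g)) 1 0 := by
    rw [Matrix.det_fin_two, map_sub, map_mul, map_mul]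
    rfl
  rw [Matrix.trace_fin_two] at h3
  rw [Matrix.det_fin_two] at h4
  simp only [Matrix.sub_apply, Matrix.one_apply_eq, ne_eq, zero_ne_one, not_false_eq_true,
    Matrix.one_apply_ne, sub_zero, one_ne_zero] at h3 h4
  constructor
  · rw [e1]; linear_combination h3
  · rw [e2]; linear_combination h4 + h3

theorem det_ne_zero (M : GL (Fin 2) O) : (mt M).det ≠ 0 := by
  intro h
  have h1 : (mt M * mt M⁻¹) = 1 := by
    have e := congrArg Units.val (mul_inv_cancel M)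
    exact e
  have h2 := congrArg Matrix.det h1
  rw [Matrix.det_mul, h, zero_mul, Matrix.det_one] at h2
  exact zero_ne_one h2

/-- unipotence from the size of the ramification -/
theorem unip_of_small {p : ℕ} (hp : p.Prime) (hp2 : p ≠ 2)
    (hpκ : ∀ n : ℕ, (n : κ) = 0 ↔ p ∣ n) (hpπ : B.π ∣ (p : O))
    (hsm : ((p : O) ≠ 0 ∧ (p : O) * B.π ∣ B.π ^ ((p - 1) / 2)) ∨ CharP O p)
    {ρ : GF k →* GL (Fin 2) O} (hρ : Cts B ρ) (hres : ResU B ρ) {P : Ideal (OO k)}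
    (hP : P.IsMaximal) (hpP : (p : OO k) ∉ P) (hq2 : 2 ≤ Ideal.absNorm (cm P))
    {τ : GF k} (hτ : InInertia P τ) : (mt (ρ τ) - 1) * (mt (ρ τ) - 1) = 0 := by
  by_cases hpl : p ∣ Ideal.absNorm (cm P) - 1
  swap
  · rw [triv_of_not_dvd hp hpπ ρ hρ hres hP hpP hτ hpl, mt_one, sub_self, mul_zero]
  obtain ⟨σ, hσ⟩ := exists_frobAt hP (cm_ne_bot hP)
  have h1 := exact_rel hp hpπ ρ hρ hres hP hpP hτ hσ
  set l := Ideal.absNorm (cm P) with hl
  obtain ⟨h2, h3⟩ := resU_q hres τ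
  have hdet : (mt (ρ τ)).det = 1 := by
    have e := congrArg Matrix.det h1
    rw [Matrix.det_mul, Matrix.det_mul, Matrix.det_pow, mul_comm] at e
    have e2 := mul_right_cancel₀ (det_ne_zero _) e
    have e3 : (mt (ρ τ)).det ^ (l - 1) = 1 := by
      apply mul_right_cancel₀ (det_ne_zero (ρ τ))
      rw [one_mul, ← pow_succ, Nat.sub_add_cancel (by omega)]
      exact e2.symm
    refine tors_free' hp hp2 hpκ hsm ?_ (by omega) e3
    rw [← B.ker, map_sub, h3, map_one, sub_self]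
  have h2κ : (2 : κ) ≠ 0 := by
    intro h
    have h4 : ((2 : ℕ) : κ) = 0 := by exact_mod_cast h
    have := Nat.le_of_dvd two_pos ((hpκ 2).1 h4)
    have := hp.two_le
    omega
  exact tame_unip hp hp2 (by omega) hpl h2κ hpκ hsm hdet h2 (det_ne_zero _) h1

end quot

/-- inertia and Frobenius elements at the primes above `S` -/
def TS (S : Set (Ideal (𝓞 k))) (τ σ : GF k) (q : ℕ) : Prop :=
  ∃ P : Ideal (OO k), P.IsMaximal ∧ cm P ∈ S ∧ InInertia P τ ∧ FrobAt q P σ ∧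
    q = Ideal.absNorm (cm P)

theorem two_le {P : Ideal (OO k)} (hP : P.IsMaximal) : 2 ≤ Ideal.absNorm (cm P) := by
  have h0 := absNorm_ne_zero (cm_ne_bot hP)
  have h1 : Ideal.absNorm (cm P) ≠ 1 := by
    rw [Ne, Ideal.absNorm_eq_one_iff]
    exact (cm_isMaximal hP (cm_ne_bot hP)).ne_top
  omega

variable {A : Type} [CommRing A] [IsDomain A] [IsDiscreteValuationRing A]

/-- **the theorem for number fields** -/
theorem main {p e : ℕ} (hp : p.Prime) (S : Set (Ideal (𝓞 k))) (hS : ∀ v ∈ S, (p : 𝓞 k) ∉ v)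
    [TopologicalSpace A] (hA : IsAdic (maximalIdeal A)) (hfin : Finite (ResidueField A))
    (he : 1 ≤ e) (h0 : (p : A) ∈ maximalIdeal A ^ e) (h1 : (p : A) ∉ maximalIdeal A ^ (e + 1))
    (hNP : NP (ResidueField A) (UrS S) (TS S))
    (hNT : ∀ r, (r ≠ 0 ∨ e ≠ 1) → NT (ResidueField A) (UrS S) (TS S) p r)
    (ρ : GF k →* GL (Fin 2) A) (hρ : Continuous ρ) (hur : ∀ τ ∈ UrS S, ρ τ = 1)
    (hres : ∀ g, ∃ M : ℕ, ∀ i j,
      (((ρ g : Matrix (Fin 2) (Fin 2) A) - 1) ^ M) i j ∈ maximalIdeal A)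
    (hunip : (p ≠ 2 ∧ 2 * e < p - 1) ∨ ∀ P : Ideal (OO k), P.IsMaximal → cm P ∈ S →
      ∀ τ : GF k, InInertia P τ → (mt (ρ τ) - 1) * (mt (ρ τ) - 1) = 0) (g : GF k) : ρ g = 1 := by
  have hpm : (p : A) ∈ maximalIdeal A := by
    have := Ideal.pow_le_pow_right he h0
    rwa [pow_one] at this
  have hpκ := natCast_zero_iff (A := A) hp hpm
  have hpπ : (bas A).π ∣ (p : A) := (mem_max_iff _).1 hpm
  have hcts := cts_of_continuous hA hρ
  have hresU := resU_of hres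
  have hpP : ∀ P : Ideal (OO k), cm P ∈ S → (p : OO k) ∉ P := fun P hPS h =>
    hS _ hPS (natCast_mem_cm.2 h)
  obtain ⟨c, hc⟩ := (mem_pow_iff e _).1 h0
  have hqc : (bas A).q c ≠ 0 := by
    intro h
    obtain ⟨d, hd⟩ := ((bas A).ker c).1 h
    apply h1
    rw [mem_pow_iff]
    exact ⟨d, by rw [hc, hd]; ring⟩
  have hp0 : (p : A) ≠ 0 := by
    intro h
    rw [h] at h1
    exact h1 (Ideal.zero_mem _)
  have hsq : ∀ P : Ideal (OO k), P.IsMaximal → cm P ∈ S →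
      ∀ τ : GF k, InInertia P τ → (mt (ρ τ) - 1) * (mt (ρ τ) - 1) = 0 := by
    rcases hunip with ⟨hp2, hpe⟩ | hunip
    · intro P hP hPS τ hτ
      exact unip_of_small hp hp2 hpκ hpπ (Or.inl (small_of_ram hp hp2 h0 h1 hpe)) hcts hresU hP
        (hpP P hPS) (two_le hP) hτ
    · exact hunip
  have hG : Good (bas A) (UrS S) (TS S) ρ := by
    refine ⟨hcts, hur, ?_, ?_⟩
    · rintro τ σ q ⟨P, hP, hPS, hτ, hσ, rfl⟩
      exact hsq P hP hPS τ hτ
    · rintro τ σ q ⟨P, hP, hPS, hτ, hσ, rfl⟩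
      exact rel_of_sq (hsq P hP hPS τ hτ) (exact_rel hp hpπ ρ hcts hresU hP (hpP P hPS) hτ hσ)
  refine FM2B.main hNP hp hpκ he hc hqc hNT ?_ ?_ hG (exists_od_dvr hp hfin hpm hres) g
  · rintro τ σ q ⟨P, hP, hPS, hτ, hσ, rfl⟩
    exact two_le hP
  · rintro τ σ q ⟨P, hP, hPS, hτ, hσ, rfl⟩
    have h2 := two_le hP
    obtain ⟨r, m, hm, hqm⟩ := Nat.exists_eq_pow_mul_and_not_dvd
      (show Ideal.absNorm (cm P) - 1 ≠ 0 by omega) p hp.ne_one
    have h3 : ((Ideal.absNorm (cm P) - 1 : ℕ) : A) = ((Ideal.absNorm (cm P) : ℕ) : A) - 1 := by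
      rw [Nat.cast_sub (by omega), Nat.cast_one]
    rw [← h3, hqm, Nat.cast_mul, Nat.cast_pow]
    refine mul_ne_zero (pow_ne_zero _ hp0) ?_
    intro h4
    apply hm
    rw [← hpκ, ← map_natCast (residue A), h4, map_zero]

end Pool.Agent.Q15.FM2C
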