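import Pool.Agent.Q15.FM2C

/-! When the space of characters is two-dimensional. -/

set_option autoImplicit false
set_option linter.unusedSectionVars false

namespace Pool.Agent.Q15.FM2D

open NumberField Matrix IsLocalRing Pool.Agent.W569.FM Pool.Agent.W569.UF Pool.Agent.W571.FM
  Pool.Agent.TH831.OE Pool.Agent.Q15.FMNT Pool.Agent.Q15.FMScal Pool.Agent.Q15.FMRankB
  Pool.Agent.Q15.FMMain Pool.Agent.Q15.FM2A Pool.Agent.Q15.FM2B Pool.Agent.Q15.FM2C

section
variable {κ : Type} [Field κ] {G : Type} [Group G] [TopologicalSpace G] [IsTopologicalGroup G]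

/-- any three characters are dependent -/
def Dep (κ : Type) [Field κ] (Ur : Set G) : Prop :=
  ∀ x y z : G →* Multiplicative κ, Chr κ Ur x → Chr κ Ur y → Chr κ Ur z →
    ∃ a b c : κ, ¬ (a = 0 ∧ b = 0 ∧ c = 0) ∧ ∀ g, a * Multiplicative.toAdd (x g) +
      b * Multiplicative.toAdd (y g) + c * Multiplicative.toAdd (z g) = 0

theorem mat_mul (X : Fin 2 → Fin 2 → G →* Multiplicative κ) (g h : G) :
    mat X (g * h) = mat X g + mat X h := by
  ext i j
  show Multiplicative.toAdd (X i j (g * h)) = Multiplicative.toAdd (X i j g) +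
    Multiplicative.toAdd (X i j h)
  rw [map_mul, toAdd_mul]

theorem mat_eq_zero (X : Fin 2 → Fin 2 → G →* Multiplicative κ) {g : G}
    (h : ∀ i j, X i j g = 1) : mat X g = 0 := by
  ext i j
  show Multiplicative.toAdd (X i j g) = 0
  rw [h, toAdd_one]

/-- linear functions of the entries -/
theorem comb {Ur' : Set G} {X : Fin 2 → Fin 2 → G →* Multiplicative κ}
    (hX : ∀ i j, IsOpen ((X i j).ker : Set G)) (hu : ∀ u ∈ Ur', mat X u = 0)
    (φ : Matrix (Fin 2) (Fin 2) κ →ₗ[κ] κ) :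
    ∃ F : G →* Multiplicative κ, Chr κ Ur' F ∧ ∀ g, Multiplicative.toAdd (F g) = φ (mat X g) := by
  let F : G →* Multiplicative κ :=
    { toFun := fun g => Multiplicative.ofAdd (φ (mat X g))
      map_one' := by
        rw [mat_eq_zero X (fun i j => map_one _), map_zero, ofAdd_zero]
      map_mul' := fun g h => by rw [mat_mul, map_add, ofAdd_add] }
  refine ⟨F, ⟨?_, ?_⟩, fun g => rfl⟩
  · have h1 : IsOpen ((((X 0 0).ker ⊓ (X 0 1).ker) ⊓ ((X 1 0).ker ⊓ (X 1 1).ker) :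
        Subgroup G) : Set G) := ((hX 0 0).inter (hX 0 1)).inter ((hX 1 0).inter (hX 1 1))
    refine Subgroup.isOpen_mono ?_ h1
    rintro g ⟨⟨h00, h01⟩, h10, h11⟩
    show Multiplicative.ofAdd (φ (mat X g)) = 1
    rw [mat_eq_zero X (fun i j => by
      fin_cases i <;> fin_cases j
      · exact h00
      · exact h01
      · exact h10
      · exact h11), map_zero, ofAdd_zero]
  · intro u h
    show Multiplicative.ofAdd (φ (mat X u)) = 1
    rw [hu u h, map_zero, ofAdd_zero]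

theorem exists_basis (w₁ w₂ : Fin 2 → κ) (h : w₁ 0 * w₂ 1 - w₂ 0 * w₁ 1 ≠ 0) :
    ∃ Q R : Matrix (Fin 2) (Fin 2) κ, Q * R = 1 ∧ R * Q = 1 ∧ (∀ i, Q i 0 = w₁ i) ∧
      ∀ i, Q i 1 = w₂ i := by
  let Q : Matrix (Fin 2) (Fin 2) κ := !![w₁ 0, w₂ 0; w₁ 1, w₂ 1]
  have hd : Q.det ≠ 0 := by
    rw [Matrix.det_fin_two_of]
    exact h
  refine ⟨Q, Q⁻¹, Matrix.mul_nonsing_inv Q (Ne.isUnit hd), Matrix.nonsing_inv_mul Q (Ne.isUnit hd),
    ?_, ?_⟩ <;> intro i <;> fin_cases i <;> rfl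

/-- the kernel of a nilpotent matrix -/
theorem exists_ker {M : Matrix (Fin 2) (Fin 2) κ} (h : M * M = 0) :
    ∃ w : Fin 2 → κ, w ≠ 0 ∧ M *ᵥ w = 0 := by
  apply Matrix.exists_mulVec_eq_zero_iff.2
  have e := congrArg Matrix.det h
  rw [Matrix.det_mul, Matrix.det_zero] at e
  exact mul_self_eq_zero.1 e

/-- **two-dimensional spaces of characters** -/
theorem nt_core {Ur Ur' : Set G} {T : G → G → ℕ → Prop} (hNP : NP κ Ur T) (hUr : Ur ⊆ Ur')
    (hdep : Dep κ Ur') {c : ℕ → κ}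
    {X : Fin 2 → Fin 2 → G →* Multiplicative κ} (hX : ∀ i j, IsOpen ((X i j).ker : Set G))
    (hu : ∀ u ∈ Ur', mat X u = 0) (htr : ∀ g, mat X g 0 0 + mat X g 1 1 = 0)
    (hsq : ∀ τ σ q, T τ σ q → mat X τ * mat X τ = 0)
    (hrel : ∀ τ σ q, T τ σ q → mat X σ * mat X τ - mat X τ * mat X σ = c q • mat X τ) :
    ∃ w : Fin 2 → κ, w ≠ 0 ∧ ∀ τ σ q, T τ σ q → mat X τ *ᵥ w = 0 := by
  by_cases h0 : ∀ τ σ q, T τ σ q → mat X τ = 0
  · refine ⟨Pi.single 0 1, fun h => by simpa using congrFun h 0, fun τ σ q hT => ?_⟩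
    rw [h0 τ σ q hT, Matrix.zero_mulVec]
  push Not at h0
  obtain ⟨τ₁, σ₁, q₁, hT₁, hne₁⟩ := h0
  obtain ⟨w₁, hw₁, hk₁⟩ := exists_ker (hsq τ₁ σ₁ q₁ hT₁)
  by_cases h1 : ∀ τ σ q, T τ σ q → mat X τ *ᵥ w₁ = 0
  · exact ⟨w₁, hw₁, h1⟩
  push Not at h1
  obtain ⟨τ₂, σ₂, q₂, hT₂, hne₂⟩ := h1
  obtain ⟨w₂, hw₂, hk₂⟩ := exists_ker (hsq τ₂ σ₂ q₂ hT₂)
  exfalso
  -- the two vectors are independent
  have hind : w₁ 0 * w₂ 1 - w₂ 0 * w₁ 1 ≠ 0 := by
    intro h
    apply hne₂
    have h2 : ∃ t : κ, w₁ = t • w₂ := by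
      by_cases h3 : w₂ 0 = 0
      · have h4 : w₂ 1 ≠ 0 := by
          intro h4
          apply hw₂
          funext i
          fin_cases i
          · exact h3
          · exact h4
        refine ⟨w₁ 1 / w₂ 1, ?_⟩
        rw [h3, zero_mul, sub_zero] at h
        funext i
        fin_cases i
        · show w₁ 0 = w₁ 1 / w₂ 1 * w₂ 0
          rw [h3, mul_zero]
          exact (mul_eq_zero.1 h).resolve_right h4
        · show w₁ 1 = w₁ 1 / w₂ 1 * w₂ 1
          rw [div_mul_cancel₀ _ h4]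
      · refine ⟨w₁ 0 / w₂ 0, ?_⟩
        funext i
        fin_cases i
        · show w₁ 0 = w₁ 0 / w₂ 0 * w₂ 0
          rw [div_mul_cancel₀ _ h3]
        · show w₁ 1 = w₁ 0 / w₂ 0 * w₂ 1
          rw [div_mul_eq_mul_div, eq_div_iff h3]
          linear_combination -h
    obtain ⟨t, ht⟩ := h2
    rw [ht, Matrix.mulVec_smul, hk₂, smul_zero]
  obtain ⟨Q, R, hQR, hRQ, hQ0, hQ1⟩ := exists_basis w₁ w₂ hind
  -- the new matrix
  set M' : G → Matrix (Fin 2) (Fin 2) κ := fun g => R * mat X g * Q with hM'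
  have hM'eq : ∀ g, M' g = R * mat X g * Q := fun g => rfl
  have hback : ∀ g, mat X g = Q * M' g * R := by
    intro g
    rw [hM'eq]
    have : Q * (R * mat X g * Q) * R = (Q * R) * mat X g * (Q * R) := by
      simp only [mul_assoc]
    rw [this, hQR, one_mul, mul_one]
  have hprod : ∀ g h, M' g * M' h = R * (mat X g * mat X h) * Q := by
    intro g h
    rw [hM'eq, hM'eq]
    have : R * mat X g * Q * (R * mat X h * Q) = R * mat X g * (Q * R) * mat X h * Q := by
      simp only [mul_assoc]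
    rw [this, hQR, mul_one]
    simp only [mul_assoc]
  have hsq' : ∀ τ σ q, T τ σ q → M' τ * M' τ = 0 := by
    intro τ σ q hT
    rw [hprod, hsq τ σ q hT, mul_zero, zero_mul]
  have hrel' : ∀ τ σ q, T τ σ q → M' σ * M' τ - M' τ * M' σ = c q • M' τ := by
    intro τ σ q hT
    rw [hprod, hprod, ← sub_mul, ← mul_sub, hrel τ σ q hT, hM'eq, Matrix.mul_smul,
      Matrix.smul_mul]
  have htr' : ∀ g, M' g 0 0 + M' g 1 1 = 0 := by
    intro g
    rw [← Matrix.trace_fin_two, hM'eq, Matrix.trace_mul_comm, ← mul_assoc, hQR, one_mul,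
      Matrix.trace_fin_two, htr]
  have hlin : ∀ i j : Fin 2, ∃ F : G →* Multiplicative κ, Chr κ Ur' F ∧
      ∀ g, Multiplicative.toAdd (F g) = M' g i j := by
    intro i j
    obtain ⟨F, hF, hF2⟩ := comb hX hu
      ((ent i j).comp ((LinearMap.mulRight κ Q).comp (LinearMap.mulLeft κ R)))
    exact ⟨F, hF, hF2⟩
  obtain ⟨x, hx, hx'⟩ := hlin 0 1
  obtain ⟨y, hy, hy'⟩ := hlin 1 0
  obtain ⟨z, hz, hz'⟩ := hlin 0 0
  -- the two special elements
  have hcol : ∀ g i, (mat X g *ᵥ w₁ = 0 → M' g i 0 = 0) ∧ (mat X g *ᵥ w₂ = 0 → M' g i 1 = 0) := by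
    intro g i
    have e : ∀ (j : Fin 2) (w : Fin 2 → κ), (∀ i, Q i j = w i) → mat X g *ᵥ w = 0 →
        M' g i j = 0 := by
      intro j w hw h
      rw [hM'eq, mul_assoc, Matrix.mul_apply]
      apply Finset.sum_eq_zero
      intro l _
      have h2 : (mat X g * Q) l j = 0 := by
        rw [Matrix.mul_apply]
        have h3 := congrFun h l
        rw [Matrix.mulVec, dotProduct] at h3
        simp only [hw]
        exact h3
      rw [h2, mul_zero]
    exact ⟨e 0 w₁ hQ0, e 1 w₂ hQ1⟩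
  have h10 : ∀ i, M' τ₁ i 0 = 0 := fun i => (hcol τ₁ i).1 hk₁
  have h21 : ∀ i, M' τ₂ i 1 = 0 := fun i => (hcol τ₂ i).2 hk₂
  have h111 : M' τ₁ 1 1 = 0 := by
    have := htr' τ₁
    rwa [h10, zero_add] at this
  have h200 : M' τ₂ 0 0 = 0 := by
    have := htr' τ₂
    rwa [h21, add_zero] at this
  have h101 : M' τ₁ 0 1 ≠ 0 := by
    intro h
    apply hne₁
    rw [hback]
    have : M' τ₁ = 0 := by
      ext i j
      fin_cases i <;> fin_cases j
      · exact h10 0
      · exact h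
      · exact h10 1
      · exact h111
    rw [this, mul_zero, zero_mul]
  have h210 : M' τ₂ 1 0 ≠ 0 := by
    intro h
    apply hne₂
    rw [hback]
    have : M' τ₂ = 0 := by
      ext i j
      fin_cases i <;> fin_cases j
      · exact h200
      · exact h21 0
      · exact h
      · exact h21 1
    rw [this, mul_zero, zero_mul, Matrix.zero_mulVec]
  -- the dependence
  obtain ⟨a, b, d, hne, hdep'⟩ := hdep x y z hx hy hz
  simp only [hx', hy', hz'] at hdep'
  have ha : a = 0 := by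
    have := hdep' τ₁
    rw [h10, h10, mul_zero, mul_zero, add_zero, add_zero] at this
    exact (mul_eq_zero.1 this).resolve_right h101
  have hb : b = 0 := by
    have := hdep' τ₂
    rw [h21, h200, mul_zero, mul_zero, add_zero, zero_add] at this
    exact (mul_eq_zero.1 this).resolve_right h210
  have hd : d ≠ 0 := fun h => hne ⟨ha, hb, h⟩
  have hz0 : ∀ g, M' g 0 0 = 0 := by
    intro g
    have := hdep' g
    rw [ha, hb, zero_mul, zero_mul, zero_add, zero_add] at this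
    exact (mul_eq_zero.1 this).resolve_left hd
  have hz1 : ∀ g, M' g 1 1 = 0 := by
    intro g
    have := htr' g
    rwa [hz0, zero_add] at this
  -- the pair of characters
  have key : ∀ τ σ q, T τ σ q → M' τ 0 1 * M' τ 1 0 = 0 ∧
      M' σ 0 1 * M' τ 1 0 = M' τ 0 1 * M' σ 1 0 := by
    intro τ σ q hT
    constructor
    · have h2 := congrFun (congrFun (hsq' τ σ q hT) 0) 0
      rw [Matrix.mul_apply, Fin.sum_univ_two, hz0, zero_mul, zero_add] at h2
      exact h2
    · have h2 := congrFun (congrFun (hrel' τ σ q hT) 0) 0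
      rw [Matrix.sub_apply, Matrix.mul_apply, Matrix.mul_apply, Fin.sum_univ_two,
        Fin.sum_univ_two, Matrix.smul_apply, hz0, hz0, smul_zero, zero_mul, zero_add,
        zero_add] at h2
      exact sub_eq_zero.1 h2
  have hx1 : ∀ g, x g = 1 ↔ M' g 0 1 = 0 := fun g => by
    rw [← hx', ← toAdd_one (α := κ)]
    exact Multiplicative.toAdd.injective.eq_iff.symm
  have hy1 : ∀ g, y g = 1 ↔ M' g 1 0 = 0 := fun g => by
    rw [← hy', ← toAdd_one (α := κ)]
    exact Multiplicative.toAdd.injective.eq_iff.symm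
  rcases hNP x y ⟨hx.op, fun u h => hx.ur u (hUr h)⟩ ⟨hy.op, fun u h => hy.ur u (hUr h)⟩
    (fun τ σ q hT hne => by
      rw [Ne, hx1] at hne
      rw [hy1, hy1]
      obtain ⟨h2, h3⟩ := key τ σ q hT
      have h4 := (mul_eq_zero.1 h2).resolve_left hne
      rw [h4, mul_zero] at h3
      exact ⟨h4, (mul_eq_zero.1 h3.symm).resolve_left hne⟩)
    (fun τ σ q hT hne => by
      rw [Ne, hy1] at hne
      rw [hx1, hx1]
      obtain ⟨h2, h3⟩ := key τ σ q hT
      have h4 := (mul_eq_zero.1 h2).resolve_right hne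
      rw [h4, zero_mul] at h3
      exact ⟨h4, (mul_eq_zero.1 h3).resolve_right hne⟩) with h2 | h2
  · exact h101 ((hx1 _).1 (h2 τ₁))
  · exact h210 ((hy1 _).1 (h2 τ₂))

theorem trace_zero {Ur : Set G} {T : G → G → ℕ → Prop} (hNP : NP κ Ur T)
    {X : Fin 2 → Fin 2 → G →* Multiplicative κ} (hX : ∀ i j, Chr κ Ur (X i j))
    (hsq : ∀ τ σ q, T τ σ q → mat X τ * mat X τ = 0) (g : G) :
    mat X g 0 0 + mat X g 1 1 = 0 := by
  obtain ⟨F, hF, hF2⟩ := comb (fun i j => (hX i j).op)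
    (fun u hu => mat_eq_zero X fun i j => (hX i j).ur u hu) (Matrix.traceLinearMap (Fin 2) κ κ)
  have h1 := gen_triv hNP F hF (fun τ σ q hT => by
    apply Multiplicative.toAdd.injective
    rw [hF2, toAdd_one, Matrix.traceLinearMap_apply, Matrix.trace_fin_two]
    exact (sq_zero_entries (hsq τ σ q hT)).1) g
  have h2 := congrArg Multiplicative.toAdd h1
  rw [hF2, toAdd_one, Matrix.traceLinearMap_apply, Matrix.trace_fin_two] at h2
  exact h2

/-- the relation in characteristic two -/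
theorem zero_of_two (h2 : (2 : κ) = 0) {M N : Matrix (Fin 2) (Fin 2) κ}
    (hM : M 0 0 + M 1 1 = 0) (hN : N 0 0 + N 1 1 = 0) {c : κ} (hc : c ≠ 0)
    (h : M * N - N * M = c • N) : N = 0 := by
  have h00 := congrFun (congrFun h 0) 0
  have h01 := congrFun (congrFun h 0) 1
  have h10 := congrFun (congrFun h 1) 0
  simp only [Matrix.sub_apply, Matrix.mul_apply, Fin.sum_univ_two, Matrix.smul_apply,
    smul_eq_mul] at h00 h01 h10
  have e1 : N 0 1 = 0 := by
    apply (mul_eq_zero.1 _).resolve_left hc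
    linear_combination -h01 + M 0 0 * N 0 1 * h2 - M 0 1 * N 0 0 * h2 + M 0 1 * hN - N 0 1 * hM
  have e2 : N 1 0 = 0 := by
    apply (mul_eq_zero.1 _).resolve_left hc
    linear_combination -h10 + M 1 0 * N 0 0 * h2 - M 0 0 * N 1 0 * h2 + N 1 0 * hM - M 1 0 * hN
  have e3 : N 0 0 = 0 := by
    apply (mul_eq_zero.1 _).resolve_left hc
    rw [e1, e2] at h00
    linear_combination -h00
  have e4 : N 1 1 = 0 := by
    rw [e3, zero_add] at hN
    exact hN
  ext i j
  fin_cases i <;> fin_cases j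
  · exact e3
  · exact e1
  · exact e2
  · exact e4

end

section
variable {k : Type} [Field k] [NumberField k] {κ : Type} [Field κ]

theorem nt_of_dep {S : Set (Ideal (𝓞 k))} (hNP : NP κ (UrS S) (TS S)) (hdep : Dep κ (UrS S))
    (p r : ℕ) : NT κ (UrS S) (TS S) p r := by
  intro X hX hsq _ hrel
  exact nt_core (c := fun q => (((q - 1) / p ^ r : ℕ) : κ)) hNP subset_rfl hdep
    (fun i j => (hX i j).op) (fun u hu => mat_eq_zero X fun i j => (hX i j).ur u hu)
    (trace_zero hNP hX hsq) hsq hrel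

theorem nt_of_dep_two {S : Set (Ideal (𝓞 k))} (hκ : ∀ n : ℕ, (n : κ) = 0 ↔ 2 ∣ n)
    (hNP : NP κ (UrS S) (TS S))
    (hdep : Dep κ (UrS {v | v ∈ S ∧ 4 ∣ Ideal.absNorm v - 1})) {r : ℕ} (hr : r ≠ 0) :
    NT κ (UrS S) (TS S) 2 r := by
  intro X hX hsq hz hrel
  have htr := trace_zero hNP hX hsq
  have h20 : (2 : κ) = 0 := by
    have := (hκ 2).2 dvd_rfl
    exact_mod_cast this
  refine nt_core (c := fun q => (((q - 1) / 2 ^ r : ℕ) : κ)) hNP ?_ hdep
    (fun i j => (hX i j).op) ?_ htr hsq hrel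
  · rintro τ ⟨P, hP, hPS, hτ⟩
    exact ⟨P, hP, fun h => hPS h.1, hτ⟩
  · rintro τ ⟨P, hP, hPS, hτ⟩
    by_cases hPS' : cm P ∈ S
    · have h4 : ¬ 4 ∣ Ideal.absNorm (cm P) - 1 := fun h => hPS ⟨hPS', h⟩
      obtain ⟨σ, hσ⟩ := exists_frobAt hP (cm_ne_bot hP)
      have hT : TS S τ σ (Ideal.absNorm (cm P)) := ⟨P, hP, hPS', hτ, hσ, rfl⟩
      by_cases hd : 2 ^ r ∣ Ideal.absNorm (cm P) - 1
      · have hr1 : r = 1 := by
          by_contra h
          apply h4
          refine (pow_dvd_pow 2 (show 2 ≤ r by omega)).trans hd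
        subst hr1
        refine zero_of_two h20 (htr σ) (htr τ) ?_ (hrel τ σ _ hT)
        rw [Ne, hκ]
        intro h
        apply h4
        rw [pow_one] at hd h
        obtain ⟨m, hm⟩ := hd
        rw [hm, Nat.mul_div_cancel_left _ two_pos] at h
        obtain ⟨m', hm'⟩ := h
        exact ⟨m', by rw [hm, hm']; ring⟩
      · exact hz τ σ _ hT hd
    · exact mat_eq_zero X fun i j => (hX i j).ur τ ⟨P, hP, hPS', hτ⟩

end

end Pool.Agent.Q15.FM2D
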