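import Pool.Agent.Q15.FM2D
import Pool.Agent.TH831.OE.Ord

/-! Two-dimensional representations with local lines: odd levels. -/

set_option autoImplicit false
set_option linter.unusedSectionVars false

namespace Pool.Agent.Q15.FM3A

open Matrix Pool.Agent.TH831.OE Pool.Agent.TH831.OT Pool.Agent.Q15.FM2A Pool.Agent.Q15.FM2B

section defs
variable {G : Type} [Group G] [TopologicalSpace G]

/-- no pair -/
def NPo (κ : Type) [Field κ] (Ur : Set G) (T : G → G → ℕ → Prop) (DD : Set (Set G)) : Prop :=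
  ∀ x y : G →* Multiplicative κ, Chr κ Ur x → Chr κ Ur y →
    (∀ τ σ q, T τ σ q → x τ ≠ 1 → y τ = 1 ∧ y σ = 1) →
    (∀ τ σ q, T τ σ q → y τ ≠ 1 → x τ = 1 ∧ x σ = 1) →
    (∀ D ∈ DD, (∀ g ∈ D, x g = 1) ∨ ∀ g ∈ D, y g = 1) → (∀ g, x g = 1) ∨ ∀ g, y g = 1

/-- no tuple -/
def NTo (κ : Type) [Field κ] (Ur : Set G) (T : G → G → ℕ → Prop) (DD : Set (Set G))
    (p r : ℕ) : Prop :=
  ∀ X : Fin 2 → Fin 2 → G →* Multiplicative κ, (∀ i j, Chr κ Ur (X i j)) →
    (∀ g, mat X g 0 0 + mat X g 1 1 = 0) →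
    (∀ τ σ q, T τ σ q → mat X τ * mat X τ = 0) →
    (∀ τ σ q, T τ σ q → ¬ p ^ r ∣ q - 1 → mat X τ = 0) →
    (∀ τ σ q, T τ σ q →
      mat X σ * mat X τ - mat X τ * mat X σ = (((q - 1) / p ^ r : ℕ) : κ) • mat X τ) →
    (∀ D ∈ DD, ∃ v : Fin 2 → κ, v ≠ 0 ∧ ∀ g ∈ D, wed (mat X g *ᵥ v) v = 0) →
    ∃ w : Fin 2 → κ, w ≠ 0 ∧ ∀ g, wed (mat X g *ᵥ w) w = 0

/-- no triple -/
def NTr (κ : Type) [Field κ] (Ur : Set G) (T : G → G → ℕ → Prop) (DD : Set (Set G))
    (p r : ℕ) : Prop :=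
  ∀ x y z : G →* Multiplicative κ, Chr κ Ur x → Chr κ Ur y → Chr κ Ur z →
    (∀ τ σ q, T τ σ q → z τ = 1) →
    (∀ τ σ q, T τ σ q → x τ ≠ 1 →
      p ^ r ∣ q - 1 ∧ Multiplicative.toAdd (z σ) = (((q - 1) / p ^ r : ℕ) : κ)) →
    (∀ τ σ q, T τ σ q → y τ ≠ 1 →
      p ^ r ∣ q - 1 ∧ Multiplicative.toAdd (z σ) = -(((q - 1) / p ^ r : ℕ) : κ)) →
    (∃ D ∈ DD, (∀ g ∈ D, y g = 1) ∧ ∃ γ ∈ D, x γ = 1 ∧ z γ ≠ 1) →
    (∀ D ∈ DD, ∃ a b c : κ, ¬ (a = 0 ∧ b = 0 ∧ c = 0) ∧ ∀ g ∈ D,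
      a * Multiplicative.toAdd (x g) + b * Multiplicative.toAdd (y g) +
        c * Multiplicative.toAdd (z g) = 0) →
    (∀ g, x g = 1) ∨ ∀ g, y g = 1

theorem gen_triv_o {κ : Type} [Field κ] {Ur : Set G} {T : G → G → ℕ → Prop} {DD : Set (Set G)}
    (h : NPo κ Ur T DD) (x : G →* Multiplicative κ) (hx : Chr κ Ur x)
    (hT : ∀ τ σ q, T τ σ q → x τ = 1) (hD : ∀ D ∈ DD, ∀ g ∈ D, x g = 1) : ∀ g, x g = 1 := by
  rcases h x x hx hx (fun τ σ q h1 h2 => absurd (hT τ σ q h1) h2)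
    (fun τ σ q h1 h2 => absurd (hT τ σ q h1) h2) (fun D h1 => Or.inl (hD D h1)) with h1 | h1 <;>
    exact h1

end defs

section
variable {O κ : Type} [CommRing O] [IsDomain O] [Field κ] {B : Bas O κ}
  {G : Type} [Group G] [TopologicalSpace G] [IsTopologicalGroup G]

/-- the conditions on the representation -/
structure GoodO (B : Bas O κ) (Ur : Set G) (T : G → G → ℕ → Prop) (DD : Set (Set G)) (t : G → O)
    (ρ : G →* GL (Fin 2) O) : Prop where
  good : FM2A.Good B Ur T ρ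
  det : ∀ g, (mt (ρ g)).det = 1
  tr : ∀ g, (mt (ρ g)).trace = t g
  line : ∀ D ∈ DD, HasLine ρ D

theorem GoodO.conj {Ur : Set G} {T : G → G → ℕ → Prop} {DD : Set (Set G)} {t : G → O}
    {ρ ρ' : G →* GL (Fin 2) O} (h : GoodO B Ur T DD t ρ) (hr : Rel ρ ρ') :
    GoodO B Ur T DD t ρ' :=
  ⟨h.good.conj hr, fun g => by rw [hr.det, h.det], fun g => by rw [hr.trace, h.tr],
    fun D hD => hr.line (h.line D hD)⟩

/-- the primitive local line -/
theorem GoodO.prim {Ur : Set G} {T : G → G → ℕ → Prop} {DD : Set (Set G)} {t : G → O}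
    {ρ : G →* GL (Fin 2) O} (h : GoodO B Ur T DD t ρ) {D : Set G} (hD : D ∈ DD) :
    ∃ v : Fin 2 → O, (B.q (v 0) ≠ 0 ∨ B.q (v 1) ≠ 0) ∧ ∀ g ∈ D, wed (mt (ρ g) *ᵥ v) v = 0 := by
  obtain ⟨v, hv, hl⟩ := h.line D hD
  obtain ⟨c, w, hc, rfl, hw⟩ := exists_primitive B v hv
  refine ⟨w, hw, fun g hg => ?_⟩
  have h1 := hl g hg
  rw [Matrix.mulVec_smul, wed_smul_left, wed_smul_right] at h1
  rcases mul_eq_zero.1 h1 with h2 | h2
  · exact absurd h2 hc
  · rcases mul_eq_zero.1 h2 with h3 | h3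
    · exact absurd h3 hc
    · exact h3

/-- **odd levels** -/
theorem od_step {Ur : Set G} {T : G → G → ℕ → Prop} {DD : Set (Set G)} {t : G → O}
    (hNP : NPo κ Ur T DD)
    (hq : ∀ τ σ q, T τ σ q → (q : O) - 1 ≠ 0) {ρ : G →* GL (Fin 2) O}
    (hGo : GoodO B Ur T DD t ρ) {m : ℕ}
    (hod : Od B m ρ) : ∃ ρ' : G →* GL (Fin 2) O, Rel ρ ρ' ∧ Ev B (m + 1) ρ' := by
  have hG := hGo.good
  choose a b c d h using hod
  have hmul := fun g g' => mt_mul ρ g g'
  -- the first character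
  obtain ⟨x, hxo, hx, hxu⟩ := exists_hom ρ hG.cts b (fun g g' => by
      have h1 := congrFun (congrFun (hmul g g') 0) 1
      rw [h, h, h] at h1
      simp [Matrix.mul_apply, Fin.sum_univ_two] at h1
      have h2 : B.π ^ m * (b (g * g') - (b g + b g')) =
          B.π ^ m * (B.π * (B.π ^ m * (a g * b g' + b g * d g'))) := by
        linear_combination h1
      exact ⟨_, dvd_cancel h2⟩) (m + 1) (fun g hg => by
      obtain ⟨α, hα⟩ := hg
      have h1 := congrFun (congrFun hα 0) 1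
      rw [h] at h1
      simp at h1
      have h2 : B.π ^ m * b g = B.π ^ m * (B.π * α 0 1) := by
        rw [← mul_assoc, ← pow_succ]
        exact h1
      exact ⟨_, dvd_cancel h2⟩)
  obtain ⟨y, hyo, hy, hyu⟩ := exists_hom ρ hG.cts c (fun g g' => by
      have h1 := congrFun (congrFun (hmul g g') 1) 0
      rw [h, h, h] at h1
      simp [Matrix.mul_apply, Fin.sum_univ_two] at h1
      have h2 : B.π ^ (m + 1) * (c (g * g') - (c g + c g')) =
          B.π ^ (m + 1) * (B.π * (B.π ^ m * (c g * a g' + d g * c g'))) := by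
        linear_combination h1
      exact ⟨_, dvd_cancel h2⟩) (m + 2) (fun g hg => by
      obtain ⟨α, hα⟩ := hg
      have h1 := congrFun (congrFun hα 1) 0
      rw [h] at h1
      simp at h1
      have h2 : B.π ^ (m + 1) * c g = B.π ^ (m + 1) * (B.π * α 1 0) := by
        linear_combination h1
      exact ⟨_, dvd_cancel h2⟩)
  have hx1 : ∀ g, x g = 1 ↔ B.q (b g) = 0 := fun g => by
    rw [hx]
    exact ofAdd_eq_one
  have hy1 : ∀ g, y g = 1 ↔ B.q (c g) = 0 := fun g => by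
    rw [hy]
    exact ofAdd_eq_one
  -- the local condition at `p`
  have hloc : ∀ D ∈ DD, (∀ g ∈ D, x g = 1) ∨ ∀ g ∈ D, y g = 1 := by
    intro D hD
    have e00 : ∀ g, mt (ρ g) 0 0 = 1 + B.π ^ (m + 1) * a g := fun g => by
      rw [h g]; simp; ring
    have e01 : ∀ g, mt (ρ g) 0 1 = B.π ^ m * b g := fun g => by
      rw [h g]; simp
    have e10 : ∀ g, mt (ρ g) 1 0 = B.π ^ (m + 1) * c g := fun g => by
      rw [h g]; simp; ring
    have e11 : ∀ g, mt (ρ g) 1 1 = 1 + B.π ^ (m + 1) * d g := fun g => by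
      rw [h g]; simp; ring
    obtain ⟨v, hv, hl⟩ := hGo.prim hD
    have hw : ∀ g ∈ D, B.π * a g * v 0 * v 1 + b g * v 1 ^ 2 -
        B.π * c g * v 0 ^ 2 - B.π * d g * v 0 * v 1 = 0 := by
      intro g hg
      have e := hl g hg
      simp only [wed, Matrix.mulVec, dotProduct, Fin.sum_univ_two, e00, e01, e10, e11] at e
      apply dvd_cancel (B := B) (k := m)
      rw [mul_zero]
      linear_combination e
    by_cases hv1 : B.q (v 1) = 0
    · right
      have hv0 : B.q (v 0) ≠ 0 := by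
        rcases hv with h1 | h1
        · exact h1
        · exact absurd hv1 h1
      obtain ⟨w, hw1⟩ := (B.ker _).1 hv1
      intro g hg
      rw [hy1]
      have e := hw g hg
      have e2 : B.π * (a g * v 0 * w * B.π + b g * w ^ 2 * B.π -
          c g * v 0 ^ 2 - d g * v 0 * w * B.π) = B.π * 0 := by
        rw [mul_zero, ← e, hw1]
        ring
      have e3 := mul_left_cancel₀ B.hπ e2
      have e4 : B.q (c g * v 0 ^ 2) = 0 := by
        rw [B.ker]
        exact ⟨a g * v 0 * w + b g * w ^ 2 - d g * v 0 * w, by linear_combination -e3⟩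
      rw [map_mul, map_pow] at e4
      exact (mul_eq_zero.1 e4).resolve_right (pow_ne_zero 2 hv0)
    · left
      intro g hg
      rw [hx1]
      have e := hw g hg
      have e4 : B.q (b g * v 1 ^ 2) = 0 := by
        rw [B.ker]
        exact ⟨c g * v 0 ^ 2 + d g * v 0 * v 1 - a g * v 0 * v 1, by linear_combination e⟩
      rw [map_mul, map_pow] at e4
      exact (mul_eq_zero.1 e4).resolve_right (pow_ne_zero 2 hv1)
  -- the local conditions
  have key : ∀ τ σ q, T τ σ q → (B.q (b τ) = 0 ∨ B.q (c τ) = 0) ∧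
      (B.q (b τ) * B.q (c σ) = B.q (b σ) * B.q (c τ)) := by
    intro τ σ q hT
    have hsq := hG.sq τ σ q hT
    have hN : mt (ρ τ) - 1 = B.π ^ m • !![B.π * a τ, b τ; B.π * c τ, B.π * d τ] := by
      rw [h, add_sub_cancel_left]
    rw [hN, Matrix.smul_mul, Matrix.mul_smul, smul_smul, ← pow_add] at hsq
    have hsq2 : !![B.π * a τ, b τ; B.π * c τ, B.π * d τ] *
        !![B.π * a τ, b τ; B.π * c τ, B.π * d τ] = 0 := by
      refine smul_cancel (B := B) (k := m + m) ?_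
      rw [hsq, smul_zero]
    obtain ⟨h1, h2⟩ := sq_zero_entries hsq2
    simp at h1 h2
    have hbc : b τ * c τ = B.π * (a τ * d τ) := by
      apply mul_left_cancel₀ B.hπ
      linear_combination -h2
    have hbc2 : B.q (b τ) * B.q (c τ) = 0 := by
      rw [← map_mul, hbc, map_mul, q_pi, zero_mul]
    refine ⟨mul_eq_zero.1 hbc2, ?_⟩
    have hrel := hG.rel τ σ q hT
    rw [hN, h σ] at hrel
    obtain ⟨V, u, hVu, hu⟩ := spl (B := B) ((q : O) - 1) (hq τ σ q hT)
    obtain ⟨h00, h01, h10⟩ := rel_entries hrel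
    rcases Nat.lt_or_ge m V with hV | hV
    · -- `q - 1` is divisible by a high power
      obtain ⟨s, rfl⟩ : ∃ s, V = m + 1 + s := ⟨V - (m + 1), by omega⟩
      have h3 : B.π ^ (m + m + 1) * (b σ * c τ - b τ * c σ) =
          B.π ^ (m + m + 1) * (B.π * (B.π ^ s * u * (a τ + B.π ^ (m + 1) * (a τ * a σ) +
            B.π ^ m * (b τ * c σ)))) := by
        linear_combination h00 + B.π ^ m * (B.π * a τ + B.π ^ m * (B.π * a τ * (B.π * a σ) +
          b τ * (B.π * c σ))) * hVu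
      have h4 := congrArg B.q (dvd_cancel h3)
      rw [map_mul B.q B.π, q_pi, zero_mul, map_sub, map_mul, map_mul, sub_eq_zero] at h4
      exact h4.symm
    · -- `q - 1` is divisible by a low power only
      obtain ⟨s, rfl⟩ : ∃ s, m = V + s := ⟨m - V, by omega⟩
      have h3 : B.π ^ (V + s + V) * (u * b τ) = B.π ^ (V + s + V) * (B.π * (B.π ^ s *
          (a σ * b τ + b σ * d τ - q * (a τ * b σ + b τ * d σ)))) := by
        linear_combination -h01 - B.π ^ (V + s) * b τ * hVu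
      have h4 := congrArg B.q (dvd_cancel h3)
      rw [map_mul, map_mul B.q B.π, q_pi, zero_mul] at h4
      have h5 : B.q (b τ) = 0 := (mul_eq_zero.1 h4).resolve_left hu
      have h6 : B.π ^ (V + s + V + 1) * (u * c τ) = B.π ^ (V + s + V + 1) * (B.π * (B.π ^ s *
          (c σ * a τ + d σ * c τ - q * (c τ * a σ + d τ * c σ)))) := by
        linear_combination -h10 - B.π ^ (V + s) * (B.π * c τ) * hVu
      have h7 := congrArg B.q (dvd_cancel h6)
      rw [map_mul, map_mul B.q B.π, q_pi, zero_mul] at h7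
      have h8 : B.q (c τ) = 0 := (mul_eq_zero.1 h7).resolve_left hu
      rw [h5, h8, zero_mul, mul_zero]
  rcases hNP x y ⟨hxo, fun u hu => hxu u (hG.ur u hu)⟩ ⟨hyo, fun u hu => hyu u (hG.ur u hu)⟩
    (fun τ σ q hT hne => by
      rw [Ne, hx1] at hne
      rw [hy1, hy1]
      obtain ⟨h1, h2⟩ := key τ σ q hT
      have h3 := h1.resolve_left hne
      rw [h3, mul_zero] at h2
      exact ⟨h3, (mul_eq_zero.1 h2).resolve_left hne⟩)
    (fun τ σ q hT hne => by
      rw [Ne, hy1] at hne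
      rw [hx1, hx1]
      obtain ⟨h1, h2⟩ := key τ σ q hT
      have h3 := h1.resolve_right hne
      rw [h3, zero_mul] at h2
      exact ⟨h3, (mul_eq_zero.1 h2.symm).resolve_right hne⟩) hloc with h1 | h1
  · have h2 := move3 ρ a b c d h (fun g => (B.ker _).1 ((hx1 g).1 (h1 g)))
    exact ⟨ρ, Rel.refl ρ, h2⟩
  · exact move2 ρ a b c d h (fun g => (B.ker _).1 ((hy1 g).1 (h1 g)))

end

end Pool.Agent.Q15.FM3A
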