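import Pool.Agent.Q15.FM3A

/-! Two-dimensional representations with local lines: even levels. -/

set_option autoImplicit false
set_option linter.unusedSectionVars false

namespace Pool.Agent.Q15.FM3B

open Matrix Pool.Agent.TH831.OE Pool.Agent.TH831.OT Pool.Agent.Q15.FM2A Pool.Agent.Q15.FM2B
  Pool.Agent.Q15.FM3A

section num
variable {O κ : Type} [CommRing O] [IsDomain O] [Field κ] {B : Bas O κ}

/-- the valuation of `q - 1` -/
theorem scale {p e : ℕ} (hp : p.Prime) (hpκ : ∀ n : ℕ, (n : κ) = 0 ↔ p ∣ n) (he : 1 ≤ e) {c : O}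
    (hc : (p : O) = B.π ^ e * c) (hqc : B.q c ≠ 0) {k : ℕ} (hk : 1 ≤ k) :
    ∃ (r : ℕ) (s : O), (r ≠ 0 ∨ e ≠ 1) ∧ B.q s ≠ 0 ∧ ∀ q : ℕ, 2 ≤ q →
      (∃ (d V : ℕ) (u : O), k = V + (d + 1) ∧ (q : O) - 1 = B.π ^ V * u ∧ B.q u ≠ 0) ∨
      ∃ u : O, (q : O) - 1 = B.π ^ k * u ∧ p ^ r ∣ q - 1 ∧
        B.q s * B.q u = (((q - 1) / p ^ r : ℕ) : κ) := by
  have hqf : ∀ q : ℕ, 2 ≤ q → ∃ r' m : ℕ, q - 1 = p ^ r' * m ∧ B.q (m : O) ≠ 0 ∧
      (q : O) - 1 = B.π ^ (e * r') * (c ^ r' * m) ∧ ¬ p ∣ m := by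
    intro q hq
    obtain ⟨r', m, hm, hqm⟩ := Nat.exists_eq_pow_mul_and_not_dvd (show q - 1 ≠ 0 by omega) p
      hp.ne_one
    refine ⟨r', m, hqm, ?_, ?_, hm⟩
    · rw [map_natCast, Ne, hpκ]
      exact hm
    · have h1 : ((q - 1 : ℕ) : O) = (q : O) - 1 := by
        rw [Nat.cast_sub (by omega), Nat.cast_one]
      rw [← h1, hqm]
      push_cast
      rw [hc, mul_pow, ← pow_mul]
      ring
  by_cases hek : e ∣ k
  · obtain ⟨r, rfl⟩ := hek
    have hr0 : r ≠ 0 := by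
      rintro rfl
      omega
    obtain ⟨s, hs⟩ := B.surj ((B.q c ^ r)⁻¹)
    refine ⟨r, s, Or.inl hr0, by rw [hs]; exact inv_ne_zero (pow_ne_zero _ hqc), ?_⟩
    intro q hq
    obtain ⟨r', m, h1, h2, h3, h4⟩ := hqf q hq
    rcases Nat.lt_or_ge r' r with hlt | hge
    · left
      have h5 : e * r' < e * r := Nat.mul_lt_mul_of_pos_left hlt he
      refine ⟨e * r - e * r' - 1, e * r', c ^ r' * m, by omega, h3, ?_⟩
      rw [map_mul, map_pow]
      exact mul_ne_zero (pow_ne_zero _ hqc) h2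
    · right
      obtain ⟨t, rfl⟩ := Nat.exists_eq_add_of_le hge
      refine ⟨B.π ^ (e * t) * (c ^ (r + t) * m), ?_, ?_, ?_⟩
      · rw [h3]
        ring
      · rw [h1, pow_add, mul_assoc]
        exact dvd_mul_right _ _
      · have h5 : (q - 1) / p ^ r = p ^ t * m := by
          rw [h1, pow_add, mul_assoc, Nat.mul_div_cancel_left _ (pow_pos hp.pos r)]
        have h6 : ((p ^ t * m : ℕ) : κ) = B.q ((p : O) ^ t * m) := by
          push_cast
          rw [map_mul, map_pow, map_natCast, map_natCast]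
        rw [h5, h6, hc, hs, mul_pow, ← pow_mul, pow_add]
        simp only [map_mul, map_pow]
        have h8 : B.q c ^ r ≠ 0 := pow_ne_zero _ hqc
        field_simp
  · have he1 : e ≠ 1 := by
      rintro rfl
      exact hek (one_dvd k)
    refine ⟨0, 1, Or.inr he1, by rw [map_one]; exact one_ne_zero, ?_⟩
    intro q hq
    obtain ⟨r', m, h1, h2, h3, h4⟩ := hqf q hq
    have hne : e * r' ≠ k := fun h => hek ⟨r', h.symm⟩
    rcases lt_or_gt_of_ne hne with hlt | hgt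
    · left
      refine ⟨k - e * r' - 1, e * r', c ^ r' * m, by omega, h3, ?_⟩
      rw [map_mul, map_pow]
      exact mul_ne_zero (pow_ne_zero _ hqc) h2
    · right
      have hr0 : r' ≠ 0 := by
        rintro rfl
        omega
      refine ⟨B.π ^ (e * r' - k) * (c ^ r' * m), ?_, by rw [pow_zero]; exact one_dvd _, ?_⟩
      · rw [h3, ← mul_assoc (B.π ^ k), ← pow_add, Nat.add_sub_cancel' (le_of_lt hgt)]
      · have h5 : (((q - 1) / p ^ 0 : ℕ) : κ) = 0 := by
          rw [pow_zero, Nat.div_one, hpκ, h1]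
          exact (dvd_pow_self p hr0).mul_right _
        rw [h5, map_mul, map_pow, q_pi, zero_pow (by omega), zero_mul, mul_zero]

/-- three elements with a common factor taken out -/
theorem prim3 (a b c : O) (h : ¬ (a = 0 ∧ b = 0 ∧ c = 0)) :
    ∃ (m : ℕ) (a' b' c' : O), a = B.π ^ m * a' ∧ b = B.π ^ m * b' ∧ c = B.π ^ m * c' ∧
      ¬ (B.q a' = 0 ∧ B.q b' = 0 ∧ B.q c' = 0) := by
  classical
  have h1 : ∃ n : ℕ, ¬ (B.π ^ (n + 1) ∣ a ∧ B.π ^ (n + 1) ∣ b ∧ B.π ^ (n + 1) ∣ c) := by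
    by_contra hcon
    push Not at hcon
    apply h
    refine ⟨?_, ?_, ?_⟩
    · by_contra h0
      obtain ⟨n, hn⟩ := B.fin a h0
      exact hn (hcon n).1
    · by_contra h0
      obtain ⟨n, hn⟩ := B.fin b h0
      exact hn (hcon n).2.1
    · by_contra h0
      obtain ⟨n, hn⟩ := B.fin c h0
      exact hn (hcon n).2.2
  set n := Nat.find h1 with hn
  have h2 : ¬ (B.π ^ (n + 1) ∣ a ∧ B.π ^ (n + 1) ∣ b ∧ B.π ^ (n + 1) ∣ c) := Nat.find_spec h1
  have h3 : B.π ^ n ∣ a ∧ B.π ^ n ∣ b ∧ B.π ^ n ∣ c := by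
    rcases Nat.eq_zero_or_pos n with h0 | h0
    · rw [h0, pow_zero]
      exact ⟨one_dvd _, one_dvd _, one_dvd _⟩
    · have h3 := Nat.find_min h1 (m := n - 1) (by omega)
      rw [not_not, Nat.sub_add_cancel h0] at h3
      exact h3
  obtain ⟨⟨a', ha⟩, ⟨b', hb⟩, ⟨c', hc⟩⟩ := h3
  refine ⟨n, a', b', c', ha, hb, hc, ?_⟩
  rintro ⟨ha', hb', hc'⟩
  obtain ⟨x, hx⟩ := (B.ker _).1 ha'
  obtain ⟨y, hy⟩ := (B.ker _).1 hb'
  obtain ⟨z, hz⟩ := (B.ker _).1 hc'
  apply h2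
  refine ⟨⟨x, ?_⟩, ⟨y, ?_⟩, ⟨z, ?_⟩⟩
  · rw [ha, hx]; ring
  · rw [hb, hy]; ring
  · rw [hc, hz]; ring

end num

section
variable {O κ : Type} [CommRing O] [IsDomain O] [Field κ] {B : Bas O κ}
  {G : Type} [Group G] [TopologicalSpace G] [IsTopologicalGroup G]

/-- linear functions of the layer -/
theorem ev_lin {Ur : Set G} {T : G → G → ℕ → Prop} {ρ : G →* GL (Fin 2) O}
    (hG : FM2A.Good B Ur T ρ) {k : ℕ} (hk : 1 ≤ k) {X : G → Matrix (Fin 2) (Fin 2) O}
    (hX : ∀ g, mt (ρ g) = 1 + B.π ^ k • X g) (f : Matrix (Fin 2) (Fin 2) O →ₗ[O] O) :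
    ∃ F : G →* Multiplicative κ, Chr κ Ur F ∧ ∀ g, F g = Multiplicative.ofAdd (B.q (f (X g))) := by
  have hkπ : B.π ∣ B.π ^ k := dvd_pow_self _ (by omega)
  obtain ⟨F, hFo, hF, hFu⟩ := exists_hom ρ hG.cts (fun g => f (X g)) (fun g g' => by
      show B.π ∣ f (X (g * g')) - (f (X g) + f (X g'))
      rw [ev_mul hX, map_add, map_add, add_sub_cancel_left, map_smul, smul_eq_mul]
      exact hkπ.mul_right _) (k + 1) (fun g hg => by
      obtain ⟨α, hα⟩ := hg
      show B.π ∣ f (X g)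
      have h1 : X g = B.π • α := by
        refine smul_cancel (B := B) (k := k) ?_
        rw [hX, add_right_inj] at hα
        rw [hα, smul_smul, ← pow_succ]
      rw [h1, map_smul, smul_eq_mul]
      exact dvd_mul_right _ _)
  exact ⟨F, ⟨hFo, fun u hu => hFu u (hG.ur u hu)⟩, hF⟩

theorem ev_sq {Ur : Set G} {T : G → G → ℕ → Prop} {ρ : G →* GL (Fin 2) O}
    (hG : FM2A.Good B Ur T ρ) {k : ℕ} {X : G → Matrix (Fin 2) (Fin 2) O}
    (hX : ∀ g, mt (ρ g) = 1 + B.π ^ k • X g) {τ σ : G} {q : ℕ} (hT : T τ σ q) :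
    X τ * X τ = 0 := by
  have h1 := hG.sq τ σ q hT
  rw [hX, add_sub_cancel_left, Matrix.smul_mul, Matrix.mul_smul, smul_smul, ← pow_add] at h1
  refine smul_cancel (B := B) (k := k + k) ?_
  rw [h1, smul_zero]

theorem ev_rel {Ur : Set G} {T : G → G → ℕ → Prop} {ρ : G →* GL (Fin 2) O}
    (hG : FM2A.Good B Ur T ρ) {k : ℕ} {X : G → Matrix (Fin 2) (Fin 2) O}
    (hX : ∀ g, mt (ρ g) = 1 + B.π ^ k • X g) {τ σ : G} {q : ℕ} (hT : T τ σ q) :
    B.π ^ k • (X σ * X τ - (q : O) • (X τ * X σ)) = ((q : O) - 1) • X τ := by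
  have h1 := hG.rel τ σ q hT
  rw [hX τ, hX σ, add_sub_cancel_left] at h1
  refine smul_cancel (B := B) (k := k) ?_
  simp only [add_mul, mul_add, one_mul, mul_one, Matrix.smul_mul, Matrix.mul_smul, smul_add] at h1
  have h2 : B.π ^ k • (B.π ^ k • (X σ * X τ)) - (q : O) • (B.π ^ k • (B.π ^ k • (X τ * X σ))) =
      (q : O) • (B.π ^ k • X τ) - B.π ^ k • X τ := by
    rw [sub_eq_sub_iff_add_eq_add, add_comm, h1]
  rw [smul_sub, smul_sub, sub_smul, one_smul, smul_sub, smul_comm (B.π ^ k) (q : O) (X τ),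
    smul_comm (B.π ^ k) (q : O) (X τ * X σ),
    smul_comm (B.π ^ k) (q : O) (B.π ^ k • (X τ * X σ))]
  exact h2

/-- the leading term of an off-diagonal entry -/
theorem lead {Ur : Set G} {T : G → G → ℕ → Prop} {ρ : G →* GL (Fin 2) O}
    (hG : FM2A.Good B Ur T ρ) {k : ℕ} (hk : 1 ≤ k) {X : G → Matrix (Fin 2) (Fin 2) O}
    (hX : ∀ g, mt (ρ g) = 1 + B.π ^ k • X g) {i j : Fin 2} (hij : i ≠ j)
    (hex : ∃ g, X g i j ≠ 0) : ∃ (N : ℕ) (f : G → O) (F : G →* Multiplicative κ),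
      (∀ g, X g i j = B.π ^ N * f g) ∧ Chr κ Ur F ∧
      (∀ g, F g = Multiplicative.ofAdd (B.q (f g))) ∧ ∃ g, F g ≠ 1 := by
  classical
  -- minimal valuation
  have hex' : ∃ n : ℕ, ∃ g, ¬ B.π ^ (n + 1) ∣ X g i j := by
    obtain ⟨g, hg⟩ := hex
    obtain ⟨n, hn⟩ := B.fin _ hg
    exact ⟨n, g, hn⟩
  set N := Nat.find hex' with hN
  obtain ⟨g0, hg0⟩ : ∃ g, ¬ B.π ^ (N + 1) ∣ X g i j := Nat.find_spec hex'
  have hall : ∀ g, B.π ^ N ∣ X g i j := by
    intro g
    rcases Nat.eq_zero_or_pos N with h0 | h0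
    · rw [h0, pow_zero]
      exact one_dvd _
    · have h1 := Nat.find_min hex' (m := N - 1) (by omega)
      push Not at h1
      have h2 := h1 g
      rwa [Nat.sub_add_cancel h0] at h2
  choose f hf using hall
  have hmul : ∀ g h, (X g * X h) i j = X g i i * X h i j + X g i j * X h j j := by
    intro g h
    rw [Matrix.mul_apply, Fin.sum_univ_two]
    fin_cases i <;> fin_cases j
    · exact absurd rfl hij
    · rfl
    · exact add_comm _ _
    · exact absurd rfl hij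
  obtain ⟨F, hF1, hF2, hF3⟩ := exists_hom ρ hG.cts f (fun g h => by
    obtain ⟨k', rfl⟩ := Nat.exists_eq_add_of_le' hk
    refine ⟨B.π ^ k' * (X g i i * f h + f g * X h j j), ?_⟩
    apply dvd_cancel (B := B) (k := N)
    have e := congrFun (congrFun (ev_mul hX g h) i) j
    rw [Matrix.add_apply, Matrix.add_apply, Matrix.smul_apply, smul_eq_mul, hmul, hf, hf g,
      hf h] at e
    linear_combination e) (k + N + 1) (fun g ⟨α, hα⟩ => by
    refine ⟨α i j, ?_⟩
    apply dvd_cancel (B := B) (k := k + N)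
    rw [hX] at hα
    have e0 := add_left_cancel hα
    have e := congrFun (congrFun e0 i) j
    rw [Matrix.smul_apply, Matrix.smul_apply, smul_eq_mul, smul_eq_mul, hf g] at e
    linear_combination e)
  refine ⟨N, f, F, hf, ⟨hF1, fun u hu => hF3 u (hG.ur u hu)⟩, hF2, g0, ?_⟩
  rw [hF2]
  intro h0
  obtain ⟨c, hc⟩ := (B.ker _).1 (ofAdd_eq_one.1 h0)
  exact hg0 ⟨c, by rw [hf g0, hc]; ring⟩

/-- the second stage -/
theorem stage2 (h2 : (2 : κ) ≠ 0) {Ur : Set G} {T : G → G → ℕ → Prop} {DD : Set (Set G)}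
    {t : G → O} {p e : ℕ} (hp : p.Prime) (hpκ : ∀ n : ℕ, (n : κ) = 0 ↔ p ∣ n) (he : 1 ≤ e)
    {c : O} (hc : (p : O) = B.π ^ e * c) (hqc : B.q c ≠ 0)
    (hNR : ∀ r, (r ≠ 0 ∨ e ≠ 1) → NTr κ Ur T DD p r)
    (hq : ∀ τ σ q, T τ σ q → 2 ≤ q) {ρ : G →* GL (Fin 2) O} (hGo : GoodO B Ur T DD t ρ) {k : ℕ}
    (hk : 1 ≤ k) {X : G → Matrix (Fin 2) (Fin 2) O} (hX : ∀ g, mt (ρ g) = 1 + B.π ^ k • X g)
    (htr : ∀ g, B.π ∣ (X g).trace)
    (hT0 : ∀ τ σ q, T τ σ q → B.q (X τ 0 0) = 0) {D : Set G} (hD : D ∈ DD)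
    (hDy : ∀ g ∈ D, X g 1 0 = 0) {γ : G} (hγD : γ ∈ D) (hγ : X γ 0 1 = 0)
    (hne : B.q (X γ 0 0) ≠ 0) : HasLine ρ Set.univ := by
  have hG := hGo.good
  by_cases h01 : ∃ g, X g 0 1 ≠ 0
  swap
  · push Not at h01
    refine ⟨Pi.single 1 1, fun h => by simpa using congrFun h 1, fun g _ => ?_⟩
    have e : mt (ρ g) 0 1 = 0 := by
      rw [hX g]; simp [h01 g]
    simp [wed, Matrix.col, e]
  by_cases h10 : ∃ g, X g 1 0 ≠ 0
  swap
  · push Not at h10
    refine ⟨Pi.single 0 1, fun h => by simpa using congrFun h 0, fun g _ => ?_⟩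
    have e : mt (ρ g) 1 0 = 0 := by
      rw [hX g]; simp [h10 g]
    simp [wed, Matrix.col, e]
  exfalso
  obtain ⟨N, f, x, hf, hx, hxf, gx, hgx⟩ := lead hG hk hX (by decide) h01
  obtain ⟨N', f', y, hf', hy, hyf, gy, hgy⟩ := lead hG hk hX (by decide) h10
  obtain ⟨r, s, hr, hs, hsc⟩ := scale (B := B) hp hpκ he hc hqc hk
  obtain ⟨z, hz, hzf⟩ := ev_lin hG hk hX (((2 : O) * s) • ent 0 0)
  have hzf' : ∀ g, Multiplicative.toAdd (z g) = 2 * B.q s * B.q (X g 0 0) := by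
    intro g
    rw [hzf, toAdd_ofAdd]
    show B.q (((2 : O) * s) * X g 0 0) = _
    rw [map_mul, map_mul, map_ofNat]
  have hX11 : ∀ g, B.q (X g 1 1) = - B.q (X g 0 0) := by
    intro g
    have h1 := (B.ker _).2 (htr g)
    rw [Matrix.trace_fin_two, map_add] at h1
    linear_combination h1
  have hT1 : ∀ τ σ q, T τ σ q → B.q (X τ 1 1) = 0 := by
    intro τ σ q hT
    rw [hX11, hT0 τ σ q hT, neg_zero]
  have hz1 : ∀ g, z g = 1 ↔ B.q (X g 0 0) = 0 := by
    intro g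
    rw [← toAdd_eq_zero, hzf']
    constructor
    · intro h
      exact (mul_eq_zero.1 h).resolve_left (mul_ne_zero h2 hs)
    · intro h
      rw [h, mul_zero]
  have hx1 : ∀ g, x g = 1 ↔ B.q (f g) = 0 := fun g => by rw [hxf, ofAdd_eq_one]
  have hy1 : ∀ g, y g = 1 ↔ B.q (f' g) = 0 := fun g => by rw [hyf, ofAdd_eq_one]
  -- the relations
  have key : ∀ τ σ q, T τ σ q → (x τ ≠ 1 → p ^ r ∣ q - 1 ∧
      Multiplicative.toAdd (z σ) = (((q - 1) / p ^ r : ℕ) : κ)) ∧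
      (y τ ≠ 1 → p ^ r ∣ q - 1 ∧
      Multiplicative.toAdd (z σ) = -(((q - 1) / p ^ r : ℕ) : κ)) := by
    intro τ σ q hT
    have hrel := ev_rel hG hX hT
    have r01 := congrFun (congrFun hrel 0) 1
    have r10 := congrFun (congrFun hrel 1) 0
    simp only [Matrix.smul_apply, Matrix.sub_apply, Matrix.mul_apply, Fin.sum_univ_two,
      smul_eq_mul] at r01 r10
    rw [hf τ, hf σ] at r01
    rw [hf' τ, hf' σ] at r10
    have q00 := hT0 τ σ q hT
    have q11 := hT1 τ σ q hT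
    have s11 := hX11 σ
    have e1 : B.π ^ N * (B.π ^ k * (X σ 0 0 * f τ + f σ * X τ 1 1 -
        (q : O) * (X τ 0 0 * f σ + f τ * X σ 1 1))) = B.π ^ N * (((q : O) - 1) * f τ) := by
      linear_combination r01
    have e2 : B.π ^ N' * (B.π ^ k * (f' σ * X τ 0 0 + X σ 1 1 * f' τ -
        (q : O) * (f' τ * X σ 0 0 + X τ 1 1 * f' σ))) = B.π ^ N' * (((q : O) - 1) * f' τ) := by
      linear_combination r10
    have e1' := dvd_cancel e1
    have e2' := dvd_cancel e2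
    rcases hsc q (hq τ σ q hT) with ⟨d, V, u, hV, hu, hu0⟩ | ⟨u, hu, hdvd, hsu⟩
    · rw [hu, hV] at e1' e2'
      have e3 : B.π ^ V * (B.π ^ (d + 1) * (X σ 0 0 * f τ + f σ * X τ 1 1 -
          (q : O) * (X τ 0 0 * f σ + f τ * X σ 1 1))) = B.π ^ V * (u * f τ) := by
        linear_combination e1'
      have e4 : B.π ^ V * (B.π ^ (d + 1) * (f' σ * X τ 0 0 + X σ 1 1 * f' τ -
        (q : O) * (f' τ * X σ 0 0 + X τ 1 1 * f' σ))) = B.π ^ V * (u * f' τ) := by
        linear_combination e2'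
      have e5 := congrArg B.q (dvd_cancel e3)
      have e6 := congrArg B.q (dvd_cancel e4)
      rw [map_mul, map_pow, q_pi, zero_pow (Nat.succ_ne_zero d), zero_mul, map_mul] at e5 e6
      refine ⟨fun h => ?_, fun h => ?_⟩
      · exfalso
        apply h
        rw [hx1]
        exact (mul_eq_zero.1 e5.symm).resolve_left hu0
      · exfalso
        apply h
        rw [hy1]
        exact (mul_eq_zero.1 e6.symm).resolve_left hu0
    · have hq1 : B.q (q : O) = 1 := by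
        have h1 : B.q ((q : O) - 1) = 0 := by
          rw [hu, map_mul, map_pow, q_pi, zero_pow (by omega), zero_mul]
        rw [map_sub, map_one] at h1
        exact sub_eq_zero.1 h1
      rw [hu, mul_assoc] at e1' e2'
      have e5 := congrArg B.q (dvd_cancel e1')
      have e6 := congrArg B.q (dvd_cancel e2')
      simp only [map_sub, map_add, map_mul, hq1, q00, q11, s11, mul_zero, zero_mul, add_zero,
        zero_add, one_mul] at e5 e6
      refine ⟨fun h => ⟨hdvd, ?_⟩, fun h => ⟨hdvd, ?_⟩⟩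
      · rw [Ne, hx1] at h
        rw [hzf', ← hsu]
        apply mul_left_cancel₀ h
        linear_combination (B.q s) * e5
      · rw [Ne, hy1] at h
        rw [hzf', ← hsu]
        apply mul_left_cancel₀ h
        linear_combination -(B.q s) * e6
  have hfin : (∀ g, x g = 1) ∨ ∀ g, y g = 1 := by
   refine hNR r hr x y z hx hy hz (fun τ σ q hT => (hz1 τ).2 (hT0 τ σ q hT))
    (fun τ σ q hT => (key τ σ q hT).1) (fun τ σ q hT => (key τ σ q hT).2)
    ⟨D, hD, fun g hg => (hy1 g).2 ?_, γ, hγD, (hx1 γ).2 ?_, fun h => hne ((hz1 γ).1 h)⟩ ?_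
   · have h1 := hf' g
     rw [hDy g hg] at h1
     rw [(mul_eq_zero.1 h1.symm).resolve_left (ppow_ne B N'), map_zero]
   · have h1 := hf γ
     rw [hγ] at h1
     rw [(mul_eq_zero.1 h1.symm).resolve_left (ppow_ne B N), map_zero]
   · -- the dependence on the decomposition groups
     intro D' hD'
     obtain ⟨v, hv, hvl⟩ := hGo.prim hD'
     have hvX : ∀ g ∈ D', (X g 0 0 - X g 1 1) * (v 0 * v 1) + f g * (B.π ^ N * v 1 ^ 2) -
         f' g * (B.π ^ N' * v 0 ^ 2) = 0 := by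
       intro g hg
       have e := hvl g hg
       rw [hX g, Matrix.add_mulVec, Matrix.one_mulVec, Matrix.smul_mulVec, wed_add_left, wed_self,
         zero_add, wed_smul_left] at e
       have e1 := (mul_eq_zero.1 e).resolve_left (ppow_ne B k)
       simp only [wed, Matrix.mulVec, dotProduct, Fin.sum_univ_two] at e1
       rw [hf g, hf' g] at e1
       linear_combination e1
     obtain ⟨m, a', b', c', ha, hb, hc', hne'⟩ := prim3 (B := B) (v 0 * v 1) (B.π ^ N * v 1 ^ 2)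
       (B.π ^ N' * v 0 ^ 2) (by
         rintro ⟨-, h4, h5⟩
         have h6 : v 1 = 0 :=
           pow_eq_zero_iff two_ne_zero |>.1 ((mul_eq_zero.1 h4).resolve_left (ppow_ne B N))
         have h7 : v 0 = 0 :=
           pow_eq_zero_iff two_ne_zero |>.1 ((mul_eq_zero.1 h5).resolve_left (ppow_ne B N'))
         rcases hv with h8 | h8
         · exact h8 (by rw [h7, map_zero])
         · exact h8 (by rw [h6, map_zero]))
     refine ⟨B.q s * B.q b', -(B.q s * B.q c'), B.q a', ?_, fun g hg => ?_⟩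
     · rintro ⟨h4, h5, h6⟩
       apply hne'
       refine ⟨h6, (mul_eq_zero.1 h4).resolve_left hs, ?_⟩
       exact (mul_eq_zero.1 (neg_eq_zero.1 h5)).resolve_left hs
     · have e := hvX g hg
       rw [ha, hb, hc'] at e
       have e1 : B.π ^ m * ((X g 0 0 - X g 1 1) * a' + f g * b' - f' g * c') = B.π ^ m * 0 := by
         linear_combination e
       have e2 := congrArg B.q (dvd_cancel e1)
       simp only [map_add, map_sub, map_mul, map_zero, hX11 g] at e2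
       rw [hzf', hxf, hyf, toAdd_ofAdd, toAdd_ofAdd]
       linear_combination B.q s * e2
  rcases hfin with h | h
  · exact hgx (h gx)
  · exact hgy (h gy)

end

end Pool.Agent.Q15.FM3B
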