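import Pool.Agent.Q15.FM3B

/-! Two-dimensional representations with local lines: the main theorem for groups. -/

set_option autoImplicit false
set_option linter.unusedSectionVars false

namespace Pool.Agent.Q15.FM3C

open Matrix Pool.Agent.TH831.OE Pool.Agent.Q15.FM2A Pool.Agent.Q15.FM2B
  Pool.Agent.Q15.FM3A Pool.Agent.Q15.FM3B
open Pool.Agent.TH831.OT (wed wed_mulVec wed_self wed_add_left wed_smul_left wed_smul_right
  eig_of_wed)

section
variable {O κ : Type} [CommRing O] [IsDomain O] [Field κ] {B : Bas O κ}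

/-- diagonalization -/
theorem diag_conj (X : Matrix (Fin 2) (Fin 2) O) (v : Fin 2 → O)
    (hv : B.q (v 0) ≠ 0 ∨ B.q (v 1) ≠ 0) (hX : wed (X *ᵥ v) v = 0)
    (hne : ∀ x1 : O, X.det = x1 * (X.trace - x1) → B.q (x1 - (X.trace - x1)) ≠ 0) :
    ∃ (U : Matrix (Fin 2) (Fin 2) O) (x1 : O), U.det = 1 ∧ (fun i => U i 0) = v ∧
      X.det = x1 * (X.trace - x1) ∧
      U.adjugate * X * U = !![x1, 0; 0, X.trace - x1] := by
  obtain ⟨U1, hU1, hc⟩ := exists_unimod B v hv
  set Y := U1.adjugate * X * U1 with hY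
  have hv' : v = U1 *ᵥ (Pi.single 0 1) := by
    rw [Matrix.mulVec_single_one, ← hc]
    rfl
  have hY10 : Y 1 0 = 0 := by
    have h1 : wed (Y *ᵥ (Pi.single 0 1)) (Pi.single 0 1) = wed (X *ᵥ v) v := by
      conv_rhs => rw [hv']
      have h2 : X *ᵥ (U1 *ᵥ (Pi.single 0 1)) = U1 *ᵥ (Y *ᵥ (Pi.single 0 1)) := by
        rw [Matrix.mulVec_mulVec, Matrix.mulVec_mulVec, hY, ← mul_assoc, ← mul_assoc,
          Matrix.mul_adjugate, hU1, one_smul, one_mul]
      rw [h2, wed_mulVec, hU1, one_mul]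
    rw [hX] at h1
    simp [wed, Matrix.col] at h1
    exact h1
  have htr : Y.trace = X.trace := by
    rw [hY, Matrix.trace_mul_comm, ← mul_assoc, Matrix.mul_adjugate, hU1, one_smul, one_mul]
  have hdet : Y.det = X.det := by
    rw [hY, Matrix.det_mul, Matrix.det_mul, Matrix.det_adjugate, hU1]
    simp
  set x1 := Y 0 0 with hx1
  have hx2 : Y 1 1 = X.trace - x1 := by
    rw [← htr, Matrix.trace_fin_two]
    ring
  have hd : X.det = x1 * (X.trace - x1) := by
    rw [← hdet, Matrix.det_fin_two, hY10, ← hx2]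
    ring
  obtain ⟨w, hw⟩ := B.unit _ (hne x1 hd)
  -- `r (x2 - x1) = s`
  set r := -(Y 0 1 * ((w⁻¹ : Oˣ) : O)) with hr
  have hr' : r * x1 + Y 0 1 - r * (X.trace - x1) = 0 := by
    have h1 : ((w⁻¹ : Oˣ) : O) * (x1 - (X.trace - x1)) = 1 := by
      rw [← hw]
      exact Units.inv_mul w
    rw [hr]
    linear_combination -(Y 0 1) * h1
  refine ⟨U1 * !![1, r; 0, 1], x1, ?_, ?_, hd, ?_⟩
  · rw [Matrix.det_mul, hU1, Matrix.det_fin_two_of]
    ring
  · funext i
    rw [Matrix.mul_apply, Fin.sum_univ_two, ← hc]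
    simp
  · have h1 : (U1 * !![1, r; 0, 1]).adjugate * X * (U1 * !![1, r; 0, 1]) =
        (!![1, r; 0, 1] : Matrix (Fin 2) (Fin 2) O).adjugate * Y * !![1, r; 0, 1] := by
      rw [Matrix.adjugate_mul_distrib, hY]
      simp only [mul_assoc]
    have hYe : Y = !![x1, Y 0 1; 0, X.trace - x1] := by
      conv_lhs => rw [Matrix.eta_fin_two Y, hY10, hx2, ← hx1]
    generalize Y 0 1 = y at hr' hYe
    rw [h1, hYe, Matrix.adjugate_fin_two_of, Matrix.mul_fin_two, Matrix.mul_fin_two]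
    have f1 : (1 * x1 + -r * 0) * 1 + (1 * y + -r * (X.trace - x1)) * 0 = x1 := by ring
    have f2 : (1 * x1 + -r * 0) * r + (1 * y + -r * (X.trace - x1)) * 1 = 0 := by
      linear_combination hr'
    have f3 : (-0 * x1 + 1 * 0) * 1 + (-0 * y + 1 * (X.trace - x1)) * 0 = 0 := by ring
    have f4 : (-0 * x1 + 1 * 0) * r + (-0 * y + 1 * (X.trace - x1)) * 1 = X.trace - x1 := by ring
    rw [f1, f2, f3, f4]

/-- the determinant of a trace zero matrix with an eigenvector -/
theorem det_of_eig {C : Matrix (Fin 2) (Fin 2) κ} {w : Fin 2 → κ} (hw0 : w ≠ 0) {c : κ}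
    (hc : C *ᵥ w = c • w) (htr : C 0 0 + C 1 1 = 0) : C.det = -(c ^ 2) := by
  have e0 := congrFun hc 0
  have e1 := congrFun hc 1
  simp only [Matrix.mulVec, dotProduct, Fin.sum_univ_two, Pi.smul_apply, smul_eq_mul] at e0 e1
  rw [Matrix.det_fin_two]
  have e3 : C 1 1 = - C 0 0 := by linear_combination htr
  rw [e3] at e1 ⊢
  by_cases h0 : w 0 = 0
  · have h1 : w 1 ≠ 0 := by
      intro h1
      apply hw0
      funext i
      fin_cases i
      · exact h0
      · exact h1
    apply mul_left_cancel₀ h1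
    rw [h0] at e0 e1
    linear_combination (C 0 0 - c) * e1 - C 1 0 * e0
  · apply mul_left_cancel₀ h0
    linear_combination -(C 0 0 + c) * e0 - C 0 1 * e1

end

section
variable {O κ : Type} [CommRing O] [IsDomain O] [Field κ] {B : Bas O κ}
  {G : Type} [Group G] [TopologicalSpace G] [IsTopologicalGroup G]

/-- **even levels** -/
theorem ev_step (h2 : (2 : κ) ≠ 0) {Ur : Set G} {T : G → G → ℕ → Prop} {DD : Set (Set G)}
    {t : G → O} (hNP : NPo κ Ur T DD)
    {p e : ℕ} (hp : p.Prime) (hpκ : ∀ n : ℕ, (n : κ) = 0 ↔ p ∣ n) (he : 1 ≤ e)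
    {c : O} (hc : (p : O) = B.π ^ e * c) (hqc : B.q c ≠ 0)
    (hNT : ∀ r, (r ≠ 0 ∨ e ≠ 1) → NTo κ Ur T DD p r)
    (hNR : ∀ r, (r ≠ 0 ∨ e ≠ 1) → NTr κ Ur T DD p r)
    (hq : ∀ τ σ q, T τ σ q → 2 ≤ q) {ρ : G →* GL (Fin 2) O} (hGo : GoodO B Ur T DD t ρ) {k : ℕ}
    (hk : 1 ≤ k) (hev : Ev B k ρ) :
    (∃ ρ' : G →* GL (Fin 2) O, Rel ρ ρ' ∧ Od B k ρ') ∨ HasLine ρ Set.univ := by
  have hG := hGo.good
  choose X hX using hev
  have htr := ev_trace hk hX hGo.det
  have htr' : ∀ g, red B (X g) 0 0 + red B (X g) 1 1 = 0 := by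
    intro g
    rw [red_apply, red_apply, ← map_add, ← Matrix.trace_fin_two, B.ker]
    exact htr g
  have hTsq : ∀ τ σ q, T τ σ q → red B (X τ) * red B (X τ) = 0 := by
    intro τ σ q hT
    rw [← map_mul, ev_sq hG hX hT, map_zero]
  -- local lines
  have hvX : ∀ D ∈ DD, ∃ v : Fin 2 → O, (B.q (v 0) ≠ 0 ∨ B.q (v 1) ≠ 0) ∧
      ∀ g ∈ D, wed (X g *ᵥ v) v = 0 := by
    intro D hD
    obtain ⟨v, hv, hvl⟩ := hGo.prim hD
    refine ⟨v, hv, fun g hg => ?_⟩
    have e := hvl g hg
    rw [hX g, Matrix.add_mulVec, Matrix.one_mulVec, Matrix.smul_mulVec, wed_add_left, wed_self,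
      zero_add, wed_smul_left] at e
    exact (mul_eq_zero.1 e).resolve_left (ppow_ne B k)
  -- a common eigenvector
  have hw : ∃ w : Fin 2 → κ, w ≠ 0 ∧ ∀ g, wed (red B (X g) *ᵥ w) w = 0 := by
    obtain ⟨r, s, hr, hs, hsc⟩ := scale (B := B) hp hpκ he hc hqc hk
    have hex : ∀ i j : Fin 2, ∃ F : G →* Multiplicative κ, Chr κ Ur F ∧
        ∀ g, F g = Multiplicative.ofAdd (B.q (s * X g i j)) := by
      intro i j
      obtain ⟨F, hF, hF2⟩ := ev_lin hG hk hX (s • ent i j)
      exact ⟨F, hF, hF2⟩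
    choose F hF hF2 using hex
    have hmat : ∀ g, mat F g = B.q s • red B (X g) := by
      intro g
      ext i j
      show Multiplicative.toAdd (F i j g) = _
      rw [hF2, toAdd_ofAdd, Matrix.smul_apply, red_apply, smul_eq_mul, map_mul]
    have hloc : ∀ τ σ q, T τ σ q → (¬ p ^ r ∣ q - 1 → red B (X τ) = 0) ∧
        B.q s • (red B (X σ) * red B (X τ) - red B (X τ) * red B (X σ)) =
          (((q - 1) / p ^ r : ℕ) : κ) • red B (X τ) := by
      intro τ σ q hT
      have hrel := ev_rel hG hX hT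
      rcases hsc q (hq τ σ q hT) with ⟨d, V, u, hV, hu, hu0⟩ | ⟨u, hu, hdvd, hsu⟩
      · have h0 : red B (X τ) = 0 := by
          rw [hu, hV, pow_add, mul_smul, mul_smul] at hrel
          have h3 := congrArg (red B) (smul_cancel (B := B) (k := V) hrel)
          rw [red_smul, red_smul, map_pow, q_pi, zero_pow (Nat.succ_ne_zero d), zero_smul] at h3
          exact (smul_eq_zero.1 h3.symm).resolve_left hu0
        refine ⟨fun _ => h0, ?_⟩
        rw [h0, mul_zero, zero_mul, sub_zero, smul_zero, smul_zero]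
      · have hq1 : B.q (q : O) = 1 := by
          have h1 : B.q ((q : O) - 1) = 0 := by
            rw [hu, map_mul, map_pow, q_pi, zero_pow (by omega), zero_mul]
          rw [map_sub, map_one] at h1
          exact sub_eq_zero.1 h1
        rw [hu, mul_smul] at hrel
        have h3 := congrArg (red B) (smul_cancel (B := B) (k := k) hrel)
        rw [map_sub, red_smul, red_smul, hq1, one_smul, map_mul, map_mul] at h3
        refine ⟨fun h => absurd hdvd h, ?_⟩
        rw [h3, smul_smul, hsu]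
    obtain ⟨w, hw, hww⟩ := hNT r hr F hF (fun g => by
        rw [hmat, Matrix.smul_apply, Matrix.smul_apply, smul_eq_mul, smul_eq_mul, ← mul_add,
          htr', mul_zero])
      (fun τ σ q hT => by
        rw [hmat, Matrix.smul_mul, Matrix.mul_smul, hTsq τ σ q hT, smul_zero, smul_zero])
      (fun τ σ q hT hd => by
        rw [hmat, (hloc τ σ q hT).1 hd, smul_zero]) (fun τ σ q hT => by
        rw [hmat, hmat, Matrix.smul_mul, Matrix.mul_smul, Matrix.smul_mul, Matrix.mul_smul,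
          ← smul_sub, ← smul_sub, (hloc τ σ q hT).2, smul_comm]) (fun D hD => by
        obtain ⟨v, hv, hvl⟩ := hvX D hD
        refine ⟨fun i => B.q (v i), ?_, fun g hg => ?_⟩
        · intro h
          rcases hv with h1 | h1
          · exact h1 (congrFun h 0)
          · exact h1 (congrFun h 1)
        · rw [hmat, Matrix.smul_mulVec, wed_smul_left, wed_red, hvl g hg, map_zero, mul_zero])
    refine ⟨w, hw, fun g => ?_⟩
    have h3 := hww g
    rw [hmat, Matrix.smul_mulVec, wed_smul_left] at h3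
    exact (mul_eq_zero.1 h3).resolve_left hs
  obtain ⟨w, hw0, hww⟩ := hw
  by_cases hall : ∀ g, red B (X g) *ᵥ w = 0
  · left
    exact move1 ρ X hX w hw0 hall htr
  right
  -- a decomposition group with a nonzero eigenvalue
  have hTw : ∀ τ σ q, T τ σ q → red B (X τ) *ᵥ w = 0 := by
    intro τ σ q hT
    obtain ⟨c', hc'⟩ := eig_of_wed hw0 (hww τ)
    have h3 : (red B (X τ) * red B (X τ)) *ᵥ w = c' • c' • w := by
      rw [← Matrix.mulVec_mulVec, hc', Matrix.mulVec_smul, hc']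
    rw [hTsq τ σ q hT, Matrix.zero_mulVec, smul_smul] at h3
    rcases smul_eq_zero.1 h3.symm with h4 | h4
    · rw [hc', mul_self_eq_zero.1 h4, zero_smul]
    · exact absurd h4 hw0
  obtain ⟨D, hD, γ, hγD, hγ⟩ : ∃ D ∈ DD, ∃ γ ∈ D, red B (X γ) *ᵥ w ≠ 0 := by
    by_contra hcon
    push Not at hcon
    apply hall
    intro g
    funext i
    choose w' hw' using fun j => B.surj (w j)
    have hf : ∀ M : Matrix (Fin 2) (Fin 2) O,
        B.q ((w' 0 • ent i 0 + w' 1 • ent i 1 : Matrix (Fin 2) (Fin 2) O →ₗ[O] O) M) =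
          (red B M *ᵥ w) i := by
      intro M
      show B.q (w' 0 * M i 0 + w' 1 * M i 1) = _
      rw [Matrix.mulVec, dotProduct, Fin.sum_univ_two, map_add, map_mul, map_mul, hw', hw',
        red_apply, red_apply]
      ring
    obtain ⟨F, hF, hF2⟩ := ev_lin hG hk hX (w' 0 • ent i 0 + w' 1 • ent i 1)
    have h1 := gen_triv_o hNP F hF (fun τ σ q hT => by
      rw [hF2, hf, hTw τ σ q hT]
      rfl) (fun D hD g hg => by
      rw [hF2, hf, hcon D hD g hg]
      rfl) g
    rw [hF2, hf] at h1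
    exact ofAdd_eq_one.1 h1
  obtain ⟨v, hv, hvl⟩ := hvX D hD
  obtain ⟨c1, hc1⟩ := eig_of_wed hw0 (hww γ)
  have hcc : c1 ≠ 0 := by
    rintro rfl
    exact hγ (by rw [hc1, zero_smul])
  have hqdet : B.q (X γ).det = -(c1 ^ 2) := by
    rw [← det_of_eig hw0 hc1 (htr' γ), Matrix.det_fin_two, Matrix.det_fin_two, map_sub, map_mul,
      map_mul]
    rfl
  have hqtr : B.q (X γ).trace = 0 := (B.ker _).2 (htr _)
  have hx1 : ∀ x1 : O, (X γ).det = x1 * ((X γ).trace - x1) → B.q x1 ≠ 0 := by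
    intro x1 h h0
    rw [h, map_mul, h0, zero_mul] at hqdet
    exact pow_ne_zero 2 hcc (by linear_combination hqdet)
  obtain ⟨U, x1, hU, hUv, hdet, hY⟩ := diag_conj (B := B) (X γ) v hv (hvl γ hγD) (fun x1 h => by
    rw [map_sub, map_sub, hqtr]
    have e := hx1 x1 h
    intro h0
    have e2 : (2 : κ) * B.q x1 = 0 := by linear_combination h0
    exact e ((mul_eq_zero.1 e2).resolve_left h2))
  obtain ⟨ρ', hρ', hr⟩ := exists_conj ρ U hU
  have hG' := hGo.conj hρ'
  set X' : G → Matrix (Fin 2) (Fin 2) O := fun g => U.adjugate * X g * U with hX'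
  have hX'd : ∀ g, X' g = U.adjugate * X g * U := fun g => rfl
  have hX'e : ∀ g, mt (ρ' g) = 1 + B.π ^ k • X' g := by
    intro g
    rw [hr, hX, mul_add, mul_one, add_mul, Matrix.adjugate_mul, hU, one_smul, Matrix.mul_smul,
      Matrix.smul_mul]
  have htrX' : ∀ g, B.π ∣ (X' g).trace := by
    intro g
    rw [hX'd, Matrix.trace_mul_comm, ← mul_assoc, Matrix.mul_adjugate, hU, one_smul, one_mul]
    exact htr g
  have e3 : X' γ = !![x1, 0; 0, (X γ).trace - x1] := hY
  -- the local line is the first basis vector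
  have hD10 : ∀ g ∈ D, X' g 1 0 = 0 := by
    intro g hg
    have hv' : v = U *ᵥ (Pi.single 0 1) := by
      rw [Matrix.mulVec_single_one, ← hUv]
      rfl
    have h1 : wed (X' g *ᵥ (Pi.single 0 1)) (Pi.single 0 1) = wed (X g *ᵥ v) v := by
      conv_rhs => rw [hv']
      have h2 : X g *ᵥ (U *ᵥ (Pi.single 0 1)) = U *ᵥ (X' g *ᵥ (Pi.single 0 1)) := by
        rw [Matrix.mulVec_mulVec, Matrix.mulVec_mulVec, hX'd, ← mul_assoc, ← mul_assoc,
          Matrix.mul_adjugate, hU, one_smul, one_mul]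
      rw [h2, wed_mulVec, hU, one_mul]
    rw [hvl g hg] at h1
    simp [wed, Matrix.col] at h1
    exact h1
  -- the common eigenvector in the new basis
  have hRU : red B U * red B U.adjugate = 1 := by
    rw [← map_mul, Matrix.mul_adjugate, hU, one_smul, map_one]
  have hUR : red B U.adjugate * red B U = 1 := by
    rw [← map_mul, Matrix.adjugate_mul, hU, one_smul, map_one]
  set w' := red B U.adjugate *ᵥ w with hw'
  have hw'0 : w' ≠ 0 := by
    intro h
    apply hw0
    have h1 : red B U *ᵥ w' = w := by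
      rw [hw', Matrix.mulVec_mulVec, hRU, Matrix.one_mulVec]
    rw [← h1, h, Matrix.mulVec_zero]
  have hw'w : ∀ g, wed (red B (X' g) *ᵥ w') w' = 0 := by
    intro g
    have h1 : red B (X' g) *ᵥ w' = red B U.adjugate *ᵥ (red B (X g) *ᵥ w) := by
      rw [hX'd, hw', map_mul, map_mul, Matrix.mulVec_mulVec, mul_assoc, hRU, mul_one,
        ← Matrix.mulVec_mulVec]
    rw [h1, hw', wed_mulVec, hww g, mul_zero]
  have hw'c : w' 0 = 0 ∨ w' 1 = 0 := by
    have h1 := hw'w γ
    rw [e3] at h1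
    simp only [wed, Matrix.mulVec, dotProduct, Fin.sum_univ_two, red_apply, Matrix.of_apply,
      Matrix.cons_val', Matrix.cons_val_zero, Matrix.cons_val_one, map_zero,
      map_sub, hqtr, Matrix.cons_val_fin_one] at h1
    have h3 : (2 : κ) * B.q x1 * (w' 0 * w' 1) = 0 := by linear_combination h1
    have h4 := (mul_eq_zero.1 h3).resolve_left (mul_ne_zero h2 (hx1 x1 hdet))
    exact mul_eq_zero.1 h4
  have hT0 : ∀ τ σ q, T τ σ q → B.q (X' τ 0 0) = 0 := by
    intro τ σ q hT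
    obtain ⟨h3, h4⟩ := sq_zero_entries (ev_sq hG'.good hX'e hT)
    have h5 : B.q (X' τ 0 1) * B.q (X' τ 1 0) = 0 := by
      have h6 := hw'w τ
      simp only [wed, Matrix.mulVec, dotProduct, Fin.sum_univ_two, red_apply] at h6
      rcases hw'c with h7 | h7
      · have h8 : w' 1 ≠ 0 := by
          intro h8
          apply hw'0
          funext i
          fin_cases i
          · exact h7
          · exact h8
        rw [h7] at h6
        have h9 : B.q (X' τ 0 1) * (w' 1 * w' 1) = 0 := by linear_combination h6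
        rw [(mul_eq_zero.1 h9).resolve_right (mul_ne_zero h8 h8), zero_mul]
      · have h8 : w' 0 ≠ 0 := by
          intro h8
          apply hw'0
          funext i
          fin_cases i
          · exact h8
          · exact h7
        rw [h7] at h6
        have h9 : B.q (X' τ 1 0) * (w' 0 * w' 0) = 0 := by linear_combination -h6
        rw [(mul_eq_zero.1 h9).resolve_right (mul_ne_zero h8 h8), mul_zero]
    have h6 := congrArg B.q h4
    have h7 := congrArg B.q h3
    rw [map_sub, map_mul, map_mul, h5, map_zero, sub_zero] at h6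
    rw [map_add, map_zero] at h7
    have h8 : B.q (X' τ 0 0) * B.q (X' τ 0 0) = 0 := by
      linear_combination B.q (X' τ 0 0) * h7 - h6
    exact mul_self_eq_zero.1 h8
  refine hρ'.symm.line (stage2 h2 hp hpκ he hc hqc hNR hq hG' hk hX'e htrX' hT0 hD hD10 hγD ?_ ?_)
  · rw [e3]
    simp
  · rw [e3]
    simpa using hx1 x1 hdet

/-- **the main theorem for groups** -/
theorem main (h2 : (2 : κ) ≠ 0) {Ur : Set G} {T : G → G → ℕ → Prop} {DD : Set (Set G)}
    {t : G → O} (hNP : NPo κ Ur T DD)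
    {p e : ℕ} (hp : p.Prime) (hpκ : ∀ n : ℕ, (n : κ) = 0 ↔ p ∣ n) (he : 1 ≤ e)
    {c : O} (hc : (p : O) = B.π ^ e * c) (hqc : B.q c ≠ 0)
    (hNT : ∀ r, (r ≠ 0 ∨ e ≠ 1) → NTo κ Ur T DD p r)
    (hNR : ∀ r, (r ≠ 0 ∨ e ≠ 1) → NTr κ Ur T DD p r)
    (hq : ∀ τ σ q, T τ σ q → 2 ≤ q) (hqO : ∀ τ σ q, T τ σ q → (q : O) - 1 ≠ 0)
    {ρ : G →* GL (Fin 2) O} (hGo : GoodO B Ur T DD t ρ)
    (hod : ∃ ρ' : G →* GL (Fin 2) O, Rel ρ ρ' ∧ Od B 0 ρ') : HasLine ρ Set.univ := by
  by_cases htriv : ∀ g, t g = 2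
  · exact line_of_trace hGo.det fun g => by rw [hGo.tr, htriv]
  · push Not at htriv
    obtain ⟨g0, hg0⟩ := htriv
    obtain ⟨B', hB'⟩ := B.fin _ (sub_ne_zero.2 hg0)
    set L := B' + 1 with hL
    have key : ∀ N : ℕ, (∀ ρ : G →* GL (Fin 2) O, ∀ m, GoodO B Ur T DD t ρ → Od B m ρ →
        L ≤ m + N → HasLine ρ Set.univ) ∧ (∀ ρ : G →* GL (Fin 2) O, ∀ k, GoodO B Ur T DD t ρ →
        1 ≤ k → Ev B k ρ → L ≤ k + N → HasLine ρ Set.univ) := by
      intro N
      induction N with
      | zero =>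
        have hev : ∀ ρ : G →* GL (Fin 2) O, ∀ k, GoodO B Ur T DD t ρ → Ev B k ρ → L ≤ k →
            False := by
          intro ρ k hG hEv hBk
          obtain ⟨X, hX⟩ := hEv g0
          apply hB'
          have e := hG.tr g0
          rw [hX, Matrix.trace_add, Matrix.trace_smul, Matrix.trace_one, Fintype.card_fin,
            smul_eq_mul] at e
          refine (pow_dvd_pow B.π hBk).trans ⟨X.trace, ?_⟩
          rw [← e]
          push_cast
          ring
        refine ⟨fun ρ m hG hOd hBm => ?_, fun ρ k hG _ hEv hBk => (hev ρ k hG hEv (by omega)).elim⟩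
        exfalso
        refine hev ρ m hG (fun g => ?_) (by omega)
        obtain ⟨a, b, c, d, h⟩ := hOd g
        exact ⟨_, h⟩
      | succ N ih =>
        have h1 : ∀ ρ : G →* GL (Fin 2) O, ∀ m, GoodO B Ur T DD t ρ → Od B m ρ →
            L ≤ m + (N + 1) → HasLine ρ Set.univ := by
          intro ρ m hG hOd hBm
          obtain ⟨ρ', hρ', hEv⟩ := FM3A.od_step hNP hqO hG hOd
          exact hρ'.symm.line (ih.2 ρ' (m + 1) (hG.conj hρ') (by omega) hEv (by omega))
        refine ⟨h1, fun ρ k hG hk hEv hBk => ?_⟩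
        rcases ev_step h2 hNP hp hpκ he hc hqc hNT hNR hq hG hk hEv with ⟨ρ', hρ', hOd⟩ | h
        · exact hρ'.symm.line (h1 ρ' k (hG.conj hρ') hOd hBk)
        · exact h
    obtain ⟨ρ', hρ', hOd⟩ := hod
    exact hρ'.symm.line ((key L).1 ρ' 0 (hGo.conj hρ') hOd (by omega))

end

end Pool.Agent.Q15.FM3C
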