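import Pool.Agent.Q15.FM3C

/-! Two-dimensional representations of number fields with local lines. -/

set_option autoImplicit false
set_option linter.unusedSectionVars false

namespace Pool.Agent.Q15.FM3D

open NumberField Matrix IsLocalRing Pool.Agent.W569.FM Pool.Agent.W569.UF Pool.Agent.W571.FM
  Pool.Agent.TH831.OE Pool.Agent.Q15.FMNT Pool.Agent.Q15.FMScal Pool.Agent.Q15.FMRankB
  Pool.Agent.Q15.FMMain Pool.Agent.Q15.FM2A Pool.Agent.Q15.FM2B Pool.Agent.Q15.FM2C
  Pool.Agent.Q15.FM3A Pool.Agent.Q15.FM3B Pool.Agent.Q15.FM3C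

variable {k : Type} [Field k] [NumberField k]

/-- the primes in `S` and the primes above `p` -/
def wp (p : ℕ) (S : Set (Ideal (𝓞 k))) : Set (Ideal (𝓞 k)) := {v | v ∈ S ∨ (p : 𝓞 k) ∈ v}

/-- the decomposition group -/
def DS (P : Ideal (OO k)) : Set (GF k) := {g | ∀ x : OO k, g • x ∈ P ↔ x ∈ P}

/-- the decomposition groups above `p` -/
def DP (k : Type) [Field k] (p : ℕ) : Set (Set (GF k)) :=
  {D | ∃ P : Ideal (OO k), P.IsMaximal ∧ (p : OO k) ∈ P ∧
    D = {g | ∀ x : OO k, g • x ∈ P ↔ x ∈ P}}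

variable {A : Type} [CommRing A] [IsDomain A] [IsDiscreteValuationRing A]

/-- **the theorem for number fields** -/
theorem main {p e : ℕ} (hp : p.Prime) (hp2 : p ≠ 2) (S : Set (Ideal (𝓞 k)))
    (hS : ∀ v ∈ S, (p : 𝓞 k) ∉ v) [IsAdicComplete (maximalIdeal A) A]
    [TopologicalSpace A] (hA : IsAdic (maximalIdeal A)) (hfin : Finite (ResidueField A))
    (he : 1 ≤ e) (h0 : (p : A) ∈ maximalIdeal A ^ e) (h1 : (p : A) ∉ maximalIdeal A ^ (e + 1))
    (hNP : NPo (ResidueField A) (UrS (wp p S)) (TS S) (DP k p))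
    (hNT : ∀ r, (r ≠ 0 ∨ e ≠ 1) → NTo (ResidueField A) (UrS (wp p S)) (TS S) (DP k p) p r)
    (hNR : ∀ r, (r ≠ 0 ∨ e ≠ 1) → NTr (ResidueField A) (UrS (wp p S)) (TS S) (DP k p) p r)
    (ρ : GF k →* GL (Fin 2) A) (hρ : Continuous ρ) (hur : ∀ τ ∈ UrS (wp p S), ρ τ = 1)
    (hres : ∃ a : GF k →* (ResidueField A)ˣ, ∀ g,
      IsNilpotent ((ρ g : Matrix (Fin 2) (Fin 2) A).map (residue A) -
        (a g : ResidueField A) • (1 : Matrix (Fin 2) (Fin 2) (ResidueField A))))
    (hunip : 2 * e < p - 1 ∨ ∀ P : Ideal (OO k), P.IsMaximal → cm P ∈ S →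
      p ∣ Ideal.absNorm (cm P) - 1 →
      ∀ τ : GF k, InInertia P τ → (mt (ρ τ) - 1) * (mt (ρ τ) - 1) = 0)
    (hline : ∀ P : Ideal (OO k), P.IsMaximal → (p : OO k) ∈ P →
      HasLine ρ {g | ∀ x : OO k, g • x ∈ P ↔ x ∈ P}) : HasLine ρ Set.univ := by
  have hpm : (p : A) ∈ maximalIdeal A := by
    have := Ideal.pow_le_pow_right he h0
    rwa [pow_one] at this
  have hpκ := natCast_zero_iff (A := A) hp hpm
  have hpπ : (bas A).π ∣ (p : A) := (mem_max_iff _).1 hpm
  have hcts := cts_of_continuous hA hρ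
  have hpP : ∀ P : Ideal (OO k), cm P ∈ S → (p : OO k) ∉ P := fun P hPS h =>
    hS _ hPS (natCast_mem_cm.2 h)
  obtain ⟨c, hc⟩ := (mem_pow_iff e _).1 h0
  have hqc : (bas A).q c ≠ 0 := by
    intro h
    obtain ⟨d, hd⟩ := ((bas A).ker c).1 h
    apply h1
    rw [mem_pow_iff]
    exact ⟨d, by rw [hc, hd]; ring⟩
  have hp0 : (p : A) ≠ 0 := by
    intro h
    rw [h] at h1
    exact h1 (Ideal.zero_mem _)
  have hF : Fact p.Prime := ⟨hp⟩
  have h2κ : (2 : ResidueField A) ≠ 0 := two_ne_of hp2 hpκ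
  -- the twist
  obtain ⟨a, ha⟩ := hres
  have hres' : ResS (bas A) a ρ := fun g => Pool.Agent.TH831.OT.sq_zero_of_nil (ha g)
  obtain ⟨ρ', s, k1, k2, k3, k4, k5, k6⟩ := exists_twistB h2κ
    (fun d x hx hd => by
      obtain ⟨y, rfl⟩ := residue_surjective x
      exact exists_sqrtA h2κ d y hx hd) hcts hres'
  have hresM : ∀ g, ∃ M : ℕ, ∀ i j, (((ρ' g : Matrix (Fin 2) (Fin 2) A) - 1) ^ M) i j ∈
      maximalIdeal A := by
    intro g
    refine ⟨2, fun i j => ?_⟩
    rw [← residue_eq_zero_iff]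
    have e1 := congrFun (congrFun (k2 g) i) j
    rw [← map_one (red (bas A)), ← map_sub, ← map_mul, ← pow_two] at e1
    exact e1
  have hresU := resU_of hresM
  have hsq : ∀ P : Ideal (OO k), P.IsMaximal → cm P ∈ S →
      ∀ τ : GF k, InInertia P τ → (mt (ρ' τ) - 1) * (mt (ρ' τ) - 1) = 0 := by
    intro P hP hPS τ hτ
    by_cases hd : p ∣ Ideal.absNorm (cm P) - 1
    · rcases hunip with hpe | hunip
      · exact FM2C.unip_of_small hp hp2 hpκ hpπ (Or.inl (small_of_ram hp hp2 h0 h1 hpe)) k1 hresU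
          hP (hpP P hPS) (FM2C.two_le hP) hτ
      · have h3' := hunip P hP hPS hd τ hτ
        have h4 := det_one_of_sq h3'
        have h5 := k5 τ
        rw [k4, Matrix.det_smul, Fintype.card_fin, h4, mul_one] at h5
        have h6 : s τ = 1 := by
          have t1 := Pool.Agent.TH831.OT.trace_zero_of_sq (k2 τ)
          have t2 : (mt (ρ τ) - 1).trace = 0 :=
            (Matrix.isNilpotent_trace_of_isNilpotent ⟨2, by rw [pow_two, h3']⟩).eq_zero
          have t3 : (bas A).q (s τ) = 1 := by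
            rw [Matrix.trace_sub, Matrix.trace_one, Fintype.card_fin] at t1 t2
            have t4 : (red (bas A) (mt (ρ' τ))).trace =
                (bas A).q (s τ) * (bas A).q (mt (ρ τ)).trace := by
              rw [k4, Pool.Agent.TH831.OE.red_smul, Matrix.trace_smul, smul_eq_mul]
              congr 1
            rw [t4, sub_eq_zero.1 t2] at t1
            have t5 : (2 : ResidueField A) * ((bas A).q (s τ) - 1) = 0 := by
              have : (bas A).q ((2 : ℕ) : A) = 2 := map_natCast _ 2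
              rw [this] at t1
              push_cast at t1
              linear_combination t1
            exact sub_eq_zero.1 ((mul_eq_zero.1 t5).resolve_left h2κ)
          refine sqrt_uniqueB (B := bas A) h2κ ?_ ?_ ?_
          · rw [t3, map_one]
          · rw [map_one]
            exact one_ne_zero
          · rw [one_mul]
            linear_combination h5
        rw [k4, h6, one_smul]
        exact h3'
    · rw [FM2C.triv_of_not_dvd hp hpπ ρ' k1 hresU hP (hpP P hPS) hτ hd, mt_one, sub_self,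
        mul_zero]
  have hG : GoodO (bas A) (UrS (wp p S)) (TS S) (DP k p) (fun g => (mt (ρ' g)).trace) ρ' := by
    refine ⟨⟨k1, fun u hu => k6 u (hur u hu), ?_, ?_⟩, k5, fun g => rfl, ?_⟩
    · rintro τ σ q ⟨P, hP, hPS, hτ, hσ, rfl⟩
      exact hsq P hP hPS τ hτ
    · rintro τ σ q ⟨P, hP, hPS, hτ, hσ, rfl⟩
      exact FM2C.rel_of_sq (hsq P hP hPS τ hτ)
        (FM2C.exact_rel hp hpπ ρ' k1 hresU hP (hpP P hPS) hτ hσ)
    · rintro D ⟨P, hP, hpP, rfl⟩
      obtain ⟨v, hv, h⟩ := hline P hP hpP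
      refine ⟨v, hv, fun g hg => ?_⟩
      rw [k4, Matrix.smul_mulVec, Pool.Agent.TH831.OT.wed_smul_left, h g hg, mul_zero]
  have hfinal : HasLine ρ' Set.univ := by
    refine FM3C.main h2κ hNP hp hpκ he hc hqc hNT hNR ?_ ?_ hG (exists_od_dvr hp hfin hpm hresM)
    · rintro τ σ q ⟨P, hP, hPS, hτ, hσ, rfl⟩
      exact FM2C.two_le hP
    · rintro τ σ q ⟨P, hP, hPS, hτ, hσ, rfl⟩
      have h2 := FM2C.two_le hP
      obtain ⟨r, m, hm, hqm⟩ := Nat.exists_eq_pow_mul_and_not_dvd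
        (show Ideal.absNorm (cm P) - 1 ≠ 0 by omega) p hp.ne_one
      have h3 : ((Ideal.absNorm (cm P) - 1 : ℕ) : A) = ((Ideal.absNorm (cm P) : ℕ) : A) - 1 := by
        rw [Nat.cast_sub (by omega), Nat.cast_one]
      rw [← h3, hqm, Nat.cast_mul, Nat.cast_pow]
      refine mul_ne_zero (pow_ne_zero _ hp0) ?_
      intro h4
      apply hm
      rw [← hpκ, ← map_natCast (residue A), h4, map_zero]
  obtain ⟨v, hv, h⟩ := hfinal
  refine ⟨v, hv, fun g hg => ?_⟩
  have h4 := h g hg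
  rw [k4, Matrix.smul_mulVec, Pool.Agent.TH831.OT.wed_smul_left] at h4
  exact (mul_eq_zero.1 h4).resolve_left (k3 g)

end Pool.Agent.Q15.FM3D
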