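import Pool.Agent.Q15.FM3D

/-! Fields with only one extension of degree `p` unramified outside `p`. -/

set_option autoImplicit false
set_option linter.unusedSectionVars false

namespace Pool.Agent.Q15.FM3E

open NumberField Matrix IsLocalRing Pool.Agent.W569.FM Pool.Agent.W569.UF Pool.Agent.W571.FM
  Pool.Agent.TH831.OE Pool.Agent.Q15.FMNT Pool.Agent.Q15.FMScal Pool.Agent.Q15.FMRankB
  Pool.Agent.Q15.FMMain Pool.Agent.Q15.FM2A Pool.Agent.Q15.FM2B Pool.Agent.Q15.FM2C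
  Pool.Agent.Q15.FM2D Pool.Agent.Q15.FM3A Pool.Agent.Q15.FM3B Pool.Agent.Q15.FM3C
  Pool.Agent.Q15.FM3D
open Pool.Agent.TH831.OT (wed wed_mulVec wed_self wed_add_left wed_smul_left wed_smul_right
  eig_of_wed)

variable {k : Type} [Field k] [NumberField k] {κ : Type} [Field κ]

/-- the field has only one extension of degree `p` unramified outside `p` -/
structure One (p : ℕ) (ψ : GF k →* Multiplicative (ZMod p)) : Prop where
  op : IsOpen (ψ.ker : Set (GF k))
  ur : ∀ u ∈ UrS {v : Ideal (𝓞 k) | (p : 𝓞 k) ∈ v}, ψ u = 1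
  ne : ∃ D ∈ DP k p, ∃ g ∈ D, ψ g ≠ 1
  uni : ∀ f : GF k →* Multiplicative (ZMod p), IsOpen (f.ker : Set (GF k)) →
    (∀ u ∈ UrS {v : Ideal (𝓞 k) | (p : 𝓞 k) ∈ v}, f u = 1) → ∃ n : ℕ, ∀ g, f g = ψ g ^ n

/-- characters unramified outside `p` are multiples of `ψ` -/
theorem one_char {p : ℕ} [hp : Fact p.Prime] [CharP κ p] {ψ : GF k →* Multiplicative (ZMod p)}
    (h : One p ψ) {F : GF k →* Multiplicative κ}
    (hF : Chr κ (UrS {v : Ideal (𝓞 k) | (p : 𝓞 k) ∈ v}) F) : ∃ c : κ, ∀ g,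
      Multiplicative.toAdd (F g) =
        c * ZMod.castHom (dvd_refl p) κ (Multiplicative.toAdd (ψ g)) := by
  let _ : Algebra (ZMod p) κ := ZMod.algebra κ p
  obtain ⟨D, hD, g0, hg0, hne⟩ := h.ne
  set t0 := Multiplicative.toAdd (ψ g0) with ht0
  have ht00 : t0 ≠ 0 := fun h0 => hne (Multiplicative.toAdd.injective (h0.trans toAdd_one.symm))
  refine ⟨Multiplicative.toAdd (F g0) * (ZMod.castHom (dvd_refl p) κ t0)⁻¹, fun g => ?_⟩
  rw [← sub_eq_zero, ← Module.forall_dual_apply_eq_zero_iff (ZMod p)]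
  intro φ
  let f : GF k →* Multiplicative (ZMod p) :=
    { toFun := fun g => Multiplicative.ofAdd (φ (Multiplicative.toAdd (F g)))
      map_one' := by rw [map_one, toAdd_one, map_zero, ofAdd_zero]
      map_mul' := fun g h => by rw [map_mul, toAdd_mul, map_add, ofAdd_add] }
  have hf : ∀ g, f g = Multiplicative.ofAdd (φ (Multiplicative.toAdd (F g))) := fun g => rfl
  obtain ⟨n, hn⟩ := h.uni f (Subgroup.isOpen_mono (H₁ := F.ker) (fun x hx => by
      show f x = 1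
      have hx' : F x = 1 := hx
      rw [hf, hx', toAdd_one, map_zero, ofAdd_zero]) hF.op) (fun u hu => by
      rw [hf, hF.ur u hu, toAdd_one, map_zero, ofAdd_zero])
  have hn' : ∀ g, φ (Multiplicative.toAdd (F g)) = n * Multiplicative.toAdd (ψ g) := by
    intro g
    have h1 := congrArg Multiplicative.toAdd (hn g)
    rw [hf, toAdd_ofAdd, toAdd_pow, nsmul_eq_mul] at h1
    exact h1
  have h2 : Multiplicative.toAdd (F g0) * (ZMod.castHom (dvd_refl p) κ t0)⁻¹ *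
      ZMod.castHom (dvd_refl p) κ (Multiplicative.toAdd (ψ g)) =
      (t0⁻¹ * Multiplicative.toAdd (ψ g)) • Multiplicative.toAdd (F g0) := by
    rw [Algebra.smul_def]
    have h3 : algebraMap (ZMod p) κ = ZMod.castHom (dvd_refl p) κ := Subsingleton.elim _ _
    rw [h3, map_mul, map_inv₀]
    ring
  rw [h2, map_sub, map_smul, hn', hn', smul_eq_mul, ← ht0]
  field_simp
  ring

/-- conjugate inertia groups and Frobenius elements -/
theorem conj_same {P Q : Ideal (OO k)} (hP : P.IsMaximal) (hQ : Q.IsMaximal)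
    (h : cm P = cm Q) : ∃ g : GF k, (∀ τ, InInertia P τ → InInertia Q (g * τ * g⁻¹)) ∧
      ∀ q σ, FrobAt q P σ → FrobAt q Q (g * σ * g⁻¹) := by
  obtain ⟨g, hg⟩ := exists_smul P Q hP.isPrime hQ.isPrime h
  have e : ∀ (τ : GF k) (x : OO k), g⁻¹ • (g * τ * g⁻¹) • x = τ • g⁻¹ • x := by
    intro τ x
    rw [smul_smul, smul_smul]
    congr 1
    group
  refine ⟨g, fun τ hτ x => ?_, fun q σ hσ x => ?_⟩
  · rw [hg, smul_sub, e]
    exact hτ _
  · rw [hg, smul_sub, e, smul_pow']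
    exact hσ _

theorem conj_hom {E : Type} [CommGroup E] (f : GF k →* E) (g τ : GF k) :
    f (g * τ * g⁻¹) = f τ := by
  rw [map_mul, map_mul, map_inv, mul_comm (f g), mul_assoc, mul_inv_cancel, mul_one]

/-- no ramification at primes with norm not congruent to one -/
theorem unr_of_not_dvd {p : ℕ} [hp : Fact p.Prime] [CharP κ p] (F : GF k →* Multiplicative κ)
    (hF : IsOpen (F.ker : Set (GF k))) {P : Ideal (OO k)} (hP : P.IsMaximal)
    (hpP : (p : OO k) ∉ P) {τ : GF k} (hτ : InInertia P τ)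
    (hd : ¬ p ∣ Ideal.absNorm (cm P) - 1) : F τ = 1 := by
  obtain ⟨l, hl, hpl, hlP⟩ := prime_ne hP hpP
  obtain ⟨σ, hσ⟩ := exists_frobAt hP (cm_ne_bot hP)
  have hq0 := absNorm_ne_zero (cm_ne_bot hP)
  set q := Ideal.absNorm (cm P) with hq
  have hE : IsPGroup p (Multiplicative κ) := by
    intro a
    refine ⟨1, ?_⟩
    apply Multiplicative.toAdd.injective
    rw [pow_one, toAdd_pow, toAdd_one, nsmul_eq_mul, CharP.cast_eq_zero, zero_mul]
  have h1 := tame k hp.out hl hpl hq0 ⊤ isOpen_univ _ hE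
    (F.comp (⊤ : Subgroup (GF k)).subtype) (hF.preimage continuous_subtype_val) P hP hlP
    ⟨τ, trivial⟩ σ hτ hσ
  have h2 : F (σ * τ * σ⁻¹) = F τ ^ q := h1
  rw [conj_hom] at h2
  have h3 := congrArg Multiplicative.toAdd h2
  rw [toAdd_pow, nsmul_eq_mul] at h3
  have h4 : ((q - 1 : ℕ) : κ) * Multiplicative.toAdd (F τ) = 0 := by
    rw [Nat.cast_sub (Nat.one_le_iff_ne_zero.2 hq0), Nat.cast_one]
    linear_combination -h3
  rcases mul_eq_zero.1 h4 with h5 | h5
  · exact absurd ((CharP.cast_eq_zero_iff κ p _).1 h5) hd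
  · exact Multiplicative.toAdd.injective (h5.trans toAdd_one.symm)

/-- the explicit condition on `S` -/
structure Cond (p : ℕ) (S : Set (Ideal (𝓞 k))) (ψ : GF k →* Multiplicative (ZMod p)) :
    Prop where
  hS : ∀ v ∈ S, (p : 𝓞 k) ∉ v
  one : ∀ v ∈ S, ∀ w ∈ S, p ∣ Ideal.absNorm v - 1 → p ∣ Ideal.absNorm w - 1 → v = w
  frob : ∀ P : Ideal (OO k), P.IsMaximal → cm P ∈ S → p ∣ Ideal.absNorm (cm P) - 1 →
    ∀ σ, FrobAt (Ideal.absNorm (cm P)) P σ → ψ σ ≠ 1

variable {p : ℕ} [hp : Fact p.Prime] [CharP κ p] {ψ : GF k →* Multiplicative (ZMod p)}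
  {S : Set (Ideal (𝓞 k))}

theorem cast_ne {t : Multiplicative (ZMod p)} (h : t ≠ 1) :
    ZMod.castHom (dvd_refl p) κ (Multiplicative.toAdd t) ≠ 0 := by
  intro h0
  apply h
  apply Multiplicative.toAdd.injective
  rw [toAdd_one]
  exact (ZMod.castHom (dvd_refl p) κ).injective (h0.trans (map_zero _).symm)

theorem hpP_of (hc : Cond p S ψ) {P : Ideal (OO k)} (hPS : cm P ∈ S) : (p : OO k) ∉ P :=
  fun h => hc.hS _ hPS (natCast_mem_cm.2 h)

/-- a character which is unramified at one prime above the tame prime is unramified outside `p` -/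
theorem ext_unr (hc : Cond p S ψ) {F : GF k →* Multiplicative κ}
    (hF : Chr κ (UrS (wp p S)) F)
    (h : ∀ P : Ideal (OO k), P.IsMaximal → cm P ∈ S → p ∣ Ideal.absNorm (cm P) - 1 →
      ∃ Q : Ideal (OO k), Q.IsMaximal ∧ cm P = cm Q ∧ ∀ τ, InInertia Q τ → F τ = 1) :
    Chr κ (UrS {v : Ideal (𝓞 k) | (p : 𝓞 k) ∈ v}) F := by
  refine ⟨hF.op, ?_⟩
  rintro τ ⟨P, hP, hPp, hτ⟩
  have hpP : (p : OO k) ∉ P := fun h => hPp (natCast_mem_cm.2 h)
  by_cases hPS : cm P ∈ S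
  · by_cases hd : p ∣ Ideal.absNorm (cm P) - 1
    · obtain ⟨Q, hQ, hPQ, hQ1⟩ := h P hP hPS hd
      obtain ⟨g, hg, -⟩ := conj_same hP hQ hPQ
      rw [← conj_hom F g τ]
      exact hQ1 _ (hg τ hτ)
    · exact unr_of_not_dvd F hF.op hP hpP hτ hd
  · exact hF.ur τ ⟨P, hP, fun h => h.elim hPS hPp, hτ⟩

theorem frob_mul {q : ℕ} {P : Ideal (OO k)} {σ τ : GF k} (hσ : FrobAt q P σ)
    (hτ : InInertia P τ) : FrobAt q P (σ * τ) := by
  intro z
  have e : (σ * τ) • z - z ^ q = (σ • (τ • z) - (τ • z) ^ q) + ((τ • z) ^ q - z ^ q) := by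
    rw [mul_smul]
    ring
  rw [e]
  refine P.add_mem (hσ _) ?_
  obtain ⟨w, hw⟩ := sub_dvd_pow_sub_pow (τ • z) z q
  rw [hw]
  exact P.mul_mem_right _ (hτ z)

/-- a character split at a prime with nontrivial Frobenius is trivial -/
theorem triv_of_split (h : One p ψ) (hc : Cond p S ψ) {x y : GF k →* Multiplicative κ}
    (hy : Chr κ (UrS (wp p S)) y)
    (h1 : ∀ τ σ q, TS S τ σ q → x τ ≠ 1 → y τ = 1 ∧ y σ = 1) {P : Ideal (OO k)}
    (hP : P.IsMaximal) (hPS : cm P ∈ S) (hd : p ∣ Ideal.absNorm (cm P) - 1) {τ : GF k}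
    (hτ : InInertia P τ) (hne : x τ ≠ 1) : ∀ g, y g = 1 := by
  have hfr : ∀ σ, FrobAt (Ideal.absNorm (cm P)) P σ → y σ = 1 := fun σ hσ =>
    (h1 τ σ _ ⟨P, hP, hPS, hτ, hσ, rfl⟩ hne).2
  obtain ⟨σ, hσ⟩ := exists_frobAt hP (cm_ne_bot hP)
  have hin : ∀ τ, InInertia P τ → y τ = 1 := by
    intro τ' hτ'
    have h2 := hfr _ (frob_mul hσ hτ')
    rwa [map_mul, hfr σ hσ, one_mul] at h2
  have hy' := ext_unr hc hy (fun Q hQ hQS hd' => ⟨P, hP, hc.one _ hQS _ hPS hd' hd, hin⟩)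
  obtain ⟨c, hcy⟩ := one_char h hy'
  have h2 := hcy σ
  rw [hfr σ hσ, toAdd_one] at h2
  have h3 := (mul_eq_zero.1 h2.symm).resolve_right (cast_ne (hc.frob P hP hPS hd σ hσ))
  intro g
  apply Multiplicative.toAdd.injective
  rw [hcy, h3, zero_mul, toAdd_one]

theorem npo (h : One p ψ) (hc : Cond p S ψ) : NPo κ (UrS (wp p S)) (TS S) (DP k p) := by
  intro x y hx hy h1 h2 hD
  by_cases hrx : ∃ (P : Ideal (OO k)) (τ : GF k), P.IsMaximal ∧ cm P ∈ S ∧
      p ∣ Ideal.absNorm (cm P) - 1 ∧ InInertia P τ ∧ x τ ≠ 1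
  · obtain ⟨P, τ, hP, hPS, hd, hτ, hne⟩ := hrx
    exact Or.inr (triv_of_split h hc hy h1 hP hPS hd hτ hne)
  by_cases hry : ∃ (P : Ideal (OO k)) (τ : GF k), P.IsMaximal ∧ cm P ∈ S ∧
      p ∣ Ideal.absNorm (cm P) - 1 ∧ InInertia P τ ∧ y τ ≠ 1
  · obtain ⟨P, τ, hP, hPS, hd, hτ, hne⟩ := hry
    exact Or.inl (triv_of_split h hc hx h2 hP hPS hd hτ hne)
  push Not at hrx hry
  obtain ⟨a, ha⟩ := one_char h (ext_unr hc hx (fun P hP hPS hd =>
    ⟨P, hP, rfl, fun τ hτ => hrx P τ hP hPS hd hτ⟩))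
  obtain ⟨b, hb⟩ := one_char h (ext_unr hc hy (fun P hP hPS hd =>
    ⟨P, hP, rfl, fun τ hτ => hry P τ hP hPS hd hτ⟩))
  obtain ⟨D, hDD, g, hg, hne⟩ := h.ne
  rcases hD D hDD with h3 | h3
  · left
    intro g'
    have h4 := ha g
    rw [h3 g hg, toAdd_one] at h4
    apply Multiplicative.toAdd.injective
    rw [ha, (mul_eq_zero.1 h4.symm).resolve_right (cast_ne hne), zero_mul, toAdd_one]
  · right
    intro g'
    have h4 := hb g
    rw [h3 g hg, toAdd_one] at h4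
    apply Multiplicative.toAdd.injective
    rw [hb, (mul_eq_zero.1 h4.symm).resolve_right (cast_ne hne), zero_mul, toAdd_one]

/-- two vectors in the kernel of a nonzero matrix -/
theorem wed_ker {M : Matrix (Fin 2) (Fin 2) κ} {v w : Fin 2 → κ} (hM : M ≠ 0)
    (hv : M *ᵥ v = 0) (hw : M *ᵥ w = 0) : wed v w = 0 := by
  by_contra hne
  apply hM
  have h0 := congrFun hv 0
  have h1 := congrFun hv 1
  have h2 := congrFun hw 0
  have h3 := congrFun hw 1
  simp only [Matrix.mulVec, dotProduct, Fin.sum_univ_two, Pi.zero_apply] at h0 h1 h2 h3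
  unfold Pool.Agent.TH831.OT.wed at hne
  ext i j
  fin_cases i <;> fin_cases j
  · show M 0 0 = 0
    apply (mul_eq_zero.1 _).resolve_right hne
    linear_combination w 1 * h0 - v 1 * h2
  · show M 0 1 = 0
    apply (mul_eq_zero.1 _).resolve_right hne
    linear_combination -w 0 * h0 + v 0 * h2
  · show M 1 0 = 0
    apply (mul_eq_zero.1 _).resolve_right hne
    linear_combination w 1 * h1 - v 1 * h3
  · show M 1 1 = 0
    apply (mul_eq_zero.1 _).resolve_right hne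
    linear_combination -w 0 * h1 + v 0 * h3

/-- `M ↦ M w ∧ w` -/
def phi (w : Fin 2 → κ) : Matrix (Fin 2) (Fin 2) κ →ₗ[κ] κ where
  toFun := fun M => wed (M *ᵥ w) w
  map_add' := fun M N => by rw [Matrix.add_mulVec, wed_add_left]
  map_smul' := fun c M => by
    rw [Matrix.smul_mulVec, wed_smul_left]
    rfl

theorem nto (h : One p ψ) (hc : Cond p S ψ) (r : ℕ) :
    NTo κ (UrS (wp p S)) (TS S) (DP k p) p r := by
  intro X hX htr hsq hz hrel hD
  have hnd : ∀ P : Ideal (OO k), P.IsMaximal → cm P ∈ S → ¬ p ∣ Ideal.absNorm (cm P) - 1 →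
      ∀ τ, InInertia P τ → mat X τ = 0 := by
    intro P hP hPS hd τ hτ
    exact mat_eq_zero X fun i j => unr_of_not_dvd _ (hX i j).op hP (hpP_of hc hPS) hτ hd
  by_cases h0 : ∀ P : Ideal (OO k), P.IsMaximal → cm P ∈ S → ∀ τ, InInertia P τ → mat X τ = 0
  · -- unramified outside `p`
    have hX' : ∀ i j, ∃ c : κ, ∀ g, Multiplicative.toAdd (X i j g) =
        c * ZMod.castHom (dvd_refl p) κ (Multiplicative.toAdd (ψ g)) := by
      intro i j
      refine one_char h (ext_unr hc (hX i j) (fun P hP hPS hd => ⟨P, hP, rfl, fun τ hτ => ?_⟩))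
      have h1 := congrFun (congrFun (h0 P hP hPS τ hτ) i) j
      exact Multiplicative.toAdd.injective (h1.trans toAdd_one.symm)
    choose C hC using hX'
    have hM : ∀ g, mat X g = ZMod.castHom (dvd_refl p) κ (Multiplicative.toAdd (ψ g)) •
        (Matrix.of C : Matrix (Fin 2) (Fin 2) κ) := by
      intro g
      ext i j
      show Multiplicative.toAdd (X i j g) = _ * C i j
      rw [hC, mul_comm]
    obtain ⟨D, hDD, g, hg, hne⟩ := h.ne
    obtain ⟨v, hv, hvl⟩ := hD D hDD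
    refine ⟨v, hv, fun g' => ?_⟩
    have h1 := hvl g hg
    rw [hM, Matrix.smul_mulVec, wed_smul_left] at h1
    rw [hM, Matrix.smul_mulVec, wed_smul_left, (mul_eq_zero.1 h1).resolve_left (cast_ne hne),
      mul_zero]
  · push Not at h0
    obtain ⟨P, hP, hPS, τ₁, hτ₁, hne₁⟩ := h0
    have hd : p ∣ Ideal.absNorm (cm P) - 1 := by
      by_contra hd
      exact hne₁ (hnd P hP hPS hd τ₁ hτ₁)
    obtain ⟨σ, hσ⟩ := exists_frobAt hP (cm_ne_bot hP)
    have hT : TS S τ₁ σ (Ideal.absNorm (cm P)) := ⟨P, hP, hPS, hτ₁, hσ, rfl⟩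
    obtain ⟨w, hw, hkw⟩ := exists_ker (hsq _ _ _ hT)
    -- the homomorphism
    let M : GF k →* Multiplicative (Matrix (Fin 2) (Fin 2) κ) :=
      { toFun := fun g => Multiplicative.ofAdd (mat X g)
        map_one' := by rw [mat_eq_zero X (fun i j => map_one _), ofAdd_zero]
        map_mul' := fun g h => by rw [mat_mul, ofAdd_add] }
    have hM : ∀ g, Multiplicative.toAdd (M g) = mat X g := fun g => rfl
    have hMo : IsOpen (M.ker : Set (GF k)) := by
      have h1 : IsOpen (((((X 0 0).ker ⊓ (X 0 1).ker) ⊓ ((X 1 0).ker ⊓ (X 1 1).ker) :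
          Subgroup (GF k)) : Set (GF k))) :=
        ((hX 0 0).op.inter (hX 0 1).op).inter ((hX 1 0).op.inter (hX 1 1).op)
      refine Subgroup.isOpen_mono ?_ h1
      rintro g ⟨⟨h00, h01⟩, h10, h11⟩
      show M g = 1
      apply Multiplicative.toAdd.injective
      rw [hM, toAdd_one]
      exact mat_eq_zero X fun i j => by
        fin_cases i <;> fin_cases j
        · exact h00
        · exact h01
        · exact h10
        · exact h11
    have hE : IsPGroup p (Multiplicative (Matrix (Fin 2) (Fin 2) κ)) := by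
      intro a
      refine ⟨1, ?_⟩
      apply Multiplicative.toAdd.injective
      rw [pow_one, toAdd_pow, toAdd_one]
      ext i j
      show p • (Multiplicative.toAdd a) i j = 0
      rw [nsmul_eq_mul, CharP.cast_eq_zero, zero_mul]
    obtain ⟨τ₀, hτ₀, hgen⟩ := tame_gen hE M hMo hP (hpP_of hc hPS)
    have hz' : ∀ τ, InInertia P τ → ∃ n : ℤ, mat X τ = n • mat X τ₀ := by
      intro τ hτ
      obtain ⟨n, hn⟩ := Subgroup.mem_zpowers_iff.1 (hgen τ hτ)
      refine ⟨n, ?_⟩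
      have h1 := congrArg Multiplicative.toAdd hn
      rw [toAdd_zpow, hM, hM] at h1
      exact h1.symm
    have hk0 : mat X τ₀ *ᵥ w = 0 := by
      obtain ⟨n, hn⟩ := hz' τ₁ hτ₁
      have h1 : (n : κ) ≠ 0 := by
        intro h1
        apply hne₁
        rw [hn, ← Int.cast_smul_eq_zsmul κ, h1, zero_smul]
      rw [hn, ← Int.cast_smul_eq_zsmul κ, Matrix.smul_mulVec] at hkw
      exact (smul_eq_zero.1 hkw).resolve_left h1
    have hk : ∀ τ, InInertia P τ → mat X τ *ᵥ w = 0 := by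
      intro τ hτ
      obtain ⟨n, hn⟩ := hz' τ hτ
      rw [hn, ← Int.cast_smul_eq_zsmul κ, Matrix.smul_mulVec, hk0, smul_zero]
    obtain ⟨F, hF, hF2⟩ := comb (Ur' := UrS (wp p S)) (fun i j => (hX i j).op)
      (fun u hu => mat_eq_zero X fun i j => (hX i j).ur u hu) (phi w)
    have hF' := ext_unr hc hF (fun Q hQ hQS hd' => ⟨P, hP, hc.one _ hQS _ hPS hd' hd,
      fun τ hτ => by
        apply Multiplicative.toAdd.injective
        rw [hF2, toAdd_one]
        show wed (mat X τ *ᵥ w) w = 0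
        rw [hk τ hτ]
        simp [wed]⟩)
    obtain ⟨c, hc'⟩ := one_char h hF'
    have hσ0 : wed (mat X σ *ᵥ w) w = 0 := by
      apply wed_ker hne₁ _ hkw
      have h1 := congrArg (fun N => N *ᵥ w) (hrel _ _ _ hT)
      simp only [Matrix.sub_mulVec, Matrix.smul_mulVec, ← Matrix.mulVec_mulVec] at h1
      rw [hkw, Matrix.mulVec_zero, smul_zero, zero_sub, neg_eq_zero] at h1
      exact h1
    have hc0 : c = 0 := by
      have h1 := hc' σ
      rw [hF2] at h1
      have h2 : phi w (mat X σ) = 0 := hσ0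
      rw [h2] at h1
      exact (mul_eq_zero.1 h1.symm).resolve_right (cast_ne (hc.frob P hP hPS hd σ hσ))
    refine ⟨w, hw, fun g => ?_⟩
    have h1 := hc' g
    rw [hc0, zero_mul, hF2] at h1
    exact h1

theorem ntr (hp2 : p ≠ 2) (h : One p ψ) (hc : Cond p S ψ) (r : ℕ) :
    NTr κ (UrS (wp p S)) (TS S) (DP k p) p r := by
  intro x y z hx hy hz hzT hxT hyT hD _
  obtain ⟨D, hDD, hyD, γ, hγ, hxγ, hzγ⟩ := hD
  have hyγ := hyD γ hγ
  obtain ⟨c, hcz⟩ := one_char h (ext_unr hc hz (fun P hP hPS hd =>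
    ⟨P, hP, rfl, fun τ hτ => by
      obtain ⟨σ, hσ⟩ := exists_frobAt hP (cm_ne_bot hP)
      exact hzT τ σ _ ⟨P, hP, hPS, hτ, hσ, rfl⟩⟩))
  have hψγ : ψ γ ≠ 1 := by
    intro h1
    apply hzγ
    apply Multiplicative.toAdd.injective
    rw [hcz, h1, toAdd_one, map_zero, mul_zero, toAdd_one]
  have hc0 : c ≠ 0 := by
    rintro rfl
    apply hzγ
    apply Multiplicative.toAdd.injective
    rw [hcz, zero_mul, toAdd_one]
  have key : ∀ f : GF k →* Multiplicative κ, Chr κ (UrS (wp p S)) f → f γ = 1 →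
      (∀ (P : Ideal (OO k)) (τ : GF k), P.IsMaximal → cm P ∈ S →
        p ∣ Ideal.absNorm (cm P) - 1 → InInertia P τ → f τ = 1) → ∀ g, f g = 1 := by
    intro f hf hfγ hun
    obtain ⟨a, ha⟩ := one_char h (ext_unr hc hf (fun P hP hPS hd =>
      ⟨P, hP, rfl, fun τ hτ => hun P τ hP hPS hd hτ⟩))
    have h1 := ha γ
    rw [hfγ, toAdd_one] at h1
    have h2 := (mul_eq_zero.1 h1.symm).resolve_right (cast_ne hψγ)
    intro g
    apply Multiplicative.toAdd.injective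
    rw [ha, h2, zero_mul, toAdd_one]
  by_cases hrx : ∃ (P : Ideal (OO k)) (τ : GF k), P.IsMaximal ∧ cm P ∈ S ∧
      p ∣ Ideal.absNorm (cm P) - 1 ∧ InInertia P τ ∧ x τ ≠ 1
  swap
  · push Not at hrx
    exact Or.inl (key x hx hxγ hrx)
  by_cases hry : ∃ (P : Ideal (OO k)) (τ : GF k), P.IsMaximal ∧ cm P ∈ S ∧
      p ∣ Ideal.absNorm (cm P) - 1 ∧ InInertia P τ ∧ y τ ≠ 1
  swap
  · push Not at hry
    exact Or.inr (key y hy hyγ hry)
  exfalso
  obtain ⟨P, τ, hP, hPS, hd, hτ, hne⟩ := hrx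
  obtain ⟨Q, τ', hQ, hQS, hd', hτ', hne'⟩ := hry
  have hPQ : cm P = cm Q := hc.one _ hPS _ hQS hd hd'
  obtain ⟨σ, hσ⟩ := exists_frobAt hP (cm_ne_bot hP)
  obtain ⟨g, -, hg⟩ := conj_same hP hQ hPQ
  have hσ' := hg _ σ hσ
  have h1 := (hxT τ σ _ ⟨P, hP, hPS, hτ, hσ, rfl⟩ hne).2
  have h2 := (hyT τ' (g * σ * g⁻¹) _ ⟨Q, hQ, hQS, hτ', by rw [← hPQ]; exact hσ', rfl⟩ hne').2
  rw [conj_hom, h1, ← hPQ] at h2
  have h2κ : (2 : κ) ≠ 0 := by
    intro h
    have h4 : ((2 : ℕ) : κ) = 0 := by exact_mod_cast h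
    have := Nat.le_of_dvd two_pos ((CharP.cast_eq_zero_iff κ p 2).1 h4)
    have := hp.out.two_le
    omega
  have h3 : (((Ideal.absNorm (cm P) - 1) / p ^ r : ℕ) : κ) = 0 := by
    have h4 : (2 : κ) * (((Ideal.absNorm (cm P) - 1) / p ^ r : ℕ) : κ) = 0 := by
      linear_combination h2
    exact (mul_eq_zero.1 h4).resolve_left h2κ
  rw [h3, hcz] at h1
  rcases mul_eq_zero.1 h1 with h4 | h4
  · exact hc0 h4
  · exact cast_ne (hc.frob P hP hPS hd σ hσ) h4

/-- the character `ψ` is given by the norms at the primes in `S` -/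
structure NormL (p s : ℕ) (S : Set (Ideal (𝓞 k))) (ψ : GF k →* Multiplicative (ZMod p)) :
    Prop where
  hS : ∀ v ∈ S, (p : 𝓞 k) ∉ v
  dvd : ∀ P : Ideal (OO k), P.IsMaximal → cm P ∈ S → p ∣ Ideal.absNorm (cm P) - 1 →
    p ^ s ∣ Ideal.absNorm (cm P) - 1 ∧ ¬ p ^ (s + 1) ∣ Ideal.absNorm (cm P) - 1 ∧
    ∀ σ, FrobAt (Ideal.absNorm (cm P)) P σ →
      Multiplicative.toAdd (ψ σ) = (((Ideal.absNorm (cm P) - 1) / p ^ s : ℕ) : ZMod p)

theorem ntr_norm (hp2 : p ≠ 2) {s : ℕ} (h : One p ψ) (hc : NormL p s S ψ) (r : ℕ) :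
    NTr κ (UrS (wp p S)) (TS S) (DP k p) p r := by
  intro x y z hx hy hz hzT hxT hyT hD _
  obtain ⟨D, hDD, hyD, γ, hγ, hxγ, hzγ⟩ := hD
  have hyγ := hyD γ hγ
  have ext_unr' : ∀ F : GF k →* Multiplicative κ, Chr κ (UrS (wp p S)) F →
      (∀ P : Ideal (OO k), P.IsMaximal → cm P ∈ S → p ∣ Ideal.absNorm (cm P) - 1 →
        ∀ τ, InInertia P τ → F τ = 1) → Chr κ (UrS {v : Ideal (𝓞 k) | (p : 𝓞 k) ∈ v}) F := by
    intro F hF h
    refine ⟨hF.op, ?_⟩
    rintro τ ⟨P, hP, hPp, hτ⟩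
    have hpP : (p : OO k) ∉ P := fun h => hPp (natCast_mem_cm.2 h)
    by_cases hPS : cm P ∈ S
    · by_cases hd : p ∣ Ideal.absNorm (cm P) - 1
      · exact h P hP hPS hd τ hτ
      · exact unr_of_not_dvd F hF.op hP hpP hτ hd
    · exact hF.ur τ ⟨P, hP, fun h => h.elim hPS hPp, hτ⟩
  obtain ⟨c, hcz⟩ := one_char h (ext_unr' z hz (fun P hP hPS hd τ hτ => by
      obtain ⟨σ, hσ⟩ := exists_frobAt hP (cm_ne_bot hP)
      exact hzT τ σ _ ⟨P, hP, hPS, hτ, hσ, rfl⟩))
  have hψγ : ψ γ ≠ 1 := by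
    intro h1
    apply hzγ
    apply Multiplicative.toAdd.injective
    rw [hcz, h1, toAdd_one, map_zero, mul_zero, toAdd_one]
  have hc0 : c ≠ 0 := by
    rintro rfl
    apply hzγ
    apply Multiplicative.toAdd.injective
    rw [hcz, zero_mul, toAdd_one]
  have key : ∀ (f : GF k →* Multiplicative κ) (ε : κ), Chr κ (UrS (wp p S)) f → f γ = 1 →
      (∀ τ σ q, TS S τ σ q → f τ ≠ 1 →
        p ^ r ∣ q - 1 ∧ Multiplicative.toAdd (z σ) = ε * (((q - 1) / p ^ r : ℕ) : κ)) →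
      (∀ g, f g = 1) ∨ c = ε := by
    intro f ε hf hfγ hfT
    by_cases hrf : ∃ (P : Ideal (OO k)) (τ : GF k), P.IsMaximal ∧ cm P ∈ S ∧
        p ∣ Ideal.absNorm (cm P) - 1 ∧ InInertia P τ ∧ f τ ≠ 1
    swap
    · left
      push Not at hrf
      obtain ⟨a, ha⟩ := one_char h (ext_unr' f hf (fun P hP hPS hd τ hτ => hrf P τ hP hPS hd hτ))
      have h1 := ha γ
      rw [hfγ, toAdd_one] at h1
      have h2 := (mul_eq_zero.1 h1.symm).resolve_right (cast_ne hψγ)
      intro g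
      apply Multiplicative.toAdd.injective
      rw [ha, h2, zero_mul, toAdd_one]
    · right
      obtain ⟨P, τ, hP, hPS, hd, hτ, hne⟩ := hrf
      obtain ⟨h1, h2, h3⟩ := hc.dvd P hP hPS hd
      obtain ⟨σ, hσ⟩ := exists_frobAt hP (cm_ne_bot hP)
      obtain ⟨h4, h5⟩ := hfT τ σ _ ⟨P, hP, hPS, hτ, hσ, rfl⟩ hne
      set N := Ideal.absNorm (cm P) - 1 with hN
      rw [hcz, h3 σ hσ, map_natCast] at h5
      have hrs : r ≤ s := by
        by_contra hcon
        exact h2 ((pow_dvd_pow p (by omega)).trans h4)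
      obtain ⟨m, hm⟩ := h1
      have hpm : ¬ p ∣ m := by
        intro h6
        apply h2
        rw [hm, pow_succ]
        exact Nat.mul_dvd_mul_left _ h6
      have hm0 : (m : κ) ≠ 0 := by
        rw [Ne, CharP.cast_eq_zero_iff κ p]
        exact hpm
      have e1 : N / p ^ s = m := by
        rw [hm, Nat.mul_div_cancel_left _ (pow_pos hp.out.pos s)]
      rw [e1] at h5
      rcases Nat.eq_or_lt_of_le hrs with h6 | h6
      · subst h6
        rw [e1] at h5
        exact mul_right_cancel₀ hm0 h5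
      · exfalso
        obtain ⟨t, ht⟩ := Nat.exists_eq_add_of_lt h6
        have e2 : N / p ^ r = p ^ (t + 1) * m := by
          rw [hm, ht, add_assoc, pow_add, mul_assoc, Nat.mul_div_cancel_left _
            (pow_pos hp.out.pos r)]
        rw [e2, Nat.cast_mul, Nat.cast_pow, CharP.cast_eq_zero κ p, zero_pow (Nat.succ_ne_zero t),
          zero_mul, mul_zero] at h5
        rcases mul_eq_zero.1 h5 with h7 | h7
        · exact hc0 h7
        · exact hm0 h7
  rcases key x 1 hx hxγ (fun τ σ q hT hne => by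
    rw [one_mul]
    exact hxT τ σ q hT hne) with h1 | h1
  · exact Or.inl h1
  rcases key y (-1) hy hyγ (fun τ σ q hT hne => by
    rw [neg_one_mul]
    exact hyT τ σ q hT hne) with h2 | h2
  · exact Or.inr h2
  exfalso
  have h2κ : (2 : κ) ≠ 0 := by
    intro h
    have h4 : ((2 : ℕ) : κ) = 0 := by exact_mod_cast h
    have := Nat.le_of_dvd two_pos ((CharP.cast_eq_zero_iff κ p 2).1 h4)
    have := hp.out.two_le
    omega
  apply h2κ
  linear_combination h2 - h1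

end Pool.Agent.Q15.FM3E
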