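import Pool.Agent.W880.UF2.Wild
import Pool.Agent.W99.UF.TameN
import Pool.Agent.W571.FM.Frob
import Pool.Agent.W569.UF.MainG

/-! Number-theoretic input over a general number field. -/

set_option autoImplicit false

namespace Pool.Agent.Q15.FMNT

open NumberField IsDedekindDomain Pool.Agent.W569.FM Pool.Agent.W569.UF Pool.Agent.W571.FM

/-- the tame relation for homomorphisms from an open normal subgroup to a `p`-group -/
theorem tame (F : Type) [Field F] [NumberField F] {p l q : ℕ} (hp : p.Prime) (hl : l.Prime)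
    (hpl : p ≠ l) (hq : q ≠ 0) (H : Subgroup (GF F)) [hH : H.Normal] (hHo : IsOpen (H : Set (GF F)))
    (E : Type) [Group E] (hE : IsPGroup p E) (f : H →* E)
    (hopen : IsOpen (f.ker : Set H)) (P : Ideal (OO F)) (hP : P.IsMaximal)
    (hlP : (l : OO F) ∈ P) (τ : H) (σ : GF F) (hτ : InInertia P (τ : GF F))
    (hσ : FrobAt q P σ) :
    f ⟨σ * τ * σ⁻¹, hH.conj_mem τ τ.2 σ⟩ = f τ ^ q := by
  refine Pool.Agent.W99.UF.gen F p l q hp hl hpl ?_ H hHo E hE f hopen P hP hlP τ σ hτ hσ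
  intro L _ _ _ _ P hP h0 hlP τ σ hτ hσ
  have hmax : P.IsMaximal := hP.isMaximal h0
  have : FiniteDimensional F L := Module.Finite.of_restrictScalars_finite ℚ F L
  have : FaithfulSMul Gal(L/F) (𝓞 L) := by
    refine ⟨?_⟩
    intro a b hab
    ext x
    obtain ⟨y, z, hz, rfl⟩ := IsFractionRing.div_surjective (A := 𝓞 L) x
    have ey : a (algebraMap (𝓞 L) L y) = b (algebraMap (𝓞 L) L y) :=
      congrArg (algebraMap (𝓞 L) L) (hab y)
    have ez : a (algebraMap (𝓞 L) L z) = b (algebraMap (𝓞 L) L z) :=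
      congrArg (algebraMap (𝓞 L) L) (hab z)
    rw [map_div₀, map_div₀, ey, ez]
  exact Pool.Agent.W880.UF2.wild_gen hmax h0 hl hlP hq hτ hσ

section

variable {k : Type} [Field k] [NumberField k]

theorem cm_isMaximal {P : Ideal (OO k)} (hP : P.IsMaximal) (h0 : cm P ≠ ⊥) : (cm P).IsMaximal := by
  have h1 : (cm P).IsPrime := by
    have := hP.isPrime
    exact Ideal.comap_isPrime (algebraMap (𝓞 k) (OO k)) P
  exact h1.isMaximal h0

/-- there is a Frobenius element at every maximal ideal -/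
theorem exists_frobAt {P : Ideal (OO k)} (hP : P.IsMaximal) (h0 : cm P ≠ ⊥) :
    ∃ σ : GF k, FrobAt (Ideal.absNorm (cm P)) P σ := by
  have hm := cm_isMaximal hP h0
  obtain ⟨Q, σ, hQ, hQv, hσ⟩ := frob_cm (K := k) ⟨cm P, hm.isPrime, h0⟩
  obtain ⟨g, hg⟩ := exists_smul (K := k) Q P hQ.isPrime hP.isPrime hQv
  refine ⟨g * σ * g⁻¹, fun x => ?_⟩
  rw [hg, smul_sub, smul_smul, smul_pow']
  have h1 : g⁻¹ * (g * σ * g⁻¹) = σ * g⁻¹ := by group
  rw [h1, ← smul_smul]
  exact hσ (g⁻¹ • x)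

theorem absNorm_ne_zero {P : Ideal (OO k)} (h0 : cm P ≠ ⊥) : Ideal.absNorm (cm P) ≠ 0 := by
  rwa [Ne, Ideal.absNorm_eq_zero_iff]

/-- the residue characteristic -/
theorem exists_prime_mem {P : Ideal (OO k)} (hP : P.IsMaximal) (h0 : cm P ≠ ⊥) :
    ∃ l : ℕ, l.Prime ∧ (l : OO k) ∈ P := by
  have h1 : ((Ideal.absNorm (cm P) : ℕ) : OO k) ∈ P := by
    rw [← natCast_mem_cm]
    exact Ideal.absNorm_mem _
  have key : ∀ m : ℕ, m ≠ 0 → (m : OO k) ∈ P → ∃ l : ℕ, l.Prime ∧ (l : OO k) ∈ P := by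
    intro m
    induction m using Nat.strong_induction_on with
    | _ m ih =>
      intro hm hmP
      have hm1 : m ≠ 1 := by
        rintro rfl
        apply hP.ne_top
        rw [Ideal.eq_top_iff_one]
        simpa using hmP
      obtain ⟨l, hl, d, rfl⟩ := Nat.exists_prime_and_dvd hm1
      rw [Nat.cast_mul] at hmP
      rcases hP.isPrime.mem_or_mem hmP with h | h
      · exact ⟨l, hl, h⟩
      · have hd : d ≠ 0 := by
          rintro rfl
          simp at hm
        refine ih d ?_ hd h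
        have := hl.two_le
        nlinarith [Nat.pos_of_ne_zero hd]
  exact key _ (absNorm_ne_zero h0) h1

/-- the inertia groups at conjugate ideals -/
theorem conj_ideal' (g : GF k) (P : Ideal (OO k)) (hP : P.IsMaximal) :
    ∃ Q : Ideal (OO k), Q.IsMaximal ∧ cm Q = cm P ∧
      ∀ τ : GF k, InInertia P τ → InInertia Q (g * τ * g⁻¹) := by
  refine ⟨Pool.Agent.W401.Frob.tr g P, Pool.Agent.W401.Frob.tr_max g P hP, ?_, fun τ hτ x => ?_⟩
  · exact Pool.Agent.W401.Frob.tr_comap g P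
  · rw [Pool.Agent.W401.Frob.mem_tr, smul_sub, smul_smul]
    have h1 : g⁻¹ * (g * τ * g⁻¹) = τ * g⁻¹ := by group
    rw [h1, ← smul_smul]
    exact hτ _

theorem frobAt_mul {q q' : ℕ} {P : Ideal (OO k)} {φ ψ : GF k} (h : FrobAt q P φ)
    (h' : FrobAt q' P ψ) (hq' : q' ≠ 0) : FrobAt (q * q') P (φ * ψ) := by
  intro x
  have h1 := h (ψ • x)
  have h2 : (ψ • x) ^ q - (x ^ q') ^ q ∈ P := by
    have h3 := h' x
    obtain ⟨w, hw⟩ := sub_dvd_pow_sub_pow (ψ • x) (x ^ q') q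
    rw [hw]
    exact P.mul_mem_right _ h3
  have h3 : (φ * ψ) • x - x ^ (q * q') =
      (φ • ψ • x - (ψ • x) ^ q) + ((ψ • x) ^ q - (x ^ q') ^ q) := by
    rw [mul_smul, ← pow_mul, mul_comm q' q]
    ring
  rw [h3]
  exact P.add_mem h1 h2

theorem frobAt_pow' {q : ℕ} {P : Ideal (OO k)} {φ : GF k} (h : FrobAt q P φ) (hq : q ≠ 0) (m : ℕ) :
    FrobAt (q ^ m) P (φ ^ m) := by
  induction m with
  | zero =>
    intro x
    rw [pow_zero, pow_zero, pow_one, one_smul, sub_self]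
    exact P.zero_mem
  | succ m ih =>
    rw [pow_succ, pow_succ]
    exact frobAt_mul ih h hq

end

end Pool.Agent.Q15.FMNT
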