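import Mathlib

/-! Groups with two generators and a filtration. -/

set_option autoImplicit false

namespace Pool.Agent.Q15.FMRank

open scoped commutatorElement

section class2

variable {R : Type} [Group R]

/-- powers of products if the commutator is central -/
theorem mul_pow_of_central {x y z : R} (hz : ∀ g : R, Commute z g) (h : y * x = x * y * z) (k : ℕ) :
    (x * y) ^ k = x ^ k * y ^ k * z ^ (k.choose 2) := by
  have hy : ∀ k : ℕ, y ^ k * x = x * y ^ k * z ^ k := by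
    intro k
    induction k with
    | zero => simp
    | succ k ih =>
      calc y ^ (k + 1) * x = y ^ k * (y * x) := by rw [pow_succ, mul_assoc]
        _ = y ^ k * (x * y * z) := by rw [h]
        _ = (y ^ k * x) * y * z := by simp only [mul_assoc]
        _ = x * y ^ k * z ^ k * y * z := by rw [ih]
        _ = x * y ^ k * (z ^ k * y) * z := by simp only [mul_assoc]
        _ = x * y ^ k * (y * z ^ k) * z := by rw [((hz y).pow_left k).eq]
        _ = x * y ^ (k + 1) * z ^ (k + 1) := by simp only [pow_succ, mul_assoc]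
  induction k with
  | zero => simp
  | succ k ih =>
    have hc : (k + 1).choose 2 = k + k.choose 2 := by
      rw [Nat.choose_succ_succ' k 1, Nat.choose_one_right]
    have e1 : Commute (z ^ (k.choose 2)) (x * y) := (hz _).pow_left _
    calc (x * y) ^ (k + 1) = x ^ k * y ^ k * z ^ (k.choose 2) * (x * y) := by rw [pow_succ, ih]
      _ = x ^ k * y ^ k * (z ^ (k.choose 2) * (x * y)) := by simp only [mul_assoc]
      _ = x ^ k * y ^ k * (x * y * z ^ (k.choose 2)) := by rw [e1.eq]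
      _ = x ^ k * (y ^ k * x) * y * z ^ (k.choose 2) := by simp only [mul_assoc]
      _ = x ^ k * (x * y ^ k * z ^ k) * y * z ^ (k.choose 2) := by rw [hy]
      _ = x ^ k * x * y ^ k * (z ^ k * y) * z ^ (k.choose 2) := by simp only [mul_assoc]
      _ = x ^ k * x * y ^ k * (y * z ^ k) * z ^ (k.choose 2) := by rw [((hz y).pow_left k).eq]
      _ = x ^ (k + 1) * y ^ (k + 1) * (z ^ k * z ^ (k.choose 2)) := by
        simp only [pow_succ, mul_assoc]
      _ = _ := by rw [hc, pow_add z k]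

theorem dvd_choose {p : ℕ} (hp : p.Prime) (hp2 : p ≠ 2) (e : ℕ) : p ^ e ∣ (p ^ e).choose 2 := by
  rw [Nat.choose_two_right]
  have h1 : Odd (p ^ e) := (hp.odd_of_ne_two hp2).pow
  obtain ⟨m, hm⟩ := h1
  rw [hm]
  have h2 : (2 * m + 1) * (2 * m + 1 - 1) / 2 = (2 * m + 1) * m := by
    rw [Nat.add_sub_cancel, mul_comm 2 m, ← mul_assoc, Nat.mul_div_cancel _ (by norm_num)]
  rw [h2]
  exact Dvd.intro _ rfl

/-- in a cyclic group of prime power order one of two elements is a power of the other -/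
theorem dichotomy {p : ℕ} (hp : p.Prime) (r : ℕ) (a b : ℤ) :
    (∃ m : ℤ, (p : ℤ) ^ r ∣ b - m * a) ∨ ∃ m : ℤ, (p : ℤ) ^ r ∣ a - m * b := by
  have key : ∀ a b : ℤ, (Int.gcd a ((p : ℤ) ^ r) : ℤ) ∣ b → ∃ m : ℤ, (p : ℤ) ^ r ∣ b - m * a := by
    intro a b h
    obtain ⟨t, ht⟩ := h
    have hb := Int.gcd_eq_gcd_ab a ((p : ℤ) ^ r)
    refine ⟨t * Int.gcdA a ((p : ℤ) ^ r), ?_⟩
    refine ⟨t * Int.gcdB a ((p : ℤ) ^ r), ?_⟩
    rw [ht, hb]
    ring
  have hd : ∀ a : ℤ, ∃ s : ℕ, Int.gcd a ((p : ℤ) ^ r) = p ^ s := by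
    intro a
    have h1 : Int.gcd a ((p : ℤ) ^ r) ∣ p ^ r := by
      have h2 := Int.gcd_dvd_right a ((p : ℤ) ^ r)
      exact_mod_cast h2
    obtain ⟨s, -, hs⟩ := (Nat.dvd_prime_pow hp).1 h1
    exact ⟨s, hs⟩
  obtain ⟨s, hs⟩ := hd a
  obtain ⟨t, ht⟩ := hd b
  rcases le_total s t with h | h
  · left
    refine key a b ?_
    have h1 : (Int.gcd b ((p : ℤ) ^ r) : ℤ) ∣ b := Int.gcd_dvd_left ..
    refine dvd_trans ?_ h1
    rw [hs, ht]
    exact_mod_cast pow_dvd_pow p h
  · right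
    refine key b a ?_
    have h1 : (Int.gcd a ((p : ℤ) ^ r) : ℤ) ∣ a := Int.gcd_dvd_left ..
    refine dvd_trans ?_ h1
    rw [hs, ht]
    exact_mod_cast pow_dvd_pow p h

/-- a `p`-group of class two with two generators whose `p ^ e`-th powers are in the commutator
subgroup has generators `h₁`, `h₂` such that `h₂ ^ (p ^ e)` is a power of `[h₁, h₂] ^ (p ^ e)` -/
theorem good_generators {p e : ℕ} (hp : p.Prime) (hp2 : p ≠ 2)
    (hcen : ∀ x ∈ commutator R, ∀ g : R, Commute x g)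
    (hpg : ∀ x : R, ∃ t : ℕ, x ^ p ^ t = 1)
    (hexp : ∀ x : R, x ^ p ^ e ∈ commutator R) {r₁ r₂ : R}
    (hgen : Subgroup.closure {r₁, r₂} = ⊤) :
    ∃ h₁ h₂ : R, commutator R ≤ Subgroup.zpowers ⁅h₁, h₂⁆ ∧
      h₂ ^ p ^ e ∈ Subgroup.zpowers (⁅h₁, h₂⁆ ^ p ^ e) := by
  have hcomm : ∀ x y : R, ⁅x, y⁆ ∈ commutator R := fun x y =>
    Subgroup.commutator_mem_commutator (Subgroup.mem_top x) (Subgroup.mem_top y)
  -- the commutator subgroup is generated by the commutator of the generators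
  have hcyc : ∀ r₁ r₂ : R, Subgroup.closure {r₁, r₂} = ⊤ →
      commutator R ≤ Subgroup.zpowers ⁅r₁, r₂⁆ := by
    intro r₁ r₂ hgen
    set c := ⁅r₁, r₂⁆ with hc
    have hcc : ∀ g : R, Commute c g := hcen c (hcomm _ _)
    have hn : (Subgroup.zpowers c).Normal := by
      refine ⟨fun n hn g => ?_⟩
      obtain ⟨i, rfl⟩ := Subgroup.mem_zpowers_iff.1 hn
      have h1 : g * c ^ i * g⁻¹ = c ^ i := by
        rw [← ((hcc g).zpow_left i).eq, mul_inv_cancel_right]
      rw [h1]
      exact Subgroup.zpow_mem_zpowers c i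
    set π := QuotientGroup.mk' (Subgroup.zpowers c) with hπ
    have hcm : Commute (π r₁) (π r₂) := by
      rw [← commutatorElement_eq_one_iff_commute, ← map_commutatorElement, ← hc]
      exact (QuotientGroup.eq_one_iff c).2 (Subgroup.mem_zpowers c)
    have hall : ∀ x : R, Commute (π x) (π r₁) ∧ Commute (π x) (π r₂) := by
      intro x
      have hx : x ∈ Subgroup.closure {r₁, r₂} := by rw [hgen]; trivial
      induction hx using Subgroup.closure_induction with
      | mem x hx =>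
        rcases hx with rfl | hx
        · exact ⟨Commute.refl _, hcm⟩
        · rw [Set.mem_singleton_iff] at hx
          subst hx
          exact ⟨hcm.symm, Commute.refl _⟩
      | one => rw [map_one]; exact ⟨Commute.one_left _, Commute.one_left _⟩
      | mul x y _ _ hx hy => rw [map_mul]; exact ⟨hx.1.mul_left hy.1, hx.2.mul_left hy.2⟩
      | inv x _ hx => rw [map_inv]; exact ⟨hx.1.inv_left, hx.2.inv_left⟩
    have hall2 : ∀ x y : R, Commute (π y) (π x) := by
      intro x y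
      have hx : x ∈ Subgroup.closure {r₁, r₂} := by rw [hgen]; trivial
      induction hx using Subgroup.closure_induction with
      | mem x hx =>
        rcases hx with rfl | hx
        · exact (hall y).1
        · rw [Set.mem_singleton_iff] at hx
          subst hx
          exact (hall y).2
      | one => rw [map_one]; exact Commute.one_right _
      | mul x z _ _ hx hz => rw [map_mul]; exact hx.mul_right hz
      | inv x _ hx => rw [map_inv]; exact hx.inv_right
    rw [commutator_def, Subgroup.commutator_le]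
    intro x _ y _
    rw [← QuotientGroup.eq_one_iff (N := Subgroup.zpowers c)]
    show π ⁅x, y⁆ = 1
    rw [map_commutatorElement, commutatorElement_eq_one_iff_commute]
    exact hall2 y x
  -- the main step
  have main : ∀ r₁ r₂ : R, Subgroup.closure {r₁, r₂} = ⊤ → (∃ m : ℤ, r₂ ^ p ^ e =
      (r₁ ^ p ^ e) ^ m) → ∃ h₁ h₂ : R, commutator R ≤ Subgroup.zpowers ⁅h₁, h₂⁆ ∧
      h₂ ^ p ^ e ∈ Subgroup.zpowers (⁅h₁, h₂⁆ ^ p ^ e) := by
    intro r₁ r₂ hgen ⟨m, hm⟩
    have hgen2 : Subgroup.closure {r₁, r₂ * (r₁ ^ m)⁻¹} = ⊤ := by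
      rw [eq_top_iff, ← hgen, Subgroup.closure_le]
      have h1 : r₁ ∈ Subgroup.closure {r₁, r₂ * (r₁ ^ m)⁻¹} :=
        Subgroup.subset_closure (Set.mem_insert _ _)
      have h2 : r₂ * (r₁ ^ m)⁻¹ ∈ Subgroup.closure {r₁, r₂ * (r₁ ^ m)⁻¹} :=
        Subgroup.subset_closure (Set.mem_insert_of_mem _ rfl)
      intro x hx
      rcases hx with rfl | hx
      · exact h1
      · rw [Set.mem_singleton_iff] at hx
        subst hx
        have h3 := Subgroup.mul_mem _ h2 (Subgroup.zpow_mem _ h1 m)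
        rw [inv_mul_cancel_right] at h3
        exact h3
    refine ⟨r₁, r₂ * (r₁ ^ m)⁻¹, hcyc _ _ hgen2, ?_⟩
    set c := ⁅r₁, r₂ * (r₁ ^ m)⁻¹⁆ with hc
    -- the commutator of the two factors
    set y := (r₁ ^ m)⁻¹ with hy
    obtain ⟨z, hz⟩ : ∃ z, z = y⁻¹ * r₂⁻¹ * y * r₂ := ⟨_, rfl⟩
    have hzc : z ∈ commutator R := by
      have h1 := hcomm y⁻¹ r₂⁻¹
      have h2 : ⁅y⁻¹, r₂⁻¹⁆ = z := by
        rw [commutatorElement_def, hz]
        group
      rwa [h2] at h1
    have hzz : ∀ g : R, Commute z g := hcen z hzc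
    have h1 : y * r₂ = r₂ * y * z := by
      rw [hz]
      group
    rw [mul_pow_of_central hzz h1]
    have h2 : r₂ ^ p ^ e * y ^ p ^ e = 1 := by
      rw [hm, hy, inv_pow, ← zpow_natCast, ← zpow_natCast, ← zpow_mul, ← zpow_mul, mul_comm m]
      exact mul_inv_cancel _
    rw [h2, one_mul]
    obtain ⟨t, ht⟩ := dvd_choose hp hp2 e
    obtain ⟨i, hi⟩ := Subgroup.mem_zpowers_iff.1 (hcyc _ _ hgen2 hzc)
    rw [Subgroup.mem_zpowers_iff]
    refine ⟨i * t, ?_⟩
    rw [ht, ← hi, ← hc, ← zpow_natCast, ← zpow_natCast, ← zpow_mul, ← zpow_mul]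
    congr 1
    push_cast
    ring
  -- the dichotomy
  have hc1 := hcyc r₁ r₂ hgen
  obtain ⟨a, ha⟩ := Subgroup.mem_zpowers_iff.1 (hc1 (hexp r₁))
  obtain ⟨b, hb⟩ := Subgroup.mem_zpowers_iff.1 (hc1 (hexp r₂))
  obtain ⟨t, ht⟩ := hpg ⁅r₁, r₂⁆
  have hpow : ∀ i j : ℤ, (p : ℤ) ^ t ∣ i - j → ⁅r₁, r₂⁆ ^ i = ⁅r₁, r₂⁆ ^ j := by
    rintro i j ⟨s, hs⟩
    have h1 : i = j + (p : ℤ) ^ t * s := by rw [← hs]; ring
    rw [h1, zpow_add, zpow_mul]
    have h2 : ⁅r₁, r₂⁆ ^ ((p : ℤ) ^ t) = 1 := by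
      have h3 : ((p : ℤ) ^ t) = ((p ^ t : ℕ) : ℤ) := by push_cast; rfl
      rw [h3, zpow_natCast, ht]
    rw [h2, one_zpow, mul_one]
  rcases dichotomy hp t a b with ⟨m, hm⟩ | ⟨m, hm⟩
  · refine main r₁ r₂ hgen ⟨m, ?_⟩
    rw [← ha, ← hb, hpow b (m * a) hm, mul_comm m a, zpow_mul]
  · refine main r₂ r₁ ?_ ⟨m, ?_⟩
    · rw [Set.pair_comm]
      exact hgen
    · rw [← ha, ← hb, hpow a (m * b) hm, mul_comm m b, zpow_mul]

end class2

section filtration

variable {G : Type} [Group G]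

/-- **The filtration argument.** -/
theorem trivial_of_filtration {p e j E : ℕ} (hp : p.Prime) (hp2 : p ≠ 2) (D : ℕ → Subgroup G)
    [hDn : ∀ a, (D a).Normal] (hanti : ∀ a b, a ≤ b → D b ≤ D a) (hj : D j = ⊤) (hj1 : 1 ≤ j)
    (hE : E < 2 * j) (hcomm : ∀ a b, ⁅D a, D b⁆ ≤ D (a + b))
    (hpow : ∀ a, j ≤ a → ∀ g ∈ D a, g ^ p ^ e ∈ D (a + E))
    (hroot : ∀ b g, g ^ p ^ e ∈ D (b + E) → g ∈ D b)
    (hpg : ∀ N g, ∃ t : ℕ, g ^ p ^ t ∈ D N)
    (hexp : ∀ N g, g ^ p ^ e ∈ commutator G ⊔ D N)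
    {g₁ g₂ : G} (hgen : ∀ N, Subgroup.closure {g₁, g₂} ⊔ D N = ⊤) (N : ℕ) (g : G) : g ∈ D N := by
  -- the commutator subgroup
  have key : ∀ i : ℕ, commutator G ≤ D (j + i) := by
    intro i
    induction i with
    | zero => rw [add_zero, hj]; exact le_top
    | succ i ih =>
      obtain ⟨ζ, hζ⟩ : ∃ ζ, ζ = j + i := ⟨_, rfl⟩
      rw [← hζ] at ih
      set π := QuotientGroup.mk' (D (ζ + j)) with hπ
      have hsur : Function.Surjective π := QuotientGroup.mk'_surjective _
      have hker : ∀ x : G, π x = 1 ↔ x ∈ D (ζ + j) := fun x => QuotientGroup.eq_one_iff x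
      have hcm : commutator (G ⧸ D (ζ + j)) = (commutator G).map π := by
        rw [commutator_def, commutator_def, Subgroup.map_commutator,
          Subgroup.map_top_of_surjective π hsur]
      have A1 : ∀ x ∈ commutator (G ⧸ D (ζ + j)), ∀ g : G ⧸ D (ζ + j), Commute x g := by
        intro x hx y
        rw [hcm] at hx
        obtain ⟨x, hx, rfl⟩ := hx
        obtain ⟨y, rfl⟩ := hsur y
        rw [← commutatorElement_eq_one_iff_commute, ← map_commutatorElement, hker]
        refine hcomm _ _ (Subgroup.commutator_mem_commutator (ih hx) ?_)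
        rw [hj]
        trivial
      have A2 : ∀ x : G ⧸ D (ζ + j), ∃ t : ℕ, x ^ p ^ t = 1 := by
        intro x
        obtain ⟨x, rfl⟩ := hsur x
        obtain ⟨t, ht⟩ := hpg (ζ + j) x
        exact ⟨t, by rw [← map_pow, hker]; exact ht⟩
      have A3 : ∀ x : G ⧸ D (ζ + j), x ^ p ^ e ∈ commutator (G ⧸ D (ζ + j)) := by
        intro x
        obtain ⟨x, rfl⟩ := hsur x
        rw [hcm, ← map_pow]
        obtain ⟨y, hy, z, hz, hyz⟩ := Subgroup.mem_sup_of_normal_right.1 (hexp (ζ + j) x)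
        rw [← hyz, map_mul, (hker z).2 hz, mul_one]
        exact Subgroup.mem_map_of_mem _ hy
      have A4 : Subgroup.closure {π g₁, π g₂} = ⊤ := by
        have h1 := congrArg (Subgroup.map π) (hgen (ζ + j))
        rw [Subgroup.map_sup, Subgroup.map_top_of_surjective π hsur, MonoidHom.map_closure,
          Set.image_pair] at h1
        have h2 : (D (ζ + j)).map π = ⊥ := by
          rw [eq_bot_iff]
          rintro _ ⟨x, hx, rfl⟩
          exact (hker x).2 hx
        rw [h2, sup_bot_eq] at h1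
        exact h1
      obtain ⟨h₁, h₂, hc1, hc2⟩ := good_generators hp hp2 A1 A2 A3 A4
      obtain ⟨x₁, rfl⟩ := hsur h₁
      obtain ⟨x₂, rfl⟩ := hsur h₂
      rw [← map_commutatorElement] at hc1 hc2
      set c := ⁅x₁, x₂⁆ with hc
      have hcG : c ∈ commutator G :=
        Subgroup.commutator_mem_commutator (Subgroup.mem_top _) (Subgroup.mem_top _)
      have hcζ : c ∈ D ζ := ih hcG
      -- `x₂ ^ (p ^ e)`
      have h3 : x₂ ^ p ^ e ∈ D (ζ + min j E) := by
        obtain ⟨i, hi⟩ := Subgroup.mem_zpowers_iff.1 hc2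
        rw [← map_pow, ← map_zpow, ← map_pow] at hi
        have h4 : x₂ ^ p ^ e = (c ^ p ^ e) ^ i * (((c ^ p ^ e) ^ i)⁻¹ * x₂ ^ p ^ e) := by group
        rw [h4]
        refine Subgroup.mul_mem _ (Subgroup.zpow_mem _ ?_ i) ?_
        · exact hanti _ _ (by omega) (hpow ζ (by omega) c hcζ)
        · refine hanti (ζ + min j E) (ζ + j) (by omega) ?_
          rw [← hker, map_mul, map_inv, hi, inv_mul_cancel]
      have h5 : x₂ ∈ D (ζ + min j E - E) := by
        apply hroot
        refine hanti _ _ ?_ h3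
        omega
      have h6 : c ∈ D (j + (ζ + min j E - E)) := by
        refine hcomm _ _ (Subgroup.commutator_mem_commutator ?_ h5)
        rw [hj]
        trivial
      have h7 : c ∈ D (j + (i + 1)) := hanti _ _ (by omega) h6
      intro x hx
      have h8 : π x ∈ commutator (G ⧸ D (ζ + j)) := by
        rw [hcm]
        exact Subgroup.mem_map_of_mem _ hx
      obtain ⟨s, hs⟩ := Subgroup.mem_zpowers_iff.1 (hc1 h8)
      rw [← map_zpow] at hs
      have h9 : x = c ^ s * ((c ^ s)⁻¹ * x) := by group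
      rw [h9]
      refine Subgroup.mul_mem _ (Subgroup.zpow_mem _ h7 s) ?_
      refine hanti _ (ζ + j) (by omega) ?_
      rw [← hker, map_mul, map_inv, hs, inv_mul_cancel]
  have h1 : commutator G ⊔ D (N + E) ≤ D (N + E) := by
    refine sup_le ?_ le_rfl
    exact (key (N + E)).trans (hanti _ _ (by omega))
  exact hroot N g (h1 (hexp (N + E) g))

end filtration

end Pool.Agent.Q15.FMRank
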