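import Pool.Agent.Q15.FMRank
import Pool.Agent.Q15.FMTors
import Pool.Agent.W569.UF.CycA
import Pool.Agent.W569.FM.MainC

/-! Representations of compact groups with two generators. -/

set_option autoImplicit false
set_option linter.unusedSectionVars false

namespace Pool.Agent.Q15.FMRankA

open Matrix IsLocalRing Pool.Agent.W569.FM Pool.Agent.W569.UF Pool.Agent.Q15.FMRes
  Pool.Agent.Q15.FMTors
open scoped commutatorElement

section

variable {A : Type} [CommRing A] [IsLocalRing A]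

theorem natCast_mul_apply {p n : ℕ} (Y : Matrix (Fin n) (Fin n) A) (i j : Fin n) :
    ((p : Matrix (Fin n) (Fin n) A) * Y) i j = (p : A) * Y i j := by
  rw [← nsmul_eq_mul, Matrix.smul_apply, nsmul_eq_mul]

/-- the expansion of the `p`-th power -/
theorem expand {p e0 n z : ℕ} (hp : p.Prime) (hz : 1 ≤ z)
    (hz2 : e0 < (p - 1) * z) {Z : Matrix (Fin n) (Fin n) A}
    (hZ : Z ∈ Fil A n z) : ∃ R ∈ Fil A n (z + 1), ∃ Y ∈ Fil A n (z + e0 + 1),
      (1 + Z) ^ p = 1 + (Y + (p : Matrix (Fin n) (Fin n) A) * (Z + R)) := by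
  have h1 := (Commute.one_left Z).add_pow_prime_eq' hp
  rw [one_pow] at h1
  have hp2 := hp.two_le
  have hmem : p - 1 ∈ Finset.Ioo 0 p := by
    rw [Finset.mem_Ioo]
    omega
  rw [← Finset.add_sum_erase _ _ hmem] at h1
  have hch : p.choose (p - 1) / p = 1 := by
    rw [Nat.choose_symm_of_eq_add (show p = (p - 1) + 1 by omega), Nat.choose_one_right,
      Nat.div_self hp.pos]
  have hpp : p - (p - 1) = 1 := by omega
  rw [hch, hpp, one_pow, one_mul, pow_one, Nat.cast_one, mul_one] at h1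
  set R := ∑ x ∈ (Finset.Ioo 0 p).erase (p - 1),
    (1 : Matrix (Fin n) (Fin n) A) ^ x * Z ^ (p - x) * ((p.choose x / p : ℕ) :
      Matrix (Fin n) (Fin n) A) with hR
  have hRF : R ∈ Fil A n (z + 1) := by
    rw [hR]
    refine Submodule.sum_mem _ fun x hx => ?_
    rw [Finset.mem_erase, Finset.mem_Ioo] at hx
    refine Fil_mul_right ?_ _
    rw [one_pow, one_mul]
    obtain ⟨m, hm⟩ : ∃ m, p - x = m + 1 + 1 := ⟨p - x - 2, by omega⟩
    rw [hm]
    refine Fil_anti (b := (m + 1 + 1) * z) (by nlinarith) (Fil_pow hZ (m + 1))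
  have hZp : Z ^ p ∈ Fil A n (z + e0 + 1) := by
    obtain ⟨m, hm⟩ : ∃ m, p = m + 1 := ⟨p - 1, by omega⟩
    have h2 := Fil_pow hZ m
    rw [← hm] at h2
    refine Fil_anti (b := p * z) ?_ h2
    have h3 : p * z = z + (p - 1) * z := by
      have : p = 1 + (p - 1) := by omega
      conv_lhs => rw [this]
      ring
    omega
  refine ⟨R, hRF, Z ^ p, hZp, ?_⟩
  rw [h1, add_assoc]

theorem p_mul_mem {p e0 n z : ℕ} (hreg : RegOrd A p e0) {Z : Matrix (Fin n) (Fin n) A}
    (hZ : Z ∈ Fil A n z) : (p : Matrix (Fin n) (Fin n) A) * Z ∈ Fil A n (z + e0) := by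
  intro i j
  rw [natCast_mul_apply, add_comm, pow_add]
  exact Ideal.mul_mem_mul hreg.1 (hZ i j)

/-- the `p`-th power -/
theorem pow_mem {p e0 n z : ℕ} (hp : p.Prime) (hreg : RegOrd A p e0) (hz : 1 ≤ z)
    (hz2 : e0 < (p - 1) * z) {X : Matrix (Fin n) (Fin n) A}
    (hX : X - 1 ∈ Fil A n z) : X ^ p - 1 ∈ Fil A n (z + e0) := by
  obtain ⟨R, hR, Y, hY, h⟩ := expand (e0 := e0) hp hz hz2 hX
  rw [add_sub_cancel] at h
  rw [h, add_sub_cancel_left]
  refine Submodule.add_mem _ (Fil_anti (by omega) hY) (p_mul_mem hreg ?_)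
  exact Submodule.add_mem _ hX (Fil_anti (by omega) hR)

/-- roots -/
theorem root_mem {p e0 n j b : ℕ} (hp : p.Prime) (hreg : RegOrd A p e0) (hj : 1 ≤ j)
    (hj2 : e0 < (p - 1) * j) {X : Matrix (Fin n) (Fin n) A}
    (hX : X - 1 ∈ Fil A n j) (h : X ^ p - 1 ∈ Fil A n (b + e0)) : X - 1 ∈ Fil A n b := by
  have key : ∀ i, j + i ≤ b → X - 1 ∈ Fil A n (j + i) := by
    intro i
    induction i with
    | zero => intro _; exact hX
    | succ i ih =>
      intro hi
      have hZ := ih (by omega)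
      have hz2 : e0 < (p - 1) * (j + i) :=
        hj2.trans_le (Nat.mul_le_mul_left _ (Nat.le_add_right j i))
      obtain ⟨R, hR, Y, hY, hh⟩ := expand (e0 := e0) (z := j + i) hp (by omega) hz2 hZ
      rw [add_sub_cancel] at hh
      have h2 : (p : Matrix (Fin n) (Fin n) A) * (X - 1) ∈ Fil A n (j + i + e0 + 1) := by
        have h3 : (p : Matrix (Fin n) (Fin n) A) * (X - 1) =
            (X ^ p - 1) - Y - (p : Matrix (Fin n) (Fin n) A) * R := by
          rw [hh, mul_add]
          abel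
        rw [h3]
        refine Submodule.sub_mem _ (Submodule.sub_mem _ (Fil_anti (by omega) h) hY) ?_
        exact Fil_anti (by omega) (p_mul_mem hreg hR)
      intro s t
      refine hreg.2 (j + i) _ (hZ s t) ?_
      rw [← natCast_mul_apply]
      exact h2 s t
  rcases le_total j b with h1 | h1
  · have h2 := key (b - j) (by omega)
    rwa [Nat.add_sub_cancel' h1] at h2
  · exact Fil_anti h1 hX

theorem pow_pow_mem {p e0 n z : ℕ} (hp : p.Prime) (hreg : RegOrd A p e0) (hz : 1 ≤ z)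
    (hz2 : e0 < (p - 1) * z) (e : ℕ) {X : Matrix (Fin n) (Fin n) A}
    (hX : X - 1 ∈ Fil A n z) : X ^ p ^ e - 1 ∈ Fil A n (z + e * e0) := by
  induction e with
  | zero => simpa using hX
  | succ e ih =>
    have h1 := pow_mem hp hreg (z := z + e * e0) (by omega)
      (hz2.trans_le (Nat.mul_le_mul_left _ (Nat.le_add_right _ _))) ih
    rw [← pow_mul, ← pow_succ] at h1
    have h2 : z + e * e0 + e0 = z + (e + 1) * e0 := by ring
    rwa [h2] at h1

theorem pow_sub_one_mem {n j : ℕ} {X : Matrix (Fin n) (Fin n) A} (hX : X - 1 ∈ Fil A n j)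
    (m : ℕ) : X ^ m - 1 ∈ Fil A n j := by
  obtain ⟨w, hw⟩ : (X - 1) ∣ X ^ m - 1 := sub_one_dvd_pow_sub_one X m
  rw [hw]
  exact Fil_mul_right hX w

theorem root_root_mem {p e0 n j : ℕ} (hp : p.Prime) (hreg : RegOrd A p e0) (hj : 1 ≤ j)
    (hj2 : e0 < (p - 1) * j) (e : ℕ) {b : ℕ} {X : Matrix (Fin n) (Fin n) A}
    (hX : X - 1 ∈ Fil A n j) (h : X ^ p ^ e - 1 ∈ Fil A n (b + e * e0)) :
    X - 1 ∈ Fil A n b := by
  induction e generalizing b with
  | zero => simpa using h
  | succ e ih =>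
    refine ih (root_mem hp hreg hj hj2 (pow_sub_one_mem hX _) ?_)
    rw [← pow_mul, ← pow_succ]
    have h2 : b + e * e0 + e0 = b + (e + 1) * e0 := by ring
    rwa [h2]

/-- the congruence subgroups -/
def D {G : Type} [Group G] {n : ℕ} (ρ : G →* GL (Fin n) A) (a : ℕ) : Subgroup G where
  carrier := {g | (ρ g : Matrix (Fin n) (Fin n) A) - 1 ∈ Fil A n a}
  one_mem' := by
    show (ρ 1 : Matrix (Fin n) (Fin n) A) - 1 ∈ Fil A n a
    rw [map_one, Units.val_one, sub_self]
    exact Submodule.zero_mem _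
  mul_mem' := by
    intro x y hx hy
    show (ρ (x * y) : Matrix (Fin n) (Fin n) A) - 1 ∈ Fil A n a
    rw [map_mul]
    exact ME.mulGL (I := maximalIdeal A) (k := a) hx hy
  inv_mem' := by
    intro x hx
    show (ρ x⁻¹ : Matrix (Fin n) (Fin n) A) - 1 ∈ Fil A n a
    rw [map_inv]
    exact ME.inv (I := maximalIdeal A) (k := a) hx

theorem mem_D {G : Type} [Group G] {n : ℕ} {ρ : G →* GL (Fin n) A} {a : ℕ} {g : G} :
    g ∈ D ρ a ↔ (ρ g : Matrix (Fin n) (Fin n) A) - 1 ∈ Fil A n a := Iff.rfl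

theorem D_normal {G : Type} [Group G] {n : ℕ} (ρ : G →* GL (Fin n) A) (a : ℕ) :
    (D ρ a).Normal := by
  refine ⟨fun x hx g => ?_⟩
  rw [mem_D] at hx ⊢
  have h1 : (ρ (g * x * g⁻¹) : Matrix (Fin n) (Fin n) A) - 1 =
      (ρ g : Matrix (Fin n) (Fin n) A) * ((ρ x : Matrix (Fin n) (Fin n) A) - 1) *
        ((ρ g)⁻¹ : GL (Fin n) A) := by
    rw [mul_sub, sub_mul, mul_one, ← Units.val_mul, ← Units.val_mul, ← Units.val_mul,
      mul_inv_cancel, Units.val_one, map_mul, map_mul, map_inv]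
  rw [h1]
  exact ((show ME (maximalIdeal A) a _ from hx).mul_left).mul_right

theorem D_anti {G : Type} [Group G] {n : ℕ} (ρ : G →* GL (Fin n) A) (a b : ℕ) (h : a ≤ b) :
    D ρ b ≤ D ρ a := fun _ hg => Fil_anti h hg

theorem D_comm {G : Type} [Group G] {n : ℕ} (ρ : G →* GL (Fin n) A) (a b : ℕ) :
    ⁅D ρ a, D ρ b⁆ ≤ D ρ (a + b) := by
  rw [Subgroup.commutator_le]
  intro x hx y hy
  rw [mem_D] at hx hy ⊢
  rw [map_commutatorElement, commutatorElement_def]
  set X := ρ x with hX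
  set Y := ρ y with hY
  have h1 : ((X * Y * X⁻¹ * Y⁻¹ : GL (Fin n) A) : Matrix (Fin n) (Fin n) A) - 1 =
      (((X : Matrix (Fin n) (Fin n) A) - 1) * ((Y : Matrix (Fin n) (Fin n) A) - 1) -
        ((Y : Matrix (Fin n) (Fin n) A) - 1) * ((X : Matrix (Fin n) (Fin n) A) - 1)) *
        (((Y * X)⁻¹ : GL (Fin n) A) : Matrix (Fin n) (Fin n) A) := by
    have h2 : (((X : Matrix (Fin n) (Fin n) A) - 1) * ((Y : Matrix (Fin n) (Fin n) A) - 1) -
        ((Y : Matrix (Fin n) (Fin n) A) - 1) * ((X : Matrix (Fin n) (Fin n) A) - 1)) =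
        ((X * Y : GL (Fin n) A) : Matrix (Fin n) (Fin n) A) -
          ((Y * X : GL (Fin n) A) : Matrix (Fin n) (Fin n) A) := by
      rw [Units.val_mul, Units.val_mul]
      noncomm_ring
    rw [h2, sub_mul, ← Units.val_mul, ← Units.val_mul, mul_inv_cancel, Units.val_one]
    congr 2
    group
  rw [h1]
  refine Fil_mul_right (Submodule.sub_mem _ (Fil_mul hx hy) ?_) _
  rw [add_comm a b]
  exact Fil_mul hy hx

theorem D_open {G : Type} [Group G] [TopologicalSpace G] [IsTopologicalGroup G]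
    [TopologicalSpace A] (hA : IsAdic (maximalIdeal A)) {n : ℕ} (ρ : G →* GL (Fin n) A)
    (hρ : Continuous ρ) (a : ℕ) : IsOpen (D ρ a : Set G) := by
  apply Subgroup.isOpen_of_mem_nhds _ (g := (1 : G))
  exact eventually_ME hA ρ hρ a

end

/-- a proper subgroup of a finite `p`-group is killed by a nontrivial character -/
theorem exists_char' {p : ℕ} [Fact p.Prime] {Q : Type} [Group Q] [Finite Q] (hQ : IsPGroup p Q)
    (M : Subgroup Q) (hM : M ≠ ⊤) :
    ∃ χ : Q →* Multiplicative (ZMod p), (∀ x ∈ M, χ x = 1) ∧ ∃ y, χ y ≠ 1 := by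
  obtain ⟨C, hC, hMC⟩ : ∃ C : Subgroup Q, IsCoatom C ∧ M ≤ C := by
    rcases eq_top_or_exists_le_coatom M with h | ⟨C, hC, h⟩
    · exact absurd h hM
    · exact ⟨C, hC, h⟩
  have hnil : Group.IsNilpotent Q := hQ.isNilpotent
  have hCn : C.Normal := Subgroup.NormalizerCondition.normal_of_coatom C
    Group.normalizerCondition_of_isNilpotent hC
  have hQC : IsPGroup p (Q ⧸ C) := hQ.to_quotient C
  have hnt : Nontrivial (Q ⧸ C) := by
    rw [QuotientGroup.nontrivial_iff]
    exact hC.1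
  -- abelianization
  have hab : IsPGroup p (Abelianization (Q ⧸ C)) :=
    hQC.to_quotient (commutator (Q ⧸ C))
  have hnt2 : Nontrivial (Abelianization (Q ⧸ C)) := by
    by_contra h
    rw [not_nontrivial_iff_subsingleton] at h
    have hn : Group.IsNilpotent (Q ⧸ C) := hQC.isNilpotent
    have hs : Group.IsSolvable (Q ⧸ C) := inferInstance
    have h1 := Group.IsSolvable.commutator_lt_top_of_nontrivial (Q ⧸ C)
    have h2 : commutator (Q ⧸ C) = ⊤ := by
      rw [eq_top_iff]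
      intro x _
      rw [← QuotientGroup.eq_one_iff (N := commutator (Q ⧸ C))]
      exact @Subsingleton.elim _ h _ _
    rw [h2] at h1
    exact lt_irrefl _ h1
  have hfa : Finite (Abelianization (Q ⧸ C)) :=
    Finite.of_surjective _ (QuotientGroup.mk'_surjective (commutator (Q ⧸ C)))
  obtain ⟨x, hx⟩ := exists_ne (1 : Abelianization (Q ⧸ C))
  obtain ⟨χ, y, hy⟩ := exists_char Fact.out (Abelianization (Q ⧸ C)) hab x hx
  refine ⟨(χ.comp Abelianization.of).comp (QuotientGroup.mk' C), ?_, ?_⟩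
  · intro x hx
    have h1 : QuotientGroup.mk' C x = 1 := (QuotientGroup.eq_one_iff x).2 (hMC hx)
    rw [MonoidHom.comp_apply, h1, map_one]
  · obtain ⟨z, rfl⟩ := QuotientGroup.mk'_surjective (commutator (Q ⧸ C)) y
    obtain ⟨w, rfl⟩ := QuotientGroup.mk'_surjective C z
    exact ⟨w, hy⟩

section

variable {A : Type} [CommRing A] [IsLocalRing A] [IsNoetherianRing A] [TopologicalSpace A] {n : ℕ}
  {G : Type} [Group G] [TopologicalSpace G] [IsTopologicalGroup G] [CompactSpace G]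

/-- **compact groups with two generators** -/
theorem rank_two {p e e0 j : ℕ} [Fact p.Prime] (hp2 : p ≠ 2) (hA : IsAdic (maximalIdeal A))
    (he0 : 1 ≤ e0) (hreg : RegOrd A p e0) (Ur : Set G)
    (hexp : ∀ (E : Type) [CommGroup E] [Finite E], IsPGroup p E → ∀ f : G →* E,
      IsOpen (f.ker : Set G) → (∀ τ ∈ Ur, f τ = 1) → ∀ g, f g ^ p ^ e = 1)
    (g₁ g₂ : G) (hgen : ∀ f : G →* Multiplicative (ZMod p), IsOpen (f.ker : Set G) →
      (∀ τ ∈ Ur, f τ = 1) → f g₁ = 1 → f g₂ = 1 → ∀ g, f g = 1)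
    (hE : e * e0 < 2 * j) (hj1 : 1 ≤ j) (hj2 : e0 < (p - 1) * j)
    (ρ : G →* GL (Fin n) A) (hρ : Continuous ρ) (hur : ∀ τ ∈ Ur, ρ τ = 1)
    (hres : ∀ g, (ρ g : Matrix (Fin n) (Fin n) A) - 1 ∈ Fil A n j) : ∀ g, ρ g = 1 := by
  have hp : p.Prime := Fact.out
  have hDn : ∀ a, (D ρ a).Normal := D_normal ρ
  have hDtop : D ρ j = ⊤ := by
    rw [eq_top_iff]
    exact fun g _ => hres g
  have hpg : ∀ N g, ∃ t : ℕ, g ^ p ^ t ∈ D ρ N := by
    intro N g
    refine ⟨N, ?_⟩
    rw [mem_D, map_pow, Units.val_pow_eq_pow_val]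
    refine Fil_anti ?_ (pow_pow_mem hp hreg hj1 hj2 N (hres g))
    nlinarith
  have hfinQ : ∀ N, Finite (G ⧸ D ρ N) := fun N =>
    Subgroup.quotient_finite_of_isOpen _ (D_open hA ρ hρ N)
  have hpQ : ∀ N, IsPGroup p (G ⧸ D ρ N) := by
    intro N x
    obtain ⟨x, rfl⟩ := QuotientGroup.mk'_surjective (D ρ N) x
    obtain ⟨t, ht⟩ := hpg N x
    exact ⟨t, (QuotientGroup.eq_one_iff _).2 ht⟩
  have hopen : ∀ (N : ℕ) (E : Type) [Group E] (f : G ⧸ D ρ N →* E),
      IsOpen ((f.comp (QuotientGroup.mk' (D ρ N))).ker : Set G) := by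
    intro N E _ f
    refine Subgroup.isOpen_mono (H₁ := D ρ N) ?_ (D_open hA ρ hρ N)
    intro x hx
    have h1 : QuotientGroup.mk' (D ρ N) x = 1 := (QuotientGroup.eq_one_iff x).2 hx
    rw [MonoidHom.mem_ker, MonoidHom.comp_apply, h1, map_one]
  have hurN : ∀ (N : ℕ), ∀ τ ∈ Ur, QuotientGroup.mk' (D ρ N) τ = 1 := by
    intro N τ hτ
    refine (QuotientGroup.eq_one_iff τ).2 ?_
    rw [mem_D, hur τ hτ, Units.val_one, sub_self]
    exact Submodule.zero_mem _
  have hall := Pool.Agent.Q15.FMRank.trivial_of_filtration (e := e) (E := e * e0) hp hp2 (D ρ)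
    (D_anti ρ) hDtop hj1 hE (D_comm ρ)
    (by
      intro a ha g hg
      rw [mem_D] at hg ⊢
      rw [map_pow, Units.val_pow_eq_pow_val]
      exact pow_pow_mem hp hreg (hj1.trans ha)
        (hj2.trans_le (Nat.mul_le_mul_left _ ha)) e hg)
    (by
      intro b g hg
      rw [mem_D] at hg ⊢
      rw [map_pow, Units.val_pow_eq_pow_val] at hg
      exact root_root_mem hp hreg hj1 hj2 e (hres g) hg)
    hpg
    (by
      intro N g
      have := hfinQ N
      have hfa : Finite (Abelianization (G ⧸ D ρ N)) :=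
        Finite.of_surjective _ (QuotientGroup.mk'_surjective (commutator (G ⧸ D ρ N)))
      have h1 := hexp (Abelianization (G ⧸ D ρ N)) ((hpQ N).to_quotient (commutator (G ⧸ D ρ N)))
        (Abelianization.of.comp (QuotientGroup.mk' (D ρ N))) (hopen N _ _) (fun τ hτ => by
          rw [MonoidHom.comp_apply, hurN N τ hτ, map_one]) g
      rw [← map_pow, MonoidHom.comp_apply] at h1
      have h2 : QuotientGroup.mk' (D ρ N) (g ^ p ^ e) ∈ commutator (G ⧸ D ρ N) := by
        rw [← QuotientGroup.eq_one_iff (N := commutator (G ⧸ D ρ N))]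
        exact h1
      have h3 : commutator (G ⧸ D ρ N) = (commutator G).map (QuotientGroup.mk' (D ρ N)) := by
        rw [commutator_def, commutator_def, Subgroup.map_commutator,
          Subgroup.map_top_of_surjective _ (QuotientGroup.mk'_surjective _)]
      rw [h3] at h2
      obtain ⟨y, hy, hyg⟩ := h2
      have h4 : y⁻¹ * g ^ p ^ e ∈ D ρ N := by
        rw [← QuotientGroup.eq]
        exact hyg
      have h5 := Subgroup.mul_mem_sup hy h4
      rwa [mul_inv_cancel_left] at h5)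
    (g₁ := g₁) (g₂ := g₂)
    (by
      intro N
      have := hfinQ N
      by_contra hne
      set M := (Subgroup.closure {g₁, g₂}).map (QuotientGroup.mk' (D ρ N)) with hM
      have hMt : M ≠ ⊤ := by
        intro h
        apply hne
        rw [eq_top_iff]
        intro x _
        have h1 : QuotientGroup.mk' (D ρ N) x ∈ M := by rw [h]; trivial
        obtain ⟨y, hy, hyx⟩ := h1
        have h4 : y⁻¹ * x ∈ D ρ N := by
          rw [← QuotientGroup.eq]
          exact hyx
        have h5 := Subgroup.mul_mem_sup hy h4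
        rwa [mul_inv_cancel_left] at h5
      obtain ⟨χ, hχ, y, hy⟩ := exists_char' (hpQ N) M hMt
      obtain ⟨y, rfl⟩ := QuotientGroup.mk'_surjective (D ρ N) y
      apply hy
      refine hgen (χ.comp (QuotientGroup.mk' (D ρ N))) (hopen N _ _) (fun τ hτ => by
          rw [MonoidHom.comp_apply, hurN N τ hτ, map_one]) ?_ ?_ y
      · exact hχ _ (Subgroup.mem_map_of_mem _ (Subgroup.subset_closure (Set.mem_insert _ _)))
      · exact hχ _ (Subgroup.mem_map_of_mem _ (Subgroup.subset_closure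
          (Set.mem_insert_of_mem _ rfl))))
  intro g
  have h0 : (ρ g : Matrix (Fin n) (Fin n) A) - 1 = 0 := eq_zero_of_Fil fun a => hall a g
  exact Units.ext (sub_eq_zero.1 h0)

end

end Pool.Agent.Q15.FMRankA
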