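import Pool.Agent.W569.UF.MainG

/-! Representations which are trivial modulo a power of the maximal ideal: the general theorem. -/

set_option autoImplicit false

namespace Pool.Agent.Q15.FMRes

open Matrix IsLocalRing Pool.Agent.W569.FM Pool.Agent.W569.UF

section

variable {A : Type} [CommRing A] [IsLocalRing A]

/-- matrices with all entries in `m ^ a` -/
def Fil (A : Type) [CommRing A] [IsLocalRing A] (n a : ℕ) :
    Submodule A (Matrix (Fin n) (Fin n) A) where
  carrier := {M | ∀ i j, M i j ∈ maximalIdeal A ^ a}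
  zero_mem' := fun i j => by simp
  add_mem' := fun {x y} hx hy i j => Ideal.add_mem _ (hx i j) (hy i j)
  smul_mem' := fun c x hx i j => Ideal.mul_mem_left _ _ (hx i j)

theorem mem_Fil {n a : ℕ} {M : Matrix (Fin n) (Fin n) A} :
    M ∈ Fil A n a ↔ ∀ i j, M i j ∈ maximalIdeal A ^ a := Iff.rfl

theorem Fil_anti {n a b : ℕ} (h : a ≤ b) : Fil A n b ≤ Fil A n a := fun _ hM i j =>
  Ideal.pow_le_pow_right h (hM i j)

theorem Fil_mul {n a b : ℕ} {x y : Matrix (Fin n) (Fin n) A} (hx : x ∈ Fil A n a)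
    (hy : y ∈ Fil A n b) : x * y ∈ Fil A n (a + b) := by
  intro i j
  rw [Matrix.mul_apply]
  refine Ideal.sum_mem _ fun k _ => ?_
  rw [pow_add]
  exact Ideal.mul_mem_mul (hx i k) (hy k j)

theorem eq_zero_of_Fil [IsNoetherianRing A] {n : ℕ} {x : Matrix (Fin n) (Fin n) A}
    (hx : ∀ a, x ∈ Fil A n a) : x = 0 := by
  ext i j
  have h1 : x i j ∈ (⨅ a : ℕ, maximalIdeal A ^ a) := by
    rw [Ideal.mem_iInf]
    exact fun a => hx a i j
  rw [Ideal.iInf_pow_eq_bot_of_isLocalRing (I := maximalIdeal A)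
    (Ideal.IsPrime.ne_top inferInstance)] at h1
  exact h1

theorem reg_step {p e0 : ℕ} (hreg : RegOrd A p e0) {t : ℕ} {y : A}
    (hy : (p : A) * y ∈ maximalIdeal A ^ (t + e0)) : y ∈ maximalIdeal A ^ t := by
  have key : ∀ k, k ≤ t → y ∈ maximalIdeal A ^ k := by
    intro k
    induction k with
    | zero => intro _; simp
    | succ k ih =>
      intro hk
      refine hreg.2 k y (ih (by omega)) ?_
      exact Ideal.pow_le_pow_right (by omega) hy
  exact key t le_rfl

theorem reg_pow {p e0 : ℕ} (hreg : RegOrd A p e0) (e : ℕ) {t : ℕ} {y : A}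
    (hy : (p : A) ^ e * y ∈ maximalIdeal A ^ (t + e * e0)) : y ∈ maximalIdeal A ^ t := by
  induction e generalizing t with
  | zero => simpa using hy
  | succ e ih =>
    refine ih (reg_step hreg ?_)
    have h1 : (p : A) * ((p : A) ^ e * y) = (p : A) ^ (e + 1) * y := by ring
    rw [h1]
    have h2 : t + e * e0 + e0 = t + (e + 1) * e0 := by ring
    rw [h2]
    exact hy

end

section

variable {A : Type} [CommRing A] [IsLocalRing A] [IsNoetherianRing A] [TopologicalSpace A] {n : ℕ}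
  {G : Type} [Group G] [TopologicalSpace G] [IsTopologicalGroup G] {H : Subgroup G} [hH : H.Normal]

/-- the residually trivial case -/
theorem mainR (hMASTER : S_MASTER) (hQUOT : S_QUOT) {p e c : ℕ}
    {γ : G} {Ur : Set G} (hp : p.Prime) (hA : IsAdic (maximalIdeal A))
    (hfin : Finite (ResidueField A)) (hpA : (p : A) ∈ maximalIdeal A) {e0 : ℕ}
    (hreg : RegOrd A p e0) (hidx : H.index ≠ 0) (hS : Scal H p e c γ Ur) {N j : ℕ} (hN1 : 1 ≤ N)
    (hNe : e * e0 < N * j) (hc : ∀ i, 2 ≤ i → i ≤ N → ¬ c ^ i ≡ c [MOD p])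
    (ρ : H →* GL (Fin n) A) (hρ : Continuous ρ) (hur : ∀ τ : H, (τ : G) ∈ Ur → ρ τ = 1)
    (hres : ∀ g, (ρ g : Matrix (Fin n) (Fin n) A) - 1 ∈ Fil A n j) :
    ∀ g, ρ g = 1 := by
  obtain ⟨M, hM, -, hMγ⟩ : ∃ M : ℕ, 0 < M ∧ M ≤ H.index ∧ γ ^ M ∈ H :=
    Subgroup.exists_pow_mem_of_index_ne_zero hidx γ
  have hmas := master_span hMASTER hQUOT hp hA hfin hpA hS (m := N + 1) (by omega)
    (fun i h2 hi => hc i h2 (by omega)) ⟨γ ^ M, hMγ⟩ (N := M) rfl ρ hρ hur
  set I := Submodule.span A (Set.range (Xt γ M ρ)) with hI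
  let FB : ℕ → Submodule A (Bt A n M) := fun a => Submodule.pi Set.univ fun _ => Fil A n a
  have hFB : ∀ a Y, Y ∈ FB a ↔ ∀ i, Y i ∈ Fil A n a := fun a Y => by
    simp [FB, Submodule.mem_pi]
  have hI1 : I ≤ FB j := by
    rw [hI, Submodule.span_le]
    rintro _ ⟨g, rfl⟩
    show Xt γ M ρ g ∈ FB j
    rw [hFB]
    intro i
    exact hres _
  have hFBm : ∀ a b, FB a * FB b ≤ FB (a + b) := by
    intro a b
    rw [Submodule.mul_le]
    intro x hx y hy
    rw [hFB] at hx hy ⊢
    exact fun i => Fil_mul (hx i) (hy i)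
  have hpow : ∀ a, I ≤ FB a → ∀ k, I ^ (k + 1) ≤ FB ((k + 1) * a) := by
    intro a ha k
    induction k with
    | zero => simpa using ha
    | succ k ih =>
      rw [pow_succ]
      refine (mul_le_mul' ih ha).trans ?_
      have h1 := hFBm ((k + 1) * a) a
      have h2 : (k + 1) * a + a = (k + 1 + 1) * a := by ring
      rw [h2] at h1
      exact h1
  have hall : ∀ a, I ≤ FB (j + a) := by
    intro a
    induction a with
    | zero => exact hI1
    | succ a ih =>
      intro x hx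
      have h1 := hpow (j + a) ih N (hmas x hx)
      have h2 : (j + (a + 1)) + e * e0 ≤ (N + 1) * (j + a) := by nlinarith
      rw [hFB] at h1 ⊢
      intro i s t
      have h3 := Fil_anti h2 (h1 i) s t
      exact reg_pow hreg e h3
  have hzero : ∀ g, Xt γ M ρ g = 0 := by
    intro g
    funext i
    apply eq_zero_of_Fil
    intro a
    have h1 := hall a (Submodule.subset_span ⟨g, rfl⟩)
    rw [hFB] at h1
    exact Fil_anti (by omega) (h1 i)
  intro g
  have h1 := congrFun (hzero g) ⟨0, hM⟩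
  have h2 : (ρ (MulAut.conjNormal (γ ^ 0) g) : Matrix (Fin n) (Fin n) A) - 1 = 0 := h1
  rw [pow_zero, map_one, MulAut.one_apply, sub_eq_zero] at h2
  exact Units.ext h2

end

end Pool.Agent.Q15.FMRes
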