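import Pool.Agent.Q15.FMNT
import Pool.Agent.Q15.FMRes

/-! The scalar action. -/

set_option autoImplicit false
set_option linter.unusedSectionVars false

namespace Pool.Agent.Q15.FMScal

open NumberField Pool.Agent.W569.FM Pool.Agent.W569.UF Pool.Agent.W571.FM Pool.Agent.Q15.FMNT

theorem pgroup_zmod (p : ℕ) [Fact p.Prime] : IsPGroup p (Multiplicative (ZMod p)) := by
  apply IsPGroup.of_card (n := 1)
  rw [Nat.card_congr Multiplicative.toAdd, Nat.card_zmod, pow_one]

/-- the kernel of a combination is open -/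
theorem isOpen_ker_of' {H E : Type} [Group H] [TopologicalSpace H] [IsTopologicalGroup H] [Group E]
    (f F : H →* E) (u : H → H) (hu : Continuous u) (hu1 : u 1 = 1)
    (hf : IsOpen (f.ker : Set H)) (h : ∀ x, f (u x) = 1 → f x = 1 → F x = 1) :
    IsOpen (F.ker : Set H) := by
  apply Subgroup.isOpen_of_mem_nhds _ (g := (1 : H))
  have h1 : (f.ker : Set H) ∈ nhds (1 : H) := hf.mem_nhds f.ker.one_mem
  have h2 : (f.ker : Set H) ∈ nhds (u 1) := by
    rw [hu1]
    exact h1
  filter_upwards [h1, hu.continuousAt h2] with x hx hx'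
  exact h x hx' hx

section

variable {k : Type} [Field k] [NumberField k]

/-- the elements of the inertia groups at the primes outside `S` -/
def UrS (S : Set (Ideal (𝓞 k))) : Set (GF k) :=
  {τ | ∃ P : Ideal (OO k), P.IsMaximal ∧ cm P ∉ S ∧ InInertia P τ}

theorem UrS_conj (S : Set (Ideal (𝓞 k))) (g τ : GF k) (h : τ ∈ UrS S) : g * τ * g⁻¹ ∈ UrS S := by
  obtain ⟨P, hP, hS, hτ⟩ := h
  obtain ⟨Q, hQ, hc, hin⟩ := conj_ideal' g P hP
  exact ⟨Q, hQ, by rwa [hc], hin τ hτ⟩

/-- everywhere unramified -/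
def Unr {H : Subgroup (GF k)} {E : Type} [Group E] (f : H →* E) : Prop :=
  ∀ P : Ideal (OO k), P.IsMaximal → ∀ τ : H, InInertia P (τ : GF k) → f τ = 1

/-- the unramified abelian `p`-extensions have exponent dividing `p ^ a` -/
def UnrExp (H : Subgroup (GF k)) (p a : ℕ) : Prop :=
  ∀ (E : Type) [CommGroup E] [Finite E], IsPGroup p E → ∀ f : H →* E,
    IsOpen (f.ker : Set H) → Unr f → ∀ g, f g ^ p ^ a = 1

/-- `γ` acts by `c` on the unramified characters -/
def UnrAct (H : Subgroup (GF k)) [H.Normal] (p c : ℕ) (γ : GF k) : Prop :=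
  ∀ f : H →* Multiplicative (ZMod p), IsOpen (f.ker : Set H) → Unr f →
    ∀ g, f (MulAut.conjNormal γ g) = f g ^ c

/-- the local condition -/
structure Loc (H : Subgroup (GF k)) [H.Normal] (p b c : ℕ) (γ : GF k) (τ : H) : Prop where
  exp : ∀ (E : Type) [CommGroup E] [Finite E], IsPGroup p E → ∀ f : H →* E,
    IsOpen (f.ker : Set H) → f τ ^ p ^ b = 1
  act : ∀ f : H →* Multiplicative (ZMod p), IsOpen (f.ker : Set H) →
    f (MulAut.conjNormal γ τ) = f τ ^ c

theorem scalGen {p a b c M : ℕ} [Fact p.Prime] (H : Subgroup (GF k)) [H.Normal]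
    (γ : GF k) (hU : UnrExp H p a) (hA : UnrAct H p c γ) (hM : γ ^ M ∈ H) (hpM : ¬ p ∣ M)
    (S : Set (Ideal (𝓞 k)))
    (hL : ∀ P : Ideal (OO k), P.IsMaximal → cm P ∈ S → ∀ τ : H, InInertia P (τ : GF k) →
      Loc H p b c γ τ) :
    Scal H p (a + b) c γ (UrS S) where
  conj := fun g τ hτ => UrS_conj S g τ hτ
  exp := by
    intro E _ _ hE f hf hu g
    have h1 := hU E hE ((powMonoidHom (p ^ b)).comp f) ?_ ?_ g
    · have h2 : (f g ^ p ^ b) ^ p ^ a = 1 := h1
      rw [← pow_mul, ← pow_add, add_comm b a] at h2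
      exact h2
    · apply Subgroup.isOpen_mono (H₁ := f.ker) _ hf
      intro x hx
      have h2 : f x = 1 := hx
      show f x ^ p ^ b = 1
      rw [h2, one_pow]
    · intro P hP τ hτ
      show f τ ^ p ^ b = 1
      by_cases hPS : cm P ∈ S
      · exact (hL P hP hPS τ hτ).exp E hE f hf
      · rw [hu τ ⟨P, hP, hPS, hτ⟩, one_pow]
  scal := by
    intro f hf hu
    let F : H →* Multiplicative (ZMod p) :=
      (f.comp (MulAut.conjNormal γ).toMonoidHom) / ((powMonoidHom c).comp f)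
    have hF1 : ∀ x, F x = f (MulAut.conjNormal γ x) / f x ^ c := fun x => rfl
    have hFo : IsOpen (F.ker : Set H) := by
      refine isOpen_ker_of' f F (fun x => MulAut.conjNormal γ x) (continuous_conjNormal γ)
        (map_one _) hf fun x h4 h5 => ?_
      rw [hF1, h4, h5, one_pow, div_one]
    have hFu : Unr F := by
      intro P hP τ hτ
      rw [hF1, div_eq_one]
      by_cases hPS : cm P ∈ S
      · exact (hL P hP hPS τ hτ).act f hf
      · rw [hu τ ⟨P, hP, hPS, hτ⟩, one_pow]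
        refine hu _ ?_
        rw [MulAut.conjNormal_apply]
        exact UrS_conj S γ τ ⟨P, hP, hPS, hτ⟩
    have hFγ := hA F hFo hFu
    -- additive notation
    set φ : H → ZMod p := fun g => Multiplicative.toAdd (f g) with hφ
    set Φ : H → ZMod p := fun g => Multiplicative.toAdd (F g) with hΦ
    have e1 : ∀ g, φ (MulAut.conjNormal γ g) = c * φ g + Φ g := by
      intro g
      have h2 : f (MulAut.conjNormal γ g) = f g ^ c * F g := by
        rw [hF1, mul_div_cancel]
      have h3 := congrArg Multiplicative.toAdd h2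
      rw [toAdd_mul, toAdd_pow, nsmul_eq_mul] at h3
      exact h3
    have e2 : ∀ g, Φ (MulAut.conjNormal γ g) = c * Φ g := by
      intro g
      have h3 := congrArg Multiplicative.toAdd (hFγ g)
      rw [toAdd_pow, nsmul_eq_mul] at h3
      exact h3
    have e3 : ∀ (i : ℕ) (g : H), Φ (MulAut.conjNormal (γ ^ i) g) = c ^ i * Φ g := by
      intro i
      induction i with
      | zero => intro g; rw [pow_zero, map_one, MulAut.one_apply, pow_zero, one_mul]
      | succ i ih =>
        intro g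
        rw [pow_succ', map_mul, MulAut.mul_apply, e2, ih, pow_succ']
        ring
    have e4 : ∀ (i : ℕ) (g : H), c * φ (MulAut.conjNormal (γ ^ i) g) =
        c ^ (i + 1) * φ g + i * c ^ i * Φ g := by
      intro i
      induction i with
      | zero =>
        intro g
        rw [pow_zero, map_one, MulAut.one_apply, zero_add, pow_one, Nat.cast_zero]
        ring
      | succ i ih =>
        intro g
        rw [pow_succ', map_mul, MulAut.mul_apply, e1, e3, mul_add, ih]
        push_cast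
        ring
    have e5 : ∀ g : H, φ (MulAut.conjNormal (γ ^ M) g) = φ g := by
      intro g
      have h2 : MulAut.conjNormal (γ ^ M) g = ⟨γ ^ M, hM⟩ * g * ⟨γ ^ M, hM⟩⁻¹ := by
        apply Subtype.ext
        rw [MulAut.conjNormal_apply]
        rfl
      have h3 : f (MulAut.conjNormal (γ ^ M) g) = f g := by
        rw [h2, map_mul, map_mul, map_inv, mul_comm (f ⟨γ ^ M, hM⟩), mul_inv_cancel_right]
      exact congrArg Multiplicative.toAdd h3
    have e5' : ∀ g : H, Φ (MulAut.conjNormal (γ ^ M) g) = Φ g := by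
      intro g
      have h2 : MulAut.conjNormal (γ ^ M) g = ⟨γ ^ M, hM⟩ * g * ⟨γ ^ M, hM⟩⁻¹ := by
        apply Subtype.ext
        rw [MulAut.conjNormal_apply]
        rfl
      have h3 : F (MulAut.conjNormal (γ ^ M) g) = F g := by
        rw [h2, map_mul, map_mul, map_inv, mul_comm (F ⟨γ ^ M, hM⟩), mul_inv_cancel_right]
      exact congrArg Multiplicative.toAdd h3
    intro g
    have hzero : Φ g = 0 := by
      by_contra hne
      have h1 : (c : ZMod p) ^ M = 1 := by
        have h2 := e3 M g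
        rw [e5'] at h2
        have h3 : ((c : ZMod p) ^ M - 1) * Φ g = 0 := by rw [sub_mul, one_mul, ← h2, sub_self]
        rcases mul_eq_zero.1 h3 with h | h
        · exact sub_eq_zero.1 h
        · exact absurd h hne
      have h4 := e4 M g
      rw [e5, pow_succ, h1, one_mul, mul_one] at h4
      have h5 : (M : ZMod p) * Φ g = 0 := by
        linear_combination -h4
      rcases mul_eq_zero.1 h5 with h | h
      · exact hpM ((ZMod.natCast_eq_zero_iff M p).1 h)
      · exact hne h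
    have h6 := e1 g
    rw [hzero, add_zero] at h6
    apply Multiplicative.toAdd.injective
    rw [toAdd_pow, nsmul_eq_mul]
    exact h6

/-- local condition, first type: no ramification is possible -/
theorem loc_of_mem {p l b c q : ℕ} [Fact p.Prime] (hl : l.Prime) (hpl : p ≠ l) (hq0 : q ≠ 0)
    (hq : ¬ p ∣ q - 1) (H : Subgroup (GF k)) [H.Normal] (hHo : IsOpen (H : Set (GF k))) (γ : GF k)
    (P : Ideal (OO k)) (hP : P.IsMaximal) (hlP : (l : OO k) ∈ P) (σ : GF k) (hσH : σ ∈ H)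
    (hσ : FrobAt q P σ) (τ : H) (hτ : InInertia P (τ : GF k)) : Loc H p b c γ τ := by
  have hp : p.Prime := Fact.out
  have key : ∀ (E : Type) [CommGroup E] [Finite E], IsPGroup p E → ∀ f : H →* E,
      IsOpen (f.ker : Set H) → f τ = 1 := by
    intro E _ _ hE f hf
    have h1 := tame k hp hl hpl hq0 H hHo E hE f hf P hP hlP τ σ hτ hσ
    have h2 : (⟨σ * τ * σ⁻¹, (inferInstance : H.Normal).conj_mem τ τ.2 σ⟩ : H) =
        ⟨σ, hσH⟩ * τ * ⟨σ, hσH⟩⁻¹ := rfl
    rw [h2, map_mul, map_mul, map_inv, mul_comm (f ⟨σ, hσH⟩), mul_inv_cancel_right] at h1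
    have h3 : f τ ^ (q - 1) = 1 := by
      have h4 : f τ ^ (q - 1) * f τ = 1 * f τ := by
        rw [← pow_succ, Nat.sub_add_cancel (Nat.one_le_iff_ne_zero.2 hq0), ← h1, one_mul]
      exact mul_right_cancel h4
    obtain ⟨n, hn⟩ := hE (f τ)
    have h5 := Nat.dvd_gcd (orderOf_dvd_of_pow_eq_one h3) (orderOf_dvd_of_pow_eq_one hn)
    have h6 : Nat.Coprime (q - 1) (p ^ n) :=
      (Nat.Coprime.pow_left n ((Nat.Prime.coprime_iff_not_dvd hp).2 hq)).symm
    rw [h6.gcd_eq_one] at h5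
    exact orderOf_eq_one_iff.1 (Nat.dvd_one.1 h5)
  refine ⟨fun E _ _ hE f hf => by rw [key E hE f hf, one_pow], fun f hf => ?_⟩
  rw [key _ (pgroup_zmod p) f hf, one_pow]
  -- the conjugate
  obtain ⟨g, hg⟩ : ∃ g : H →* Multiplicative (ZMod p), g = f.comp (MulAut.conjNormal γ).toMonoidHom :=
    ⟨_, rfl⟩
  have h1 : g τ = 1 := by
    refine key _ (pgroup_zmod p) g ?_
    have h2 : (g.ker : Set H) = (fun x : H => MulAut.conjNormal γ x) ⁻¹' (f.ker : Set H) := by
      rw [hg]
      rfl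
    rw [h2]
    exact hf.preimage (continuous_conjNormal γ)
  rw [hg] at h1
  exact h1

/-- local condition, second type -/
theorem loc_of_frob {p l b c q M : ℕ} [Fact p.Prime] (hl : l.Prime) (hpl : p ≠ l) (hq0 : q ≠ 0)
    (H : Subgroup (GF k)) [H.Normal] (hHo : IsOpen (H : Set (GF k))) (γ : GF k)
    (hM : γ ^ M ∈ H) (hqb : ¬ p ^ (b + 1) ∣ q ^ M - 1) (hqc : (q : ZMod p) = c)
    (P : Ideal (OO k)) (hP : P.IsMaximal) (hlP : (l : OO k) ∈ P) (σ : GF k) (hσH : γ * σ⁻¹ ∈ H)
    (hσ : FrobAt q P σ) (τ : H) (hτ : InInertia P (τ : GF k)) : Loc H p b c γ τ := by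
  have hp : p.Prime := Fact.out
  have hN : H.Normal := inferInstance
  have hσM : σ ^ M ∈ H := by
    have h1 : (QuotientGroup.mk σ : GF k ⧸ H) = QuotientGroup.mk γ := by
      rw [QuotientGroup.eq]
      have h2 := hN.conj_mem _ hσH σ⁻¹
      have h3 : σ⁻¹ * (γ * σ⁻¹) * σ⁻¹⁻¹ = σ⁻¹ * γ := by group
      rwa [h3] at h2
    rw [← QuotientGroup.eq_one_iff]
    have h4 : ((σ ^ M : GF k) : GF k ⧸ H) = (σ : GF k ⧸ H) ^ M := rfl
    rw [h4, h1]
    have h5 : (γ : GF k ⧸ H) ^ M = ((γ ^ M : GF k) : GF k ⧸ H) := rfl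
    rw [h5, QuotientGroup.eq_one_iff]
    exact hM
  constructor
  · intro E _ _ hE f hf
    have hqM : q ^ M ≠ 0 := pow_ne_zero _ hq0
    have h1 := tame k hp hl hpl hqM H hHo E hE f hf P hP hlP τ (σ ^ M) hτ (frobAt_pow' hσ hq0 M)
    have h2 : (⟨σ ^ M * τ * (σ ^ M)⁻¹, hN.conj_mem τ τ.2 (σ ^ M)⟩ : H) =
        ⟨σ ^ M, hσM⟩ * τ * ⟨σ ^ M, hσM⟩⁻¹ := rfl
    rw [h2, map_mul, map_mul, map_inv, mul_comm (f ⟨σ ^ M, hσM⟩), mul_inv_cancel_right] at h1
    have h3 : f τ ^ (q ^ M - 1) = 1 := by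
      have h4 : f τ ^ (q ^ M - 1) * f τ = 1 * f τ := by
        rw [← pow_succ, Nat.sub_add_cancel (Nat.one_le_iff_ne_zero.2 hqM), ← h1, one_mul]
      exact mul_right_cancel h4
    obtain ⟨n, hn⟩ := hE (f τ)
    obtain ⟨m, -, hm⟩ := (Nat.dvd_prime_pow hp).1 (orderOf_dvd_of_pow_eq_one hn)
    have h6 : p ^ m ∣ q ^ M - 1 := by
      rw [← hm]
      exact orderOf_dvd_of_pow_eq_one h3
    have h7 : m ≤ b := by
      by_contra hbe
      exact hqb ((pow_dvd_pow p (by omega)).trans h6)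
    rw [← orderOf_dvd_iff_pow_eq_one, hm]
    exact pow_dvd_pow p h7
  · intro f hf
    have h1 := tame k hp hl hpl hq0 H hHo _ (pgroup_zmod p) f hf P hP hlP τ σ hτ hσ
    have h2 : MulAut.conjNormal γ τ = ⟨γ * σ⁻¹, hσH⟩ *
        ⟨σ * τ * σ⁻¹, hN.conj_mem τ τ.2 σ⟩ * ⟨γ * σ⁻¹, hσH⟩⁻¹ := by
      apply Subtype.ext
      rw [MulAut.conjNormal_apply]
      show γ * τ * γ⁻¹ = γ * σ⁻¹ * (σ * τ * σ⁻¹) * (γ * σ⁻¹)⁻¹
      group
    rw [h2, map_mul, map_mul, map_inv, mul_comm (f ⟨γ * σ⁻¹, hσH⟩), mul_inv_cancel_right, h1]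
    apply Multiplicative.toAdd.injective
    rw [toAdd_pow, toAdd_pow, nsmul_eq_mul, nsmul_eq_mul, hqc]

/-- an invariant character of a subgroup of index two extends -/
theorem extend_two {p : ℕ} [Fact p.Prime] (hp2 : p ≠ 2) {G : Type} [Group G]
    (H : Subgroup G) [hN : H.Normal] (hi : H.index = 2) (z : H → ZMod p)
    (hz : ∀ x y, z (x * y) = z x + z y)
    (hinv : ∀ (g : G) (h : H), z (MulAut.conjNormal g h) = z h) (g h : G) :
    z ⟨(g * h) ^ 2, Subgroup.sq_mem_of_index_two hi _⟩ =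
      z ⟨g ^ 2, Subgroup.sq_mem_of_index_two hi _⟩ + z ⟨h ^ 2, Subgroup.sq_mem_of_index_two hi _⟩ := by
  have hz1 : z 1 = 0 := by
    have h1 := hz 1 1
    rw [mul_one] at h1
    exact left_eq_add.1 h1
  have hzi : ∀ x, z x⁻¹ = - z x := by
    intro x
    have h1 := hz x x⁻¹
    rw [mul_inv_cancel, hz1] at h1
    exact (neg_eq_of_add_eq_zero_right h1.symm).symm
  have hc : ∀ (g : G) (h : H), z ⟨g * h * g⁻¹, hN.conj_mem h h.2 g⟩ = z h := by
    intro g h
    rw [← hinv g h]
    congr 1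
  by_cases hh : h ∈ H
  · have e : (⟨(g * h) ^ 2, Subgroup.sq_mem_of_index_two hi _⟩ : H) =
        ⟨g ^ 2, Subgroup.sq_mem_of_index_two hi _⟩ *
          ⟨g⁻¹ * h * g⁻¹⁻¹, hN.conj_mem h hh g⁻¹⟩ * ⟨h, hh⟩ := by
      apply Subtype.ext
      show (g * h) ^ 2 = g ^ 2 * (g⁻¹ * h * g⁻¹⁻¹) * h
      simp only [pow_two]
      group
    have e2 : (⟨h ^ 2, Subgroup.sq_mem_of_index_two hi _⟩ : H) = ⟨h, hh⟩ * ⟨h, hh⟩ := by
      apply Subtype.ext
      show h ^ 2 = h * h
      rw [pow_two]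
    rw [e, e2, hz, hz, hz, hc g⁻¹ ⟨h, hh⟩]
    ring
  · by_cases hg : g ∈ H
    · have e : (⟨(g * h) ^ 2, Subgroup.sq_mem_of_index_two hi _⟩ : H) =
          ⟨g, hg⟩ * ⟨h * g * h⁻¹, hN.conj_mem g hg h⟩ *
            ⟨h ^ 2, Subgroup.sq_mem_of_index_two hi _⟩ := by
        apply Subtype.ext
        show (g * h) ^ 2 = g * (h * g * h⁻¹) * h ^ 2
        simp only [pow_two]
        group
      have e2 : (⟨g ^ 2, Subgroup.sq_mem_of_index_two hi _⟩ : H) = ⟨g, hg⟩ * ⟨g, hg⟩ := by
        apply Subtype.ext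
        show g ^ 2 = g * g
        rw [pow_two]
      rw [e, e2, hz, hz, hz, hc h ⟨g, hg⟩]
    · have hgh : g * h ∈ H := by
        rw [Subgroup.mul_mem_iff_of_index_two hi]
        tauto
      have e : (⟨(g * h) ^ 2, Subgroup.sq_mem_of_index_two hi _⟩ : H) =
          ⟨g * h, hgh⟩ * ⟨g * h, hgh⟩ := by
        apply Subtype.ext
        show (g * h) ^ 2 = g * h * (g * h)
        rw [pow_two]
      have e2 : (⟨h ^ 2, Subgroup.sq_mem_of_index_two hi _⟩ : H) =
          ⟨g⁻¹ * (g * h) * g⁻¹⁻¹, hN.conj_mem _ hgh g⁻¹⟩ *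
            (⟨g ^ 2, Subgroup.sq_mem_of_index_two hi _⟩ : H)⁻¹ * ⟨g * h, hgh⟩ := by
        apply Subtype.ext
        show h ^ 2 = g⁻¹ * (g * h) * g⁻¹⁻¹ * (g ^ 2)⁻¹ * (g * h)
        simp only [pow_two]
        group
      rw [e, e2, hz, hz, hz, hzi, hc g⁻¹ ⟨g * h, hgh⟩]
      ring

/-- if the base field has no unramified extension of degree `p`, then the nontrivial automorphism of
a quadratic extension acts by `-1` on the unramified characters -/
theorem unrAct_of_quadratic {p : ℕ} [Fact p.Prime] (hp2 : p ≠ 2)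
    (hk : ∀ f : GF k →* Multiplicative (ZMod p), IsOpen (f.ker : Set (GF k)) →
      (∀ P : Ideal (OO k), P.IsMaximal → ∀ τ : GF k, InInertia P τ → f τ = 1) → ∀ g, f g = 1)
    (H : Subgroup (GF k)) [hN : H.Normal] (hHo : IsOpen (H : Set (GF k))) (hi : H.index = 2)
    (γ : GF k) (hγ : γ ∉ H) : UnrAct H p (p - 1) γ := by
  have hp : p.Prime := Fact.out
  intro f hf hu g
  have h2ne : (2 : ZMod p) ≠ 0 := by
    intro h
    have h1 : ((2 : ℕ) : ZMod p) = 0 := by exact_mod_cast h
    rw [ZMod.natCast_eq_zero_iff] at h1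
    exact hp2 ((Nat.prime_dvd_prime_iff_eq hp Nat.prime_two).1 h1)
  set z : H → ZMod p := fun x => Multiplicative.toAdd (f x) +
    Multiplicative.toAdd (f (MulAut.conjNormal γ x)) with hzdef
  have hz : ∀ x y, z (x * y) = z x + z y := by
    intro x y
    simp only [hzdef, map_mul, toAdd_mul]
    ring
  have hinner : ∀ (x : H) (y : H), f (MulAut.conjNormal (x : GF k) y) = f y := by
    intro x y
    have h1 : MulAut.conjNormal (x : GF k) y = x * y * x⁻¹ := by
      apply Subtype.ext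
      rw [MulAut.conjNormal_apply]
      rfl
    rw [h1, map_mul, map_mul, map_inv, mul_comm (f x), mul_inv_cancel_right]
  have hγ2 : γ ^ 2 ∈ H := Subgroup.sq_mem_of_index_two hi _
  have hinv : ∀ (x : GF k) (y : H), z (MulAut.conjNormal x y) = z y := by
    intro x y
    by_cases hx : x ∈ H
    · have h1 : f (MulAut.conjNormal x y) = f y := hinner ⟨x, hx⟩ y
      have h2 : f (MulAut.conjNormal γ (MulAut.conjNormal x y)) = f (MulAut.conjNormal γ y) := by
        rw [← MulAut.mul_apply, ← map_mul]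
        have h3 : γ * x = (γ * x * γ⁻¹) * γ := by group
        rw [h3, map_mul, MulAut.mul_apply]
        exact hinner ⟨γ * x * γ⁻¹, hN.conj_mem x hx γ⟩ _
      simp only [hzdef, h1, h2]
    · have hxy : x * γ⁻¹ ∈ H := by
        rw [Subgroup.mul_mem_iff_of_index_two hi, inv_mem_iff]
        tauto
      have hyx : γ * x ∈ H := by
        rw [Subgroup.mul_mem_iff_of_index_two hi]
        tauto
      have h1 : f (MulAut.conjNormal x y) = f (MulAut.conjNormal γ y) := by
        have h3 : x = (x * γ⁻¹) * γ := by group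
        rw [h3, map_mul, MulAut.mul_apply]
        exact hinner ⟨x * γ⁻¹, hxy⟩ _
      have h2 : f (MulAut.conjNormal γ (MulAut.conjNormal x y)) = f y := by
        rw [← MulAut.mul_apply, ← map_mul]
        exact hinner ⟨γ * x, hyx⟩ _
      simp only [hzdef, h1, h2]
      ring
  let half : ZMod p := 2⁻¹
  have hhalf : half * 2 = 1 := inv_mul_cancel₀ h2ne
  let Z : GF k →* Multiplicative (ZMod p) :=
    { toFun := fun x => Multiplicative.ofAdd
        (half * z ⟨x ^ 2, Subgroup.sq_mem_of_index_two hi _⟩)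
      map_one' := by
        have h1 : (⟨(1 : GF k) ^ 2, Subgroup.sq_mem_of_index_two hi _⟩ : H) = 1 := by
          apply Subtype.ext
          show (1 : GF k) ^ 2 = 1
          rw [one_pow]
        have h2 : z 1 = 0 := by
          have h3 := hz 1 1
          rw [mul_one] at h3
          exact left_eq_add.1 h3
        rw [h1, h2, mul_zero]
        rfl
      map_mul' := fun x y => by
        rw [extend_two hp2 H hi z hz hinv x y, mul_add]
        rfl }
  have hZ : ∀ x, Z x = Multiplicative.ofAdd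
      (half * z ⟨x ^ 2, Subgroup.sq_mem_of_index_two hi _⟩) := fun x => rfl
  have hZH : ∀ x : H, Multiplicative.toAdd (Z x) = z x := by
    intro x
    have h1 : (⟨(x : GF k) ^ 2, Subgroup.sq_mem_of_index_two hi _⟩ : H) = x * x := by
      apply Subtype.ext
      show (x : GF k) ^ 2 = x * x
      rw [pow_two]
    rw [hZ, h1, hz, toAdd_ofAdd]
    linear_combination (z x) * hhalf
  have hZo : IsOpen (Z.ker : Set (GF k)) := by
    apply Subgroup.isOpen_of_mem_nhds _ (g := (1 : GF k))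
    have hW : IsOpen ((f.ker : Set H) ∩ (fun x : H => MulAut.conjNormal γ x) ⁻¹' (f.ker : Set H)) :=
      hf.inter (hf.preimage (continuous_conjNormal γ))
    have hW' := hHo.isOpenMap_subtype_val _ hW
    have h1 := hW'.mem_nhds (x := (1 : GF k)) ⟨1, ⟨f.ker.one_mem, by
      show MulAut.conjNormal γ (1 : H) ∈ (f.ker : Set H)
      rw [map_one]
      exact f.ker.one_mem⟩, rfl⟩
    filter_upwards [h1] with x hx
    obtain ⟨y, ⟨hy1, hy2⟩, rfl⟩ := hx
    have h2 : Multiplicative.toAdd (Z y) = 0 := by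
      rw [hZH]
      have h3 : f y = 1 := hy1
      have h4 : f (MulAut.conjNormal γ y) = 1 := hy2
      simp only [hzdef, h3, h4, toAdd_one, add_zero]
    exact Multiplicative.toAdd.injective h2
  have hZu : ∀ P : Ideal (OO k), P.IsMaximal → ∀ τ : GF k, InInertia P τ → Z τ = 1 := by
    intro P hP τ hτ
    have h1 : InInertia P (τ ^ 2) := by
      intro x
      rw [pow_two, mul_smul]
      have h2 := P.add_mem (hτ (τ • x)) (hτ x)
      have h3 : τ • τ • x - τ • x + (τ • x - x) = τ • τ • x - x := by ring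
      rwa [h3] at h2
    set y : H := ⟨τ ^ 2, Subgroup.sq_mem_of_index_two hi _⟩ with hy
    have h2 : f y = 1 := hu P hP y h1
    obtain ⟨Q, hQ, -, hin⟩ := conj_ideal' γ P hP
    have h3 : f (MulAut.conjNormal γ y) = 1 := by
      refine hu Q hQ _ ?_
      rw [MulAut.conjNormal_apply]
      exact hin _ h1
    rw [hZ, ← hy]
    simp only [hzdef, h2, h3, toAdd_one, add_zero, mul_zero]
    rfl
  have h1 := hk Z hZo hZu (g : GF k)
  have h2 : z g = 0 := by
    rw [← hZH, h1, toAdd_one]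
  apply Multiplicative.toAdd.injective
  rw [toAdd_pow, nsmul_eq_mul, Nat.cast_sub hp.one_le, Nat.cast_one]
  have h3 : ((p : ℕ) : ZMod p) = 0 := ZMod.natCast_self p
  rw [h3]
  have h4 : Multiplicative.toAdd (f g) + Multiplicative.toAdd (f (MulAut.conjNormal γ g)) = 0 := h2
  linear_combination h4

end

end Pool.Agent.Q15.FMScal
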