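import Mathlib

/-!
# Characters of semisimple representations of arbitrary groups

Separation of non-isomorphic simple modules and linear independence of the irreducible characters
of an arbitrary group over a field of characteristic zero.
-/

set_option autoImplicit false
set_option linter.unusedSectionVars false

namespace Pool.Agent.Q15.GR

open Representation Module
open scoped MonoidAlgebra

/-- Separation of two simple modules which are not isomorphic. -/
theorem sep_abs {R A B : Type*} [Ring R] [AddCommGroup A] [Module R A] [AddCommGroup B]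
    [Module R B] [IsSimpleModule R A] [IsSimpleModule R B] (h12 : ∀ φ : A →ₗ[R] B, φ = 0)
    (s : Finset A) (s' : Finset B) :
    ∃ r : R, (∀ x ∈ s, r • x = x) ∧ ∀ y ∈ s', r • y = 0 := by
  classical
  have h21 : ∀ φ : B →ₗ[R] A, φ = 0 := by
    intro φ
    by_contra hne
    have hbij := LinearMap.bijective_of_ne_zero (f := φ) hne
    have h1 := h12 (LinearEquiv.ofBijective φ hbij).symm.toLinearMap
    have := IsSimpleModule.nontrivial R A
    obtain ⟨x, hx⟩ := exists_ne (0 : A)
    have h2 := LinearMap.congr_fun h1 x
    have h3 : (LinearEquiv.ofBijective φ hbij).symm x = 0 := h2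
    rw [LinearEquiv.map_eq_zero_iff] at h3
    exact hx h3
  let f : Module.End (Module.End R (A × B)) (A × B) :=
    { toFun := fun x => (x.1, 0)
      map_add' := fun x y => by
        change ((x.1 + y.1, (0 : B))) = (x.1 + y.1, 0 + 0)
        rw [add_zero]
      map_smul' := fun φ x => by
        change ((φ x).1, (0 : B)) = φ (x.1, 0)
        have h1 : x = LinearMap.inl R A B x.1 + LinearMap.inr R A B x.2 := by
          ext
          · change x.1 = x.1 + 0
            rw [add_zero]
          · change x.2 = 0 + x.2
            rw [zero_add]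
        have h2 : (φ (LinearMap.inr R A B x.2)).1 = 0 :=
          LinearMap.congr_fun (h21 ((LinearMap.fst R A B) ∘ₗ φ ∘ₗ (LinearMap.inr R A B))) x.2
        have h3 : (φ (LinearMap.inl R A B x.1)).2 = 0 :=
          LinearMap.congr_fun (h12 ((LinearMap.snd R A B) ∘ₗ φ ∘ₗ (LinearMap.inl R A B))) x.1
        have h4 : φ (x.1, 0) = φ (LinearMap.inl R A B x.1) := rfl
        have h5 : (φ x).1 = (φ (LinearMap.inl R A B x.1)).1 := by
          conv_lhs => rw [h1, map_add]
          change (φ (LinearMap.inl R A B x.1)).1 + (φ (LinearMap.inr R A B x.2)).1 = _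
          rw [h2, add_zero]
        rw [h4, h5]
        exact Prod.ext rfl h3.symm }
  have iss : IsSemisimpleModule R (A × B) :=
    isSemisimpleModule_of_isSemisimpleModule_submodule'
      (p := fun b : Bool => if b then LinearMap.range (LinearMap.inl R A B)
        else LinearMap.range (LinearMap.inr R A B))
      (by
        rintro (_ | _)
        · exact IsSemisimpleModule.range (LinearMap.inr R A B)
        · exact IsSemisimpleModule.range (LinearMap.inl R A B))
      (by
        rw [iSup_bool_eq]
        exact LinearMap.sup_range_inl_inr)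
  obtain ⟨r, hr⟩ := jacobson_density f ((s.image fun x => (x, (0 : B))) ∪
    (s'.image fun y => ((0 : A), y)))
  refine ⟨r, fun x hx => ?_, fun y hy => ?_⟩
  · have h2 := hr (x, 0) (Finset.mem_union_left _ (Finset.mem_image_of_mem _ hx))
    exact (congrArg Prod.fst h2).symm
  · have h2 := hr (0, y) (Finset.mem_union_right _ (Finset.mem_image_of_mem _ hy))
    exact (congrArg Prod.snd h2).symm

variable {k : Type} [Field k] {G : Type} [Group G]
variable {V W : Type} [AddCommGroup V] [Module k V] [FiniteDimensional k V] [AddCommGroup W]
  [Module k W] [FiniteDimensional k W]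

/-- Separation for representations. -/
theorem sep_rep (ρ : Representation k G V) (σ : Representation k G W) (hρ : ρ.IsIrreducible)
    (hσ : σ.IsIrreducible) (h : IsEmpty (Representation.Equiv ρ σ)) :
    ∃ r : k[G], ρ.asAlgebraHom r = 1 ∧ σ.asAlgebraHom r = 0 := by
  classical
  have i1 : IsSimpleModule k[G] ρ.asModule := (irreducible_iff_isSimpleModule_asModule ρ).1 hρ
  have i2 : IsSimpleModule k[G] σ.asModule := (irreducible_iff_isSimpleModule_asModule σ).1 hσ
  have h12 : ∀ φ : ρ.asModule →ₗ[k[G]] σ.asModule, φ = 0 := by
    intro φ
    have h1 : Subsingleton (IntertwiningMap ρ σ) := inferInstance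
    have h2 := h1.elim ((IntertwiningMap.equivLinearMapAsModule ρ σ).symm φ) 0
    rwa [LinearEquiv.map_eq_zero_iff] at h2
  let b := Module.finBasis k V
  let b' := Module.finBasis k W
  obtain ⟨r, hr, hr'⟩ := sep_abs h12 (Finset.univ.image fun i => (b i : ρ.asModule))
    (Finset.univ.image fun i => (b' i : σ.asModule))
  refine ⟨r, b.ext fun i => ?_, b'.ext fun i => ?_⟩
  · exact hr _ (Finset.mem_image_of_mem _ (Finset.mem_univ i))
  · exact hr' _ (Finset.mem_image_of_mem _ (Finset.mem_univ i))

end Pool.Agent.Q15.GR
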