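import Pool.Agent.Q15.GR1

/-!
# Decomposition of semisimple representations; the character determines the representation
-/

set_option autoImplicit false
set_option linter.unusedSectionVars false

namespace Pool.Agent.Q15.GR

open Representation Module
open scoped MonoidAlgebra

variable {k : Type} [Field k] {G : Type} [Group G]
variable {V W : Type} [AddCommGroup V] [Module k V] [AddCommGroup W] [Module k W]

/-- an equivalence of representations as an isomorphism of modules -/
theorem modEquiv {ρ : Representation k G V} {σ : Representation k G W}
    (φ : Representation.Equiv ρ σ) : Nonempty (ρ.asModule ≃ₗ[k[G]] σ.asModule) :=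
  ⟨LinearEquiv.ofBijective (IntertwiningMap.equivLinearMapAsModule ρ σ φ.toIntertwiningMap)
    φ.toLinearEquiv.bijective⟩

theorem irr_congr {ρ : Representation k G V} {σ : Representation k G W}
    (φ : Representation.Equiv ρ σ) (h : ρ.IsIrreducible) : σ.IsIrreducible := by
  obtain ⟨e⟩ := modEquiv φ
  rw [irreducible_iff_isSimpleModule_asModule] at h ⊢
  exact IsSimpleModule.congr e.symm

theorem semi_congr {ρ : Representation k G V} {σ : Representation k G W}
    (φ : Representation.Equiv ρ σ) (h : ρ.IsSemisimpleRepresentation) :
    σ.IsSemisimpleRepresentation := by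
  obtain ⟨e⟩ := modEquiv φ
  rw [isSemisimpleRepresentation_iff_isSemisimpleModule_asModule] at h ⊢
  exact IsSemisimpleModule.congr e.symm

/-- transport of a representation along a linear isomorphism -/
def tp (ρ : Representation k G V) (e : V ≃ₗ[k] W) : Representation k G W where
  toFun g := e.toLinearMap ∘ₗ ρ g ∘ₗ e.symm.toLinearMap
  map_one' := by
    ext x
    simp
  map_mul' g h := by
    ext x
    simp

/-- the transported representation is equivalent to the original one -/
def tpEquiv (ρ : Representation k G V) (e : V ≃ₗ[k] W) : Representation.Equiv ρ (tp ρ e) :=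
  Representation.Equiv.mk e (fun g => by
    ext x
    simp [tp])

theorem irr_semi {ρ : Representation k G V} (h : ρ.IsIrreducible) :
    ρ.IsSemisimpleRepresentation := by
  rw [irreducible_iff_isSimpleModule_asModule] at h
  rw [isSemisimpleRepresentation_iff_isSemisimpleModule_asModule]
  infer_instance

/-- the inclusion of a subrepresentation -/
def incl (ρ : Representation k G V) (U : Subrepresentation ρ) :
    IntertwiningMap U.toRepresentation ρ where
  toLinearMap := U.toSubmodule.subtype
  isIntertwining' g := rfl

/-- the inclusion on modules -/
noncomputable def inclM (ρ : Representation k G V) (U : Subrepresentation ρ) :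
    U.toRepresentation.asModule →ₗ[k[G]] ρ.asModule :=
  IntertwiningMap.equivLinearMapAsModule _ _ (incl ρ U)

theorem inclM_apply (ρ : Representation k G V) (U : Subrepresentation ρ) (x : U.toSubmodule) :
    inclM ρ U x = (x : V) := rfl

theorem inclM_inj (ρ : Representation k G V) (U : Subrepresentation ρ) :
    Function.Injective (inclM ρ U) := fun _ _ h => Subtype.ext h

theorem range_inclM (ρ : Representation k G V) (U : Subrepresentation ρ) :
    LinearMap.range (inclM ρ U) = Subrepresentation.asSubmodule U := by
  apply SetLike.ext
  intro x
  constructor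
  · rintro ⟨y, rfl⟩
    exact y.2
  · intro hx
    exact ⟨(⟨x, hx⟩ : U.toSubmodule), rfl⟩

/-- a subrepresentation of a semisimple representation is semisimple -/
theorem semi_sub {ρ : Representation k G V} (h : ρ.IsSemisimpleRepresentation)
    (U : Subrepresentation ρ) : U.toRepresentation.IsSemisimpleRepresentation := by
  rw [isSemisimpleRepresentation_iff_isSemisimpleModule_asModule] at h ⊢
  exact IsSemisimpleModule.of_injective (inclM ρ U) (inclM_inj ρ U)

/-- an atom is irreducible -/
theorem irr_of_atom {ρ : Representation k G V} {U : Subrepresentation ρ} (h : IsAtom U) :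
    U.toRepresentation.IsIrreducible := by
  rw [irreducible_iff_isSimpleModule_asModule]
  have h1 : IsAtom (Subrepresentation.asSubmodule U) :=
    (OrderIso.isAtom_iff Subrepresentation.subrepresentationSubmoduleOrderIso U).2 h
  have h2 : IsSimpleModule k[G] (LinearMap.range (inclM ρ U)) := by
    rw [range_inclM, isSimpleModule_iff_isAtom]
    exact h1
  exact IsSimpleModule.congr (LinearEquiv.ofInjective (inclM ρ U) (inclM_inj ρ U))

/-- there is an irreducible subrepresentation -/
theorem exists_atom (ρ : Representation k G V) [FiniteDimensional k V] [Nontrivial V] :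
    ∃ U : Subrepresentation ρ, IsAtom U := by
  have hwf : WellFoundedLT (Subrepresentation ρ) := by
    have h1 : StrictMono (fun U : Subrepresentation ρ => U.toSubmodule) := by
      intro U U' h
      exact h
    exact h1.wellFoundedLT
  have h2 : (⊤ : Subrepresentation ρ) ≠ ⊥ := by
    intro h
    have h3 : (⊤ : Submodule k V) = ⊥ := congrArg Subrepresentation.toSubmodule h
    exact top_ne_bot h3
  rcases (isAtomic_of_orderBot_wellFounded_lt hwf.wf).eq_bot_or_exists_atom_le
    (⊤ : Subrepresentation ρ) with h3 | ⟨U, hU, -⟩
  · exact absurd h3 h2
  · exact ⟨U, hU⟩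

/-- a complement gives a decomposition -/
theorem prod_of_compl {ρ : Representation k G V} {U U' : Subrepresentation ρ} (h : IsCompl U U') :
    Nonempty (Representation.Equiv (U.toRepresentation.prod U'.toRepresentation) ρ) := by
  have hc : IsCompl U.toSubmodule U'.toSubmodule := by
    constructor
    · rw [disjoint_iff]
      exact congrArg Subrepresentation.toSubmodule (disjoint_iff.1 h.disjoint)
    · rw [codisjoint_iff]
      exact congrArg Subrepresentation.toSubmodule (codisjoint_iff.1 h.codisjoint)
  refine ⟨Representation.Equiv.mk (Submodule.prodEquivOfIsCompl _ _ hc) (fun g => ?_)⟩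
  refine LinearMap.ext fun x => ?_
  change ((ρ g x.1 : V) + (ρ g x.2 : V)) = ρ g ((x.1 : V) + (x.2 : V))
  rw [map_add]

theorem char_prod [FiniteDimensional k V] [FiniteDimensional k W] (ρ : Representation k G V)
    (σ : Representation k G W) : (ρ.prod σ).character = ρ.character + σ.character := by
  ext g
  exact LinearMap.trace_prodMap' (ρ g) (σ g)

theorem char_compl [FiniteDimensional k V] {ρ : Representation k G V} {U U' : Subrepresentation ρ}
    (h : IsCompl U U') :
    ρ.character = U.toRepresentation.character + U'.toRepresentation.character := by
  obtain ⟨φ⟩ := prod_of_compl h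
  rw [← char_iso φ, char_prod]

/-- the sum of two semisimple representations is semisimple -/
theorem semi_prod {ρ : Representation k G V} {σ : Representation k G W}
    (h : ρ.IsSemisimpleRepresentation) (h' : σ.IsSemisimpleRepresentation) :
    (ρ.prod σ).IsSemisimpleRepresentation := by
  rw [isSemisimpleRepresentation_iff_isSemisimpleModule_asModule] at h h' ⊢
  let f := IntertwiningMap.equivLinearMapAsModule _ _ (IntertwiningMap.inl k ρ σ)
  let f' := IntertwiningMap.equivLinearMapAsModule _ _ (IntertwiningMap.inr k ρ σ)
  refine isSemisimpleModule_of_isSemisimpleModule_submodule'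
      (p := fun b : Bool => if b then LinearMap.range f else LinearMap.range f') ?_ ?_
  · rintro (_ | _)
    · exact IsSemisimpleModule.range f'
    · exact IsSemisimpleModule.range f
  · rw [iSup_bool_eq, eq_top_iff]
    intro x _
    have h1 : x = f x.1 + f' x.2 := by
      change (x : V × W) = ((x.1 : V), (0 : W)) + ((0 : V), (x.2 : W))
      rw [Prod.mk_add_mk, add_zero, zero_add]
      rfl
    rw [h1]
    exact Submodule.add_mem_sup ⟨_, rfl⟩ ⟨_, rfl⟩

end Pool.Agent.Q15.GR
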