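import Pool.Agent.Q15.GR2

/-!
# Irreducible characters are linearly independent; semisimple representations with the same
character are equivalent
-/

set_option autoImplicit false
set_option linter.unusedSectionVars false

namespace Pool.Agent.Q15.GR

open Representation Module
open scoped MonoidAlgebra

variable {k : Type} [Field k] {G : Type} [Group G]

/-- `f` is the character of an irreducible representation -/
def IsIr (f : G → k) : Prop :=
  ∃ (n : ℕ) (ρ : Representation k G (Fin n → k)), ρ.IsIrreducible ∧ ρ.character = f

variable (k G) in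
/-- the irreducible characters -/
abbrev X : Type := {f : G → k // IsIr f}

section

variable {V W : Type} [AddCommGroup V] [Module k V] [FiniteDimensional k V] [AddCommGroup W]
  [Module k W] [FiniteDimensional k W]

theorem char_tp (ρ : Representation k G V) (e : V ≃ₗ[k] W) : (tp ρ e).character = ρ.character :=
  (char_iso (tpEquiv ρ e)).symm

theorem isIr_char (ρ : Representation k G V) (h : ρ.IsIrreducible) : IsIr ρ.character :=
  ⟨finrank k V, tp ρ (Module.finBasis k V).equivFun, irr_congr (tpEquiv _ _) h, char_tp _ _⟩

/-- evaluation of a function at an element of the group algebra -/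
noncomputable def ev (r : k[G]) : (G → k) →ₗ[k] k where
  toFun f := r.coeff.sum fun g a => a * f g
  map_add' f f' := by
    rw [← Finsupp.sum_add]
    exact Finsupp.sum_congr fun g _ => by rw [Pi.add_apply, mul_add]
  map_smul' c f := by
    rw [RingHom.id_apply, smul_eq_mul, Finsupp.mul_sum]
    exact Finsupp.sum_congr fun g _ => by rw [Pi.smul_apply, smul_eq_mul]; ring

theorem ev_char (r : k[G]) (ρ : Representation k G V) :
    ev r ρ.character = LinearMap.trace k V (ρ.asAlgebraHom r) := by
  rw [Representation.asAlgebraHom_def, MonoidAlgebra.lift_apply, Finsupp.sum, map_sum]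
  change (∑ g ∈ r.coeff.support, r.coeff g * LinearMap.trace k V (ρ g)) = _
  exact Finset.sum_congr rfl fun g _ => by rw [map_smul, smul_eq_mul]

/-- irreducible representations with the same character are equivalent -/
theorem equiv_of_irr [CharZero k] (ρ : Representation k G V) (σ : Representation k G W)
    (hρ : ρ.IsIrreducible) (hσ : σ.IsIrreducible) (h : ρ.character = σ.character) :
    Nonempty (Representation.Equiv ρ σ) := by
  by_contra hne
  rw [not_nonempty_iff] at hne
  obtain ⟨r, hr, hr'⟩ := sep_rep ρ σ hρ hσ hne
  have h1 := ev_char r ρ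
  rw [h, ev_char, hr, hr', map_zero, LinearMap.trace_one] at h1
  have h2 : finrank k V = 0 := by exact_mod_cast h1.symm
  have h3 : Subsingleton V := finrank_zero_iff.1 h2
  have h4 : (⊥ : Subrepresentation ρ) = ⊤ := by
    apply Subrepresentation.toSubmodule_injective
    exact Subsingleton.elim _ _
  exact bot_ne_top h4

end

/-- a representation with a given irreducible character -/
noncomputable def dm (f : X k G) : ℕ := f.2.choose

/-- a representation with a given irreducible character -/
noncomputable def rp (f : X k G) : Representation k G (Fin (dm f) → k) := f.2.choose_spec.choose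

theorem rp_irr (f : X k G) : (rp f).IsIrreducible := f.2.choose_spec.choose_spec.1

theorem rp_char (f : X k G) : (rp f).character = f := f.2.choose_spec.choose_spec.2

theorem dm_pos (f : X k G) : 0 < dm f := by
  by_contra h
  have h0 : dm f = 0 := by omega
  have h3 : Subsingleton (Fin (dm f) → k) := by
    rw [h0]
    infer_instance
  have h4 : (⊥ : Subrepresentation (rp f)) = ⊤ := by
    apply Subrepresentation.toSubmodule_injective
    exact Subsingleton.elim _ _
  have := rp_irr f
  exact bot_ne_top h4

theorem X_one (f : X k G) : (f : G → k) 1 = dm f := by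
  rw [← rp_char, char_one, finrank_fin_fun]

section

variable [CharZero k]

/-- separation of one irreducible character from finitely many others -/
theorem sep_fin (f : X k G) (s : Finset (X k G)) (hf : f ∉ s) :
    ∃ r : k[G], (rp f).asAlgebraHom r = 1 ∧ ∀ f' ∈ s, (rp f').asAlgebraHom r = 0 := by
  classical
  induction s using Finset.induction_on with
  | empty => exact ⟨1, map_one _, fun f' h => absurd h (Finset.notMem_empty _)⟩
  | insert a s ha ih =>
    obtain ⟨r, hr, hr'⟩ := ih (fun h => hf (Finset.mem_insert_of_mem h))
    have h1 : IsEmpty (Representation.Equiv (rp f) (rp a)) := by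
      constructor
      intro φ
      apply hf
      have h2 := char_iso φ
      rw [rp_char, rp_char] at h2
      rw [Subtype.ext h2]
      exact Finset.mem_insert_self a s
    obtain ⟨q, hq, hq'⟩ := sep_rep _ _ (rp_irr f) (rp_irr a) h1
    refine ⟨r * q, by rw [map_mul, hr, hq, one_mul], fun f' hf' => ?_⟩
    rcases Finset.mem_insert.1 hf' with rfl | h3
    · rw [map_mul, hq', mul_zero]
    · rw [map_mul, hr' f' h3, zero_mul]

/-- the irreducible characters are linearly independent -/
theorem linIndep : LinearIndependent k (fun f : X k G => (f : G → k)) := by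
  classical
  rw [linearIndependent_iff']
  intro s g hs f hf
  obtain ⟨r, hr, hr'⟩ := sep_fin f (s.erase f) (Finset.notMem_erase f s)
  have h1 := congrArg (ev r) hs
  rw [map_zero, map_sum, ← Finset.add_sum_erase s _ hf] at h1
  have h2 : ∀ f' ∈ s.erase f, ev r (g f' • (f' : G → k)) = 0 := by
    intro f' hf'
    rw [map_smul, ← rp_char f', ev_char, hr' f' hf', map_zero, smul_zero]
  rw [Finset.sum_eq_zero h2, add_zero, map_smul, ← rp_char f, ev_char, hr, LinearMap.trace_one,
    finrank_fin_fun, smul_eq_mul, mul_eq_zero] at h1
  rcases h1 with h1 | h1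
  · exact h1
  · exact absurd (by exact_mod_cast h1) (dm_pos f).ne'

theorem linIndepZ : LinearIndependent ℤ (fun f : X k G => (f : G → k)) :=
  linIndep.restrict_scalars (by
    intro a b h
    simpa using h)

/-- the virtual character with given multiplicities -/
noncomputable def PhZ : (X k G →₀ ℤ) →ₗ[ℤ] (G → k) :=
  Finsupp.linearCombination ℤ (fun f : X k G => (f : G → k))

theorem PhZ_inj : Function.Injective (PhZ : (X k G →₀ ℤ) →ₗ[ℤ] (G → k)) := linIndepZ

end

/-- the character with given multiplicities -/
noncomputable def Ph : (X k G →₀ ℕ) →ₗ[ℕ] (G → k) :=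
  Finsupp.linearCombination ℕ (fun f : X k G => (f : G → k))

theorem Ph_single (f : X k G) (n : ℕ) : Ph (Finsupp.single f n) = n • (f : G → k) :=
  Finsupp.linearCombination_single ℕ n f

/-- natural multiplicities as integral ones -/
noncomputable def toZ : (X k G →₀ ℕ) →+ (X k G →₀ ℤ) :=
  Finsupp.mapRange.addMonoidHom (Nat.castAddMonoidHom ℤ)

theorem toZ_apply (m : X k G →₀ ℕ) (f : X k G) : toZ m f = (m f : ℤ) := rfl

section

variable [CharZero k]

theorem PhZ_toZ (m : X k G →₀ ℕ) : PhZ (k := k) (G := G) (toZ m) = Ph m := by
  induction m using Finsupp.induction_linear with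
  | zero => rw [map_zero, map_zero, map_zero]
  | add a b ha hb => rw [map_add, map_add, map_add, ha, hb]
  | single f n =>
    rw [Ph_single]
    have h1 : toZ (Finsupp.single f n) = Finsupp.single f (n : ℤ) :=
      Finsupp.mapRange_single (hf := map_zero _)
    rw [h1]
    change Finsupp.linearCombination ℤ _ _ = _
    rw [Finsupp.linearCombination_single]
    exact natCast_zsmul _ _

theorem Ph_inj : Function.Injective (Ph : (X k G →₀ ℕ) →ₗ[ℕ] (G → k)) := by
  intro m m' h
  rw [← PhZ_toZ, ← PhZ_toZ] at h
  have h1 := PhZ_inj h
  ext f
  have h2 := DFunLike.congr_fun h1 f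
  rw [toZ_apply, toZ_apply] at h2
  exact_mod_cast h2

end

/-- the dimension with given multiplicities -/
noncomputable def dg (m : X k G →₀ ℕ) : ℕ := m.sum fun f n => n * dm f

theorem dg_add (m m' : X k G →₀ ℕ) : dg (m + m') = dg m + dg m' :=
  Finsupp.sum_add_index' (fun _ => zero_mul _) (fun _ _ _ => add_mul _ _ _)

theorem dg_single (f : X k G) (n : ℕ) : dg (Finsupp.single f n) = n * dm f :=
  Finsupp.sum_single_index (zero_mul _)

theorem Ph_one (m : X k G →₀ ℕ) : Ph m 1 = dg m := by
  induction m using Finsupp.induction_linear with
  | zero => simp [dg]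
  | add a b ha hb => rw [map_add, Pi.add_apply, ha, hb, dg_add, Nat.cast_add]
  | single f n =>
    rw [Ph_single, Pi.smul_apply, X_one, dg_single, nsmul_eq_mul, Nat.cast_mul]

end Pool.Agent.Q15.GR
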