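import Pool.Agent.Q15.GR3

/-!
# Semisimple representations and multiplicities
-/

set_option autoImplicit false
set_option linter.unusedSectionVars false

namespace Pool.Agent.Q15.GR

open Representation Module
open scoped MonoidAlgebra

variable {k : Type} [Field k] {G : Type} [Group G]

/-- the direct sum of two equivalences -/
noncomputable def prodEquiv {V W V' W' : Type} [AddCommGroup V] [Module k V] [AddCommGroup W] [Module k W]
    [AddCommGroup V'] [Module k V'] [AddCommGroup W'] [Module k W']
    {ρ : Representation k G V} {σ : Representation k G W} {ρ' : Representation k G V'}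
    {σ' : Representation k G W'} (φ : Representation.Equiv ρ ρ') (ψ : Representation.Equiv σ σ') :
    Representation.Equiv (ρ.prod σ) (ρ'.prod σ') :=
  Representation.Equiv.mk (LinearEquiv.prodCongr φ.toLinearEquiv ψ.toLinearEquiv) (fun g => by
    refine LinearMap.ext fun x => ?_
    refine Prod.ext ?_ ?_
    · exact LinearMap.congr_fun (φ.isIntertwining' g) x.1
    · exact LinearMap.congr_fun (ψ.isIntertwining' g) x.2)

/-- an irreducible representation with a nonzero map to a semisimple one is a direct summand -/
theorem summand {V W : Type} [AddCommGroup V] [Module k V] [FiniteDimensional k V]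
    [AddCommGroup W] [Module k W] [FiniteDimensional k W] {ρ : Representation k G V}
    {σ : Representation k G W} (hρ : ρ.IsIrreducible) (hσ : σ.IsSemisimpleRepresentation)
    (φ : IntertwiningMap ρ σ) (hφ : φ ≠ 0) :
    ∃ T' : Subrepresentation σ, Nonempty (Representation.Equiv (ρ.prod T'.toRepresentation) σ) := by
  have hinj : Function.Injective φ := (IsIrreducible.injective_or_eq_zero φ).resolve_right hφ
  obtain ⟨T', hT'⟩ := hσ.exists_isCompl φ.range
  obtain ⟨e⟩ := prod_of_compl hT'
  refine ⟨T', ⟨?_⟩⟩
  have e1 : Representation.Equiv ρ φ.range.toRepresentation :=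
    Representation.Equiv.mk (LinearEquiv.ofInjective φ.toLinearMap hinj) (fun g => by
      refine LinearMap.ext fun x => Subtype.ext ?_
      exact LinearMap.congr_fun (φ.isIntertwining' g) x)
  exact (prodEquiv e1 (Representation.Equiv.refl _)).trans e

/-- the multiplicities of a semisimple representation -/
theorem exists_mult_aux [CharZero k] (n : ℕ) : ∀ (V : Type) [AddCommGroup V] [Module k V]
    [FiniteDimensional k V] (σ : Representation k G V), σ.IsSemisimpleRepresentation →
    finrank k V = n → ∃ m : X k G →₀ ℕ, σ.character = Ph m ∧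
      ∀ f, m f ≠ 0 → ∃ φ : IntertwiningMap (rp f) σ, φ ≠ 0 := by
  induction n using Nat.strong_induction_on with
  | _ n ih =>
    intro V _ _ _ σ hσ hn
    rcases subsingleton_or_nontrivial V with hV | hV
    · refine ⟨0, ?_, fun f hf => absurd rfl hf⟩
      ext g
      rw [map_zero, Pi.zero_apply]
      change LinearMap.trace k V (σ g) = 0
      have h1 : σ g = 0 := LinearMap.ext fun x => Subsingleton.elim _ _
      rw [h1, map_zero]
    · classical
      obtain ⟨U, hU⟩ := exists_atom σ
      obtain ⟨U', hU'⟩ := hσ.exists_isCompl U
      have hlt : finrank k U'.toSubmodule < n := by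
        rw [← hn]
        apply Submodule.finrank_lt
        intro h
        have h1 : U' = ⊤ := Subrepresentation.toSubmodule_injective h
        rw [h1] at hU'
        exact hU.1 (le_bot_iff.1 (hU'.disjoint le_rfl le_top))
      obtain ⟨m, hm, hm'⟩ := ih _ hlt U'.toSubmodule U'.toRepresentation (semi_sub hσ U') rfl
      let f : X k G := ⟨U.toRepresentation.character, isIr_char _ (irr_of_atom hU)⟩
      refine ⟨Finsupp.single f 1 + m, ?_, fun f' hf' => ?_⟩
      · rw [char_compl hU', hm, map_add, Ph_single, one_smul]
      · by_cases h1 : m f' = 0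
        · have h2 : f' = f := by
            by_contra h3
            rw [Finsupp.add_apply, h1, add_zero, Finsupp.single_apply] at hf'
            rw [if_neg (fun h => h3 h.symm)] at hf'
            exact hf' rfl
          rw [h2]
          obtain ⟨e⟩ := equiv_of_irr (rp f) U.toRepresentation (rp_irr f) (irr_of_atom hU)
            (rp_char f)
          refine ⟨(incl σ U).comp e.toIntertwiningMap, fun h3 => ?_⟩
          have h4 : Nontrivial U.toSubmodule := by
            by_contra h5
            rw [not_nontrivial_iff_subsingleton, Submodule.subsingleton_iff_eq_bot] at h5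
            exact hU.1 (Subrepresentation.toSubmodule_injective h5)
          obtain ⟨x, hx⟩ := exists_ne (0 : U.toSubmodule)
          apply hx
          have h5 : ((incl σ U).comp e.toIntertwiningMap) (e.symm x) = 0 := by
            rw [h3]
            rfl
          have h6 : ((incl σ U).comp e.toIntertwiningMap) (e.symm x) = (x : V) := by
            change ((e (e.symm x) : U.toSubmodule) : V) = x
            rw [Representation.Equiv.apply_symm_apply]
          rw [h6] at h5
          exact Subtype.ext h5
        · obtain ⟨φ, hφ⟩ := hm' f' h1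
          refine ⟨(incl σ U').comp φ, fun h3 => hφ ?_⟩
          apply IntertwiningMap.ext
          refine LinearMap.ext fun x => Subtype.ext ?_
          have h4 : ((incl σ U').comp φ) x = 0 := by
            rw [h3]
            rfl
          exact h4

section

variable [CharZero k]

theorem exists_mult {V : Type} [AddCommGroup V] [Module k V]
    [FiniteDimensional k V] (σ : Representation k G V) (h : σ.IsSemisimpleRepresentation) :
    ∃ m : X k G →₀ ℕ, σ.character = Ph m ∧
      ∀ f, m f ≠ 0 → ∃ φ : IntertwiningMap (rp f) σ, φ ≠ 0 :=
  exists_mult_aux _ V σ h rfl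

/-- semisimple representations with the same character are equivalent -/
theorem equiv_of_char_aux (n : ℕ) : ∀ (V W : Type) [AddCommGroup V] [Module k V]
    [FiniteDimensional k V] [AddCommGroup W] [Module k W] [FiniteDimensional k W]
    (ρ : Representation k G V) (σ : Representation k G W), ρ.IsSemisimpleRepresentation →
    σ.IsSemisimpleRepresentation → ρ.character = σ.character → finrank k V = n →
    Nonempty (Representation.Equiv ρ σ) := by
  induction n using Nat.strong_induction_on with
  | _ n ih =>
    intro V W _ _ _ _ _ _ ρ σ hρ hσ h hn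
    have hdim : finrank k V = finrank k W := by
      have h1 := congrFun h 1
      rw [char_one, char_one] at h1
      exact_mod_cast h1
    rcases subsingleton_or_nontrivial V with hV | hV
    · have hW : Subsingleton W := by
        rw [← finrank_zero_iff (R := k), ← hdim]
        exact finrank_zero_of_subsingleton
      refine ⟨Representation.Equiv.mk (LinearEquiv.ofFinrankEq V W hdim) fun g => ?_⟩
      exact LinearMap.ext fun x => Subsingleton.elim _ _
    · classical
      obtain ⟨U, hU⟩ := exists_atom ρ
      obtain ⟨U', hU'⟩ := hρ.exists_isCompl U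
      have hlt : finrank k U'.toSubmodule < n := by
        rw [← hn]
        apply Submodule.finrank_lt
        intro h
        have h1 : U' = ⊤ := Subrepresentation.toSubmodule_injective h
        rw [h1] at hU'
        exact hU.1 (le_bot_iff.1 (hU'.disjoint le_rfl le_top))
      let f : X k G := ⟨U.toRepresentation.character, isIr_char _ (irr_of_atom hU)⟩
      obtain ⟨m, hm, hm'⟩ := exists_mult σ hσ
      obtain ⟨m₁, hm₁, -⟩ := exists_mult _ (semi_sub hρ U')
      have h1 : Ph (Finsupp.single f 1 + m₁) = Ph m := by
        rw [← hm, ← h, char_compl hU', map_add, Ph_single, one_smul, hm₁]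
      have h2 := Ph_inj h1
      have h3 : m f ≠ 0 := by
        rw [← h2, Finsupp.add_apply, Finsupp.single_eq_same]
        omega
      obtain ⟨φ, hφ⟩ := hm' f h3
      obtain ⟨T', ⟨e⟩⟩ := summand (rp_irr f) hσ φ hφ
      obtain ⟨e1⟩ := equiv_of_irr (rp f) U.toRepresentation (rp_irr f) (irr_of_atom hU)
            (rp_char f)
      have h4 : U'.toRepresentation.character = T'.toRepresentation.character := by
        have h5 := h
        rw [char_compl hU', ← char_iso e, char_prod, rp_char] at h5
        exact add_left_cancel h5
      obtain ⟨e2⟩ := ih _ hlt _ _ _ _ (semi_sub hρ U') (semi_sub hσ T') h4 rfl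
      obtain ⟨e3⟩ := prod_of_compl hU'
      exact ⟨e3.symm.trans ((prodEquiv e1.symm e2).trans e)⟩

theorem equiv_of_char {V W : Type} [AddCommGroup V] [Module k V]
    [FiniteDimensional k V] [AddCommGroup W] [Module k W] [FiniteDimensional k W]
    (ρ : Representation k G V) (σ : Representation k G W) (hρ : ρ.IsSemisimpleRepresentation)
    (hσ : σ.IsSemisimpleRepresentation) (h : ρ.character = σ.character) :
    Nonempty (Representation.Equiv ρ σ) :=
  equiv_of_char_aux _ V W ρ σ hρ hσ h rfl

/-- `f` is the character of a semisimple representation -/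
def IsSs (f : G → k) : Prop :=
  ∃ (n : ℕ) (ρ : Representation k G (Fin n → k)), ρ.IsSemisimpleRepresentation ∧ ρ.character = f

theorem isSs_char {V : Type} [AddCommGroup V] [Module k V] [FiniteDimensional k V]
    (ρ : Representation k G V) (h : ρ.IsSemisimpleRepresentation) : IsSs ρ.character :=
  ⟨finrank k V, tp ρ (Module.finBasis k V).equivFun, semi_congr (tpEquiv _ _) h, char_tp _ _⟩

theorem isSs_zero : IsSs (0 : G → k) := by
  refine ⟨0, 1, ?_, ?_⟩
  · have : Subsingleton (Subrepresentation (1 : Representation k G (Fin 0 → k))) := by
      constructor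
      intro a b
      apply Subrepresentation.toSubmodule_injective
      exact Subsingleton.elim _ _
    exact ⟨fun a => ⟨a, ⟨fun x _ _ => (Subsingleton.elim _ _ : x = ⊥).le,
      fun x _ _ => (Subsingleton.elim _ _ : ⊤ = x).le⟩⟩⟩
  · ext g
    rw [Pi.zero_apply]
    change LinearMap.trace k _ (1 : (Fin 0 → k) →ₗ[k] (Fin 0 → k)) = 0
    rw [LinearMap.trace_one, finrank_fin_fun, Nat.cast_zero]

theorem isSs_add {f f' : G → k} (h : IsSs f) (h' : IsSs f') : IsSs (f + f') := by
  obtain ⟨n, ρ, h1, rfl⟩ := h
  obtain ⟨n', ρ', h1', rfl⟩ := h'
  rw [← char_prod]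
  exact isSs_char _ (semi_prod h1 h1')

theorem isSs_irr (f : X k G) : IsSs (f : G → k) := ⟨dm f, rp f, irr_semi (rp_irr f), rp_char f⟩

theorem isSs_Ph (m : X k G →₀ ℕ) : IsSs (Ph m) := by
  induction m using Finsupp.induction_linear with
  | zero =>
    rw [map_zero]
    exact isSs_zero
  | add a b ha hb =>
    rw [map_add]
    exact isSs_add ha hb
  | single f n =>
    rw [Ph_single]
    induction n with
    | zero =>
      rw [zero_smul]
      exact isSs_zero
    | succ n ih =>
      rw [succ_nsmul]
      exact isSs_add ih (isSs_irr f)

theorem IsSs.exists_Ph {f : G → k} (h : IsSs f) : ∃ m : X k G →₀ ℕ, f = Ph m := by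
  obtain ⟨n, ρ, h1, rfl⟩ := h
  obtain ⟨m, hm, -⟩ := exists_mult ρ h1
  exact ⟨m, hm⟩

/-- a representation with given multiplicities, on the coordinate space of the right dimension -/
theorem exists_rep (m : X k G →₀ ℕ) {n : ℕ} (h : dg m = n) :
    ∃ ρ : Representation k G (Fin n → k), ρ.IsSemisimpleRepresentation ∧ ρ.character = Ph m := by
  obtain ⟨n', ρ, h1, h2⟩ := isSs_Ph m
  have h3 : n' = n := by
    have h4 := congrFun h2 1
    rw [char_one, finrank_fin_fun, Ph_one, h] at h4
    exact_mod_cast h4
  subst h3
  exact ⟨ρ, h1, h2⟩

theorem dg_eq {V : Type} [AddCommGroup V] [Module k V] [FiniteDimensional k V]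
    {ρ : Representation k G V} {m : X k G →₀ ℕ} (h : ρ.character = Ph m) :
    dg m = finrank k V := by
  have h4 := congrFun h 1
  rw [char_one, Ph_one] at h4
  exact_mod_cast h4.symm

end

end Pool.Agent.Q15.GR
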