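import Pool.Agent.Q15.GR4

/-!
# Twists by characters
-/

set_option autoImplicit false
set_option linter.unusedSectionVars false

namespace Pool.Agent.Q15.GR

open Representation Module
open scoped MonoidAlgebra

variable {k : Type} [Field k] {G : Type} [Group G]

section

variable {V W : Type} [AddCommGroup V] [Module k V] [AddCommGroup W] [Module k W]

/-- the twist of a representation by a character -/
def twist (ψ : G →* kˣ) (ρ : Representation k G V) : Representation k G V where
  toFun g := (ψ g : k) • ρ g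
  map_one' := by
    rw [map_one, map_one, Units.val_one, one_smul]
  map_mul' g h := by
    rw [map_mul, map_mul, Units.val_mul, smul_mul_smul_comm]

theorem twist_apply (ψ : G →* kˣ) (ρ : Representation k G V) (g : G) :
    twist ψ ρ g = (ψ g : k) • ρ g := rfl

/-- the subrepresentations of a twist -/
def twIso (ψ : G →* kˣ) (ρ : Representation k G V) :
    Subrepresentation ρ ≃o Subrepresentation (twist ψ ρ) where
  toFun U := ⟨U.toSubmodule, fun g v hv => U.toSubmodule.smul_mem _
    (U.apply_mem_toSubmodule g hv)⟩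
  invFun U := ⟨U.toSubmodule, fun g v hv => by
    have h1 := U.toSubmodule.smul_mem (((ψ g)⁻¹ : kˣ) : k) (U.apply_mem_toSubmodule g hv)
    rw [twist_apply, LinearMap.smul_apply, smul_smul, Units.inv_mul, one_smul] at h1
    exact h1⟩
  left_inv U := rfl
  right_inv U := rfl
  map_rel_iff' := Iff.rfl

theorem irr_twist (ψ : G →* kˣ) {ρ : Representation k G V} (h : ρ.IsIrreducible) :
    (twist ψ ρ).IsIrreducible := (twIso ψ ρ).isSimpleOrder_iff.1 h

theorem semi_twist (ψ : G →* kˣ) {ρ : Representation k G V} (h : ρ.IsSemisimpleRepresentation) :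
    (twist ψ ρ).IsSemisimpleRepresentation := (twIso ψ ρ).complementedLattice_iff.1 h

theorem char_twist (ψ : G →* kˣ) (ρ : Representation k G V) (g : G) :
    (twist ψ ρ).character g = (ψ g : k) * ρ.character g := by
  change LinearMap.trace k V ((ψ g : k) • ρ g) = _
  rw [map_smul, smul_eq_mul]
  rfl

end

theorem isIr_smul (ψ : G →* kˣ) {f : G → k} (hf : IsIr f) : IsIr (fun g => (ψ g : k) * f g) := by
  obtain ⟨n, ρ, h1, rfl⟩ := hf
  exact ⟨n, twist ψ ρ, irr_twist ψ h1, funext fun g => char_twist ψ ρ g⟩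

noncomputable instance : MulAction (G →* kˣ) (X k G) where
  smul ψ f := ⟨fun g => (ψ g : k) * (f : G → k) g, isIr_smul ψ f.2⟩
  one_smul f := Subtype.ext (funext fun g => by
    change (((1 : G →* kˣ) g : kˣ) : k) * (f : G → k) g = _
    rw [MonoidHom.one_apply, Units.val_one, one_mul])
  mul_smul ψ φ f := Subtype.ext (funext fun g => by
    change (((ψ * φ : G →* kˣ) g : kˣ) : k) * (f : G → k) g =
      (ψ g : k) * ((φ g : k) * (f : G → k) g)
    rw [MonoidHom.mul_apply, Units.val_mul, mul_assoc])

theorem X_smul (ψ : G →* kˣ) (f : X k G) (g : G) :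
    ((ψ • f : X k G) : G → k) g = (ψ g : k) * (f : G → k) g := rfl

/-- the twist on multiplicities -/
noncomputable def tw {R : Type} [AddCommMonoid R] (ψ : G →* kˣ) (m : X k G →₀ R) : X k G →₀ R :=
  Finsupp.mapDomain (fun f => ψ • f) m

theorem tw_apply {R : Type} [AddCommMonoid R] (ψ : G →* kˣ) (m : X k G →₀ R) (f : X k G) :
    tw ψ m f = m (ψ⁻¹ • f) := by
  have h1 : f = ψ • (ψ⁻¹ • f) := (smul_inv_smul ψ f).symm
  conv_lhs => rw [h1]
  exact Finsupp.mapDomain_apply (MulAction.injective ψ) m _

section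

variable [CharZero k]

theorem PhZ_single (f : X k G) (n : ℤ) :
    PhZ (k := k) (G := G) (Finsupp.single f n) = n • (f : G → k) :=
  Finsupp.linearCombination_single ℤ n f

theorem PhZ_tw (ψ : G →* kˣ) (m : X k G →₀ ℤ) (g : G) :
    PhZ (k := k) (G := G) (tw ψ m) g = (ψ g : k) * PhZ (k := k) (G := G) m g := by
  induction m using Finsupp.induction_linear with
  | zero =>
    unfold tw
    rw [Finsupp.mapDomain_zero, map_zero, Pi.zero_apply, mul_zero]
  | add a b ha hb =>
    unfold tw at ha hb ⊢
    rw [Finsupp.mapDomain_add, map_add, map_add, Pi.add_apply, Pi.add_apply, ha, hb, mul_add]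
  | single f n =>
    unfold tw
    rw [Finsupp.mapDomain_single, PhZ_single, PhZ_single, Pi.smul_apply, Pi.smul_apply, X_smul,
      mul_smul_comm]

end

theorem Ph_tw (ψ : G →* kˣ) (m : X k G →₀ ℕ) (g : G) :
    Ph (tw ψ m) g = (ψ g : k) * Ph m g := by
  induction m using Finsupp.induction_linear with
  | zero =>
    unfold tw
    rw [Finsupp.mapDomain_zero, map_zero, Pi.zero_apply, mul_zero]
  | add a b ha hb =>
    unfold tw at ha hb ⊢
    rw [Finsupp.mapDomain_add, map_add, map_add, Pi.add_apply, Pi.add_apply, ha, hb, mul_add]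
  | single f n =>
    unfold tw
    rw [Finsupp.mapDomain_single, Ph_single, Ph_single, Pi.smul_apply, Pi.smul_apply, X_smul,
      mul_smul_comm]

/-- a character of infinite order acts freely -/
theorem free [CharZero k] (t : G →* kˣ) (ht : ∀ n : ℤ, n ≠ 0 → ∃ g, t g ^ n ≠ 1) {a : ℤ}
    {f : X k G} (h : t ^ a • f = f) : a = 0 := by
  by_contra ha
  have h1 : (rp f).character = (twist (t ^ a) (rp f)).character := by
    funext g
    rw [char_twist, rp_char]
    conv_lhs => rw [← h]
    rfl
  obtain ⟨e⟩ := equiv_of_irr (rp f) (twist (t ^ a) (rp f)) (rp_irr f) (irr_twist _ (rp_irr f)) h1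
  have hd := dm_pos f
  obtain ⟨g, hg⟩ := ht (a * dm f) (mul_ne_zero ha (by exact_mod_cast hd.ne'))
  apply hg
  have h2 : LinearMap.det (twist (t ^ a) (rp f) g) = LinearMap.det (rp f g) := by
    rw [← Representation.Equiv.conj_apply_self g e]
    exact LinearMap.det_conj (rp f g) e.toLinearEquiv
  rw [twist_apply, LinearMap.det_smul, finrank_fin_fun] at h2
  have h3 : LinearMap.det (rp f g) ≠ 0 := by
    have h4 : LinearMap.det (rp f g) * LinearMap.det (rp f g⁻¹) = 1 := by
      rw [← LinearMap.det_comp]
      have h5 : rp f g ∘ₗ rp f g⁻¹ = LinearMap.id := by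
        rw [← Module.End.mul_eq_comp, ← map_mul, mul_inv_cancel, map_one]
        rfl
      rw [h5, LinearMap.det_id]
    exact left_ne_zero_of_mul_eq_one h4
  have h4 : ((t ^ a) g : k) ^ dm f = 1 := by
    have h5 : ((t ^ a) g : k) ^ dm f * LinearMap.det (rp f g) = 1 * LinearMap.det (rp f g) := by
      rw [one_mul]
      exact h2
    exact mul_right_cancel₀ h3 h5
  apply Units.ext
  rw [zpow_mul, zpow_natCast, Units.val_pow_eq_pow_val, Units.val_one]
  exact h4

end Pool.Agent.Q15.GR
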