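import Pool.Agent.Q15.GRP4
import Pool.Agent.Q15.GRNT
import Pool.Agent.W401.Cheb.Frob

/-!
# Finite patching over a number field
-/

set_option autoImplicit false
set_option linter.unusedSectionVars false

namespace Pool.Agent.Q15.GR

open Representation Module NumberField IsDedekindDomain Topology
open Pool.Agent.W401.Cheb

section ram

variable {K : Type} [Field K] [NumberField K]

/-- an open subgroup of the absolute Galois group contains the fixator of finitely many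
algebraic integers -/
theorem fix_fin (U : Subgroup (GK K)) (hU : IsOpen (U : Set (GK K))) :
    ∃ s : Finset (𝓞 (AlgebraicClosure K)), ∀ σ : GK K, (∀ x ∈ s, σ • x = x) → σ ∈ U := by
  classical
  have h1 : (U : Set (GK K)) ∈ 𝓝 (1 : GK K) := hU.mem_nhds U.one_mem
  rw [krullTopology_mem_nhds_one_iff] at h1
  obtain ⟨E, hE, hEU⟩ := h1
  -- a finite spanning set of `E`
  obtain ⟨b, hb⟩ := (inferInstance : Module.Finite K E).1
  have hint : ∀ y : E, ∃ (c : ℤ) (z : 𝓞 (AlgebraicClosure K)), c ≠ 0 ∧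
      (z : AlgebraicClosure K) = (c : AlgebraicClosure K) * (y : AlgebraicClosure K) := by
    intro y
    have h1 : IsAlgebraic ℤ (y : AlgebraicClosure K) := by
      have h3 : Algebra.IsAlgebraic ℚ (AlgebraicClosure K) :=
        Algebra.IsAlgebraic.trans ℚ K (AlgebraicClosure K)
      have h2 : IsAlgebraic ℚ (y : AlgebraicClosure K) := Algebra.IsAlgebraic.isAlgebraic _
      exact (IsFractionRing.isAlgebraic_iff ℤ ℚ (AlgebraicClosure K)).2 h2
    obtain ⟨c, hc, hc'⟩ := h1.exists_integral_multiple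
    exact ⟨c, ⟨_, hc'⟩, hc, by
      change c • (y : AlgebraicClosure K) = _
      rw [zsmul_eq_mul]⟩
  choose c z hc hz using hint
  refine ⟨b.image z, fun σ hσ => hEU ?_⟩
  change σ ∈ E.fixingSubgroup
  rw [IntermediateField.mem_fixingSubgroup_iff]
  intro x hx
  have hspan : (⟨x, hx⟩ : E) ∈ Submodule.span K (b : Set E) := by
    rw [hb]
    exact Submodule.mem_top
  have key : ∀ y : E, y ∈ Submodule.span K (b : Set E) → σ (y : AlgebraicClosure K) = y := by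
    intro y hy
    induction hy using Submodule.span_induction with
    | mem y hy =>
      have h2 := hσ (z y) (Finset.mem_image_of_mem z hy)
      have h3 : σ ((z y : 𝓞 (AlgebraicClosure K)) : AlgebraicClosure K) = (z y : AlgebraicClosure K) :=
        congrArg (fun w : 𝓞 (AlgebraicClosure K) => (w : AlgebraicClosure K)) h2
      rw [hz y, map_mul, map_intCast] at h3
      exact mul_left_cancel₀ (by exact_mod_cast hc y) h3
    | zero => exact map_zero σ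
    | add y y' _ _ hy hy' =>
      change σ ((y : AlgebraicClosure K) + (y' : AlgebraicClosure K)) = _
      rw [map_add, hy, hy']
      rfl
    | smul a y _ hy =>
      change σ (a • (y : AlgebraicClosure K)) = a • (y : AlgebraicClosure K)
      rw [Algebra.smul_def, map_mul, AlgEquiv.commutes, hy]
  exact key ⟨x, hx⟩ hspan

/-- finitely many conjugates -/
theorem conj_fin (x : 𝓞 (AlgebraicClosure K)) :
    (Set.range fun σ : GK K => σ • x).Finite := by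
  have h1 : ((minpoly K (x : AlgebraicClosure K)).rootSet (AlgebraicClosure K)).Finite :=
    Polynomial.rootSet_finite _ _
  have h2 : Set.Finite ((fun w : 𝓞 (AlgebraicClosure K) => (w : AlgebraicClosure K)) ''
      (Set.range fun σ : GK K => σ • x)) := by
    refine h1.subset ?_
    rintro _ ⟨_, ⟨σ, rfl⟩, rfl⟩
    have hi : IsIntegral K (x : AlgebraicClosure K) := Algebra.IsIntegral.isIntegral _
    rw [Polynomial.mem_rootSet]
    refine ⟨minpoly.ne_zero hi, ?_⟩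
    change Polynomial.aeval (σ (x : AlgebraicClosure K)) _ = 0
    rw [← AlgEquiv.coe_algHom, Polynomial.aeval_algHom_apply, minpoly.aeval, map_zero]
  exact Set.Finite.of_finite_image h2 (fun a _ b _ h => RingOfIntegers.ext h)

/-- only finitely many places ramify in an open subgroup -/
theorem finite_ramified (U : Subgroup (GK K)) (hU : IsOpen (U : Set (GK K))) :
    {v : HeightOneSpectrum (𝓞 K) | ∃ σ, IsInert v σ ∧ σ ∉ U}.Finite := by
  classical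
  obtain ⟨s, hs⟩ := fix_fin U hU
  let Y : Set (𝓞 (AlgebraicClosure K)) :=
    {y | y ≠ 0 ∧ ∃ x ∈ s, ∃ σ : GK K, y = σ • x - x}
  have hY : Y.Finite := by
    have h1 : (⋃ x ∈ s, (fun w => w - x) '' (Set.range fun σ : GK K => σ • x)).Finite :=
      s.finite_toSet.biUnion fun x _ => (conj_fin x).image _
    refine h1.subset ?_
    rintro y ⟨-, x, hx, σ, rfl⟩
    exact Set.mem_biUnion hx ⟨_, ⟨σ, rfl⟩, rfl⟩
  have hYv : ∀ y ∈ Y, {v : HeightOneSpectrum (𝓞 K) |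
      (Ideal.span {y}).comap (algebraMap (𝓞 K) (𝓞 (AlgebraicClosure K))) ≤ v.asIdeal}.Finite := by
    rintro y ⟨hy, -⟩
    have h1 : (Ideal.span {y}).comap (algebraMap (𝓞 K) (𝓞 (AlgebraicClosure K))) ≠ ⊥ := by
      have h2 : IsIntegral (𝓞 K) y := Algebra.IsIntegral.isIntegral _
      exact Ideal.comap_ne_bot_of_integral_mem hy (Ideal.mem_span_singleton_self y) h2
    have h3 := Ideal.finite_factors h1
    refine h3.subset ?_
    intro v hv
    exact Ideal.dvd_iff_le.2 hv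
  refine (hY.biUnion hYv).subset ?_
  rintro v ⟨σ, ⟨Q, hQ, hQv, hQσ⟩, hσ⟩
  obtain ⟨x, hx, hσx⟩ : ∃ x ∈ s, σ • x ≠ x := by
    by_contra hall
    push Not at hall
    exact hσ (hs σ hall)
  refine Set.mem_biUnion (x := σ • x - x) ⟨sub_ne_zero.2 hσx, x, hx, σ, rfl⟩ ?_
  change (Ideal.span {σ • x - x}).comap (algebraMap (𝓞 K) (𝓞 (AlgebraicClosure K))) ≤ v.asIdeal
  rw [← hQv]
  apply Ideal.comap_mono
  rw [Ideal.span_singleton_le_iff_mem]
  exact hQσ x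

end ram

/-- a subgroup of index `q` containing `N` and a given element -/
theorem exists_index {Γ : Type} [Group Γ] {q : ℕ} (hq : q.Prime) (N : Subgroup Γ) (hNn : N.Normal)
    (hNc : ∀ x y, x * y * x⁻¹ * y⁻¹ ∈ N) (hNe : ∀ x, x ^ q ∈ N) (hcard : q < N.index) (σ₀ : Γ) :
    ∃ Δ : Subgroup Γ, N ≤ Δ ∧ Δ.index = q ∧ σ₀ ∈ Δ := by
  classical
  letI hE : CommGroup (Γ ⧸ N) :=
    { (inferInstance : Group (Γ ⧸ N)) with
      mul_comm := by
        intro a b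
        obtain ⟨x, rfl⟩ := QuotientGroup.mk_surjective a
        obtain ⟨y, rfl⟩ := QuotientGroup.mk_surjective b
        change (QuotientGroup.mk (x * y) : Γ ⧸ N) = QuotientGroup.mk (y * x)
        rw [eq_comm, QuotientGroup.eq]
        have h1 := hNc x⁻¹ y⁻¹
        have h2 : (y * x)⁻¹ * (x * y) = x⁻¹ * y⁻¹ * x⁻¹⁻¹ * y⁻¹⁻¹ := by group
        rw [h2]
        exact h1 }
  have hfin : N.index ≠ 0 := by omega
  haveI : N.FiniteIndex := ⟨hfin⟩
  haveI : Finite (Γ ⧸ N) := inferInstance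
  let θ : Γ →* (Γ ⧸ N) := QuotientGroup.mk' N
  have hθ : Function.Surjective θ := QuotientGroup.mk'_surjective N
  have hexp : ∀ e : Γ ⧸ N, e ^ q = 1 := by
    intro e
    obtain ⟨x, rfl⟩ := hθ e
    rw [← map_pow]
    exact (QuotientGroup.eq_one_iff _).2 (hNe x)
  have hexp0 : Monoid.exponent (Γ ⧸ N) ≠ 0 := by
    intro h
    have h1 := Monoid.exponent_dvd_of_forall_pow_eq_one hexp
    rw [h] at h1
    exact hq.ne_zero (Nat.eq_zero_of_zero_dvd h1)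
  haveI : NeZero (Monoid.exponent (Γ ⧸ N)) := ⟨hexp0⟩
  haveI : NeZero ((Monoid.exponent (Γ ⧸ N) : ℕ) : ℂ) := ⟨by exact_mod_cast hexp0⟩
  obtain ⟨e, he⟩ : ∃ e : Γ ⧸ N, e ∉ Subgroup.zpowers (θ σ₀) := by
    by_contra hall
    push Not at hall
    have h1 : Subgroup.zpowers (θ σ₀) = ⊤ := by
      ext x
      exact ⟨fun _ => Subgroup.mem_top x, fun _ => hall x⟩
    have h2 : Nat.card (Subgroup.zpowers (θ σ₀)) = N.index := by
      rw [h1, Subgroup.card_top]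
      rfl
    rw [Nat.card_zpowers] at h2
    have h3 : orderOf (θ σ₀) ≤ q := orderOf_le_of_pow_eq_one hq.pos (hexp _)
    omega
  obtain ⟨φ, hφ, hφe⟩ : ∃ φ : (Γ ⧸ N) →* ℂˣ, (∀ h ∈ Subgroup.zpowers (θ σ₀), φ h = 1) ∧ φ e ≠ 1 := by
    by_contra hall
    push Not at hall
    exact he ((CommGroup.forall_monoidHom_apply_eq_one_iff ℂ _ e).1 hall)
  obtain ⟨g₀, rfl⟩ := hθ e
  refine ⟨(pb (k := ℂ) θ φ).ker, ?_, ?_, ?_⟩
  · intro x hx
    change φ (θ x) = 1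
    have h1 : θ x = 1 := (QuotientGroup.eq_one_iff _).2 hx
    rw [h1, map_one]
  · exact (cyc_ker (pb (k := ℂ) θ φ) hq (fun g => by
      rw [pb_apply, ← map_pow, hexp, map_one]) g₀ hφe).index
  · exact hφ _ (Subgroup.mem_zpowers _)

variable {K : Type} [Field K] [NumberField K] {ℓ : ℕ} [Fact ℓ.Prime]

/-- an unramified place splits completely in some subextension of degree `q` -/
theorem exists_split {q : ℕ} (hq : q.Prime) (N : Subgroup (GK K)) (hNn : N.Normal)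
    (hNc : ∀ x y, x * y * x⁻¹ * y⁻¹ ∈ N) (hNe : ∀ x, x ^ q ∈ N) (hcard : q < N.index)
    (v : HeightOneSpectrum (𝓞 K)) (hv : ∀ σ, IsInert v σ → σ ∈ N) :
    ∃ Δ, N ≤ Δ ∧ Δ.index = q ∧ ∀ σ, IsInert v σ ∨ IsFrob v σ → σ ∈ Δ := by
  have hFrob := Pool.Agent.W401.Frob.main K
  obtain ⟨σ₀, hσ₀⟩ := hFrob.1 v
  obtain ⟨Δ, h1, h2, h3⟩ := exists_index hq N hNn hNc hNe hcard σ₀
  refine ⟨Δ, h1, h2, ?_⟩
  rintro σ (hσ | hσ)
  · exact h1 (hv σ hσ)
  · obtain ⟨g, i, hi, rfl⟩ := hFrob.2.1 v σ₀ σ hσ₀ hσ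
    have h4 : g * σ₀ * g⁻¹ ∈ Δ := by
      have h5 := Δ.mul_mem (h1 (hNc g σ₀)) h3
      have h6 : g * σ₀ * g⁻¹ * σ₀⁻¹ * σ₀ = g * σ₀ * g⁻¹ := by group
      rwa [h6] at h5
    exact Δ.mul_mem h4 (h1 (hv i hi))

/-- **finite patching over a number field** -/
theorem patch_nt {q n : ℕ} (hq : q.Prime) (N : Subgroup (GK K)) (hNn : N.Normal)
    (hNo : IsOpen (N : Set (GK K))) (hNc : ∀ x y, x * y * x⁻¹ * y⁻¹ ∈ N) (hNe : ∀ x, x ^ q ∈ N)
    (hcard : (q - 1) * (n * q) + q < N.index)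
    (S : Set (HeightOneSpectrum (𝓞 K))) (hS : S.Finite)
    (D : HeightOneSpectrum (𝓞 K) → Multiset (PadicAlgCl ℓ))
    (ρ : ∀ Δ : Subgroup (GK K), Representation (PadicAlgCl ℓ) Δ (Fin n → PadicAlgCl ℓ))
    (hss : ∀ Δ, N ≤ Δ → Δ.index = q → (ρ Δ).IsSemisimpleRepresentation)
    (hcts : ∀ Δ, N ≤ Δ → Δ.index = q → Cts (ρ Δ))
    (hD : ∀ Δ, N ≤ Δ → Δ.index = q → ∀ v ∉ S, (∀ σ, IsInert v σ ∨ IsFrob v σ → σ ∈ Δ) →
      (∀ σ : Δ, IsInert v (σ : GK K) → ρ Δ σ = 1) ∧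
      ∀ σ : Δ, IsFrob v (σ : GK K) → eig (ρ Δ σ⁻¹) = D v) :
    ∃ R : Representation (PadicAlgCl ℓ) (GK K) (Fin n → PadicAlgCl ℓ),
      R.IsSemisimpleRepresentation ∧ Cts R ∧
      (∀ Δ, N ≤ Δ → Δ.index = q → Nonempty (Representation.Equiv (res Δ R) (ρ Δ))) ∧
      ∀ v ∉ S, (∃ Δ, N ≤ Δ ∧ Δ.index = q ∧ ∀ σ, IsInert v σ ∨ IsFrob v σ → σ ∈ Δ) →
        (∀ σ, IsInert v σ → R σ = 1) ∧ ∀ σ, IsFrob v σ → eig (R σ⁻¹) = D v := by
  classical
  let S' : Set (HeightOneSpectrum (𝓞 K)) := S ∪ {v | ∃ σ, IsInert v σ ∧ σ ∉ N}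
  have hS' : S'.Finite := hS.union (finite_ramified N hNo)
  let Φ : Type := {p : HeightOneSpectrum (𝓞 K) × GK K // p.1 ∉ S' ∧ IsFrob p.1 p.2}
  let π : Φ → GK K := fun φ => (φ.1.2)⁻¹
  have hdense : DenseRange π := by
    have h1 := frob_dense S' hS'
    have h2 : (Set.range π) = (fun x : GK K => x⁻¹) ⁻¹' {σ : GK K | ∃ v ∉ S', IsFrob v σ} := by
      ext σ
      constructor
      · rintro ⟨φ, rfl⟩
        exact ⟨φ.1.1, φ.2.1, by
          change IsFrob φ.1.1 ((φ.1.2)⁻¹)⁻¹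
          rw [inv_inv]
          exact φ.2.2⟩
      · rintro ⟨v, hv, hσ⟩
        exact ⟨⟨(v, σ⁻¹), hv, hσ⟩, inv_inv σ⟩
    rw [DenseRange, h2]
    exact h1.preimage (Homeomorph.inv (GK K)).isOpenMap
  have hnormal : ∀ Δ : Subgroup (GK K), N ≤ Δ → Δ.Normal := by
    intro Δ hΔ
    refine ⟨fun x hx g => ?_⟩
    have h1 := Δ.mul_mem (hΔ (hNc g x)) hx
    have h2 : g * x * g⁻¹ * x⁻¹ * x = g * x * g⁻¹ := by group
    rwa [h2] at h1
  have hFrob := Pool.Agent.W401.Frob.main K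
  obtain ⟨R, h1, h2, h3⟩ := patch_top hq N hNn hNo hNc hNe hcard ρ hss hcts π hdense
    (fun φ => (D φ.1.1).sum) (fun φ g => by
      refine ⟨⟨(φ.1.1, g * φ.1.2 * g⁻¹), φ.2.1, isFrob_conj φ.2.2 g⟩, ?_, rfl⟩
      change (g * φ.1.2 * g⁻¹)⁻¹ = g * (φ.1.2)⁻¹ * g⁻¹
      group) (fun Δ hΔ hΔq φ hx => by
      have hx' : φ.1.2 ∈ Δ := by
        have := Δ.inv_mem hx
        rwa [inv_inv] at this
      have hin : ∀ σ, IsInert φ.1.1 σ → σ ∈ N := by
        intro σ hσ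
        by_contra hne
        exact φ.2.1 (Or.inr ⟨σ, hσ, hne⟩)
      have hsplit : ∀ σ, IsInert φ.1.1 σ ∨ IsFrob φ.1.1 σ → σ ∈ Δ := by
        rintro σ (hσ | hσ)
        · exact hΔ (hin σ hσ)
        · obtain ⟨g, i, hi, rfl⟩ := hFrob.2.1 φ.1.1 φ.1.2 σ φ.2.2 hσ
          exact Δ.mul_mem ((hnormal Δ hΔ).conj_mem _ hx' g) (hΔ (hin i hi))
      have h4 := (hD Δ hΔ hΔq φ.1.1 (fun h => φ.2.1 (Or.inl h)) hsplit).2 ⟨φ.1.2, hx'⟩ φ.2.2
      change LinearMap.trace _ _ (ρ Δ ⟨(φ.1.2)⁻¹, hx⟩) = _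
      rw [← sum_eig, ← h4]
      rfl)
  refine ⟨R, h1, h2, h3, ?_⟩
  rintro v hv ⟨Δ, hΔ, hΔq, hsplit⟩
  obtain ⟨e⟩ := h3 Δ hΔ hΔq
  obtain ⟨h4, h5⟩ := hD Δ hΔ hΔq v hv hsplit
  constructor
  · intro σ hσ
    have hσΔ := hsplit σ (Or.inl hσ)
    refine LinearMap.ext fun x => ?_
    apply e.toLinearEquiv.injective
    have h6 : e (res Δ R ⟨σ, hσΔ⟩ x) = ρ Δ ⟨σ, hσΔ⟩ (e x) :=
      IntertwiningMap.isIntertwining _ _ e.toIntertwiningMap ⟨σ, hσΔ⟩ x
    rw [h4 ⟨σ, hσΔ⟩ hσ] at h6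
    exact h6
  · intro σ hσ
    have hσΔ := hsplit σ (Or.inr hσ)
    have h6 := eig_equiv e (⟨σ, hσΔ⟩ : Δ)⁻¹
    rw [h5 ⟨σ, hσΔ⟩ hσ] at h6
    exact h6.symm

end Pool.Agent.Q15.GR
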