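import Pool.Agent.Q15.GRQ2
import Pool.Agent.Q15.GRP5

/-!
# Automorphic representations of `GL` over a number field, formally, and quadratic patching
-/

set_option autoImplicit false
set_option linter.style.haveILetI false

namespace Pool.Agent.Q15.GRA

open NumberField IsDedekindDomain Finset
open Pool.Agent.W401.Cheb

section multiset

/-- squares -/
def sq (M : Multiset ℂ) : Multiset ℂ := M.map fun a => a ^ 2

/-- negatives -/
def ng (M : Multiset ℂ) : Multiset ℂ := M.map fun a => -a

theorem ng_add (M N : Multiset ℂ) : ng (M + N) = ng M + ng N := Multiset.map_add _ _ _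

theorem sq_add (M N : Multiset ℂ) : sq (M + N) = sq M + sq N := Multiset.map_add _ _ _

theorem ng_ng (M : Multiset ℂ) : ng (ng M) = M := by
  unfold ng
  rw [Multiset.map_map]
  conv_rhs => rw [← Multiset.map_id M]
  exact Multiset.map_congr rfl fun a _ => neg_neg a

theorem sq_ng (M : Multiset ℂ) : sq (ng M) = sq M := by
  unfold sq ng
  rw [Multiset.map_map]
  exact Multiset.map_congr rfl fun a _ => neg_sq a

theorem two_inj {M N : Multiset ℂ} (h : M + M = N + N) : M = N := by
  classical
  ext a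
  have h1 := congrArg (Multiset.count a) h
  rw [Multiset.count_add, Multiset.count_add] at h1
  omega

theorem add_ng_iff {M N : Multiset ℂ} : M + ng M = N + ng N ↔ sq M = sq N := by
  constructor
  · intro h
    have h1 := congrArg sq h
    rw [sq_add, sq_add, sq_ng, sq_ng] at h1
    exact two_inj h1
  · intro h
    have hr : ∀ b : ℂ, ∃ r : ℂ, r ^ 2 = b := fun b => IsAlgClosed.exists_pow_nat_eq b (by norm_num)
    choose r hr using hr
    have key : ∀ M : Multiset ℂ, M + ng M = (sq M).bind fun b => {r b, -r b} := by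
      intro M
      induction M using Multiset.induction_on with
      | empty => rfl
      | cons a M ih =>
        have h1 : ng (a ::ₘ M) = (-a) ::ₘ ng M := Multiset.map_cons _ _ _
        have h2 : sq (a ::ₘ M) = (a ^ 2) ::ₘ sq M := Multiset.map_cons _ _ _
        rw [h1, h2, Multiset.cons_bind, ← ih]
        have h3 : r (a ^ 2) = a ∨ r (a ^ 2) = -a := sq_eq_sq_iff_eq_or_eq_neg.1 (hr _)
        have h4 : ({r (a ^ 2), -r (a ^ 2)} : Multiset ℂ) = {a, -a} := by
          rcases h3 with h3 | h3
          · rw [h3]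
          · rw [h3, neg_neg]
            exact Multiset.pair_comm _ _
        rw [h4, Multiset.cons_add, Multiset.add_cons, Multiset.insert_eq_cons,
          Multiset.cons_add, Multiset.singleton_add]
    rw [key, key, h]

end multiset

variable {K : Type} [Field K] [NumberField K]

/-- a quadratic character of the absolute Galois group, trivial at the place `v`: the place splits
in the quadratic extension -/
def Split (v : HeightOneSpectrum (𝓞 K)) (χ : GK K →* ℤˣ) : Prop :=
  ∀ σ, IsInert v σ ∨ IsFrob v σ → χ σ = 1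

/-- the place `v` is unramified and inert in the quadratic extension -/
def Inert (v : HeightOneSpectrum (𝓞 K)) (χ : GK K →* ℤˣ) : Prop :=
  (∀ σ, IsInert v σ → χ σ = 1) ∧ ∀ σ, IsFrob v σ → χ σ = -1

/-- unramified places split or are inert -/
theorem split_or_inert {v : HeightOneSpectrum (𝓞 K)} {χ : GK K →* ℤˣ}
    (h : ∀ σ, IsInert v σ → χ σ = 1) : Split v χ ∨ Inert v χ := by
  obtain ⟨σ₀, hσ₀⟩ := (Pool.Agent.W401.Frob.main K).1 v
  have h1 : ∀ σ, IsFrob v σ → χ σ = χ σ₀ := by
    intro σ hσ
    obtain ⟨g, i, hi, rfl⟩ := (Pool.Agent.W401.Frob.main K).2.1 v σ₀ σ hσ₀ hσ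
    rw [map_mul, map_mul, map_mul, map_inv, h i hi, mul_one, mul_comm (χ g), mul_assoc,
      mul_inv_cancel, mul_one]
  rcases Int.units_eq_one_or (χ σ₀) with h2 | h2
  · left
    rintro σ (hσ | hσ)
    · exact h σ hσ
    · rw [h1 σ hσ, h2]
  · right
    exact ⟨h, fun σ hσ => by rw [h1 σ hσ, h2]⟩

theorem not_split_inert {v : HeightOneSpectrum (𝓞 K)} {χ : GK K →* ℤˣ} (h : Split v χ)
    (h' : Inert v χ) : False := by
  obtain ⟨σ₀, hσ₀⟩ := (Pool.Agent.W401.Frob.main K).1 v
  have h1 := h σ₀ (Or.inr hσ₀)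
  rw [h'.2 σ₀ hσ₀] at h1
  exact absurd h1 (by decide)

/-- quadratic characters of the absolute Galois group: quadratic extensions of `K` -/
def IsQuad (χ : GK K →* ℤˣ) : Prop := IsOpen (χ.ker : Set (GK K)) ∧ χ ≠ 1

variable (K) in
/-- the automorphic representations of the groups `GL_m(A_K)`, `m ≥ 1`, and of the groups
`GL_m(A_E)`, `E` a quadratic extension of `K`, formally: their data -/
structure AutRep where
  /-- the cuspidal automorphic representations over `K`, up to isomorphism; the isobaric ones are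
  the elements of `X →₀ ℕ` -/
  X : Type
  /-- the rank `m` -/
  deg : X → ℕ
  /-- the Satake parameters of the local component at `v`, if it is unramified -/
  par : X → HeightOneSpectrum (𝓞 K) → Option (Multiset ℂ)
  /-- the twist by the Hecke character of a quadratic character -/
  tw : (GK K →* ℤˣ) → X → X
  /-- the Galois-invariant isobaric automorphic representations over the quadratic extension `E` of
  `K` attached to `χ` -/
  Y : (GK K →* ℤˣ) → Type
  /-- the rank -/
  degE : ∀ χ, Y χ → ℕ
  /-- for `v` unramified in `E`, the Satake parameters of the local components at the places of `E`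
  above `v`, if they are unramified -/
  parE : ∀ χ, Y χ → HeightOneSpectrum (𝓞 K) → Option (Multiset ℂ)
  /-- the base change from `K` to `E` -/
  bc : ∀ χ, (X →₀ ℕ) → Y χ

namespace AutRep

variable (T : AutRep K)

/-- the rank of the isobaric sum of the `x`, each taken `F x` times -/
noncomputable def rk (F : T.X →₀ ℕ) : ℕ := F.sum fun x a => a * T.deg x

/-- the Satake parameters of the local component at `v` of the isobaric sum of the `x`, each taken
`F x` times, if it is unramified -/
noncomputable def sat (F : T.X →₀ ℕ) (v : HeightOneSpectrum (𝓞 K)) : Option (Multiset ℂ) := by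
  classical
  exact if ∀ x ∈ F.support, T.par x v ≠ none then some (F.sum fun x a => a • (T.par x v).getD 0)
    else none

/-- known facts: ramification; strong multiplicity one over `K` and over the quadratic extensions
(Jacquet and Shalika); twists; the local description and the image of the quadratic base change,
and the groups of quadratic self-twists (Arthur and Clozel) -/
structure Known : Prop where
  deg_pos : ∀ x, 0 < T.deg x
  card_par : ∀ x v M, T.par x v = some M → Multiset.card M = T.deg x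
  finite_ram : ∀ x, {v | T.par x v = none}.Finite
  mult_one : ∀ F F' : T.X →₀ ℕ, {v | T.sat F v ≠ T.sat F' v}.Finite → F = F'
  deg_tw : ∀ χ : GK K →* ℤˣ, IsOpen (χ.ker : Set (GK K)) → ∀ x, T.deg (T.tw χ x) = T.deg x
  tw_mul : ∀ χ χ' : GK K →* ℤˣ, IsOpen (χ.ker : Set (GK K)) → IsOpen (χ'.ker : Set (GK K)) →
    ∀ x, T.tw (χ * χ') x = T.tw χ (T.tw χ' x)
  tw_split : ∀ χ : GK K →* ℤˣ, IsOpen (χ.ker : Set (GK K)) → ∀ v, Split v χ → ∀ x,
    T.par (T.tw χ x) v = T.par x v
  tw_inert : ∀ χ : GK K →* ℤˣ, IsOpen (χ.ker : Set (GK K)) → ∀ v, Inert v χ → ∀ x,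
    T.par (T.tw χ x) v = (T.par x v).map fun M => M.map fun a => -a
  self_twist : ∀ x, ∀ A : Subgroup (GK K →* ℤˣ),
    (∀ χ ∈ A, IsOpen (χ.ker : Set (GK K)) ∧ T.tw χ x = x) → Nat.card A ∣ T.deg x ^ 2
  mult_oneE : ∀ χ, IsQuad χ → ∀ y y' : T.Y χ,
    {v | (Split v χ ∨ Inert v χ) ∧ T.parE χ y v ≠ T.parE χ y' v}.Finite → y = y'
  bc_rk : ∀ χ, IsQuad χ → ∀ F, T.degE χ (T.bc χ F) = T.rk F
  bc_split : ∀ χ, IsQuad χ → ∀ v, Split v χ → ∀ F, T.parE χ (T.bc χ F) v = T.sat F v
  bc_inert : ∀ χ, IsQuad χ → ∀ v, Inert v χ → ∀ F,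
    T.parE χ (T.bc χ F) v = (T.sat F v).map fun M => M.map fun a => a ^ 2
  bc_surj : ∀ χ, IsQuad χ → ∀ y, ∃ F, T.bc χ F = y

variable {T}

theorem sat_eq_some {F : T.X →₀ ℕ} {v : HeightOneSpectrum (𝓞 K)} {M : Multiset ℂ} :
    T.sat F v = some M ↔ (∀ x ∈ F.support, T.par x v ≠ none) ∧
      (F.sum fun x a => a • (T.par x v).getD 0) = M := by
  classical
  unfold sat
  split_ifs with h
  · rw [Option.some_inj]
    exact ⟨fun h' => ⟨h, h'⟩, fun h' => h'.2⟩
  · exact ⟨fun h' => by simp at h', fun h' => absurd h'.1 h⟩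

/-- the sum of the parameters -/
noncomputable def ps (F : T.X →₀ ℕ) (v : HeightOneSpectrum (𝓞 K)) : Multiset ℂ :=
  F.sum fun x a => a • (T.par x v).getD 0

theorem ps_add (F F' : T.X →₀ ℕ) (v : HeightOneSpectrum (𝓞 K)) :
    ps (F + F') v = ps F v + ps F' v :=
  Finsupp.sum_add_index' (fun _ => zero_smul ℕ _) (fun _ _ _ => add_smul _ _ _)

theorem sat_ps {F : T.X →₀ ℕ} {v : HeightOneSpectrum (𝓞 K)}
    (h : ∀ x ∈ F.support, T.par x v ≠ none) : T.sat F v = some (ps F v) := sat_eq_some.2 ⟨h, rfl⟩

theorem ps_single (x : T.X) (n : ℕ) (v : HeightOneSpectrum (𝓞 K)) :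
    ps (Finsupp.single x n) v = n • (T.par x v).getD 0 := Finsupp.sum_single_index (zero_smul ℕ _)

theorem tw_one (hT : T.Known) (x : T.X) : T.tw 1 x = x := by
  have h1 : Finsupp.single (T.tw 1 x) 1 = Finsupp.single x 1 := by
    apply hT.mult_one
    have h2 : {v | T.sat (Finsupp.single (T.tw 1 x) 1) v ≠ T.sat (Finsupp.single x 1) v} = ∅ := by
      ext v
      rw [Set.mem_setOf_eq]
      constructor
      · intro h
        exfalso
        apply h
        have h3 : T.par (T.tw 1 x) v = T.par x v := hT.tw_split 1 (by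
          have : ((1 : GK K →* ℤˣ).ker : Set (GK K)) = Set.univ := by
            ext σ
            simp
          rw [this]
          exact isOpen_univ) v (fun σ _ => rfl) x
        classical
        have h4 := ps_single (T.tw 1 x) 1 v
        have h5 := ps_single x 1 v
        unfold ps at h4 h5
        unfold sat
        rw [Finsupp.support_single_ne_zero _ one_ne_zero,
          Finsupp.support_single_ne_zero _ one_ne_zero, h4, h5]
        simp only [Finset.mem_singleton, forall_eq, h3]
      · intro h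
        exact absurd h (Set.notMem_empty v)
    rw [h2]
    exact Set.finite_empty
  exact Finsupp.single_left_injective one_ne_zero h1

theorem tw_tw (hT : T.Known) {χ : GK K →* ℤˣ} (hχ : IsOpen (χ.ker : Set (GK K))) (x : T.X) :
    T.tw χ (T.tw χ x) = x := by
  rw [← hT.tw_mul χ χ hχ hχ]
  have : χ * χ = 1 := MonoidHom.ext fun σ => by
    rw [MonoidHom.mul_apply, Int.units_mul_self, MonoidHom.one_apply]
  rw [this, tw_one hT]

/-- the twist of an isobaric representation -/
noncomputable def twF (χ : GK K →* ℤˣ) (F : T.X →₀ ℕ) : T.X →₀ ℕ := F.mapDomain (T.tw χ)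

theorem twF_apply (hT : T.Known) {χ : GK K →* ℤˣ} (hχ : IsOpen (χ.ker : Set (GK K)))
    (F : T.X →₀ ℕ) (x : T.X) : twF χ F x = F (T.tw χ x) := by
  have h1 : x = T.tw χ (T.tw χ x) := (tw_tw hT hχ x).symm
  conv_lhs => rw [h1]
  refine Finsupp.mapDomain_apply ?_ F _
  intro a b h
  rw [← tw_tw hT hχ a, h, tw_tw hT hχ]

theorem supp_twF (hT : T.Known) {χ : GK K →* ℤˣ} (hχ : IsOpen (χ.ker : Set (GK K)))
    {F : T.X →₀ ℕ} {x : T.X} (hx : x ∈ (twF χ F).support) : T.tw χ x ∈ F.support := by
  rw [Finsupp.mem_support_iff] at hx ⊢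
  rwa [twF_apply hT hχ] at hx

/-- multiplication by a sign -/
def sm (a : ℤˣ) (M : Multiset ℂ) : Multiset ℂ := M.map fun x => ((a : ℤ) : ℂ) * x

theorem sm_one (M : Multiset ℂ) : sm 1 M = M := by
  unfold sm
  conv_rhs => rw [← Multiset.map_id M]
  exact Multiset.map_congr rfl fun a _ => by simp

theorem sm_neg (M : Multiset ℂ) : sm (-1) M = ng M := by
  unfold sm ng
  exact Multiset.map_congr rfl fun a _ => by simp

theorem sm_add (a : ℤˣ) (M N : Multiset ℂ) : sm a (M + N) = sm a M + sm a N :=
  Multiset.map_add _ _ _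

theorem sm_sm (a b : ℤˣ) (M : Multiset ℂ) : sm a (sm b M) = sm (a * b) M := by
  unfold sm
  rw [Multiset.map_map]
  exact Multiset.map_congr rfl fun x _ => by
    rw [Function.comp_apply, Units.val_mul, Int.cast_mul, mul_assoc]

/-- `χ` is unramified at `v` with value `a` -/
def Val (v : HeightOneSpectrum (𝓞 K)) (χ : GK K →* ℤˣ) (a : ℤˣ) : Prop :=
  (∀ σ, IsInert v σ → χ σ = 1) ∧ ∀ σ, IsFrob v σ → χ σ = a

theorem val_one {v : HeightOneSpectrum (𝓞 K)} {χ : GK K →* ℤˣ} : Val v χ 1 ↔ Split v χ :=
  ⟨fun h σ hσ => hσ.elim (h.1 σ) (h.2 σ), fun h => ⟨fun σ hσ => h σ (Or.inl hσ),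
    fun σ hσ => h σ (Or.inr hσ)⟩⟩

theorem exists_val {v : HeightOneSpectrum (𝓞 K)} {χ : GK K →* ℤˣ}
    (h : ∀ σ, IsInert v σ → χ σ = 1) : ∃ a, Val v χ a := by
  rcases split_or_inert h with h1 | h1
  · exact ⟨1, val_one.2 h1⟩
  · exact ⟨-1, h1⟩

theorem par_val (hT : T.Known) {χ : GK K →* ℤˣ} (hχ : IsOpen (χ.ker : Set (GK K)))
    {v : HeightOneSpectrum (𝓞 K)} {a : ℤˣ} (h : Val v χ a) (x : T.X) :
    T.par (T.tw χ x) v = (T.par x v).map (sm a) := by
  rcases Int.units_eq_one_or a with rfl | rfl
  · rw [hT.tw_split χ hχ v (val_one.1 h)]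
    cases T.par x v with
    | none => rfl
    | some M => rw [Option.map_some, sm_one]
  · rw [hT.tw_inert χ hχ v h]
    cases T.par x v with
    | none => rfl
    | some M =>
      rw [Option.map_some, Option.map_some, sm_neg]
      rfl

theorem par_ne_none (hT : T.Known) {χ : GK K →* ℤˣ} (hχ : IsOpen (χ.ker : Set (GK K)))
    {v : HeightOneSpectrum (𝓞 K)} {a : ℤˣ} (h : Val v χ a) {x : T.X} :
    T.par (T.tw χ x) v ≠ none ↔ T.par x v ≠ none := by
  rw [par_val hT hχ h]
  cases T.par x v with
  | none => simp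
  | some M => simp

theorem ps_twF (hT : T.Known) {χ : GK K →* ℤˣ} (hχ : IsOpen (χ.ker : Set (GK K)))
    {v : HeightOneSpectrum (𝓞 K)} {a : ℤˣ} (h : Val v χ a) (F : T.X →₀ ℕ) :
    ps (twF χ F) v = sm a (ps F v) := by
  induction F using Finsupp.induction_linear with
  | zero =>
    unfold twF ps
    rw [Finsupp.mapDomain_zero, Finsupp.sum_zero_index]
    rfl
  | add F F' hF hF' =>
    unfold twF at hF hF' ⊢
    rw [Finsupp.mapDomain_add, ps_add, ps_add, hF, hF', sm_add]
  | single x n =>
    unfold twF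
    rw [Finsupp.mapDomain_single, ps_single, ps_single, par_val hT hχ h]
    cases T.par x v with
    | none =>
      rw [Option.map_none, Option.getD_none, smul_zero]
      rfl
    | some M =>
      rw [Option.map_some, Option.getD_some, Option.getD_some]
      exact (Multiset.map_nsmul _ _ _).symm

/-- the degree of an isobaric representation is the number of its Satake parameters -/
theorem card_ps (hT : T.Known) {F : T.X →₀ ℕ} {v : HeightOneSpectrum (𝓞 K)}
    (h : ∀ x ∈ F.support, T.par x v ≠ none) :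
    Multiset.card (ps F v) = T.rk F := by
  unfold ps rk
  rw [Finsupp.sum, Multiset.card_sum, Finsupp.sum]
  refine Finset.sum_congr rfl fun x hx => ?_
  obtain ⟨M, hM⟩ := Option.ne_none_iff_exists'.1 (h x hx)
  rw [Multiset.card_nsmul, hM, Option.getD_some, hT.card_par x v M hM]

end AutRep

end Pool.Agent.Q15.GRA
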