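import Pool.Agent.Q15.GRA1

/-!
# Quadratic patching of automorphic representations
-/

set_option autoImplicit false
set_option linter.style.haveILetI false

namespace Pool.Agent.Q15.GRA

open NumberField IsDedekindDomain Finset
open Pool.Agent.W401.Cheb

namespace AutRep

variable {K : Type} [Field K] [NumberField K] {T : AutRep K}

theorem rk_add (F F' : T.X →₀ ℕ) : T.rk (F + F') = T.rk F + T.rk F' :=
  Finsupp.sum_add_index' (fun _ => zero_mul _) (fun _ _ _ => add_mul _ _ _)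

theorem rk_twF (hT : T.Known) {χ : GK K →* ℤˣ} (hχ : IsOpen (χ.ker : Set (GK K)))
    (F : T.X →₀ ℕ) : T.rk (twF χ F) = T.rk F := by
  unfold rk twF
  rw [Finsupp.sum_mapDomain_index (fun _ => zero_mul _) (fun _ _ _ => add_mul _ _ _)]
  refine Finset.sum_congr rfl fun x _ => ?_
  change F x * T.deg (T.tw χ x) = F x * T.deg x
  rw [hT.deg_tw χ hχ]

theorem le_rk (F : T.X →₀ ℕ) (s : Finset T.X) : ∑ x ∈ s, F x * T.deg x ≤ T.rk F := by
  classical
  unfold rk
  rw [Finsupp.sum]
  have h1 : ∑ x ∈ s, F x * T.deg x = ∑ x ∈ s ∩ F.support, F x * T.deg x := by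
    symm
    refine Finset.sum_subset Finset.inter_subset_left fun x hx hx' => ?_
    have h2 : F x = 0 := by
      by_contra h3
      exact hx' (Finset.mem_inter.2 ⟨hx, Finsupp.mem_support_iff.2 h3⟩)
    rw [h2, zero_mul]
  rw [h1]
  exact Finset.sum_le_sum_of_subset Finset.inter_subset_right

/-- the Satake parameters of the sum with the twist -/
theorem sat_add_tw (hT : T.Known) {χ : GK K →* ℤˣ} (hχ : IsOpen (χ.ker : Set (GK K)))
    {v : HeightOneSpectrum (𝓞 K)} {a : ℤˣ} (h : Val v χ a) (F : T.X →₀ ℕ) :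
    T.sat (F + twF χ F) v = (T.sat F v).map fun M => M + sm a M := by
  classical
  by_cases h1 : ∀ x ∈ F.support, T.par x v ≠ none
  · rw [sat_ps h1, Option.map_some, ← ps_twF hT hχ h, ← ps_add]
    apply sat_ps
    intro x hx
    have h2 : (F + twF χ F) x ≠ 0 := Finsupp.mem_support_iff.1 hx
    rw [Finsupp.add_apply, twF_apply hT hχ] at h2
    rcases Nat.eq_zero_or_pos (F x) with h3 | h3
    · have h4 : F (T.tw χ x) ≠ 0 := by omega
      exact (par_ne_none hT hχ h).1 (h1 _ (Finsupp.mem_support_iff.2 h4))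
    · exact h1 x (Finsupp.mem_support_iff.2 h3.ne')
  · have h2 : T.sat F v = none := by
      unfold sat
      rw [if_neg h1]
    rw [h2, Option.map_none]
    unfold sat
    rw [if_neg]
    intro h3
    apply h1
    intro x hx
    apply h3 x
    rw [Finsupp.mem_support_iff, Finsupp.add_apply]
    have h4 : F x ≠ 0 := Finsupp.mem_support_iff.1 hx
    omega

/-- the unramified local meaning of equality of base changes -/
theorem loc_iff (hT : T.Known) {χ : GK K →* ℤˣ} (hχ : IsQuad χ)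
    {v : HeightOneSpectrum (𝓞 K)} {a : ℤˣ} (h : Val v χ a) (F F' : T.X →₀ ℕ) :
    T.sat (F + twF χ F) v = T.sat (F' + twF χ F') v ↔
      T.parE χ (T.bc χ F) v = T.parE χ (T.bc χ F') v := by
  rw [sat_add_tw hT hχ.1 h, sat_add_tw hT hχ.1 h]
  rcases Int.units_eq_one_or a with rfl | rfl
  · rw [hT.bc_split χ hχ v (val_one.1 h), hT.bc_split χ hχ v (val_one.1 h)]
    have hinj : Function.Injective fun M : Multiset ℂ => M + sm 1 M := by
      intro M N hMN
      have h1 : M + sm 1 M = N + sm 1 N := hMN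
      rw [sm_one, sm_one] at h1
      exact two_inj h1
    exact ⟨fun h' => Option.map_injective hinj h', fun h' => by rw [h']⟩
  · rw [hT.bc_inert χ hχ v h, hT.bc_inert χ hχ v h]
    have key : ∀ M N : Multiset ℂ, M + sm (-1) M = N + sm (-1) N ↔ sq M = sq N := by
      intro M N
      rw [sm_neg, sm_neg]
      exact add_ng_iff
    cases hF : T.sat F v with
    | none =>
      cases hF' : T.sat F' v with
      | none => exact ⟨fun _ => rfl, fun _ => rfl⟩
      | some N => simp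
    | some M =>
      cases hF' : T.sat F' v with
      | none => simp
      | some N =>
        rw [Option.map_some, Option.map_some, Option.map_some, Option.map_some, Option.some_inj,
          Option.some_inj]
        exact key M N

theorem ram_finite {χ : GK K →* ℤˣ} (hχ : IsOpen (χ.ker : Set (GK K))) :
    {v : HeightOneSpectrum (𝓞 K) | ¬ (Split v χ ∨ Inert v χ)}.Finite := by
  refine (GR.finite_ramified χ.ker hχ).subset ?_
  intro v hv
  rw [Set.mem_setOf_eq] at hv ⊢
  by_contra h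
  apply hv
  apply split_or_inert
  intro σ hσ
  by_contra h1
  exact h ⟨σ, hσ, h1⟩

theorem val_of {v : HeightOneSpectrum (𝓞 K)} {χ : GK K →* ℤˣ} (h : Split v χ ∨ Inert v χ) :
    ∃ a, Val v χ a := by
  rcases h with h | h
  · exact ⟨1, val_one.2 h⟩
  · exact ⟨-1, h⟩

/-- equality of base changes -/
theorem bc_eq_iff (hT : T.Known) {χ : GK K →* ℤˣ} (hχ : IsQuad χ) (F F' : T.X →₀ ℕ) :
    T.bc χ F = T.bc χ F' ↔ F + twF χ F = F' + twF χ F' := by
  constructor
  · intro h
    apply hT.mult_one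
    refine (ram_finite hχ.1).subset ?_
    intro v hv
    rw [Set.mem_setOf_eq] at hv ⊢
    intro h1
    obtain ⟨a, ha⟩ := val_of h1
    exact hv ((loc_iff hT hχ ha F F').2 (by rw [h]))
  · intro h
    apply hT.mult_oneE χ hχ
    refine Set.finite_empty.subset ?_
    rintro v ⟨h1, h2⟩
    obtain ⟨a, ha⟩ := val_of h1
    exact absurd ((loc_iff hT hχ ha F F').1 (by rw [h])) h2

/-- `P` has over `E` the parameters prescribed by `D` at `v`: those of the lifting -/
def LocE (T : AutRep K) (χ : GK K →* ℤˣ) (P : T.Y χ) (D : Multiset ℂ)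
    (v : HeightOneSpectrum (𝓞 K)) : Prop :=
  (Split v χ → T.parE χ P v = some D) ∧
    (Inert v χ → T.parE χ P v = some (D.map fun a => a ^ 2))

theorem locW (hT : T.Known) {χ : GK K →* ℤˣ} (hχ : IsQuad χ) {v : HeightOneSpectrum (𝓞 K)}
    {a : ℤˣ} (h : Val v χ a) {D : Multiset ℂ} {F : T.X →₀ ℕ} (hF : LocE T χ (T.bc χ F) D v) :
    T.sat (F + twF χ F) v = some (D + sm a D) := by
  rw [sat_add_tw hT hχ.1 h]
  rcases Int.units_eq_one_or a with rfl | rfl
  · have h1 := hF.1 (val_one.1 h)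
    rw [hT.bc_split χ hχ v (val_one.1 h)] at h1
    rw [h1, Option.map_some]
  · have h1 := hF.2 h
    rw [hT.bc_inert χ hχ v h] at h1
    cases hM : T.sat F v with
    | none =>
      rw [hM] at h1
      simp at h1
    | some M =>
      rw [hM, Option.map_some, Option.some_inj] at h1
      rw [Option.map_some, Option.some_inj, sm_neg, sm_neg]
      exact add_ng_iff.2 h1

theorem rel_of (hT : T.Known) {χ χ' : GK K →* ℤˣ} (hχ : IsQuad χ) (hχ' : IsQuad χ')
    {D : HeightOneSpectrum (𝓞 K) → Multiset ℂ} {F F' : T.X →₀ ℕ}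
    (hF : {v | ¬ LocE T χ (T.bc χ F) (D v) v}.Finite)
    (hF' : {v | ¬ LocE T χ' (T.bc χ' F') (D v) v}.Finite) :
    (F + twF χ F) + twF χ' (F + twF χ F) = (F' + twF χ' F') + twF χ (F' + twF χ' F') := by
  apply hT.mult_one
  refine (((ram_finite hχ.1).union (ram_finite hχ'.1)).union (hF.union hF')).subset ?_
  intro v hv
  rw [Set.mem_setOf_eq] at hv
  by_contra h1
  rw [Set.mem_union, Set.mem_union, Set.mem_union, not_or, not_or, not_or, Set.mem_setOf_eq,
    Set.mem_setOf_eq, Set.mem_setOf_eq, Set.mem_setOf_eq, not_not, not_not, not_not, not_not] at h1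
  obtain ⟨⟨h2, h3⟩, h4, h5⟩ := h1
  obtain ⟨a, ha⟩ := val_of h2
  obtain ⟨b, hb⟩ := val_of h3
  apply hv
  rw [sat_add_tw hT hχ'.1 hb, sat_add_tw hT hχ.1 ha (F' + twF χ' F'), locW hT hχ ha h4,
    locW hT hχ' hb h5, Option.map_some, Option.map_some, sm_add, sm_add, sm_sm, sm_sm,
    mul_comm b a]
  congr 1
  abel

/-- the subgroup generated by finitely many quadratic characters -/
theorem open_closure {s : Set (GK K →* ℤˣ)} (hs : ∀ χ ∈ s, IsOpen (χ.ker : Set (GK K)))
    {b : GK K →* ℤˣ} (hb : b ∈ Subgroup.closure s) : IsOpen (b.ker : Set (GK K)) := by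
  have hmono : ∀ {U V : Subgroup (GK K)}, IsOpen (U : Set (GK K)) → U ≤ V →
      IsOpen (V : Set (GK K)) := fun hU h => Subgroup.isOpen_mono h hU
  induction hb using Subgroup.closure_induction with
  | mem x hx => exact hs x hx
  | one =>
    have : ((1 : GK K →* ℤˣ).ker : Set (GK K)) = Set.univ := by
      ext σ
      simp
    rw [this]
    exact isOpen_univ
  | mul x y _ _ hx hy =>
    have h1 : IsOpen ((x.ker ⊓ y.ker : Subgroup (GK K)) : Set (GK K)) := hx.inter hy
    refine hmono h1 ?_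
    rintro σ ⟨h2, h3⟩
    rw [MonoidHom.mem_ker, MonoidHom.mul_apply]
    have h2' : x σ = 1 := h2
    have h3' : y σ = 1 := h3
    rw [h2', h3', one_mul]
  | inv x _ hx =>
    refine hmono hx ?_
    intro σ h2
    have h2' : x σ = 1 := h2
    rw [MonoidHom.mem_ker, MonoidHom.inv_apply, h2', inv_one]

theorem mul_self_char (b : GK K →* ℤˣ) : b * b = 1 := MonoidHom.ext fun σ => by
  rw [MonoidHom.mul_apply, Int.units_mul_self, MonoidHom.one_apply]

theorem finite_closure (s : Finset (GK K →* ℤˣ)) :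
    Finite (Subgroup.closure (s : Set (GK K →* ℤˣ))) := by
  haveI : Group.FG (Subgroup.closure (s : Set (GK K →* ℤˣ))) :=
    (Group.fg_iff_subgroup_fg _).2 ⟨s, rfl⟩
  refine CommGroup.finite_of_fg_torsion _ ?_
  intro b
  rw [isOfFinOrder_iff_pow_eq_one]
  refine ⟨2, by norm_num, ?_⟩
  apply Subtype.ext
  rw [Subgroup.coe_pow, pow_two, mul_self_char]
  rfl

theorem gen_closure (s : Set (GK K →* ℤˣ)) :
    Subgroup.closure (Set.range fun i : s =>
      (⟨i.1, Subgroup.subset_closure i.2⟩ : Subgroup.closure s)) = ⊤ := by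
  have h1 := Subgroup.closure_closure_coe_preimage (k := s)
  rw [← h1]
  congr 1
  ext b
  constructor
  · rintro ⟨i, rfl⟩
    exact i.2
  · intro hb
    exact ⟨⟨b.1, hb⟩, rfl⟩

theorem stab_dvd (hT : T.Known) (s : Finset (GK K →* ℤˣ))
    (hs : ∀ χ ∈ s, IsOpen (χ.ker : Set (GK K))) (x : T.X) :
    Nat.card {b : Subgroup.closure (s : Set (GK K →* ℤˣ)) // T.tw b.1 x = x} ∣ T.deg x ^ 2 := by
  classical
  let A : Subgroup (GK K →* ℤˣ) :=
    { carrier := {χ | χ ∈ Subgroup.closure (s : Set (GK K →* ℤˣ)) ∧ T.tw χ x = x}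
      mul_mem' := fun {a b} ha hb => ⟨Subgroup.mul_mem _ ha.1 hb.1, by
        rw [hT.tw_mul a b (open_closure hs ha.1) (open_closure hs hb.1), hb.2, ha.2]⟩
      one_mem' := ⟨Subgroup.one_mem _, tw_one hT x⟩
      inv_mem' := fun {a} ha => ⟨Subgroup.inv_mem _ ha.1, by
        have h1 : a⁻¹ = a := inv_eq_of_mul_eq_one_left (mul_self_char a)
        rw [h1, ha.2]⟩ }
  have h1 := hT.self_twist x A (fun χ hχ => ⟨open_closure hs hχ.1, hχ.2⟩)
  have h2 : Nat.card A =
      Nat.card {b : Subgroup.closure (s : Set (GK K →* ℤˣ)) // T.tw b.1 x = x} :=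
    Nat.card_congr
      { toFun := fun a => ⟨⟨a.1, a.2.1⟩, a.2.2⟩
        invFun := fun b => ⟨b.1.1, b.1.2, b.2⟩
        left_inv := fun _ => rfl
        right_inv := fun _ => rfl }
  rwa [h2] at h1

/-- patching for finitely many quadratic extensions -/
theorem patch (hT : T.Known) (n : ℕ) (s : Finset (GK K →* ℤˣ)) (hs : ∀ χ ∈ s, IsQuad χ)
    (hcard : 2 ^ GRQ.rr n ≤ Nat.card (Subgroup.closure (s : Set (GK K →* ℤˣ))))
    (D : HeightOneSpectrum (𝓞 K) → Multiset ℂ) (f : (GK K →* ℤˣ) → T.X →₀ ℕ)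
    (hf : ∀ χ ∈ s, T.rk (f χ) ≤ n)
    (hD : ∀ χ ∈ s, {v | ¬ LocE T χ (T.bc χ (f χ)) (D v) v}.Finite) :
    ∃ F : T.X →₀ ℕ, ∀ χ ∈ s, F + twF χ F = f χ + twF χ (f χ) := by
  classical
  have hso : ∀ χ ∈ s, IsOpen (χ.ker : Set (GK K)) := fun χ hχ => (hs χ hχ).1
  haveI := finite_closure s
  obtain ⟨χ₀, hχ₀⟩ : s.Nonempty := by
    by_contra hne
    rw [Finset.not_nonempty_iff_eq_empty] at hne
    rw [hne] at hcard
    have h1 : Nat.card (Subgroup.closure ((∅ : Finset (GK K →* ℤˣ)) : Set (GK K →* ℤˣ))) = 1 := by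
      rw [Finset.coe_empty, Subgroup.closure_empty]
      exact Subgroup.card_bot
    rw [h1] at hcard
    have h2 : 1 < 2 ^ GRQ.rr n := Nat.one_lt_two_pow (by have := GRQ.le_rr n; omega)
    omega
  have hop : ∀ b : Subgroup.closure (s : Set (GK K →* ℤˣ)), IsOpen (b.1.ker : Set (GK K)) :=
    fun b => open_closure hso b.2
  obtain ⟨F, hF⟩ := GRQ.main (B := Subgroup.closure (s : Set (GK K →* ℤˣ)))
    (ι := (s : Set (GK K →* ℤˣ))) (X := T.X)
    (fun b x => T.tw b.1 x) (fun x => tw_one hT x)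
    (fun a b x => hT.tw_mul a.1 b.1 (hop a) (hop b) x)
    (fun b => Subtype.ext (mul_self_char b.1))
    (fun i => ⟨i.1, Subgroup.subset_closure i.2⟩) (gen_closure _)
    T.deg hT.deg_pos (fun b x => hT.deg_tw b.1 (hop b) x) (stab_dvd hT s hso) n hcard
    (fun i x => f i.1 x) (fun i t => (le_rk (f i.1) t).trans (hf i.1 i.2))
    (fun i x => f i.1 x + f i.1 (T.tw i.1 x)) (fun i x => rfl)
    (by
      intro i j x
      have h1 := rel_of hT (hs i.1 i.2) (hs j.1 j.2) (hD i.1 i.2) (hD j.1 j.2)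
      have h2 := DFunLike.congr_fun h1 x
      have e1 : ∀ χ ∈ s, ∀ (G : T.X →₀ ℕ) (y : T.X),
          (G + twF χ G) y = G y + G (T.tw χ y) := by
        intro χ hχ G y
        rw [Finsupp.add_apply, twF_apply hT (hso χ hχ)]
      rw [e1 j.1 j.2 (f i.1 + twF i.1 (f i.1)) x, e1 i.1 i.2 (f i.1) x,
        e1 i.1 i.2 (f i.1) (T.tw j.1 x), e1 i.1 i.2 (f j.1 + twF j.1 (f j.1)) x,
        e1 j.1 j.2 (f j.1) x, e1 j.1 j.2 (f j.1) (T.tw i.1 x)] at h2
      exact h2)
  have hfin : (Function.support F).Finite := by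
    refine (f χ₀ + twF χ₀ (f χ₀)).support.finite_toSet.subset ?_
    intro x hx
    rw [Finset.mem_coe, Finsupp.mem_support_iff, Finsupp.add_apply, twF_apply hT (hso χ₀ hχ₀)]
    have h1 := hF ⟨χ₀, hχ₀⟩ x
    rw [Function.mem_support] at hx
    change F x + F (T.tw χ₀ x) = f χ₀ x + f χ₀ (T.tw χ₀ x) at h1
    omega
  refine ⟨Finsupp.ofSupportFinite F hfin, fun χ hχ => ?_⟩
  ext x
  rw [Finsupp.add_apply, Finsupp.add_apply, twF_apply hT (hso χ hχ), twF_apply hT (hso χ hχ)]
  exact hF ⟨χ, hχ⟩ x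

/-- uniqueness -/
theorem patch_unique (hT : T.Known) (n : ℕ) (s : Finset (GK K →* ℤˣ)) (hs : ∀ χ ∈ s, IsQuad χ)
    (hcard : 2 ^ GRQ.rr n ≤ Nat.card (Subgroup.closure (s : Set (GK K →* ℤˣ))))
    (F F' : T.X →₀ ℕ) (hF : T.rk F ≤ n) (hF' : T.rk F' ≤ n)
    (h : ∀ χ ∈ s, F + twF χ F = F' + twF χ F') : F = F' := by
  classical
  have hso : ∀ χ ∈ s, IsOpen (χ.ker : Set (GK K)) := fun χ hχ => (hs χ hχ).1
  haveI := finite_closure s
  have hop : ∀ b : Subgroup.closure (s : Set (GK K →* ℤˣ)), IsOpen (b.1.ker : Set (GK K)) :=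
    fun b => open_closure hso b.2
  have h1 := GRQ.unique (B := Subgroup.closure (s : Set (GK K →* ℤˣ)))
    (ι := (s : Set (GK K →* ℤˣ))) (X := T.X)
    (fun b x => T.tw b.1 x) (fun x => tw_one hT x)
    (fun a b x => hT.tw_mul a.1 b.1 (hop a) (hop b) x)
    (fun b => Subtype.ext (mul_self_char b.1))
    (fun i => ⟨i.1, Subgroup.subset_closure i.2⟩) (gen_closure _)
    T.deg hT.deg_pos (fun b x => hT.deg_tw b.1 (hop b) x) (stab_dvd hT s hso) n hcard
    F F' (fun t => (le_rk F t).trans hF) (fun t => (le_rk F' t).trans hF')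
    (by
      intro i x
      have h2 := DFunLike.congr_fun (h i.1 i.2) x
      rw [Finsupp.add_apply, Finsupp.add_apply, twF_apply hT (hso i.1 i.2),
        twF_apply hT (hso i.1 i.2)] at h2
      exact h2)
  exact DFunLike.coe_injective h1

end AutRep

end Pool.Agent.Q15.GRA
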