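import Pool.Agent.Q15.GRA2

/-!
# Quadratic patching of automorphic representations: the main theorem
-/

set_option autoImplicit false
set_option linter.style.haveILetI false

namespace Pool.Agent.Q15.GRA

open NumberField IsDedekindDomain Finset
open Pool.Agent.W401.Cheb

section indep

variable {K : Type} [Field K] [NumberField K]

/-- independent quadratic characters -/
def Indep {m : ℕ} (ψ : Fin m → (GK K →* ℤˣ)) : Prop :=
  ∀ t : Finset (Fin m), ∏ k ∈ t, ψ k = 1 → t = ∅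

/-- sufficiently many quadratic characters, with `r = n + 2` (`r = n + 3` if `n = 2` or `n = 4`):
at least `2 ^ (r - 1)`, or `r` independent ones -/
def Large (n : ℕ) (E : Set (GK K →* ℤˣ)) : Prop :=
  ((2 ^ (GRQ.rr n - 1) : ℕ) : ℕ∞) ≤ E.encard ∨
    ∃ ψ : Fin (GRQ.rr n) → (GK K →* ℤˣ), (∀ k, ψ k ∈ E) ∧ Indep ψ

theorem pr_eq {m : ℕ} (ψ : Fin m → (GK K →* ℤˣ)) (v : Fin m → Bool) :
    GRQ.pr ψ v = ∏ k ∈ univ.filter (fun k => v k = true), ψ k := by
  unfold GRQ.pr
  rw [Finset.prod_filter]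

theorem pr_inj {m : ℕ} {ψ : Fin m → (GK K →* ℤˣ)} (h : Indep ψ) :
    Function.Injective (GRQ.pr ψ) := by
  intro u v huv
  have h1 : GRQ.pr ψ (fun k => xor (u k) (v k)) = 1 := by
    rw [GRQ.pr_xor (B := GK K →* ℤˣ) AutRep.mul_self_char, huv, AutRep.mul_self_char]
  rw [pr_eq] at h1
  have h2 := h _ h1
  funext k
  by_contra h3
  have h4 : k ∈ univ.filter (fun k => xor (u k) (v k) = true) := by
    rw [Finset.mem_filter]
    refine ⟨Finset.mem_univ k, ?_⟩
    cases hu : u k <;> cases hv : v k <;> simp_all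
  rw [h2] at h4
  exact absurd h4 (Finset.notMem_empty k)

theorem prod_inj {m : ℕ} {ψ : Fin m → (GK K →* ℤˣ)} (h : Indep ψ) {t t' : Finset (Fin m)}
    (htt : ∏ k ∈ t, ψ k = ∏ k ∈ t', ψ k) : t = t' := by
  classical
  have h1 : ∀ t : Finset (Fin m), GRQ.pr ψ (fun k => decide (k ∈ t)) = ∏ k ∈ t, ψ k := by
    intro t
    rw [pr_eq]
    refine Finset.prod_congr ?_ fun _ _ => rfl
    ext k
    simp
  have h2 := pr_inj h ((h1 t).trans (htt.trans (h1 t').symm))
  ext k
  have h3 := congrFun h2 k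
  simpa using h3

theorem large_fin {n : ℕ} {E : Set (GK K →* ℤˣ)} (hE : ∀ χ ∈ E, IsQuad χ)
    (h : Large n E) : ∃ s : Finset (GK K →* ℤˣ), (s : Set (GK K →* ℤˣ)) ⊆ E ∧
      2 ^ GRQ.rr n ≤ Nat.card (Subgroup.closure (s : Set (GK K →* ℤˣ))) := by
  classical
  have hrr := GRQ.le_rr n
  rcases h with h | ⟨ψ, hψ, hind⟩
  · obtain ⟨t, ht, htc⟩ := Set.exists_subset_encard_eq h
    have htf : t.Finite := Set.finite_of_encard_eq_coe htc
    refine ⟨htf.toFinset, by rw [Set.Finite.coe_toFinset]; exact ht, ?_⟩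
    haveI := AutRep.finite_closure htf.toFinset
    have hp : IsPGroup 2 (Subgroup.closure (htf.toFinset : Set (GK K →* ℤˣ))) := by
      intro b
      refine ⟨1, Subtype.ext ?_⟩
      rw [Subgroup.coe_pow, pow_one, pow_two, AutRep.mul_self_char]
      rfl
    obtain ⟨r, hr⟩ := IsPGroup.iff_card.1 hp
    have h1 : 2 ^ (GRQ.rr n - 1) + 1 ≤
        Nat.card (Subgroup.closure (htf.toFinset : Set (GK K →* ℤˣ))) := by
      have h2 : htf.toFinset.card = 2 ^ (GRQ.rr n - 1) := by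
        have h3 := htf.encard_eq_coe_toFinset_card
        rw [htc] at h3
        exact_mod_cast h3.symm
      have h4 : (insert 1 htf.toFinset).card = 2 ^ (GRQ.rr n - 1) + 1 := by
        rw [Finset.card_insert_of_notMem, h2]
        intro h5
        exact (hE 1 (ht (htf.mem_toFinset.1 h5))).2 rfl
      rw [← h4]
      have h6 : ((insert 1 htf.toFinset : Finset (GK K →* ℤˣ)) : Set (GK K →* ℤˣ)) ⊆
          (Subgroup.closure (htf.toFinset : Set (GK K →* ℤˣ)) : Set (GK K →* ℤˣ)) := by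
        intro χ hχ
        rw [Finset.coe_insert] at hχ
        rcases hχ with rfl | hχ
        · exact Subgroup.one_mem _
        · exact Subgroup.subset_closure hχ
      have h7 := Nat.card_mono (Set.toFinite _) h6
      rw [Nat.card_coe_set_eq, Set.ncard_coe_finset] at h7
      exact h7
    rw [hr] at h1 ⊢
    have h8 : GRQ.rr n ≤ r := by
      by_contra h9
      have h10 : (2 : ℕ) ^ r ≤ 2 ^ (GRQ.rr n - 1) := Nat.pow_le_pow_right (by norm_num) (by omega)
      omega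
    exact Nat.pow_le_pow_right (by norm_num) h8
  · refine ⟨univ.image ψ, ?_, ?_⟩
    · intro χ hχ
      rw [Finset.coe_image, Finset.coe_univ, Set.image_univ] at hχ
      obtain ⟨k, rfl⟩ := hχ
      exact hψ k
    · haveI := AutRep.finite_closure (univ.image ψ)
      have h1 : ∀ v : Fin (GRQ.rr n) → Bool,
          GRQ.pr ψ v ∈ Subgroup.closure ((univ.image ψ : Finset (GK K →* ℤˣ)) : Set (GK K →* ℤˣ)) := by
        intro v
        refine Subgroup.prod_mem _ fun k _ => ?_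
        split_ifs
        · apply Subgroup.subset_closure
          rw [Finset.mem_coe]
          exact Finset.mem_image_of_mem ψ (Finset.mem_univ k)
        · exact Subgroup.one_mem _
      have h2 := Nat.card_le_card_of_injective
        (fun v : Fin (GRQ.rr n) → Bool => (⟨GRQ.pr ψ v, h1 v⟩ :
          Subgroup.closure ((univ.image ψ : Finset (GK K →* ℤˣ)) : Set (GK K →* ℤˣ))))
        (fun u v h => pr_inj hind (congrArg Subtype.val h))
      rw [Nat.card_eq_fintype_card, Fintype.card_fun, Fintype.card_bool, Fintype.card_fin] at h2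
      exact h2

end indep

namespace AutRep

variable {K : Type} [Field K] [NumberField K] {T : AutRep K}

/-- the main theorem -/
theorem main (hT : T.Known) (n : ℕ) (E : Set (GK K →* ℤˣ)) (hE : ∀ χ ∈ E, IsQuad χ)
    (hL : Large n E) (D : HeightOneSpectrum (𝓞 K) → Multiset ℂ) (P : ∀ χ, T.Y χ)
    (hP : ∀ χ ∈ E, T.degE χ (P χ) = n ∧ {v | ¬ LocE T χ (P χ) (D v) v}.Finite) :
    ∃ F : T.X →₀ ℕ, (∀ F' : T.X →₀ ℕ, (∀ χ ∈ E, T.bc χ F' = P χ) ↔ F' = F) ∧ T.rk F = n := by
  classical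
  obtain ⟨s, hsE, hcard⟩ := large_fin hE hL
  have hf : ∀ χ, ∃ f : T.X →₀ ℕ, χ ∈ E → T.bc χ f = P χ := by
    intro χ
    by_cases hχ : χ ∈ E
    · obtain ⟨f, hf⟩ := hT.bc_surj χ (hE χ hχ) (P χ)
      exact ⟨f, fun _ => hf⟩
    · exact ⟨0, fun h => absurd h hχ⟩
  choose f hf using hf
  have hrk : ∀ χ ∈ E, T.rk (f χ) = n := by
    intro χ hχ
    rw [← hT.bc_rk χ (hE χ hχ), hf χ hχ]
    exact (hP χ hχ).1
  have hDf : ∀ χ ∈ E, {v | ¬ LocE T χ (T.bc χ (f χ)) (D v) v}.Finite := by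
    intro χ hχ
    rw [hf χ hχ]
    exact (hP χ hχ).2
  have hex : ∀ t : Finset (GK K →* ℤˣ), (t : Set (GK K →* ℤˣ)) ⊆ E →
      2 ^ GRQ.rr n ≤ Nat.card (Subgroup.closure (t : Set (GK K →* ℤˣ))) →
      ∃ F : T.X →₀ ℕ, ∀ χ ∈ t, F + twF χ F = f χ + twF χ (f χ) := by
    intro t htE htc
    exact patch hT n t (fun χ hχ => hE χ (htE hχ)) htc D f (fun χ hχ => (hrk χ (htE hχ)).le)
      (fun χ hχ => hDf χ (htE hχ))
  obtain ⟨χ₀, hχ₀⟩ : s.Nonempty := by
    by_contra hne
    rw [Finset.not_nonempty_iff_eq_empty] at hne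
    rw [hne] at hcard
    have h1 : Nat.card (Subgroup.closure ((∅ : Finset (GK K →* ℤˣ)) : Set (GK K →* ℤˣ))) = 1 := by
      rw [Finset.coe_empty, Subgroup.closure_empty]
      exact Subgroup.card_bot
    rw [h1] at hcard
    have h2 : 1 < 2 ^ GRQ.rr n := Nat.one_lt_two_pow (by have := GRQ.le_rr n; omega)
    omega
  have hrkF : ∀ F : T.X →₀ ℕ, (F + twF χ₀ F = f χ₀ + twF χ₀ (f χ₀)) → T.rk F = n := by
    intro F hF
    have h1 := congrArg T.rk hF
    rw [rk_add, rk_add, rk_twF hT (hE χ₀ (hsE hχ₀)).1, rk_twF hT (hE χ₀ (hsE hχ₀)).1,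
      hrk χ₀ (hsE hχ₀)] at h1
    omega
  obtain ⟨F, hF⟩ := hex s hsE hcard
  have hFn : T.rk F = n := hrkF F (hF χ₀ hχ₀)
  have hFE : ∀ χ ∈ E, F + twF χ F = f χ + twF χ (f χ) := by
    intro χ hχ
    have h1 : ((insert χ s : Finset (GK K →* ℤˣ)) : Set (GK K →* ℤˣ)) ⊆ E := by
      rw [Finset.coe_insert]
      exact Set.insert_subset hχ hsE
    haveI := finite_closure (insert χ s)
    have h2 : 2 ^ GRQ.rr n ≤
        Nat.card (Subgroup.closure ((insert χ s : Finset (GK K →* ℤˣ)) : Set (GK K →* ℤˣ))) := by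
      refine hcard.trans ?_
      refine Nat.card_mono (Set.toFinite _) ?_
      exact Subgroup.closure_mono (by
        rw [Finset.coe_insert]
        exact Set.subset_insert _ _)
    obtain ⟨F', hF'⟩ := hex (insert χ s) h1 h2
    have h3 : F = F' := by
      apply patch_unique hT n s (fun χ hχ => hE χ (hsE hχ)) hcard F F' hFn.le
      · exact (hrkF F' (hF' χ₀ (Finset.mem_insert_of_mem hχ₀))).le
      · intro χ' hχ'
        rw [hF χ' hχ', hF' χ' (Finset.mem_insert_of_mem hχ')]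
    rw [h3]
    exact hF' χ (Finset.mem_insert_self χ s)
  have hbc : ∀ χ ∈ E, T.bc χ F = P χ := by
    intro χ hχ
    rw [← hf χ hχ]
    exact (bc_eq_iff hT (hE χ hχ) F (f χ)).2 (hFE χ hχ)
  refine ⟨F, fun F' => ⟨fun h => ?_, fun h => by rw [h]; exact hbc⟩, hFn⟩
  have h4 : ∀ χ ∈ E, F' + twF χ F' = f χ + twF χ (f χ) := by
    intro χ hχ
    apply (bc_eq_iff hT (hE χ hχ) F' (f χ)).1
    rw [h χ hχ, hf χ hχ]
  symm
  apply patch_unique hT n s (fun χ hχ => hE χ (hsE hχ)) hcard F F' hFn.le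
  · exact (hrkF F' (h4 χ₀ (hsE hχ₀))).le
  · intro χ hχ
    rw [hFE χ (hsE hχ), h4 χ (hsE hχ)]

/-- the Satake parameters of the patched representation -/
theorem sat_of_split (hT : T.Known) {χ : GK K →* ℤˣ} (hχ : IsQuad χ) {F : T.X →₀ ℕ} {P : T.Y χ}
    (h : T.bc χ F = P) {v : HeightOneSpectrum (𝓞 K)} (hv : Split v χ) :
    T.sat F v = T.parE χ P v := by
  rw [← h, hT.bc_split χ hχ v hv]

/-- with a product, almost all places split somewhere -/
theorem almost_all (hT : T.Known) {χ χ' : GK K →* ℤˣ} (hχ : IsQuad χ) (hχ' : IsQuad χ')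
    (hχχ : IsQuad (χ * χ')) {F : T.X →₀ ℕ} {D : HeightOneSpectrum (𝓞 K) → Multiset ℂ}
    (h1 : {v | ¬ LocE T χ (T.bc χ F) (D v) v}.Finite)
    (h2 : {v | ¬ LocE T χ' (T.bc χ' F) (D v) v}.Finite)
    (h3 : {v | ¬ LocE T (χ * χ') (T.bc (χ * χ') F) (D v) v}.Finite) :
    {v | T.sat F v ≠ some (D v)}.Finite := by
  refine ((((ram_finite hχ.1).union (ram_finite hχ'.1)).union h1).union (h2.union h3)).subset ?_
  intro v hv
  by_contra h4
  have h5 : Split v χ ∨ Inert v χ := by_contra fun h => h4 (Or.inl (Or.inl (Or.inl h)))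
  have h6 : Split v χ' ∨ Inert v χ' := by_contra fun h => h4 (Or.inl (Or.inl (Or.inr h)))
  have h7 : LocE T χ (T.bc χ F) (D v) v := by_contra fun h => h4 (Or.inl (Or.inr h))
  have h8 : LocE T χ' (T.bc χ' F) (D v) v := by_contra fun h => h4 (Or.inr (Or.inl h))
  have h9 : LocE T (χ * χ') (T.bc (χ * χ') F) (D v) v := by_contra fun h => h4 (Or.inr (Or.inr h))
  apply hv
  rcases h5 with h5 | h5
  · rw [← hT.bc_split χ hχ v h5]
    exact h7.1 h5
  · rcases h6 with h6 | h6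
    · rw [← hT.bc_split χ' hχ' v h6]
      exact h8.1 h6
    · have h10 : Split v (χ * χ') := by
        rintro σ (hσ | hσ)
        · rw [MonoidHom.mul_apply, h5.1 σ hσ, h6.1 σ hσ, one_mul]
        · rw [MonoidHom.mul_apply, h5.2 σ hσ, h6.2 σ hσ]
          rfl
      rw [← hT.bc_split (χ * χ') hχχ v h10]
      exact h9.1 h10

end AutRep

end Pool.Agent.Q15.GRA
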