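import Pool.Agent.Q15.GRA3

/-!
# Quadratic patching of automorphic representations: `n + 1` quadratic extensions never suffice
-/

set_option autoImplicit false
set_option linter.style.haveILetI false

namespace Pool.Agent.Q15.GRA

open NumberField IsDedekindDomain Finset
open Pool.Agent.W401.Cheb

namespace AutRep

variable {K : Type} [Field K] [NumberField K] {T : AutRep K}

/-- twists of the trivial representation are distinct -/
theorem tw_triv_inj (hT : T.Known) {one : T.X} (hone : ∀ v, T.par one v = some {1})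
    {χ χ' : GK K →* ℤˣ} (hχ : IsOpen (χ.ker : Set (GK K))) (hχ' : IsOpen (χ'.ker : Set (GK K)))
    (h : T.tw χ one = T.tw χ' one) : χ = χ' := by
  by_contra hne
  have h1 : ∃ g, (χ * χ') g ≠ 1 := by
    by_contra hall
    push Not at hall
    apply hne
    ext g
    have h2 := hall g
    rw [MonoidHom.mul_apply] at h2
    have h3 : χ g = χ' g := by
      have h4 : χ g * χ' g * χ' g = χ' g := by rw [h2, one_mul]
      rw [mul_assoc, Int.units_mul_self, mul_one] at h4
      exact h4
    rw [h3]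
  obtain ⟨g, hg⟩ := h1
  have hop : IsOpen ((χ * χ').ker : Set (GK K)) := by
    have h1 : IsOpen ((χ.ker ⊓ χ'.ker : Subgroup (GK K)) : Set (GK K)) := hχ.inter hχ'
    refine Subgroup.isOpen_mono (H₁ := χ.ker ⊓ χ'.ker) (H₂ := (χ * χ').ker) ?_ h1
    rintro σ ⟨h2, h3⟩
    rw [MonoidHom.mem_ker, MonoidHom.mul_apply]
    have h2' : χ σ = 1 := h2
    have h3' : χ' σ = 1 := h3
    rw [h2', h3', one_mul]
  have hO : IsOpen {σ : GK K | (χ * χ') σ = (χ * χ') g} := by
    have h2 : {σ : GK K | (χ * χ') σ = (χ * χ') g} =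
        (fun σ => g⁻¹ * σ) ⁻¹' ((χ * χ').ker : Set (GK K)) := by
      ext σ
      rw [Set.mem_setOf_eq, Set.mem_preimage, SetLike.mem_coe, MonoidHom.mem_ker, map_mul, map_inv]
      constructor
      · intro h3
        rw [h3, inv_mul_cancel]
      · intro h3
        exact (inv_mul_eq_one.1 h3).symm
    rw [h2]
    exact hop.preimage (continuous_mul_left _)
  have hD := GR.frob_dense (K := K) _ ((ram_finite hop).union
    ((ram_finite hχ).union (ram_finite hχ')))
  obtain ⟨σ, hσ, v, hv, hvσ⟩ := hD.inter_open_nonempty _ hO ⟨g, rfl⟩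
  have h5 : Split v χ ∨ Inert v χ := by_contra fun h => hv (Or.inr (Or.inl h))
  have h6 : Split v χ' ∨ Inert v χ' := by_contra fun h => hv (Or.inr (Or.inr h))
  obtain ⟨a, ha⟩ := val_of h5
  obtain ⟨b, hb⟩ := val_of h6
  have h7 : T.par (T.tw χ one) v = T.par (T.tw χ' one) v := by rw [h]
  rw [par_val hT hχ ha, par_val hT hχ' hb, hone v, Option.map_some, Option.map_some,
    Option.some_inj] at h7
  unfold sm at h7
  rw [Multiset.map_singleton, Multiset.map_singleton, Multiset.singleton_inj, mul_one, mul_one]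
    at h7
  have h8 : a = b := by
    apply Units.ext
    exact_mod_cast h7
  apply hg
  have hσ' : (χ * χ') σ = (χ * χ') g := hσ
  rw [← hσ', MonoidHom.mul_apply, ha.2 σ hvσ, hb.2 σ hvσ, h8, Int.units_mul_self]

/-- the sum of the quadratic characters other than `ψ k` -/
noncomputable def Fk (one : T.X) {m : ℕ} (ψ : Fin m → (GK K →* ℤˣ)) (k : Fin m) : T.X →₀ ℕ :=
  ∑ j ∈ univ.erase k, Finsupp.single (T.tw (ψ j) one) 1

theorem rk_single (x : T.X) (a : ℕ) : T.rk (Finsupp.single x a) = a * T.deg x :=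
  Finsupp.sum_single_index (zero_mul _)

theorem rk_Fk (hT : T.Known) {one : T.X} (h1 : T.deg one = 1) {n : ℕ}
    (ψ : Fin (n + 1) → (GK K →* ℤˣ)) (hψ : ∀ k, IsQuad (ψ k)) (k : Fin (n + 1)) :
    T.rk (Fk one ψ k) = n := by
  classical
  have h2 : ∀ s : Finset (Fin (n + 1)), T.rk (∑ j ∈ s, Finsupp.single (T.tw (ψ j) one) 1) = s.card := by
    intro s
    induction s using Finset.induction_on with
    | empty =>
      rw [Finset.sum_empty, Finset.card_empty]
      exact Finsupp.sum_zero_index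
    | insert a s ha ih =>
      rw [Finset.sum_insert ha, rk_add, ih, rk_single, hT.deg_tw _ (hψ a).1, h1,
        Finset.card_insert_of_notMem ha]
      omega
  unfold Fk
  rw [h2, Finset.card_erase_of_mem (Finset.mem_univ k), Finset.card_univ, Fintype.card_fin]
  rfl

theorem mem_Fk {one : T.X} {m : ℕ} {ψ : Fin m → (GK K →* ℤˣ)} {k : Fin m} {x : T.X}
    (hx : Fk one ψ k x ≠ 0) : ∃ j, j ≠ k ∧ x = T.tw (ψ j) one := by
  classical
  unfold Fk at hx
  rw [Finsupp.finset_sum_apply] at hx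
  obtain ⟨j, hj, hjx⟩ := Finset.exists_ne_zero_of_sum_ne_zero hx
  refine ⟨j, Finset.ne_of_mem_erase hj, ?_⟩
  by_contra hne
  apply hjx
  rw [Finsupp.single_apply, if_neg (fun h => hne h.symm)]

theorem sat_Fk (hT : T.Known) {one : T.X} (hone : ∀ v, T.par one v = some {1}) {m : ℕ}
    {ψ : Fin m → (GK K →* ℤˣ)} (hψ : ∀ k, IsQuad (ψ k)) (k : Fin m)
    {v : HeightOneSpectrum (𝓞 K)} {a : Fin m → ℤˣ} (ha : ∀ j, Val v (ψ j) (a j)) :
    T.sat (Fk one ψ k) v = some (∑ j ∈ univ.erase k, {((a j : ℤ) : ℂ)}) := by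
  classical
  have hp : ∀ j, T.par (T.tw (ψ j) one) v = some {((a j : ℤ) : ℂ)} := by
    intro j
    rw [par_val hT (hψ j).1 (ha j), hone v, Option.map_some]
    unfold sm
    rw [Multiset.map_singleton, mul_one]
  rw [sat_ps]
  · congr 1
    have h2 : ∀ s : Finset (Fin m), ps (∑ j ∈ s, Finsupp.single (T.tw (ψ j) one) 1) v =
        ∑ j ∈ s, {((a j : ℤ) : ℂ)} := by
      intro s
      induction s using Finset.induction_on with
      | empty => exact Finsupp.sum_zero_index
      | insert b s hb ih =>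
        rw [Finset.sum_insert hb, Finset.sum_insert hb, ps_add, ih, ps_single, one_smul, hp b,
          Option.getD_some]
    exact h2 _
  · intro x hx
    obtain ⟨j, -, rfl⟩ := mem_Fk (Finsupp.mem_support_iff.1 hx)
    rw [hp j]
    exact Option.some_ne_none _

theorem IsQuad.unit_sq (u : ℤˣ) : (((u : ℤ) : ℂ)) ^ 2 = 1 := by
  have h1 : ((u : ℤ)) ^ 2 = 1 := by
    rw [← Units.val_pow_eq_pow_val, pow_two, Int.units_mul_self, Units.val_one]
  exact_mod_cast congrArg (fun z : ℤ => (z : ℂ)) h1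

/-- `n + 1` independent quadratic extensions never suffice, `n ≥ 2` -/
theorem sharp (hT : T.Known) {n : ℕ} (hn : 2 ≤ n) {one : T.X} (h1 : T.deg one = 1)
    (hone : ∀ v, T.par one v = some {1}) (ψ : Fin (n + 1) → (GK K →* ℤˣ))
    (hψ : ∀ k, IsQuad (ψ k)) (hind : Indep ψ) :
    ∃ (D : HeightOneSpectrum (𝓞 K) → Multiset ℂ) (P : ∀ k, T.Y (ψ k)),
      (∀ k, T.degE (ψ k) (P k) = n ∧ {v | ¬ LocE T (ψ k) (P k) (D v) v}.Finite) ∧
      ¬ ∃ F : T.X →₀ ℕ, ∀ k, T.bc (ψ k) F = P k := by
  classical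
  have hκ : ∀ v : HeightOneSpectrum (𝓞 K), ∃ κ : Fin (n + 1),
      (∃ k, Split v (ψ k)) → Split v (ψ κ) := by
    intro v
    by_cases h : ∃ k, Split v (ψ k)
    · obtain ⟨k, hk⟩ := h
      exact ⟨k, fun _ => hk⟩
    · exact ⟨0, fun h' => absurd h' h⟩
  choose κ hκ using hκ
  refine ⟨fun v => (T.sat (Fk one ψ (κ v)) v).getD 0, fun k => T.bc (ψ k) (Fk one ψ k),
    fun k => ⟨?_, ?_⟩, ?_⟩
  · rw [hT.bc_rk _ (hψ k), rk_Fk hT h1 ψ hψ]
  · have hfin : {v : HeightOneSpectrum (𝓞 K) | ∃ j, ¬ (Split v (ψ j) ∨ Inert v (ψ j))}.Finite := by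
      have h2 : {v : HeightOneSpectrum (𝓞 K) | ∃ j, ¬ (Split v (ψ j) ∨ Inert v (ψ j))} =
          ⋃ j, {v | ¬ (Split v (ψ j) ∨ Inert v (ψ j))} := by
        ext v
        rw [Set.mem_iUnion]
        rfl
      rw [h2]
      exact Set.finite_iUnion fun j => ram_finite (hψ j).1
    refine hfin.subset ?_
    intro v hv
    rw [Set.mem_setOf_eq] at hv ⊢
    by_contra hall
    push Not at hall
    apply hv
    have h2 : ∀ j, ∃ a, Val v (ψ j) a := fun j => val_of (hall j)
    choose a ha using h2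
    have hD : (T.sat (Fk one ψ (κ v)) v).getD 0 =
        ∑ j ∈ univ.erase (κ v), {((a j : ℤ) : ℂ)} := by
      rw [sat_Fk hT hone hψ (κ v) ha, Option.getD_some]
    change LocE T (ψ k) (T.bc (ψ k) (Fk one ψ k)) ((T.sat (Fk one ψ (κ v)) v).getD 0) v
    rw [hD]
    constructor
    · intro hs
      have hs' : Split v (ψ (κ v)) := hκ v ⟨k, hs⟩
      rw [hT.bc_split _ (hψ k) v hs, sat_Fk hT hone hψ k ha]
      congr 1
      have hak : a k = 1 := by
        obtain ⟨σ₀, hσ₀⟩ := (Pool.Agent.W401.Frob.main K).1 v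
        rw [← (ha k).2 σ₀ hσ₀]
        exact hs σ₀ (Or.inr hσ₀)
      have haκ : a (κ v) = 1 := by
        obtain ⟨σ₀, hσ₀⟩ := (Pool.Agent.W401.Frob.main K).1 v
        rw [← (ha (κ v)).2 σ₀ hσ₀]
        exact hs' σ₀ (Or.inr hσ₀)
      have h3 := Finset.add_sum_erase (univ : Finset (Fin (n + 1)))
        (fun j => ({((a j : ℤ) : ℂ)} : Multiset ℂ)) (Finset.mem_univ k)
      have h4 := Finset.add_sum_erase (univ : Finset (Fin (n + 1)))
        (fun j => ({((a j : ℤ) : ℂ)} : Multiset ℂ)) (Finset.mem_univ (κ v))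
      rw [← h4] at h3
      rw [hak, haκ] at h3
      exact add_left_cancel h3
    · intro hi
      rw [hT.bc_inert _ (hψ k) v hi, sat_Fk hT hone hψ k ha, Option.map_some]
      congr 1
      have h5 : ∀ s : Finset (Fin (n + 1)),
          (∑ j ∈ s, ({((a j : ℤ) : ℂ)} : Multiset ℂ)).map (fun z => z ^ 2) =
            s.card • ({1} : Multiset ℂ) := by
        intro s
        induction s using Finset.induction_on with
        | empty => simp
        | insert b s hb ih =>
          rw [Finset.sum_insert hb, Multiset.map_add, ih, Multiset.map_singleton, IsQuad.unit_sq,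
            Finset.card_insert_of_notMem hb, add_smul, one_smul, add_comm]
      rw [h5, h5, Finset.card_erase_of_mem (Finset.mem_univ _),
        Finset.card_erase_of_mem (Finset.mem_univ _)]
  · rintro ⟨F, hF⟩
    -- a constituent
    have hrk : T.rk F = n := by
      rw [← hT.bc_rk _ (hψ 0), hF 0, hT.bc_rk _ (hψ 0), rk_Fk hT h1 ψ hψ]
    obtain ⟨x, hx⟩ : ∃ x, F x ≠ 0 := by
      by_contra hall
      push Not at hall
      have h2 : F = 0 := Finsupp.ext hall
      rw [h2] at hrk
      have h3 : T.rk (0 : T.X →₀ ℕ) = 0 := Finsupp.sum_zero_index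
      omega
    have key : ∀ k, ∃ j, j ≠ k ∧ (x = T.tw (∏ i ∈ {j}, ψ i) one ∨
        x = T.tw (∏ i ∈ {k, j}, ψ i) one) := by
      intro k
      have h2 := (bc_eq_iff hT (hψ k) F (Fk one ψ k)).1 (hF k)
      have h3 := DFunLike.congr_fun h2 x
      rw [Finsupp.add_apply, Finsupp.add_apply, twF_apply hT (hψ k).1, twF_apply hT (hψ k).1] at h3
      have h4 : Fk one ψ k x ≠ 0 ∨ Fk one ψ k (T.tw (ψ k) x) ≠ 0 := by omega
      rcases h4 with h4 | h4
      · obtain ⟨j, hj, hjx⟩ := mem_Fk h4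
        refine ⟨j, hj, Or.inl ?_⟩
        rw [Finset.prod_singleton]
        exact hjx
      · obtain ⟨j, hj, hjx⟩ := mem_Fk h4
        refine ⟨j, hj, Or.inr ?_⟩
        rw [Finset.prod_pair hj.symm, hT.tw_mul _ _ (hψ k).1 (hψ j).1, ← hjx,
          tw_tw hT (hψ k).1]
    have hop : ∀ t : Finset (Fin (n + 1)), IsOpen ((∏ i ∈ t, ψ i).ker : Set (GK K)) := by
      intro t
      apply open_closure (s := Set.range ψ)
      · rintro χ ⟨k, rfl⟩
        exact (hψ k).1
      · exact Subgroup.prod_mem _ fun i _ => Subgroup.subset_closure ⟨i, rfl⟩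
    have hinj : ∀ t t' : Finset (Fin (n + 1)), T.tw (∏ i ∈ t, ψ i) one = T.tw (∏ i ∈ t', ψ i) one →
        t = t' := fun t t' h => prod_inj hind (tw_triv_inj hT hone (hop t) (hop t') h)
    -- the constituent is `tw (∏ t)` with `t` of one or two elements
    have hcase : ∃ t : Finset (Fin (n + 1)), x = T.tw (∏ i ∈ t, ψ i) one := by
      obtain ⟨j, -, h | h⟩ := key 0
      · exact ⟨_, h⟩
      · exact ⟨_, h⟩
    obtain ⟨t, ht⟩ := hcase
    have key2 : ∀ k, ∃ j, j ≠ k ∧ (t = {j} ∨ t = {k, j}) := by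
      intro k
      obtain ⟨j, hj, h | h⟩ := key k
      · exact ⟨j, hj, Or.inl (hinj _ _ (ht.symm.trans h))⟩
      · exact ⟨j, hj, Or.inr (hinj _ _ (ht.symm.trans h))⟩
    obtain ⟨a, ha, h2 | h2⟩ := key2 0
    · obtain ⟨j, hj, h3 | h3⟩ := key2 a
      · rw [h2] at h3
        exact hj (Finset.singleton_injective h3).symm
      · have h4 : j ∈ ({a} : Finset (Fin (n + 1))) := by
          rw [← h2, h3]
          exact Finset.mem_insert_of_mem (Finset.mem_singleton_self j)
        exact hj (Finset.mem_singleton.1 h4)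
    · obtain ⟨k, hk⟩ : ∃ k : Fin (n + 1), k ∉ ({0, a} : Finset (Fin (n + 1))) := by
        by_contra hall
        push Not at hall
        have h3 : (univ : Finset (Fin (n + 1))) ⊆ {0, a} := fun k _ => hall k
        have h4 := Finset.card_le_card h3
        rw [Finset.card_univ, Fintype.card_fin] at h4
        have h5 := Finset.card_le_two (a := (0 : Fin (n + 1))) (b := a)
        omega
      obtain ⟨j, hj, h3 | h3⟩ := key2 k
      · have h4 : t.card = 2 := by
          rw [h2]
          exact Finset.card_pair ha.symm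
        rw [h3, Finset.card_singleton] at h4
        omega
      · apply hk
        rw [← h2, h3]
        exact Finset.mem_insert_self k _

end AutRep

end Pool.Agent.Q15.GRA
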