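import Pool.Agent.Q15.GRA4

/-!
# Quadratic patching of automorphic representations: when `n + 2` quadratic extensions do not suffice
-/

set_option autoImplicit false
set_option linter.style.haveILetI false

namespace Pool.Agent.Q15.GRA

open NumberField IsDedekindDomain Finset
open Pool.Agent.W401.Cheb

section indep

variable {K : Type} [Field K] [NumberField K]

theorem indep_card {m : ℕ} {ψ : Fin m → (GK K →* ℤˣ)} (h : Indep ψ) :
    2 ^ m ≤ Nat.card (Subgroup.closure (Set.range ψ)) := by
  classical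
  haveI : Finite (Subgroup.closure (Set.range ψ)) := by
    have h1 := AutRep.finite_closure (univ.image ψ)
    rwa [Finset.coe_image, Finset.coe_univ, Set.image_univ] at h1
  have h1 : ∀ v : Fin m → Bool, GRQ.pr ψ v ∈ Subgroup.closure (Set.range ψ) := by
    intro v
    refine Subgroup.prod_mem _ fun k _ => ?_
    split_ifs
    · exact Subgroup.subset_closure ⟨k, rfl⟩
    · exact Subgroup.one_mem _
  have h2 := Nat.card_le_card_of_injective
    (fun v : Fin m → Bool => (⟨GRQ.pr ψ v, h1 v⟩ : Subgroup.closure (Set.range ψ)))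
    (fun u v h' => pr_inj h (congrArg Subtype.val h'))
  rwa [Nat.card_eq_fintype_card, Fintype.card_fun, Fintype.card_bool, Fintype.card_fin] at h2

theorem indep_of_card {m : ℕ} {ψ : Fin m → (GK K →* ℤˣ)}
    (h : 2 ^ m ≤ Nat.card (Subgroup.closure (Set.range ψ))) : Indep ψ := by
  classical
  have h1 : ∀ v : Fin m → Bool, GRQ.pr ψ v ∈ Subgroup.closure (Set.range ψ) := by
    intro v
    refine Subgroup.prod_mem _ fun k _ => ?_
    split_ifs
    · exact Subgroup.subset_closure ⟨k, rfl⟩
    · exact Subgroup.one_mem _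
  let f : (Fin m → Bool) → Subgroup.closure (Set.range ψ) := fun v => ⟨GRQ.pr ψ v, h1 v⟩
  have hsurj : Function.Surjective f := by
    rintro ⟨χ, hχ⟩
    have h2 : ∃ v, GRQ.pr ψ v = χ := by
      induction hχ using Subgroup.closure_induction with
      | mem x hx =>
        obtain ⟨k, rfl⟩ := hx
        refine ⟨fun i => decide (i = k), ?_⟩
        unfold GRQ.pr
        rw [Finset.prod_eq_single k]
        · simp
        · intro b _ hb
          simp [hb]
        · intro hk
          exact absurd (Finset.mem_univ k) hk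
      | one => exact ⟨fun _ => false, GRQ.pr_zero ψ⟩
      | mul a b _ _ ha hb =>
        obtain ⟨u, rfl⟩ := ha
        obtain ⟨v, rfl⟩ := hb
        exact ⟨_, GRQ.pr_xor (B := GK K →* ℤˣ) AutRep.mul_self_char ψ u v⟩
      | inv a _ ha =>
        obtain ⟨u, rfl⟩ := ha
        exact ⟨u, (inv_eq_of_mul_eq_one_left (AutRep.mul_self_char _)).symm⟩
    obtain ⟨v, hv⟩ := h2
    exact ⟨v, Subtype.ext hv⟩
  haveI : Finite (Subgroup.closure (Set.range ψ)) := Finite.of_surjective f hsurj
  have hbij : Function.Injective f := by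
    have h3 : Nat.card (Fin m → Bool) = Nat.card (Subgroup.closure (Set.range ψ)) := by
      apply le_antisymm
      · rwa [Nat.card_eq_fintype_card, Fintype.card_fun, Fintype.card_bool, Fintype.card_fin]
      · exact Nat.card_le_card_of_surjective f hsurj
    exact ((Nat.bijective_iff_surjective_and_card f).2 ⟨hsurj, h3⟩).1
  intro t ht
  have h4 : f (fun k => decide (k ∈ t)) = f (fun _ => false) := by
    apply Subtype.ext
    change GRQ.pr ψ _ = GRQ.pr ψ _
    rw [GRQ.pr_zero, ← ht, pr_eq]
    refine Finset.prod_congr ?_ fun _ _ => rfl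
    ext k
    simp
  have h5 := hbij h4
  ext k
  have h6 := congrFun h5 k
  simpa using h6

end indep

namespace AutRep

variable {K : Type} [Field K] [NumberField K] {T : AutRep K}

/-- the characters of the example -/
noncomputable def ex {n : ℕ} (θ : Fin (n + 3) → (GK K →* ℤˣ)) : Fin (n + 3) → (GK K →* ℤˣ) := fun k =>
  if k = 0 then θ 0 else if k = 1 then θ 1 else if k = 2 then θ 0 * θ 1 * θ 2 else θ 0 * θ k

theorem ex_indep {n : ℕ} {θ : Fin (n + 3) → (GK K →* ℤˣ)} (h : Indep θ) : Indep (ex θ) := by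
  classical
  apply indep_of_card
  haveI : Finite (Subgroup.closure (Set.range (ex θ))) := by
    have h1 := AutRep.finite_closure (univ.image (ex θ))
    rwa [Finset.coe_image, Finset.coe_univ, Set.image_univ] at h1
  refine (indep_card h).trans ?_
  apply Nat.card_mono (Set.toFinite _)
  have hm : ∀ k, ex θ k ∈ Subgroup.closure (Set.range (ex θ)) := fun k =>
    Subgroup.subset_closure ⟨k, rfl⟩
  have h01 : (1 : Fin (n + 3)) ≠ 0 := by
    intro h
    exact absurd (congrArg Fin.val h) (by simp)
  have h02 : (2 : Fin (n + 3)) ≠ 0 := by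
    intro h
    have := congrArg Fin.val h
    rw [Fin.val_zero] at this
    exact absurd this (by
      change ¬ (2 % (n + 3) = 0)
      rw [Nat.mod_eq_of_lt (by omega)]
      omega)
  have h12 : (2 : Fin (n + 3)) ≠ 1 := by
    intro h
    have h' : 2 % (n + 3) = 1 % (n + 3) := congrArg Fin.val h
    rw [Nat.mod_eq_of_lt (by omega), Nat.mod_eq_of_lt (by omega)] at h'
    omega
  have e0 : ex θ 0 = θ 0 := by simp [ex]
  have e1 : ex θ 1 = θ 1 := by simp [ex, h01]
  have e2 : ex θ 2 = θ 0 * θ 1 * θ 2 := by simp [ex, h02, h12]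
  have hk : Subgroup.closure (Set.range θ) ≤ Subgroup.closure (Set.range (ex θ)) := by
    rw [Subgroup.closure_le]
    rintro _ ⟨k, rfl⟩
    by_cases hk0 : k = 0
    · rw [hk0, ← e0]
      exact hm 0
    by_cases hk1 : k = 1
    · rw [hk1, ← e1]
      exact hm 1
    by_cases hk2 : k = 2
    · have h3 : θ 2 = ex θ 0 * ex θ 1 * ex θ 2 := by
        rw [e0, e1, e2, ← mul_assoc, mul_self_char, one_mul]
      rw [hk2, h3]
      exact Subgroup.mul_mem _ (Subgroup.mul_mem _ (hm 0) (hm 1)) (hm 2)
    · have h3 : θ k = ex θ 0 * ex θ k := by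
        have h4 : ex θ k = θ 0 * θ k := by simp [ex, hk0, hk1, hk2]
        rw [e0, h4, ← mul_assoc, mul_self_char, one_mul]
      rw [h3]
      exact Subgroup.mul_mem _ (hm 0) (hm k)
  exact hk

theorem val_mul {v : HeightOneSpectrum (𝓞 K)} {χ χ' : GK K →* ℤˣ} {a b : ℤˣ} (h : Val v χ a)
    (h' : Val v χ' b) : Val v (χ * χ') (a * b) :=
  ⟨fun σ hσ => by rw [MonoidHom.mul_apply, h.1 σ hσ, h'.1 σ hσ, one_mul],
    fun σ hσ => by rw [MonoidHom.mul_apply, h.2 σ hσ, h'.2 σ hσ]⟩

theorem val_unique {v : HeightOneSpectrum (𝓞 K)} {χ : GK K →* ℤˣ} {a b : ℤˣ} (h : Val v χ a)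
    (h' : Val v χ b) : a = b := by
  obtain ⟨σ₀, hσ₀⟩ := (Pool.Agent.W401.Frob.main K).1 v
  rw [← h.2 σ₀ hσ₀, h'.2 σ₀ hσ₀]

theorem sat_single {x : T.X} {v : HeightOneSpectrum (𝓞 K)} {M : Multiset ℂ}
    (h : T.par x v = some M) : T.sat (Finsupp.single x 1) v = some M := by
  rw [sat_ps]
  · rw [ps_single, one_smul, h, Option.getD_some]
  · intro y hy
    have h1 := Finsupp.support_single_subset hy
    rw [Finset.mem_singleton.1 h1, h]
    exact Option.some_ne_none _

theorem sq_sm (a : ℤˣ) (M : Multiset ℂ) : sq (sm a M) = sq M := by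
  rcases Int.units_eq_one_or a with rfl | rfl
  · rw [sm_one]
  · rw [sm_neg, sq_ng]

theorem mul_open {χ χ' : GK K →* ℤˣ} (hχ : IsOpen (χ.ker : Set (GK K)))
    (hχ' : IsOpen (χ'.ker : Set (GK K))) : IsOpen ((χ * χ').ker : Set (GK K)) := by
  have h1 : IsOpen ((χ.ker ⊓ χ'.ker : Subgroup (GK K)) : Set (GK K)) := hχ.inter hχ'
  refine Subgroup.isOpen_mono (H₁ := χ.ker ⊓ χ'.ker) (H₂ := (χ * χ').ker) ?_ h1
  rintro σ ⟨h2, h3⟩
  rw [MonoidHom.mem_ker, MonoidHom.mul_apply]
  have h2' : χ σ = 1 := h2
  have h3' : χ' σ = 1 := h3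
  rw [h2', h3', one_mul]

/-- `n + 3` quadratic extensions do not suffice in rank `n + 1` if there is a cuspidal
representation with `n + 1` independent quadratic self-twists -/
theorem sharp2 (hT : T.Known) {n : ℕ} {x : T.X} (hx : T.deg x = n + 1)
    (θ : Fin (n + 3) → (GK K →* ℤˣ)) (hθ : ∀ k, IsOpen ((θ k).ker : Set (GK K)))
    (hind : Indep θ) (hself : ∀ k, k ≠ 0 → k ≠ 1 → T.tw (θ k) x = x)
    (h0 : T.tw (θ 0) x ≠ x) (h1 : T.tw (θ 1) x ≠ x) (h01 : T.tw (θ 0 * θ 1) x ≠ x) :
    ∃ ψ : Fin (n + 3) → (GK K →* ℤˣ), (∀ k, IsQuad (ψ k)) ∧ Indep ψ ∧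
      ∃ (D : HeightOneSpectrum (𝓞 K) → Multiset ℂ) (P : ∀ k, T.Y (ψ k)),
        (∀ k, T.degE (ψ k) (P k) = n + 1 ∧ {v | ¬ LocE T (ψ k) (P k) (D v) v}.Finite) ∧
        ¬ ∃ F : T.X →₀ ℕ, ∀ k, T.bc (ψ k) F = P k := by
  classical
  have n01 : (1 : Fin (n + 3)) ≠ 0 := by
    intro h
    exact absurd (congrArg Fin.val h) (by simp)
  have n02 : (2 : Fin (n + 3)) ≠ 0 := by
    intro h
    have h' : 2 % (n + 3) = 0 := congrArg Fin.val h
    rw [Nat.mod_eq_of_lt (by omega)] at h'
    omega
  have n12 : (2 : Fin (n + 3)) ≠ 1 := by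
    intro h
    have h' : 2 % (n + 3) = 1 % (n + 3) := congrArg Fin.val h
    rw [Nat.mod_eq_of_lt (by omega), Nat.mod_eq_of_lt (by omega)] at h'
    omega
  have e0 : ex θ 0 = θ 0 := by simp [ex]
  have e1 : ex θ 1 = θ 1 := by simp [ex, n01]
  have e2 : ex θ 2 = θ 0 * θ 1 * θ 2 := by simp [ex, n02, n12]
  have e3 : ∀ k, k ≠ 0 → k ≠ 1 → k ≠ 2 → ex θ k = θ 0 * θ k := by
    intro k hk0 hk1 hk2
    simp [ex, hk0, hk1, hk2]
  have hei := ex_indep hind
  have heo : ∀ k, IsOpen ((ex θ k).ker : Set (GK K)) := by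
    intro k
    by_cases hk0 : k = 0
    · rw [hk0, e0]; exact hθ 0
    by_cases hk1 : k = 1
    · rw [hk1, e1]; exact hθ 1
    by_cases hk2 : k = 2
    · rw [hk2, e2]; exact mul_open (mul_open (hθ 0) (hθ 1)) (hθ 2)
    · rw [e3 k hk0 hk1 hk2]; exact mul_open (hθ 0) (hθ k)
  have heq : ∀ k, IsQuad (ex θ k) := by
    intro k
    refine ⟨heo k, fun h => ?_⟩
    have h2 := hei {k} (by rw [Finset.prod_singleton, h])
    exact absurd h2 (Finset.singleton_ne_empty k)
  -- the representations
  let xk : Fin (n + 3) → T.X := fun k => if k = 2 then T.tw (θ 0) x else x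
  have hxk : ∀ k, T.deg (xk k) = n + 1 := by
    intro k
    change T.deg (if k = 2 then T.tw (θ 0) x else x) = n + 1
    split_ifs
    · rw [hT.deg_tw _ (hθ 0), hx]
    · exact hx
  have x2 : xk 2 = T.tw (θ 0) x := if_pos rfl
  have x3 : ∀ k, k ≠ 2 → xk k = x := fun k hk => if_neg hk
  refine ⟨ex θ, heq, hei, fun v => if Split v (θ 0) ∨ Split v (θ 1) then (T.par x v).getD 0
    else ng ((T.par x v).getD 0), fun k => T.bc (ex θ k) (Finsupp.single (xk k) 1),
    fun k => ⟨?_, ?_⟩, ?_⟩
  · rw [hT.bc_rk _ (heq k), rk_single, hxk, one_mul]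
  · have hfin : {v : HeightOneSpectrum (𝓞 K) | T.par x v = none ∨
        ∃ j, ¬ (Split v (θ j) ∨ Inert v (θ j))}.Finite := by
      have h2 : {v : HeightOneSpectrum (𝓞 K) | T.par x v = none ∨
          ∃ j, ¬ (Split v (θ j) ∨ Inert v (θ j))} =
          {v | T.par x v = none} ∪ ⋃ j, {v | ¬ (Split v (θ j) ∨ Inert v (θ j))} := by
        ext v
        rw [Set.mem_union, Set.mem_iUnion]
        rfl
      rw [h2]
      exact (hT.finite_ram x).union (Set.finite_iUnion fun j => ram_finite (hθ j))
    refine hfin.subset ?_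
    intro v hv
    rw [Set.mem_setOf_eq] at hv ⊢
    by_contra hall
    rw [not_or] at hall
    obtain ⟨hM, hall⟩ := hall
    push Not at hall
    apply hv
    obtain ⟨M, hM⟩ := Option.ne_none_iff_exists'.1 hM
    have h2 : ∀ j, ∃ a, Val v (θ j) a := fun j => val_of (hall j)
    choose b hb using h2
    have hbM : ∀ j, j ≠ 0 → j ≠ 1 → sm (b j) M = M := by
      intro j hj0 hj1
      have h3 := par_val hT (hθ j) (hb j) x
      rw [hself j hj0 hj1, hM, Option.map_some, Option.some_inj] at h3
      exact h3.symm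
    have hp0 : T.par (T.tw (θ 0) x) v = some (sm (b 0) M) := by
      rw [par_val hT (hθ 0) (hb 0), hM, Option.map_some]
    have hsp : ∀ j, Split v (θ j) ↔ b j = 1 := by
      intro j
      constructor
      · intro h
        exact val_unique (hb j) (val_one.2 h)
      · intro h
        exact val_one.1 (h ▸ hb j)
    have hD : (if Split v (θ 0) ∨ Split v (θ 1) then (T.par x v).getD 0
        else ng ((T.par x v).getD 0)) = if b 0 = 1 ∨ b 1 = 1 then M else ng M := by
      rw [hM, Option.getD_some]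
      simp only [hsp]
    change LocE T (ex θ k) (T.bc (ex θ k) (Finsupp.single (xk k) 1)) (if Split v (θ 0) ∨
      Split v (θ 1) then (T.par x v).getD 0 else ng ((T.par x v).getD 0)) v
    rw [hD]
    have hsqD : sq (if b 0 = 1 ∨ b 1 = 1 then M else ng M) = sq M := by
      split_ifs
      · rfl
      · exact sq_ng M
    by_cases hk2 : k = 2
    · rw [hk2]
      have hs := sat_single (T := T) (x := xk 2) (M := sm (b 0) M) (by rw [x2]; exact hp0)
      constructor
      · intro hsplit
        rw [hT.bc_split _ (heq 2) v hsplit, hs, Option.some_inj]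
        have h3 : b 0 * b 1 * b 2 = 1 := by
          apply val_unique (val_mul (val_mul (hb 0) (hb 1)) (hb 2))
          rw [← e2]
          exact val_one.2 hsplit
        rcases Int.units_eq_one_or (b 0) with h4 | h4
        · rw [h4, sm_one, if_pos (Or.inl rfl)]
        · rcases Int.units_eq_one_or (b 1) with h5 | h5
          · have h6 : b 2 = b 0 := by
              rw [h5, mul_one] at h3
              calc b 2 = b 0 * b 0 * b 2 := by rw [Int.units_mul_self, one_mul]
                _ = b 0 * (b 0 * b 2) := mul_assoc _ _ _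
                _ = b 0 := by rw [h3, mul_one]
            rw [if_pos (Or.inr h5), ← h6]
            exact hbM 2 n02 n12
          · rw [if_neg, h4, sm_neg]
            rw [h4, h5]
            decide
      · intro hin
        rw [hT.bc_inert _ (heq 2) v hin, hs, Option.map_some, Option.some_inj]
        change sq (sm (b 0) M) = sq _
        rw [sq_sm, hsqD]
    · have hs := sat_single (T := T) (x := xk k) (M := M) (by rw [x3 k hk2]; exact hM)
      constructor
      · intro hsplit
        rw [hT.bc_split _ (heq k) v hsplit, hs, Option.some_inj]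
        by_cases hk0 : k = 0
        · rw [hk0, e0] at hsplit
          rw [if_pos (Or.inl ((hsp 0).1 hsplit))]
        by_cases hk1 : k = 1
        · rw [hk1, e1] at hsplit
          rw [if_pos (Or.inr ((hsp 1).1 hsplit))]
        · have h3 : b 0 * b k = 1 := by
            apply val_unique (val_mul (hb 0) (hb k))
            rw [← e3 k hk0 hk1 hk2]
            exact val_one.2 hsplit
          have h6 : b k = b 0 := by
            calc b k = b 0 * b 0 * b k := by rw [Int.units_mul_self, one_mul]
              _ = b 0 * (b 0 * b k) := mul_assoc _ _ _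
              _ = b 0 := by rw [h3, mul_one]
          split_ifs with h7
          · rfl
          · rw [not_or] at h7
            have h8 : b 0 = -1 := (Int.units_eq_one_or (b 0)).resolve_left h7.1
            have h9 := hbM k hk0 hk1
            rw [h6, h8, sm_neg] at h9
            exact h9.symm
      · intro hin
        rw [hT.bc_inert _ (heq k) v hin, hs, Option.map_some, Option.some_inj]
        change sq M = sq _
        rw [hsqD]
  · rintro ⟨F, hF⟩
    have hrk : T.rk F = n + 1 := by
      rw [← hT.bc_rk _ (heq 0), hF 0, hT.bc_rk _ (heq 0), rk_single, hxk, one_mul]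
    obtain ⟨y, hy⟩ : ∃ y, F y ≠ 0 := by
      by_contra hall
      push Not at hall
      have h2 : F = 0 := Finsupp.ext hall
      rw [h2] at hrk
      have h3 : T.rk (0 : T.X →₀ ℕ) = 0 := Finsupp.sum_zero_index
      omega
    have key : ∀ k, y = xk k ∨ y = T.tw (ex θ k) (xk k) := by
      intro k
      have h2 := (bc_eq_iff hT (heq k) F (Finsupp.single (xk k) 1)).1 (hF k)
      have h3 := DFunLike.congr_fun h2 y
      rw [Finsupp.add_apply, Finsupp.add_apply, twF_apply hT (heq k).1,
        twF_apply hT (heq k).1] at h3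
      by_contra hno
      rw [not_or] at hno
      rw [Finsupp.single_apply, Finsupp.single_apply, if_neg (fun h => hno.1 h.symm), if_neg] at h3
      · omega
      · intro h4
        apply hno.2
        rw [h4, tw_tw hT (heq k).1]
    have k0 : y = x ∨ y = T.tw (θ 0) x := by
      have h2 := key 0
      rw [x3 0 n02.symm, e0] at h2
      exact h2
    have k1 : y = x ∨ y = T.tw (θ 1) x := by
      have h2 := key 1
      rw [x3 1 n12.symm, e1] at h2
      exact h2
    have k2 : y = T.tw (θ 0) x ∨ y = T.tw (θ 1) x := by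
      have h2 := key 2
      rw [x2, e2] at h2
      rcases h2 with h2 | h2
      · exact Or.inl h2
      · right
        have h3 : T.tw (θ 0 * θ 1 * θ 2) (T.tw (θ 0) x) = T.tw (θ 1) x := by
          rw [← hT.tw_mul _ _ (mul_open (mul_open (hθ 0) (hθ 1)) (hθ 2)) (hθ 0)]
          have h4 : θ 0 * θ 1 * θ 2 * θ 0 = θ 1 * θ 2 := by
            have h5 : θ 0 * θ 1 * θ 2 * θ 0 = θ 0 * θ 0 * (θ 1 * θ 2) := by
              rw [mul_comm _ (θ 0), ← mul_assoc, ← mul_assoc, ← mul_assoc]
            rw [h5, mul_self_char, one_mul]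
          rw [h4, hT.tw_mul _ _ (hθ 1) (hθ 2), hself 2 n02 n12]
        rw [h2, h3]
    rcases k0 with k0 | k0
    · rcases k2 with k2 | k2
      · exact h0 (k2.symm.trans k0)
      · exact h1 (k2.symm.trans k0)
    · rcases k1 with k1 | k1
      · exact h0 (k0.symm.trans k1)
      · apply h01
        have h5 : T.tw (θ 0) x = T.tw (θ 1) x := k0.symm.trans k1
        rw [hT.tw_mul _ _ (hθ 0) (hθ 1), ← h5, tw_tw hT (hθ 0)]

end AutRep

end Pool.Agent.Q15.GRA
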