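import Pool.Agent.Q15.GR5

/-!
# Restriction of a semisimple representation to a normal subgroup (Clifford)
-/

set_option autoImplicit false
set_option linter.unusedSectionVars false

namespace Pool.Agent.Q15.GR

open Representation Module
open scoped MonoidAlgebra

variable {k : Type} [Field k] {G : Type} [Group G]
variable {V : Type} [AddCommGroup V] [Module k V]

/-- a representation which is the sum of irreducible subrepresentations is semisimple -/
theorem semi_of_socle (σ : Representation k G V)
    (h : ⨆ W : {W : Subrepresentation σ // IsAtom W}, W.1.toSubmodule = ⊤) :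
    σ.IsSemisimpleRepresentation := by
  rw [isSemisimpleRepresentation_iff_isSemisimpleModule_asModule]
  refine isSemisimpleModule_of_isSemisimpleModule_submodule'
    (p := fun W : {W : Subrepresentation σ // IsAtom W} => Subrepresentation.asSubmodule W.1) ?_ ?_
  · intro W
    have h1 : IsAtom (Subrepresentation.asSubmodule W.1) :=
      (OrderIso.isAtom_iff Subrepresentation.subrepresentationSubmoduleOrderIso W.1).2 W.2
    have h2 : IsSimpleModule k[G] (Subrepresentation.asSubmodule W.1) :=
      isSimpleModule_iff_isAtom.2 h1
    infer_instance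
  · have key : ∀ y : V, y ∈ ⨆ W : {W : Subrepresentation σ // IsAtom W}, W.1.toSubmodule →
        (show σ.asModule from y) ∈
          ⨆ W : {W : Subrepresentation σ // IsAtom W}, Subrepresentation.asSubmodule W.1 := by
      intro y hy
      refine Submodule.iSup_induction _ (motive := fun y => (show σ.asModule from y) ∈
        ⨆ W : {W : Subrepresentation σ // IsAtom W}, Subrepresentation.asSubmodule W.1) hy
        ?_ ?_ ?_
      · intro W y hy
        exact Submodule.mem_iSup_of_mem W hy
      · exact Submodule.zero_mem _
      · intro y z hy hz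
        exact Submodule.add_mem _ hy hz
    rw [eq_top_iff]
    intro x _
    refine key x ?_
    rw [h]
    exact Submodule.mem_top

/-- restriction to a subgroup -/
def res (H : Subgroup G) (ρ : Representation k G V) : Representation k H V :=
  MonoidHom.comp ρ H.subtype

theorem res_apply (H : Subgroup G) (ρ : Representation k G V) (h : H) :
    res H ρ h = ρ (h : G) := rfl

theorem res_char (H : Subgroup G) (ρ : Representation k G V) (h : H) :
    (res H ρ).character h = ρ.character (h : G) := rfl

/-- translate of a subrepresentation of the restriction to a normal subgroup -/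
def trl (H : Subgroup G) [H.Normal] (ρ : Representation k G V) (g : G)
    (W : Subrepresentation (res H ρ)) : Subrepresentation (res H ρ) where
  toSubmodule := W.toSubmodule.map (ρ g)
  apply_mem_toSubmodule h v hv := by
    obtain ⟨w, hw, rfl⟩ := hv
    refine ⟨ρ (g⁻¹ * h * g) w, ?_, ?_⟩
    · have h1 : g⁻¹ * (h : G) * g ∈ H := by
        have := Subgroup.Normal.conj_mem (inferInstance : H.Normal) (h : G) h.2 g⁻¹
        rwa [inv_inv] at this
      exact W.apply_mem_toSubmodule ⟨_, h1⟩ hw
    · rw [res_apply, ← Module.End.mul_apply, ← Module.End.mul_apply, ← map_mul, ← map_mul]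
      congr 2
      group

theorem trl_mem {H : Subgroup G} [H.Normal] {ρ : Representation k G V} {g : G}
    {W : Subrepresentation (res H ρ)} {v : V} :
    v ∈ (trl H ρ g W).toSubmodule ↔ ρ g⁻¹ v ∈ W.toSubmodule := by
  constructor
  · rintro ⟨w, hw, rfl⟩
    rw [← Module.End.mul_apply, ← map_mul, inv_mul_cancel, map_one]
    exact hw
  · intro h
    refine ⟨_, h, ?_⟩
    rw [← Module.End.mul_apply, ← map_mul, mul_inv_cancel, map_one]
    rfl

/-- translation as an automorphism of the lattice -/
def trlIso (H : Subgroup G) [H.Normal] (ρ : Representation k G V) (g : G) :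
    Subrepresentation (res H ρ) ≃o Subrepresentation (res H ρ) where
  toFun := trl H ρ g
  invFun := trl H ρ g⁻¹
  left_inv W := by
    apply Subrepresentation.toSubmodule_injective
    ext v
    rw [trl_mem, trl_mem, inv_inv, ← Module.End.mul_apply, ← map_mul, inv_mul_cancel, map_one]
    rfl
  right_inv W := by
    apply Subrepresentation.toSubmodule_injective
    ext v
    rw [trl_mem, trl_mem, inv_inv, ← Module.End.mul_apply, ← map_mul, mul_inv_cancel, map_one]
    rfl
  map_rel_iff' {W W'} := by
    constructor
    · intro h v hv
      have h1 : ρ g v ∈ (trl H ρ g W).toSubmodule := ⟨v, hv, rfl⟩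
      have h2 : ρ g v ∈ (trl H ρ g W').toSubmodule := h h1
      rw [trl_mem, ← Module.End.mul_apply, ← map_mul, inv_mul_cancel, map_one] at h2
      exact h2
    · intro h v hv
      have h1 : ρ g⁻¹ v ∈ W.toSubmodule := trl_mem.1 hv
      exact trl_mem.2 (h h1)

/-- **Clifford's theorem** -/
theorem semi_res (H : Subgroup G) [H.Normal] {ρ : Representation k G V} [FiniteDimensional k V]
    (h : ρ.IsSemisimpleRepresentation) : (res H ρ).IsSemisimpleRepresentation := by
  apply semi_of_socle
  let S : Subrepresentation ρ :=
    { toSubmodule := ⨆ W : {W : Subrepresentation (res H ρ) // IsAtom W}, W.1.toSubmodule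
      apply_mem_toSubmodule := by
        intro g v hv
        refine Submodule.iSup_induction _ (motive := fun y => ρ g y ∈
          ⨆ W : {W : Subrepresentation (res H ρ) // IsAtom W}, W.1.toSubmodule) hv ?_ ?_ ?_
        · intro W y hy
          have h1 : IsAtom (trl H ρ g W.1) := (OrderIso.isAtom_iff (trlIso H ρ g) W.1).2 W.2
          refine Submodule.mem_iSup_of_mem (⟨trl H ρ g W.1, h1⟩ :
            {W : Subrepresentation (res H ρ) // IsAtom W}) ?_
          exact ⟨y, hy, rfl⟩
        · rw [map_zero]
          exact Submodule.zero_mem _
        · intro y z hy hz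
          rw [map_add]
          exact Submodule.add_mem _ hy hz }
  obtain ⟨C, hC⟩ := h.exists_isCompl S
  have hbot : C = ⊥ := by
    by_contra hne
    have hnt : Nontrivial C.toSubmodule := by
      by_contra h5
      rw [not_nontrivial_iff_subsingleton, Submodule.subsingleton_iff_eq_bot] at h5
      exact hne (Subrepresentation.toSubmodule_injective h5)
    let C' : Subrepresentation (res H ρ) := ⟨C.toSubmodule, fun h v hv =>
      C.apply_mem_toSubmodule (h : G) hv⟩
    have hne' : C' ≠ ⊥ := by
      intro h1
      have h2 : C'.toSubmodule = ⊥ := congrArg Subrepresentation.toSubmodule h1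
      exact hne (Subrepresentation.toSubmodule_injective h2)
    have hwf : WellFoundedLT (Subrepresentation (res H ρ)) := by
      have h1 : StrictMono (fun U : Subrepresentation (res H ρ) => U.toSubmodule) := by
        intro U U' h
        exact h
      exact h1.wellFoundedLT
    rcases (isAtomic_of_orderBot_wellFounded_lt hwf.wf).eq_bot_or_exists_atom_le C' with
      h3 | ⟨U, hU, hUC⟩
    · exact hne' h3
    · have h4 : U.toSubmodule ≤ S.toSubmodule :=
        le_iSup (fun W : {W : Subrepresentation (res H ρ) // IsAtom W} => W.1.toSubmodule) ⟨U, hU⟩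
      have h5 : U.toSubmodule ≤ C.toSubmodule := hUC
      have h6 : S.toSubmodule ⊓ C.toSubmodule = ⊥ :=
        congrArg Subrepresentation.toSubmodule (disjoint_iff.1 hC.disjoint)
      have h7 : U.toSubmodule = ⊥ := by
        rw [eq_bot_iff, ← h6]
        exact le_inf h4 h5
      exact hU.1 (Subrepresentation.toSubmodule_injective h7)
  have h1 := hC.sup_eq_top
  rw [hbot, sup_bot_eq] at h1
  exact congrArg Subrepresentation.toSubmodule h1

end Pool.Agent.Q15.GR
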