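import Pool.Agent.Q15.GRC1

/-!
# Extension of an invariant irreducible representation from a subgroup with cyclic quotient
-/

set_option autoImplicit false
set_option linter.unusedSectionVars false

namespace Pool.Agent.Q15.GR

open Representation Module
open scoped MonoidAlgebra

variable {G : Type} [Group G]

/-- the quotient by `H` is cyclic of order `q`, generated by `g₀` -/
structure Cyc (H : Subgroup G) (g₀ : G) (q : ℕ) : Prop where
  pos : 0 < q
  normal : H.Normal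
  gen : ∀ g, ∃ i : ℤ, g₀ ^ (-i) * g ∈ H
  pow : g₀ ^ q ∈ H
  dvd : ∀ i : ℤ, g₀ ^ i ∈ H → (q : ℤ) ∣ i

/-- extension of a homomorphism -/
theorem ext_hom {H : Subgroup G} {g₀ : G} {q : ℕ} (hc : Cyc H g₀ q) {L : Type} [Group L]
    (s : H →* L) (B : L) (hB : B ^ q = s ⟨g₀ ^ q, hc.pow⟩)
    (hBs : ∀ (x : G) (hx : x ∈ H) (hx' : g₀⁻¹ * x * g₀ ∈ H),
      B * s ⟨g₀⁻¹ * x * g₀, hx'⟩ = s ⟨x, hx⟩ * B) :
    ∃ t : G →* L, ∀ h : H, t h = s h := by
  classical
  have hn := hc.normal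
  let S : G → L := fun x => if hx : x ∈ H then s ⟨x, hx⟩ else 1
  have hS : ∀ x (hx : x ∈ H), S x = s ⟨x, hx⟩ := fun x hx => dif_pos hx
  have hSm : ∀ x y, x ∈ H → y ∈ H → S (x * y) = S x * S y := by
    intro x y hx hy
    rw [hS _ hx, hS _ hy, hS _ (H.mul_mem hx hy), ← map_mul]
    rfl
  have hSq : ∀ m : ℤ, S (g₀ ^ ((q : ℤ) * m)) = B ^ ((q : ℤ) * m) := by
    intro m
    have h1 : g₀ ^ ((q : ℤ) * m) = ((⟨g₀ ^ q, hc.pow⟩ ^ m : H) : G) := by
      rw [zpow_mul, zpow_natCast]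
      rfl
    rw [h1, hS _ (Subtype.mem _), Subtype.coe_eta, map_zpow, ← hB, zpow_mul, zpow_natCast]
  have hconj1 : ∀ x, x ∈ H → B * S (g₀⁻¹ * x * g₀) = S x * B := by
    intro x hx
    have hx' : g₀⁻¹ * x * g₀ ∈ H := by
      have := hn.conj_mem x hx g₀⁻¹
      rwa [inv_inv] at this
    rw [hS _ hx, hS _ hx']
    exact hBs x hx hx'
  have hmem : ∀ (j : ℤ) x, x ∈ H → g₀ ^ (-j) * x * g₀ ^ j ∈ H := by
    intro j x hx
    have := hn.conj_mem x hx (g₀ ^ (-j))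
    rwa [← zpow_neg, neg_neg] at this
  have hconj : ∀ (j : ℤ) x, x ∈ H → B ^ j * S (g₀ ^ (-j) * x * g₀ ^ j) = S x * B ^ j := by
    intro j
    induction j using Int.induction_on with
    | zero =>
      intro x hx
      simp
    | succ n ih =>
      intro x hx
      have h1 : g₀ ^ (-((n : ℤ) + 1)) * x * g₀ ^ ((n : ℤ) + 1) =
          g₀⁻¹ * (g₀ ^ (-(n : ℤ)) * x * g₀ ^ (n : ℤ)) * g₀ := by
        rw [neg_add, zpow_add, zpow_add_one, zpow_neg_one]
        have h2 : g₀ ^ (-(n : ℤ)) * g₀⁻¹ = g₀⁻¹ * g₀ ^ (-(n : ℤ)) := by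
          rw [← zpow_neg_one, ← zpow_add, ← zpow_add, add_comm]
        rw [h2]
        group
      rw [h1, zpow_add_one, mul_assoc, hconj1 _ (hmem n x hx), ← mul_assoc, ih x hx, mul_assoc]
    | pred n ih =>
      intro x hx
      have h3 : g₀ * x * g₀⁻¹ ∈ H := hn.conj_mem x hx g₀
      have h1 : g₀ ^ (-(-(n : ℤ) - 1)) * x * g₀ ^ (-(n : ℤ) - 1) =
          g₀ ^ (-(-(n : ℤ))) * (g₀ * x * g₀⁻¹) * g₀ ^ (-(n : ℤ)) := by
        group
      rw [h1, zpow_sub_one, mul_assoc]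
      have h4 := ih (g₀ * x * g₀⁻¹) h3
      have h5 : B * S x = S (g₀ * x * g₀⁻¹) * B := by
        have h6 := hconj1 (g₀ * x * g₀⁻¹) h3
        have h7 : g₀⁻¹ * (g₀ * x * g₀⁻¹) * g₀ = x := by group
        rwa [h7] at h6
      -- B^{-n} commutes with B⁻¹
      have h6 : B ^ (-(n : ℤ)) * B⁻¹ = B⁻¹ * B ^ (-(n : ℤ)) := by
        rw [← zpow_neg_one, ← zpow_add, ← zpow_add, add_comm]
      rw [← mul_assoc, h6, mul_assoc, h4, ← mul_assoc, ← mul_assoc]
      congr 1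
      rw [inv_mul_eq_iff_eq_mul, ← mul_assoc, h5, mul_inv_cancel_right]
  have hindep : ∀ (i j : ℤ) g, g₀ ^ (-i) * g ∈ H → g₀ ^ (-j) * g ∈ H →
      B ^ i * S (g₀ ^ (-i) * g) = B ^ j * S (g₀ ^ (-j) * g) := by
    intro i j g hi hj
    have h1 : g₀ ^ (j - i) ∈ H := by
      have h2 : g₀ ^ (j - i) = (g₀ ^ (-i) * g) * (g₀ ^ (-j) * g)⁻¹ := by
        rw [mul_inv_rev, ← zpow_neg, neg_neg, sub_eq_neg_add, zpow_add]
        group
      rw [h2]
      exact H.mul_mem hi (H.inv_mem hj)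
    obtain ⟨m, hm⟩ := hc.dvd _ h1
    have h3 : g₀ ^ (-i) * g = g₀ ^ ((q : ℤ) * m) * (g₀ ^ (-j) * g) := by
      rw [← hm, ← mul_assoc, ← zpow_add]
      congr 2
      ring
    rw [hm] at h1
    rw [h3, hSm _ _ h1 hj, hSq, ← mul_assoc, ← zpow_add]
    congr 2
    rw [← hm]
    ring
  choose idx hidx using hc.gen
  refine ⟨MonoidHom.mk' (fun g => B ^ idx g * S (g₀ ^ (-(idx g)) * g)) ?_, ?_⟩
  · intro g g'
    have h1 : g₀ ^ (-(idx g + idx g')) * (g * g') =
        (g₀ ^ (-(idx g')) * (g₀ ^ (-(idx g)) * g) * g₀ ^ idx g') * (g₀ ^ (-(idx g')) * g') := by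
      rw [neg_add, zpow_add]
      have h2 : g₀ ^ (-(idx g)) * g₀ ^ (-(idx g')) = g₀ ^ (-(idx g')) * g₀ ^ (-(idx g)) := by
        rw [← zpow_add, ← zpow_add, add_comm]
      rw [h2, zpow_neg g₀ (idx g')]
      group
    have h2 : g₀ ^ (-(idx g + idx g')) * (g * g') ∈ H := by
      rw [h1]
      exact H.mul_mem (hmem _ _ (hidx g)) (hidx g')
    change B ^ idx (g * g') * S (g₀ ^ (-(idx (g * g'))) * (g * g')) = _
    rw [hindep _ (idx g + idx g') (g * g') (hidx _) h2, h1, hSm _ _ (hmem _ _ (hidx g)) (hidx g'),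
      zpow_add, mul_assoc (B ^ idx g), ← mul_assoc (B ^ idx g'), hconj _ _ (hidx g)]
    group
  · intro h
    change B ^ idx (h : G) * S (g₀ ^ (-(idx (h : G))) * (h : G)) = s h
    have h1 : g₀ ^ (-(0 : ℤ)) * (h : G) ∈ H := by
      rw [neg_zero, zpow_zero, one_mul]
      exact h.2
    rw [hindep _ 0 (h : G) (hidx _) h1, zpow_zero, one_mul, hS _ h1]
    congr 1
    apply Subtype.ext
    change g₀ ^ (-(0 : ℤ)) * (h : G) = h
    rw [neg_zero, zpow_zero, one_mul]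

section ext

variable {k : Type} [Field k] [IsAlgClosed k] {V : Type} [AddCommGroup V] [Module k V]
  [FiniteDimensional k V]

/-- a conjugate representation of a normal subgroup -/
def cjRep {H : Subgroup G} (hn : H.Normal) (g : G) (σ : Representation k H V) :
    Representation k H V where
  toFun h := σ ⟨g⁻¹ * h * g, by
    have := hn.conj_mem (h : G) h.2 g⁻¹
    rwa [inv_inv] at this⟩
  map_one' := by
    rw [← map_one σ]
    congr 1
    apply Subtype.ext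
    change g⁻¹ * 1 * g = 1
    group
  map_mul' h h' := by
    rw [← map_mul]
    congr 1
    apply Subtype.ext
    change g⁻¹ * ((h : G) * h') * g = (g⁻¹ * h * g) * (g⁻¹ * h' * g)
    group

omit [IsAlgClosed k] [FiniteDimensional k V] in
theorem cjRep_apply {H : Subgroup G} (hn : H.Normal) (g : G) (σ : Representation k H V) (h : H)
    (h' : g⁻¹ * (h : G) * g ∈ H) : cjRep hn g σ h = σ ⟨g⁻¹ * h * g, h'⟩ := rfl

/-- the subrepresentations of a conjugate -/
def cjIso {H : Subgroup G} (hn : H.Normal) (g : G) (σ : Representation k H V) :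
    Subrepresentation σ ≃o Subrepresentation (cjRep hn g σ) where
  toFun U := ⟨U.toSubmodule, fun h v hv => U.apply_mem_toSubmodule _ hv⟩
  invFun U := ⟨U.toSubmodule, fun h v hv => by
    have h1 : g * (h : G) * g⁻¹ ∈ H := hn.conj_mem (h : G) h.2 g
    have h2 := U.apply_mem_toSubmodule ⟨_, h1⟩ hv
    rw [cjRep_apply hn g σ ⟨_, h1⟩ (by
      change g⁻¹ * (g * (h : G) * g⁻¹) * g ∈ H
      have h3 : g⁻¹ * (g * (h : G) * g⁻¹) * g = h := by group
      rw [h3]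
      exact h.2)] at h2
    have h4 : (⟨g⁻¹ * (g * (h : G) * g⁻¹) * g, by
      have h3 : g⁻¹ * (g * (h : G) * g⁻¹) * g = h := by group
      rw [h3]
      exact h.2⟩ : H) = h := Subtype.ext (by
        change g⁻¹ * (g * (h : G) * g⁻¹) * g = h
        group)
    rw [h4] at h2
    exact h2⟩
  left_inv U := rfl
  right_inv U := rfl
  map_rel_iff' := Iff.rfl

omit [IsAlgClosed k] [FiniteDimensional k V] in
theorem irr_cj {H : Subgroup G} (hn : H.Normal) (g : G) {σ : Representation k H V}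
    (h : σ.IsIrreducible) : (cjRep hn g σ).IsIrreducible := (cjIso hn g σ).isSimpleOrder_iff.1 h

/-- **extension of an invariant irreducible representation** -/
theorem ext_irr [CharZero k] {H : Subgroup G} {g₀ : G} {q : ℕ} (hc : Cyc H g₀ q)
    (σ : Representation k H V) (hσ : σ.IsIrreducible)
    (hinv : (cjRep hc.normal g₀ σ).character = σ.character) :
    ∃ t : Representation k G V, res H t = σ := by
  obtain ⟨e⟩ := equiv_of_irr _ _ (irr_cj hc.normal g₀ hσ) hσ hinv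
  let s : H →* (Module.End k V)ˣ := MonoidHom.toHomUnits σ
  have hs : ∀ h, (s h : Module.End k V) = σ h := fun h => rfl
  let B₀ : (Module.End k V)ˣ :=
    ⟨e.toLinearEquiv.toLinearMap, e.toLinearEquiv.symm.toLinearMap,
      LinearMap.ext fun x => e.toLinearEquiv.apply_symm_apply x,
      LinearMap.ext fun x => e.toLinearEquiv.symm_apply_apply x⟩
  have hB₀ : ∀ (x : G) (hx : x ∈ H) (hx' : g₀⁻¹ * x * g₀ ∈ H),
      B₀ * s ⟨g₀⁻¹ * x * g₀, hx'⟩ = s ⟨x, hx⟩ * B₀ := by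
    intro x hx hx'
    apply Units.ext
    refine LinearMap.ext fun v => ?_
    exact IntertwiningMap.isIntertwining _ _ e.toIntertwiningMap ⟨x, hx⟩ v
  set C : (Module.End k V)ˣ := s ⟨g₀ ^ q, hc.pow⟩ with hC
  have hn := hc.normal
  -- `B₀ ^ q` acts by conjugation like `C`
  have hpow : ∀ (n : ℕ) (x : G) (hx : x ∈ H) (hx' : (g₀ ^ n)⁻¹ * x * g₀ ^ n ∈ H),
      B₀ ^ n * s ⟨(g₀ ^ n)⁻¹ * x * g₀ ^ n, hx'⟩ = s ⟨x, hx⟩ * B₀ ^ n := by
    intro n
    induction n with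
    | zero =>
      intro x hx hx'
      rw [pow_zero, one_mul, mul_one]
      congr 1
      apply Subtype.ext
      change (g₀ ^ 0)⁻¹ * x * g₀ ^ 0 = x
      group
    | succ n ih =>
      intro x hx hx'
      have h1 : (g₀ ^ n)⁻¹ * x * g₀ ^ n ∈ H := by
        have := hn.conj_mem x hx (g₀ ^ n)⁻¹
        rwa [inv_inv] at this
      have h2 : (g₀ ^ (n + 1))⁻¹ * x * g₀ ^ (n + 1) = g₀⁻¹ * ((g₀ ^ n)⁻¹ * x * g₀ ^ n) * g₀ := by
        rw [pow_succ]
        group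
      have h3 : g₀⁻¹ * ((g₀ ^ n)⁻¹ * x * g₀ ^ n) * g₀ ∈ H := by
        rw [← h2]
        exact hx'
      have h4 : (⟨(g₀ ^ (n + 1))⁻¹ * x * g₀ ^ (n + 1), hx'⟩ : H) = ⟨_, h3⟩ := Subtype.ext h2
      rw [h4, pow_succ, mul_assoc, hB₀ _ h1 h3, ← mul_assoc, ih x hx h1, mul_assoc]
  have hcomm : ∀ h : H, (C⁻¹ * B₀ ^ q) * s h = s h * (C⁻¹ * B₀ ^ q) := by
    intro h
    have h1 : g₀ ^ q * (h : G) * (g₀ ^ q)⁻¹ ∈ H := hn.conj_mem _ h.2 _
    have h2 : (g₀ ^ q)⁻¹ * (g₀ ^ q * (h : G) * (g₀ ^ q)⁻¹) * g₀ ^ q = h := by group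
    have h3 : (g₀ ^ q)⁻¹ * (g₀ ^ q * (h : G) * (g₀ ^ q)⁻¹) * g₀ ^ q ∈ H := by
      rw [h2]
      exact h.2
    have h4 := hpow q _ h1 h3
    have h5 : (⟨(g₀ ^ q)⁻¹ * (g₀ ^ q * (h : G) * (g₀ ^ q)⁻¹) * g₀ ^ q, h3⟩ : H) = h :=
      Subtype.ext h2
    rw [h5] at h4
    have h6 : s ⟨g₀ ^ q * (h : G) * (g₀ ^ q)⁻¹, h1⟩ = C * s h * C⁻¹ := by
      rw [hC, ← map_inv, ← map_mul, ← map_mul]
      rfl
    rw [h6] at h4
    rw [mul_assoc, h4]
    group
  -- Schur's lemma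
  let Z : IntertwiningMap σ σ :=
    { toLinearMap := ((C⁻¹ * B₀ ^ q : (Module.End k V)ˣ) : Module.End k V)
      isIntertwining' := fun h => congrArg Units.val (hcomm h) }
  obtain ⟨c, hc'⟩ := (IsIrreducible.algebraMap_intertwiningMap_bijective_of_isAlgClosed
    (ρ := σ)).2 Z
  have hcZ : ((C⁻¹ * B₀ ^ q : (Module.End k V)ˣ) : Module.End k V) = c • 1 := by
    have h1 := congrArg IntertwiningMap.toLinearMap hc'
    exact h1.symm
  have hnt : Nontrivial V := by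
    by_contra h5
    rw [not_nontrivial_iff_subsingleton] at h5
    have h6 : (⊥ : Subrepresentation σ) = ⊤ := by
      apply Subrepresentation.toSubmodule_injective
      exact Subsingleton.elim _ _
    exact bot_ne_top h6
  have hc0 : c ≠ 0 := by
    rintro rfl
    rw [zero_smul] at hcZ
    exact (C⁻¹ * B₀ ^ q).ne_zero hcZ
  obtain ⟨d, hd⟩ := IsAlgClosed.exists_pow_nat_eq c hc.pos
  have hd0 : d ≠ 0 := by
    rintro rfl
    rw [zero_pow hc.pos.ne'] at hd
    exact hc0 hd.symm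
  let Dd : (Module.End k V)ˣ := Units.map (algebraMap k (Module.End k V)).toMonoidHom
    (Units.mk0 d hd0)
  have hDd : ∀ y : (Module.End k V)ˣ, Dd * y = y * Dd := by
    intro y
    apply Units.ext
    exact Algebra.commutes d (y : Module.End k V)
  have hDq : C⁻¹ * B₀ ^ q = Dd ^ q := by
    apply Units.ext
    rw [hcZ, Units.val_pow_eq_pow_val]
    change c • (1 : Module.End k V) = (algebraMap k (Module.End k V) d) ^ q
    rw [← map_pow, hd, Algebra.algebraMap_eq_smul_one]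
  obtain ⟨t, ht⟩ := ext_hom hc s (Dd⁻¹ * B₀) (by
    have h1 : Commute Dd⁻¹ B₀ := (show Commute Dd B₀ from hDd B₀).inv_left
    have h2 : B₀ ^ q = C * Dd ^ q := inv_mul_eq_iff_eq_mul.1 hDq
    have h3 : C * Dd ^ q = Dd ^ q * C := ((show Commute Dd C from hDd C).pow_left q).eq.symm
    rw [h1.mul_pow, inv_pow, h2, h3, inv_mul_cancel_left]) (by
    intro x hx hx'
    rw [mul_assoc, hB₀ x hx hx', ← mul_assoc, ← mul_assoc]
    congr 1
    exact ((show Commute Dd (s ⟨x, hx⟩) from hDd _).inv_left).eq)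
  refine ⟨(Units.coeHom _).comp t, ?_⟩
  ext h : 1
  change ((t h : (Module.End k V)ˣ) : Module.End k V) = σ h
  rw [ht h]
  rfl

end ext

end Pool.Agent.Q15.GR
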