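import Pool.Agent.Q15.GRC2

/-!
# Extension of an invariant character from a normal subgroup of prime index
-/

set_option autoImplicit false
set_option linter.unusedSectionVars false

namespace Pool.Agent.Q15.GR

open Representation Module
open scoped MonoidAlgebra

variable {k : Type} [Field k] {G : Type} [Group G]

section coind

variable {V : Type} [AddCommGroup V] [Module k V] {H : Subgroup G}

/-- the space of the coinduced representation -/
def CoV (σ : Representation k H V) : Submodule k (G → V) where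
  carrier := {f | ∀ (h : H) (x : G), f (h * x) = σ h (f x)}
  add_mem' {f f'} hf hf' h x := by
    rw [Pi.add_apply, Pi.add_apply, hf, hf', map_add]
  zero_mem' h x := by rw [Pi.zero_apply, Pi.zero_apply, map_zero]
  smul_mem' c f hf h x := by rw [Pi.smul_apply, Pi.smul_apply, hf, map_smul]

/-- the coinduced representation -/
def CoR (σ : Representation k H V) : Representation k G (CoV σ) where
  toFun g :=
    { toFun := fun f => ⟨fun x => f.1 (x * g), fun h x => by
        change f.1 (h * x * g) = σ h (f.1 (x * g))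
        rw [mul_assoc]
        exact f.2 h (x * g)⟩
      map_add' := fun f f' => rfl
      map_smul' := fun c f => rfl }
  map_one' := by
    refine LinearMap.ext fun f => Subtype.ext (funext fun x => ?_)
    change f.1 (x * 1) = f.1 x
    rw [mul_one]
  map_mul' g g' := by
    refine LinearMap.ext fun f => Subtype.ext (funext fun x => ?_)
    change f.1 (x * (g * g')) = f.1 (x * g * g')
    rw [mul_assoc]

theorem CoR_apply (σ : Representation k H V) (g : G) (f : CoV σ) (x : G) :
    (CoR σ g f).1 x = f.1 (x * g) := rfl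

/-- evaluation at `1` -/
def coEv (σ : Representation k H V) : IntertwiningMap (res H (CoR σ)) σ where
  toLinearMap :=
    { toFun := fun f => f.1 1
      map_add' := fun f f' => rfl
      map_smul' := fun c f => rfl }
  isIntertwining' h := by
    refine LinearMap.ext fun f => ?_
    change f.1 (1 * h) = σ h (f.1 1)
    rw [one_mul, ← f.2 h 1, mul_one]

theorem Cyc.rep {g₀ : G} {q : ℕ} (hc : Cyc H g₀ q) (x : G) :
    ∃ (i : Fin q) (h : H), x = h * g₀ ^ (i : ℕ) := by
  obtain ⟨i, hi⟩ := hc.gen x
  have hq : (q : ℤ) ≠ 0 := by exact_mod_cast hc.pos.ne'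
  have h1 : 0 ≤ i % q := Int.emod_nonneg _ hq
  have h2 : i % q < q := Int.emod_lt_of_pos _ (by exact_mod_cast hc.pos)
  have h3 : ((i % q).toNat : ℤ) = i % q := Int.toNat_of_nonneg h1
  have h4 : (i % q).toNat < q := by
    have : ((i % q).toNat : ℤ) < q := by rw [h3]; exact h2
    exact_mod_cast this
  refine ⟨⟨(i % q).toNat, h4⟩, ⟨x * (g₀ ^ ((i % q).toNat))⁻¹, ?_⟩, ?_⟩
  · have h5 : x * (g₀ ^ ((i % q).toNat))⁻¹ =
        g₀ ^ i * (g₀ ^ (-i) * x) * (g₀ ^ i)⁻¹ * (g₀ ^ q) ^ (i / q) := by
      have h6 : g₀ ^ i = (g₀ ^ q) ^ (i / q) * g₀ ^ (i % q).toNat := by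
        rw [← zpow_natCast, ← zpow_natCast, ← zpow_mul, ← zpow_add, h3, Int.mul_ediv_add_emod]
      have h7 : g₀ ^ i = g₀ ^ (i % q).toNat * (g₀ ^ q) ^ (i / q) := by
        rw [← zpow_natCast, ← zpow_natCast, ← zpow_mul, ← zpow_add, h3, add_comm,
          Int.mul_ediv_add_emod]
      rw [zpow_neg, mul_inv_cancel_left, h7, mul_inv_rev]
      group
    rw [h5]
    exact H.mul_mem (hc.normal.conj_mem _ hi _) (H.zpow_mem hc.pow _)
  · change x = x * (g₀ ^ ((i % q).toNat))⁻¹ * g₀ ^ ((i % q).toNat)
    rw [inv_mul_cancel_right]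

theorem co_fin [FiniteDimensional k V] {g₀ : G} {q : ℕ} (hc : Cyc H g₀ q)
    (σ : Representation k H V) :
    FiniteDimensional k (CoV σ) ∧ finrank k (CoV σ) ≤ q * finrank k V := by
  let L : CoV σ →ₗ[k] (Fin q → V) :=
    { toFun := fun f i => f.1 (g₀ ^ (i : ℕ))
      map_add' := fun f f' => rfl
      map_smul' := fun c f => rfl }
  have hL : Function.Injective L := by
    intro f f' h
    apply Subtype.ext
    funext x
    obtain ⟨i, y, rfl⟩ := hc.rep x
    rw [f.2, f'.2]
    congr 1
    exact congrFun h i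
  have h1 : FiniteDimensional k (CoV σ) := FiniteDimensional.of_injective L hL
  refine ⟨h1, ?_⟩
  have h2 := LinearMap.finrank_le_finrank_of_injective hL
  rwa [finrank_pi_fintype, Finset.sum_const, Finset.card_univ, Fintype.card_fin, smul_eq_mul] at h2

theorem co_nontrivial [Nontrivial V] (σ : Representation k H V) : Nontrivial (CoV σ) := by
  classical
  obtain ⟨v, hv⟩ := exists_ne (0 : V)
  refine ⟨⟨⟨fun x => if hx : x ∈ H then σ ⟨x, hx⟩ v else 0, ?_⟩, 0, ?_⟩⟩
  · intro h x
    change (if hx : (h : G) * x ∈ H then σ ⟨_, hx⟩ v else 0) =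
      σ h (if hx : x ∈ H then σ ⟨x, hx⟩ v else 0)
    by_cases hx : x ∈ H
    · have h1 : (h : G) * x ∈ H := H.mul_mem h.2 hx
      rw [dif_pos hx, dif_pos h1, ← Module.End.mul_apply, ← map_mul]
      rfl
    · have h1 : (h : G) * x ∉ H := fun h2 => hx ((H.mul_mem_cancel_left h.2).1 h2)
      rw [dif_neg hx, dif_neg h1, map_zero]
  · intro h
    have h1 := congrFun (congrArg Subtype.val h) 1
    change (if hx : (1 : G) ∈ H then σ ⟨1, hx⟩ v else 0) = 0 at h1
    rw [dif_pos H.one_mem] at h1
    apply hv
    have h2 : σ (⟨1, H.one_mem⟩ : H) = 1 := map_one σ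
    rw [h2] at h1
    exact h1

theorem nontrivial_of_irr {V : Type} [AddCommGroup V] [Module k V] {σ : Representation k G V}
    (hσ : σ.IsIrreducible) : Nontrivial V := by
  by_contra h5
  rw [not_nontrivial_iff_subsingleton] at h5
  have h6 : (⊥ : Subrepresentation σ) = ⊤ := by
    apply Subrepresentation.toSubmodule_injective
    exact Subsingleton.elim _ _
  exact bot_ne_top h6

/-- an irreducible representation of the group over an irreducible representation of the
subgroup -/
theorem exists_over [FiniteDimensional k V] {g₀ : G} {q : ℕ} (hc : Cyc H g₀ q)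
    (σ : Representation k H V) (hσ : σ.IsIrreducible) :
    ∃ (W : Type) (_ : AddCommGroup W) (_ : Module k W) (_ : FiniteDimensional k W)
      (U : Representation k G W), U.IsIrreducible ∧ finrank k W ≤ q * finrank k V ∧
      ∃ φ : IntertwiningMap (res H U) σ, φ ≠ 0 := by
  have hV := nontrivial_of_irr hσ
  have hn := co_nontrivial σ
  obtain ⟨hf, hd⟩ := co_fin hc σ
  obtain ⟨U, hU⟩ := exists_atom (CoR σ)
  refine ⟨U.toSubmodule, inferInstance, inferInstance, inferInstance, U.toRepresentation,
    irr_of_atom hU, (Submodule.finrank_le _).trans hd, ?_⟩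
  refine ⟨{ toLinearMap := (coEv σ).toLinearMap ∘ₗ U.toSubmodule.subtype
            isIntertwining' := fun h => ?_ }, ?_⟩
  · refine LinearMap.ext fun f => ?_
    exact LinearMap.congr_fun ((coEv σ).isIntertwining' h) f.1
  · intro h
    have h4 : Nontrivial U.toSubmodule := nontrivial_of_irr (irr_of_atom hU)
    obtain ⟨f, hf0⟩ := exists_ne (0 : U.toSubmodule)
    apply hf0
    apply Subtype.ext
    apply Subtype.ext
    funext x
    have h5 := U.apply_mem_toSubmodule x f.2
    have h6 := congrArg (fun φ : IntertwiningMap (res H U.toRepresentation) σ =>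
      φ (⟨_, h5⟩ : U.toSubmodule)) h
    have h7 : (f.1.1 (1 * x)) = 0 := h6
    rw [one_mul] at h7
    exact h7

end coind

/-- a nonzero map from a semisimple representation to an irreducible one -/
theorem summand' {V W : Type} [AddCommGroup V] [Module k V] [FiniteDimensional k V]
    [AddCommGroup W] [Module k W] [FiniteDimensional k W] {ρ : Representation k G V}
    {σ : Representation k G W} (hρ : ρ.IsIrreducible) (hσ : σ.IsSemisimpleRepresentation)
    (φ : IntertwiningMap σ ρ) (hφ : φ ≠ 0) :
    ∃ T' : Subrepresentation σ, σ.character = ρ.character + T'.toRepresentation.character := by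
  have hsurj : Function.Surjective φ := (IsIrreducible.surjective_or_eq_zero φ).resolve_right hφ
  obtain ⟨T, hT⟩ := hσ.exists_isCompl φ.ker
  refine ⟨φ.ker, ?_⟩
  have h1 := char_compl hT
  rw [h1, add_comm]
  congr 1
  have hker : ∀ x : V → W, True := fun _ => trivial
  let ψ : T.toSubmodule →ₗ[k] V := φ.toLinearMap ∘ₗ T.toSubmodule.subtype
  have hcs : IsCompl φ.ker.toSubmodule T.toSubmodule := by
    constructor
    · rw [disjoint_iff]
      exact congrArg Subrepresentation.toSubmodule (disjoint_iff.1 hT.disjoint)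
    · rw [codisjoint_iff]
      exact congrArg Subrepresentation.toSubmodule (codisjoint_iff.1 hT.codisjoint)
  have hinj : Function.Injective ψ := by
    rw [← LinearMap.ker_eq_bot, eq_bot_iff]
    intro x hx
    have h2 : (x : W) ∈ φ.ker.toSubmodule := hx
    have h3 : (x : W) ∈ φ.ker.toSubmodule ⊓ T.toSubmodule := ⟨h2, x.2⟩
    rw [hcs.inf_eq_bot] at h3
    exact Subtype.ext h3
  have hsur : Function.Surjective ψ := by
    intro v
    obtain ⟨w, rfl⟩ := hsurj v
    have h2 : w ∈ φ.ker.toSubmodule ⊔ T.toSubmodule := by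
      rw [hcs.sup_eq_top]
      exact Submodule.mem_top
    obtain ⟨a, ha, b, hb, rfl⟩ := Submodule.mem_sup.1 h2
    refine ⟨⟨b, hb⟩, ?_⟩
    have h3 : φ a = 0 := ha
    change φ b = φ (a + b)
    rw [map_add, h3, zero_add]
  have e : Representation.Equiv T.toRepresentation ρ :=
    Representation.Equiv.mk (LinearEquiv.ofBijective ψ ⟨hinj, hsur⟩) (fun g => by
      refine LinearMap.ext fun x => ?_
      exact LinearMap.congr_fun (φ.isIntertwining' g) x.1)
  exact char_iso e

section conj

variable {H : Subgroup G}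

/-- the conjugate of an irreducible character is irreducible -/
theorem isIr_cj (hn : H.Normal) (g : G) {f : H → k} (hf : IsIr f) :
    IsIr (fun h : H => f ⟨g⁻¹ * h * g, by
      have := hn.conj_mem (h : G) h.2 g⁻¹
      rwa [inv_inv] at this⟩) := by
  obtain ⟨n, ρ, h1, rfl⟩ := hf
  exact ⟨n, cjRep hn g ρ, irr_cj hn g h1, rfl⟩

/-- the conjugate of an irreducible character -/
def cjX (hn : H.Normal) (g : G) (f : X k H) : X k H := ⟨_, isIr_cj hn g f.2⟩

theorem cjX_apply (hn : H.Normal) (g : G) (f : X k H) (h : H) (hh : g⁻¹ * (h : G) * g ∈ H) :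
    (cjX hn g f : H → k) h = (f : H → k) ⟨g⁻¹ * h * g, hh⟩ := rfl

/-- conjugation on the irreducible characters -/
def cjH (hn : H.Normal) : G →* Equiv.Perm (X k H) :=
  MonoidHom.toHomPerm
    { toFun := fun g => cjX hn g
      map_one' := by
        funext f
        apply Subtype.ext
        funext h
        change (f : H → k) _ = (f : H → k) h
        refine congrArg (f : H → k) (Subtype.ext ?_)
        change (1 : G)⁻¹ * h * 1 = h
        group
      map_mul' := fun g g' => by
        funext f
        apply Subtype.ext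
        funext h
        change (f : H → k) _ = (f : H → k) _
        refine congrArg (f : H → k) (Subtype.ext ?_)
        change (g * g')⁻¹ * h * (g * g') = g'⁻¹ * (g⁻¹ * h * g) * g'
        group }

theorem cjH_apply (hn : H.Normal) (g : G) (f : X k H) (h : H) (hh : g⁻¹ * (h : G) * g ∈ H) :
    (cjH hn g f : H → k) h = (f : H → k) ⟨g⁻¹ * h * g, hh⟩ := rfl

theorem char_conj_inv {V : Type} [AddCommGroup V] [Module k V] [FiniteDimensional k V]
    (ρ : Representation k G V) (x y : G) : ρ.character (x⁻¹ * y * x) = ρ.character y := by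
  have := Representation.char_conj ρ y x⁻¹
  rwa [inv_inv] at this

theorem cjH_mem (hn : H.Normal) (g : G) (hg : g ∈ H) (f : X k H) : cjH hn g f = f := by
  apply Subtype.ext
  funext h
  have hh : g⁻¹ * (h : G) * g ∈ H := H.mul_mem (H.mul_mem (H.inv_mem hg) h.2) hg
  rw [cjH_apply hn g f h hh, ← rp_char f]
  exact char_conj_inv (rp f) (⟨g, hg⟩ : H) h

theorem dm_cjH (hn : H.Normal) [CharZero k] (g : G) (f : X k H) : dm (cjH hn g f) = dm f := by
  have h1 := X_one (cjH hn g f)
  have hh : g⁻¹ * ((1 : H) : G) * g ∈ H := by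
    have : g⁻¹ * ((1 : H) : G) * g = 1 := by
      rw [Subgroup.coe_one]
      group
    rw [this]
    exact H.one_mem
  rw [cjH_apply hn g f 1 hh] at h1
  have h2 : (⟨g⁻¹ * ((1 : H) : G) * g, hh⟩ : H) = 1 := Subtype.ext (by
    change g⁻¹ * ((1 : H) : G) * g = ((1 : H) : G)
    rw [Subgroup.coe_one]
    group)
  rw [h2, X_one] at h1
  exact_mod_cast h1.symm

theorem Ph_cj (hn : H.Normal) (g : G) (m : X k H →₀ ℕ) (h : H) (hh : g⁻¹ * (h : G) * g ∈ H) :
    Ph (m.mapDomain (cjH hn g)) h = Ph m ⟨g⁻¹ * h * g, hh⟩ := by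
  induction m using Finsupp.induction_linear with
  | zero => rw [Finsupp.mapDomain_zero, map_zero, Pi.zero_apply, Pi.zero_apply]
  | add a b ha hb =>
    rw [Finsupp.mapDomain_add, map_add, map_add, Pi.add_apply, Pi.add_apply, ha, hb]
  | single f n =>
    rw [Finsupp.mapDomain_single, Ph_single, Ph_single, Pi.smul_apply, Pi.smul_apply,
      cjH_apply hn g f h hh]

/-- the multiplicities of an invariant character are invariant -/
theorem inv_mult [CharZero k] (hn : H.Normal) (g : G) {m : X k H →₀ ℕ}
    (hm : ∀ (h : H) (hh : g⁻¹ * (h : G) * g ∈ H), Ph m ⟨g⁻¹ * h * g, hh⟩ = Ph m h) (f : X k H) :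
    m (cjH hn g f) = m f := by
  have h1 : m.mapDomain (cjH hn g) = m := by
    apply Ph_inj
    funext h
    have hh : g⁻¹ * (h : G) * g ∈ H := by
      have := hn.conj_mem (h : G) h.2 g⁻¹
      rwa [inv_inv] at this
    rw [Ph_cj hn g m h hh, hm]
  have h2 := Finsupp.mapDomain_apply (cjH hn g : Equiv.Perm (X k H)).injective m f
  rw [h1] at h2
  exact h2

end conj

end Pool.Agent.Q15.GR
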