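import Pool.Agent.Q15.GRC3

/-!
# Extension of an invariant character from a normal subgroup of prime index, main theorem
-/

set_option autoImplicit false
set_option linter.unusedSectionVars false

namespace Pool.Agent.Q15.GR

open Representation Module
open scoped MonoidAlgebra

variable {k : Type} [Field k] {G : Type} [Group G] {H : Subgroup G}

theorem Ph_le_dg {m m' : X k G →₀ ℕ} (h : m ≤ m') : dg m ≤ dg m' := by
  obtain ⟨c, rfl⟩ := exists_add_of_le h
  rw [dg_add]
  omega

theorem eq_of_le_dg {m m' : X k G →₀ ℕ} (h : m ≤ m') (h' : dg m' ≤ dg m) : m = m' := by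
  obtain ⟨c, rfl⟩ := exists_add_of_le h
  rw [dg_add] at h'
  have h1 : dg c = 0 := by omega
  have h2 : c = 0 := by
    ext f
    by_contra h3
    have h3' : c f ≠ 0 := h3
    have h4 : c.sum (fun f n => n * dm f) = 0 := h1
    rw [Finsupp.sum, Finset.sum_eq_zero_iff] at h4
    have h5 := h4 f (Finsupp.mem_support_iff.2 h3')
    rcases Nat.mul_eq_zero.1 h5 with h6 | h6
    · exact h3' h6
    · exact (dm_pos f).ne' h6
  rw [h2, add_zero]

/-- an indicator function -/
noncomputable def indi (O : Finset (X k G)) : X k G →₀ ℕ := ∑ y ∈ O, Finsupp.single y 1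

theorem indi_mem [DecidableEq (X k G)] (O : Finset (X k G)) (f : X k G) :
    indi O f = if f ∈ O then 1 else 0 := by
  unfold indi
  rw [Finsupp.finset_sum_apply]
  simp only [Finsupp.single_apply]
  rw [Finset.sum_ite_eq']

theorem dg_indi (O : Finset (X k G)) : dg (indi O) = ∑ y ∈ O, dm y := by
  classical
  unfold indi
  induction O using Finset.induction_on with
  | empty => simp [dg]
  | insert a s ha ih => rw [Finset.sum_insert ha, Finset.sum_insert ha, dg_add, dg_single, ih,
      one_mul]

/-- every orbit sum of irreducible characters extends -/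
theorem orbit_ext [IsAlgClosed k] [CharZero k] {g₀ : G} {q : ℕ} (hc : Cyc H g₀ q)
    (hq : q.Prime) (f : X k H) :
    ∃ (O : Finset (X k H)) (f' : X k G), f ∈ O ∧
      (∀ (m : X k H →₀ ℕ), (∀ y, m (cjH hc.normal g₀ y) = m y) → m f ≠ 0 → indi O ≤ m) ∧
      (∀ h : H, (f' : G → k) h = Ph (indi O) h) ∧ (∀ y, (indi O) (cjH hc.normal g₀ y) = indi O y)
      := by
  classical
  set c := cjH (k := k) hc.normal g₀ with hcdef
  have hcq : c ^ q = 1 := by
    rw [hcdef, ← map_pow]
    refine Equiv.ext fun y => ?_
    exact cjH_mem hc.normal _ hc.pow y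
  have hpow : ∀ (m : X k H →₀ ℕ), (∀ y, m (c y) = m y) → ∀ i : ℕ, m ((c ^ i) f) = m f := by
    intro m hm i
    induction i with
    | zero => rfl
    | succ i ih =>
      rw [pow_succ', Equiv.Perm.mul_apply, hm, ih]
  by_cases hf : c f = f
  · -- the invariant case
    obtain ⟨t, ht⟩ := ext_irr hc (rp f) (rp_irr f) (by
      funext h
      rw [rp_char]
      have h1 := congrFun (congrArg Subtype.val hf) h
      rw [← h1]
      have hh : g₀⁻¹ * (h : G) * g₀ ∈ H := by
        have := hc.normal.conj_mem (h : G) h.2 g₀⁻¹
        rwa [inv_inv] at this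
      change (rp f).character ⟨g₀⁻¹ * h * g₀, hh⟩ = (f : H → k) ⟨g₀⁻¹ * h * g₀, hh⟩
      rw [rp_char])
    have hti : t.IsIrreducible := by
      have hnt : Nontrivial (Subrepresentation t) := by
        have := nontrivial_of_irr (rp_irr f)
        refine ⟨⟨⊥, ⊤, fun h => ?_⟩⟩
        have h1 : (⊥ : Submodule k (Fin (dm f) → k)) = ⊤ :=
          congrArg Subrepresentation.toSubmodule h
        exact bot_ne_top h1
      refine { eq_bot_or_eq_top := fun U => ?_ }
      let U' : Subrepresentation (rp f) := ⟨U.toSubmodule, fun h v hv => by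
        rw [← ht]
        exact U.apply_mem_toSubmodule (h : G) hv⟩
      have hs : IsSimpleOrder (Subrepresentation (rp f)) := rp_irr f
      rcases hs.eq_bot_or_eq_top U' with h1 | h1
      · left
        have h2 : U'.toSubmodule = ⊥ := congrArg Subrepresentation.toSubmodule h1
        exact Subrepresentation.toSubmodule_injective h2
      · right
        have h2 : U'.toSubmodule = ⊤ := congrArg Subrepresentation.toSubmodule h1
        exact Subrepresentation.toSubmodule_injective h2
    refine ⟨{f}, ⟨t.character, isIr_char t hti⟩, Finset.mem_singleton_self f, ?_, ?_, ?_⟩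
    · intro m hm hmf y
      rw [indi_mem]
      split_ifs with h1
      · rw [Finset.mem_singleton.1 h1]
        omega
      · exact Nat.zero_le _
    · intro h
      unfold indi
      rw [Finset.sum_singleton, Ph_single, one_smul, ← rp_char f, ← ht]
      rfl
    · intro y
      rw [indi_mem, indi_mem]
      have h1 : c y = f ↔ y = f := by
        constructor
        · intro h
          rw [← hf] at h
          exact c.injective h
        · rintro rfl
          exact hf
      simp only [Finset.mem_singleton, h1]
  · -- the induced case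
    obtain ⟨W, _, _, _, U, hU, hd, φ, hφ⟩ := exists_over hc (rp f) (rp_irr f)
    rw [finrank_fin_fun] at hd
    have hn := hc.normal
    have hs := semi_res H (irr_semi hU)
    obtain ⟨m, hm, -⟩ := exists_mult _ hs
    obtain ⟨T', hT'⟩ := summand' (rp_irr f) hs φ hφ
    obtain ⟨m₁, hm₁⟩ : ∃ m₁ : X k H →₀ ℕ, T'.toRepresentation.character = Ph m₁ :=
      (exists_mult _ (semi_sub hs T')).imp fun _ h => h.1
    have hmf : m f ≠ 0 := by
      have h1 : Ph m = Ph (Finsupp.single f 1 + m₁) := by
        rw [← hm, hT', map_add, Ph_single, one_smul, hm₁, rp_char]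
      have h2 := Ph_inj h1
      rw [h2, Finsupp.add_apply, Finsupp.single_eq_same]
      omega
    have hinv : ∀ y, m (c y) = m y := by
      intro y
      refine inv_mult hn g₀ (fun h hh => ?_) y
      rw [← hm]
      exact char_conj_inv U g₀ h
    have hinj : ∀ i < q, ∀ j < q, (c ^ i) f = (c ^ j) f → i = j := by
      have h0 : ∀ i j : ℕ, i < j → j < q → (c ^ i) f ≠ (c ^ j) f := by
        intro i j hij hj h
        have h1 : (c ^ (j - i)) f = f := by
          have h2 : c ^ j = c ^ i * c ^ (j - i) := by
            rw [← pow_add]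
            congr 1
            omega
          rw [h2, Equiv.Perm.mul_apply] at h
          exact ((c ^ i).injective h).symm
        have h3 : Nat.Coprime (j - i) q := by
          rw [Nat.coprime_comm, Nat.Prime.coprime_iff_not_dvd hq]
          intro h4
          have := Nat.le_of_dvd (by omega) h4
          omega
        -- Bezout
        have h5 : Function.IsPeriodicPt c (j - i) f := by
          change c^[j - i] f = f
          rw [← Equiv.Perm.coe_pow]
          exact h1
        have h6 : Function.IsPeriodicPt c q f := by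
          change c^[q] f = f
          rw [← Equiv.Perm.coe_pow, hcq]
          rfl
        have h7 := h5.gcd h6
        rw [h3] at h7
        exact hf h7
      intro i hi j hj h
      rcases lt_trichotomy i j with h1 | h1 | h1
      · exact absurd h (h0 i j h1 hj)
      · exact h1
      · exact absurd h.symm (h0 j i h1 hi)
    set O : Finset (X k H) := (Finset.range q).image (fun i => (c ^ i) f) with hO
    have hOm : ∀ (m : X k H →₀ ℕ), (∀ y, m (c y) = m y) → m f ≠ 0 → indi O ≤ m := by
      intro m hm hmf y
      rw [indi_mem]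
      split_ifs with h1
      · obtain ⟨i, -, rfl⟩ := Finset.mem_image.1 h1
        rw [hpow m hm i]
        omega
      · exact Nat.zero_le _
    have hOd : dg (indi O) = q * dm f := by
      rw [dg_indi, hO, Finset.sum_image]
      · have h1 : ∀ i ∈ Finset.range q, dm ((c ^ i) f) = dm f := by
          intro i _
          rw [hcdef, ← map_pow]
          exact dm_cjH hn _ f
        rw [Finset.sum_congr rfl h1, Finset.sum_const, Finset.card_range, smul_eq_mul]
      · intro i hi j hj h
        exact hinj i (Finset.mem_range.1 hi) j (Finset.mem_range.1 hj) h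
    have hmd : dg m = finrank k W := dg_eq hm
    have hOeq : indi O = m := by
      apply eq_of_le_dg (hOm m hinv hmf)
      rw [hOd, hmd]
      exact hd
    refine ⟨O, ⟨U.character, isIr_char U hU⟩, ?_, hOm, ?_, ?_⟩
    · exact Finset.mem_image.2 ⟨0, Finset.mem_range.2 hq.pos, rfl⟩
    · intro h
      rw [hOeq, ← hm]
      rfl
    · rw [hOeq]
      exact hinv

/-- **an invariant character of a normal subgroup of prime index extends** -/
theorem ext_inv_mult [IsAlgClosed k] [CharZero k] {g₀ : G} {q : ℕ} (hc : Cyc H g₀ q)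
    (hq : q.Prime) (n : ℕ) : ∀ m : X k H →₀ ℕ, (∀ y, m (cjH hc.normal g₀ y) = m y) → dg m = n →
    ∃ m' : X k G →₀ ℕ, ∀ h : H, Ph m' (h : G) = Ph m h := by
  classical
  induction n using Nat.strong_induction_on with
  | _ n ih =>
    intro m hm hn
    by_cases h0 : m = 0
    · refine ⟨0, fun h => ?_⟩
      rw [h0, map_zero, map_zero]
      rfl
    obtain ⟨f, hf⟩ := Finsupp.ne_iff.1 h0
    have hf' : m f ≠ 0 := hf
    obtain ⟨O, f', hfO, hO, hO', hO''⟩ := orbit_ext hc hq f
    have hle := hO m hm hf'
    obtain ⟨m₁, rfl⟩ := exists_add_of_le hle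
    have hpos : 0 < dg (indi O) := by
      rw [dg_indi]
      exact (dm_pos f).trans_le (Finset.single_le_sum (f := fun y => dm y)
        (fun _ _ => Nat.zero_le _) hfO)
    rw [dg_add] at hn
    obtain ⟨m', hm'⟩ := ih (dg m₁) (by omega) m₁ (by
      intro y
      have h1 := hm y
      rw [Finsupp.add_apply, Finsupp.add_apply, hO''] at h1
      exact Nat.add_left_cancel h1) rfl
    refine ⟨Finsupp.single f' 1 + m', fun h => ?_⟩
    rw [map_add, map_add, Pi.add_apply, Pi.add_apply, Ph_single, one_smul, hO', hm']

theorem ext_inv [IsAlgClosed k] [CharZero k] {g₀ : G} {q : ℕ} (hc : Cyc H g₀ q)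
    (hq : q.Prime) {f : H → k} (hf : IsSs f)
    (hinv : ∀ (h : H) (hh : g₀⁻¹ * (h : G) * g₀ ∈ H), f ⟨g₀⁻¹ * h * g₀, hh⟩ = f h) :
    ∃ m' : X k G →₀ ℕ, ∀ h : H, Ph m' (h : G) = f h := by
  obtain ⟨m, rfl⟩ := hf.exists_Ph
  exact ext_inv_mult hc hq _ m (fun y => inv_mult hc.normal g₀ hinv y) rfl

end Pool.Agent.Q15.GR
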