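import Pool.Agent.Q15.GRP4

/-!
# The number of self-twists of an irreducible representation divides the square of its dimension
-/

set_option autoImplicit false
set_option linter.unusedSectionVars false

namespace Pool.Agent.Q15.GR

open Representation Module

section avg

variable {k : Type} [Field k] [CharZero k] {A : Type} [Group A] [Fintype A] {V : Type}
  [AddCommGroup V] [Module k V] [FiniteDimensional k V]

/-- the dimension of the invariants is the average of the character -/
theorem card_mul_inv (ρ : Representation k A V) :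
    (Fintype.card A : k) * (finrank k ρ.invariants : k) = ∑ a, LinearMap.trace k V (ρ a) := by
  have hc : (Fintype.card A : k) ≠ 0 := by
    exact_mod_cast Fintype.card_ne_zero
  haveI : Invertible (Fintype.card A : k) := invertibleOfNonzero hc
  have h1 := (isProj_averageMap ρ).trace
  rw [← h1]
  unfold averageMap GroupAlgebra.average
  rw [map_smul, map_sum, map_smul, map_sum, smul_eq_mul, ← mul_assoc, mul_invOf_self, one_mul]
  refine Finset.sum_congr rfl fun a _ => ?_
  rw [Representation.asAlgebraHom_of]

end avg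

section twist

variable {k : Type} [Field k] [IsAlgClosed k] [CharZero k] {G : Type} [Group G]

/-- **self-twists** -/
theorem self_twist (x : X k G) (A : Subgroup (G →* kˣ)) [Finite A]
    (hA : ∀ a ∈ A, a • x = x) : Nat.card A ∣ dm x ^ 2 := by
  classical
  haveI := Fintype.ofFinite A
  set V := Fin (dm x) → k with hV
  set ρ := rp x with hρ
  have hirr : ρ.IsIrreducible := rp_irr x
  have hnt : Nontrivial V := nontrivial_of_irr hirr
  let s : G →* (Module.End k V)ˣ := MonoidHom.toHomUnits ρ
  have hs : ∀ g, (s g : Module.End k V) = ρ g := fun g => rfl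
  let sc : kˣ →* (Module.End k V)ˣ := Units.map (algebraMap k (Module.End k V)).toMonoidHom
  have hsc : ∀ (c : kˣ) (y : (Module.End k V)ˣ), sc c * y = y * sc c := by
    intro c y
    apply Units.ext
    exact Algebra.commutes (c : k) (y : Module.End k V)
  -- the intertwining operators
  have hT : ∀ a : A, ∃ T : (Module.End k V)ˣ, ∀ g, s g * T = sc ((a : G →* kˣ) g) * T * s g := by
    intro a
    have h1 : (twist (a : G →* kˣ) ρ).character = ρ.character := by
      funext g
      rw [char_twist, hρ, rp_char]
      have h2 := hA a a.2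
      conv_rhs => rw [← h2]
      rfl
    obtain ⟨e⟩ := equiv_of_irr _ _ (irr_twist (a : G →* kˣ) hirr) hirr h1
    let B₀ : (Module.End k V)ˣ :=
      ⟨e.toLinearEquiv.toLinearMap, e.toLinearEquiv.symm.toLinearMap,
        LinearMap.ext fun y => e.toLinearEquiv.apply_symm_apply y,
        LinearMap.ext fun y => e.toLinearEquiv.symm_apply_apply y⟩
    refine ⟨B₀, fun g => ?_⟩
    apply Units.ext
    refine LinearMap.ext fun v => ?_
    have h3 : e (twist (a : G →* kˣ) ρ g v) = ρ g (e v) :=
      IntertwiningMap.isIntertwining _ _ e.toIntertwiningMap g v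
    rw [twist_apply, LinearMap.smul_apply] at h3
    change ρ g (e v) = (algebraMap k (Module.End k V) ((a : G →* kˣ) g : k)) (e (ρ g v))
    rw [← h3, Module.algebraMap_end_apply]
    exact (map_smul e.toLinearEquiv _ _)
  choose T hT using hT
  -- Schur's lemma
  have hschur : ∀ y : (Module.End k V)ˣ, (∀ g, s g * y = y * s g) → ∃ c : kˣ, y = sc c := by
    intro y hy
    let Z : IntertwiningMap ρ ρ :=
      { toLinearMap := (y : Module.End k V)
        isIntertwining' := fun g => congrArg Units.val (hy g).symm }
    obtain ⟨c, hc'⟩ := (IsIrreducible.algebraMap_intertwiningMap_bijective_of_isAlgClosed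
      (ρ := ρ)).2 Z
    have hcZ : (y : Module.End k V) = c • 1 := by
      have h1 := congrArg IntertwiningMap.toLinearMap hc'
      exact h1.symm
    have hc0 : c ≠ 0 := by
      rintro rfl
      rw [zero_smul] at hcZ
      exact y.ne_zero hcZ
    refine ⟨Units.mk0 c hc0, Units.ext ?_⟩
    rw [hcZ]
    change c • (1 : Module.End k V) = algebraMap k (Module.End k V) c
    rw [Algebra.algebraMap_eq_smul_one]
  have hmul : ∀ a b : A, ∃ c : kˣ, T a * T b = sc c * T (a * b) := by
    intro a b
    obtain ⟨c, hc⟩ := hschur ((T (a * b))⁻¹ * (T a * T b)) (by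
      intro g
      have h1 : s g * (T (a * b))⁻¹ = (sc (((a * b : A) : G →* kˣ) g))⁻¹ * ((T (a * b))⁻¹ * s g) := by
        have h2 := hT (a * b) g
        rw [← mul_inv_eq_iff_eq_mul] at h2
        rw [eq_inv_mul_iff_mul_eq, eq_inv_mul_iff_mul_eq, ← mul_assoc, ← mul_assoc,
          mul_inv_eq_iff_eq_mul, ← hsc]
        exact (hT (a * b) g).symm
      have h2 : s g * (T a * T b) = sc (((a * b : A) : G →* kˣ) g) * ((T a * T b) * s g) := by
        rw [← mul_assoc, hT a g, mul_assoc, hT b g]
        have h3 : ((a * b : A) : G →* kˣ) g = (a : G →* kˣ) g * (b : G →* kˣ) g := rfl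
        rw [h3, map_mul, mul_assoc (sc _) (T b) (s g)]
        calc sc ((a : G →* kˣ) g) * T a * (sc ((b : G →* kˣ) g) * (T b * s g)) =
            sc ((a : G →* kˣ) g) * ((T a * sc ((b : G →* kˣ) g)) * (T b * s g)) := by
              simp only [mul_assoc]
          _ = sc ((a : G →* kˣ) g) * ((sc ((b : G →* kˣ) g) * T a) * (T b * s g)) := by
              rw [hsc ((b : G →* kˣ) g) (T a)]
          _ = _ := by simp only [mul_assoc]
      calc s g * ((T (a * b))⁻¹ * (T a * T b)) = (s g * (T (a * b))⁻¹) * (T a * T b) := by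
            rw [mul_assoc]
        _ = (sc (((a * b : A) : G →* kˣ) g))⁻¹ * ((T (a * b))⁻¹ * (s g * (T a * T b))) := by
            rw [h1]
            simp only [mul_assoc]
        _ = (sc (((a * b : A) : G →* kˣ) g))⁻¹ * ((T (a * b))⁻¹ *
              (sc (((a * b : A) : G →* kˣ) g) * ((T a * T b) * s g))) := by rw [h2]
        _ = (T (a * b))⁻¹ * (T a * T b) * s g := by
            rw [← mul_assoc (T (a * b))⁻¹ (sc _), ← hsc _ (T (a * b))⁻¹, mul_assoc (sc _),
              inv_mul_cancel_left]
            simp only [mul_assoc])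
    refine ⟨c, ?_⟩
    rw [inv_mul_eq_iff_eq_mul] at hc
    rw [hc, hsc]
  have hone : ∃ c : kˣ, T 1 = sc c := by
    apply hschur
    intro g
    rw [hT 1 g]
    have h1 : ((1 : A) : G →* kˣ) g = 1 := rfl
    rw [h1, map_one, one_mul]
  -- the action on endomorphisms
  let Ad : (Module.End k V)ˣ → Module.End k (Module.End k V) := fun y =>
    LinearMap.mulLeft k (y : Module.End k V) ∘ₗ LinearMap.mulRight k ((y⁻¹ : (Module.End k V)ˣ) : Module.End k V)
  have hAd : ∀ y Y, Ad y Y = (y : Module.End k V) * (Y * ((y⁻¹ : (Module.End k V)ˣ) : Module.End k V)) :=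
    fun y Y => rfl
  have hAdmul : ∀ y z, Ad (y * z) = Ad y * Ad z := by
    intro y z
    refine LinearMap.ext fun Y => ?_
    rw [Module.End.mul_apply, hAd, hAd, hAd, mul_inv_rev, Units.val_mul, Units.val_mul]
    simp only [mul_assoc]
  have hAdsc : ∀ c : kˣ, Ad (sc c) = 1 := by
    intro c
    refine LinearMap.ext fun Y => ?_
    rw [hAd, ← map_inv]
    have h1 : ((sc c⁻¹ : (Module.End k V)ˣ) : Module.End k V) =
      algebraMap k (Module.End k V) ((c⁻¹ : kˣ) : k) := rfl
    have h2 : ((sc c : (Module.End k V)ˣ) : Module.End k V) =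
      algebraMap k (Module.End k V) (c : k) := rfl
    rw [h1, h2, ← Algebra.commutes, ← mul_assoc, ← map_mul, Units.mul_inv, map_one, one_mul]
    rfl
  let R : Representation k A (Module.End k V) :=
    { toFun := fun a => Ad (T a)
      map_one' := by
        obtain ⟨c, hc⟩ := hone
        rw [hc, hAdsc]
      map_mul' := fun a b => by
        obtain ⟨c, hc⟩ := hmul a b
        rw [← hAdmul, hc, hAdmul, hAdsc, one_mul] }
  -- traces
  have htr : ∀ a : A, a ≠ 1 → LinearMap.trace k (Module.End k V) (R a) = 0 := by
    intro a ha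
    obtain ⟨g, hg⟩ : ∃ g, (a : G →* kˣ) g ≠ 1 := by
      by_contra hall
      push Not at hall
      exact ha (Subtype.ext (MonoidHom.ext hall))
    let C : (Module.End k (Module.End k V))ˣ :=
      ⟨LinearMap.mulRight k (s g : Module.End k V),
        LinearMap.mulRight k ((s g)⁻¹ : (Module.End k V)ˣ),
        LinearMap.ext fun Y => by
          change Y * ((s g)⁻¹ : (Module.End k V)ˣ) * (s g : Module.End k V) = Y
          rw [mul_assoc, Units.inv_mul, mul_one],
        LinearMap.ext fun Y => by
          change Y * (s g : Module.End k V) * ((s g)⁻¹ : (Module.End k V)ˣ) = Y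
          rw [mul_assoc, Units.mul_inv, mul_one]⟩
    have h1 : R a * (C : Module.End k (Module.End k V)) =
        ((((a : G →* kˣ) g)⁻¹ : kˣ) : k) • ((C : Module.End k (Module.End k V)) * R a) := by
      refine LinearMap.ext fun Y => ?_
      rw [Module.End.mul_apply, LinearMap.smul_apply, Module.End.mul_apply]
      have e1 : ∀ Z : Module.End k V, (C : Module.End k (Module.End k V)) Z =
        Z * (s g : Module.End k V) := fun Z => rfl
      have e2 : ∀ Z : Module.End k V, R a Z = (T a : Module.End k V) *
        (Z * (((T a)⁻¹ : (Module.End k V)ˣ) : Module.End k V)) := fun Z => rfl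
      rw [e1, e1, e2, e2]
      have h2 : (s g : Module.End k V) * (((T a)⁻¹ : (Module.End k V)ˣ) : Module.End k V) =
          ((((a : G →* kˣ) g)⁻¹ : kˣ) : k) • ((((T a)⁻¹ : (Module.End k V)ˣ) : Module.End k V) *
            (s g : Module.End k V)) := by
        have h3 : s g * (T a)⁻¹ = sc ((a : G →* kˣ) g)⁻¹ * ((T a)⁻¹ * s g) := by
          rw [map_inv, eq_inv_mul_iff_mul_eq, eq_inv_mul_iff_mul_eq, ← mul_assoc, ← mul_assoc,
            mul_inv_eq_iff_eq_mul, ← hsc]
          exact (hT a g).symm
        have h4 := congrArg Units.val h3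
        rw [Units.val_mul, Units.val_mul, Units.val_mul] at h4
        rw [h4]
        have h5 : ((sc ((a : G →* kˣ) g)⁻¹ : (Module.End k V)ˣ) : Module.End k V) =
          algebraMap k (Module.End k V) ((((a : G →* kˣ) g)⁻¹ : kˣ) : k) := rfl
        rw [h5, Algebra.algebraMap_eq_smul_one, smul_mul_assoc, one_mul]
      rw [mul_assoc Y, h2, mul_smul_comm, mul_smul_comm]
      simp only [mul_assoc]
    have h2 := LinearMap.trace_conj k (M := Module.End k V)
    have h3 : LinearMap.trace k (Module.End k V) (R a) =
        ((((a : G →* kˣ) g)⁻¹ : kˣ) : k) * LinearMap.trace k (Module.End k V) (R a) := by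
      have h4 : R a = ((((a : G →* kˣ) g)⁻¹ : kˣ) : k) •
          ((C : Module.End k (Module.End k V)) * R a * ((C⁻¹ : (Module.End k (Module.End k V))ˣ) :
            Module.End k (Module.End k V))) := by
        rw [← smul_mul_assoc, ← h1, mul_assoc, Units.mul_inv, mul_one]
      conv_lhs => rw [h4]
      rw [map_smul, smul_eq_mul, h2 (R a) C]
    have h5 : (1 - ((((a : G →* kˣ) g)⁻¹ : kˣ) : k)) *
        LinearMap.trace k (Module.End k V) (R a) = 0 := by
      rw [sub_mul, one_mul, ← h3, sub_self]
    rcases mul_eq_zero.1 h5 with h6 | h6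
    · exfalso
      apply hg
      have h7 : ((a : G →* kˣ) g)⁻¹ = 1 := Units.ext (sub_eq_zero.1 h6).symm
      exact inv_eq_one.1 h7
    · exact h6
  have h1 := card_mul_inv R
  rw [Finset.sum_eq_single (1 : A) (fun a _ ha => htr a ha)
    (fun h => absurd (Finset.mem_univ _) h), map_one, LinearMap.trace_one,
    Module.finrank_linearMap] at h1
  have h2 : finrank k V = dm x := finrank_fin_fun k
  rw [h2] at h1
  refine ⟨finrank k R.invariants, ?_⟩
  rw [Nat.card_eq_fintype_card, pow_two]
  exact_mod_cast h1.symm

end twist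

end Pool.Agent.Q15.GR
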