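import Pool.Agent.Q15.GRG1
import Pool.Agent.Q15.GRA3

/-!
# Quadratic patching of representations of the absolute Galois group
-/

set_option autoImplicit false
set_option linter.unusedSectionVars false
set_option linter.style.haveILetI false

namespace Pool.Agent.Q15.GRG

open Representation Module NumberField IsDedekindDomain Finset
open Pool.Agent.W401.Cheb Pool.Agent.Q15.GR
open Pool.Agent.Q15.GRA (IsQuad Split Inert Large Indep large_fin)
open Pool.Agent.Q15.GRA.AutRep (mul_self_char finite_closure gen_closure)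

variable {K : Type} [Field K] [NumberField K]

section

variable {k : Type} [Field k] [CharZero k]

/-- the quadratic characters with values in `k` -/
noncomputable def sg : (GK K →* ℤˣ) →* (GK K →* kˣ) where
  toFun χ := (Units.map (Int.castRingHom k).toMonoidHom).comp χ
  map_one' := MonoidHom.ext fun g => by
    rw [MonoidHom.comp_apply, MonoidHom.one_apply, MonoidHom.one_apply, map_one]
  map_mul' χ χ' := MonoidHom.ext fun g => by
    rw [MonoidHom.comp_apply, MonoidHom.mul_apply, MonoidHom.mul_apply, map_mul]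
    rfl

theorem sg_apply (χ : GK K →* ℤˣ) (g : GK K) : ((sg (k := k) χ g : kˣ) : k) = ((χ g : ℤ) : k) := rfl

theorem sg_one_iff (χ : GK K →* ℤˣ) (g : GK K) : sg (k := k) χ g = 1 ↔ χ g = 1 := by
  constructor
  · intro h
    apply Units.ext
    have h1 := congrArg Units.val h
    rw [sg_apply, Units.val_one] at h1
    rw [Units.val_one]
    exact Int.cast_injective (α := k) (by rw [h1, Int.cast_one])
  · intro h
    apply Units.ext
    rw [sg_apply, h, Units.val_one, Units.val_one, Int.cast_one]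

theorem sg_inj : Function.Injective (sg (K := K) (k := k)) := by
  intro χ χ' h
  refine MonoidHom.ext fun g => Units.ext ?_
  have h1 := congrArg Units.val (DFunLike.congr_fun h g)
  rw [sg_apply, sg_apply] at h1
  exact Int.cast_injective h1

theorem sg_ker (χ : GK K →* ℤˣ) : (sg (k := k) χ).ker = χ.ker := by
  ext g
  rw [MonoidHom.mem_ker, MonoidHom.mem_ker, sg_one_iff]

theorem sg_mul_self (χ : GK K →* ℤˣ) : sg (k := k) χ * sg (k := k) χ = 1 := by
  rw [← map_mul, mul_self_char, map_one]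

theorem sg_inv (χ : GK K →* ℤˣ) : (sg (k := k) χ)⁻¹ = sg (k := k) χ :=
  MonoidHom.ext fun g => by
    rw [MonoidHom.inv_apply]
    apply inv_eq_of_mul_eq_one_left
    rw [← MonoidHom.mul_apply, sg_mul_self, MonoidHom.one_apply]

theorem sg_smul_smul (χ : GK K →* ℤˣ) (x : X k (GK K)) :
    sg (k := k) χ • (sg (k := k) χ • x) = x := by
  rw [← X_mul_smul, sg_mul_self, X_one_smul]

theorem cyc (χ : GK K →* ℤˣ) {g₀ : GK K} (h : χ g₀ ≠ 1) : Cyc χ.ker g₀ 2 := by
  have h1 := cyc_ker (sg (k := ℚ) χ) Nat.prime_two (fun g => by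
    rw [← MonoidHom.pow_apply, pow_two, sg_mul_self, MonoidHom.one_apply]) g₀
    (fun h' => h ((sg_one_iff χ g₀).1 h'))
  rwa [sg_ker] at h1

theorem sign_cases (χ : GK K →* ℤˣ) (g : GK K) :
    (χ g = 1 ∧ ((sg (k := k) χ g : kˣ) : k) = 1) ∨ (χ g ≠ 1 ∧ ((sg (k := k) χ g : kˣ) : k) = -1) := by
  rcases Int.units_eq_one_or (χ g) with h | h
  · left
    refine ⟨h, ?_⟩
    rw [sg_apply, h, Units.val_one, Int.cast_one]
  · right
    refine ⟨by rw [h]; decide, ?_⟩
    rw [sg_apply, h, Units.val_neg, Units.val_one, Int.cast_neg, Int.cast_one]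

/-- the multiplicities of `ρ + χ ρ` -/
noncomputable def W (χ : GK K →* ℤˣ) (F : X k (GK K) →₀ ℕ) : X k (GK K) →₀ ℕ := F + tw (sg χ) F

theorem W_apply (χ : GK K →* ℤˣ) (F : X k (GK K) →₀ ℕ) (x : X k (GK K)) :
    W χ F x = F x + F (sg (k := k) χ • x) := by
  unfold W
  rw [Finsupp.add_apply, GR.tw_apply, sg_inv]

theorem Ph_W (χ : GK K →* ℤˣ) (F : X k (GK K) →₀ ℕ) (g : GK K) :
    Ph (W χ F) g = (1 + ((sg (k := k) χ g : kˣ) : k)) * Ph F g := by
  unfold W
  rw [map_add, Pi.add_apply, Ph_tw]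
  ring

theorem Ph_W' (χ : GK K →* ℤˣ) (F : X k (GK K) →₀ ℕ) (g : GK K) :
    Ph (W χ F) g = if χ g = 1 then 2 * Ph F g else 0 := by
  rw [Ph_W]
  rcases sign_cases (k := k) χ g with ⟨h, h'⟩ | ⟨h, h'⟩
  · rw [if_pos h, h']
    ring
  · rw [if_neg h, h']
    ring

theorem W_eq_iff (χ : GK K →* ℤˣ) (F F' : X k (GK K) →₀ ℕ) :
    W χ F = W χ F' ↔ ∀ g, χ g = 1 → Ph F g = Ph F' g := by
  constructor
  · intro h g hg
    have h1 := congrFun (congrArg (fun m => (Ph m : GK K → k)) h) g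
    change Ph (W χ F) g = Ph (W χ F') g at h1
    rw [Ph_W', Ph_W', if_pos hg, if_pos hg] at h1
    exact mul_left_cancel₀ two_ne_zero h1
  · intro h
    apply Ph_inj
    funext g
    rw [Ph_W', Ph_W']
    split_ifs with h1
    · rw [h g h1]
    · rfl

theorem W_comm {χ χ' : GK K →* ℤˣ} {F F' : X k (GK K) →₀ ℕ}
    (h : ∀ g, χ g = 1 → χ' g = 1 → Ph F g = Ph F' g) : W χ' (W χ F) = W χ (W χ' F') := by
  apply Ph_inj
  funext g
  rw [Ph_W', Ph_W', Ph_W', Ph_W']
  split_ifs with h1 h2 h2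
  · rw [h g h2 h1]
  · ring
  · ring
  · rfl

theorem dm_smul (ψ : GK K →* kˣ) (x : X k (GK K)) : dm (ψ • x) = dm x := by
  have h1 := X_one (ψ • x)
  rw [X_smul, map_one, Units.val_one, one_mul, X_one] at h1
  exact_mod_cast h1.symm

theorem le_dg (F : X k (GK K) →₀ ℕ) (s : Finset (X k (GK K))) : ∑ x ∈ s, F x * dm x ≤ dg F := by
  classical
  unfold dg
  rw [Finsupp.sum]
  have h1 : ∑ x ∈ s, F x * dm x = ∑ x ∈ s ∩ F.support, F x * dm x := by
    symm
    refine Finset.sum_subset Finset.inter_subset_left fun x hx hx' => ?_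
    have h2 : F x = 0 := by
      by_contra h3
      exact hx' (Finset.mem_inter.2 ⟨hx, Finsupp.mem_support_iff.2 h3⟩)
    rw [h2, zero_mul]
  rw [h1]
  exact Finset.sum_le_sum_of_subset Finset.inter_subset_right

theorem dg_of_W {χ : GK K →* ℤˣ} {F F' : X k (GK K) →₀ ℕ} (h : W χ F = W χ F') :
    dg F = dg F' := by
  have h1 := (W_eq_iff χ F F').1 h 1 (map_one χ)
  rw [Ph_one, Ph_one] at h1
  exact_mod_cast h1

variable [IsAlgClosed k]

theorem stab_dvd (s : Finset (GK K →* ℤˣ)) (x : X k (GK K)) :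
    Nat.card {b : Subgroup.closure (s : Set (GK K →* ℤˣ)) // sg (k := k) b.1 • x = x} ∣
      dm x ^ 2 := by
  classical
  let A₀ : Subgroup (GK K →* ℤˣ) :=
    { carrier := {χ | χ ∈ Subgroup.closure (s : Set (GK K →* ℤˣ)) ∧ sg (k := k) χ • x = x}
      mul_mem' := fun {a b} ha hb => ⟨Subgroup.mul_mem _ ha.1 hb.1, by
        rw [map_mul, X_mul_smul, hb.2, ha.2]⟩
      one_mem' := ⟨Subgroup.one_mem _, by rw [map_one, X_one_smul]⟩
      inv_mem' := fun {a} ha => ⟨Subgroup.inv_mem _ ha.1, by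
        rw [map_inv, sg_inv, ha.2]⟩ }
  haveI := finite_closure s
  have hfin : Finite A₀ := by
    have h1 : A₀ ≤ Subgroup.closure (s : Set (GK K →* ℤˣ)) := fun χ hχ => hχ.1
    exact Finite.of_injective (Subgroup.inclusion h1) (Subgroup.inclusion_injective h1)
  have he := A₀.equivMapOfInjective sg (sg_inj (K := K) (k := k))
  haveI : Finite (A₀.map (sg (K := K) (k := k))) := Finite.of_equiv _ he.toEquiv
  have h1 := self_twist x (A₀.map sg) (by
    rintro _ ⟨χ, hχ, rfl⟩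
    exact hχ.2)
  rw [← Nat.card_congr he.toEquiv] at h1
  have h2 : Nat.card A₀ =
      Nat.card {b : Subgroup.closure (s : Set (GK K →* ℤˣ)) // sg (k := k) b.1 • x = x} :=
    Nat.card_congr
      { toFun := fun a => ⟨⟨a.1, a.2.1⟩, a.2.2⟩
        invFun := fun b => ⟨b.1.1, b.1.2, b.2⟩
        left_inv := fun _ => rfl
        right_inv := fun _ => rfl }
  rwa [h2] at h1

/-- patching for finitely many quadratic extensions -/
theorem grp_patch (n : ℕ) (s : Finset (GK K →* ℤˣ))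
    (hcard : 2 ^ GRQ.rr n ≤ Nat.card (Subgroup.closure (s : Set (GK K →* ℤˣ))))
    (f : (GK K →* ℤˣ) → X k (GK K) →₀ ℕ) (hf : ∀ χ ∈ s, dg (f χ) ≤ n)
    (hrel : ∀ χ ∈ s, ∀ χ' ∈ s, ∀ g, χ g = 1 → χ' g = 1 → Ph (f χ) g = Ph (f χ') g) :
    ∃ F : X k (GK K) →₀ ℕ, ∀ χ ∈ s, W χ F = W χ (f χ) := by
  classical
  haveI := finite_closure s
  obtain ⟨χ₀, hχ₀⟩ : s.Nonempty := by
    by_contra hne
    rw [Finset.not_nonempty_iff_eq_empty] at hne
    rw [hne] at hcard
    have h1 : Nat.card (Subgroup.closure ((∅ : Finset (GK K →* ℤˣ)) : Set (GK K →* ℤˣ))) = 1 := by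
      rw [Finset.coe_empty, Subgroup.closure_empty]
      exact Subgroup.card_bot
    rw [h1] at hcard
    have h2 : 1 < 2 ^ GRQ.rr n := Nat.one_lt_two_pow (by have := GRQ.le_rr n; omega)
    omega
  obtain ⟨F, hF⟩ := GRQ.main (B := Subgroup.closure (s : Set (GK K →* ℤˣ)))
    (ι := (s : Set (GK K →* ℤˣ))) (X := X k (GK K))
    (fun b x => sg (k := k) b.1 • x) (fun x => by
      change sg (k := k) 1 • x = x
      rw [map_one, X_one_smul])
    (fun a b x => by
      change sg (k := k) (a.1 * b.1) • x = _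
      rw [map_mul, X_mul_smul])
    (fun b => Subtype.ext (mul_self_char b.1))
    (fun i => ⟨i.1, Subgroup.subset_closure i.2⟩) (gen_closure _)
    dm dm_pos (fun b x => dm_smul _ x) (stab_dvd s) n hcard
    (fun i x => f i.1 x) (fun i t => (le_dg (f i.1) t).trans (hf i.1 i.2))
    (fun i x => f i.1 x + f i.1 (sg (k := k) i.1 • x)) (fun i x => rfl)
    (by
      intro i j x
      have h1 := W_comm (hrel i.1 i.2 j.1 j.2)
      have h2 := DFunLike.congr_fun h1 x
      rw [W_apply, W_apply, W_apply, W_apply, W_apply, W_apply] at h2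
      exact h2)
  have hfin : (Function.support F).Finite := by
    refine (W χ₀ (f χ₀)).support.finite_toSet.subset ?_
    intro x hx
    rw [Finset.mem_coe, Finsupp.mem_support_iff, W_apply]
    have h1 := hF ⟨χ₀, hχ₀⟩ x
    rw [Function.mem_support] at hx
    change F x + F (sg (k := k) χ₀ • x) = f χ₀ x + f χ₀ (sg (k := k) χ₀ • x) at h1
    omega
  refine ⟨Finsupp.ofSupportFinite F hfin, fun χ hχ => ?_⟩
  ext x
  rw [W_apply, W_apply]
  exact hF ⟨χ, hχ⟩ x

/-- uniqueness -/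
theorem grp_unique (n : ℕ) (s : Finset (GK K →* ℤˣ))
    (hcard : 2 ^ GRQ.rr n ≤ Nat.card (Subgroup.closure (s : Set (GK K →* ℤˣ))))
    (F F' : X k (GK K) →₀ ℕ) (hF : dg F ≤ n) (hF' : dg F' ≤ n)
    (h : ∀ χ ∈ s, W χ F = W χ F') : F = F' := by
  classical
  haveI := finite_closure s
  have h1 := GRQ.unique (B := Subgroup.closure (s : Set (GK K →* ℤˣ)))
    (ι := (s : Set (GK K →* ℤˣ))) (X := X k (GK K))
    (fun b x => sg (k := k) b.1 • x) (fun x => by
      change sg (k := k) 1 • x = x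
      rw [map_one, X_one_smul])
    (fun a b x => by
      change sg (k := k) (a.1 * b.1) • x = _
      rw [map_mul, X_mul_smul])
    (fun b => Subtype.ext (mul_self_char b.1))
    (fun i => ⟨i.1, Subgroup.subset_closure i.2⟩) (gen_closure _)
    dm dm_pos (fun b x => dm_smul _ x) (stab_dvd s) n hcard
    F F' (fun t => (le_dg F t).trans hF) (fun t => (le_dg F' t).trans hF')
    (by
      intro i x
      have h2 := DFunLike.congr_fun (h i.1 i.2) x
      rw [W_apply, W_apply] at h2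
      exact h2)
  exact DFunLike.coe_injective h1

/-- the group-theoretic main theorem -/
theorem grp_main (n : ℕ) (E : Set (GK K →* ℤˣ)) (hE : ∀ χ ∈ E, IsQuad χ) (hL : Large n E)
    (f : (GK K →* ℤˣ) → X k (GK K) →₀ ℕ) (hf : ∀ χ ∈ E, dg (f χ) = n)
    (hrel : ∀ χ ∈ E, ∀ χ' ∈ E, ∀ g, χ g = 1 → χ' g = 1 → Ph (f χ) g = Ph (f χ') g) :
    ∃ F : X k (GK K) →₀ ℕ, dg F = n ∧ (∀ χ ∈ E, W χ F = W χ (f χ)) ∧ E.Nonempty ∧
      ∀ F' : X k (GK K) →₀ ℕ, (∀ χ ∈ E, W χ F' = W χ (f χ)) → F' = F := by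
  classical
  obtain ⟨s, hsE, hcard⟩ := large_fin hE hL
  have hex : ∀ t : Finset (GK K →* ℤˣ), (t : Set (GK K →* ℤˣ)) ⊆ E →
      2 ^ GRQ.rr n ≤ Nat.card (Subgroup.closure (t : Set (GK K →* ℤˣ))) →
      ∃ F : X k (GK K) →₀ ℕ, ∀ χ ∈ t, W χ F = W χ (f χ) := by
    intro t htE htc
    exact grp_patch n t htc f (fun χ hχ => (hf χ (htE hχ)).le)
      (fun χ hχ χ' hχ' => hrel χ (htE hχ) χ' (htE hχ'))
  obtain ⟨χ₀, hχ₀⟩ : s.Nonempty := by
    by_contra hne
    rw [Finset.not_nonempty_iff_eq_empty] at hne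
    rw [hne] at hcard
    have h1 : Nat.card (Subgroup.closure ((∅ : Finset (GK K →* ℤˣ)) : Set (GK K →* ℤˣ))) = 1 := by
      rw [Finset.coe_empty, Subgroup.closure_empty]
      exact Subgroup.card_bot
    rw [h1] at hcard
    have h2 : 1 < 2 ^ GRQ.rr n := Nat.one_lt_two_pow (by have := GRQ.le_rr n; omega)
    omega
  have hdg : ∀ F : X k (GK K) →₀ ℕ, W χ₀ F = W χ₀ (f χ₀) → dg F = n := by
    intro F hF
    rw [dg_of_W hF, hf χ₀ (hsE hχ₀)]
  obtain ⟨F, hF⟩ := hex s hsE hcard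
  have hFn : dg F = n := hdg F (hF χ₀ hχ₀)
  have hFE : ∀ χ ∈ E, W χ F = W χ (f χ) := by
    intro χ hχ
    have h1 : ((insert χ s : Finset (GK K →* ℤˣ)) : Set (GK K →* ℤˣ)) ⊆ E := by
      rw [Finset.coe_insert]
      exact Set.insert_subset hχ hsE
    haveI := finite_closure (insert χ s)
    have h2 : 2 ^ GRQ.rr n ≤
        Nat.card (Subgroup.closure ((insert χ s : Finset (GK K →* ℤˣ)) : Set (GK K →* ℤˣ))) := by
      refine hcard.trans ?_
      refine Nat.card_mono (Set.toFinite _) ?_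
      exact Subgroup.closure_mono (by
        rw [Finset.coe_insert]
        exact Set.subset_insert _ _)
    obtain ⟨F', hF'⟩ := hex (insert χ s) h1 h2
    have h3 : F = F' := by
      apply grp_unique n s hcard F F' hFn.le
      · exact (hdg F' (hF' χ₀ (Finset.mem_insert_of_mem hχ₀))).le
      · intro χ' hχ'
        rw [hF χ' hχ', hF' χ' (Finset.mem_insert_of_mem hχ')]
    rw [h3]
    exact hF' χ (Finset.mem_insert_self χ s)
  refine ⟨F, hFn, hFE, ⟨χ₀, hsE hχ₀⟩, fun F' h => ?_⟩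
  apply grp_unique n s hcard F' F (hdg F' (h χ₀ (hsE hχ₀))).le hFn.le
  intro χ hχ
  rw [hFE χ (hsE hχ), h χ (hsE hχ)]

end

end Pool.Agent.Q15.GRG
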