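import Pool.Agent.Q15.GRG2
import Pool.Agent.Q15.GRA5

/-!
# Quadratic patching of Galois representations
-/

set_option autoImplicit false
set_option linter.unusedSectionVars false
set_option linter.style.haveILetI false

namespace Pool.Agent.Q15.GRG

open Representation Module NumberField IsDedekindDomain Finset
open Pool.Agent.W401.Cheb Pool.Agent.Q15.GR
open Pool.Agent.Q15.GRA (IsQuad Split Inert Large Indep large_fin)
open Pool.Agent.Q15.GRA.AutRep (mul_self_char finite_closure gen_closure ram_finite)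

variable {K : Type} [Field K] [NumberField K] {ℓ : ℕ} [Fact ℓ.Prime]

/-- equivalent representations have the same character -/
theorem char_equiv {Γ : Type} [Group Γ] {k : Type} [Field k] [IsAlgClosed k] {V W : Type}
    [AddCommGroup V] [Module k V] [FiniteDimensional k V] [AddCommGroup W] [Module k W]
    [FiniteDimensional k W] {ρ : Representation k Γ V} {σ : Representation k Γ W}
    (e : Representation.Equiv ρ σ) (g : Γ) : ρ.character g = σ.character g := by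
  change LinearMap.trace k V (ρ g) = LinearMap.trace k W (σ g)
  rw [← sum_eig, ← sum_eig, eig_equiv e g]

/-- the characters over two quadratic extensions agree -/
theorem cons {n : ℕ} {D : HeightOneSpectrum (𝓞 K) → Multiset (PadicAlgCl ℓ)}
    {χ χ' : GK K →* ℤˣ} (hχ : IsOpen (χ.ker : Set (GK K))) (hχ' : IsOpen (χ'.ker : Set (GK K)))
    {ρ : Representation (PadicAlgCl ℓ) χ.ker (Fin n → PadicAlgCl ℓ)}
    {ρ' : Representation (PadicAlgCl ℓ) χ'.ker (Fin n → PadicAlgCl ℓ)}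
    (hc : Cts ρ) (hc' : Cts ρ') {S S' : Set (HeightOneSpectrum (𝓞 K))} (hS : S.Finite)
    (hS' : S'.Finite)
    (hD : ∀ v ∉ S, Split v χ → ∀ σ : χ.ker, IsFrob v (σ : GK K) → eig (ρ σ⁻¹) = D v)
    (hD' : ∀ v ∉ S', Split v χ' → ∀ σ : χ'.ker, IsFrob v (σ : GK K) → eig (ρ' σ⁻¹) = D v)
    (g x y : GK K) (hy : y = g * x * g⁻¹) (hxk : x ∈ χ.ker) (hyk : y ∈ χ'.ker) :
    ρ.character ⟨x, hxk⟩ = ρ'.character ⟨y, hyk⟩ := by
  classical
  subst hy
  let O : Set (GK K) := {x | x ∈ χ.ker ∧ g * x * g⁻¹ ∈ χ'.ker}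
  have hO : IsOpen O := by
    refine hχ.inter ?_
    exact hχ'.preimage ((continuous_mul_const g⁻¹).comp (continuous_const_mul g))
  let A : Set (GK K) := {σ | ∃ v ∉ (S ∪ S') ∪ ({v | ¬ (Split v χ ∨ Inert v χ)} ∪
    {v | ¬ (Split v χ' ∨ Inert v χ')}), IsFrob v σ⁻¹}
  have hA : Dense A := by
    have h1 := frob_dense (K := K) _ ((hS.union hS').union ((ram_finite hχ).union
      (ram_finite hχ')))
    exact h1.preimage (Homeomorph.inv (GK K)).isOpenMap
  have hdense : Dense ((Subtype.val : O → GK K) ⁻¹' A) :=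
    Dense.preimage hA hO.isOpenMap_subtype_val
  have ha : Continuous (fun y : O => ρ.character ⟨y.1, y.2.1⟩) :=
    (char_cont hc).comp (continuous_subtype_val.subtype_mk _)
  have hb : Continuous (fun y : O => ρ'.character ⟨g * y.1 * g⁻¹, y.2.2⟩) := by
    refine (char_cont hc').comp (Continuous.subtype_mk ?_ _)
    exact ((continuous_mul_const g⁻¹).comp (continuous_const_mul g)).comp continuous_subtype_val
  have h3 := Continuous.ext_on hdense ha hb (by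
    rintro ⟨y, hy, hy'⟩ ⟨v, hv, hvy⟩
    change ρ.character ⟨y, hy⟩ = ρ'.character ⟨g * y * g⁻¹, hy'⟩
    have hvy : IsFrob v y⁻¹ := hvy
    have h1 : Split v χ := by
      have h5 : Split v χ ∨ Inert v χ := by_contra fun h => hv (Or.inr (Or.inl h))
      rcases h5 with h5 | h5
      · exact h5
      · exfalso
        have h6 := h5.2 _ hvy
        have h7 : χ y = 1 := hy
        rw [map_inv, h7, inv_one] at h6
        exact absurd h6 (by decide)
    have hvy' : IsFrob v (g * y * g⁻¹)⁻¹ := by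
      have h8 := isFrob_conj hvy g
      have h9 : g * y⁻¹ * g⁻¹ = (g * y * g⁻¹)⁻¹ := by group
      rwa [h9] at h8
    have h2 : Split v χ' := by
      have h5 : Split v χ' ∨ Inert v χ' := by_contra fun h => hv (Or.inr (Or.inr h))
      rcases h5 with h5 | h5
      · exact h5
      · exfalso
        have h6 := h5.2 _ hvy'
        have h7 : χ' (g * y * g⁻¹) = 1 := hy'
        rw [map_inv, h7, inv_one] at h6
        exact absurd h6 (by decide)
    have hvS : v ∉ S := fun h => hv (Or.inl (Or.inl h))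
    have hvS' : v ∉ S' := fun h => hv (Or.inl (Or.inr h))
    have h4 := hD v hvS h1 (⟨y, hy⟩ : χ.ker)⁻¹ hvy
    have h5 := hD' v hvS' h2 (⟨g * y * g⁻¹, hy'⟩ : χ'.ker)⁻¹ hvy'
    rw [inv_inv] at h4 h5
    change LinearMap.trace _ _ (ρ ⟨y, hy⟩) = LinearMap.trace _ _ (ρ' ⟨g * y * g⁻¹, hy'⟩)
    rw [← sum_eig, ← sum_eig, h4, h5])
  exact congrFun h3 ⟨x, hxk, hyk⟩

/-- **quadratic patching** -/
theorem galois (n : ℕ) (E : Set (GK K →* ℤˣ)) (hE : ∀ χ ∈ E, IsQuad χ) (hL : Large n E)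
    (D : HeightOneSpectrum (𝓞 K) → Multiset (PadicAlgCl ℓ))
    (ρ : ∀ χ : GK K →* ℤˣ, Representation (PadicAlgCl ℓ) χ.ker (Fin n → PadicAlgCl ℓ))
    (S : (GK K →* ℤˣ) → Set (HeightOneSpectrum (𝓞 K))) (hS : ∀ χ ∈ E, (S χ).Finite)
    (hss : ∀ χ ∈ E, (ρ χ).IsSemisimpleRepresentation) (hcts : ∀ χ ∈ E, Cts (ρ χ))
    (hD : ∀ χ ∈ E, ∀ v ∉ S χ, Split v χ →
      (∀ σ : χ.ker, IsInert v (σ : GK K) → ρ χ σ = 1) ∧
      ∀ σ : χ.ker, IsFrob v (σ : GK K) → eig (ρ χ σ⁻¹) = D v) :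
    ∃ R : Representation (PadicAlgCl ℓ) (GK K) (Fin n → PadicAlgCl ℓ),
      R.IsSemisimpleRepresentation ∧ Cts R ∧
      (∀ χ ∈ E, Nonempty (Representation.Equiv (res χ.ker R) (ρ χ))) ∧
      (∀ χ ∈ E, ∀ v ∉ S χ, Split v χ →
        (∀ σ, IsInert v σ → R σ = 1) ∧ ∀ σ, IsFrob v σ → eig (R σ⁻¹) = D v) ∧
      ∀ R' : Representation (PadicAlgCl ℓ) (GK K) (Fin n → PadicAlgCl ℓ),
        R'.IsSemisimpleRepresentation →
        (∀ χ ∈ E, Nonempty (Representation.Equiv (res χ.ker R') (ρ χ))) →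
        Nonempty (Representation.Equiv R' R) := by
  classical
  have hcons : ∀ χ ∈ E, ∀ χ' ∈ E, ∀ g x y : GK K, y = g * x * g⁻¹ → ∀ (hx : x ∈ χ.ker)
      (hy : y ∈ χ'.ker), (ρ χ).character ⟨x, hx⟩ = (ρ χ').character ⟨y, hy⟩ := by
    intro χ hχ χ' hχ' g x y hy hxk hyk
    exact cons (hE χ hχ).1 (hE χ' hχ').1 (hcts χ hχ) (hcts χ' hχ') (hS χ hχ) (hS χ' hχ')
      (fun v hv hs => (hD χ hχ v hv hs).2) (fun v hv hs => (hD χ' hχ' v hv hs).2) g x y hy hxk hyk
  -- extensions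
  have hf : ∀ χ : GK K →* ℤˣ, ∃ f : X (PadicAlgCl ℓ) (GK K) →₀ ℕ, χ ∈ E →
      ∀ h : χ.ker, Ph f (h : GK K) = (ρ χ).character h := by
    intro χ
    by_cases hχ : χ ∈ E
    · obtain ⟨g₀, hg₀⟩ : ∃ g, χ g ≠ 1 := by
        by_contra hall
        push Not at hall
        exact (hE χ hχ).2 (MonoidHom.ext hall)
      obtain ⟨f, hf⟩ := ext_inv (cyc χ hg₀) Nat.prime_two (isSs_char (ρ χ) (hss χ hχ))
        (fun h hh => by
          have h1 := hcons χ hχ χ hχ g₀⁻¹ (h : GK K) (g₀⁻¹ * h * g₀) (by rw [inv_inv]) h.2 hh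
          exact h1.symm)
      exact ⟨f, fun _ => hf⟩
    · exact ⟨0, fun h => absurd h hχ⟩
  choose f hf using hf
  have hdg : ∀ χ ∈ E, dg (f χ) = n := by
    intro χ hχ
    have h1 := hf χ hχ 1
    rw [Subgroup.coe_one, Ph_one, char_one, finrank_fin_fun] at h1
    exact_mod_cast h1
  obtain ⟨F, hFn, hF, ⟨χ₀, hχ₀⟩, huniq⟩ := grp_main n E hE hL f hdg (by
    intro χ hχ χ' hχ' g hg hg'
    have h1 := hf χ hχ ⟨g, hg⟩
    have h2 := hf χ' hχ' ⟨g, hg'⟩
    have h3 := hcons χ hχ χ' hχ' 1 g g (by group) hg hg'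
    change Ph (f χ) g = _ at h1
    change Ph (f χ') g = _ at h2
    rw [h1, h2, h3])
  obtain ⟨R, hR, hRc⟩ := exists_rep F hFn
  have hequiv : ∀ χ ∈ E, Nonempty (Representation.Equiv (res χ.ker R) (ρ χ)) := by
    intro χ hχ
    refine equiv_of_char _ _ (semi_res χ.ker hR) (hss χ hχ) ?_
    funext x
    rw [res_char, hRc, (W_eq_iff χ F (f χ)).1 (hF χ hχ) x x.2]
    exact hf χ hχ x
  refine ⟨R, hR, ?_, hequiv, ?_, ?_⟩
  · obtain ⟨e⟩ := hequiv χ₀ hχ₀
    exact cts_of_open R χ₀.ker (hE χ₀ hχ₀).1 (cts_equiv e (hcts χ₀ hχ₀))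
  · intro χ hχ v hv hsplit
    obtain ⟨e⟩ := hequiv χ hχ
    obtain ⟨h4, h5⟩ := hD χ hχ v hv hsplit
    constructor
    · intro σ hσ
      have hσΔ : σ ∈ χ.ker := hsplit σ (Or.inl hσ)
      refine LinearMap.ext fun x => ?_
      apply e.toLinearEquiv.injective
      have h6 : e (res χ.ker R ⟨σ, hσΔ⟩ x) = ρ χ ⟨σ, hσΔ⟩ (e x) :=
        IntertwiningMap.isIntertwining _ _ e.toIntertwiningMap ⟨σ, hσΔ⟩ x
      rw [h4 ⟨σ, hσΔ⟩ hσ] at h6
      exact h6
    · intro σ hσ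
      have hσΔ : σ ∈ χ.ker := hsplit σ (Or.inr hσ)
      have h6 := eig_equiv e (⟨σ, hσΔ⟩ : χ.ker)⁻¹
      rw [h5 ⟨σ, hσΔ⟩ hσ] at h6
      exact h6.symm
  · intro R' hR' he'
    refine equiv_of_char _ _ hR' hR ?_
    obtain ⟨F', hF'⟩ := (isSs_char R' hR').exists_Ph
    have h1 : F' = F := by
      apply huniq
      intro χ hχ
      rw [W_eq_iff]
      intro g hg
      obtain ⟨e⟩ := he' χ hχ
      have h2 := char_equiv e (⟨g, hg⟩ : χ.ker)
      rw [res_char, hF', ← hf χ hχ ⟨g, hg⟩] at h2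
      exact h2
    rw [hF', h1, hRc]

end Pool.Agent.Q15.GRG
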