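import Pool.Agent.Q15.GRG3

/-!
# Quadratic patching of Galois representations: families which do not patch
-/

set_option autoImplicit false
set_option linter.unusedSectionVars false
set_option linter.style.haveILetI false

namespace Pool.Agent.Q15.GRG

open Representation Module NumberField IsDedekindDomain Finset
open Pool.Agent.W401.Cheb Pool.Agent.Q15.GR
open Pool.Agent.Q15.GRA (IsQuad Split Inert Large Indep large_fin)
open Pool.Agent.Q15.GRA.AutRep (mul_self_char finite_closure gen_closure ram_finite)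

section sq

variable {k : Type} [Field k] [IsAlgClosed k]

theorem charpoly_sq {n : ℕ} (A : Matrix (Fin n) (Fin n) k) :
    Polynomial.expand k 2 (A * A).charpoly = A.charpoly * (-A).charpoly := by
  have h1 : Polynomial.expand k 2 (A * A).charpoly =
      ((Matrix.charmatrix (A * A)).map (Polynomial.expand k 2)).det := by
    unfold Matrix.charpoly
    exact AlgHom.map_det (Polynomial.expand k 2) (Matrix.charmatrix (A * A))
  rw [h1]
  unfold Matrix.charpoly
  rw [← Matrix.det_mul]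
  congr 1
  have h2 : ∀ B : Matrix (Fin n) (Fin n) k, Matrix.charmatrix B =
      Matrix.scalar (Fin n) Polynomial.X - (Polynomial.C).mapMatrix B := fun B => rfl
  have h3 : (Matrix.charmatrix (A * A)).map (Polynomial.expand k 2) =
      Matrix.scalar (Fin n) (Polynomial.X ^ 2) - (Polynomial.C).mapMatrix (A * A) := by
    ext1 i j
    rw [Matrix.map_apply, h2, Matrix.sub_apply, Matrix.sub_apply, map_sub]
    congr 1
    · rw [Matrix.scalar_apply, Matrix.scalar_apply, Matrix.diagonal_apply, Matrix.diagonal_apply]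
      split_ifs
      · rw [Polynomial.expand_X]
      · rw [map_zero]
    · rw [RingHom.mapMatrix_apply, Matrix.map_apply, Polynomial.expand_C]
  rw [h3, h2, h2, map_neg, sub_neg_eq_add, map_mul, map_pow]
  have hc : Commute (Matrix.scalar (Fin n) (Polynomial.X : Polynomial k))
      ((Polynomial.C).mapMatrix A) := Matrix.scalar_commute _ (fun r => Commute.all _ r) _
  have h4 := hc.mul_self_sub_mul_self_eq'
  rw [pow_two]
  exact h4

theorem prod_eig {n : ℕ} (f : (Fin n → k) →ₗ[k] (Fin n → k)) :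
    f.charpoly = ((eig f).map fun a => Polynomial.X - Polynomial.C a).prod := by
  unfold eig
  exact (IsAlgClosed.splits f.charpoly).eq_prod_roots_of_monic (LinearMap.charpoly_monic f)

theorem eig_sq {n : ℕ} (f : (Fin n → k) →ₗ[k] (Fin n → k)) :
    eig (f * f) = (eig f).map fun a => a ^ 2 := by
  let b := Pi.basisFun k (Fin n)
  have h0 : ∀ g : (Fin n → k) →ₗ[k] (Fin n → k),
      g.charpoly = (LinearMap.toMatrix b b g).charpoly := by
    intro g
    rw [LinearMap.charpoly_toMatrix g b]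
  have h1 := charpoly_sq (LinearMap.toMatrix b b f)
  rw [← LinearMap.toMatrix_mul, ← map_neg, ← h0, ← h0, ← h0] at h1
  have h2 : eig (-f) = (eig f).map fun a => -a := by
    have h3 := eig_smul (-1 : kˣ) f
    rw [Units.val_neg, Units.val_one] at h3
    have h4 : (-1 : k) • f = -f := by
      refine LinearMap.ext fun x => ?_
      rw [LinearMap.smul_apply, LinearMap.neg_apply, neg_smul, one_smul]
    rw [h4] at h3
    rw [h3]
    exact Multiset.map_congr rfl fun a _ => by ring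
  have h3 : Polynomial.expand k 2 (f * f).charpoly =
      Polynomial.expand k 2 (((eig f).map fun a => a ^ 2).map
        fun a => Polynomial.X - Polynomial.C a).prod := by
    rw [h1, prod_eig f, prod_eig (-f), h2, Multiset.map_map, Multiset.map_map, map_multiset_prod,
      Multiset.map_map, ← Multiset.prod_map_mul]
    congr 1
    refine Multiset.map_congr rfl fun a _ => ?_
    simp only [Function.comp_apply, map_sub, map_neg, map_pow, Polynomial.expand_X,
      Polynomial.expand_C]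
    ring
  have h4 := Polynomial.expand_injective (by norm_num : 0 < 2) h3
  unfold eig at h4 ⊢
  rw [h4, Polynomial.roots_multiset_prod_X_sub_C]

end sq

variable {K : Type} [Field K] [NumberField K] {ℓ : ℕ} [Fact ℓ.Prime]

/-- the Frobenius eigenvalues do not depend on the Frobenius element -/
theorem eig_frob {n : ℕ} {R : Representation (PadicAlgCl ℓ) (GK K) (Fin n → PadicAlgCl ℓ)}
    {v : HeightOneSpectrum (𝓞 K)} (hur : ∀ σ, IsInert v σ → R σ = 1) {σ σ' : GK K}
    (hσ : IsFrob v σ) (hσ' : IsFrob v σ') : eig (R σ⁻¹) = eig (R σ'⁻¹) := by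
  obtain ⟨g, i, hi, rfl⟩ := (Pool.Agent.W401.Frob.main K).2.1 v σ σ' hσ hσ'
  have h1 : R i⁻¹ = 1 := by
    have h2 : R i⁻¹ * R i = 1 := by rw [← map_mul, inv_mul_cancel, map_one]
    rwa [hur i hi, mul_one] at h2
  have h3 : R (g * σ * g⁻¹ * i)⁻¹ = R g * R σ⁻¹ * R g⁻¹ := by
    rw [mul_inv_rev, map_mul, h1, one_mul, ← map_mul, ← map_mul, mul_inv_rev, mul_inv_rev,
      inv_inv, mul_assoc]
  rw [h3]
  unfold eig
  let e : (Fin n → PadicAlgCl ℓ) ≃ₗ[PadicAlgCl ℓ] (Fin n → PadicAlgCl ℓ) :=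
    LinearEquiv.ofLinearMap (R g) (R g⁻¹)
      (by rw [← Module.End.mul_eq_comp, ← map_mul, mul_inv_cancel, map_one]; rfl)
      (by rw [← Module.End.mul_eq_comp, ← map_mul, inv_mul_cancel, map_one]; rfl)
  have h4 : R g * R σ⁻¹ * R g⁻¹ = e.conj (R σ⁻¹) := rfl
  rw [h4, LinearEquiv.charpoly_conj]

/-- compatibility of the restrictions gives common Frobenius eigenvalues -/
theorem bad {m n : ℕ} (hm : 0 < m) (ψ : Fin m → (GK K →* ℤˣ))
    (R : Fin m → Representation (PadicAlgCl ℓ) (GK K) (Fin n → PadicAlgCl ℓ))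
    (hR : ∀ k, (R k).IsSemisimpleRepresentation) (S : Set (HeightOneSpectrum (𝓞 K)))
    (hur : ∀ v ∉ S, ∀ k, ∀ σ, IsInert v σ → R k σ = 1)
    (hcomp : ∀ k l g, ψ k g = 1 → ψ l g = 1 → (R k).character g = (R l).character g) :
    ∃ D : HeightOneSpectrum (𝓞 K) → Multiset (PadicAlgCl ℓ), ∀ k, ∀ v ∉ S,
      (Split v (ψ k) → ∀ σ : (ψ k).ker, IsFrob v (σ : GK K) →
        eig (res (ψ k).ker (R k) σ⁻¹) = D v) ∧
      (Inert v (ψ k) → ∀ τ : GK K, IsFrob v τ → ∀ σ : (ψ k).ker, (σ : GK K) = τ * τ →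
        eig (res (ψ k).ker (R k) σ⁻¹) = (D v).map fun a => a ^ 2) := by
  classical
  have hFrob := Pool.Agent.W401.Frob.main K
  have hκ : ∀ v : HeightOneSpectrum (𝓞 K), ∃ κ : Fin m,
      (∃ k, Split v (ψ k)) → Split v (ψ κ) := by
    intro v
    by_cases h : ∃ k, Split v (ψ k)
    · obtain ⟨k, hk⟩ := h
      exact ⟨k, fun _ => hk⟩
    · exact ⟨⟨0, hm⟩, fun h' => absurd h' h⟩
  choose κ hκ using hκ
  have hfr : ∀ v : HeightOneSpectrum (𝓞 K), ∃ σ : GK K, IsFrob v σ := hFrob.1
  choose fr hfr using hfr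
  have heq : ∀ k l g, ψ k g = 1 → ψ l g = 1 → eig (R k g) = eig (R l g) := by
    intro k l g hk hl
    have h1 : ((ψ k).ker ⊓ (ψ l).ker).Normal := inferInstance
    obtain ⟨e⟩ := equiv_of_char (res ((ψ k).ker ⊓ (ψ l).ker) (R k))
      (res ((ψ k).ker ⊓ (ψ l).ker) (R l)) (semi_res _ (hR k)) (semi_res _ (hR l)) (by
        funext x
        rw [res_char, res_char]
        exact hcomp k l x x.2.1 x.2.2)
    have h2 := eig_equiv e ⟨g, hk, hl⟩
    exact h2.symm
  refine ⟨fun v => eig (R (κ v) (fr v)⁻¹), fun k v hv => ⟨fun hs σ hσ => ?_, fun hi τ hτ σ hστ => ?_⟩⟩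
  · have hs' := hκ v ⟨k, hs⟩
    change eig (R k (σ : GK K)⁻¹) = _
    rw [heq k (κ v) (σ : GK K)⁻¹ (by rw [map_inv, hs σ (Or.inr hσ), inv_one])
      (by rw [map_inv, hs' σ (Or.inr hσ), inv_one])]
    exact eig_frob (hur v hv (κ v)) hσ (hfr v)
  · change eig (R k (σ : GK K)⁻¹) = _
    have h1 : ∀ l, ψ l (σ : GK K)⁻¹ = 1 := by
      intro l
      rw [hστ, map_inv, map_mul, Int.units_mul_self, inv_one]
    rw [heq k (κ v) (σ : GK K)⁻¹ (h1 k) (h1 (κ v)), hστ, mul_inv_rev, map_mul, eig_sq,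
      eig_frob (hur v hv (κ v)) hτ (hfr v)]

/-- the submodules are the subrepresentations of a trivial representation -/
def trivIso {k : Type} [Field k] {G : Type} [Group G] {V : Type} [AddCommGroup V] [Module k V] :
    Submodule k V ≃o Subrepresentation (1 : Representation k G V) where
  toFun U := ⟨U, fun _ _ hv => hv⟩
  invFun U := U.toSubmodule
  left_inv _ := rfl
  right_inv _ := rfl
  map_rel_iff' := Iff.rfl

theorem isIr_one : IsIr (fun _ : GK K => (1 : PadicAlgCl ℓ)) := by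
  refine ⟨1, 1, ?_, ?_⟩
  · have h1 : IsSimpleModule (PadicAlgCl ℓ) (Fin 1 → PadicAlgCl ℓ) :=
      isSimpleModule_iff_finrank_eq_one.2 (finrank_fin_fun _)
    exact (trivIso (k := PadicAlgCl ℓ) (G := GK K)
      (V := Fin 1 → PadicAlgCl ℓ)).isSimpleOrder_iff.1 h1.1
  · funext g
    change LinearMap.trace (PadicAlgCl ℓ) (Fin 1 → PadicAlgCl ℓ) 1 = 1
    rw [LinearMap.trace_one, finrank_fin_fun, Nat.cast_one]

/-- the trivial character -/
noncomputable def one : X (PadicAlgCl ℓ) (GK K) := ⟨_, isIr_one⟩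

theorem dm_one : dm (one (K := K) (ℓ := ℓ)) = 1 := by
  have h1 := X_one (one (K := K) (ℓ := ℓ))
  have h2 : ((one (K := K) (ℓ := ℓ)) : GK K → PadicAlgCl ℓ) 1 = 1 := rfl
  rw [h2] at h1
  exact_mod_cast h1.symm

theorem sg_one_inj {χ χ' : GK K →* ℤˣ}
    (h : sg (k := PadicAlgCl ℓ) χ • one (K := K) (ℓ := ℓ) = sg (k := PadicAlgCl ℓ) χ' • one) :
    χ = χ' := by
  apply sg_inj (k := PadicAlgCl ℓ)
  refine MonoidHom.ext fun g => Units.ext ?_
  have h1 := congrArg (fun x : X (PadicAlgCl ℓ) (GK K) => (x : GK K → PadicAlgCl ℓ) g) h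
  simp only [X_smul] at h1
  have h2 : ((one (K := K) (ℓ := ℓ)) : GK K → PadicAlgCl ℓ) g = 1 := rfl
  rw [h2, mul_one, mul_one] at h1
  exact h1

/-- the sum of the quadratic characters other than `ψ k` -/
noncomputable def Fk {m : ℕ} (ψ : Fin m → (GK K →* ℤˣ)) (k : Fin m) :
    X (PadicAlgCl ℓ) (GK K) →₀ ℕ :=
  ∑ j ∈ univ.erase k, Finsupp.single (sg (k := PadicAlgCl ℓ) (ψ j) • one) 1

theorem dg_Fk {n : ℕ} (ψ : Fin (n + 1) → (GK K →* ℤˣ)) (k : Fin (n + 1)) :
    dg (Fk (ℓ := ℓ) ψ k) = n := by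
  classical
  have h2 : ∀ s : Finset (Fin (n + 1)),
      dg (∑ j ∈ s, Finsupp.single (sg (k := PadicAlgCl ℓ) (ψ j) • one (K := K) (ℓ := ℓ)) 1) =
        s.card := by
    intro s
    induction s using Finset.induction_on with
    | empty =>
      rw [Finset.sum_empty, Finset.card_empty]
      exact Finsupp.sum_zero_index
    | insert a s ha ih =>
      rw [Finset.sum_insert ha, dg_add, ih, dg_single, dm_smul, dm_one,
        Finset.card_insert_of_notMem ha]
      omega
  unfold Fk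
  rw [h2, Finset.card_erase_of_mem (Finset.mem_univ k), Finset.card_univ, Fintype.card_fin]
  rfl

theorem mem_Fk {m : ℕ} {ψ : Fin m → (GK K →* ℤˣ)} {k : Fin m} {x : X (PadicAlgCl ℓ) (GK K)}
    (hx : Fk ψ k x ≠ 0) : ∃ j, j ≠ k ∧ x = sg (k := PadicAlgCl ℓ) (ψ j) • one := by
  classical
  unfold Fk at hx
  rw [Finsupp.finsetSum_apply] at hx
  obtain ⟨j, hj, hjx⟩ := Finset.exists_ne_zero_of_sum_ne_zero hx
  refine ⟨j, Finset.ne_of_mem_erase hj, ?_⟩
  by_contra hne
  apply hjx
  rw [Finsupp.single_apply, if_neg (fun h => hne h.symm)]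

theorem Ph_Fk {m : ℕ} (ψ : Fin m → (GK K →* ℤˣ)) (k : Fin m) (g : GK K) :
    Ph (Fk (ℓ := ℓ) ψ k) g = ∑ j ∈ univ.erase k, ((ψ j g : ℤ) : PadicAlgCl ℓ) := by
  unfold Fk
  rw [map_sum, Finset.sum_apply]
  refine Finset.sum_congr rfl fun j _ => ?_
  rw [Ph_single, one_smul, X_smul, sg_apply]
  exact mul_one _

/-- `n + 1` independent quadratic extensions never suffice, `n ≥ 2` -/
theorem sharp {n : ℕ} (hn : 2 ≤ n) (ψ : Fin (n + 1) → (GK K →* ℤˣ)) (hψ : ∀ k, IsQuad (ψ k))
    (hind : Indep ψ) :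
    ∃ (R : Fin (n + 1) → Representation (PadicAlgCl ℓ) (GK K) (Fin n → PadicAlgCl ℓ))
      (S : Set (HeightOneSpectrum (𝓞 K))), S.Finite ∧
      (∀ k, (R k).IsSemisimpleRepresentation ∧ Cts (R k) ∧
        ∀ v ∉ S, ∀ σ, IsInert v σ → R k σ = 1) ∧
      (∀ k l g, ψ k g = 1 → ψ l g = 1 → (R k).character g = (R l).character g) ∧
      ¬ ∃ R' : Representation (PadicAlgCl ℓ) (GK K) (Fin n → PadicAlgCl ℓ),
        R'.IsSemisimpleRepresentation ∧
        ∀ k, Nonempty (Representation.Equiv (res (ψ k).ker R') (res (ψ k).ker (R k))) := by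
  classical
  have hex := fun k => exists_rep (Fk (ℓ := ℓ) ψ k) (dg_Fk ψ k)
  choose R hR hRc using hex
  -- the intersection of the kernels
  let N : Subgroup (GK K) := ⨅ j, (ψ j).ker
  have hN : N.Normal := Subgroup.normal_iInf_normal fun j => inferInstance
  have hNo : IsOpen (N : Set (GK K)) := by
    have h1 : (N : Set (GK K)) = ⋂ j, ((ψ j).ker : Set (GK K)) := Subgroup.coe_iInf
    rw [h1]
    exact isOpen_iInter_of_finite fun j => (hψ j).1
  have hNm : ∀ g ∈ N, ∀ j, ψ j g = 1 := fun g hg j => Subgroup.mem_iInf.1 hg j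
  have htriv : ∀ k, ∀ g ∈ N, R k g = 1 := by
    intro k g hg
    have hss1 : (1 : Representation (PadicAlgCl ℓ) N (Fin n → PadicAlgCl ℓ)).IsSemisimpleRepresentation :=
      (trivIso (k := PadicAlgCl ℓ) (G := N)
        (V := Fin n → PadicAlgCl ℓ)).complementedLattice_iff.1 inferInstance
    obtain ⟨e⟩ := equiv_of_char (res N (R k)) (1 : Representation (PadicAlgCl ℓ) N
      (Fin n → PadicAlgCl ℓ)) (semi_res N (hR k)) hss1 (by
        funext x
        rw [res_char, hRc, Ph_Fk]
        change _ = LinearMap.trace _ _ (1 : (Fin n → PadicAlgCl ℓ) →ₗ[PadicAlgCl ℓ] _)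
        rw [LinearMap.trace_one, finrank_fin_fun,
          Finset.sum_congr rfl fun j _ => by rw [hNm x x.2 j, Units.val_one, Int.cast_one],
          Finset.sum_const, Finset.card_erase_of_mem (Finset.mem_univ k), Finset.card_univ,
          Fintype.card_fin, nsmul_eq_mul, mul_one]
        rfl)
    refine LinearMap.ext fun x => ?_
    apply e.toLinearEquiv.injective
    have h6 : e (res N (R k) ⟨g, hg⟩ x) = (1 : Representation (PadicAlgCl ℓ) N
        (Fin n → PadicAlgCl ℓ)) ⟨g, hg⟩ (e x) :=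
      IntertwiningMap.isIntertwining _ _ e.toIntertwiningMap ⟨g, hg⟩ x
    exact h6
  refine ⟨R, {v | ∃ σ, IsInert v σ ∧ σ ∉ N}, finite_ramified N hNo, fun k => ⟨hR k, ?_, ?_⟩, ?_, ?_⟩
  · refine cts_of_open (R k) N hNo ?_
    intro x
    have h1 : (fun g : N => res N (R k) g x) = fun _ => x := by
      funext g
      rw [res_apply, htriv k g g.2]
      rfl
    rw [h1]
    exact continuous_const
  · intro v hv σ hσ
    apply htriv
    by_contra h
    exact hv ⟨σ, hσ, h⟩
  · intro k l g hk hl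
    rw [hRc, hRc, Ph_Fk, Ph_Fk]
    have h3 := Finset.add_sum_erase (univ : Finset (Fin (n + 1)))
      (fun j => ((ψ j g : ℤ) : PadicAlgCl ℓ)) (Finset.mem_univ k)
    have h4 := Finset.add_sum_erase (univ : Finset (Fin (n + 1)))
      (fun j => ((ψ j g : ℤ) : PadicAlgCl ℓ)) (Finset.mem_univ l)
    rw [← h4] at h3
    simp only [hk, hl] at h3
    exact add_left_cancel h3
  · rintro ⟨R', hR', he'⟩
    obtain ⟨F, hF⟩ := (isSs_char R' hR').exists_Ph
    have hW : ∀ k, W (ψ k) F = W (ψ k) (Fk (ℓ := ℓ) ψ k) := by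
      intro k
      rw [W_eq_iff]
      intro g hg
      obtain ⟨e⟩ := he' k
      have h2 := char_equiv e (⟨g, hg⟩ : (ψ k).ker)
      rw [res_char, res_char, hF, hRc] at h2
      exact h2
    have hdgF : dg F = n := by rw [dg_of_W (hW 0), dg_Fk]
    obtain ⟨x, hx⟩ : ∃ x, F x ≠ 0 := by
      by_contra hall
      push Not at hall
      have h2 : F = 0 := Finsupp.ext hall
      rw [h2] at hdgF
      have h3 : dg (0 : X (PadicAlgCl ℓ) (GK K) →₀ ℕ) = 0 := Finsupp.sum_zero_index
      omega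
    have key : ∀ k, ∃ j, j ≠ k ∧ (x = sg (k := PadicAlgCl ℓ) (∏ i ∈ {j}, ψ i) • one ∨
        x = sg (k := PadicAlgCl ℓ) (∏ i ∈ {k, j}, ψ i) • one) := by
      intro k
      have h3 := DFunLike.congr_fun (hW k) x
      rw [W_apply, W_apply] at h3
      have h4 : Fk ψ k x ≠ 0 ∨ Fk ψ k (sg (k := PadicAlgCl ℓ) (ψ k) • x) ≠ 0 := by omega
      rcases h4 with h4 | h4
      · obtain ⟨j, hj, hjx⟩ := mem_Fk h4
        refine ⟨j, hj, Or.inl ?_⟩
        rw [Finset.prod_singleton]
        exact hjx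
      · obtain ⟨j, hj, hjx⟩ := mem_Fk h4
        refine ⟨j, hj, Or.inr ?_⟩
        rw [Finset.prod_pair hj.symm, map_mul, X_mul_smul, ← hjx, sg_smul_smul]
    have hinj : ∀ t t' : Finset (Fin (n + 1)), sg (k := PadicAlgCl ℓ) (∏ i ∈ t, ψ i) • one =
        sg (k := PadicAlgCl ℓ) (∏ i ∈ t', ψ i) • one → t = t' :=
      fun t t' h => GRA.prod_inj hind (sg_one_inj h)
    have hcase : ∃ t : Finset (Fin (n + 1)), x = sg (k := PadicAlgCl ℓ) (∏ i ∈ t, ψ i) • one := by
      obtain ⟨j, -, h | h⟩ := key 0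
      · exact ⟨_, h⟩
      · exact ⟨_, h⟩
    obtain ⟨t, ht⟩ := hcase
    have key2 : ∀ k, ∃ j, j ≠ k ∧ (t = {j} ∨ t = {k, j}) := by
      intro k
      obtain ⟨j, hj, h | h⟩ := key k
      · exact ⟨j, hj, Or.inl (hinj _ _ (ht.symm.trans h))⟩
      · exact ⟨j, hj, Or.inr (hinj _ _ (ht.symm.trans h))⟩
    obtain ⟨a, ha, h2 | h2⟩ := key2 0
    · obtain ⟨j, hj, h3 | h3⟩ := key2 a
      · rw [h2] at h3
        exact hj (Finset.singleton_injective h3).symm
      · have h4 : j ∈ ({a} : Finset (Fin (n + 1))) := by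
          rw [← h2, h3]
          exact Finset.mem_insert_of_mem (Finset.mem_singleton_self j)
        exact hj (Finset.mem_singleton.1 h4)
    · obtain ⟨k, hk⟩ : ∃ k : Fin (n + 1), k ∉ ({0, a} : Finset (Fin (n + 1))) := by
        by_contra hall
        push Not at hall
        have h3 : (univ : Finset (Fin (n + 1))) ⊆ {0, a} := fun k _ => hall k
        have h4 := Finset.card_le_card h3
        rw [Finset.card_univ, Fintype.card_fin] at h4
        have h5 := Finset.card_le_two (a := (0 : Fin (n + 1))) (b := a)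
        omega
      obtain ⟨j, hj, h3 | h3⟩ := key2 k
      · have h4 : t.card = 2 := by
          rw [h2]
          exact Finset.card_pair ha.symm
        rw [h3, Finset.card_singleton] at h4
        omega
      · apply hk
        rw [← h2, h3]
        exact Finset.mem_insert_self k _

end Pool.Agent.Q15.GRG
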