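import Pool.Agent.Q15.GRG4

/-!
# Quadratic patching of Galois representations: dimensions two and four
-/

set_option autoImplicit false
set_option linter.unusedSectionVars false
set_option linter.style.haveILetI false

namespace Pool.Agent.Q15.GRG

open Representation Module NumberField IsDedekindDomain Finset
open Pool.Agent.W401.Cheb Pool.Agent.Q15.GR
open Pool.Agent.Q15.GRA (IsQuad Split Inert Large Indep large_fin)
open Pool.Agent.Q15.GRA.AutRep (mul_self_char finite_closure gen_closure ram_finite ex ex_indep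
  mul_open)

variable {K : Type} [Field K] [NumberField K] {ℓ : ℕ} [Fact ℓ.Prime]

theorem pow_bound (n : ℕ) : (n + 1) ^ 2 < 2 ^ (n + 2) := by
  have h : ∀ m : ℕ, (m + 4) ^ 2 < 2 ^ (m + 5) := by
    intro m
    induction m with
    | zero => norm_num
    | succ m ih =>
      have h1 : 2 ^ (m + 1 + 5) = 2 * 2 ^ (m + 5) := by rw [← pow_succ']
      have h2 : (m + 1 + 4) ^ 2 = m ^ 2 + 10 * m + 25 := by ring
      have h3 : (m + 4) ^ 2 = m ^ 2 + 8 * m + 16 := by ring
      rw [h1, h2]
      rw [h3] at ih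
      have h4 : 0 ≤ m ^ 2 := Nat.zero_le _
      omega
  rcases Nat.lt_or_ge n 3 with h1 | h1
  · have h2 : n = 0 ∨ n = 1 ∨ n = 2 := by omega
    rcases h2 with rfl | rfl | rfl <;> norm_num
  · obtain ⟨m, rfl⟩ := Nat.exists_eq_add_of_le' h1
    exact h m

/-- a subset which together with a translate covers a finite group -/
theorem half_card {B : Type} [Group B] [Finite B] (P : B → Prop) (c : B)
    (h : ∀ b, P b ∨ P (c * b)) : Nat.card B ≤ 2 * Nat.card {b : B // P b} := by
  classical
  let f : {b : B // P b} × Bool → B := fun p => if p.2 then c⁻¹ * p.1.1 else p.1.1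
  have hf : Function.Surjective f := by
    intro b
    rcases h b with hb | hb
    · exact ⟨(⟨b, hb⟩, false), rfl⟩
    · exact ⟨(⟨c * b, hb⟩, true), inv_mul_cancel_left c b⟩
  have h1 := Nat.card_le_card_of_surjective f hf
  rw [Nat.card_prod, Nat.card_eq_fintype_card (α := Bool), Fintype.card_bool, mul_comm] at h1
  exact h1

/-- an irreducible representation has not too many self-twists -/
theorem no_big {n : ℕ} {x : X (PadicAlgCl ℓ) (GK K)} (hx : dm x = n + 1)
    {θ : Fin (n + 3) → (GK K →* ℤˣ)} (hind : Indep θ) {c : GK K →* ℤˣ}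
    (hc : c ∈ Subgroup.closure (Set.range θ))
    (h : ∀ k, sg (k := PadicAlgCl ℓ) (θ k) • x = x ∨ sg (k := PadicAlgCl ℓ) (c * θ k) • x = x) :
    False := by
  classical
  haveI hfinB : Finite (Subgroup.closure (Set.range θ)) := by
    have h1 := finite_closure (univ.image θ)
    rwa [Finset.coe_image, Finset.coe_univ, Set.image_univ] at h1
  have hcl : ((univ.image θ : Finset (GK K →* ℤˣ)) : Set (GK K →* ℤˣ)) = Set.range θ := by
    rw [Finset.coe_image, Finset.coe_univ, Set.image_univ]
  have hdvd := stab_dvd (univ.image θ) x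
  rw [hcl] at hdvd
  have hmul : ∀ a b : GK K →* ℤˣ, sg (k := PadicAlgCl ℓ) a • x = x →
      sg (k := PadicAlgCl ℓ) b • x = x → sg (k := PadicAlgCl ℓ) (a * b) • x = x := by
    intro a b ha hb
    rw [map_mul, X_mul_smul, hb, ha]
  have hall : ∀ b ∈ Subgroup.closure (Set.range θ), sg (k := PadicAlgCl ℓ) b • x = x ∨
      sg (k := PadicAlgCl ℓ) (c * b) • x = x := by
    intro b hb
    induction hb using Subgroup.closure_induction with
    | mem y hy =>
      obtain ⟨k, rfl⟩ := hy
      exact h k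
    | one =>
      left
      rw [map_one, X_one_smul]
    | mul a b _ _ ha hb =>
      rcases ha with ha | ha
      · rcases hb with hb | hb
        · exact Or.inl (hmul a b ha hb)
        · right
          have h1 := hmul a (c * b) ha hb
          rwa [mul_left_comm] at h1
      · rcases hb with hb | hb
        · right
          have h1 := hmul (c * a) b ha hb
          rwa [mul_assoc] at h1
        · left
          have h1 := hmul (c * a) (c * b) ha hb
          rwa [mul_mul_mul_comm, mul_self_char, one_mul] at h1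
    | inv a _ ha =>
      have h1 : a⁻¹ = a := inv_eq_of_mul_eq_one_left (mul_self_char a)
      rwa [h1]
  have h1 := half_card (B := Subgroup.closure (Set.range θ))
    (fun b => sg (k := PadicAlgCl ℓ) b.1 • x = x) ⟨c, hc⟩ (fun b => hall b.1 b.2)
  have h2 := GRA.indep_card hind
  have h3 := Nat.le_of_dvd (by rw [hx]; exact Nat.pow_pos (Nat.succ_pos n)) hdvd
  rw [hx] at h3
  have h4 := pow_bound n
  have h5 : 2 ^ (n + 3) = 2 * 2 ^ (n + 2) := by rw [← pow_succ']
  omega

/-- in dimension `n + 1`, if there is an irreducible representation with `n + 1` independent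
self-twists, then `n + 3` quadratic extensions do not always suffice -/
theorem sharp2 {n : ℕ} {σ : Representation (PadicAlgCl ℓ) (GK K) (Fin (n + 1) → PadicAlgCl ℓ)}
    (hσ : σ.IsIrreducible) (hcts : Cts σ) {S : Set (HeightOneSpectrum (𝓞 K))} (hS : S.Finite)
    (hur : ∀ v ∉ S, ∀ τ, IsInert v τ → σ τ = 1)
    (θ : Fin (n + 3) → (GK K →* ℤˣ)) (hθ : ∀ k, IsOpen ((θ k).ker : Set (GK K)))
    (hind : Indep θ) (hself : ∀ k, k ≠ 0 → k ≠ 1 → ∀ g, θ k g ≠ 1 → σ.character g = 0) :
    ∃ ψ : Fin (n + 3) → (GK K →* ℤˣ), (∀ k, IsQuad (ψ k)) ∧ Indep ψ ∧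
      ∃ (R : Fin (n + 3) → Representation (PadicAlgCl ℓ) (GK K) (Fin (n + 1) → PadicAlgCl ℓ))
        (S : Set (HeightOneSpectrum (𝓞 K))), S.Finite ∧
        (∀ k, (R k).IsSemisimpleRepresentation ∧ Cts (R k) ∧
          ∀ v ∉ S, ∀ σ, IsInert v σ → R k σ = 1) ∧
        (∀ k l g, ψ k g = 1 → ψ l g = 1 → (R k).character g = (R l).character g) ∧
        ¬ ∃ R' : Representation (PadicAlgCl ℓ) (GK K) (Fin (n + 1) → PadicAlgCl ℓ),
          R'.IsSemisimpleRepresentation ∧
          ∀ k, Nonempty (Representation.Equiv (res (ψ k).ker R') (res (ψ k).ker (R k))) := by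
  classical
  let x : X (PadicAlgCl ℓ) (GK K) := ⟨σ.character, isIr_char σ hσ⟩
  have hxg : ∀ g, (x : GK K → PadicAlgCl ℓ) g = σ.character g := fun g => rfl
  have hx : dm x = n + 1 := by
    have h1 := X_one x
    rw [hxg, char_one, finrank_fin_fun] at h1
    exact_mod_cast h1.symm
  have hself' : ∀ k, k ≠ 0 → k ≠ 1 → sg (k := PadicAlgCl ℓ) (θ k) • x = x := by
    intro k hk0 hk1
    refine Subtype.ext (funext fun g => ?_)
    rw [X_smul, hxg]
    rcases sign_cases (k := PadicAlgCl ℓ) (θ k) g with ⟨h, h'⟩ | ⟨h, h'⟩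
    · rw [h', one_mul]
    · rw [hself k hk0 hk1 g h, mul_zero]
  have hm : ∀ k, θ k ∈ Subgroup.closure (Set.range θ) := fun k =>
    Subgroup.subset_closure ⟨k, rfl⟩
  have hone : sg (k := PadicAlgCl ℓ) (1 : GK K →* ℤˣ) • x = x := by rw [map_one, X_one_smul]
  have h0 : sg (k := PadicAlgCl ℓ) (θ 0) • x ≠ x := by
    intro h0
    refine no_big hx hind (hm 1) fun k => ?_
    by_cases hk0 : k = 0
    · rw [hk0]
      exact Or.inl h0
    by_cases hk1 : k = 1
    · rw [hk1, mul_self_char]
      exact Or.inr hone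
    · exact Or.inl (hself' k hk0 hk1)
  have h1 : sg (k := PadicAlgCl ℓ) (θ 1) • x ≠ x := by
    intro h1
    refine no_big hx hind (hm 0) fun k => ?_
    by_cases hk0 : k = 0
    · rw [hk0, mul_self_char]
      exact Or.inr hone
    by_cases hk1 : k = 1
    · rw [hk1]
      exact Or.inl h1
    · exact Or.inl (hself' k hk0 hk1)
  have h01 : sg (k := PadicAlgCl ℓ) (θ 0 * θ 1) • x ≠ x := by
    intro h01
    refine no_big hx hind (hm 0) fun k => ?_
    by_cases hk0 : k = 0
    · rw [hk0, mul_self_char]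
      exact Or.inr hone
    by_cases hk1 : k = 1
    · rw [hk1]
      exact Or.inr h01
    · exact Or.inl (hself' k hk0 hk1)
  have n01 : (1 : Fin (n + 3)) ≠ 0 := by
    intro h
    exact absurd (congrArg Fin.val h) (by simp)
  have n02 : (2 : Fin (n + 3)) ≠ 0 := by
    intro h
    have h' : 2 % (n + 3) = 0 := congrArg Fin.val h
    rw [Nat.mod_eq_of_lt (by omega)] at h'
    omega
  have n12 : (2 : Fin (n + 3)) ≠ 1 := by
    intro h
    have h' : 2 % (n + 3) = 1 % (n + 3) := congrArg Fin.val h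
    rw [Nat.mod_eq_of_lt (by omega), Nat.mod_eq_of_lt (by omega)] at h'
    omega
  have e0 : ex θ 0 = θ 0 := by simp [ex]
  have e1 : ex θ 1 = θ 1 := by simp [ex, n01]
  have e2 : ex θ 2 = θ 0 * θ 1 * θ 2 := by simp [ex, n02, n12]
  have e3 : ∀ k, k ≠ 0 → k ≠ 1 → k ≠ 2 → ex θ k = θ 0 * θ k := by
    intro k hk0 hk1 hk2
    simp [ex, hk0, hk1, hk2]
  have hei := ex_indep hind
  have heo : ∀ k, IsOpen ((ex θ k).ker : Set (GK K)) := by
    intro k
    by_cases hk0 : k = 0
    · rw [hk0, e0]; exact hθ 0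
    by_cases hk1 : k = 1
    · rw [hk1, e1]; exact hθ 1
    by_cases hk2 : k = 2
    · rw [hk2, e2]; exact mul_open (mul_open (hθ 0) (hθ 1)) (hθ 2)
    · rw [e3 k hk0 hk1 hk2]; exact mul_open (hθ 0) (hθ k)
  have heq : ∀ k, IsQuad (ex θ k) := by
    intro k
    refine ⟨heo k, fun h => ?_⟩
    have h2 := hei {k} (by rw [Finset.prod_singleton, h])
    exact absurd h2 (Finset.singleton_ne_empty k)
  -- the representations
  let σ' := twist (sg (k := PadicAlgCl ℓ) (θ 0)) σ
  have hσ'g : ∀ g, θ 0 g = 1 → σ' g = σ g := by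
    intro g hg
    change ((sg (k := PadicAlgCl ℓ) (θ 0) g : (PadicAlgCl ℓ)ˣ) : PadicAlgCl ℓ) • σ g = σ g
    rw [(sg_one_iff (θ 0) g).2 hg, Units.val_one, one_smul]
  have hσ'c : ∀ g, σ'.character g =
      ((sg (k := PadicAlgCl ℓ) (θ 0) g : (PadicAlgCl ℓ)ˣ) : PadicAlgCl ℓ) * σ.character g :=
    fun g => char_twist _ _ g
  let R : Fin (n + 3) → Representation (PadicAlgCl ℓ) (GK K) (Fin (n + 1) → PadicAlgCl ℓ) :=
    fun k => if k = 2 then σ' else σ
  have R2 : R 2 = σ' := if_pos rfl
  have R3 : ∀ k, k ≠ 2 → R k = σ := fun k hk => if_neg hk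
  let xk : Fin (n + 3) → X (PadicAlgCl ℓ) (GK K) := fun k =>
    if k = 2 then sg (k := PadicAlgCl ℓ) (θ 0) • x else x
  have x2 : xk 2 = sg (k := PadicAlgCl ℓ) (θ 0) • x := if_pos rfl
  have x3 : ∀ k, k ≠ 2 → xk k = x := fun k hk => if_neg hk
  have hRc : ∀ k g, (R k).character g = (xk k : GK K → PadicAlgCl ℓ) g := by
    intro k g
    by_cases hk2 : k = 2
    · rw [hk2, R2, x2, X_smul, hxg, hσ'c]
    · rw [R3 k hk2, x3 k hk2]
  have key2 : ∀ k, k ≠ 2 → ∀ g, ex θ k g = 1 → ex θ 2 g = 1 →
      σ.character g = σ'.character g := by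
    intro k hk g hg hg2
    rw [hσ'c]
    by_cases hθ0 : θ 0 g = 1
    · rw [(sg_one_iff (θ 0) g).2 hθ0, Units.val_one, one_mul]
    · have h3 : σ.character g = 0 := by
        have h0' : θ 0 g = -1 := (Int.units_eq_one_or _).resolve_left hθ0
        by_cases hk0 : k = 0
        · rw [hk0, e0] at hg
          exact absurd hg hθ0
        by_cases hk1 : k = 1
        · rw [hk1, e1] at hg
          rw [e2, MonoidHom.mul_apply, MonoidHom.mul_apply, hg, mul_one, h0'] at hg2
          refine hself 2 n02 n12 g ?_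
          intro h
          rw [h] at hg2
          exact absurd hg2 (by decide)
        · rw [e3 k hk0 hk1 hk, MonoidHom.mul_apply, h0'] at hg
          refine hself k hk0 hk1 g ?_
          intro h
          rw [h] at hg
          exact absurd hg (by decide)
      rw [h3, mul_zero]
  refine ⟨ex θ, heq, hei, R, S ∪ {v | ¬ (Split v (θ 0) ∨ Inert v (θ 0))},
    hS.union (ram_finite (hθ 0)), fun k => ⟨?_, ?_, ?_⟩, ?_, ?_⟩
  · by_cases hk2 : k = 2
    · rw [hk2, R2]
      exact irr_semi (irr_twist _ hσ)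
    · rw [R3 k hk2]
      exact irr_semi hσ
  · by_cases hk2 : k = 2
    · rw [hk2, R2]
      refine cts_of_open σ' (θ 0).ker (hθ 0) ?_
      intro y
      have h2 : (fun g : (θ 0).ker => res (θ 0).ker σ' g y) = fun g : (θ 0).ker =>
          σ (g : GK K) y := by
        funext g
        rw [res_apply, hσ'g g g.2]
      rw [h2]
      exact (hcts y).comp continuous_subtype_val
    · rw [R3 k hk2]
      exact hcts
  · intro v hv τ hτ
    have hvS : v ∉ S := fun h => hv (Or.inl h)
    by_cases hk2 : k = 2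
    · rw [hk2, R2, hσ'g τ ?_]
      · exact hur v hvS τ hτ
      · have h5 : Split v (θ 0) ∨ Inert v (θ 0) := by_contra fun h => hv (Or.inr h)
        rcases h5 with h5 | h5
        · exact h5 τ (Or.inl hτ)
        · exact h5.1 τ hτ
    · rw [R3 k hk2]
      exact hur v hvS τ hτ
  · intro k l g hk hl
    by_cases hk2 : k = 2
    · by_cases hl2 : l = 2
      · rw [hk2, hl2]
      · rw [hk2, R2, R3 l hl2]
        rw [hk2] at hk
        exact (key2 l hl2 g hl hk).symm
    · by_cases hl2 : l = 2
      · rw [hl2, R2, R3 k hk2]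
        rw [hl2] at hl
        exact key2 k hk2 g hk hl
      · rw [R3 k hk2, R3 l hl2]
  · rintro ⟨R', hR', he'⟩
    obtain ⟨F, hF⟩ := (isSs_char R' hR').exists_Ph
    have hW : ∀ k, W (ex θ k) F = W (ex θ k) (Finsupp.single (xk k) 1) := by
      intro k
      rw [W_eq_iff]
      intro g hg
      obtain ⟨e⟩ := he' k
      have h2 := char_equiv e (⟨g, hg⟩ : (ex θ k).ker)
      rw [res_char, res_char, hF, hRc] at h2
      rw [Ph_single, one_smul]
      exact h2
    have hdgF : dg F = n + 1 := by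
      rw [dg_of_W (hW 0), dg_single, x3 0 n02.symm, hx, one_mul]
    obtain ⟨y, hy⟩ : ∃ y, F y ≠ 0 := by
      by_contra hall
      push Not at hall
      have h2 : F = 0 := Finsupp.ext hall
      rw [h2] at hdgF
      have h3 : dg (0 : X (PadicAlgCl ℓ) (GK K) →₀ ℕ) = 0 := Finsupp.sum_zero_index
      omega
    have key : ∀ k, y = xk k ∨ y = sg (k := PadicAlgCl ℓ) (ex θ k) • (xk k) := by
      intro k
      have h3 := DFunLike.congr_fun (hW k) y
      rw [W_apply, W_apply] at h3
      by_contra hno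
      rw [not_or] at hno
      rw [Finsupp.single_apply, Finsupp.single_apply, if_neg (fun h => hno.1 h.symm), if_neg] at h3
      · omega
      · intro h4
        apply hno.2
        rw [h4, sg_smul_smul]
    have k0 : y = x ∨ y = sg (k := PadicAlgCl ℓ) (θ 0) • x := by
      have h2 := key 0
      rw [x3 0 n02.symm, e0] at h2
      exact h2
    have k1 : y = x ∨ y = sg (k := PadicAlgCl ℓ) (θ 1) • x := by
      have h2 := key 1
      rw [x3 1 n12.symm, e1] at h2
      exact h2
    have k2 : y = sg (k := PadicAlgCl ℓ) (θ 0) • x ∨ y = sg (k := PadicAlgCl ℓ) (θ 1) • x := by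
      have h2 := key 2
      rw [x2, e2] at h2
      rcases h2 with h2 | h2
      · exact Or.inl h2
      · right
        have h3 : sg (k := PadicAlgCl ℓ) (θ 0 * θ 1 * θ 2) • (sg (k := PadicAlgCl ℓ) (θ 0) • x) =
            sg (k := PadicAlgCl ℓ) (θ 1) • x := by
          rw [← X_mul_smul, ← map_mul]
          have h4 : θ 0 * θ 1 * θ 2 * θ 0 = θ 1 * θ 2 := by
            have h5 : θ 0 * θ 1 * θ 2 * θ 0 = θ 0 * θ 0 * (θ 1 * θ 2) := by
              rw [mul_comm _ (θ 0), ← mul_assoc, ← mul_assoc, ← mul_assoc]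
            rw [h5, mul_self_char, one_mul]
          rw [h4, map_mul, X_mul_smul, hself' 2 n02 n12]
        rw [h2, h3]
    rcases k0 with k0 | k0
    · rcases k2 with k2 | k2
      · exact h0 (k2.symm.trans k0)
      · exact h1 (k2.symm.trans k0)
    · rcases k1 with k1 | k1
      · exact h0 (k0.symm.trans k1)
      · apply h01
        have h5 : sg (k := PadicAlgCl ℓ) (θ 0) • x = sg (k := PadicAlgCl ℓ) (θ 1) • x :=
          k0.symm.trans k1
        rw [map_mul, X_mul_smul, ← h5, sg_smul_smul]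

end Pool.Agent.Q15.GRG
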