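import Mathlib

/-!
# The combinatorial core of the finite isolation lemma

Nonnegative integral functions `r j` on the integers, `j ∈ ι`, such that formally
`r j = p + t ^ (a j) q`.  If there are enough exponents `a j`, then `p` and `q` are nonnegative.
-/

set_option autoImplicit false

namespace Pool.Agent.Q15.GR

/-- the partial sums defining `q` -/
def psum (δ : ℤ → ℤ) (c d : ℤ) (M : ℕ) (i : ℤ) : ℤ :=
  - ∑ s ∈ Finset.range M, δ (i + c - d * s)

theorem psum_stable {δ : ℤ → ℤ} {c d B : ℤ} (hd : 0 < d) (hB : ∀ i < B, δ i = 0) {i : ℤ} {M : ℕ}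
    (hM : i + c - d * M < B) {M' : ℕ} (h : M ≤ M') : psum δ c d M' i = psum δ c d M i := by
  induction M', h using Nat.le_induction with
  | base => rfl
  | succ n hn ih =>
    unfold psum at ih ⊢
    rw [Finset.sum_range_succ, neg_add, ih, hB, neg_zero, add_zero]
    have h1 : (M : ℤ) ≤ n := by exact_mod_cast hn
    nlinarith

/-- the quotient of `- δ` by `1 - t ^ d`, shifted -/
noncomputable def qf (δ : ℤ → ℤ) (c d B : ℤ) (i : ℤ) : ℤ :=
  psum δ c d ((i + c - B).toNat + 1) i

theorem qf_eq {δ : ℤ → ℤ} {c d B : ℤ} (hd : 0 < d) (hB : ∀ i < B, δ i = 0) {i : ℤ} {M : ℕ}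
    (hM : i + c - d * M < B) : qf δ c d B i = psum δ c d M i := by
  have h1 : i + c - d * (((i + c - B).toNat + 1 : ℕ) : ℤ) < B := by
    have h2 : i + c - B ≤ ((i + c - B).toNat : ℤ) := Int.self_le_toNat _
    push_cast
    nlinarith
  rcases le_total M ((i + c - B).toNat + 1) with h | h
  · exact psum_stable hd hB hM h
  · exact (psum_stable hd hB h1 h).symm

theorem qf_rec {δ : ℤ → ℤ} {c d B : ℤ} (hd : 0 < d) (hB : ∀ i < B, δ i = 0) (i : ℤ) :
    qf δ c d B i = qf δ c d B (i - d) - δ (i + c) := by
  obtain ⟨M, hM⟩ : ∃ M : ℕ, i + c - d * M < B := by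
    refine ⟨(i + c - B).toNat + 1, ?_⟩
    have h2 : i + c - B ≤ ((i + c - B).toNat : ℤ) := Int.self_le_toNat _
    push_cast
    nlinarith
  have h1 : i + c - d * ((M + 1 : ℕ) : ℤ) < B := by
    push_cast
    nlinarith
  have h2 : i - d + c - d * (M : ℤ) < B := by nlinarith
  rw [qf_eq hd hB h1, qf_eq hd hB h2]
  unfold psum
  rw [Finset.sum_range_succ']
  have h3 : ∀ s ∈ Finset.range M, δ (i + c - d * ((s + 1 : ℕ) : ℤ)) = δ (i - d + c - d * (s : ℤ)) := by
    intro s _
    congr 1
    push_cast
    ring
  rw [Finset.sum_congr rfl h3]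
  simp only [Nat.cast_zero, mul_zero, sub_zero]
  ring

theorem qf_zero {δ : ℤ → ℤ} {c d B : ℤ} (hd : 0 < d) (hB : ∀ i < B, δ i = 0) {i : ℤ}
    (hi : i + c < B) : qf δ c d B i = 0 := by
  have h1 : i + c - d * ((0 : ℕ) : ℤ) < B := by simpa using hi
  rw [qf_eq hd hB h1]
  rfl

/-- a function on the integers which vanishes far on the left and is periodic vanishes -/
theorem zero_of_periodic {E : ℤ → ℤ} {d B : ℤ} (hd : 0 < d) (hB : ∀ i < B, E i = 0)
    (hE : ∀ i, E (i - d) = E i) (i : ℤ) : E i = 0 := by
  have h1 : ∀ n : ℕ, E (i - d * n) = E i := by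
    intro n
    induction n with
    | zero => simp
    | succ n ih =>
      rw [← ih, ← hE (i - d * n)]
      congr 1
      push_cast
      ring
  rw [← h1 ((i - B).toNat + 1)]
  apply hB
  have h2 : i - B ≤ ((i - B).toNat : ℤ) := Int.self_le_toNat _
  push_cast
  nlinarith

/-- least element of a nonempty set of integers bounded below -/
theorem exists_least {S : Set ℤ} {B : ℤ} (hne : S.Nonempty) (hB : ∀ i ∈ S, B ≤ i) :
    ∃ i ∈ S, ∀ j ∈ S, i ≤ j := by
  classical
  obtain ⟨x, hx⟩ := hne
  have h := Int.exists_least_of_bdd (P := fun i => i ∈ S) ⟨B, hB⟩ ⟨x, hx⟩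
  obtain ⟨i, hi, hi'⟩ := h
  exact ⟨i, hi, hi'⟩

/-- **core of the isolation lemma** -/
theorem core {ι : Type} [Fintype ι] (a : ι → ℤ) (ha : Function.Injective a) (r : ι → ℤ → ℕ)
    (N : ℕ) (B : ℤ) (hB : ∀ j, ∀ i < B, r j i = 0)
    (hN : ∀ j, ∀ s : Finset ℤ, ∑ i ∈ s, r j i ≤ N) (hcard : N + 2 ≤ Fintype.card ι)
    (hrel : ∀ j l m i, ((r j (i - a m) : ℤ) - r l (i - a m)) - (r j (i - a l) - r l (i - a l)) =
      (r m (i - a j) - r l (i - a j)) - (r m (i - a l) - r l (i - a l))) :
    ∃ p q : ℤ → ℕ, ∀ j i, r j i = p i + q (i - a j) := by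
  classical
  have hne : Nonempty ι := Fintype.card_pos_iff.1 (by omega)
  obtain ⟨jM, hjM⟩ := Finite.exists_max a
  obtain ⟨jm, hjm⟩ := Finite.exists_min a
  have hd : 0 < a jM - a jm := by
    rcases (sub_nonneg.2 (hjM jm)).lt_or_eq with h | h
    · exact h
    · exfalso
      have h1 : jM = jm := ha (by omega)
      have h2 : ∀ j, j = jm := by
        intro j
        apply ha
        have := hjM j
        have := hjm j
        rw [h1] at *
        omega
      have h3 : Fintype.card ι ≤ 1 := Fintype.card_le_one_iff.2 fun x y => by rw [h2 x, h2 y]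
      omega
  set d := a jM - a jm with hdd
  set δ : ℤ → ℤ := fun i => (r jM i : ℤ) - r jm i with hδ
  have hδB : ∀ i < B, δ i = 0 := by
    intro i hi
    rw [hδ]
    simp only
    rw [hB jM i hi, hB jm i hi]
    simp
  set q : ℤ → ℤ := qf δ (a jm) d B with hq
  set p : ℤ → ℤ := fun i => (r jm i : ℤ) - q (i - a jm) with hp
  have hqrec : ∀ i, q (i - a jM) - q (i - a jm) = δ i := by
    intro i
    have h1 := qf_rec (c := a jm) hd hδB (i - a jm)
    have h2 : i - a jm - d = i - a jM := by
      rw [hdd]
      ring
    rw [h2, sub_add_cancel] at h1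
    rw [hq, h1]
    ring
  have hq0 : ∀ i, i + a jm < B → q i = 0 := fun i hi => qf_zero hd hδB hi
  -- the decomposition for all indices
  have key : ∀ j i, (r j i : ℤ) = p i + q (i - a j) := by
    intro j i
    let E : ℤ → ℤ := fun i => ((r j i : ℤ) - r jm i) - (q (i - a j) - q (i - a jm))
    have hE : E i = 0 := by
      refine zero_of_periodic (E := E) (d := d) (B := B) hd ?_ ?_ i
      · intro i hi
        have h1 := hjm j
        have h2 : q (i - a j) = 0 := hq0 _ (by omega)
        have h3 : q (i - a jm) = 0 := hq0 _ (by omega)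
        change ((r j i : ℤ) - r jm i) - (q (i - a j) - q (i - a jm)) = 0
        rw [h2, h3, hB j i hi, hB jm i hi]
        simp
      · intro i
        have h1 := hrel jM jm j (i + a jm)
        have h2 := hqrec (i + a jm - a j)
        have h3 := hqrec i
        have e1 : i + a jm - a jM = i - d := by
          rw [hdd]
          ring
        have e2 : i + a jm - a jm = i := by ring
        rw [e1, e2] at h1
        have e3 : i + a jm - a j - a jM = i - d - a j := by
          rw [hdd]
          ring
        have e4 : i + a jm - a j - a jm = i - a j := by ring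
        rw [e3, e4] at h2
        have e5 : i - d - a jm = i - a jM := by
          rw [hdd]
          ring
        change ((r j (i - d) : ℤ) - r jm (i - d)) - (q (i - d - a j) - q (i - d - a jm)) =
          ((r j i : ℤ) - r jm i) - (q (i - a j) - q (i - a jm))
        rw [e5]
        simp only [hδ] at h2 h3
        linarith
    have h4 : ((r j i : ℤ) - r jm i) - (q (i - a j) - q (i - a jm)) = 0 := hE
    simp only [hp]
    linarith
  -- positivity
  have hpos_p : ∀ i, 0 ≤ p i := by
    by_contra hneg
    push Not at hneg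
    obtain ⟨i, hi, hmin⟩ := exists_least (S := {i | p i < 0}) (B := B) hneg (by
      intro i hi
      by_contra hlt
      push Not at hlt
      have h1 : p i < 0 := hi
      have h2 : q (i - a jm) = 0 := hq0 _ (by omega)
      simp only [hp] at h1
      rw [h2, hB jm i hlt] at h1
      simp at h1)
    have hi' : p i < 0 := hi
    have h1 : ∀ l, 1 ≤ q (i - a l) := by
      intro l
      have h2 := key l i
      have h3 : (0 : ℤ) ≤ r l i := Int.natCast_nonneg _
      omega
    have h2 : ∀ l ∈ Finset.univ.erase jm, 1 ≤ r jm (i + a jm - a l) := by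
      intro l hl
      have h3 : a jm < a l := lt_of_le_of_ne (hjm l) fun h => (Finset.ne_of_mem_erase hl) (ha h).symm
      have h4 : 0 ≤ p (i + a jm - a l) := by
        by_contra h5
        push Not at h5
        have := hmin _ h5
        omega
      have h5 := key jm (i + a jm - a l)
      have h6 : i + a jm - a l - a jm = i - a l := by ring
      rw [h6] at h5
      have h7 := h1 l
      have h8 : (1 : ℤ) ≤ r jm (i + a jm - a l) := by omega
      exact_mod_cast h8
    have h3 := hN jm ((Finset.univ.erase jm).image fun l => i + a jm - a l)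
    rw [Finset.sum_image (by
      intro x _ y _ hxy
      apply ha
      have : i + a jm - a x = i + a jm - a y := hxy
      omega)] at h3
    have h4 : (Finset.univ.erase jm).card ≤ ∑ l ∈ Finset.univ.erase jm, r jm (i + a jm - a l) := by
      rw [Finset.card_eq_sum_ones]
      exact Finset.sum_le_sum h2
    rw [Finset.card_erase_of_mem (Finset.mem_univ _), Finset.card_univ] at h4
    omega
  have hpos_q : ∀ i, 0 ≤ q i := by
    by_contra hneg
    push Not at hneg
    obtain ⟨i, hi, hmin⟩ := exists_least (S := {i | q i < 0}) (B := B - a jm) hneg (by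
      intro i hi
      by_contra hlt
      push Not at hlt
      have h1 : q i < 0 := hi
      rw [hq0 i (by omega)] at h1
      exact lt_irrefl _ h1)
    have hi' : q i < 0 := hi
    have h1 : ∀ l, 1 ≤ p (i + a l) := by
      intro l
      have h2 := key l (i + a l)
      rw [add_sub_cancel_right] at h2
      have h3 : (0 : ℤ) ≤ r l (i + a l) := Int.natCast_nonneg _
      omega
    have h2 : ∀ l ∈ Finset.univ.erase jM, 1 ≤ r jM (i + a l) := by
      intro l hl
      have h3 : a l < a jM := lt_of_le_of_ne (hjM l) fun h => (Finset.ne_of_mem_erase hl) (ha h)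
      have h4 : 0 ≤ q (i + a l - a jM) := by
        by_contra h5
        push Not at h5
        have := hmin _ h5
        omega
      have h5 := key jM (i + a l)
      have h7 := h1 l
      have h8 : (1 : ℤ) ≤ r jM (i + a l) := by omega
      exact_mod_cast h8
    have h3 := hN jM ((Finset.univ.erase jM).image fun l => i + a l)
    rw [Finset.sum_image (by
      intro x _ y _ hxy
      apply ha
      have : i + a x = i + a y := hxy
      omega)] at h3
    have h4 : (Finset.univ.erase jM).card ≤ ∑ l ∈ Finset.univ.erase jM, r jM (i + a l) := by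
      rw [Finset.card_eq_sum_ones]
      exact Finset.sum_le_sum h2
    rw [Finset.card_erase_of_mem (Finset.mem_univ _), Finset.card_univ] at h4
    omega
  refine ⟨fun i => (p i).toNat, fun i => (q i).toNat, fun j i => ?_⟩
  have h1 := key j i
  have h2 := hpos_p i
  have h3 := hpos_q (i - a j)
  simp only
  omega

end Pool.Agent.Q15.GR
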