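import Pool.Agent.Q15.GR5
import Pool.Agent.Q15.GRIso1

/-!
# The isolation lemma for an arbitrary group
-/

set_option autoImplicit false
set_option linter.unusedSectionVars false

namespace Pool.Agent.Q15.GR

open Representation Module

variable {k : Type} [Field k] [CharZero k] {G : Type} [Group G]

/-- multiplicities are bounded by the dimension -/
theorem sum_le_dg (m : X k G →₀ ℕ) (s : Finset (X k G)) : ∑ f ∈ s, m f ≤ dg m := by
  classical
  have h1 : ∑ f ∈ s, m f ≤ ∑ f ∈ m.support, m f := by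
    have h2 : ∑ f ∈ s, m f = ∑ f ∈ s ∩ m.support, m f := by
      symm
      apply Finset.sum_subset Finset.inter_subset_left
      intro f hf hf'
      by_contra h3
      exact hf' (Finset.mem_inter.2 ⟨hf, Finsupp.mem_support_iff.2 h3⟩)
    rw [h2]
    exact Finset.sum_le_sum_of_subset Finset.inter_subset_right
  refine h1.trans ?_
  unfold dg
  rw [Finsupp.sum]
  exact Finset.sum_le_sum fun f _ => Nat.le_mul_of_pos_right _ (dm_pos f)

theorem zp_add (t : G →* kˣ) (a b : ℤ) (x : X k G) : t ^ a • (t ^ b • x) = t ^ (a + b) • x := by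
  apply Subtype.ext
  funext g
  change ((t g ^ a : kˣ) : k) * (((t g ^ b : kˣ) : k) * (x : G → k) g) =
    ((t g ^ (a + b) : kˣ) : k) * (x : G → k) g
  rw [zpow_add, Units.val_mul, mul_assoc]

theorem zp_zero (t : G →* kˣ) (x : X k G) : t ^ (0 : ℤ) • x = x := by
  apply Subtype.ext
  funext g
  change ((t g ^ (0 : ℤ) : kˣ) : k) * (x : G → k) g = (x : G → k) g
  rw [zpow_zero, Units.val_one, one_mul]

theorem zp_inv (t : G →* kˣ) (a : ℤ) (x : X k G) : (t ^ a)⁻¹ • x = t ^ (- a) • x := by
  apply Subtype.ext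
  funext g
  change (((t g ^ a)⁻¹ : kˣ) : k) * (x : G → k) g = ((t g ^ (- a) : kˣ) : k) * (x : G → k) g
  rw [zpow_neg]

/-- **the isolation lemma for multiplicities** -/
theorem iso_mult {ι : Type} [Fintype ι] (a : ι → ℤ) (ha : Function.Injective a) (t : G →* kˣ)
    (ht : ∀ n : ℤ, n ≠ 0 → ∃ g, t g ^ n ≠ 1) (m : ι → X k G →₀ ℕ) (N : ℕ)
    (hN : ∀ j, dg (m j) ≤ N) (hcard : N + 2 ≤ Fintype.card ι)
    (hrel : ∀ j l i g, (Ph (m j) g - Ph (m l) g) * (((t g ^ a i : kˣ) : k) - ((t g ^ a l : kˣ) : k)) =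
      (Ph (m i) g - Ph (m l) g) * (((t g ^ a j : kˣ) : k) - ((t g ^ a l : kˣ) : k))) :
    ∃ p q : X k G →₀ ℕ, ∀ j, m j = p + tw (t ^ a j) q := by
  classical
  -- relations between the multiplicities
  have hrel' : ∀ j l i (x : X k G),
      ((m j (t ^ (- a i) • x) : ℤ) - m l (t ^ (- a i) • x)) -
        (m j (t ^ (- a l) • x) - m l (t ^ (- a l) • x)) =
      (m i (t ^ (- a j) • x) - m l (t ^ (- a j) • x)) -
        (m i (t ^ (- a l) • x) - m l (t ^ (- a l) • x)) := by
    intro j l i x
    let A : X k G →₀ ℤ := tw (t ^ a i) (toZ (m j) - toZ (m l)) - tw (t ^ a l) (toZ (m j) - toZ (m l))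
    let B : X k G →₀ ℤ := tw (t ^ a j) (toZ (m i) - toZ (m l)) - tw (t ^ a l) (toZ (m i) - toZ (m l))
    have hAB : A = B := by
      apply PhZ_inj
      funext g
      have h1 := hrel j l i g
      have e1 : PhZ (k := k) (G := G) A g = (Ph (m j) g - Ph (m l) g) *
          (((t g ^ a i : kˣ) : k) - ((t g ^ a l : kˣ) : k)) := by
        change PhZ (k := k) (G := G) (tw (t ^ a i) (toZ (m j) - toZ (m l)) -
          tw (t ^ a l) (toZ (m j) - toZ (m l))) g = _
        rw [map_sub, Pi.sub_apply, PhZ_tw, PhZ_tw, map_sub, Pi.sub_apply, PhZ_toZ, PhZ_toZ]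
        have e2 : ((t ^ a i) g : k) = ((t g ^ a i : kˣ) : k) := rfl
        have e3 : ((t ^ a l) g : k) = ((t g ^ a l : kˣ) : k) := rfl
        rw [e2, e3]
        ring
      have e1' : PhZ (k := k) (G := G) B g = (Ph (m i) g - Ph (m l) g) *
          (((t g ^ a j : kˣ) : k) - ((t g ^ a l : kˣ) : k)) := by
        change PhZ (k := k) (G := G) (tw (t ^ a j) (toZ (m i) - toZ (m l)) -
          tw (t ^ a l) (toZ (m i) - toZ (m l))) g = _
        rw [map_sub, Pi.sub_apply, PhZ_tw, PhZ_tw, map_sub, Pi.sub_apply, PhZ_toZ, PhZ_toZ]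
        have e2 : ((t ^ a j) g : k) = ((t g ^ a j : kˣ) : k) := rfl
        have e3 : ((t ^ a l) g : k) = ((t g ^ a l : kˣ) : k) := rfl
        rw [e2, e3]
        ring
      rw [e1, e1', h1]
    have h1 := DFunLike.congr_fun hAB x
    have h2 : A x = ((m j (t ^ (- a i) • x) : ℤ) - m l (t ^ (- a i) • x)) -
        (m j (t ^ (- a l) • x) - m l (t ^ (- a l) • x)) := by
      change tw (t ^ a i) (toZ (m j) - toZ (m l)) x - tw (t ^ a l) (toZ (m j) - toZ (m l)) x = _
      rw [tw_apply, tw_apply, zp_inv, zp_inv, Finsupp.sub_apply, Finsupp.sub_apply,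
        toZ_apply, toZ_apply, toZ_apply, toZ_apply]
    have h3 : B x = (m i (t ^ (- a j) • x) - m l (t ^ (- a j) • x)) -
        (m i (t ^ (- a l) • x) - m l (t ^ (- a l) • x)) := by
      change tw (t ^ a j) (toZ (m i) - toZ (m l)) x - tw (t ^ a l) (toZ (m i) - toZ (m l)) x = _
      rw [tw_apply, tw_apply, zp_inv, zp_inv, Finsupp.sub_apply, Finsupp.sub_apply,
        toZ_apply, toZ_apply, toZ_apply, toZ_apply]
    rw [← h2, ← h3, h1]
  -- injectivity along orbits
  have hinj : ∀ x : X k G, Function.Injective fun i : ℤ => t ^ i • x := by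
    intro x i j hij
    have h1 : t ^ (i - j) • (t ^ j • x) = t ^ j • x := by
      rw [zp_add, sub_add_cancel]
      exact hij
    have h2 := free t ht h1
    omega
  -- the core lemma along each orbit
  have hcore : ∀ x : X k G, ∃ p q : ℤ → ℕ, ∀ j i, m j (t ^ i • x) = p i + q (i - a j) := by
    intro x
    have hfin : {i : ℤ | ∃ j, m j (t ^ i • x) ≠ 0}.Finite := by
      have h1 : {i : ℤ | ∃ j, m j (t ^ i • x) ≠ 0} = ⋃ j, {i : ℤ | m j (t ^ i • x) ≠ 0} := by
        ext i
        simp
      rw [h1]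
      refine Set.finite_iUnion fun j => ?_
      have h2 : {i : ℤ | m j (t ^ i • x) ≠ 0} =
          (fun i : ℤ => t ^ i • x) ⁻¹' ((m j).support : Set (X k G)) := by
        ext i
        simp
      rw [h2]
      exact Set.Finite.preimage (hinj x).injOn (Finset.finite_toSet _)
    obtain ⟨B, hB⟩ := hfin.bddBelow
    refine core a ha (fun j i => m j (t ^ i • x)) N B ?_ ?_ hcard ?_
    · intro j i hi
      by_contra h
      have := hB ⟨j, h⟩
      omega
    · intro j s
      refine le_trans ?_ (hN j)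
      rw [← Finset.sum_image (f := fun y => m j y) (g := fun i : ℤ => t ^ i • x)
        (fun i _ j _ h => hinj x h)]
      exact sum_le_dg _ _
    · intro j l i z
      have h1 := hrel' j l i (t ^ z • x)
      simp only [zp_add] at h1
      have e : ∀ b : ℤ, - b + z = z - b := fun b => by ring
      simp only [e] at h1
      exact h1
  choose P Q hPQ using hcore
  -- representatives of the orbits
  let s : Setoid (X k G) :=
    { r := fun x y => ∃ i : ℤ, y = t ^ i • x
      iseqv :=
        { refl := fun x => ⟨0, (zp_zero t x).symm⟩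
          symm := by
            rintro x y ⟨i, rfl⟩
            exact ⟨-i, by rw [zp_add, neg_add_cancel, zp_zero]⟩
          trans := by
            rintro x y z ⟨i, rfl⟩ ⟨j, rfl⟩
            exact ⟨j + i, by rw [zp_add]⟩ } }
  let rep : X k G → X k G := fun x => (Quotient.mk s x).out
  have hrep : ∀ x, ∃ i : ℤ, x = t ^ i • rep x := fun x =>
    Quotient.exact (s := s) (Quotient.out_eq (Quotient.mk s x))
  choose idx hidx using hrep
  have hrep' : ∀ (i : ℤ) x, rep (t ^ i • x) = rep x := by
    intro i x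
    have h1 : Quotient.mk s (t ^ i • x) = Quotient.mk s x := (Quotient.sound (s := s) ⟨i, rfl⟩).symm
    change (Quotient.mk s (t ^ i • x)).out = (Quotient.mk s x).out
    rw [h1]
  have hidx' : ∀ (i : ℤ) x, idx (t ^ i • x) = i + idx x := by
    intro i x
    apply hinj (rep x)
    change t ^ idx (t ^ i • x) • rep x = t ^ (i + idx x) • rep x
    rw [← zp_add, ← hidx x]
    conv_rhs => rw [hidx (t ^ i • x)]
    rw [hrep']
  have hkey : ∀ j x, m j x = P (rep x) (idx x) + Q (rep x) (idx x - a j) := by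
    intro j x
    conv_lhs => rw [hidx x]
    exact hPQ (rep x) j (idx x)
  have hne : Nonempty ι := Fintype.card_pos_iff.1 (by omega)
  obtain ⟨j₀⟩ := hne
  have hpf : (Function.support fun x => P (rep x) (idx x)).Finite := by
    refine (Finset.finite_toSet (m j₀).support).subset fun x hx => ?_
    rw [Finset.mem_coe, Finsupp.mem_support_iff, hkey]
    rw [Function.mem_support] at hx
    omega
  have hqf : (Function.support fun x => Q (rep x) (idx x)).Finite := by
    have h1 : ((fun x => t ^ a j₀ • x) ⁻¹' ((m j₀).support : Set (X k G))).Finite :=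
      Set.Finite.preimage (MulAction.injective _).injOn (Finset.finite_toSet _)
    refine h1.subset fun x hx => ?_
    rw [Set.mem_preimage, Finset.mem_coe, Finsupp.mem_support_iff, hkey, hrep', hidx',
      add_sub_cancel_left]
    rw [Function.mem_support] at hx
    omega
  refine ⟨Finsupp.ofSupportFinite _ hpf, Finsupp.ofSupportFinite _ hqf, fun j => ?_⟩
  ext x
  rw [Finsupp.add_apply, tw_apply]
  change m j x = P (rep x) (idx x) + Q (rep ((t ^ a j)⁻¹ • x)) (idx ((t ^ a j)⁻¹ • x))
  rw [zp_inv, hrep', hidx', hkey j x]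
  congr 2
  ring

end Pool.Agent.Q15.GR
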