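import Pool.Agent.Q15.GRIso2

/-!
# The isolation lemma for continuous representations
-/

set_option autoImplicit false
set_option linter.unusedSectionVars false

namespace Pool.Agent.Q15.GR

open Representation Module

section lin

variable {k : Type} [Field k] [IsAlgClosed k]
variable {V W : Type} [AddCommGroup V] [Module k V] [FiniteDimensional k V] [AddCommGroup W]
  [Module k W] [FiniteDimensional k W]

/-- the eigenvalues with multiplicity -/
noncomputable def eig (f : V →ₗ[k] V) : Multiset k := f.charpoly.roots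

theorem eig_smul (c : kˣ) (f : V →ₗ[k] V) : eig ((c : k) • f) = (eig f).map (fun x => x * (c : k)) := by
  classical
  have hc : (c : k) ≠ 0 := c.ne_zero
  have hinj : Function.Injective fun x : k => x * c := mul_left_injective₀ hc
  ext x
  have hx : x = (fun x : k => x * c) (x * (c : k)⁻¹) := by
    simp only
    rw [mul_assoc, inv_mul_cancel₀ hc, mul_one]
  conv_rhs => rw [hx]
  rw [Multiset.count_map_eq_count' _ _ hinj]
  unfold eig
  have hE : Module.End.maxGenEigenspace ((c : k) • f) x =
      Module.End.maxGenEigenspace f (x * (c : k)⁻¹) := by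
    ext y
    rw [Module.End.mem_maxGenEigenspace, Module.End.mem_maxGenEigenspace]
    have h1 : ((c : k) • f - x • (1 : Module.End k V)) =
        (c : k) • (f - (x * (c : k)⁻¹) • (1 : Module.End k V)) := by
      rw [smul_sub, smul_smul]
      congr 2
      field_simp
    refine exists_congr fun n => ?_
    rw [h1, smul_pow, LinearMap.smul_apply, smul_eq_zero_iff_right (pow_ne_zero n hc)]
  rw [Polynomial.count_roots, Polynomial.count_roots, ← LinearMap.finrank_maxGenEigenspace_eq,
    ← LinearMap.finrank_maxGenEigenspace_eq, hE]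

theorem eig_prod (f : V →ₗ[k] V) (g : W →ₗ[k] W) :
    eig (f.prodMap g) = eig f + eig g := by
  unfold eig
  rw [LinearMap.charpoly_prodMap, Polynomial.roots_mul]
  exact mul_ne_zero (LinearMap.charpoly_monic f).ne_zero (LinearMap.charpoly_monic g).ne_zero

theorem card_eig (f : V →ₗ[k] V) : Multiset.card (eig f) = finrank k V := by
  unfold eig
  rw [← LinearMap.charpoly_natDegree f]
  exact (IsAlgClosed.splits f.charpoly).natDegree_eq_card_roots.symm

theorem sum_eig (f : V →ₗ[k] V) : (eig f).sum = LinearMap.trace k V f := by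
  unfold eig
  exact (Module.End.trace_eq_sum_roots_charpoly_of_splits (IsAlgClosed.splits _)).symm

theorem zero_notMem_eig {f g : V →ₗ[k] V} (h : f ∘ₗ g = LinearMap.id) : (0 : k) ∉ eig f := by
  intro h0
  unfold eig at h0
  rw [Polynomial.mem_roots (LinearMap.charpoly_monic f).ne_zero] at h0
  have h1 : Module.End.HasEigenvalue f 0 :=
    (Module.End.hasEigenvalue_iff_isRoot_charpoly f 0).2 h0
  obtain ⟨v, hv⟩ := h1.exists_hasEigenvector
  have h2 : f v = 0 := by
    have h3 := hv.apply_eq_smul
    rwa [zero_smul] at h3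
  have h3 : g ∘ₗ f = LinearMap.id := (LinearMap.comp_eq_id_comm k V).1 h
  have h4 := LinearMap.congr_fun h3 v
  rw [LinearMap.comp_apply, h2, map_zero] at h4
  exact hv.2 h4.symm

end lin

section multiset

variable {k : Type} [Field k]

/-- two multisets `P`, `Q` are determined by `P + Q τ ^ a` for two exponents if `τ` has infinite
order -/
theorem multiset_unique {τ : kˣ} (hτ : ∀ n : ℤ, n ≠ 0 → τ ^ n ≠ 1) {a b : ℤ} (hab : a ≠ b)
    {D D' P Q : Multiset k} (hP : (0 : k) ∉ P) (hQ : (0 : k) ∉ Q)
    (h1 : D + D'.map (fun x : k => x * ((τ ^ a : kˣ) : k)) = P + Q.map (fun x : k => x * ((τ ^ a : kˣ) : k)))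
    (h2 : D + D'.map (fun x : k => x * ((τ ^ b : kˣ) : k)) = P + Q.map (fun x : k => x * ((τ ^ b : kˣ) : k))) :
    D = P ∧ D' = Q := by
  classical
  have hinj : ∀ c : ℤ, Function.Injective fun x : k => x * ((τ ^ c : kˣ) : k) := fun c =>
    mul_left_injective₀ (Units.ne_zero _)
  have hcnt : ∀ (c : ℤ) (M : Multiset k) (x : k),
      (M.map (fun x : k => x * ((τ ^ c : kˣ) : k))).count x = M.count (x * ((τ ^ (-c) : kˣ) : k)) := by
    intro c M x
    have hx : x = (fun x : k => x * ((τ ^ c : kˣ) : k)) (x * ((τ ^ (-c) : kˣ) : k)) := by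
      simp only
      rw [mul_assoc, ← Units.val_mul, ← zpow_add, neg_add_cancel, zpow_zero, Units.val_one, mul_one]
    conv_lhs => rw [hx]
    rw [Multiset.count_map_eq_count' _ _ (hinj c)]
  let c : k → ℤ := fun x => (Q.count x : ℤ) - D'.count x
  have hc1 : ∀ x, (D.count x : ℤ) - P.count x = c (x * ((τ ^ (-a) : kˣ) : k)) := by
    intro x
    have h3 := congrArg (Multiset.count x) h1
    rw [Multiset.count_add, Multiset.count_add, hcnt, hcnt] at h3
    have h4 : ((D.count x + D'.count (x * ((τ ^ (-a) : kˣ) : k)) : ℕ) : ℤ) =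
      ((P.count x + Q.count (x * ((τ ^ (-a) : kˣ) : k)) : ℕ) : ℤ) := by rw [h3]
    rw [Nat.cast_add, Nat.cast_add] at h4
    change _ = (Q.count (x * ((τ ^ (-a) : kˣ) : k)) : ℤ) - D'.count (x * ((τ ^ (-a) : kˣ) : k))
    linarith
  have hc2 : ∀ x, (D.count x : ℤ) - P.count x = c (x * ((τ ^ (-b) : kˣ) : k)) := by
    intro x
    have h3 := congrArg (Multiset.count x) h2
    rw [Multiset.count_add, Multiset.count_add, hcnt, hcnt] at h3
    have h4 : ((D.count x + D'.count (x * ((τ ^ (-b) : kˣ) : k)) : ℕ) : ℤ) =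
      ((P.count x + Q.count (x * ((τ ^ (-b) : kˣ) : k)) : ℕ) : ℤ) := by rw [h3]
    rw [Nat.cast_add, Nat.cast_add] at h4
    change _ = (Q.count (x * ((τ ^ (-b) : kˣ) : k)) : ℤ) - D'.count (x * ((τ ^ (-b) : kˣ) : k))
    linarith
  have hper : ∀ x, c (x * ((τ ^ (a - b) : kˣ) : k)) = c x := by
    intro x
    have h3 := hc1 (x * ((τ ^ a : kˣ) : k))
    have h4 := hc2 (x * ((τ ^ a : kˣ) : k))
    rw [h3] at h4
    rw [mul_assoc, mul_assoc, ← Units.val_mul, ← Units.val_mul, ← zpow_add, ← zpow_add,
      add_neg_cancel, zpow_zero, Units.val_one, mul_one, ← sub_eq_add_neg] at h4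
    exact h4.symm
  have hper' : ∀ (n : ℕ) x, c (x * (((τ ^ (a - b)) ^ n : kˣ) : k)) = c x := by
    intro n
    induction n with
    | zero =>
      intro x
      rw [pow_zero, Units.val_one, mul_one]
    | succ n ih =>
      intro x
      rw [pow_succ, Units.val_mul, ← mul_assoc, hper, ih]
  have hc0 : ∀ x, x ≠ 0 → c x = 0 := by
    intro x hx
    by_contra hne
    have hfin : {y : k | c y ≠ 0}.Finite := by
      refine (Finset.finite_toSet (Q.toFinset ∪ D'.toFinset)).subset fun y hy => ?_
      by_contra h3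
      apply hy
      rw [Finset.mem_coe, Finset.mem_union, not_or, Multiset.mem_toFinset,
        Multiset.mem_toFinset] at h3
      change (Q.count y : ℤ) - D'.count y = 0
      rw [Multiset.count_eq_zero_of_notMem h3.1, Multiset.count_eq_zero_of_notMem h3.2]
      simp
    have hinf : (Set.range fun n : ℕ => x * (((τ ^ (a - b)) ^ n : kˣ) : k)).Infinite := by
      apply Set.infinite_range_of_injective
      intro m n hmn
      have h3 := mul_left_cancel₀ hx hmn
      have h4 : (τ ^ (a - b)) ^ m = (τ ^ (a - b)) ^ n := Units.ext h3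
      rw [← zpow_natCast, ← zpow_natCast, ← zpow_mul, ← zpow_mul] at h4
      by_contra hne'
      apply hτ ((a - b) * m - (a - b) * n)
      · rw [← mul_sub]
        refine mul_ne_zero (sub_ne_zero.2 hab) (sub_ne_zero.2 ?_)
        exact_mod_cast hne'
      · rw [zpow_sub, h4, mul_inv_cancel]
    apply hinf
    refine hfin.subset ?_
    rintro y ⟨n, rfl⟩
    simp only [Set.mem_setOf_eq]
    rw [hper']
    exact hne
  have hDP : D = P := by
    ext x
    rcases eq_or_ne x 0 with rfl | hx
    · have h3 := hc1 0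
      rw [zero_mul, Multiset.count_eq_zero_of_notMem hP] at h3
      change _ = (Q.count 0 : ℤ) - D'.count 0 at h3
      rw [Multiset.count_eq_zero_of_notMem hQ] at h3
      rw [Multiset.count_eq_zero_of_notMem hP]
      omega
    · have h3 := hc1 x
      rw [hc0 _ (mul_ne_zero hx (Units.ne_zero _))] at h3
      omega
  refine ⟨hDP, ?_⟩
  rw [hDP] at h1
  exact Multiset.map_injective (hinj a) (add_left_cancel h1)

end multiset

end Pool.Agent.Q15.GR
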