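import Pool.Agent.Q15.GRIso3

/-!
# The isolation lemma for continuous representations (statement with Frobenius eigenvalues)
-/

set_option autoImplicit false
set_option linter.unusedSectionVars false

namespace Pool.Agent.Q15.GR

open Representation Module

section cts

variable {Γ : Type} [Group Γ] [TopologicalSpace Γ] {k : Type} [Field k] [TopologicalSpace k]
  [IsTopologicalRing k]

/-- the representation is continuous -/
def Cts {n : ℕ} (ρ : Representation k Γ (Fin n → k)) : Prop := ∀ v, Continuous fun g => ρ g v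

theorem trace_eq {n : ℕ} (f : (Fin n → k) →ₗ[k] (Fin n → k)) :
    LinearMap.trace k (Fin n → k) f = ∑ i, f (Pi.single i 1) i := by
  rw [LinearMap.trace_eq_matrix_trace k (Pi.basisFun k (Fin n)), Matrix.trace]
  refine Finset.sum_congr rfl fun i _ => ?_
  rw [Matrix.diag_apply, LinearMap.toMatrix_apply, Pi.basisFun_apply, Pi.basisFun_repr]

theorem char_cont {n : ℕ} {ρ : Representation k Γ (Fin n → k)} (h : Cts ρ) :
    Continuous ρ.character := by
  have h1 : ρ.character = fun g => ∑ i, ρ g (Pi.single i 1) i := funext fun g => trace_eq _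
  rw [h1]
  exact continuous_finset_sum _ fun i _ => (continuous_apply i).comp (h _)

theorem lin_cont {n m : ℕ} (f : (Fin n → k) →ₗ[k] (Fin m → k)) : Continuous f := by
  have h1 : (f : (Fin n → k) → (Fin m → k)) = fun v => ∑ i, v i • f (Pi.single i 1) := by
    funext v
    conv_lhs => rw [pi_eq_sum_univ v (R := k)]
    rw [map_sum]
    refine Finset.sum_congr rfl fun i _ => ?_
    rw [map_smul]
    congr 2
    ext j
    rw [Pi.single_apply]
    simp [eq_comm]
  rw [h1]
  exact continuous_finset_sum _ fun i _ => (continuous_apply i).smul continuous_const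

/-- a summand of a continuous representation is continuous -/
theorem cts_left {n m N : ℕ} {ρ : Representation k Γ (Fin n → k)}
    {σ : Representation k Γ (Fin m → k)} {R : Representation k Γ (Fin N → k)} (hR : Cts R)
    (e : Representation.Equiv (ρ.prod σ) R) : Cts ρ := by
  intro v
  let a : (Fin n → k) →ₗ[k] (Fin N → k) := e.toLinearEquiv.toLinearMap ∘ₗ LinearMap.inl k _ _
  let b : (Fin N → k) →ₗ[k] (Fin n → k) := LinearMap.fst k _ _ ∘ₗ e.toLinearEquiv.symm.toLinearMap
  have h1 : ∀ g, ρ g v = b (R g (a v)) := by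
    intro g
    have h2 : R g (e (v, 0)) = e ((ρ.prod σ) g (v, 0)) :=
      (IntertwiningMap.isIntertwining _ _ e.toIntertwiningMap g (v, 0)).symm
    change ρ g v = (e.toLinearEquiv.symm (R g (e (v, 0)))).1
    rw [h2]
    change ρ g v = (e.toLinearEquiv.symm (e.toLinearEquiv ((ρ.prod σ) g (v, 0)))).1
    rw [LinearEquiv.symm_apply_apply]
    rfl
  simp_rw [h1]
  exact (lin_cont b).comp (hR _)

theorem cts_right {n m N : ℕ} {ρ : Representation k Γ (Fin n → k)}
    {σ : Representation k Γ (Fin m → k)} {R : Representation k Γ (Fin N → k)} (hR : Cts R)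
    (e : Representation.Equiv (ρ.prod σ) R) : Cts σ := by
  intro v
  let a : (Fin m → k) →ₗ[k] (Fin N → k) := e.toLinearEquiv.toLinearMap ∘ₗ LinearMap.inr k _ _
  let b : (Fin N → k) →ₗ[k] (Fin m → k) := LinearMap.snd k _ _ ∘ₗ e.toLinearEquiv.symm.toLinearMap
  have h1 : ∀ g, σ g v = b (R g (a v)) := by
    intro g
    have h2 : R g (e (0, v)) = e ((ρ.prod σ) g (0, v)) :=
      (IntertwiningMap.isIntertwining _ _ e.toIntertwiningMap g (0, v)).symm
    change σ g v = (e.toLinearEquiv.symm (R g (e (0, v)))).2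
    rw [h2]
    change σ g v = (e.toLinearEquiv.symm (e.toLinearEquiv ((ρ.prod σ) g (0, v)))).2
    rw [LinearEquiv.symm_apply_apply]
    rfl
  simp_rw [h1]
  exact (lin_cont b).comp (hR _)

theorem zpow_cont [ContinuousInv Γ] {t : Γ →* kˣ} (ht : Continuous fun g => (t g : k)) (a : ℤ) :
    Continuous fun g => ((t g ^ a : kˣ) : k) := by
  obtain ⟨n, rfl | rfl⟩ := a.eq_nat_or_neg
  · simp_rw [zpow_natCast, Units.val_pow_eq_pow_val]
    exact ht.pow n
  · have h1 : ∀ g, ((t g ^ (-(n : ℤ)) : kˣ) : k) = (t g⁻¹ : k) ^ n := by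
      intro g
      rw [map_inv, zpow_neg, zpow_natCast, ← inv_pow, Units.val_pow_eq_pow_val]
    simp_rw [h1]
    exact (ht.comp continuous_inv).pow n

/-- a twist back -/
theorem cts_untwist [ContinuousInv Γ] {n : ℕ} {t : Γ →* kˣ} (ht : Continuous fun g => (t g : k))
    (a : ℤ) {σ : Representation k Γ (Fin n → k)} (h : Cts (twist (t ^ a) σ)) : Cts σ := by
  intro v
  have h1 : ∀ g, σ g v = ((t g ^ (-a) : kˣ) : k) • (twist (t ^ a) σ g v) := by
    intro g
    change σ g v = ((t g ^ (-a) : kˣ) : k) • (((t g ^ a : kˣ) : k) • σ g v)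
    rw [smul_smul, ← Units.val_mul, ← zpow_add, neg_add_cancel, zpow_zero, Units.val_one, one_smul]
  simp_rw [h1]
  exact (zpow_cont ht (-a)).smul (h v)

end cts

/-- eigenvalues of equivalent representations -/
theorem eig_equiv {Γ : Type} [Group Γ] {k : Type} [Field k] [IsAlgClosed k] {V W : Type}
    [AddCommGroup V] [Module k V] [FiniteDimensional k V] [AddCommGroup W] [Module k W]
    [FiniteDimensional k W] {ρ : Representation k Γ V} {σ : Representation k Γ W}
    (e : Representation.Equiv ρ σ) (g : Γ) : eig (σ g) = eig (ρ g) := by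
  unfold eig
  rw [← Representation.Equiv.conj_apply_self g e]
  rw [LinearEquiv.charpoly_conj e.toLinearEquiv (ρ g)]

theorem eig_rep_ne {Γ : Type} [Group Γ] {k : Type} [Field k] [IsAlgClosed k] {V : Type}
    [AddCommGroup V] [Module k V] [FiniteDimensional k V] (ρ : Representation k Γ V) (g : Γ) :
    (0 : k) ∉ eig (ρ g) := by
  refine zero_notMem_eig (g := ρ g⁻¹) ?_
  rw [← Module.End.mul_eq_comp, ← map_mul, mul_inv_cancel, map_one]
  rfl

/-- **finite isolation lemma.** -/
theorem iso_cts {Γ : Type} [Group Γ] [TopologicalSpace Γ] [ContinuousInv Γ] {k : Type} [Field k]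
    [CharZero k] [IsAlgClosed k] [TopologicalSpace k] [IsTopologicalRing k] [T2Space k]
    {Φ : Type} [Nonempty Φ] (π : Φ → Γ) (hπ : DenseRange π) (D D' : Φ → Multiset k) (t : Γ →* kˣ)
    (htc : Continuous fun g => (t g : k)) (ht : ∀ φ, ∀ n : ℤ, n ≠ 0 → t (π φ) ^ n ≠ 1)
    {ι : Type} [Fintype ι] (a : ι → ℤ) (ha : Function.Injective a) {N : ℕ}
    (hcard : N + 2 ≤ Fintype.card ι) (R : ι → Representation k Γ (Fin N → k))
    (hR : ∀ j, (R j).IsSemisimpleRepresentation) (hRc : ∀ j, Cts (R j))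
    (hD : ∀ j φ, eig (R j (π φ)) = D φ + (D' φ).map (fun x => x * ((t (π φ) ^ a j : kˣ) : k))) :
    ∃ (n n' : ℕ) (ρ : Representation k Γ (Fin n → k)) (ρ' : Representation k Γ (Fin n' → k)),
      ρ.IsSemisimpleRepresentation ∧ ρ'.IsSemisimpleRepresentation ∧ Cts ρ ∧ Cts ρ' ∧
      (∀ j, Nonempty (Representation.Equiv (ρ.prod (twist (t ^ a j) ρ')) (R j))) ∧
      ∀ φ, eig (ρ (π φ)) = D φ ∧ eig (ρ' (π φ)) = D' φ := by
  classical
  have hm : ∀ j, ∃ m : X k Γ →₀ ℕ, (R j).character = Ph m := fun j => by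
    obtain ⟨m, hm, -⟩ := exists_mult (R j) (hR j)
    exact ⟨m, hm⟩
  choose m hm using hm
  obtain ⟨φ₀⟩ := ‹Nonempty Φ›
  have hcc : ∀ j, Continuous (Ph (m j)) := fun j => by
    rw [← hm j]
    exact char_cont (hRc j)
  have hval : ∀ j φ, Ph (m j) (π φ) = (D φ).sum + (D' φ).sum * ((t (π φ) ^ a j : kˣ) : k) := by
    intro j φ
    rw [← hm j]
    change LinearMap.trace k _ (R j (π φ)) = _
    rw [← sum_eig, hD, Multiset.sum_add, Multiset.sum_map_mul_right, Multiset.map_id']
  have hrel : ∀ j l i g, (Ph (m j) g - Ph (m l) g) *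
      (((t g ^ a i : kˣ) : k) - ((t g ^ a l : kˣ) : k)) =
      (Ph (m i) g - Ph (m l) g) * (((t g ^ a j : kˣ) : k) - ((t g ^ a l : kˣ) : k)) := by
    intro j l i g
    have h1 : (fun g => (Ph (m j) g - Ph (m l) g) *
        (((t g ^ a i : kˣ) : k) - ((t g ^ a l : kˣ) : k))) =
        fun g => (Ph (m i) g - Ph (m l) g) *
          (((t g ^ a j : kˣ) : k) - ((t g ^ a l : kˣ) : k)) := by
      refine Continuous.ext_on hπ ?_ ?_ ?_
      · exact ((hcc j).sub (hcc l)).mul ((zpow_cont htc _).sub (zpow_cont htc _))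
      · exact ((hcc i).sub (hcc l)).mul ((zpow_cont htc _).sub (zpow_cont htc _))
      · rintro g ⟨φ, rfl⟩
        simp only
        rw [hval, hval, hval]
        ring
    exact congrFun h1 g
  obtain ⟨p, q, hpq⟩ := iso_mult a ha t (fun n hn => ⟨π φ₀, ht φ₀ n hn⟩) m N
    (fun j => by rw [dg_eq (hm j), finrank_fin_fun]) hcard hrel
  obtain ⟨ρ, hρ, hρc⟩ := exists_rep p rfl
  obtain ⟨ρ', hρ', hρc'⟩ := exists_rep q rfl
  have heq : ∀ j, Nonempty (Representation.Equiv (ρ.prod (twist (t ^ a j) ρ')) (R j)) := by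
    intro j
    refine equiv_of_char _ _ (semi_prod hρ (semi_twist _ hρ')) (hR j) ?_
    rw [char_prod, hm j, hpq j, map_add, hρc]
    congr 1
    funext g
    rw [char_twist, Ph_tw, hρc']
  have hcard' : 0 < Fintype.card ι := by omega
  obtain ⟨j₀⟩ := Fintype.card_pos_iff.1 hcard'
  refine ⟨dg p, dg q, ρ, ρ', hρ, hρ', ?_, ?_, heq, fun φ => ?_⟩
  · obtain ⟨e⟩ := heq j₀
    exact cts_left (hRc j₀) e
  · obtain ⟨e⟩ := heq j₀
    exact cts_untwist htc (a j₀) (cts_right (hRc j₀) e)
  · have h1 : ∀ j, D φ + (D' φ).map (fun x => x * ((t (π φ) ^ a j : kˣ) : k)) =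
        eig (ρ (π φ)) + (eig (ρ' (π φ))).map (fun x => x * ((t (π φ) ^ a j : kˣ) : k)) := by
      intro j
      obtain ⟨e⟩ := heq j
      rw [← hD, eig_equiv e]
      change eig ((ρ (π φ)).prodMap (twist (t ^ a j) ρ' (π φ))) = _
      rw [eig_prod]
      congr 1
      exact eig_smul ((t ^ a j) (π φ)) (ρ' (π φ))
    obtain ⟨j₁, hj₁⟩ : ∃ j₁ : ι, j₁ ≠ j₀ := by
      have h3 : Nontrivial ι := Fintype.one_lt_card_iff_nontrivial.1 (by omega)
      exact exists_ne j₀
    obtain ⟨h2, h3⟩ := multiset_unique (ht φ) (fun h => hj₁ (ha h)) (eig_rep_ne ρ (π φ))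
      (eig_rep_ne ρ' (π φ)) (h1 j₁) (h1 j₀)
    exact ⟨h2.symm, h3.symm⟩

end Pool.Agent.Q15.GR
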