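import Mathlib

/-!
# The combinatorial core of the finite patching lemma

`A` is a finite vector space over `ZMod q` acting on a set `X`.  The functions `w a` on `X`, `a ≠ 0`,
are the sums of nonnegative functions `f a` along the lines in direction `a`; their sums along the
planes are compatible.  If `A` is large compared with the supports of the `f a`, then the `w a` are
the sums along lines of one nonnegative function `F`.
-/

set_option autoImplicit false

namespace Pool.Agent.Q15.GRP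

open Finset

variable {q : ℕ} [hq : Fact q.Prime] {A : Type} [AddCommGroup A] [Module (ZMod q) A] [Fintype A]
  [DecidableEq A] {X : Type} [AddAction A X]

/-- sum along a line -/
def N (h : X → ℤ) (a : A) (x : X) : ℤ := ∑ i : ZMod q, h ((i • a) +ᵥ x)

/-- scaling by a unit is a bijection of the space -/
theorem sum_scale (g : A → ℤ) {i : ZMod q} (hi : i ≠ 0) : ∑ a : A, g (i • a) = ∑ a : A, g a := by
  refine Fintype.sum_bijective (fun a : A => i • a) ?_ _ _ (fun a => rfl)
  constructor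
  · intro a b h
    have h1 : i⁻¹ • (i • a) = i⁻¹ • (i • b) := congrArg (fun c => i⁻¹ • c) h
    rwa [smul_smul, smul_smul, inv_mul_cancel₀ hi, one_smul, one_smul] at h1
  · intro b
    exact ⟨i⁻¹ • b, by simp only [smul_smul, mul_inv_cancel₀ hi, one_smul]⟩

/-- the sum over all lines through a point -/
theorem sum_lines (g : A → ℤ) :
    ∑ a ∈ univ.erase (0 : A), ∑ i : ZMod q, g (i • a) =
      ((Fintype.card A : ℤ) - q) * g 0 + (q - 1) * ∑ a : A, g a := by
  have hq1 : 1 ≤ q := hq.out.one_le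
  have h1 : ∀ a : A, ∑ i : ZMod q, g (i • a) = g 0 + ∑ i ∈ univ.erase (0 : ZMod q), g (i • a) := by
    intro a
    rw [← Finset.add_sum_erase _ _ (Finset.mem_univ (0 : ZMod q)), zero_smul]
  have h2 : ∑ a : A, ∑ i : ZMod q, g (i • a) = (Fintype.card A : ℤ) * g 0 +
      (q - 1) * ∑ a : A, g a := by
    simp_rw [h1]
    rw [Finset.sum_add_distrib, Finset.sum_const, Finset.card_univ, nsmul_eq_mul,
      Finset.sum_comm]
    congr 1
    have h3 : ∀ i ∈ univ.erase (0 : ZMod q), ∑ a : A, g (i • a) = ∑ a : A, g a := fun i hi =>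
      sum_scale g (Finset.ne_of_mem_erase hi)
    rw [Finset.sum_congr rfl h3, Finset.sum_const, Finset.card_erase_of_mem (Finset.mem_univ _),
      Finset.card_univ, ZMod.card, nsmul_eq_mul, Nat.cast_sub hq1, Nat.cast_one]
  have h3 : ∑ a : A, ∑ i : ZMod q, g (i • a) = (∑ i : ZMod q, g (i • (0 : A))) +
      ∑ a ∈ univ.erase (0 : A), ∑ i : ZMod q, g (i • a) :=
    (Finset.add_sum_erase _ _ (Finset.mem_univ (0 : A))).symm
  simp only [smul_zero, Finset.sum_const, Finset.card_univ, ZMod.card, nsmul_eq_mul] at h3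
  linarith

variable {w f : A → X → ℕ}

/-- the data of the lemma -/
structure Dat (q : ℕ) [Fact q.Prime] {A : Type} [AddCommGroup A] [Module (ZMod q) A] {X : Type}
    [AddAction A X] (w f : A → X → ℕ) : Prop where
  wf : ∀ a ≠ 0, ∀ x, w a x = ∑ i : ZMod q, f a ((i • a) +ᵥ x)
  rel : ∀ a ≠ 0, ∀ b ≠ 0, ∀ x, ∑ i : ZMod q, w a ((i • b) +ᵥ x) = ∑ i : ZMod q, w b ((i • a) +ᵥ x)

theorem Dat.inv (h : Dat q w f) {a : A} (ha : a ≠ 0) (j : ZMod q) (x : X) :
    w a ((j • a) +ᵥ x) = w a x := by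
  rw [h.wf a ha, h.wf a ha]
  refine Fintype.sum_equiv (Equiv.addRight j) _ _ (fun i => ?_)
  rw [Equiv.coe_addRight, add_smul, add_vadd]

/-- `q` times the total mass of the orbit of `x` -/
def QM (w : A → X → ℕ) (a : A) (x : X) : ℤ := ∑ c : A, (w a (c +ᵥ x) : ℤ)

theorem QM_vadd (a c : A) (x : X) : QM w a (c +ᵥ x) = QM w a x := by
  unfold QM
  refine Fintype.sum_equiv (Equiv.addRight c) _ _ (fun i => ?_)
  rw [Equiv.coe_addRight, add_vadd]

theorem Dat.QM_eq (h : Dat q w f) {a b : A} (ha : a ≠ 0) (hb : b ≠ 0) (x : X) :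
    QM w a x = QM w b x := by
  have key : ∀ a b : A, ∑ c : A, ∑ i : ZMod q, (w a ((i • b) +ᵥ (c +ᵥ x)) : ℤ) = q * QM w a x := by
    intro a b
    rw [Finset.sum_comm]
    have h1 : ∀ i : ZMod q, ∑ c : A, (w a ((i • b) +ᵥ (c +ᵥ x)) : ℤ) = QM w a x := by
      intro i
      unfold QM
      refine Fintype.sum_equiv (Equiv.addLeft (i • b)) _ _ (fun c => ?_)
      rw [Equiv.coe_addLeft, add_vadd]
    rw [Finset.sum_congr rfl fun i _ => h1 i, Finset.sum_const, Finset.card_univ, ZMod.card,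
      nsmul_eq_mul]
  have h1 : (q : ℤ) * QM w a x = q * QM w b x := by
    rw [← key a b, ← key b a]
    refine Finset.sum_congr rfl fun c _ => ?_
    have h2 := h.rel a ha b hb (c +ᵥ x)
    exact_mod_cast h2
  exact mul_left_cancel₀ (by exact_mod_cast hq.out.ne_zero) h1

/-- `q` times (the number of planes through a line times `q`) times the multiplicity -/
def Y (q : ℕ) (w : A → X → ℕ) (a₀ : A) (x : X) : ℤ :=
  q * ∑ b ∈ univ.erase (0 : A), (w b x : ℤ) - (q - 1) * QM w a₀ x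

theorem Dat.sumY (h : Dat q w f) {a₀ a : A} (ha₀ : a₀ ≠ 0) (ha : a ≠ 0) (x : X) :
    ∑ i : ZMod q, Y q w a₀ ((i • a) +ᵥ x) = q * ((Fintype.card A : ℤ) - q) * w a x := by
  unfold Y
  rw [Finset.sum_sub_distrib, ← Finset.mul_sum, ← Finset.mul_sum, Finset.sum_comm]
  have h1 : ∀ b ∈ univ.erase (0 : A), ∑ i : ZMod q, (w b ((i • a) +ᵥ x) : ℤ) =
      ∑ i : ZMod q, (w a ((i • b) +ᵥ x) : ℤ) := by
    intro b hb
    have h2 := h.rel b (Finset.ne_of_mem_erase hb) a ha x
    exact_mod_cast h2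
  rw [Finset.sum_congr rfl h1, sum_lines (q := q) (fun c => (w a (c +ᵥ x) : ℤ)), zero_vadd]
  simp_rw [QM_vadd]
  rw [Finset.sum_const, Finset.card_univ, ZMod.card, nsmul_eq_mul, h.QM_eq ha₀ ha x]
  unfold QM
  ring

/-- orbits with a nontrivial stabiliser -/
theorem Dat.stab (h : Dat q w f) {a₀ a : A} (ha₀ : a₀ ≠ 0) (ha : a ≠ 0) (x : X)
    (hs : a +ᵥ x = x) : Y q w a₀ x = q * ((Fintype.card A : ℤ) - q) * f a x := by
  have hfix : ∀ (i : ZMod q) (c : A), (i • a) +ᵥ (c +ᵥ x) = c +ᵥ x := by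
    intro i c
    have h1 : ∀ n : ℕ, ((n : ZMod q) • a) +ᵥ x = x := by
      intro n
      induction n with
      | zero => rw [Nat.cast_zero, zero_smul, zero_vadd]
      | succ n ih => rw [Nat.cast_succ, add_smul, one_smul, add_vadd, hs, ih]
    have h2 := h1 i.val
    rw [ZMod.natCast_zmod_val] at h2
    rw [← add_vadd, add_comm, add_vadd, h2]
  have h1 : ∀ c : A, (w a (c +ᵥ x) : ℤ) = q * f a (c +ᵥ x) := by
    intro c
    rw [h.wf a ha]
    push_cast
    rw [Finset.sum_congr rfl fun i _ => by rw [hfix i c], Finset.sum_const, Finset.card_univ,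
      ZMod.card, nsmul_eq_mul]
  have h2 : ∀ b ≠ 0, (w b x : ℤ) = ∑ i : ZMod q, (f a ((i • b) +ᵥ x) : ℤ) := by
    intro b hb
    have h3 := h.rel a ha b hb x
    have h4 : ((∑ i : ZMod q, w a ((i • b) +ᵥ x) : ℕ) : ℤ) =
        ((∑ i : ZMod q, w b ((i • a) +ᵥ x) : ℕ) : ℤ) := by rw [h3]
    push_cast at h4
    rw [Finset.sum_congr rfl fun i _ => h1 (i • b), ← Finset.mul_sum] at h4
    have h5 : ∀ i : ZMod q, (w b ((i • a) +ᵥ x) : ℤ) = w b x := by
      intro i
      have h6 := hfix i 0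
      rw [zero_vadd] at h6
      rw [h6]
    rw [Finset.sum_congr rfl fun i _ => h5 i, Finset.sum_const, Finset.card_univ, ZMod.card,
      nsmul_eq_mul] at h4
    exact (mul_left_cancel₀ (by exact_mod_cast hq.out.ne_zero) h4).symm
  unfold Y
  rw [Finset.sum_congr rfl fun b hb => h2 b (Finset.ne_of_mem_erase hb),
    sum_lines (q := q) (fun c => (f a (c +ᵥ x) : ℤ)), zero_vadd, h.QM_eq ha₀ ha x]
  unfold QM
  rw [Finset.sum_congr rfl fun c _ => h1 c, ← Finset.mul_sum]
  ring

end Pool.Agent.Q15.GRP
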