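import Pool.Agent.Q15.GRP1

/-!
# The combinatorial core of the finite patching lemma: free orbits and the conclusion
-/

set_option autoImplicit false

namespace Pool.Agent.Q15.GRP

open Finset

variable {q : ℕ} [hq : Fact q.Prime] {A : Type} [AddCommGroup A] [Module (ZMod q) A] [Fintype A]
  [DecidableEq A] {X : Type} [AddAction A X] {w f : A → X → ℕ}

theorem Dat.free (h : Dat q w f) {n : ℕ}
    (hn : ∀ a ≠ 0, ∀ s : Finset X, (∀ y ∈ s, f a y ≠ 0) → s.card ≤ n)
    (hcard : (q - 1) * (n * q) + q < Fintype.card A) {a₀ : A} (ha₀ : a₀ ≠ 0) (x : X)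
    (hfree : ∀ a : A, a ≠ 0 → a +ᵥ x ≠ x) :
    ∃ c : ℕ, Y q w a₀ x = q * ((Fintype.card A : ℤ) - q) * c := by
  classical
  obtain ⟨a₁, ha₁, hmin⟩ := Finset.exists_min_image (univ.erase (0 : A)) (fun a => w a x)
    ⟨a₀, Finset.mem_erase.2 ⟨ha₀, Finset.mem_univ _⟩⟩
  have ha₁' : a₁ ≠ 0 := Finset.ne_of_mem_erase ha₁
  set c := w a₁ x with hc
  refine ⟨c, ?_⟩
  have hinj : Function.Injective fun d : A => d +ᵥ x := by
    intro d e hde
    by_contra hne
    apply hfree (d - e) (sub_ne_zero.2 hne)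
    have h1 : d +ᵥ x = e +ᵥ x := hde
    rw [sub_eq_neg_add, add_vadd, h1, ← add_vadd, neg_add_cancel, zero_vadd]
  -- the points with nonzero mass
  let E : Finset A := univ.filter fun e => f a₁ (e +ᵥ x) ≠ 0
  have hE : E.card ≤ n := by
    have h1 := hn a₁ ha₁' (E.image fun d => d +ᵥ x) (by
      intro y hy
      obtain ⟨e, he, rfl⟩ := Finset.mem_image.1 hy
      exact (Finset.mem_filter.1 he).2)
    rwa [Finset.card_image_of_injective _ hinj] at h1
  let G₀ : Finset A := univ.filter fun d => w a₁ (d +ᵥ x) ≠ 0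
  have hG₀ : G₀.card ≤ n * q := by
    have h1 : G₀ ⊆ (E ×ˢ (univ : Finset (ZMod q))).image fun p => p.1 - p.2 • a₁ := by
      intro d hd
      have h2 : w a₁ (d +ᵥ x) ≠ 0 := (Finset.mem_filter.1 hd).2
      rw [h.wf a₁ ha₁'] at h2
      obtain ⟨i, -, hi⟩ := Finset.exists_ne_zero_of_sum_ne_zero h2
      refine Finset.mem_image.2 ⟨(i • a₁ + d, i), ?_, by simp⟩
      rw [Finset.mem_product]
      refine ⟨Finset.mem_filter.2 ⟨Finset.mem_univ _, ?_⟩, Finset.mem_univ _⟩
      change f a₁ ((i • a₁ + d) +ᵥ x) ≠ 0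
      rw [add_vadd]
      exact hi
    refine (Finset.card_le_card h1).trans (Finset.card_image_le.trans ?_)
    rw [Finset.card_product, Finset.card_univ, ZMod.card]
    exact Nat.mul_le_mul_right _ hE
  let Bad : Finset A := (univ.erase (0 : ZMod q)).biUnion fun i => G₀.image fun d => i⁻¹ • d
  have hBad : Bad.card ≤ (q - 1) * (n * q) := by
    refine Finset.card_biUnion_le.trans ?_
    refine (Finset.sum_le_card_nsmul _ _ (n * q) fun i _ => Finset.card_image_le.trans hG₀).trans ?_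
    rw [Finset.card_erase_of_mem (Finset.mem_univ _), Finset.card_univ, ZMod.card, smul_eq_mul]
  let Sp : Finset A := univ.image fun i : ZMod q => i • a₁
  have hSp : Sp.card ≤ q := by
    refine Finset.card_image_le.trans ?_
    rw [Finset.card_univ, ZMod.card]
  obtain ⟨b, hb⟩ : ∃ b : A, b ∉ Bad ∪ Sp := by
    by_contra hall
    push Not at hall
    have h1 : (univ : Finset A) ⊆ Bad ∪ Sp := fun b _ => hall b
    have h2 := (Finset.card_le_card h1).trans (Finset.card_union_le _ _)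
    rw [Finset.card_univ] at h2
    omega
  rw [Finset.mem_union, not_or] at hb
  have hb0 : ∀ i : ZMod q, i ≠ 0 → w a₁ ((i • b) +ᵥ x) = 0 := by
    intro i hi
    by_contra hne
    apply hb.1
    refine Finset.mem_biUnion.2 ⟨i, Finset.mem_erase.2 ⟨hi, Finset.mem_univ _⟩, ?_⟩
    refine Finset.mem_image.2 ⟨i • b, Finset.mem_filter.2 ⟨Finset.mem_univ _, hne⟩, ?_⟩
    change i⁻¹ • (i • b) = b
    rw [smul_smul, inv_mul_cancel₀ hi, one_smul]
  have hd0 : ∀ i : ZMod q, b + i • a₁ ≠ 0 := by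
    intro i h1
    apply hb.2
    refine Finset.mem_image.2 ⟨-i, Finset.mem_univ _, ?_⟩
    change (-i) • a₁ = b
    rw [neg_smul]
    exact (eq_neg_of_add_eq_zero_left h1).symm
  have hwd : ∀ i : ZMod q, w (b + i • a₁) x = c := by
    intro i
    have h1 := h.rel a₁ ha₁' _ (hd0 i) x
    rw [← Finset.add_sum_erase _ _ (Finset.mem_univ (0 : ZMod q)), zero_smul, zero_vadd] at h1
    have h2 : ∑ j ∈ univ.erase (0 : ZMod q), w a₁ ((j • (b + i • a₁)) +ᵥ x) = 0 := by
      refine Finset.sum_eq_zero fun j hj => ?_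
      have h3 : j • (b + i • a₁) = (j * i) • a₁ + j • b := by
        rw [smul_add, smul_smul, add_comm]
      rw [h3, add_vadd, h.inv ha₁']
      exact hb0 j (Finset.ne_of_mem_erase hj)
    rw [h2, add_zero] at h1
    have h4 : w (b + i • a₁) x ≤ ∑ j : ZMod q, w (b + i • a₁) ((j • a₁) +ᵥ x) := by
      have h5 := Finset.single_le_sum (f := fun j : ZMod q => w (b + i • a₁) ((j • a₁) +ᵥ x))
        (fun j _ => Nat.zero_le _) (Finset.mem_univ (0 : ZMod q))
      simp only [zero_smul, zero_vadd] at h5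
      exact h5
    have h6 : c ≤ w (b + i • a₁) x := hmin _ (Finset.mem_erase.2 ⟨hd0 i, Finset.mem_univ _⟩)
    omega
  have hS : ∑ i : ZMod q, ∑ j : ZMod q, Y q w a₀ ((j • (b + i • a₁)) +ᵥ x) =
      q * (q * ((Fintype.card A : ℤ) - q) * c) := by
    rw [Finset.sum_congr rfl fun i _ => by rw [h.sumY ha₀ (hd0 i) x, hwd i], Finset.sum_const,
      Finset.card_univ, ZMod.card, nsmul_eq_mul]
  rw [Finset.sum_comm, ← Finset.add_sum_erase _ _ (Finset.mem_univ (0 : ZMod q))] at hS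
  have h0 : ∑ i : ZMod q, Y q w a₀ (((0 : ZMod q) • (b + i • a₁)) +ᵥ x) = q * Y q w a₀ x := by
    simp_rw [zero_smul, zero_vadd]
    rw [Finset.sum_const, Finset.card_univ, ZMod.card, nsmul_eq_mul]
  have h1 : ∑ j ∈ univ.erase (0 : ZMod q), ∑ i : ZMod q, Y q w a₀ ((j • (b + i • a₁)) +ᵥ x) = 0 := by
    refine Finset.sum_eq_zero fun j hj => ?_
    have hj0 : j ≠ 0 := Finset.ne_of_mem_erase hj
    have h2 : ∑ i : ZMod q, Y q w a₀ ((j • (b + i • a₁)) +ᵥ x) =
        ∑ i : ZMod q, Y q w a₀ ((i • a₁) +ᵥ ((j • b) +ᵥ x)) := by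
      refine Fintype.sum_bijective (fun i : ZMod q => j * i) ?_ _ _ (fun i => ?_)
      · constructor
        · exact mul_right_injective₀ hj0
        · intro i
          exact ⟨j⁻¹ * i, by simp only; rw [← mul_assoc, mul_inv_cancel₀ hj0, one_mul]⟩
      · rw [← add_vadd, smul_add, smul_smul, add_comm]
    rw [h2, h.sumY ha₀ ha₁', hb0 j hj0]
    simp
  rw [h0, h1, add_zero] at hS
  exact mul_left_cancel₀ (by exact_mod_cast hq.out.ne_zero) hS

/-- **combinatorial core of the finite patching lemma** -/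
theorem Dat.main (h : Dat q w f) {n : ℕ}
    (hn : ∀ a ≠ 0, ∀ s : Finset X, (∀ y ∈ s, f a y ≠ 0) → s.card ≤ n)
    (hcard : (q - 1) * (n * q) + q < Fintype.card A) :
    ∃ F : X → ℕ, ∀ a ≠ 0, ∀ x, ∑ i : ZMod q, F ((i • a) +ᵥ x) = w a x := by
  classical
  have hnt : Nontrivial A := by
    rw [← Fintype.one_lt_card_iff_nontrivial]
    have := hq.out.one_lt
    omega
  obtain ⟨a₀, ha₀⟩ := exists_ne (0 : A)
  have hq0 : (q : ℤ) ≠ 0 := by exact_mod_cast hq.out.ne_zero
  have hA0 : ((Fintype.card A : ℤ) - q) ≠ 0 := by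
    have : (q : ℤ) < Fintype.card A := by exact_mod_cast (by omega : q < Fintype.card A)
    omega
  have key : ∀ x, ∃ c : ℕ, Y q w a₀ x = q * ((Fintype.card A : ℤ) - q) * c := by
    intro x
    by_cases hs : ∃ a : A, a ≠ 0 ∧ a +ᵥ x = x
    · obtain ⟨a, ha, hax⟩ := hs
      exact ⟨f a x, h.stab ha₀ ha x hax⟩
    · push Not at hs
      exact h.free hn hcard ha₀ x hs
  choose F hF using key
  refine ⟨F, fun a ha x => ?_⟩
  have h1 := h.sumY ha₀ ha x
  rw [Finset.sum_congr rfl fun i _ => hF _, ← Finset.mul_sum] at h1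
  have h2 := mul_left_cancel₀ (mul_ne_zero hq0 hA0) h1
  exact_mod_cast h2

end Pool.Agent.Q15.GRP
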