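import Pool.Agent.Q15.GRC4
import Pool.Agent.Q15.GRP2
import Pool.Agent.Q15.GRIso2
import Mathlib.GroupTheory.FiniteAbelian.Duality

/-!
# Finite patching for groups
-/

set_option autoImplicit false
set_option linter.unusedSectionVars false

namespace Pool.Agent.Q15.GR

open Representation Module
open scoped MonoidAlgebra

variable {k : Type} [Field k] {G : Type} [Group G]

/-- the kernel of a nontrivial character of prime order -/
theorem cyc_ker (φ : G →* kˣ) {q : ℕ} (hq : q.Prime) (hφ : ∀ g, φ g ^ q = 1) (g₀ : G)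
    (h : φ g₀ ≠ 1) : Cyc φ.ker g₀ q := by
  have hqf : Fact q.Prime := ⟨hq⟩
  have hord : orderOf (φ g₀) = q := orderOf_eq_prime (hφ g₀) h
  have hprim : IsPrimitiveRoot ((φ g₀ : kˣ) : k) q := by
    rw [← hord, ← orderOf_units]
    exact IsPrimitiveRoot.orderOf _
  refine ⟨hq.pos, inferInstance, fun g => ?_, ?_, fun i hi => ?_⟩
  · have h1 : ((φ g : kˣ) : k) ^ q = 1 := by
      rw [← Units.val_pow_eq_pow_val, hφ, Units.val_one]
    haveI : NeZero q := ⟨hq.ne_zero⟩
    obtain ⟨i, -, hi⟩ := hprim.eq_pow_of_pow_eq_one h1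
    refine ⟨i, ?_⟩
    rw [MonoidHom.mem_ker, map_mul, map_zpow]
    apply Units.ext
    rw [Units.val_mul, ← hi, zpow_neg, zpow_natCast, Units.val_one, ← Units.val_pow_eq_pow_val]
    exact Units.inv_mul _
  · rw [MonoidHom.mem_ker, map_pow, hφ]
  · rw [MonoidHom.mem_ker, map_zpow] at hi
    rw [← hord]
    exact orderOf_dvd_iff_zpow_eq_one.2 hi

theorem X_one_smul (x : X k G) : (1 : G →* kˣ) • x = x :=
  Subtype.ext (funext fun g => by rw [X_smul, MonoidHom.one_apply, Units.val_one, one_mul])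

theorem X_mul_smul (ψ φ : G →* kˣ) (x : X k G) : (ψ * φ) • x = ψ • (φ • x) :=
  Subtype.ext (funext fun g => by
    rw [X_smul, X_smul, X_smul, MonoidHom.mul_apply, Units.val_mul, mul_assoc])

theorem hom_inv_inv (ψ : G →* kˣ) : (ψ⁻¹)⁻¹ = ψ :=
  MonoidHom.ext fun g => by rw [MonoidHom.inv_apply, MonoidHom.inv_apply, inv_inv]

section

variable {E : Type} [CommGroup E] (θ : G →* E)

/-- the pullback of characters -/
def pb : (E →* kˣ) →* (G →* kˣ) where
  toFun ψ := ψ.comp θ
  map_one' := rfl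
  map_mul' _ _ := rfl

theorem pb_apply (ψ : E →* kˣ) (g : G) : pb (k := k) θ ψ g = ψ (θ g) := rfl

end

section

variable {E : Type} [CommGroup E] {θ : G →* E} {q : ℕ}

/-- finite patching -/
theorem patch_group [IsAlgClosed k] [CharZero k] [Finite E] [hq : Fact q.Prime]
    (hθ : Function.Surjective θ) (hE : ∀ e : E, e ^ q = 1) {n : ℕ}
    (hcard : (q - 1) * (n * q) + q < Nat.card E) (T : G → k) (hT1 : T 1 = n)
    (hT : ∀ ψ : E →* kˣ, ψ ≠ 1 → IsSs (fun h : (pb (k := k) θ ψ).ker => T h))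
    (hinv : ∀ ψ : E →* kˣ, ψ ≠ 1 → ∀ h, ψ (θ h) = 1 → ∀ g, T (g⁻¹ * h * g) = T h) :
    ∃ m : X k G →₀ ℕ, dg m = n ∧ ∀ ψ : E →* kˣ, ψ ≠ 1 → ∀ h, ψ (θ h) = 1 → Ph m h = T h := by
  classical
  -- the extensions
  have hψq : ∀ (ψ : E →* kˣ) (e : E), ψ e ^ q = 1 := by
    intro ψ e
    rw [← map_pow, hE, map_one]
  have hext : ∀ ψ : E →* kˣ, ∃ m : X k G →₀ ℕ, ψ ≠ 1 → ∀ h, ψ (θ h) = 1 → Ph m h = T h := by
    intro ψ
    by_cases hψ : ψ = 1
    · exact ⟨0, fun h => absurd hψ h⟩
    · obtain ⟨e, he⟩ : ∃ e, ψ e ≠ 1 := by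
        by_contra hall
        push Not at hall
        exact hψ (MonoidHom.ext hall)
      obtain ⟨g₀, rfl⟩ := hθ e
      have hc := cyc_ker (pb (k := k) θ ψ) hq.out (fun g => hψq ψ _) g₀ he
      obtain ⟨m, hm⟩ := ext_inv hc hq.out (hT ψ hψ) (fun h hh => hinv ψ hψ h h.2 g₀)
      exact ⟨m, fun _ h hh => hm ⟨h, hh⟩⟩
  choose M hM using hext
  -- the acting group
  have hq0' : ∀ x : Additive (E →* kˣ), q • x = 0 := by
    intro x
    change x.toMul ^ q = 1
    refine MonoidHom.ext fun e => ?_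
    rw [MonoidHom.pow_apply, hψq, MonoidHom.one_apply]
  letI := AddCommGroup.zmodModule (n := q) (G := Additive (E →* kˣ)) hq0'
  letI : AddAction (Additive (E →* kˣ)) (X k G) :=
    { vadd := fun a x => pb θ a.toMul • x
      zero_vadd := fun x => by
        exact X_one_smul x
      add_vadd := fun a b x => by
        exact X_mul_smul (pb (k := k) θ a.toMul) (pb (k := k) θ b.toMul) x }
  have hvadd : ∀ (a : Additive (E →* kˣ)) (x : X k G), a +ᵥ x = pb (k := k) θ a.toMul • x :=
    fun a x => rfl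
  have hexp : Monoid.exponent E ≠ 0 := by
    intro h
    have h1 := Monoid.exponent_dvd_of_forall_pow_eq_one hE
    rw [h] at h1
    exact hq.out.ne_zero (Nat.eq_zero_of_zero_dvd h1)
  haveI : NeZero (Monoid.exponent E) := ⟨hexp⟩
  haveI : NeZero ((Monoid.exponent E : ℕ) : k) := ⟨by exact_mod_cast hexp⟩
  have hcE : Nat.card (E →* kˣ) = Nat.card E := CommGroup.card_monoidHom_of_hasEnoughRootsOfUnity E k
  haveI : Finite (E →* kˣ) := by
    apply Nat.finite_of_card_ne_zero
    rw [hcE]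
    exact Nat.card_pos.ne'
  letI : Fintype (Additive (E →* kˣ)) := Fintype.ofFinite _
  -- line sums
  let L : Additive (E →* kˣ) → (X k G →₀ ℕ) → (X k G →₀ ℕ) := fun a m =>
    ∑ i : ZMod q, tw (pb (k := k) θ (i • a).toMul)⁻¹ m
  have hL : ∀ a m x, L a m x = ∑ i : ZMod q, m ((i • a) +ᵥ x) := by
    intro a m x
    change (∑ i : ZMod q, tw (pb (k := k) θ (i • a).toMul)⁻¹ m) x = _
    rw [Finsupp.finset_sum_apply]
    refine Finset.sum_congr rfl fun i _ => ?_
    rw [tw_apply, hvadd]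
    refine congrArg (fun ψ : G →* kˣ => m (ψ • x)) ?_
    exact hom_inv_inv _
  have hLP : ∀ (a : Additive (E →* kˣ)) (m : X k G →₀ ℕ) (g : G), Ph (L a m) g =
      if a.toMul (θ g) = 1 then (q : k) * Ph m g else 0 := by
    intro a m g
    let e : ZMod q → kˣ := fun i => (i • a).toMul (θ g)
    have hadd : ∀ i j, e (i + j) = e i * e j := by
      intro i j
      change ((i + j) • a).toMul (θ g) = _
      rw [add_smul]
      rfl
    have he1 : e 1 = a.toMul (θ g) := by
      change ((1 : ZMod q) • a).toMul (θ g) = _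
      rw [one_smul]
    have h1 : Ph (L a m) g = (∑ i : ZMod q, (((e i)⁻¹ : kˣ) : k)) * Ph m g := by
      change Ph (∑ i : ZMod q, tw (pb (k := k) θ (i • a).toMul)⁻¹ m) g = _
      rw [map_sum, Finset.sum_apply, Finset.sum_mul]
      refine Finset.sum_congr rfl fun i _ => ?_
      rw [Ph_tw]
      rfl
    rw [h1]
    split_ifs with h2
    · congr 1
      have h3 : ∀ i : ZMod q, e i = 1 := by
        intro i
        have h4 : ∀ j : ℕ, e (j : ZMod q) = 1 := by
          intro j
          induction j with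
          | zero =>
            change (((0 : ℕ) : ZMod q) • a).toMul (θ g) = 1
            rw [Nat.cast_zero, zero_smul]
            rfl
          | succ j ih => rw [Nat.cast_succ, hadd, ih, he1, h2, one_mul]
        have h5 := h4 i.val
        rwa [ZMod.natCast_zmod_val] at h5
      rw [Finset.sum_congr rfl fun i _ => by rw [h3 i, inv_one, Units.val_one], Finset.sum_const,
        Finset.card_univ, ZMod.card, nsmul_eq_mul, mul_one]
    · have h3 : (∑ i : ZMod q, (((e i)⁻¹ : kˣ) : k)) = 0 := by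
        have h4 : (((e 1)⁻¹ : kˣ) : k) * (∑ i : ZMod q, (((e i)⁻¹ : kˣ) : k)) =
            ∑ i : ZMod q, (((e i)⁻¹ : kˣ) : k) := by
          rw [Finset.mul_sum]
          refine Fintype.sum_equiv (Equiv.addRight (1 : ZMod q)) _ _ (fun i => ?_)
          rw [Equiv.coe_addRight, hadd, ← Units.val_mul, mul_inv_rev]
        by_contra h5
        have h6 : (((e 1)⁻¹ : kˣ) : k) = 1 := mul_right_cancel₀ h5 (by rw [h4, one_mul])
        apply h2
        rw [← he1, ← inv_inv (e 1), Units.ext (h6.trans Units.val_one.symm), inv_one]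
      rw [h3, zero_mul]
  -- the data
  have hq0 : (q : k) ≠ 0 := by exact_mod_cast hq.out.ne_zero
  let f : Additive (E →* kˣ) → X k G → ℕ := fun a x => M a.toMul x
  let w : Additive (E →* kˣ) → X k G → ℕ := fun a x => L a (M a.toMul) x
  have hne : ∀ a : Additive (E →* kˣ), a ≠ 0 → a.toMul ≠ 1 := by
    intro a ha h
    exact ha (Additive.toMul.injective h)
  have hdat : GRP.Dat q w f := by
    refine ⟨fun a _ x => hL a _ x, fun a ha b hb x => ?_⟩
    rw [← hL b (L a (M a.toMul)) x, ← hL a (L b (M b.toMul)) x]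
    refine DFunLike.congr_fun (Ph_inj ?_) x
    funext g
    rw [hLP, hLP, hLP, hLP]
    split_ifs with h1 h2 h2
    · rw [hM _ (hne a ha) g h2, hM _ (hne b hb) g h1]
    · rw [mul_zero]
    · rw [mul_zero]
    · rfl
  have hdgM : ∀ a : Additive (E →* kˣ), a ≠ 0 → dg (M a.toMul) = n := by
    intro a ha
    have h1 : Ph (M a.toMul) 1 = T 1 := hM _ (hne a ha) 1 (by rw [map_one, map_one])
    rw [Ph_one, hT1] at h1
    exact_mod_cast h1
  obtain ⟨F, hF⟩ := hdat.main (n := n) (by
    intro a ha s hs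
    rw [← hdgM a ha]
    refine le_trans ?_ (sum_le_dg (M a.toMul) s)
    rw [Finset.card_eq_sum_ones]
    exact Finset.sum_le_sum fun y hy => Nat.one_le_iff_ne_zero.2 (hs y hy)) (by
    rw [← Nat.card_eq_fintype_card]
    change _ < Nat.card (E →* kˣ)
    rw [hcE]
    exact hcard)
  -- a nontrivial character
  obtain ⟨a₀, ha₀⟩ : ∃ a : Additive (E →* kˣ), a ≠ 0 := by
    have h1 : Nontrivial (E →* kˣ) := by
      rw [← Finite.one_lt_card_iff_nontrivial, hcE]
      have := hq.out.one_lt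
      omega
    exact exists_ne (0 : Additive (E →* kˣ))
  have hFw : ∀ x, F x ≤ w a₀ x := by
    intro x
    rw [← hF a₀ ha₀ x]
    have h5 := Finset.single_le_sum (f := fun i : ZMod q => F ((i • a₀) +ᵥ x))
      (fun j _ => Nat.zero_le _) (Finset.mem_univ (0 : ZMod q))
    simp only [zero_smul, zero_vadd] at h5
    exact h5
  let Fm : X k G →₀ ℕ := Finsupp.onFinset (L a₀ (M a₀.toMul)).support F (by
    intro x hx
    rw [Finsupp.mem_support_iff]
    intro h
    have := hFw x
    change F x ≤ L a₀ (M a₀.toMul) x at this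
    omega)
  have hFm : ∀ x, Fm x = F x := fun x => rfl
  have hkey : ∀ a : Additive (E →* kˣ), a ≠ 0 → L a Fm = L a (M a.toMul) := by
    intro a ha
    ext x
    rw [hL]
    exact hF a ha x
  have hres : ∀ ψ : E →* kˣ, ψ ≠ 1 → ∀ h, ψ (θ h) = 1 → Ph Fm h = T h := by
    intro ψ hψ h hh
    have ha : Additive.ofMul ψ ≠ 0 := fun h0 => hψ (congrArg Additive.toMul h0)
    have h1 := congrFun (congrArg (fun m => (Ph m : G → k)) (hkey _ ha)) h
    change Ph (L (Additive.ofMul ψ) Fm) h = Ph (L (Additive.ofMul ψ) (M ψ)) h at h1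
    have hh' : (Additive.ofMul ψ).toMul (θ h) = 1 := hh
    rw [hLP, hLP, if_pos hh', if_pos hh'] at h1
    rw [mul_left_cancel₀ hq0 h1, hM ψ hψ h hh]
  refine ⟨Fm, ?_, hres⟩
  have h1 := hres a₀.toMul (hne a₀ ha₀) 1 (by rw [map_one, map_one])
  rw [Ph_one, hT1] at h1
  exact_mod_cast h1

end

end Pool.Agent.Q15.GR
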