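import Pool.Agent.Q15.GRP3
import Pool.Agent.Q15.GRIso4

/-!
# Finite patching for continuous representations of a topological group
-/

set_option autoImplicit false
set_option linter.unusedSectionVars false

namespace Pool.Agent.Q15.GR

open Representation Module

section

variable {G : Type} [Group G]

theorem Cyc.index {H : Subgroup G} {g₀ : G} {q : ℕ} (hc : Cyc H g₀ q) : H.index = q := by
  have hn := hc.normal
  let f : Fin q → G ⧸ H := fun i => QuotientGroup.mk (g₀ ^ (i : ℕ))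
  have hf : Function.Bijective f := by
    constructor
    · intro i j hij
      have h1 : (g₀ ^ (i : ℕ))⁻¹ * g₀ ^ (j : ℕ) ∈ H := QuotientGroup.eq.1 hij
      have h2 : (g₀ ^ (i : ℕ))⁻¹ * g₀ ^ (j : ℕ) = g₀ ^ ((j : ℤ) - i) := by
        rw [zpow_sub, zpow_natCast, zpow_natCast, ← zpow_natCast, ← zpow_natCast, ← zpow_neg,
          ← zpow_add, ← zpow_add, add_comm]
      rw [h2] at h1
      obtain ⟨c, hc'⟩ := hc.dvd _ h1
      have hi := i.2
      have hj := j.2
      apply Fin.ext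
      have h3 : ((j : ℤ) - i) = q * c := hc'
      have h4 : c = 0 := by
        by_contra h5
        have h6 : (q : ℤ) ≤ |(q : ℤ) * c| := by
          rw [abs_mul, Nat.abs_cast]
          have h7 : 1 ≤ |c| := Int.one_le_abs h5
          nlinarith
        rw [← h3] at h6
        have h8 : |((j : ℕ) : ℤ) - ((i : ℕ) : ℤ)| < q := by
          rw [abs_lt]
          constructor <;> omega
        omega
      rw [h4, mul_zero] at h3
      omega
    · intro x
      obtain ⟨g, rfl⟩ := QuotientGroup.mk_surjective x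
      obtain ⟨i, h, hx⟩ := hc.rep g
      refine ⟨i, ?_⟩
      change (QuotientGroup.mk (g₀ ^ (i : ℕ)) : G ⧸ H) = QuotientGroup.mk g
      rw [QuotientGroup.eq, hx, ← mul_assoc]
      have := hn.conj_mem (h : G) h.2 (g₀ ^ (i : ℕ))⁻¹
      rwa [inv_inv] at this
  have h1 := Nat.card_congr (Equiv.ofBijective f hf)
  rw [Nat.card_eq_fintype_card, Fintype.card_fin] at h1
  exact h1.symm

end

section

variable {Γ : Type} [Group Γ] [TopologicalSpace Γ] [IsTopologicalGroup Γ] {k : Type} [Field k]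
  [CharZero k] [IsAlgClosed k] [TopologicalSpace k] [IsTopologicalRing k] [T2Space k]

/-- a semisimple representation which is continuous on an open subgroup is continuous -/
theorem cts_of_open {n : ℕ} (ρ : Representation k Γ (Fin n → k)) (H : Subgroup Γ)
    (hH : IsOpen (H : Set Γ)) (h : Cts (res H ρ)) : Cts ρ := by
  intro v
  rw [continuous_iff_continuousAt]
  intro g₀
  have h1 : ContinuousAt (fun g : Γ => ρ g v) 1 := by
    have h2 : Continuous ((H : Set Γ).restrict (fun g : Γ => ρ g v)) := h v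
    have h3 := (continuousOn_iff_continuous_restrict.2 h2)
    exact h3.continuousAt (hH.mem_nhds H.one_mem)
  have h2 : (fun g : Γ => ρ g v) = fun g => ρ g₀ (ρ (g₀⁻¹ * g) v) := by
    funext g
    rw [← Module.End.mul_apply, ← map_mul, mul_inv_cancel_left]
  rw [h2]
  refine (lin_cont (ρ g₀)).continuousAt.comp ?_
  have h3 : ContinuousAt (fun g : Γ => g₀⁻¹ * g) g₀ := (continuous_const_mul g₀⁻¹).continuousAt
  have h4 : ContinuousAt (fun g : Γ => ρ g v) (g₀⁻¹ * g₀) := by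
    rw [inv_mul_cancel]
    exact h1
  exact ContinuousAt.comp (f := fun g : Γ => g₀⁻¹ * g) (g := fun g : Γ => ρ g v) h4 h3

theorem cts_equiv {n m : ℕ} {ρ : Representation k Γ (Fin n → k)}
    {σ : Representation k Γ (Fin m → k)} (e : Representation.Equiv ρ σ) (h : Cts σ) : Cts ρ := by
  intro v
  have h1 : ∀ g, ρ g v = e.toLinearEquiv.symm (σ g (e v)) := by
    intro g
    have h2 : σ g (e v) = e (ρ g v) :=
      (IntertwiningMap.isIntertwining _ _ e.toIntertwiningMap g v).symm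
    rw [h2]
    exact (e.toLinearEquiv.symm_apply_apply _).symm
  simp_rw [h1]
  exact (lin_cont e.toLinearEquiv.symm.toLinearMap).comp (h _)

/-- **finite patching for topological groups** -/
theorem patch_top {q n : ℕ} (hq : q.Prime) (N : Subgroup Γ) (hNn : N.Normal)
    (hNo : IsOpen (N : Set Γ)) (hNc : ∀ x y, x * y * x⁻¹ * y⁻¹ ∈ N) (hNe : ∀ x, x ^ q ∈ N)
    (hcard : (q - 1) * (n * q) + q < N.index)
    (ρ : ∀ Δ : Subgroup Γ, Representation k Δ (Fin n → k))
    (hss : ∀ Δ, N ≤ Δ → Δ.index = q → (ρ Δ).IsSemisimpleRepresentation)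
    (hcts : ∀ Δ, N ≤ Δ → Δ.index = q → Cts (ρ Δ))
    {Φ : Type} (π : Φ → Γ) (hπ : DenseRange π) (tD : Φ → k)
    (hconj : ∀ φ g, ∃ φ', π φ' = g * π φ * g⁻¹ ∧ tD φ' = tD φ)
    (hD : ∀ Δ, N ≤ Δ → Δ.index = q → ∀ φ (hx : π φ ∈ Δ), (ρ Δ).character ⟨π φ, hx⟩ = tD φ) :
    ∃ R : Representation k Γ (Fin n → k), R.IsSemisimpleRepresentation ∧ Cts R ∧
      ∀ Δ, N ≤ Δ → Δ.index = q → Nonempty (Representation.Equiv (res Δ R) (ρ Δ)) := by
  classical
  haveI : Fact q.Prime := ⟨hq⟩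
  have hnormal : ∀ Δ : Subgroup Γ, N ≤ Δ → Δ.Normal := by
    intro Δ hΔ
    refine ⟨fun x hx g => ?_⟩
    have h1 := Δ.mul_mem (hΔ (hNc g x)) hx
    have h2 : g * x * g⁻¹ * x⁻¹ * x = g * x * g⁻¹ := by group
    rwa [h2] at h1
  have hopen : ∀ Δ : Subgroup Γ, N ≤ Δ → IsOpen (Δ : Set Γ) := fun Δ hΔ =>
    Subgroup.isOpen_mono hΔ hNo
  -- consistency
  have hcons : ∀ Δ Δ' : Subgroup Γ, N ≤ Δ → Δ.index = q → N ≤ Δ' → Δ'.index = q →
      ∀ (g x : Γ) (hx : x ∈ Δ) (hx' : g * x * g⁻¹ ∈ Δ'),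
      (ρ Δ).character ⟨x, hx⟩ = (ρ Δ').character ⟨g * x * g⁻¹, hx'⟩ := by
    intro Δ Δ' h1 h2 h1' h2' g x hx hx'
    let O : Set Γ := {x | x ∈ Δ ∧ g * x * g⁻¹ ∈ Δ'}
    have hO : IsOpen O := by
      refine (hopen Δ h1).inter ?_
      exact (hopen Δ' h1').preimage
        ((continuous_mul_const g⁻¹).comp (continuous_const_mul g))
    have hdense : Dense ((Subtype.val : O → Γ) ⁻¹' (Set.range π)) :=
      Dense.preimage hπ hO.isOpenMap_subtype_val
    have ha : Continuous (fun y : O => (ρ Δ).character ⟨y.1, y.2.1⟩) :=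
      (char_cont (hcts Δ h1 h2)).comp (continuous_subtype_val.subtype_mk _)
    have hb : Continuous (fun y : O => (ρ Δ').character ⟨g * y.1 * g⁻¹, y.2.2⟩) := by
      refine (char_cont (hcts Δ' h1' h2')).comp (Continuous.subtype_mk ?_ _)
      exact ((continuous_mul_const g⁻¹).comp (continuous_const_mul g)).comp continuous_subtype_val
    have h3 := Continuous.ext_on hdense ha hb (by
      rintro ⟨y, hy, hy'⟩ ⟨φ, hφ⟩
      change (ρ Δ).character ⟨y, hy⟩ = (ρ Δ').character ⟨g * y * g⁻¹, hy'⟩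
      have hφ' : π φ = y := hφ
      subst hφ'
      obtain ⟨φ', h4, h5⟩ := hconj φ g
      have h6 : π φ' ∈ Δ' := by
        rw [h4]
        exact hy'
      have h7 : (⟨g * π φ * g⁻¹, hy'⟩ : Δ') = ⟨π φ', h6⟩ := Subtype.ext h4.symm
      rw [h7, hD Δ h1 h2 φ hy, hD Δ' h1' h2' φ' h6, h5])
    exact congrFun h3 ⟨x, hx, hx'⟩
  -- the function
  let T : Γ → k := fun x => if h : ∃ Δ : Subgroup Γ, (N ≤ Δ ∧ Δ.index = q) ∧ x ∈ Δ then
    (ρ h.choose).character ⟨x, h.choose_spec.2⟩ else 0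
  have hT : ∀ (Δ : Subgroup Γ), N ≤ Δ → Δ.index = q → ∀ x (hx : x ∈ Δ),
      T x = (ρ Δ).character ⟨x, hx⟩ := by
    intro Δ h1 h2 x hx
    have h : ∃ Δ : Subgroup Γ, (N ≤ Δ ∧ Δ.index = q) ∧ x ∈ Δ := ⟨Δ, ⟨h1, h2⟩, hx⟩
    have h3 : T x = (ρ h.choose).character ⟨x, h.choose_spec.2⟩ := dif_pos h
    rw [h3]
    have h4 : 1 * x * 1⁻¹ ∈ Δ := by
      have : (1 : Γ) * x * 1⁻¹ = x := by group
      rw [this]
      exact hx
    rw [hcons _ Δ h.choose_spec.1.1 h.choose_spec.1.2 h1 h2 1 x h.choose_spec.2 h4]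
    congr 1
    apply Subtype.ext
    change (1 : Γ) * x * 1⁻¹ = x
    group
  -- the quotient
  letI hE : CommGroup (Γ ⧸ N) :=
    { (inferInstance : Group (Γ ⧸ N)) with
      mul_comm := by
        intro a b
        obtain ⟨x, rfl⟩ := QuotientGroup.mk_surjective a
        obtain ⟨y, rfl⟩ := QuotientGroup.mk_surjective b
        change (QuotientGroup.mk (x * y) : Γ ⧸ N) = QuotientGroup.mk (y * x)
        rw [eq_comm, QuotientGroup.eq]
        have h1 := hNc x⁻¹ y⁻¹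
        have h2 : (y * x)⁻¹ * (x * y) = x⁻¹ * y⁻¹ * x⁻¹⁻¹ * y⁻¹⁻¹ := by group
        rw [h2]
        exact h1 }
  have hfin : N.index ≠ 0 := by omega
  haveI : N.FiniteIndex := ⟨hfin⟩
  haveI : Finite (Γ ⧸ N) := inferInstance
  let θ : Γ →* (Γ ⧸ N) := QuotientGroup.mk' N
  have hθ : Function.Surjective θ := QuotientGroup.mk'_surjective N
  have hexp : ∀ e : Γ ⧸ N, e ^ q = 1 := by
    intro e
    obtain ⟨x, rfl⟩ := hθ e
    rw [← map_pow]
    exact (QuotientGroup.eq_one_iff _).2 (hNe x)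
  have hker : ∀ ψ : (Γ ⧸ N) →* kˣ, ψ ≠ 1 → N ≤ (pb (k := k) θ ψ).ker ∧
      (pb (k := k) θ ψ).ker.index = q := by
    intro ψ hψ
    constructor
    · intro x hx
      change ψ (θ x) = 1
      have h1 : θ x = 1 := (QuotientGroup.eq_one_iff _).2 hx
      rw [h1, map_one]
    · obtain ⟨e, he⟩ : ∃ e, ψ e ≠ 1 := by
        by_contra hall
        push Not at hall
        exact hψ (MonoidHom.ext hall)
      obtain ⟨g₀, rfl⟩ := hθ e
      exact (cyc_ker (pb (k := k) θ ψ) hq (fun g => by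
        rw [pb_apply, ← map_pow, hexp, map_one]) g₀ he).index
  have hT1 : T 1 = n := by
    obtain ⟨ψ, hψ⟩ : ∃ ψ : (Γ ⧸ N) →* kˣ, ψ ≠ 1 := by
      have h1 : Nontrivial (Γ ⧸ N) := by
        rw [← Finite.one_lt_card_iff_nontrivial]
        have := hq.one_lt
        change 1 < N.index
        omega
      obtain ⟨e, he⟩ := exists_ne (1 : Γ ⧸ N)
      have hexp0 : Monoid.exponent (Γ ⧸ N) ≠ 0 := by
        intro h
        have h1 := Monoid.exponent_dvd_of_forall_pow_eq_one hexp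
        rw [h] at h1
        exact hq.ne_zero (Nat.eq_zero_of_zero_dvd h1)
      haveI : NeZero (Monoid.exponent (Γ ⧸ N)) := ⟨hexp0⟩
      haveI : NeZero ((Monoid.exponent (Γ ⧸ N) : ℕ) : k) := ⟨by exact_mod_cast hexp0⟩
      obtain ⟨ψ, hψ⟩ := CommGroup.exists_apply_ne_one_of_hasEnoughRootsOfUnity (Γ ⧸ N) k he
      refine ⟨ψ, fun h => hψ ?_⟩
      rw [h, MonoidHom.one_apply]
    obtain ⟨h1, h2⟩ := hker ψ hψ
    rw [hT _ h1 h2 1 (Subgroup.one_mem _)]
    have h3 := char_one (ρ (pb (k := k) θ ψ).ker)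
    rw [finrank_fin_fun] at h3
    exact h3
  obtain ⟨m, hm, hm'⟩ := patch_group (k := k) hθ hexp (n := n) hcard T hT1 (fun ψ hψ => by
      obtain ⟨h1, h2⟩ := hker ψ hψ
      have h3 : (fun h : (pb (k := k) θ ψ).ker => T h) = (ρ (pb (k := k) θ ψ).ker).character := by
        funext h
        exact hT _ h1 h2 h h.2
      rw [h3]
      exact isSs_char _ (hss _ h1 h2)) (fun ψ hψ h hh g => by
      obtain ⟨h1, h2⟩ := hker ψ hψ
      have hm1 : h ∈ (pb (k := k) θ ψ).ker := hh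
      have hm2 : g⁻¹ * h * g⁻¹⁻¹ ∈ (pb (k := k) θ ψ).ker := (hnormal _ h1).conj_mem h hm1 g⁻¹
      have hm3 : g⁻¹ * h * g ∈ (pb (k := k) θ ψ).ker := by
        rwa [inv_inv] at hm2
      rw [hT _ h1 h2 _ hm3, hT _ h1 h2 h hm1, hcons _ _ h1 h2 h1 h2 g⁻¹ h hm1 hm2]
      congr 1
      apply Subtype.ext
      change g⁻¹ * h * g = g⁻¹ * h * g⁻¹⁻¹
      rw [inv_inv])
  obtain ⟨R, hR, hR'⟩ := exists_rep m hm
  have hequiv : ∀ Δ, N ≤ Δ → Δ.index = q → Nonempty (Representation.Equiv (res Δ R) (ρ Δ)) := by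
    intro Δ h1 h2
    haveI := hnormal Δ h1
    refine equiv_of_char _ _ (semi_res Δ hR) (hss Δ h1 h2) ?_
    -- a character with kernel containing `Δ`
    obtain ⟨ψ, hψ, hψ'⟩ : ∃ ψ : (Γ ⧸ N) →* kˣ, ψ ≠ 1 ∧ ∀ x ∈ Δ, ψ (θ x) = 1 := by
      have hexp0 : Monoid.exponent (Γ ⧸ N) ≠ 0 := by
        intro h
        have h1 := Monoid.exponent_dvd_of_forall_pow_eq_one hexp
        rw [h] at h1
        exact hq.ne_zero (Nat.eq_zero_of_zero_dvd h1)
      haveI : NeZero (Monoid.exponent (Γ ⧸ N)) := ⟨hexp0⟩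
      haveI : NeZero ((Monoid.exponent (Γ ⧸ N) : ℕ) : k) := ⟨by exact_mod_cast hexp0⟩
      by_contra hall
      push Not at hall
      have h3 : ∀ x : Γ, x ∈ Δ := by
        intro x
        have h4 : θ x ∈ Δ.map θ := by
          rw [← CommGroup.forall_monoidHom_apply_eq_one_iff k (Δ.map θ) (θ x)]
          intro φ hφ
          by_contra h5
          obtain ⟨y, hy, hy'⟩ := hall φ (by
            rintro rfl
            exact h5 (MonoidHom.one_apply _))
          exact hy' (hφ (θ y) ⟨y, hy, rfl⟩)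
        obtain ⟨y, hy, hxy⟩ := h4
        have h5 : y⁻¹ * x ∈ N := QuotientGroup.eq.1 hxy
        have h6 := Δ.mul_mem hy (h1 h5)
        rwa [mul_inv_cancel_left] at h6
      have h4 : Δ = ⊤ := by
        ext x
        exact ⟨fun _ => Subgroup.mem_top x, fun _ => h3 x⟩
      rw [h4, Subgroup.index_top] at h2
      exact hq.one_lt.ne h2
    funext x
    rw [res_char, hR', hm' ψ hψ x (hψ' x x.2), hT Δ h1 h2 x x.2]
  refine ⟨R, hR, ?_, hequiv⟩
  obtain ⟨ψ, hψ⟩ : ∃ Δ : Subgroup Γ, N ≤ Δ ∧ Δ.index = q := by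
    by_contra hall
    push Not at hall
    have h1 : ∀ ψ : (Γ ⧸ N) →* kˣ, ψ = 1 := by
      intro ψ
      by_contra hψ
      exact hall _ (hker ψ hψ).1 (hker ψ hψ).2
    have h2 : T 1 = 0 := dif_neg (by
      rintro ⟨Δ, ⟨h3, h4⟩, -⟩
      exact hall Δ h3 h4)
    have hexp0 : Monoid.exponent (Γ ⧸ N) ≠ 0 := by
      intro h
      have h1 := Monoid.exponent_dvd_of_forall_pow_eq_one hexp
      rw [h] at h1
      exact hq.ne_zero (Nat.eq_zero_of_zero_dvd h1)
    haveI : NeZero (Monoid.exponent (Γ ⧸ N)) := ⟨hexp0⟩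
    haveI : NeZero ((Monoid.exponent (Γ ⧸ N) : ℕ) : k) := ⟨by exact_mod_cast hexp0⟩
    have h1' : Nontrivial (Γ ⧸ N) := by
      rw [← Finite.one_lt_card_iff_nontrivial]
      have := hq.one_lt
      change 1 < N.index
      omega
    obtain ⟨e, he⟩ := exists_ne (1 : Γ ⧸ N)
    obtain ⟨ψ, hψ⟩ := CommGroup.exists_apply_ne_one_of_hasEnoughRootsOfUnity (Γ ⧸ N) k he
    apply hψ
    rw [h1 ψ, MonoidHom.one_apply]
  obtain ⟨e⟩ := hequiv ψ hψ.1 hψ.2
  exact cts_of_open R ψ (hopen ψ hψ.1) (cts_equiv e (hcts ψ hψ.1 hψ.2))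

end

end Pool.Agent.Q15.GR
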