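import Mathlib

/-!
# Consistent marginals on the discrete cube

Functions `w j ≥ 0` on the cube `Q = {0,1}^m`, invariant under the flip of the `j`-th coordinate and
with consistent sums.  If the total mass `t` satisfies `t + 2 ≤ m`, then the `w j` are the marginals
of one function `F ≥ 0`.
-/

set_option autoImplicit false

namespace Pool.Agent.Q15.GRQ

open Finset

/-- flip a coordinate -/
def flip {m : ℕ} (j : Fin m) (x : Fin m → Bool) : Fin m → Bool := Function.update x j (!x j)

theorem flip_same {m : ℕ} (j : Fin m) (x : Fin m → Bool) : flip j x j = !x j := by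
  unfold flip
  rw [Function.update_self]

theorem flip_ne {m : ℕ} {j i : Fin m} (h : i ≠ j) (x : Fin m → Bool) : flip j x i = x i := by
  unfold flip
  rw [Function.update_of_ne h]

theorem flip_flip {m : ℕ} (j : Fin m) (x : Fin m → Bool) : flip j (flip j x) = x := by
  funext i
  by_cases h : i = j
  · rw [h, flip_same, flip_same, Bool.not_not]
  · rw [flip_ne h, flip_ne h]

theorem flip_comm {m : ℕ} (i j : Fin m) (x : Fin m → Bool) : flip i (flip j x) = flip j (flip i x) := by
  by_cases hij : i = j
  · rw [hij]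
  funext l
  by_cases h : l = i
  · rw [h, flip_same, flip_ne hij, flip_ne hij, flip_same]
  · by_cases h' : l = j
    · rw [h', flip_ne (fun e => hij e.symm), flip_same, flip_same, flip_ne (fun e => hij e.symm)]
    · rw [flip_ne h, flip_ne h', flip_ne h', flip_ne h]

theorem flip_inj {m : ℕ} (j : Fin m) : Function.Injective (flip j) := fun x y h => by
  rw [← flip_flip j x, h, flip_flip]

theorem flip_dir_inj {m : ℕ} (x : Fin m → Bool) : Function.Injective (fun j => flip j x) := by
  intro i j h
  by_contra hij
  have h1 : flip i x i = flip j x i := congrFun h i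
  rw [flip_same, flip_ne hij] at h1
  cases hx : x i <;> rw [hx] at h1 <;> exact absurd h1 (by decide)

/-- the sign of a bit -/
def sg (b : Bool) : ℤ := if b then -1 else 1

theorem sg_not (b : Bool) : sg (!b) = - sg b := by cases b <;> rfl

theorem sg_sq (b : Bool) : sg b * sg b = 1 := by cases b <;> rfl

/-- the parity of a point of the cube -/
def chi {m : ℕ} (x : Fin m → Bool) : ℤ := ∏ i, sg (x i)

theorem chi_flip {m : ℕ} (j : Fin m) (x : Fin m → Bool) : chi (flip j x) = - chi x := by
  unfold chi
  rw [← Finset.mul_prod_erase _ _ (Finset.mem_univ j),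
    ← Finset.mul_prod_erase univ (fun i => sg (x i)) (Finset.mem_univ j), flip_same, sg_not,
    Finset.prod_congr rfl fun i hi => by rw [flip_ne (Finset.ne_of_mem_erase hi)]]
  ring

theorem chi_cases {m : ℕ} (x : Fin m → Bool) : chi x = 1 ∨ chi x = -1 := by
  unfold chi
  induction (univ : Finset (Fin m)) using Finset.induction_on with
  | empty => exact Or.inl rfl
  | insert a s ha ih =>
    rw [Finset.prod_insert ha]
    cases x a <;> rcases ih with h | h <;> rw [h] <;> simp [sg]

theorem chi_sq {m : ℕ} (x : Fin m → Bool) : chi x * chi x = 1 := by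
  rcases chi_cases x with h | h <;> rw [h] <;> rfl

theorem chi_cons {m : ℕ} (b : Bool) (y : Fin m → Bool) :
    chi (Fin.cons b y : Fin (m + 1) → Bool) = sg b * chi y := by
  unfold chi
  rw [Fin.prod_univ_succ]
  simp

theorem flip_zero_cons {m : ℕ} (b : Bool) (y : Fin m → Bool) :
    flip 0 (Fin.cons b y : Fin (m + 1) → Bool) = Fin.cons (!b) y := by
  funext i
  refine Fin.cases ?_ (fun i => ?_) i
  · rw [flip_same]
    simp
  · rw [flip_ne (Fin.succ_ne_zero i)]
    simp

theorem flip_succ_cons {m : ℕ} (j : Fin m) (b : Bool) (y : Fin m → Bool) :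
    flip j.succ (Fin.cons b y : Fin (m + 1) → Bool) = Fin.cons b (flip j y) := by
  funext i
  refine Fin.cases ?_ (fun i => ?_) i
  · rw [flip_ne (Fin.succ_ne_zero j).symm]
    simp
  · by_cases h : i = j
    · rw [h, flip_same]
      simp [flip_same]
    · rw [flip_ne (fun e => h (Fin.succ_injective _ e))]
      simp [flip_ne h]

/-- sums over the cube -/
theorem sum_cube {m : ℕ} (g : (Fin (m + 1) → Bool) → ℤ) :
    ∑ x, g x = ∑ b : Bool, ∑ y : Fin m → Bool, g (Fin.cons b y) := by
  rw [← Fintype.sum_prod_type']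
  exact (Fintype.sum_equiv (Fin.consEquiv (fun _ => Bool)) _ _ (fun p => rfl)).symm

theorem sum_chi {m : ℕ} : ∑ x : Fin (m + 1) → Bool, chi x = 0 := by
  have h1 : ∑ x : Fin (m + 1) → Bool, chi x = - ∑ x : Fin (m + 1) → Bool, chi x := by
    rw [← Finset.sum_neg_distrib]
    refine Fintype.sum_bijective (flip 0) ⟨flip_inj 0, fun y => ⟨flip 0 y, flip_flip 0 y⟩⟩ _ _ ?_
    intro x
    rw [chi_flip, neg_neg]
  omega

/-- a solution with values in the integers -/
theorem exists_int : ∀ (m : ℕ) (w : Fin m → (Fin m → Bool) → ℤ),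
    (∀ j x, w j (flip j x) = w j x) →
    (∀ i j x, w i x + w i (flip j x) = w j x + w j (flip i x)) →
    ∃ F : (Fin m → Bool) → ℤ, ∀ j x, F x + F (flip j x) = w j x := by
  intro m
  induction m with
  | zero => exact fun w _ _ => ⟨fun _ => 0, fun j => j.elim0⟩
  | succ m ih =>
    intro w h1 h2
    obtain ⟨F, hF⟩ := ih (fun j y => w j.succ (Fin.cons false y)) (fun j y => by
        rw [← h1 j.succ (Fin.cons false y), flip_succ_cons]) (fun i j y => by
        have := h2 i.succ j.succ (Fin.cons false y)
        rwa [flip_succ_cons, flip_succ_cons] at this)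
    refine ⟨fun x => if x 0 then w 0 x - F (Fin.tail x) else F (Fin.tail x), ?_⟩
    have hf : ∀ y : Fin m → Bool, (fun x : Fin (m + 1) → Bool => if x 0 then w 0 x - F (Fin.tail x)
        else F (Fin.tail x)) (Fin.cons false y) = F y := by
      intro y
      simp
    have ht : ∀ y : Fin m → Bool, (fun x : Fin (m + 1) → Bool => if x 0 then w 0 x - F (Fin.tail x)
        else F (Fin.tail x)) (Fin.cons true y) = w 0 (Fin.cons true y) - F y := by
      intro y
      simp
    have hw0 : ∀ y : Fin m → Bool, w 0 (Fin.cons true y) = w 0 (Fin.cons false y) := by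
      intro y
      have := h1 0 (Fin.cons true y)
      rw [flip_zero_cons] at this
      exact this.symm
    intro j x
    obtain ⟨b, y, rfl⟩ : ∃ b y, x = Fin.cons b y := ⟨x 0, Fin.tail x, (Fin.cons_self_tail x).symm⟩
    refine Fin.cases ?_ (fun j => ?_) j
    · rw [flip_zero_cons]
      cases b
      · change (fun x : Fin (m + 1) → Bool => if x 0 then w 0 x - F (Fin.tail x)
          else F (Fin.tail x)) (Fin.cons false y) + (fun x : Fin (m + 1) → Bool => if x 0 then
          w 0 x - F (Fin.tail x) else F (Fin.tail x)) (Fin.cons true y) = _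
        rw [hf, ht, hw0]
        ring
      · change (fun x : Fin (m + 1) → Bool => if x 0 then w 0 x - F (Fin.tail x)
          else F (Fin.tail x)) (Fin.cons true y) + (fun x : Fin (m + 1) → Bool => if x 0 then
          w 0 x - F (Fin.tail x) else F (Fin.tail x)) (Fin.cons false y) = _
        rw [hf, ht]
        ring
    · rw [flip_succ_cons]
      cases b
      · change (fun x : Fin (m + 1) → Bool => if x 0 then w 0 x - F (Fin.tail x)
          else F (Fin.tail x)) (Fin.cons false y) + (fun x : Fin (m + 1) → Bool => if x 0 then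
          w 0 x - F (Fin.tail x) else F (Fin.tail x)) (Fin.cons false (flip j y)) = _
        rw [hf, hf]
        exact hF j y
      · change (fun x : Fin (m + 1) → Bool => if x 0 then w 0 x - F (Fin.tail x)
          else F (Fin.tail x)) (Fin.cons true y) + (fun x : Fin (m + 1) → Bool => if x 0 then
          w 0 x - F (Fin.tail x) else F (Fin.tail x)) (Fin.cons true (flip j y)) = _
        rw [ht, ht, hw0, hw0]
        have h3 := h2 0 j.succ (Fin.cons false y)
        rw [flip_succ_cons, flip_zero_cons] at h3
        have h4 := hF j y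
        change F y + F (flip j y) = w j.succ (Fin.cons false y) at h4
        have h5 : w j.succ (Fin.cons (!false) y) = w j.succ (Fin.cons true y) := rfl
        rw [h5] at h3
        linarith

/-- the isoperimetric property: a set `S` which contains all neighbours of its points of parity
`-ε` -/
def Closed {m : ℕ} (ε : ℤ) (S : (Fin m → Bool) → Prop) : Prop :=
  ∀ x, S x → chi x = -ε → ∀ j, S (flip j x)

/-- `ε` times the sum of the parities over `S` -/
noncomputable def dl {m : ℕ} (ε : ℤ) (S : (Fin m → Bool) → Prop) : ℤ := by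
  classical
  exact ε * ∑ x, if S x then chi x else 0

theorem Closed.compl {m : ℕ} {ε : ℤ} {S : (Fin m → Bool) → Prop} (h : Closed ε S) :
    Closed (-ε) (fun x => ¬ S x) := by
  intro x hx hχ j hj
  rw [neg_neg] at hχ
  apply hx
  have h1 := h (flip j x) hj (by rw [chi_flip, hχ]) j
  rwa [flip_flip] at h1

theorem dl_compl {m : ℕ} (ε : ℤ) (S : (Fin (m + 1) → Bool) → Prop) :
    dl (-ε) (fun x => ¬ S x) = dl ε S := by
  classical
  unfold dl
  have h2 : ∀ x : Fin (m + 1) → Bool, (@ite ℤ (¬ S x) (Classical.propDecidable _) (chi x) 0) +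
      (@ite ℤ (S x) (Classical.propDecidable _) (chi x) 0) = chi x := by
    intro x
    by_cases h : S x
    · rw [if_neg (not_not.2 h), if_pos h, zero_add]
    · rw [if_pos h, if_neg h, add_zero]
  have h1 : (∑ x : Fin (m + 1) → Bool, @ite ℤ (¬ S x) (Classical.propDecidable _) (chi x) 0) +
      (∑ x : Fin (m + 1) → Bool, @ite ℤ (S x) (Classical.propDecidable _) (chi x) 0) = 0 := by
    rw [← Finset.sum_add_distrib, Finset.sum_congr rfl fun x _ => h2 x, sum_chi]
  change -ε * (∑ x : Fin (m + 1) → Bool, @ite ℤ (¬ S x) (Classical.propDecidable _) (chi x) 0) =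
    ε * (∑ x : Fin (m + 1) → Bool, @ite ℤ (S x) (Classical.propDecidable _) (chi x) 0)
  rw [eq_neg_of_add_eq_zero_left h1]
  ring

theorem dl_succ {m : ℕ} (ε : ℤ) (S : (Fin (m + 1) → Bool) → Prop) :
    dl ε S = ∑ b : Bool, dl (ε * sg b) (fun y : Fin m → Bool => S (Fin.cons b y)) := by
  classical
  unfold dl
  rw [sum_cube, Finset.mul_sum]
  refine Finset.sum_congr rfl fun b _ => ?_
  rw [mul_assoc]
  congr 1
  rw [Finset.mul_sum]
  refine Finset.sum_congr rfl fun y _ => ?_
  rw [chi_cons]
  split_ifs
  · rfl
  · rw [mul_zero]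

theorem Closed.half {m : ℕ} {ε : ℤ} {S : (Fin (m + 1) → Bool) → Prop} (h : Closed ε S) (b : Bool) :
    Closed (ε * sg b) (fun y : Fin m → Bool => S (Fin.cons b y)) := by
  intro y hy hχ j
  have h1 := h (Fin.cons b y) hy (by
    rw [chi_cons, hχ]
    have := sg_sq b
    calc sg b * -(ε * sg b) = -(ε * (sg b * sg b)) := by ring
      _ = -ε := by rw [this, mul_one]) j.succ
  rwa [flip_succ_cons] at h1

theorem eps_cases {ε : ℤ} (hε : ε = 1 ∨ ε = -1) (b : Bool) : ε * sg b = 1 ∨ ε * sg b = -1 := by
  cases b <;> rcases hε with rfl | rfl <;> simp [sg]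

/-- the main case: one half contains no point of parity `-ε` -/
theorem dl_half {m : ℕ} {ε : ℤ} (hε : ε = 1 ∨ ε = -1) {S : (Fin (m + 1) → Bool) → Prop}
    (h : Closed ε S) (hS : ∃ x, S x ∧ chi x = -ε) (b : Bool)
    (hb : ∀ y : Fin m → Bool, S (Fin.cons b y) → chi (Fin.cons b y : Fin (m + 1) → Bool) ≠ -ε) :
    (m : ℤ) ≤ dl ε S := by
  classical
  have hεε : ε * ε = 1 := by rcases hε with rfl | rfl <;> rfl
  -- rewrite `dl` as a sum over pairs in direction zero
  have h1 : dl ε S = ∑ y : Fin m → Bool,
      ((if S (Fin.cons b y) then ε * chi (Fin.cons b y : Fin (m + 1) → Bool) else 0) +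
       (if S (Fin.cons (!b) y) then ε * chi (Fin.cons (!b) y : Fin (m + 1) → Bool) else 0)) := by
    unfold dl
    rw [sum_cube, Finset.mul_sum, Fintype.sum_bool, Finset.sum_add_distrib]
    cases b
    · rw [add_comm]
      congr 1 <;> rw [Finset.mul_sum] <;> refine Finset.sum_congr rfl fun y _ => ?_ <;>
        rw [mul_ite, mul_zero]
      rfl
    · congr 1 <;> rw [Finset.mul_sum] <;> refine Finset.sum_congr rfl fun y _ => ?_ <;>
        rw [mul_ite, mul_zero]
      rfl
  -- each pair contributes at least the number of points of parity `ε` in the other half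
  have hε1 : ∀ x : Fin (m + 1) → Bool, chi x ≠ -ε → ε * chi x = 1 := by
    intro x hx
    rcases chi_cases x with h2 | h2 <;> rcases hε with rfl | rfl <;> rw [h2] at hx ⊢ <;>
      first | rfl | exact absurd rfl hx
  have hε2 : ∀ x : Fin (m + 1) → Bool, chi x = -ε → ε * chi x = -1 := by
    intro x hx
    rw [hx, mul_neg, hεε]
  let P : (Fin m → Bool) → Prop := fun y => S (Fin.cons (!b) y) ∧
    chi (Fin.cons (!b) y : Fin (m + 1) → Bool) ≠ -ε
  have h2 : (∑ y : Fin m → Bool, if P y then (1 : ℤ) else 0) ≤ dl ε S := by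
    rw [h1]
    refine Finset.sum_le_sum fun y _ => ?_
    by_cases hy : S (Fin.cons (!b) y)
    · rw [if_pos hy]
      by_cases hy' : chi (Fin.cons (!b) y : Fin (m + 1) → Bool) = -ε
      · have h3 : S (Fin.cons b y) := by
          have h4 := h _ hy hy' 0
          rwa [flip_zero_cons, Bool.not_not] at h4
        rw [if_pos h3, hε1 _ (hb y h3), hε2 _ hy', if_neg (fun h4 => h4.2 hy')]
        decide
      · rw [if_pos ⟨hy, hy'⟩, hε1 _ hy']
        split_ifs with h3
        · rw [hε1 _ (hb y h3)]
          decide
        · decide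
    · rw [if_neg hy, if_neg (fun h4 => hy h4.1), add_zero]
      split_ifs with h3
      · rw [hε1 _ (hb y h3)]
        decide
      · exact le_refl _
  refine le_trans ?_ h2
  -- the neighbours of one point
  obtain ⟨x, hx, hχ⟩ := hS
  obtain ⟨a, y, rfl⟩ : ∃ a y, x = Fin.cons a y := ⟨x 0, Fin.tail x, (Fin.cons_self_tail x).symm⟩
  have hab : a = !b := by
    by_contra hne
    have : a = b := by cases a <;> cases b <;> simp_all
    rw [this] at hx hχ
    exact hb y hx hχ
  subst hab
  rw [← Finset.sum_filter, Finset.sum_const]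
  have h3 : Finset.univ.image (fun j : Fin m => flip j y) ⊆ Finset.univ.filter P := by
    intro z hz
    obtain ⟨j, -, rfl⟩ := Finset.mem_image.1 hz
    refine Finset.mem_filter.2 ⟨Finset.mem_univ _, ?_, ?_⟩
    · have h4 := h _ hx hχ j.succ
      rwa [flip_succ_cons] at h4
    · rw [← flip_succ_cons, chi_flip, hχ, neg_neg]
      rcases hε with rfl | rfl <;> decide
  have h4 := Finset.card_le_card h3
  rw [Finset.card_image_of_injective _ (flip_dir_inj y), Finset.card_univ, Fintype.card_fin] at h4
  simp only [nsmul_eq_mul, mul_one]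
  exact_mod_cast h4

/-- **isoperimetric inequality** -/
theorem iso : ∀ (m : ℕ) (ε : ℤ), (ε = 1 ∨ ε = -1) → ∀ S : (Fin m → Bool) → Prop, Closed ε S →
    (∃ x, S x ∧ chi x = -ε) → (∃ x, ¬ S x ∧ chi x = ε) → (m : ℤ) - 1 ≤ dl ε S := by
  intro m
  induction m with
  | zero =>
    intro ε hε S _ ⟨x, hx, _⟩ ⟨y, hy, _⟩
    exact absurd (Subsingleton.elim x y ▸ hx) hy
  | succ m ih =>
    intro ε hε S hS h1 h2
    rw [Nat.cast_succ, add_sub_cancel_right]
    by_cases hA : ∃ b : Bool, ∀ y : Fin m → Bool, S (Fin.cons b y) →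
        chi (Fin.cons b y : Fin (m + 1) → Bool) ≠ -ε
    · obtain ⟨b, hb⟩ := hA
      exact dl_half hε hS h1 b hb
    by_cases hB : ∃ b : Bool, ∀ y : Fin m → Bool, ¬ S (Fin.cons b y) →
        chi (Fin.cons b y : Fin (m + 1) → Bool) ≠ ε
    · obtain ⟨b, hb⟩ := hB
      rw [← dl_compl]
      refine dl_half (ε := -ε) (by rcases hε with rfl | rfl <;> simp) hS.compl ?_ b ?_
      · obtain ⟨x, hx, hx'⟩ := h2
        exact ⟨x, hx, by rw [neg_neg]; exact hx'⟩
      · intro y hy
        rw [neg_neg]
        exact hb y hy
    push Not at hA hB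
    have hkey : ∀ b : Bool, (m : ℤ) - 1 ≤ dl (ε * sg b) (fun y : Fin m → Bool => S (Fin.cons b y)) := by
      intro b
      refine ih _ (eps_cases hε b) _ (hS.half b) ?_ ?_
      · obtain ⟨y, hy, hy'⟩ := hA b
        refine ⟨y, hy, ?_⟩
        rw [chi_cons] at hy'
        have := sg_sq b
        calc chi y = (sg b * sg b) * chi y := by rw [this, one_mul]
          _ = sg b * (sg b * chi y) := by ring
          _ = -(ε * sg b) := by rw [hy']; ring
      · obtain ⟨y, hy, hy'⟩ := hB b
        refine ⟨y, hy, ?_⟩
        rw [chi_cons] at hy'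
        have := sg_sq b
        calc chi y = (sg b * sg b) * chi y := by rw [this, one_mul]
          _ = sg b * (sg b * chi y) := by ring
          _ = ε * sg b := by rw [hy']; ring
    -- small `m` is impossible
    have hm : 2 ≤ m := by
      by_contra hlt
      obtain ⟨y, hy, hy'⟩ := hA true
      obtain ⟨z, hz, hz'⟩ := hB true
      rw [chi_cons] at hy' hz'
      have hyz : chi y = - chi z := by
        have h3 : sg true * chi y = -(sg true * chi z) := by rw [hy', hz']
        have h4 : sg true = -1 := rfl
        rw [h4] at h3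
        linarith
      have hm : m = 0 ∨ m = 1 := by omega
      rcases hm with rfl | rfl
      · exact absurd (Subsingleton.elim y z ▸ hy) hz
      · have hcl := (hS.half true) y hy (by
          have := sg_sq true
          calc chi y = (sg true * sg true) * chi y := by rw [this, one_mul]
            _ = sg true * (sg true * chi y) := by ring
            _ = -(ε * sg true) := by rw [hy']; ring) 0
        have hyz' : flip 0 y = z := by
          funext i
          have hi : i = 0 := Subsingleton.elim _ _
          rw [hi, flip_same]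
          have hne : y 0 ≠ z 0 := by
            intro h5
            have h6 : y = z := by
              funext i
              have hi : i = 0 := Subsingleton.elim _ _
              rw [hi, h5]
            rw [h6] at hyz
            rcases chi_cases z with h7 | h7 <;> rw [h7] at hyz <;> omega
          cases hy0 : y 0 <;> cases hz0 : z 0 <;> simp_all
        rw [hyz'] at hcl
        exact hz hcl
    have h3 := hkey true
    have h4 := hkey false
    rw [dl_succ, Fintype.sum_bool]
    have hm' : (2 : ℤ) ≤ m := by exact_mod_cast hm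
    linarith

/-- **consistent marginals on the cube** -/
theorem cube {m t : ℕ} (hm : t + 2 ≤ m) (w : Fin m → (Fin m → Bool) → ℕ)
    (h1 : ∀ j x, w j (flip j x) = w j x)
    (h2 : ∀ i j x, w i x + w i (flip j x) = w j x + w j (flip i x))
    (ht : ∀ j, ∑ x, w j x ≤ 2 * t) :
    ∃ F : (Fin m → Bool) → ℕ, ∀ j x, F x + F (flip j x) = w j x := by
  classical
  obtain ⟨F, hF⟩ := exists_int m (fun j x => (w j x : ℤ)) (fun j x => by rw [h1])
    (fun i j x => by exact_mod_cast h2 i j x)
  let φ : (Fin m → Bool) → ℤ := fun x => chi x * F x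
  have hφ : ∀ j x, φ x - φ (flip j x) = chi x * w j x := by
    intro j x
    change chi x * F x - chi (flip j x) * F (flip j x) = _
    rw [chi_flip, ← hF j x]
    ring
  have hFφ : ∀ x, F x = chi x * φ x := by
    intro x
    change F x = chi x * (chi x * F x)
    rw [← mul_assoc, chi_sq, one_mul]
  -- the key inequality
  have key : ∀ x y, chi x = 1 → chi y = -1 → φ y ≤ φ x := by
    intro x₀ y₀ hx₀ hy₀
    by_contra hlt
    rw [not_le] at hlt
    obtain ⟨S, hSd⟩ : ∃ S : (Fin m → Bool) → Prop, ∀ z, S z ↔ φ y₀ ≤ φ z :=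
      ⟨_, fun _ => Iff.rfl⟩
    have hcl : Closed 1 S := by
      intro z hz hχ j
      have h3 := hφ j z
      rw [hχ] at h3
      have h4 : (0 : ℤ) ≤ w j z := Nat.cast_nonneg _
      rw [hSd] at hz ⊢
      linarith
    have hiso := iso m 1 (Or.inl rfl) S hcl ⟨y₀, (hSd _).2 (le_refl _), hy₀⟩
      ⟨x₀, fun h => absurd ((hSd _).1 h) (not_le.2 hlt), hx₀⟩
    -- upper bound
    have hpos : 0 < m := by omega
    let j : Fin m := ⟨0, hpos⟩
    have hup : 2 * dl 1 S ≤ ∑ x, (w j x : ℤ) := by
      unfold dl
      rw [one_mul]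
      have h3 : (∑ x : Fin m → Bool, if S x then chi x else 0) =
          ∑ x : Fin m → Bool, if S (flip j x) then - chi x else 0 := by
        refine Fintype.sum_bijective (flip j) ⟨flip_inj j, fun y => ⟨flip j y, flip_flip j y⟩⟩ _ _ ?_
        intro x
        rw [flip_flip, chi_flip, neg_neg]
      have h3' : 2 * (∑ x : Fin m → Bool, if S x then chi x else 0) =
          (∑ x : Fin m → Bool, if S x then chi x else 0) +
          ∑ x : Fin m → Bool, if S (flip j x) then - chi x else 0 := by
        rw [two_mul]
        conv_rhs => rw [← h3]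
      rw [h3', ← Finset.sum_add_distrib]
      refine Finset.sum_le_sum fun x _ => ?_
      have h4 := hφ j x
      have h5 : (0 : ℤ) ≤ w j x := Nat.cast_nonneg _
      rcases chi_cases x with h6 | h6
      · rw [h6] at h4
        by_cases h7 : S x <;> by_cases h8 : S (flip j x)
        · rw [if_pos h7, if_pos h8, h6]
          linarith
        · rw [if_pos h7, if_neg h8, h6]
          have h9 : φ y₀ ≤ φ x := (hSd _).1 h7
          have h10 : φ (flip j x) < φ y₀ := not_le.1 fun h => h8 ((hSd _).2 h)
          omega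
        · rw [if_neg h7, if_pos h8, h6]
          linarith
        · rw [if_neg h7, if_neg h8]
          linarith
      · rw [h6] at h4
        by_cases h7 : S x <;> by_cases h8 : S (flip j x)
        · rw [if_pos h7, if_pos h8, h6]
          linarith
        · rw [if_pos h7, if_neg h8, h6]
          linarith
        · rw [if_neg h7, if_pos h8, h6]
          have h9 : φ y₀ ≤ φ (flip j x) := (hSd _).1 h8
          have h10 : φ x < φ y₀ := not_le.1 fun h => h7 ((hSd _).2 h)
          omega
        · rw [if_neg h7, if_neg h8]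
          linarith
    have h3 : (∑ x, (w j x : ℤ)) ≤ 2 * t := by exact_mod_cast ht j
    have h4 : (t : ℤ) + 2 ≤ m := by exact_mod_cast hm
    linarith
  -- the level
  obtain ⟨c, hc1, hc2⟩ : ∃ c : ℤ, (∀ x, chi x = 1 → c ≤ φ x) ∧ ∀ x, chi x = -1 → φ x ≤ c := by
    have hpos : 0 < m := by omega
    have hne : (Finset.univ.filter fun x : Fin m → Bool => chi x = -1).Nonempty := by
      rcases chi_cases (fun _ : Fin m => false) with h | h
      · exact ⟨flip ⟨0, hpos⟩ (fun _ => false), Finset.mem_filter.2 ⟨Finset.mem_univ _, by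
          rw [chi_flip, h]⟩⟩
      · exact ⟨_, Finset.mem_filter.2 ⟨Finset.mem_univ _, h⟩⟩
    obtain ⟨y, hy, hmax⟩ := Finset.exists_max_image _ φ hne
    refine ⟨φ y, fun x hx => key x y hx (Finset.mem_filter.1 hy).2, fun x hx => ?_⟩
    exact hmax x (Finset.mem_filter.2 ⟨Finset.mem_univ _, hx⟩)
  have hnn : ∀ x, 0 ≤ chi x * (φ x - c) := by
    intro x
    rcases chi_cases x with h | h
    · rw [h, one_mul]
      linarith [hc1 x h]
    · rw [h]
      linarith [hc2 x h]
  refine ⟨fun x => (chi x * (φ x - c)).toNat, fun j x => ?_⟩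
  have h3 : (((chi x * (φ x - c)).toNat : ℤ) + ((chi (flip j x) * (φ (flip j x) - c)).toNat : ℤ)) =
      w j x := by
    rw [Int.toNat_of_nonneg (hnn _), Int.toNat_of_nonneg (hnn _), chi_flip]
    have h4 := hφ j x
    have h5 := chi_sq x
    calc chi x * (φ x - c) + -chi x * (φ (flip j x) - c) = chi x * (φ x - φ (flip j x)) := by ring
      _ = chi x * (chi x * w j x) := by rw [h4]
      _ = w j x := by rw [← mul_assoc, h5, one_mul]
  exact_mod_cast h3

end Pool.Agent.Q15.GRQ
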