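import Pool.Agent.Q15.GRQ1

/-!
# Patching from independent involutions: the combinatorial theorem
-/

set_option autoImplicit false
set_option linter.style.haveILetI false

namespace Pool.Agent.Q15.GRQ

open Finset

/-- the number of independent quadratic extensions that suffices in rank `n` -/
def rr (n : ℕ) : ℕ := if n = 2 ∨ n = 4 then n + 3 else n + 2

theorem rr_le (n : ℕ) : rr n ≤ n + 3 := by
  unfold rr
  split_ifs <;> omega

theorem le_rr (n : ℕ) : n + 2 ≤ rr n := by
  unfold rr
  split_ifs <;> omega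

/-- the arithmetic of ranks and self-twists -/
theorem rank_arith {n t d s : ℕ} (ht : 1 ≤ t) (hd : 1 ≤ d) (htd : t * d ≤ n)
    (hs : 2 ^ s ∣ d ^ 2) : t + s + 2 ≤ rr n := by
  obtain ⟨a, ha, hsa⟩ : ∃ a, 2 ^ a ∣ d ∧ s ≤ 2 * a := by
    haveI : Fact (Nat.Prime 2) := ⟨Nat.prime_two⟩
    refine ⟨padicValNat 2 d, pow_padicValNat_dvd, ?_⟩
    have h1 : s ≤ padicValNat 2 (d ^ 2) :=
      (padicValNat_dvd_iff_le (by positivity)).1 hs
    rwa [padicValNat.pow] at h1
  have h2 : 2 ^ a ≤ d := Nat.le_of_dvd hd ha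
  have h3 : t * 2 ^ a ≤ n := (Nat.mul_le_mul_left t h2).trans htd
  have h4 : a = 0 ∨ a = 1 ∨ a = 2 ∨ 2 * a + 1 ≤ 2 ^ a := by
    by_cases ha3 : a < 3
    · omega
    · right; right; right
      have : ∀ b, 2 * (b + 3) + 1 ≤ 2 ^ (b + 3) := by
        intro b
        induction b with
        | zero => norm_num
        | succ b ih =>
          rw [show b + 1 + 3 = (b + 3) + 1 by ring, pow_succ]
          omega
      obtain ⟨b, rfl⟩ : ∃ b, a = b + 3 := ⟨a - 3, by omega⟩
      exact this b
  rcases h4 with rfl | rfl | rfl | h4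
  · have h5 := le_rr n
    rw [pow_zero, mul_one] at h3
    omega
  · unfold rr
    split_ifs <;> omega
  · unfold rr
    split_ifs <;> omega
  · have h5 := le_rr n
    have h6 : t * (2 * a + 1) ≤ n := (Nat.mul_le_mul_left t h4).trans h3
    nlinarith

/-- a function invariant under all flips is constant -/
theorem const_of_flip : ∀ (m : ℕ) (g : (Fin m → Bool) → ℤ), (∀ k v, g (flip k v) = g v) →
    ∀ v, g v = g (fun _ => false) := by
  intro m
  induction m with
  | zero => exact fun g _ v => congrArg g (Subsingleton.elim _ _)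
  | succ m ih =>
    intro g hg v
    obtain ⟨b, y, rfl⟩ : ∃ b y, v = Fin.cons b y := ⟨v 0, Fin.tail v, (Fin.cons_self_tail v).symm⟩
    have h1 : g (Fin.cons b y) = g (Fin.cons b (fun _ => false)) :=
      ih (fun y => g (Fin.cons b y)) (fun k y => by
        have := hg k.succ (Fin.cons b y)
        rwa [flip_succ_cons] at this) y
    have h0 : (Fin.cons false (fun _ => false) : Fin (m + 1) → Bool) = fun _ => false := by
      funext i
      refine Fin.cases ?_ (fun i => ?_) i
      · rfl
      · simp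
    rw [h1]
    cases b
    · rw [h0]
    · have h2 := hg 0 (Fin.cons true (fun _ => false))
      rw [flip_zero_cons] at h2
      rw [← h2]
      exact congrArg g h0

section

variable {B X ι : Type} [CommGroup B]

/-- the product attached to a point of the cube -/
def pr {m : ℕ} (ψ : Fin m → B) (v : Fin m → Bool) : B := ∏ k, if v k then ψ k else 1

theorem pr_flip {m : ℕ} (hB : ∀ b : B, b * b = 1) (ψ : Fin m → B) (k : Fin m) (v : Fin m → Bool) :
    pr ψ (flip k v) = ψ k * pr ψ v := by
  unfold pr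
  rw [← Finset.mul_prod_erase _ _ (Finset.mem_univ k),
    ← Finset.mul_prod_erase univ (fun i => if v i then ψ i else 1) (Finset.mem_univ k), flip_same,
    Finset.prod_congr rfl fun i hi => by rw [flip_ne (Finset.ne_of_mem_erase hi)], ← mul_assoc]
  congr 1
  cases v k
  · simp
  · simp [hB]

theorem pr_xor {m : ℕ} (hB : ∀ b : B, b * b = 1) (ψ : Fin m → B) (u v : Fin m → Bool) :
    pr ψ (fun k => xor (u k) (v k)) = pr ψ u * pr ψ v := by
  unfold pr
  rw [← Finset.prod_mul_distrib]
  refine Finset.prod_congr rfl fun k _ => ?_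
  change (if xor (u k) (v k) then ψ k else 1) = _
  cases u k <;> cases v k <;> simp [hB]

theorem pr_cons {m : ℕ} (b₀ : B) (ψ : Fin m → B) (a : Bool) (u : Fin m → Bool) :
    pr (Fin.cons b₀ ψ : Fin (m + 1) → B) (Fin.cons a u) = (if a then b₀ else 1) * pr ψ u := by
  unfold pr
  rw [Fin.prod_univ_succ]
  simp

theorem pr_zero {m : ℕ} (ψ : Fin m → B) : pr ψ (fun _ => false) = 1 := by
  unfold pr
  simp

theorem xor_inv {m : ℕ} (u : Fin m → Bool) :
    Function.Involutive (fun v : Fin m → Bool => fun k => xor (v k) (u k)) := by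
  intro v
  funext k
  change xor (xor (v k) (u k)) (u k) = v k
  cases v k <;> cases u k <;> rfl

variable [Finite B]

theorem card_two_pow (hB : ∀ b : B, b * b = 1) : ∃ k, Nat.card B = 2 ^ k := by
  haveI : Fact (Nat.Prime 2) := ⟨Nat.prime_two⟩
  apply IsPGroup.iff_card.1
  intro b
  exact ⟨1, by rw [pow_one, pow_two, hB]⟩

/-- the local theorem, on one orbit -/
theorem orbit_thm (act : B → X → X) (act_one : ∀ x, act 1 x = x)
    (act_mul : ∀ a b x, act (a * b) x = act a (act b x)) (hB : ∀ b : B, b * b = 1)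
    (ψ : ι → B) (hgen : Subgroup.closure (Set.range ψ) = ⊤)
    (deg : X → ℕ) (hdeg : ∀ x, 0 < deg x) (hdegact : ∀ b x, deg (act b x) = deg x)
    (hstab : ∀ x, Nat.card {b : B // act b x = x} ∣ deg x ^ 2)
    (n : ℕ) (hcard : 2 ^ rr n ≤ Nat.card B)
    (f : ι → X → ℕ) (hf : ∀ i, ∀ s : Finset X, ∑ x ∈ s, f i x * deg x ≤ n)
    (w : ι → X → ℕ) (hw : ∀ i x, w i x = f i x + f i (act (ψ i) x))
    (rel : ∀ i j x, w i x + w i (act (ψ j) x) = w j x + w j (act (ψ i) x)) (x : X) :
    ∃ F : X → ℕ, ∀ b : B, ∀ i, F (act b x) + F (act (ψ i) (act b x)) = w i (act b x) := by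
  classical
  have acomm : ∀ a b y, act a (act b y) = act b (act a y) := by
    intro a b y
    rw [← act_mul, ← act_mul, mul_comm]
  have ainv : ∀ a y, act a (act a y) = y := by
    intro a y
    rw [← act_mul, hB, act_one]
  have ainj : ∀ a, Function.Injective (act a) := by
    intro a y z h
    rw [← ainv a y, h, ainv]
  -- a maximal free subset
  let P : ℕ → Prop := fun M => ∃ j : Fin M → ι, Function.Injective fun v => act (pr (ψ ∘ j) v) x
  have hP0 : P 0 := ⟨fun i => i.elim0, fun u v _ => Subsingleton.elim u v⟩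
  have hPb : ∀ M, P M → 2 ^ M ≤ Nat.card B := by
    rintro M ⟨j, hj⟩
    have h1 : Function.Injective (pr (ψ ∘ j)) := fun u v h => hj (by
      change act _ x = act _ x
      rw [h])
    have h2 := Nat.card_le_card_of_injective _ h1
    rwa [Nat.card_eq_fintype_card, Fintype.card_pi, Finset.prod_const, Fintype.card_bool,
      Finset.card_univ, Fintype.card_fin] at h2
  obtain ⟨M, ⟨j, hj⟩, hM⟩ : ∃ M, P M ∧ ¬ P (M + 1) := by
    by_contra hall
    push Not at hall
    have h1 : ∀ M, P M := by
      intro M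
      induction M with
      | zero => exact hP0
      | succ M ih => exact hall M ih
    have h2 := hPb _ (h1 (Nat.card B))
    exact absurd h2 (not_le.2 (Nat.lt_two_pow_self))
  let c : (Fin M → Bool) → X := fun v => act (pr (ψ ∘ j) v) x
  have hc : Function.Injective c := hj
  have hc0 : c (fun _ => false) = x := by
    change act (pr (ψ ∘ j) (fun _ => false)) x = x
    rw [pr_zero, act_one]
  have hcx : ∀ u v, act (pr (ψ ∘ j) u) (c v) = c (fun k => xor (u k) (v k)) := by
    intro u v
    change act _ (act _ x) = act _ x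
    rw [← act_mul, pr_xor hB]
  have hcf : ∀ k v, c (flip k v) = act (ψ (j k)) (c v) := by
    intro k v
    change act _ x = act _ (act _ x)
    rw [pr_flip hB, act_mul]
    rfl
  have hgi : ∀ i, ∃ u, act (ψ i) x = act (pr (ψ ∘ j) u) x := by
    intro i
    by_contra hno
    push Not at hno
    apply hM
    refine ⟨Fin.cons i j, ?_⟩
    have hco : (ψ ∘ (Fin.cons i j : Fin (M + 1) → ι)) = Fin.cons (ψ i) (ψ ∘ j) := by
      funext k
      refine Fin.cases ?_ (fun k => ?_) k
      · simp
      · simp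
    intro v v' h
    obtain ⟨a, u, rfl⟩ : ∃ a u, v = Fin.cons a u := ⟨v 0, Fin.tail v, (Fin.cons_self_tail v).symm⟩
    obtain ⟨a', u', rfl⟩ : ∃ a u, v' = Fin.cons a u :=
      ⟨v' 0, Fin.tail v', (Fin.cons_self_tail v').symm⟩
    change act (pr (ψ ∘ (Fin.cons i j : Fin (M + 1) → ι)) (Fin.cons a u)) x =
      act (pr (ψ ∘ (Fin.cons i j : Fin (M + 1) → ι)) (Fin.cons a' u')) x at h
    rw [hco, pr_cons, pr_cons, act_mul, act_mul] at h
    cases a <;> cases a'
    · simp only [Bool.false_eq_true, if_false, act_one] at h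
      rw [hj h]
    · exfalso
      simp only [Bool.false_eq_true, if_false, act_one, if_true] at h
      apply hno (fun k => xor (u' k) (u k))
      have h1 := congrArg (act (pr (ψ ∘ j) u')) h
      rw [acomm _ (ψ i), ainv, ← act_mul, ← pr_xor hB] at h1
      exact h1.symm
    · exfalso
      simp only [Bool.false_eq_true, if_false, act_one, if_true] at h
      apply hno (fun k => xor (u k) (u' k))
      have h1 := congrArg (act (pr (ψ ∘ j) u)) h
      rw [acomm _ (ψ i), ainv, ← act_mul, ← pr_xor hB] at h1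
      exact h1
    · simp only [if_true] at h
      rw [hj (ainj _ h)]
  have hgb : ∀ b : B, ∃ u, act b x = act (pr (ψ ∘ j) u) x := by
    intro b
    have hb : b ∈ Subgroup.closure (Set.range ψ) := by
      rw [hgen]
      exact Subgroup.mem_top b
    induction hb using Subgroup.closure_induction with
    | mem y hy =>
      obtain ⟨i, rfl⟩ := hy
      exact hgi i
    | one => exact ⟨fun _ => false, by rw [pr_zero]⟩
    | mul a b _ _ ha hb =>
      obtain ⟨u, hu⟩ := ha
      obtain ⟨u', hu'⟩ := hb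
      refine ⟨fun k => xor (u' k) (u k), ?_⟩
      rw [act_mul, hu', acomm, hu, ← act_mul, ← pr_xor hB]
    | inv a _ ha =>
      obtain ⟨u, hu⟩ := ha
      refine ⟨u, ?_⟩
      have h1 : a⁻¹ = a := inv_eq_of_mul_eq_one_left (hB a)
      rw [h1, hu]
  -- the size of the orbit
  let d := deg x
  obtain ⟨σ, hσ, hsize⟩ : ∃ σ, 2 ^ σ ∣ d ^ 2 ∧ rr n ≤ M + σ := by
    letI : MulAction B X :=
      { smul := act, one_smul := act_one, mul_smul := act_mul }
    have h1 : Nat.card (MulAction.orbit B x) = 2 ^ M := by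
      have h2 : MulAction.orbit B x = Set.range c := by
        ext y
        constructor
        · rintro ⟨b, rfl⟩
          obtain ⟨u, hu⟩ := hgb b
          exact ⟨u, hu.symm⟩
        · rintro ⟨u, rfl⟩
          exact ⟨pr (ψ ∘ j) u, rfl⟩
      rw [h2, Nat.card_congr (Equiv.ofInjective c hc).symm, Nat.card_eq_fintype_card,
        Fintype.card_pi, Finset.prod_const, Fintype.card_bool, Finset.card_univ, Fintype.card_fin]
    have h3 : Nat.card (MulAction.orbit B x) * Nat.card (MulAction.stabilizer B x) = Nat.card B := by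
      rw [← Nat.card_prod]
      exact Nat.card_congr (MulAction.orbitProdStabilizerEquivGroup B x)
    have h4 : Nat.card (MulAction.stabilizer B x) ∣ d ^ 2 := hstab x
    obtain ⟨k, hk⟩ := card_two_pow hB
    rw [h1, hk] at h3
    obtain ⟨σ, hσk, hσ⟩ := (Nat.dvd_prime_pow Nat.prime_two).1 (Dvd.intro_left _ h3)
    refine ⟨σ, hσ ▸ h4, ?_⟩
    rw [hk] at hcard
    rw [hσ, ← pow_add] at h3
    have h5 : M + σ = k := Nat.pow_right_injective (le_refl 2) h3
    rw [h5]
    exact (Nat.pow_le_pow_iff_right (by norm_num)).1 hcard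
  -- masses
  have hinv : ∀ i y, w i (act (ψ i) y) = w i y := by
    intro i y
    rw [hw, hw, ainv, add_comm]
  choose u hu using hgi
  have hcu : ∀ i v, act (ψ i) (c v) = c (fun k => xor (v k) (u i k)) := by
    intro i v
    change act _ (act _ x) = _
    rw [acomm, hu i, hcx]
  have hT1 : ∀ i, ∑ v, w i (c v) = 2 * ∑ v, f i (c v) := by
    intro i
    simp_rw [hw, hcu]
    rw [Finset.sum_add_distrib, two_mul]
    congr 1
    exact Fintype.sum_bijective _ (xor_inv (u i)).bijective _ _ (fun v => rfl)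
  have hT2 : ∀ i i', ∑ v, w i (c v) = ∑ v, w i' (c v) := by
    intro i i'
    have key : ∀ a b : ι, ∑ v, (w a (c v) + w a (act (ψ b) (c v))) = 2 * ∑ v, w a (c v) := by
      intro a b
      simp_rw [hcu]
      rw [Finset.sum_add_distrib, two_mul]
      congr 1
      exact Fintype.sum_bijective _ (xor_inv (u b)).bijective _ _ (fun v => rfl)
    have h1 := key i i'
    have h2 := key i' i
    have h3 : ∑ v, (w i (c v) + w i (act (ψ i') (c v))) =
        ∑ v, (w i' (c v) + w i' (act (ψ i) (c v))) := Finset.sum_congr rfl fun v _ => rel i i' (c v)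
    omega
  by_cases hzero : ∀ i v, w i (c v) = 0
  · refine ⟨fun _ => 0, fun b i => ?_⟩
    obtain ⟨v, hv⟩ := hgb b
    rw [hv]
    exact (hzero i v).symm
  push Not at hzero
  obtain ⟨i₀, v₀, hv₀⟩ := hzero
  set t := ∑ v, f i₀ (c v) with ht
  have ht1 : 1 ≤ t := by
    by_contra hlt
    have h1 : t = 0 := by omega
    have h2 := hT1 i₀
    rw [← ht, h1, mul_zero] at h2
    rw [Finset.sum_eq_zero_iff] at h2
    exact hv₀ (h2 v₀ (Finset.mem_univ _))
  have htd : t * d ≤ n := by
    have h1 := hf i₀ (Finset.univ.image c)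
    rw [Finset.sum_image (fun a _ b _ h => hc h)] at h1
    have h2 : ∀ v ∈ (Finset.univ : Finset (Fin M → Bool)), f i₀ (c v) * deg (c v) = f i₀ (c v) * d :=
      fun v _ => by
        change _ * deg (act _ x) = _
        rw [hdegact]
    rw [Finset.sum_congr rfl h2, ← Finset.sum_mul] at h1
    exact h1
  have hd : 1 ≤ d := hdeg x
  have htM : t + 2 ≤ M := by
    have h1 := rank_arith ht1 hd htd hσ
    omega
  have hTt : ∀ i, ∑ v, w i (c v) = 2 * t := fun i => by rw [hT2 i i₀, hT1]
  obtain ⟨FQ, hFQ⟩ := cube htM (fun k v => w (j k) (c v)) (fun k v => by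
    change w (j k) (c (flip k v)) = w (j k) (c v)
    rw [hcf, hinv]) (fun k l v => by
    change w (j k) (c v) + w (j k) (c (flip l v)) = w (j l) (c v) + w (j l) (c (flip k v))
    rw [hcf, hcf, rel]) (fun k => (hTt (j k)).le)
  -- the remaining directions
  have hM0 : 0 < M := by omega
  have hFt : ∑ v, FQ v = t := by
    let k₀ : Fin M := ⟨0, hM0⟩
    have h1 : ∑ v, (FQ v + FQ (flip k₀ v)) = 2 * t := by
      rw [Finset.sum_congr rfl fun v _ => hFQ k₀ v]
      exact hTt (j k₀)
    rw [Finset.sum_add_distrib] at h1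
    have h2 : ∑ v, FQ (flip k₀ v) = ∑ v, FQ v :=
      Fintype.sum_bijective _ ⟨flip_inj k₀, fun y => ⟨flip k₀ y, flip_flip k₀ y⟩⟩ _ _ (fun v => rfl)
    omega
  have hall : ∀ i v, FQ v + FQ (fun k => xor (v k) (u i k)) = w i (c v) := by
    intro i
    let h : (Fin M → Bool) → ℤ := fun v => (w i (c v) : ℤ) - FQ v - FQ (fun k => xor (v k) (u i k))
    have hxf : ∀ k v, (fun l => xor (flip k v l) (u i l)) = flip k (fun l => xor (v l) (u i l)) := by
      intro k v
      funext l
      by_cases hl : l = k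
      · rw [hl, flip_same, flip_same]
        cases v k <;> cases u i k <;> rfl
      · rw [flip_ne hl, flip_ne hl]
    have hflip : ∀ k v, h (flip k v) = - h v := by
      intro k v
      change (w i (c (flip k v)) : ℤ) - FQ (flip k v) - FQ (fun l => xor (flip k v l) (u i l)) =
        -((w i (c v) : ℤ) - FQ v - FQ (fun k => xor (v k) (u i k)))
      rw [hxf]
      have h1 := hFQ k v
      have h2 := hFQ k (fun l => xor (v l) (u i l))
      have h3 := rel i (j k) (c v)
      rw [← hcf, hcu] at h3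
      have h1' : (FQ v : ℤ) + FQ (flip k v) = w (j k) (c v) := by exact_mod_cast h1
      have h2' : (FQ (fun l => xor (v l) (u i l)) : ℤ) + FQ (flip k (fun l => xor (v l) (u i l))) =
        w (j k) (c (fun l => xor (v l) (u i l))) := by exact_mod_cast h2
      have h3' : (w i (c v) : ℤ) + w i (c (flip k v)) = w (j k) (c v) +
        w (j k) (c (fun l => xor (v l) (u i l))) := by exact_mod_cast h3
      linarith
    have habs : ∀ v, |h v| = |h (fun _ => false)| := const_of_flip M (fun v => |h v|) (fun k v => by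
      change |h (flip k v)| = |h v|
      rw [hflip, abs_neg])
    have hz : h (fun _ => false) = 0 := by
      by_contra hne
      have h1 : 1 ≤ |h (fun _ => false)| := Int.one_le_abs hne
      have h2 : (2 : ℤ) ^ M ≤ ∑ v, |h v| := by
        rw [Finset.sum_congr rfl fun v _ => habs v, Finset.sum_const, Finset.card_univ,
          Fintype.card_pi, Finset.prod_const, Fintype.card_bool, Finset.card_univ, Fintype.card_fin,
          nsmul_eq_mul]
        push_cast
        nlinarith [pow_pos (show (0 : ℤ) < 2 by norm_num) M]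
      have h3 : ∑ v, |h v| ≤ ∑ v, ((w i (c v) : ℤ) + FQ v + FQ (fun k => xor (v k) (u i k))) := by
        refine Finset.sum_le_sum fun v _ => ?_
        have a1 : (0 : ℤ) ≤ w i (c v) := Nat.cast_nonneg _
        have a2 : (0 : ℤ) ≤ FQ v := Nat.cast_nonneg _
        have a3 : (0 : ℤ) ≤ FQ (fun k => xor (v k) (u i k)) := Nat.cast_nonneg _
        rw [abs_le]
        constructor
        · change _ ≤ (w i (c v) : ℤ) - FQ v - FQ (fun k => xor (v k) (u i k))
          linarith
        · change (w i (c v) : ℤ) - FQ v - FQ (fun k => xor (v k) (u i k)) ≤ _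
          linarith
      have h4 : ∑ v, ((w i (c v) : ℤ) + FQ v + FQ (fun k => xor (v k) (u i k))) = 4 * t := by
        rw [Finset.sum_add_distrib, Finset.sum_add_distrib]
        have a1 : ∑ v, (w i (c v) : ℤ) = 2 * t := by exact_mod_cast hTt i
        have a2 : ∑ v, (FQ v : ℤ) = t := by exact_mod_cast hFt
        have a3 : ∑ v : Fin M → Bool, (FQ (fun k => xor (v k) (u i k)) : ℤ) = ∑ v, (FQ v : ℤ) :=
          Fintype.sum_bijective _ (xor_inv (u i)).bijective _ _ (fun v => rfl)
        rw [a3, a1, a2]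
        ring
      have h5 : (2 : ℤ) ^ (t + 2) ≤ 2 ^ M := pow_le_pow_right₀ (by norm_num) htM
      have h6 : (t : ℤ) < 2 ^ t := by exact_mod_cast Nat.lt_two_pow_self
      have h7 : (2 : ℤ) ^ (t + 2) = 4 * 2 ^ t := by rw [pow_add]; ring
      linarith
    intro v
    have h1 : |h v| = 0 := by rw [habs, hz, abs_zero]
    have h2 : (w i (c v) : ℤ) - FQ v - FQ (fun k => xor (v k) (u i k)) = 0 := abs_eq_zero.1 h1
    have h3 : (FQ v : ℤ) + FQ (fun k => xor (v k) (u i k)) = w i (c v) := by linarith
    exact_mod_cast h3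
  refine ⟨fun y => if hy : ∃ v, c v = y then FQ hy.choose else 0, ?_⟩
  have hval : ∀ v, (fun y => if hy : ∃ v, c v = y then FQ hy.choose else 0) (c v) = FQ v := by
    intro v
    have hy : ∃ v', c v' = c v := ⟨v, rfl⟩
    change (if hy : ∃ v', c v' = c v then FQ hy.choose else 0) = FQ v
    rw [dif_pos hy]
    congr 1
    exact hc hy.choose_spec
  intro b i
  obtain ⟨v, hv⟩ := hgb b
  have hv' : act b x = c v := hv
  rw [hv', hcu i v]
  rw [hval, hval]
  exact hall i v

/-- **combinatorial patching theorem for involutions** -/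
theorem main (act : B → X → X) (act_one : ∀ x, act 1 x = x)
    (act_mul : ∀ a b x, act (a * b) x = act a (act b x)) (hB : ∀ b : B, b * b = 1)
    (ψ : ι → B) (hgen : Subgroup.closure (Set.range ψ) = ⊤)
    (deg : X → ℕ) (hdeg : ∀ x, 0 < deg x) (hdegact : ∀ b x, deg (act b x) = deg x)
    (hstab : ∀ x, Nat.card {b : B // act b x = x} ∣ deg x ^ 2)
    (n : ℕ) (hcard : 2 ^ rr n ≤ Nat.card B)
    (f : ι → X → ℕ) (hf : ∀ i, ∀ s : Finset X, ∑ x ∈ s, f i x * deg x ≤ n)
    (w : ι → X → ℕ) (hw : ∀ i x, w i x = f i x + f i (act (ψ i) x))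
    (rel : ∀ i j x, w i x + w i (act (ψ j) x) = w j x + w j (act (ψ i) x)) :
    ∃ F : X → ℕ, ∀ i x, F x + F (act (ψ i) x) = w i x := by
  classical
  have key := orbit_thm act act_one act_mul hB ψ hgen deg hdeg hdegact hstab n hcard f hf w hw rel
  choose F hF using key
  letI : MulAction B X :=
    { smul := act, one_smul := act_one, mul_smul := act_mul }
  let q : X → Quotient (MulAction.orbitRel B X) := fun y => Quotient.mk _ y
  have hq : ∀ y, ∃ b : B, act b (q y).out = y := by
    intro y
    have h1 : (MulAction.orbitRel B X).r (q y).out y := Quotient.exact (Quotient.out_eq (q y))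
    have h2 : (q y).out ∈ MulAction.orbit B y := h1
    have h3 := MulAction.orbitRel_apply.1 h1
    obtain ⟨b, hb⟩ := (MulAction.mem_orbit_symm).1 h3
    exact ⟨b, hb⟩
  have hqa : ∀ (b : B) y, q (act b y) = q y := by
    intro b y
    apply Quotient.sound
    change act b y ∈ MulAction.orbit B y
    exact ⟨b, rfl⟩
  refine ⟨fun y => F (q y).out y, fun i y => ?_⟩
  obtain ⟨b, hb⟩ := hq y
  have h1 := hF (q y).out b i
  rw [hb] at h1
  change F (q y).out y + F (q (act (ψ i) y)).out (act (ψ i) y) = w i y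
  rw [hqa]
  exact h1

/-- uniqueness -/
theorem unique (act : B → X → X) (act_one : ∀ x, act 1 x = x)
    (act_mul : ∀ a b x, act (a * b) x = act a (act b x)) (hB : ∀ b : B, b * b = 1)
    (ψ : ι → B) (hgen : Subgroup.closure (Set.range ψ) = ⊤)
    (deg : X → ℕ) (hdeg : ∀ x, 0 < deg x) (hdegact : ∀ b x, deg (act b x) = deg x)
    (hstab : ∀ x, Nat.card {b : B // act b x = x} ∣ deg x ^ 2)
    (n : ℕ) (hcard : 2 ^ rr n ≤ Nat.card B)
    (F F' : X → ℕ) (hF : ∀ s : Finset X, ∑ x ∈ s, F x * deg x ≤ n)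
    (hF' : ∀ s : Finset X, ∑ x ∈ s, F' x * deg x ≤ n)
    (h : ∀ i x, F x + F (act (ψ i) x) = F' x + F' (act (ψ i) x)) : F = F' := by
  classical
  funext x
  let g : X → ℤ := fun y => (F y : ℤ) - F' y
  have hg : ∀ i y, |g (act (ψ i) y)| = |g y| := by
    intro i y
    have h1 : (F y : ℤ) + F (act (ψ i) y) = F' y + F' (act (ψ i) y) := by exact_mod_cast h i y
    have h2 : g (act (ψ i) y) = - g y := by
      change (F (act (ψ i) y) : ℤ) - F' (act (ψ i) y) = -((F y : ℤ) - F' y)
      linarith
    rw [h2, abs_neg]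
  have hgb : ∀ b : B, ∀ y, |g (act b y)| = |g y| := by
    intro b
    have hb : b ∈ Subgroup.closure (Set.range ψ) := by
      rw [hgen]
      exact Subgroup.mem_top b
    induction hb using Subgroup.closure_induction with
    | mem y hy =>
      obtain ⟨i, rfl⟩ := hy
      exact hg i
    | one =>
      intro y
      rw [act_one]
    | mul a b _ _ ha hb =>
      intro y
      rw [act_mul, ha, hb]
    | inv a _ ha =>
      intro y
      have h1 : a⁻¹ = a := inv_eq_of_mul_eq_one_left (hB a)
      rw [h1, ha]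
  by_contra hne
  have hgx : 1 ≤ |g x| := by
    apply Int.one_le_abs
    intro h0
    apply hne
    have h1 : (F x : ℤ) - F' x = 0 := h0
    have h2 : (F x : ℤ) = F' x := by linarith
    exact_mod_cast h2
  letI : MulAction B X :=
    { smul := act, one_smul := act_one, mul_smul := act_mul }
  have hOf : (MulAction.orbit B x).Finite := Set.finite_range _
  have h3 : Nat.card (MulAction.orbit B x) * Nat.card (MulAction.stabilizer B x) = Nat.card B := by
    rw [← Nat.card_prod]
    exact Nat.card_congr (MulAction.orbitProdStabilizerEquivGroup B x)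
  have h4 : Nat.card (MulAction.stabilizer B x) ∣ deg x ^ 2 := hstab x
  have h5 : Nat.card (MulAction.orbit B x) = hOf.toFinset.card :=
    Nat.card_eq_card_finite_toFinset hOf
  have hdO : ∀ y ∈ hOf.toFinset, deg y = deg x := by
    intro y hy
    obtain ⟨b, rfl⟩ := hOf.mem_toFinset.1 hy
    exact hdegact b x
  have hgO : ∀ y ∈ hOf.toFinset, |g y| = |g x| := by
    intro y hy
    obtain ⟨b, rfl⟩ := hOf.mem_toFinset.1 hy
    exact hgb b x
  have h6 : (hOf.toFinset.card : ℤ) * deg x ≤ 2 * n := by
    have a1 : (hOf.toFinset.card : ℤ) * deg x ≤ ∑ y ∈ hOf.toFinset, |g y| * deg y := by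
      rw [Finset.sum_congr rfl fun y hy => by rw [hgO y hy, hdO y hy], Finset.sum_const,
        nsmul_eq_mul]
      have : (0 : ℤ) ≤ (hOf.toFinset.card : ℤ) * deg x := by positivity
      nlinarith
    have a2 : ∑ y ∈ hOf.toFinset, |g y| * deg y ≤
        ∑ y ∈ hOf.toFinset, ((F y : ℤ) * deg y + F' y * deg y) := by
      refine Finset.sum_le_sum fun y _ => ?_
      rw [← add_mul]
      refine mul_le_mul_of_nonneg_right ?_ (Nat.cast_nonneg _)
      have b1 : (0 : ℤ) ≤ F y := Nat.cast_nonneg _
      have b2 : (0 : ℤ) ≤ F' y := Nat.cast_nonneg _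
      rw [abs_le]
      constructor
      · change _ ≤ (F y : ℤ) - F' y
        linarith
      · change (F y : ℤ) - F' y ≤ _
        linarith
    have a3 : ∑ y ∈ hOf.toFinset, ((F y : ℤ) * deg y + F' y * deg y) ≤ 2 * n := by
      rw [Finset.sum_add_distrib]
      have c1 : ∑ y ∈ hOf.toFinset, (F y : ℤ) * deg y ≤ n := by exact_mod_cast hF hOf.toFinset
      have c2 : ∑ y ∈ hOf.toFinset, (F' y : ℤ) * deg y ≤ n := by exact_mod_cast hF' hOf.toFinset
      linarith
    linarith
  have h6' : hOf.toFinset.card * deg x ≤ 2 * n := by exact_mod_cast h6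
  rw [h5] at h3
  have hd1 : 1 ≤ deg x := hdeg x
  -- some generator moves `x`
  obtain ⟨i, hi⟩ : ∃ i, act (ψ i) x ≠ x := by
    by_contra hall
    push Not at hall
    have h7 : Set.range ψ ⊆ (⊥ : Subgroup B) ∨ ∃ i : ι, True := by
      by_cases h8 : ∃ i : ι, True
      · exact Or.inr h8
      · left
        rintro _ ⟨i, rfl⟩
        exact absurd ⟨i, trivial⟩ h8
    rcases h7 with h7 | ⟨i, -⟩
    · have h8 : (⊤ : Subgroup B) ≤ ⊥ := by
        rw [← hgen]
        exact (Subgroup.closure_le _).2 h7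
      have h9 : Nat.card B = 1 := by
        have h10 : Nat.card (⊤ : Subgroup B) = Nat.card B := Subgroup.card_top
        rw [← h10, le_bot_iff.1 h8]
        exact Subgroup.card_bot
      rw [h9] at hcard
      have h11 : 1 < 2 ^ rr n := Nat.one_lt_two_pow (by have := le_rr n; omega)
      omega
    · have h8 := h i x
      rw [hall i] at h8
      apply hne
      omega
  have hO2 : 2 ≤ hOf.toFinset.card := by
    have h7 : ({x, act (ψ i) x} : Finset X) ⊆ hOf.toFinset := by
      intro y hy
      rw [hOf.mem_toFinset]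
      rcases Finset.mem_insert.1 hy with rfl | hy
      · exact MulAction.mem_orbit_self _
      · rw [Finset.mem_singleton.1 hy]
        exact ⟨ψ i, rfl⟩
    have h8 := Finset.card_le_card h7
    rwa [Finset.card_pair hi.symm] at h8
  have hdn : deg x ≤ n := by
    have h7 : 2 * deg x ≤ 2 * n := (Nat.mul_le_mul_right _ hO2).trans h6'
    omega
  have ht1 : 1 ≤ n / deg x := (Nat.one_le_div_iff hd1).2 hdn
  have htd : n / deg x * deg x ≤ n := Nat.div_mul_le_self _ _
  have htn : n < (n / deg x + 1) * deg x := by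
    rw [mul_comm]
    exact Nat.lt_mul_div_succ n hd1
  obtain ⟨k, hk⟩ := card_two_pow hB
  rw [hk] at h3 hcard
  obtain ⟨σ, hσk, hσ⟩ := (Nat.dvd_prime_pow Nat.prime_two).1 (Dvd.intro_left _ h3)
  have h7 := rank_arith ht1 hd1 htd (hσ ▸ h4)
  have h8 : rr n ≤ k := (Nat.pow_le_pow_iff_right (by norm_num)).1 hcard
  have h9 : 2 ^ (n / deg x + 2) ≤ hOf.toFinset.card := by
    rw [hσ] at h3
    have h10 : 2 ^ (n / deg x + 2) * 2 ^ σ ≤ hOf.toFinset.card * 2 ^ σ := by
      rw [h3, ← pow_add]
      exact Nat.pow_le_pow_right (by norm_num) (by omega)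
    exact Nat.le_of_mul_le_mul_right h10 (by positivity)
  have h11 : n / deg x + 1 ≤ 2 ^ (n / deg x + 1) := (Nat.lt_two_pow_self).le
  have h12 : 2 ^ (n / deg x + 2) * deg x ≤ 2 * n := (Nat.mul_le_mul_right _ h9).trans h6'
  have h13 : 2 ^ (n / deg x + 2) = 2 * 2 ^ (n / deg x + 1) := by rw [pow_succ]; ring
  rw [h13] at h12
  have h14 : (n / deg x + 1) * deg x ≤ 2 ^ (n / deg x + 1) * deg x := Nat.mul_le_mul_right _ h11
  have h15 : 2 * (2 ^ (n / deg x + 1) * deg x) ≤ 2 * n := by
    rw [← mul_assoc]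
    exact h12
  omega

end

end Pool.Agent.Q15.GRQ
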