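import Mathlib

/-! Implication zroupoids, their identities and the lattice of their varieties. -/

namespace Q15IZ

/-- Terms in the symbols `→`, `0` and variables indexed by `ℕ`. -/
inductive Tm : Type
  | var (n : ℕ) : Tm
  | zero : Tm
  | imp (s t : Tm) : Tm

/-- Algebras of type `(2,0)`. -/
structure Alg : Type 1 where
  carrier : Type
  imp : carrier → carrier → carrier
  zero : carrier

/-- Value of a term in an algebra under an assignment of the variables. -/
def Tm.eval (A : Alg) (v : ℕ → A.carrier) : Tm → A.carrier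
  | .var n => v n
  | .zero => A.zero
  | .imp s t => A.imp (s.eval A v) (t.eval A v)

/-- The algebra `A` satisfies the identity `e.1 ≈ e.2`. -/
def Sat (A : Alg) (e : Tm × Tm) : Prop := ∀ v, e.1.eval A v = e.2.eval A v

/-- `A` is an implication zroupoid. -/
def IsIZ (A : Alg) : Prop :=
  (∀ x y z : A.carrier, A.imp (A.imp x y) z =
    A.imp (A.imp (A.imp (A.imp z A.zero) x) (A.imp (A.imp y z) A.zero)) A.zero) ∧
  A.imp (A.imp A.zero A.zero) A.zero = A.zero

/-- The class of all implication zroupoids satisfying a set `E` of identities. -/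
def Models (E : Set (Tm × Tm)) : Set Alg := {A | IsIZ A ∧ ∀ e ∈ E, Sat A e}

/-- The identities of a class of algebras. -/
def Ids (K : Set Alg) : Set (Tm × Tm) := {e | ∀ A ∈ K, Sat A e}

/-- A variety of implication zroupoids: a class of implication zroupoids defined by a set of
identities. -/
structure Variety : Type 1 where
  mem : Set Alg
  isVariety : ∃ E : Set (Tm × Tm), mem = Models E

theorem Variety.ext' {X Y : Variety} (h : X.mem = Y.mem) : X = Y := by
  cases X; cases Y; cases h; rfl

/-- Varieties are ordered by inclusion. -/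
instance : PartialOrder Variety where
  le X Y := X.mem ⊆ Y.mem
  le_refl X := Set.Subset.refl X.mem
  le_trans _ _ _ h1 h2 := Set.Subset.trans h1 h2
  le_antisymm _ _ h1 h2 := Variety.ext' (Set.Subset.antisymm h1 h2)

/-- The variety generated by a class `K` of implication zroupoids: all the implication zroupoids
satisfying all the identities of `K`. -/
def generated (K : Set Alg) : Variety := ⟨Models (Ids K), _, rfl⟩

/-- The meet of two varieties is their intersection. -/
def meet (X Y : Variety) : Variety := ⟨X.mem ∩ Y.mem, by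
  obtain ⟨E, hE⟩ := X.isVariety
  obtain ⟨F, hF⟩ := Y.isVariety
  refine ⟨E ∪ F, ?_⟩
  rw [hE, hF]
  ext A
  constructor
  · rintro ⟨⟨h1, h2⟩, -, h3⟩
    exact ⟨h1, fun e he => he.elim (h2 e) (h3 e)⟩
  · rintro ⟨h1, h2⟩
    exact ⟨⟨h1, fun e he => h2 e (Or.inl he)⟩, h1, fun e he => h2 e (Or.inr he)⟩⟩

theorem generated_le {K : Set Alg} {X : Variety} (h : K ⊆ X.mem) : generated K ≤ X := by
  obtain ⟨E, hE⟩ := X.isVariety
  intro A hA
  rw [hE] at h ⊢
  exact ⟨hA.1, fun e he => hA.2 e fun B hB => (h hB).2 e he⟩

theorem Variety.isIZ (X : Variety) {A : Alg} (h : A ∈ X.mem) : IsIZ A := by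
  obtain ⟨E, hE⟩ := X.isVariety
  rw [hE] at h
  exact h.1

/-- The lattice of varieties of implication zroupoids: the meet is the intersection, the join of
`X` and `Y` is the variety generated by their union. -/
instance : Lattice Variety where
  sup X Y := generated (X.mem ∪ Y.mem)
  inf X Y := meet X Y
  le_sup_left X _ A hA := ⟨X.isIZ hA, fun _ he => he A (Or.inl hA)⟩
  le_sup_right _ Y A hA := ⟨Y.isIZ hA, fun _ he => he A (Or.inr hA)⟩
  sup_le _ _ _ h1 h2 := generated_le (Set.union_subset h1 h2)
  inf_le_left _ _ _ h := h.1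
  inf_le_right _ _ _ h := h.2
  le_inf _ _ _ h1 h2 _ hA := ⟨h1 hA, h2 hA⟩

/-- `ZM`: the implication zroupoids satisfying `x → y ≈ 0`. -/
def ZM : Variety := ⟨Models {(.imp (.var 0) (.var 1), .zero)}, _, rfl⟩

/-- The implication zroupoids satisfying `x'' ≈ x`. -/
def I20 : Variety :=
  ⟨Models {(.imp (.imp (.var 0) .zero) .zero, .var 0)}, _, rfl⟩

end Q15IZ
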