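import Mathlib
import Pool.Agent.Q15.IZDefs

/-! Varieties of implication zroupoids not containing `ZM`. -/

namespace Q15IZ

section eqs
variable {A : Type*} (i : A → A → A) (o : A)

/-- In every implication zroupoid `x'''' = x''`. -/
theorem quad (ax1 : ∀ z x y, (i (i (i (i z o) x) (i (i y z) o)) o) = (i (i x y) z))
    (ax2 : (i (i o o) o) = o) (x : A) :
    (i (i (i (i x o) o) o) o) = (i (i x o) o) := by
  have e2 : ∀ x0 , (i (i o (i (i x0 o) o)) o) = (i (i o x0) o) := fun x0 => ((congrArg (fun Z => (i (i Z (i (i x0 o) o)) o)) (ax2).symm)).trans (ax1 o o x0)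
  have e3 : ∀ x0 , (i (i (i (i o o) x0) o) o) = (i (i x0 o) o) := fun x0 => ((congrArg (fun Z => (i (i (i (i o o) x0) Z) o)) (ax2).symm)).trans (ax1 o x0 o)
  have e4 : ∀ x0 , (i (i (i (i o o) x0) (i o o)) o) = (i (i x0 (i o o)) o) := fun x0 => ((congrArg (fun Z => (i (i (i (i o o) x0) (i Z o)) o)) (ax2).symm)).trans (ax1 o x0 (i o o))
  have e6 : ∀ x0 x1 , (i (i (i o x0) (i (i x1 (i o o)) o)) o) = (i (i x0 x1) (i o o)) := fun x0 x1 => ((congrArg (fun Z => (i (i (i Z x0) (i (i x1 (i o o)) o)) o)) (ax2).symm)).trans (ax1 (i o o) x0 x1)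
  have e7 : ∀ x0 , (i (i (i (i x0 (i o o)) o) o) o) = (i (i (i o x0) (i o o)) o) := fun x0 => ((e3 (i (i x0 (i o o)) o)).symm).trans (congrArg (fun Z => (i Z o)) (e6 o x0))
  have e8 : (i (i (i o (i o o)) (i o o)) o) = o := ((((e7 (i o o)).symm).trans (congrArg (fun Z => (i Z o)) (e3 (i o o)))).trans (e3 o)).trans (ax2)
  have e9 : ∀ x0 , (i (i x0 (i o (i o o))) (i o o)) = (i (i (i o x0) o) o) := fun x0 => ((e6 x0 (i o (i o o))).symm).trans (congrArg (fun Z => (i (i (i o x0) Z) o)) (e8))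
  have e12 : ∀ x0 x1 , (i (i x0 (i (i o o) x1)) o) = (i (i x0 x1) o) := fun x0 x1 => (((ax1 o x0 (i (i o o) x1)).symm).trans (congrArg (fun Z => (i (i (i (i o o) x0) Z) o)) (e3 x1))).trans (ax1 o x0 x1)
  have e13 : ∀ x0 , (i (i o (i (i (i o o) x0) o)) o) = (i (i o (i x0 o)) o) := fun x0 => (((e2 (i (i (i o o) x0) o)).symm).trans (congrArg (fun Z => (i (i o (i Z o)) o)) (e3 x0))).trans (e2 (i x0 o))
  have e15 : (i (i (i o o) (i o o)) o) = o := ((((e7 o).symm).trans (congrArg (fun Z => (i Z o)) (e9 (i o o)).symm)).trans (e4 (i o (i o o)))).trans (e8)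
  have e16 : ∀ x0 , (i (i x0 (i o o)) (i o o)) = (i (i (i o x0) o) o) := fun x0 => ((e6 x0 (i o o)).symm).trans (congrArg (fun Z => (i (i (i o x0) Z) o)) (e15))
  have e18 : ∀ x0 , (i (i (i o (i x0 (i o o))) o) o) = (i (i (i (i o x0) o) o) (i o o)) := fun x0 => ((e16 (i x0 (i o o))).symm).trans (congrArg (fun Z => (i Z (i o o))) (e16 x0))
  have e24 : ∀ x0 , (i (i o (i (i o x0) (i o o))) o) = (i (i o (i x0 (i o o))) o) := fun x0 => (((congrArg (fun Z => (i (i o Z) o)) (e6 o x0).symm)).trans (e13 (i (i x0 (i o o)) o))).trans (e2 (i x0 (i o o)))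
  have e25 : (i (i o (i o (i o o))) o) = (i (i o (i o o)) o) := ((e24 o).symm).trans (e12 o (i o o))
  have e26 : (i (i (i o (i o o)) o) o) = (i (i o o) (i o o)) := (((congrArg (fun Z => (i Z o)) (e25).symm)).trans (e18 o)).trans (congrArg (fun Z => (i (i Z o) (i o o))) (ax2))
  have e33 : ∀ x0 , (i (i x0 (i o (i o o))) o) = (i (i x0 (i o o)) o) := fun x0 => ((((ax1 o x0 (i o (i o o))).symm).trans (congrArg (fun Z => (i (i (i (i o o) x0) Z) o)) (e26))).trans (e12 (i (i o o) x0) (i o o))).trans (e4 x0)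
  have e34 : (i (i o o) (i o o)) = (i o o) := (((((e26).symm).trans (e3 (i o (i o o))).symm).trans (congrArg (fun Z => (i Z o)) (e33 (i o o)))).trans (e3 (i o o))).trans (congrArg (fun Z => (i Z o)) (ax2))
  have e36 : ∀ x0 , (i (i (i o o) (i (i x0 o) o)) o) = (i (i (i o o) x0) o) := fun x0 => ((congrArg (fun Z => (i (i Z (i (i x0 o) o)) o)) (e34).symm)).trans (ax1 o (i o o) x0)
  exact (((e3 (i (i x o) o)).symm).trans (congrArg (fun Z => (i Z o)) (e36 x))).trans (e3 x)

end eqs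

theorem dn_of_surj {A : Alg} (hA : IsIZ A)
    (hs : ∀ a : A.carrier, ∃ p q, a = A.imp p q) (a : A.carrier) :
    A.imp (A.imp a A.zero) A.zero = a := by
  obtain ⟨p, q, hpq⟩ := hs a
  obtain ⟨p1, p2, hp⟩ := hs p
  have h1 : ∀ a : A.carrier, ∃ b, a = A.imp b A.zero := by
    intro a
    obtain ⟨p, q, hpq⟩ := hs a
    obtain ⟨p1, p2, hp⟩ := hs p
    exact ⟨_, by rw [hpq, hp]; exact hA.1 p1 p2 q⟩
  obtain ⟨b, hb⟩ := h1 a
  obtain ⟨c, hc⟩ := h1 b
  rw [hb, hc]
  exact quad A.imp A.zero (fun z x y => (hA.1 x y z).symm) hA.2 c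

/-- Is the term a variable? -/
def Tm.isVar : Tm → Prop
  | .var _ => True
  | _ => False

/-- substitution of every variable by the variable `0`. -/
def Tm.coll : Tm → Tm
  | .var _ => .var 0
  | .zero => .zero
  | .imp s t => .imp s.coll t.coll

theorem eval_const (A : Alg) (a : A.carrier) (t : Tm) :
    t.eval A (fun _ => a) = t.coll.eval A (fun _ => a) := by
  induction t with
  | var n => rfl
  | zero => rfl
  | imp s t ihs iht => simp only [Tm.eval, Tm.coll, ihs, iht]

theorem zm_eval {A : Alg} (h : ∀ x y : A.carrier, A.imp x y = A.zero) (v : ℕ → A.carrier)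
    {t : Tm} (ht : ¬ t.isVar) : t.eval A v = A.zero := by
  cases t with
  | var n => exact absurd trivial ht
  | zero => rfl
  | imp s t => exact h _ _

theorem mem_ZM {A : Alg} : A ∈ ZM.mem ↔ IsIZ A ∧ ∀ x y : A.carrier, A.imp x y = A.zero := by
  constructor
  · rintro ⟨h1, h2⟩
    refine ⟨h1, fun x y => ?_⟩
    exact h2 _ rfl fun n => if n = 0 then x else y
  · rintro ⟨h1, h2⟩
    refine ⟨h1, ?_⟩
    rintro e rfl v
    exact h2 _ _

theorem mem_I20 {A : Alg} : A ∈ I20.mem ↔
    IsIZ A ∧ ∀ x : A.carrier, A.imp (A.imp x A.zero) A.zero = x := by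
  constructor
  · rintro ⟨h1, h2⟩
    exact ⟨h1, fun x => h2 _ rfl fun _ => x⟩
  · rintro ⟨h1, h2⟩
    refine ⟨h1, ?_⟩
    rintro e rfl v
    exact h2 _

/-- If a variety satisfies an identity failing in `ZM`, then `x'' = x` holds in it. -/
theorem dn_of_identity {A : Alg} (hA : IsIZ A) {s t : Tm} (h : Sat A (s, t))
    (hs : s.isVar) (hst : ¬ (s.isVar ∧ t.isVar ∧ s = t)) :
    ∀ a : A.carrier, A.imp (A.imp a A.zero) A.zero = a := by
  cases s with
  | zero => exact absurd hs id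
  | imp s1 s2 => exact absurd hs id
  | var n =>
    cases t with
    | var m =>
      have hnm : n ≠ m := by
        rintro rfl
        exact hst ⟨trivial, trivial, rfl⟩
      intro a
      have h1 := h fun k => if k = n then A.imp (A.imp a A.zero) A.zero else a
      simp only [Tm.eval, if_true] at h1
      rw [if_neg (Ne.symm hnm)] at h1
      exact h1
    | zero =>
      intro a
      have h1 : ∀ a : A.carrier, a = A.zero := fun a => h fun _ => a
      rw [h1 a]; exact h1 _
    | imp p q =>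
      apply dn_of_surj hA
      intro a
      exact ⟨_, _, h fun _ => a⟩

/-- `ZM ⊄ X` if and only if `X` satisfies `x'' ≈ x`. -/
theorem not_zm_le_iff (X : Variety) : ¬ ZM ≤ X ↔ X ≤ I20 := by
  constructor
  · intro h
    obtain ⟨E, hE⟩ := X.isVariety
    obtain ⟨B, hB, hBX⟩ := Set.not_subset.mp h
    rw [mem_ZM] at hB
    have : ∃ e ∈ E, ¬ Sat B e := by
      by_contra hcon
      push Not at hcon
      exact hBX (by rw [hE]; exact ⟨hB.1, hcon⟩)
    obtain ⟨⟨s, t⟩, he, hf⟩ := this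
    intro A hA
    rw [hE] at hA
    rw [mem_I20]
    refine ⟨hA.1, ?_⟩
    have hst := hA.2 _ he
    by_cases hs : s.isVar
    · apply dn_of_identity hA.1 hst hs
      rintro ⟨-, -, rfl⟩
      exact hf fun v => rfl
    · by_cases ht : t.isVar
      · apply dn_of_identity hA.1 (s := t) (t := s) (fun v => (hst v).symm) ht
        rintro ⟨-, h, -⟩
        exact hs h
      · exfalso
        apply hf
        intro v
        change s.eval B v = t.eval B v
        rw [zm_eval hB.2 v hs, zm_eval hB.2 v ht]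
  · intro h h2
    let B : Alg := ⟨Bool, fun _ _ => false, false⟩
    have hB : B ∈ ZM.mem := by
      rw [mem_ZM]
      exact ⟨⟨fun _ _ _ => rfl, rfl⟩, fun _ _ => rfl⟩
    have := (mem_I20.mp (h (h2 hB))).2 true
    exact absurd this (by decide)

end Q15IZ
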