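import Mathlib
import Pool.Agent.Q15.IZDefs
import Pool.Agent.Q15.IZMain

/-! The dual of the partition lattice of a finite set embeds into the lattice of varieties of
implication zroupoids. -/

namespace Q15IZ

/-- right nested terms -/
def nest : List ℕ → Tm
  | [] => .zero
  | [n] => .var n
  | n :: m :: l => .imp (.var n) (nest (m :: l))

lemma nest_cons (n : ℕ) {l : List ℕ} (hl : l ≠ []) : nest (n :: l) = .imp (.var n) (nest l) := by
  cases l with
  | nil => exact absurd rfl hl
  | cons m l => rfl

lemma eval_nest_map (A : Alg) (v : ℕ → A.carrier) (f : ℕ → ℕ) (l : List ℕ) :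
    (nest (l.map f)).eval A v = (nest l).eval A (fun n => v (f n)) := by
  induction l with
  | nil => rfl
  | cons n l ih =>
    cases l with
    | nil => rfl
    | cons m l =>
      rw [List.map_cons, nest_cons _ (by simp), nest_cons _ (by simp), Tm.eval, Tm.eval, ih]
      rfl

/-- the word of a term, `none` for zero. -/
def nf : Tm → Option (List ℕ)
  | .var n => some [n]
  | .zero => none
  | .imp s t => match nf s, nf t with
    | some [a], some (b :: l) => some (a :: b :: l)
    | _, _ => none

/-- term of an optional word -/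
def nestO : Option (List ℕ) → Tm
  | none => .zero
  | some l => nest l

lemma nf_ne_nil (t : Tm) : nf t ≠ some [] := by
  cases t with
  | var n => simp [nf]
  | zero => simp [nf]
  | imp s t =>
    rw [nf]
    split <;> simp

lemma nf_single {t : Tm} {a : ℕ} (h : nf t = some [a]) : t = .var a := by
  cases t with
  | var n =>
    rw [nf] at h
    simp at h
    rw [h]
  | zero => simp [nf] at h
  | imp s t =>
    rw [nf] at h
    split at h <;> simp at h

lemma isIZ_of {A : Alg} (h1 : ∀ x, A.imp x A.zero = A.zero)
    (h2 : ∀ x y z, A.imp (A.imp x y) z = A.zero) : IsIZ A :=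
  ⟨fun x y z => by rw [h2, h1], h1 _⟩

lemma eval_nf {A : Alg} (h1 : ∀ x, A.imp x A.zero = A.zero)
    (h2 : ∀ x y z, A.imp (A.imp x y) z = A.zero) (v : ℕ → A.carrier) (t : Tm) :
    t.eval A v = (nestO (nf t)).eval A v := by
  have h3 : ∀ x, A.imp A.zero x = A.zero := by
    intro x
    have := h2 A.zero A.zero x
    rwa [h1] at this
  induction t with
  | var n => rfl
  | zero => rfl
  | imp s t ihs iht =>
    rw [Tm.eval]
    cases hs : nf s with
    | none =>
      rw [ihs, hs]
      have : nf (.imp s t) = none := by rw [nf, hs]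
      rw [this]
      exact h3 _
    | some ls =>
      cases ls with
      | nil => exact absurd hs (nf_ne_nil s)
      | cons a ls =>
        cases ls with
        | nil =>
          have hs' := nf_single hs
          subst hs'
          cases ht : nf t with
          | none =>
            rw [iht, ht]
            have : nf (.imp (.var a) t) = none := by rw [nf, hs, ht]
            rw [this]
            exact h1 _
          | some lt =>
            cases lt with
            | nil => exact absurd ht (nf_ne_nil t)
            | cons b l =>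
              have : nf (.imp (.var a) t) = some (a :: b :: l) := by rw [nf, hs, ht]
              rw [this, iht, ht]
              rfl
        | cons a' ls =>
          have : nf (.imp s t) = none := by rw [nf, hs]
          rw [this, ihs, hs]
          exact h2 _ _ _

variable {m : ℕ}

/-- the pattern words `a^{i+1} b a^{m-i}` -/
def pat (i : Fin m) (a b : ℕ) : List ℕ :=
  List.ofFn fun k : Fin (m + 2) => if (k : ℕ) = i + 1 then b else a

lemma pat_length (i : Fin m) (a b : ℕ) : (pat i a b).length = m + 2 := by simp [pat]

lemma pat_inj {i j : Fin m} {a b a' b' : ℕ} (hab : a ≠ b)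
    (h : pat i a b = pat j a' b') : i = j ∧ a = a' ∧ b = b' := by
  have h1 := List.ofFn_injective h
  have h0 := congrFun h1 ⟨0, by omega⟩
  have hi := congrFun h1 ⟨i + 1, by omega⟩
  simp at h0 hi
  subst h0
  by_cases hij : (i : ℕ) = j
  · rw [if_pos hij] at hi
    exact ⟨Fin.ext hij, rfl, hi⟩
  · rw [if_neg hij] at hi
    exact absurd hi.symm hab

lemma pat_map (i : Fin m) (a b : ℕ) :
    pat i a b = (pat i 0 1).map (fun n => if n = 0 then a else b) := by
  unfold pat
  rw [List.map_ofFn]
  congr 1
  funext k
  simp only [Function.comp]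
  by_cases h : (k : ℕ) = i + 1 <;> simp [h]

lemma pat_const (i : Fin m) (a : ℕ) : pat i a a = List.replicate (m + 2) a := by
  unfold pat
  simp only [ite_self, List.ofFn_const]

lemma pat_ne_const {i : Fin m} {a b : ℕ} (hab : a ≠ b) (c : ℕ) :
    pat i a b ≠ List.replicate (m + 2) c := by
  rw [← pat_const i c]
  intro h
  obtain ⟨-, h1, h2⟩ := pat_inj hab h
  exact hab (h1.trans h2.symm)

lemma pat_cons (i : Fin m) (a b : ℕ) : ∃ c d l, pat i a b = a :: c :: d :: l := by
  have hm : 0 < m := i.pos
  obtain ⟨k, rfl⟩ : ∃ k, m = k + 1 := ⟨m - 1, by omega⟩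
  unfold pat
  rw [List.ofFn_succ, List.ofFn_succ, List.ofFn_succ]
  exact ⟨_, _, _, rfl⟩

open Classical in
/-- Normal form of words of the free algebra; `θ` is an equivalence relation on `Fin m`. -/
noncomputable def nrm (θ : Setoid (Fin m)) (l : List ℕ) : Option (List ℕ) :=
  if l.length < m + 2 then some l
  else if l.length = m + 2 then
    if ∃ c, l = List.replicate (m + 2) c then none
    else if h : ∃ p : Fin m × ℕ × ℕ, p.2.1 ≠ p.2.2 ∧ l = pat p.1 p.2.1 p.2.2 then
      some (pat (Quotient.out (Quotient.mk θ h.choose.1)) h.choose.2.1 h.choose.2.2)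
    else some l
  else none

lemma nrm_short (θ : Setoid (Fin m)) {l : List ℕ} (h : l.length < m + 2) :
    nrm θ l = some l := by
  unfold nrm; rw [if_pos h]

lemma nrm_long (θ : Setoid (Fin m)) {l : List ℕ} (h : m + 2 < l.length) :
    nrm θ l = none := by
  unfold nrm; rw [if_neg (by omega), if_neg (by omega)]

lemma nrm_const (θ : Setoid (Fin m)) (c : ℕ) :
    nrm θ (List.replicate (m + 2) c) = none := by
  unfold nrm
  rw [if_neg (by simp), if_pos (by simp), if_pos ⟨c, rfl⟩]

lemma nrm_pat (θ : Setoid (Fin m)) (i : Fin m) {a b : ℕ} (hab : a ≠ b) :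
    nrm θ (pat i a b) = some (pat (Quotient.out (Quotient.mk θ i)) a b) := by
  have h : ∃ p : Fin m × ℕ × ℕ, p.2.1 ≠ p.2.2 ∧ pat i a b = pat p.1 p.2.1 p.2.2 :=
    ⟨(i, a, b), hab, rfl⟩
  unfold nrm
  rw [if_neg (by rw [pat_length]; omega), if_pos (pat_length i a b), if_neg, dif_pos h]
  · obtain ⟨h1, h2⟩ := h.choose_spec
    obtain ⟨e1, e2, e3⟩ := pat_inj hab h2
    rw [← e1, ← e2, ← e3]
  · rintro ⟨c, hc⟩
    exact pat_ne_const hab c hc

lemma nrm_other (θ : Setoid (Fin m)) {l : List ℕ} (hl : l.length = m + 2)
    (h1 : ∀ c, l ≠ List.replicate (m + 2) c)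
    (h2 : ∀ (i : Fin m) (a b : ℕ), a ≠ b → l ≠ pat i a b) : nrm θ l = some l := by
  unfold nrm
  rw [if_neg (by omega), if_pos hl, if_neg (by push Not; exact h1), dif_neg]
  rintro ⟨p, hp, e⟩
  exact h2 _ _ _ hp e

/-- trichotomy -/
lemma cases_word (l : List ℕ) : l.length < m + 2 ∨ m + 2 < l.length ∨
    (∃ c, l = List.replicate (m + 2) c) ∨
    (∃ (i : Fin m) (a b : ℕ), a ≠ b ∧ l = pat i a b) ∨
    (l.length = m + 2 ∧ (∀ c, l ≠ List.replicate (m + 2) c) ∧
      ∀ (i : Fin m) (a b : ℕ), a ≠ b → l ≠ pat i a b) := by
  rcases lt_trichotomy l.length (m + 2) with h | h | h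
  · exact Or.inl h
  · right; right
    by_cases h1 : ∃ c, l = List.replicate (m + 2) c
    · exact Or.inl h1
    · right
      by_cases h2 : ∃ (i : Fin m) (a b : ℕ), a ≠ b ∧ l = pat i a b
      · exact Or.inl h2
      · right
        push Not at h1 h2
        exact ⟨h, h1, h2⟩
  · exact Or.inr (Or.inl h)

lemma nrm_length (θ : Setoid (Fin m)) (l l' : List ℕ) (h : nrm θ l = some l') :
    l'.length = l.length := by
  rcases cases_word (m := m) l with h1 | h1 | ⟨c, rfl⟩ | ⟨i, a, b, hab, rfl⟩ | ⟨h1, h2, h3⟩
  · rw [nrm_short θ h1] at h; cases h; rfl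
  · rw [nrm_long θ h1] at h; cases h
  · rw [nrm_const] at h; cases h
  · rw [nrm_pat θ i hab] at h
    cases h
    rw [pat_length, pat_length]
  · rw [nrm_other θ h1 h2 h3] at h; cases h; rfl

/-- The free algebra of the variety attached to `θ`. -/
noncomputable def Fr (θ : Setoid (Fin m)) : Alg where
  carrier := Option (List ℕ)
  imp x y := match x, y with
    | some [a], some (b :: l) => nrm θ (a :: b :: l)
    | _, _ => none
  zero := none

lemma Fr_imp_none (θ : Setoid (Fin m)) (x : Option (List ℕ)) :
    (Fr θ).imp x (Fr θ).zero = (Fr θ).zero := by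
  change (Fr θ).imp x none = none
  rcases x with _ | _ | ⟨a, _ | ⟨b, l⟩⟩ <;> rfl

lemma Fr_none_imp (θ : Setoid (Fin m)) (x : Option (List ℕ)) :
    (Fr θ).imp none x = none := rfl

lemma Fr_ne_single (θ : Setoid (Fin m)) (x y : Option (List ℕ)) (a : ℕ) :
    (Fr θ).imp x y ≠ some [a] := by
  rcases x with _ | _ | ⟨c, _ | ⟨b, l⟩⟩
  · intro h; cases h
  · intro h; cases h
  · rcases y with _ | _ | ⟨d, l⟩
    · intro h; cases h
    · intro h; cases h
    · intro h
      change nrm θ (c :: d :: l) = some [a] at h
      have := nrm_length θ _ _ h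
      simp at this
  · intro h; cases h

lemma Fr_not_single (θ : Setoid (Fin m)) {x : Option (List ℕ)} (hx : ∀ a, x ≠ some [a])
    (y : Option (List ℕ)) : (Fr θ).imp x y = none := by
  rcases x with _ | _ | ⟨c, _ | ⟨b, l⟩⟩
  · rfl
  · rfl
  · exact absurd rfl (hx c)
  · rfl

lemma Fr_imp_imp (θ : Setoid (Fin m)) (x y z : Option (List ℕ)) :
    (Fr θ).imp ((Fr θ).imp x y) z = (Fr θ).zero :=
  Fr_not_single θ (Fr_ne_single θ x y) z

/-- Evaluation of a nested term when the last element is a word and all the others are
letters. -/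
lemma Fr_eval_letters (θ : Setoid (Fin m)) (v : ℕ → Option (List ℕ)) (f : ℕ → ℕ) (l : List ℕ)
    (hl : l ≠ []) (hv : ∀ n ∈ l, v n = some [f n]) :
    (nest l).eval (Fr θ) v = nrm θ (l.map f) := by
  induction l with
  | nil => exact absurd rfl hl
  | cons n l ih =>
    cases l with
    | nil =>
      rw [nrm_short θ (by simp)]
      exact hv n (by simp)
    | cons k l =>
      rw [nest_cons n (by simp), Tm.eval, ih (by simp) fun j hj => hv j (by simp [hj])]
      have h1 : Tm.eval (Fr θ) v (.var n) = some [f n] := hv n (by simp)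
      rw [h1]
      rw [List.map_cons (l := k :: l)]
      rcases lt_or_ge ((k :: l).map f).length (m + 2) with h | h
      · rw [nrm_short θ h]
        rfl
      · rw [nrm_long θ (l := f n :: (k :: l).map f) (by simp at h ⊢; omega)]
        cases e : nrm θ ((k :: l).map f) with
        | none => rfl
        | some l' =>
          have h2 := nrm_length θ _ _ e
          cases l' with
          | nil => simp at h2
          | cons c l' =>
            change nrm θ (f n :: c :: l') = none
            apply nrm_long
            simp at h h2 ⊢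
            omega

/-- If a letter in a non-final position is not a generator, the value is zero. -/
lemma Fr_eval_none (θ : Setoid (Fin m)) (v : ℕ → Option (List ℕ)) (n : ℕ)
    (hn : ∀ a, v n ≠ some [a]) (l1 l2 : List ℕ) (h2 : l2 ≠ []) :
    (nest (l1 ++ n :: l2)).eval (Fr θ) v = none := by
  induction l1 with
  | nil =>
    rw [List.nil_append, nest_cons n h2, Tm.eval]
    exact Fr_not_single θ hn _
  | cons k l ih =>
    rw [List.cons_append, nest_cons k (by simp), Tm.eval, ih]
    exact Fr_imp_none θ _

/-- A word of at least `m + 3` letters has value zero. -/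
lemma Fr_eval_long (θ : Setoid (Fin m)) (v : ℕ → Option (List ℕ)) (l : List ℕ)
    (hl : m + 2 < l.length) : (nest l).eval (Fr θ) v = none := by
  -- every value of a nested word is zero or a word at least as long as the nested word
  have key : ∀ (l : List ℕ) (w : List ℕ), (nest l).eval (Fr θ) v = some w → w ≠ [] →
      l.length ≤ w.length := by
    intro l
    induction l with
    | nil => intro w h hw; simp
    | cons n l ih =>
      intro w h hw
      cases l with
      | nil =>
        cases w with
        | nil => exact absurd rfl hw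
        | cons a w => simp
      | cons k l =>
        rw [nest_cons n (by simp), Tm.eval] at h
        cases e1 : Tm.eval (Fr θ) v (.var n) with
        | none => rw [e1] at h; cases h
        | some u =>
          rw [e1] at h
          cases e2 : (nest (k :: l)).eval (Fr θ) v with
          | none =>
            rw [e2] at h
            rw [show (Fr θ).imp (some u) none = none from Fr_imp_none θ _] at h
            cases h
          | some u' =>
            rw [e2] at h
            rcases u with _ | ⟨a, _ | ⟨b, u⟩⟩
            · cases h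
            · cases u' with
              | nil => cases h
              | cons c u' =>
                change nrm θ (a :: c :: u') = some w at h
                have h3 := nrm_length θ _ _ h
                have h4 := ih (c :: u') e2 (by simp)
                simp at h3 h4 ⊢
                omega
            · cases h
  cases l with
  | nil => simp at hl
  | cons n l =>
    cases l with
    | nil => simp at hl
    | cons k l =>
      rw [nest_cons n (by simp), Tm.eval]
      cases e2 : (nest (k :: l)).eval (Fr θ) v with
      | none => exact Fr_imp_none θ _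
      | some u' =>
        cases e1 : Tm.eval (Fr θ) v (.var n) with
        | none => rfl
        | some u =>
          rcases u with _ | ⟨a, _ | ⟨b, u⟩⟩
          · rfl
          · cases u' with
            | nil => rfl
            | cons c u' =>
              change nrm θ (a :: c :: u') = none
              apply nrm_long
              have h4 := key (k :: l) (c :: u') e2 (by simp)
              simp at h4 hl ⊢
              omega
          · rfl

/-- The identities of the variety attached to `θ`. -/
def idents (θ : Setoid (Fin m)) : Set (Tm × Tm) :=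
  {(.imp (.var 0) .zero, .zero), (.imp (.imp (.var 0) (.var 1)) (.var 2), .zero),
    (nest (List.range (m + 3)), .zero), (nest (List.replicate (m + 2) 0), .zero)} ∪
  {e | ∃ i j : Fin m, θ i j ∧ e = (nest (pat i 0 1), nest (pat j 0 1))}

/-- The variety attached to `θ`. -/
def X (θ : Setoid (Fin m)) : Variety := ⟨Models (idents θ), _, rfl⟩

lemma mem_X {θ : Setoid (Fin m)} {A : Alg} : A ∈ (X θ).mem ↔
    (∀ x, A.imp x A.zero = A.zero) ∧ (∀ x y z, A.imp (A.imp x y) z = A.zero) ∧
    (∀ v, (nest (List.range (m + 3))).eval A v = A.zero) ∧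
    (∀ v, (nest (List.replicate (m + 2) 0)).eval A v = A.zero) ∧
    (∀ i j : Fin m, θ i j → ∀ v, (nest (pat i 0 1)).eval A v = (nest (pat j 0 1)).eval A v) := by
  constructor
  · rintro ⟨-, h⟩
    refine ⟨fun x => h _ (Or.inl (Or.inl rfl)) fun _ => x, fun x y z => ?_,
      fun v => h _ (Or.inl (Or.inr (Or.inr (Or.inl rfl)))) v,
      fun v => h _ (Or.inl (Or.inr (Or.inr (Or.inr rfl)))) v,
      fun i j hij v => h _ (Or.inr ⟨i, j, hij, rfl⟩) v⟩
    exact h _ (Or.inl (Or.inr (Or.inl rfl))) fun n => if n = 0 then x else if n = 1 then y else z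
  · rintro ⟨h1, h2, h3, h4, h5⟩
    refine ⟨isIZ_of h1 h2, ?_⟩
    rintro e ((rfl | rfl | rfl | rfl) | ⟨i, j, hij, rfl⟩)
    · exact fun v => h1 _
    · exact fun v => h2 _ _ _
    · exact h3
    · exact h4
    · exact h5 i j hij

lemma eval_long {A : Alg} (h1 : ∀ x, A.imp x A.zero = A.zero)
    (h3 : ∀ v, (nest (List.range (m + 3))).eval A v = A.zero) (v : ℕ → A.carrier)
    (l : List ℕ) (hl : m + 2 < l.length) : (nest l).eval A v = A.zero := by
  induction l with
  | nil => simp at hl
  | cons n l ih =>
    rcases Nat.lt_or_ge (m + 2) l.length with h | h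
    · rw [nest_cons n (by rintro rfl; simp at h), Tm.eval, ih h, h1]
    · have hlen : (n :: l).length = m + 3 := by simp at hl ⊢; omega
      have e : n :: l = (List.range (m + 3)).map fun k => (n :: l).getD k 0 := by
        apply List.ext_getElem
        · simp only [List.length_map, List.length_range]; exact hlen
        · intro i h1 h2
          simp only [List.getElem_map, List.getElem_range]
          rw [List.getD_eq_getElem _ _ h1]
      rw [e, eval_nest_map]
      exact h3 _

lemma eval_const' {A : Alg} (h4 : ∀ v, (nest (List.replicate (m + 2) 0)).eval A v = A.zero)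
    (v : ℕ → A.carrier) (c : ℕ) :
    (nest (List.replicate (m + 2) c)).eval A v = A.zero := by
  have e : List.replicate (m + 2) c = (List.replicate (m + 2) 0).map fun _ => c := by simp
  rw [e, eval_nest_map]
  exact h4 _

lemma Fr_mem (θ : Setoid (Fin m)) : Fr θ ∈ (X θ).mem := by
  rw [mem_X]
  refine ⟨Fr_imp_none θ, Fr_imp_imp θ, ?_, ?_, ?_⟩
  · intro v
    exact Fr_eval_long θ v _ (by simp)
  · intro v
    by_cases h : ∃ a, v 0 = some [a]
    · obtain ⟨a, ha⟩ := h
      rw [Fr_eval_letters θ v (fun _ => a) _ (by simp) (by
        intro n hn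
        rw [List.eq_of_mem_replicate hn]
        exact ha)]
      rw [List.map_replicate, nrm_const]
      rfl
    · push Not at h
      exact Fr_eval_none θ v 0 h [] (List.replicate (m + 1) 0) (by simp)
  · intro i j hij v
    by_cases h0 : ∃ a, v 0 = some [a]
    · by_cases h1 : ∃ b, v 1 = some [b]
      · obtain ⟨a, ha⟩ := h0
        obtain ⟨b, hb⟩ := h1
        have key : ∀ i : Fin m, (nest (pat i 0 1)).eval (Fr θ) v = nrm θ (pat i a b) := by
          intro i
          rw [Fr_eval_letters θ v (fun n => if n = 0 then a else b) _ (by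
            intro h
            have := congrArg List.length h
            rw [pat_length] at this
            simp at this), ← pat_map]
          intro n hn
          unfold pat at hn
          rw [List.mem_ofFn] at hn
          obtain ⟨k, rfl⟩ := hn
          by_cases hk : (k : ℕ) = i + 1
          · simp [hk, hb]
          · simp [hk, ha]
        rw [key, key]
        by_cases hab : a = b
        · subst hab
          rw [pat_const, pat_const]
        · rw [nrm_pat θ i hab, nrm_pat θ j hab]
          have : Quotient.mk θ i = Quotient.mk θ j := Quotient.sound hij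
          rw [this]
      · push Not at h1
        have key : ∀ i : Fin m, (nest (pat i 0 1)).eval (Fr θ) v = none := by
          intro i
          have e : ∃ l1 l2, l2 ≠ [] ∧ pat i 0 1 = l1 ++ 1 :: l2 := by
            have hi : (i : ℕ) + 1 < (pat i 0 1).length := by rw [pat_length]; omega
            refine ⟨(pat i 0 1).take (i + 1), (pat i 0 1).drop (i + 2), ?_, ?_⟩
            · intro h
              have := congrArg List.length h
              rw [List.length_drop, pat_length] at this
              simp at this
              omega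
            · have h2 : (pat i 0 1)[(i : ℕ) + 1] = 1 := by
                simp only [pat, List.getElem_ofFn, if_true]
              conv_lhs => rw [← List.take_append_drop (i + 1) (pat i 0 1)]
              rw [List.drop_eq_getElem_cons hi, h2]
          obtain ⟨l1, l2, h2, e⟩ := e
          rw [e]
          exact Fr_eval_none θ v 1 h1 l1 l2 h2
        rw [key, key]
    · push Not at h0
      have key : ∀ i : Fin m, (nest (pat i 0 1)).eval (Fr θ) v = none := by
        intro i
        obtain ⟨c, d, l, e⟩ := pat_cons i 0 1
        rw [e]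
        exact Fr_eval_none θ v 0 h0 [] (c :: d :: l) (by simp)
      rw [key, key]

/-- value of the generic assignment -/
lemma Fr_generic (θ : Setoid (Fin m)) (l : List ℕ) (hl : l ≠ []) :
    (nest l).eval (Fr θ) (fun n => some [n]) = nrm θ l := by
  have := Fr_eval_letters θ (fun n => some [n]) id l hl fun n _ => rfl
  rw [List.map_id] at this
  exact this

/-- normal form of an optional word -/
noncomputable def nrmO (θ : Setoid (Fin m)) : Option (List ℕ) → Option (List ℕ)
  | none => none
  | some l => nrm θ l

lemma Fr_generic_term (θ : Setoid (Fin m)) (t : Tm) :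
    t.eval (Fr θ) (fun n => some [n]) = nrmO θ (nf t) := by
  rw [eval_nf (Fr_imp_none θ) (Fr_imp_imp θ)]
  cases h : nf t with
  | none => rfl
  | some l =>
    have : l ≠ [] := by
      rintro rfl
      exact nf_ne_nil t h
    exact Fr_generic θ l this

/-- zero words -/
def IsZ (m : ℕ) : Option (List ℕ) → Prop
  | none => True
  | some l => m + 2 < l.length ∨ ∃ c, l = List.replicate (m + 2) c

lemma isZ_iff (θ : Setoid (Fin m)) (u : Option (List ℕ)) : nrmO θ u = none ↔ IsZ m u := by
  cases u with
  | none => exact ⟨fun _ => trivial, fun _ => rfl⟩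
  | some l =>
    change nrm θ l = none ↔ _
    constructor
    · intro h
      rcases cases_word (m := m) l with h1 | h1 | ⟨c, rfl⟩ | ⟨i, a, b, hab, rfl⟩ | ⟨h1, h2, h3⟩
      · rw [nrm_short θ h1] at h; cases h
      · exact Or.inl h1
      · exact Or.inr ⟨c, rfl⟩
      · rw [nrm_pat θ i hab] at h; cases h
      · rw [nrm_other θ h1 h2 h3] at h; cases h
    · rintro (h | ⟨c, rfl⟩)
      · exact nrm_long θ h
      · exact nrm_const θ c

/-- what equality of normal forms means -/
lemma nrm_eq_cases (θ : Setoid (Fin m)) (l l' : List ℕ) (h : nrm θ l = nrm θ l')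
    (hne : nrm θ l ≠ none) :
    l = l' ∨ ∃ (i j : Fin m) (a b : ℕ), a ≠ b ∧ θ i j ∧ l = pat i a b ∧ l' = pat j a b := by
  have hlen : l.length = l'.length := by
    obtain ⟨w, hw⟩ := Option.ne_none_iff_exists'.mp hne
    rw [← nrm_length θ l w hw, ← nrm_length θ l' w (h ▸ hw)]
  rcases cases_word (m := m) l with h1 | h1 | ⟨c, rfl⟩ | ⟨i, a, b, hab, rfl⟩ | ⟨h1, h2, h3⟩
  · rw [nrm_short θ h1, nrm_short θ (hlen ▸ h1)] at h
    exact Or.inl (Option.some.inj h)
  · exact absurd (nrm_long θ h1) hne
  · exact absurd (nrm_const θ c) hne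
  · rcases cases_word (m := m) l' with g1 | g1 | ⟨c, rfl⟩ | ⟨j, a', b', hab', rfl⟩ | ⟨g1, g2, g3⟩
    · rw [pat_length] at hlen; omega
    · rw [pat_length] at hlen; omega
    · rw [h] at hne
      exact absurd (nrm_const θ c) hne
    · right
      rw [nrm_pat θ i hab, nrm_pat θ j hab'] at h
      obtain ⟨e1, rfl, rfl⟩ := pat_inj hab (Option.some.inj h)
      refine ⟨i, j, a, b, hab, ?_, rfl, rfl⟩
      have h1 : Quotient.mk θ i = Quotient.mk θ j := by
        rw [← Quotient.out_eq (Quotient.mk θ i), e1, Quotient.out_eq]
      exact Quotient.exact h1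
    · rw [nrm_pat θ i hab, nrm_other θ g1 g2 g3] at h
      exact absurd (Option.some.inj h).symm (g3 _ a b hab)
  · rcases cases_word (m := m) l' with g1 | g1 | ⟨c, rfl⟩ | ⟨j, a', b', hab', rfl⟩ | ⟨g1, g2, g3⟩
    · omega
    · omega
    · rw [h] at hne
      exact absurd (nrm_const θ c) hne
    · rw [nrm_other θ h1 h2 h3, nrm_pat θ j hab'] at h
      exact absurd (Option.some.inj h) (h3 _ a' b' hab')
    · rw [nrm_other θ h1 h2 h3, nrm_other θ g1 g2 g3] at h
      exact Or.inl (Option.some.inj h)

lemma X_antitone {θ φ : Setoid (Fin m)} (h : θ ≤ φ) : X φ ≤ X θ := by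
  intro A hA
  change A ∈ (X φ).mem at hA
  change A ∈ (X θ).mem
  rw [mem_X] at *
  exact ⟨hA.1, hA.2.1, hA.2.2.1, hA.2.2.2.1, fun i j hij => hA.2.2.2.2 i j (h hij)⟩

lemma le_of_X_le {θ φ : Setoid (Fin m)} (h : X φ ≤ X θ) : θ ≤ φ := by
  intro i j hij
  have h1 := (mem_X.mp (h (Fr_mem φ))).2.2.2.2 i j hij fun n => some [n]
  have hne : ∀ i : Fin m, pat i 0 1 ≠ [] := by
    intro i h
    have := congrArg List.length h
    rw [pat_length] at this
    simp at this
  rw [Fr_generic φ _ (hne i), Fr_generic φ _ (hne j), nrm_pat φ i (by norm_num),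
    nrm_pat φ j (by norm_num)] at h1
  have h2 := (pat_inj (by norm_num) (Option.some.inj h1)).1
  have h3 : Quotient.mk φ i = Quotient.mk φ j := by
    rw [← Quotient.out_eq (Quotient.mk φ i), h2, Quotient.out_eq]
  exact Quotient.exact h3

lemma X_injective : Function.Injective (X (m := m)) := fun _ _ h =>
  le_antisymm (le_of_X_le h.ge) (le_of_X_le h.le)

lemma X_sup (θ φ : Setoid (Fin m)) : X (θ ⊔ φ) = X θ ⊓ X φ := by
  apply le_antisymm
  · exact le_inf (X_antitone le_sup_left) (X_antitone le_sup_right)
  · rintro A ⟨hA1, hA2⟩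
    change A ∈ (X (θ ⊔ φ)).mem
    rw [mem_X] at *
    refine ⟨hA1.1, hA1.2.1, hA1.2.2.1, hA1.2.2.2.1, ?_⟩
    intro i j hij v
    have h' : Relation.EqvGen (fun a b => θ a b ∨ φ a b) i j := by
      rw [Setoid.sup_eq_eqvGen] at hij
      exact hij
    induction h' with
    | rel a b hab =>
      rcases hab with hab | hab
      · exact hA1.2.2.2.2 _ _ hab v
      · exact hA2.2.2.2.2 _ _ hab v
    | refl a => rfl
    | symm a b h' ih =>
      exact (ih (by rw [Setoid.sup_eq_eqvGen]; exact h')).symm
    | trans a b c h1 h2 ih1 ih2 =>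
      exact (ih1 (by rw [Setoid.sup_eq_eqvGen]; exact h1)).trans
        (ih2 (by rw [Setoid.sup_eq_eqvGen]; exact h2))

lemma X_inf (θ φ : Setoid (Fin m)) : X (θ ⊓ φ) = X θ ⊔ X φ := by
  apply le_antisymm
  · intro A hA
    have hA' := mem_X.mp (show A ∈ (X (θ ⊓ φ)).mem from hA)
    obtain ⟨h1, h2, h3, h4, h5⟩ := hA'
    refine ⟨isIZ_of h1 h2, ?_⟩
    rintro ⟨s, t⟩ he v
    change s.eval A v = t.eval A v
    have e1 : nrmO θ (nf s) = nrmO θ (nf t) := by
      have := he (Fr θ) (Or.inl (Fr_mem θ)) fun n => some [n]
      rwa [Fr_generic_term, Fr_generic_term] at this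
    have e2 : nrmO φ (nf s) = nrmO φ (nf t) := by
      have := he (Fr φ) (Or.inr (Fr_mem φ)) fun n => some [n]
      rwa [Fr_generic_term, Fr_generic_term] at this
    rw [eval_nf h1 h2 v s, eval_nf h1 h2 v t]
    by_cases hz : nrmO θ (nf s) = none
    · have zero : ∀ u, IsZ m u → (nestO u).eval A v = A.zero := by
        intro u hu
        cases u with
        | none => rfl
        | some l =>
          rcases hu with hu | ⟨c, rfl⟩
          · exact eval_long h1 h3 v l hu
          · exact eval_const' h4 v c
      rw [zero _ ((isZ_iff θ _).mp hz), zero _ ((isZ_iff θ _).mp (e1 ▸ hz))]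
    · cases hs : nf s with
      | none => rw [hs] at hz; exact absurd rfl hz
      | some l =>
        cases ht : nf t with
        | none => rw [e1, ht] at hz; exact absurd rfl hz
        | some l' =>
          rw [hs, ht] at e1 e2
          rw [hs] at hz
          have hz2 : nrmO φ (some l) ≠ none := by
            intro h
            exact hz ((isZ_iff θ _).mpr ((isZ_iff φ _).mp h))
          rcases nrm_eq_cases θ l l' e1 hz with rfl | ⟨i, j, a, b, hab, hij, rfl, rfl⟩
          · rfl
          · rcases nrm_eq_cases φ _ _ e2 hz2 with e | ⟨i', j', a', b', hab', hij', e3, e4⟩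
            · rw [e]
            · obtain ⟨rfl, rfl, rfl⟩ := pat_inj hab e3
              obtain ⟨rfl, -, -⟩ := pat_inj hab e4
              change (nest (pat i a b)).eval A v = (nest (pat j a b)).eval A v
              rw [pat_map i, pat_map j, eval_nest_map, eval_nest_map]
              exact h5 i j ⟨hij, hij'⟩ _
  · exact sup_le (X_antitone inf_le_left) (X_antitone inf_le_right)

end Q15IZ
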