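import Mathlib

/-! Strong Maltsev conditions and the local-global property. -/

namespace Q15LG

/-- Terms over the operation symbols `Fin m` of arities `ar`, in variables from `X`. -/
inductive Term {m : ℕ} (ar : Fin m → ℕ) (X : Type) : Type
  | var : X → Term ar X
  | app : (i : Fin m) → (Fin (ar i) → Term ar X) → Term ar X

/-- The value of a term, for an interpretation `I` of the symbols and values `x` of the
variables. -/
def Term.eval {m : ℕ} {ar : Fin m → ℕ} {X A : Type} (I : ∀ i, (Fin (ar i) → A) → A) (x : X → A) :
    Term ar X → A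
  | .var v => x v
  | .app i t => I i fun j => (t j).eval I x

/-- A strong Maltsev condition: finitely many operation symbols, finitely many variables and
a finite list of identities. -/
structure Cond where
  m : ℕ
  ar : Fin m → ℕ
  n : ℕ
  ids : List (Term ar (Fin n) × Term ar (Fin n))

/-- An algebra, given by its nonempty carrier and its clone of term operations: `clo n` is the set
of `n`-ary term operations. -/
structure Alg where
  carrier : Type
  nonempty : Nonempty carrier
  clo : ∀ n : ℕ, Set ((Fin n → carrier) → carrier)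
  proj : ∀ (n : ℕ) (i : Fin n), (fun x => x i) ∈ clo n
  comp : ∀ (n m : ℕ) (f : (Fin n → carrier) → carrier) (g : Fin n → (Fin m → carrier) → carrier),
    f ∈ clo n → (∀ j, g j ∈ clo m) → (fun x => f fun j => g j x) ∈ clo m

/-- The algebra `A` satisfies the condition `S` on the set `F` of tuples. -/
def SatOn (A : Alg) (S : Cond) (F : Set (Fin S.n → A.carrier)) : Prop :=
  ∃ I : ∀ i, (Fin (S.ar i) → A.carrier) → A.carrier, (∀ i, I i ∈ A.clo (S.ar i)) ∧
    ∀ p ∈ S.ids, ∀ x ∈ F, p.1.eval I x = p.2.eval I x

/-- The algebra `A` satisfies the condition `S`. -/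
def Models (A : Alg) (S : Cond) : Prop := SatOn A S Set.univ

/-- The `k`-local-global property. -/
def LocalGlobalAt (k : ℕ) (S : Cond) : Prop :=
  ∀ A : Alg, (k : Cardinal) ≤ Cardinal.mk (Fin S.n → A.carrier) →
    (∀ F : Finset (Fin S.n → A.carrier), F.card = k → SatOn A S F) →
    ∀ F : Finset (Fin S.n → A.carrier), SatOn A S F

/-- The local-global property. -/
def LocalGlobal (S : Cond) : Prop := ∃ k : ℕ, 1 ≤ k ∧ LocalGlobalAt k S

/-- Two conditions are equivalent if they hold in the same algebras. -/
def Equivalent (S₁ S₂ : Cond) : Prop := ∀ A : Alg, Models A S₁ ↔ Models A S₂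

/-- A term that is a variable or a symbol applied to variables. -/
def Term.IsLinear {m : ℕ} {ar : Fin m → ℕ} {X : Type} (t : Term ar X) : Prop :=
  (∃ v, t = .var v) ∨ ∃ (i : Fin m) (v : Fin (ar i) → X), t = .app i fun j => .var (v j)

/-- A linear condition. -/
def Cond.IsLinear (S : Cond) : Prop := ∀ p ∈ S.ids, p.1.IsLinear ∧ p.2.IsLinear

end Q15LG
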