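import Pool.Agent.Q15.LGDefs

/-! For linear conditions the local-global property is invariant under equivalence: transfer of
local satisfaction along implications. -/

namespace Q15LG

/-- Substitution. -/
def Term.subst {m : ℕ} {ar : Fin m → ℕ} {X Y : Type} (u : X → Term ar Y) : Term ar X → Term ar Y
  | .var v => u v
  | .app i t => .app i fun j => (t j).subst u

/-- The variable to which a term reduces when the symbols `i` with `φ i = some j` are the
projections to the `j`-th argument. -/
def side {m : ℕ} {ar : Fin m → ℕ} {X : Type} (φ : ∀ i, Option (Fin (ar i))) :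
    Term ar X → Option X
  | .var v => some v
  | .app i t => match φ i with
    | none => none
    | some j => side φ (t j)

/-- Evaluation with an interpretation that depends on the depth. -/
def leval {m : ℕ} {ar : Fin m → ℕ} {X A : Type} (φ : ∀ i, Option (Fin (ar i)))
    (T : ℕ → ∀ i, (Fin (ar i) → A) → A) (x : X → A) : Term ar X → ℕ → A
  | .var v, _ => x v
  | .app i t, l => match φ i with
    | none => T l i fun j => leval φ T x (t j) (l + 1)
    | some j => leval φ T x (t j) l

section
variable {m : ℕ} {ar : Fin m → ℕ} {X Y Z A : Type} (φ : ∀ i, Option (Fin (ar i)))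
  (T : ℕ → ∀ i, (Fin (ar i) → A) → A)

lemma side_app_none {i : Fin m} (h : φ i = none) (t : Fin (ar i) → Term ar X) :
    side φ (.app i t) = none := by
  simp only [side, h]

lemma side_app_some {i : Fin m} {j} (h : φ i = some j) (t : Fin (ar i) → Term ar X) :
    side φ (.app i t) = side φ (t j) := by
  simp only [side, h]

lemma leval_app_none (x : X → A) {i : Fin m} (h : φ i = none) (t : Fin (ar i) → Term ar X)
    (l : ℕ) : leval φ T x (.app i t) l = T l i fun j => leval φ T x (t j) (l + 1) := by
  simp only [leval, h]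

lemma leval_app_some (x : X → A) {i : Fin m} {j} (h : φ i = some j) (t : Fin (ar i) → Term ar X)
    (l : ℕ) : leval φ T x (.app i t) l = leval φ T x (t j) l := by
  simp only [leval, h]

lemma leval_side_some (x : Y → A) (u : X → Term ar Y) (w : X) (l : ℕ) (t : Term ar X)
    (h : side φ t = some w) : leval φ T x (t.subst u) l = leval φ T x (u w) l := by
  induction t with
  | var v =>
    simp only [side, Option.some.injEq] at h
    subst h; rfl
  | app i t ih =>
    rcases hi : φ i with _ | j
    · rw [side_app_none φ hi] at h; cases h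
    · rw [side_app_some φ hi] at h
      rw [Term.subst, leval_app_some φ T x hi]
      exact ih j h

lemma leval_side_none (x : Y → A) (u : X → Term ar Y) (l : ℕ) (t : Term ar X)
    (ht : t.IsLinear) (h : side φ t = none) :
    leval φ T x (t.subst u) l = t.eval (T l) (fun w => leval φ T x (u w) (l + 1)) := by
  rcases ht with ⟨v, rfl⟩ | ⟨i, v, rfl⟩
  · cases h
  · rcases hi : φ i with _ | j
    · rw [Term.subst, leval_app_none φ T x hi]
      rfl
    · rw [side_app_some φ hi] at h; cases h

lemma leval_subst_var (x : Y → A) (w : X → Y) (t : Term ar X) (l : ℕ) :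
    leval φ T x (t.subst fun v => .var (w v)) l = leval φ T (fun v => x (w v)) t l := by
  induction t generalizing l with
  | var v => rfl
  | app i t ih =>
    rcases hi : φ i with _ | j
    · rw [Term.subst, leval_app_none φ T x hi, leval_app_none φ T _ hi]
      congr 1
      funext j
      exact ih j _
    · rw [Term.subst, leval_app_some φ T x hi, leval_app_some φ T _ hi]
      exact ih j _

lemma leval_congr (T' : ℕ → ∀ i, (Fin (ar i) → A) → A) (x : X → A) (t : Term ar X) (l : ℕ)
    (h : ∀ l', l ≤ l' → T l' = T' l') : leval φ T x t l = leval φ T' x t l := by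
  induction t generalizing l with
  | var v => rfl
  | app i t ih =>
    rcases hi : φ i with _ | j
    · rw [leval_app_none φ T x hi, leval_app_none φ T' x hi, h l le_rfl]
      congr 1
      funext j
      exact ih j _ fun l' hl' => h l' (by omega)
    · rw [leval_app_some φ T x hi, leval_app_some φ T' x hi]
      exact ih j _ h

lemma subst_subst (u : X → Term ar Y) (w : Y → Term ar Z) (t : Term ar X) :
    (t.subst u).subst w = t.subst fun v => (u v).subst w := by
  induction t with
  | var v => rfl
  | app i t ih =>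
    simp only [Term.subst]
    congr 1
    funext j
    exact ih j

lemma eval_subst (I : ∀ i, (Fin (ar i) → A) → A) (x : Y → A) (u : X → Term ar Y) (t : Term ar X) :
    (t.subst u).eval I x = t.eval I fun v => (u v).eval I x := by
  induction t with
  | var v => rfl
  | app i t ih =>
    simp only [Term.subst, Term.eval]
    congr 1
    funext j
    exact ih j

end

lemma leval_clo {m : ℕ} {ar : Fin m → ℕ} (φ : ∀ i, Option (Fin (ar i))) (A : Alg)
    (T : ℕ → ∀ i, (Fin (ar i) → A.carrier) → A.carrier) (hT : ∀ l i, T l i ∈ A.clo (ar i))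
    {n : ℕ} (t : Term ar (Fin n)) (l : ℕ) : (fun y => leval φ T y t l) ∈ A.clo n := by
  induction t generalizing l with
  | var v => exact A.proj n v
  | app i t ih =>
    rcases hi : φ i with _ | j
    · have : (fun y => leval φ T y (.app i t) l) =
          fun y => T l i fun j => leval φ T y (t j) (l + 1) := by
        funext y; exact leval_app_none φ T y hi t l
      rw [this]
      exact A.comp _ _ _ _ (hT l i) fun j => ih j _
    · have : (fun y => leval φ T y (.app i t) l) = fun y => leval φ T y (t j) l := by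
        funext y; exact leval_app_some φ T y hi t l
      rw [this]
      exact ih j _

/-- The identities of `S` split in those between projections and those between proper terms. -/
def Split (S : Cond) (φ : ∀ i, Option (Fin (S.ar i))) : Prop :=
  ∀ p ∈ S.ids, (∃ v, side φ p.1 = some v ∧ side φ p.2 = some v) ∨
    (side φ p.1 = none ∧ side φ p.2 = none)

/-- Derivability. -/
inductive Der (S : Cond) (φ : ∀ i, Option (Fin (S.ar i))) : Term S.ar ℕ → Term S.ar ℕ → Prop
  | refl (t) : Der S φ t t
  | symm {s t} : Der S φ s t → Der S φ t s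
  | trans {s t r} : Der S φ s t → Der S φ t r → Der S φ s r
  | congr (i) (s t : Fin (S.ar i) → Term S.ar ℕ) : (∀ j, Der S φ (s j) (t j)) →
      Der S φ (.app i s) (.app i t)
  | coll (i j) (t : Fin (S.ar i) → Term S.ar ℕ) : φ i = some j → Der S φ (.app i t) (t j)
  | ax (p) (u : Fin S.n → Term S.ar ℕ) : p ∈ S.ids → Der S φ (p.1.subst u) (p.2.subst u)

/-- The interpretation `I` satisfies `S` at the tuple `y`. -/
def Good (S : Cond) {A : Type} (I : ∀ i, (Fin (S.ar i) → A) → A) (y : Fin S.n → A) : Prop :=
  ∀ p ∈ S.ids, p.1.eval I y = p.2.eval I y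

theorem leval_der (S : Cond) (hS : S.IsLinear) (φ : ∀ i, Option (Fin (S.ar i)))
    (hφ : Split S φ) {s t : Term S.ar ℕ} (h : Der S φ s t) :
    ∃ N : Set (ℕ × (Fin S.n → Term S.ar ℕ)), N.Finite ∧
      ∀ (A : Type) (T : ℕ → ∀ i, (Fin (S.ar i) → A) → A) (x : ℕ → A) (l : ℕ),
        (∀ q ∈ N, Good S (T (l + q.1)) fun v => leval φ T x (q.2 v) (l + q.1 + 1)) →
        leval φ T x s l = leval φ T x t l := by
  induction h with
  | refl t => exact ⟨∅, Set.finite_empty, fun A T x l _ => rfl⟩
  | symm _ ih =>
    obtain ⟨N, hN, h⟩ := ih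
    exact ⟨N, hN, fun A T x l hq => (h A T x l hq).symm⟩
  | trans _ _ ih1 ih2 =>
    obtain ⟨N1, hN1, h1⟩ := ih1
    obtain ⟨N2, hN2, h2⟩ := ih2
    exact ⟨N1 ∪ N2, hN1.union hN2, fun A T x l hq =>
      (h1 A T x l fun q hh => hq q (Or.inl hh)).trans (h2 A T x l fun q hh => hq q (Or.inr hh))⟩
  | congr i s t _ ih =>
    choose N hN h using ih
    rcases hi : φ i with _ | j
    · refine ⟨⋃ j, (fun q => (q.1 + 1, q.2)) '' N j,
        Set.finite_iUnion fun j => (hN j).image _, fun A T x l hq => ?_⟩
      rw [leval_app_none φ T x hi, leval_app_none φ T x hi]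
      congr 1
      funext j
      refine h j A T x (l + 1) fun q hh => ?_
      have := hq (q.1 + 1, q.2) (Set.mem_iUnion.mpr ⟨j, q, hh, rfl⟩)
      simp only at this
      rw [show l + (q.1 + 1) = l + 1 + q.1 by ring] at this
      exact this
    · refine ⟨N j, hN j, fun A T x l hq => ?_⟩
      rw [leval_app_some φ T x hi, leval_app_some φ T x hi]
      exact h j A T x l hq
  | coll i j t hi =>
    exact ⟨∅, Set.finite_empty, fun A T x l _ => leval_app_some φ T x hi t l⟩
  | ax p u hp =>
    refine ⟨{(0, u)}, Set.finite_singleton _, fun A T x l hq => ?_⟩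
    rcases hφ p hp with ⟨v, h1, h2⟩ | ⟨h1, h2⟩
    · rw [leval_side_some φ T x u v l _ h1, leval_side_some φ T x u v l _ h2]
    · rw [leval_side_none φ T x u l _ (hS p hp).1 h1, leval_side_none φ T x u l _ (hS p hp).2 h2]
      exact hq (0, u) rfl p hp

/-- The algebra of the term operations of an interpretation. -/
def ofInterp {m : ℕ} {ar : Fin m → ℕ} {A : Type} (hA : Nonempty A)
    (I : ∀ i, (Fin (ar i) → A) → A) : Alg where
  carrier := A
  nonempty := hA
  clo n := {f | ∃ s : Term ar (Fin n), f = fun x => s.eval I x}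
  proj n i := ⟨.var i, rfl⟩
  comp n m' f g hf hg := by
    obtain ⟨s, rfl⟩ := hf
    choose u hu using hg
    refine ⟨s.subst u, ?_⟩
    funext x
    rw [eval_subst]
    congr 1
    funext j
    rw [hu]

section Free
variable (S : Cond) (φ : ∀ i, Option (Fin (S.ar i)))

/-- The congruence of derivability. -/
def derSetoid : Setoid (Term S.ar ℕ) where
  r := Der S φ
  iseqv := ⟨Der.refl, Der.symm, Der.trans⟩

/-- The free algebra. -/
def FreeQ : Type := Quotient (derSetoid S φ)

/-- The class of a term. -/
def cls (t : Term S.ar ℕ) : FreeQ S φ := Quotient.mk (derSetoid S φ) t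

lemma cls_eq {s t : Term S.ar ℕ} : cls S φ s = cls S φ t ↔ Der S φ s t := by
  constructor
  · intro h
    exact Quotient.exact (s := derSetoid S φ) h
  · intro h
    exact Quotient.sound (s := derSetoid S φ) h

/-- A representative. -/
noncomputable def rep (q : FreeQ S φ) : Term S.ar ℕ := Quotient.out (s := derSetoid S φ) q

lemma cls_rep (q : FreeQ S φ) : cls S φ (rep S φ q) = q := Quotient.out_eq (s := derSetoid S φ) q

/-- The operations of the free algebra. -/
noncomputable def freeI (i : Fin S.m) (x : Fin (S.ar i) → FreeQ S φ) : FreeQ S φ :=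
  cls S φ (.app i fun j => rep S φ (x j))

lemma eval_free {X : Type} (u : X → Term S.ar ℕ) (t : Term S.ar X) :
    t.eval (freeI S φ) (fun v => cls S φ (u v)) = cls S φ (t.subst u) := by
  induction t with
  | var v => rfl
  | app i t ih =>
    simp only [Term.eval, Term.subst]
    rw [freeI, cls_eq]
    refine Der.congr _ _ _ fun j => ?_
    rw [← cls_eq, cls_rep, ih]

lemma free_models : Models (ofInterp ⟨cls S φ (.var 0)⟩ (freeI S φ)) S := by
  refine ⟨freeI S φ, fun i => ⟨.app i fun j => .var j, rfl⟩, fun p hp x _ => ?_⟩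
  have hx : x = fun v => cls S φ (rep S φ (x v)) := by
    funext v; exact (cls_rep S φ (x v)).symm
  rw [hx]
  refine (eval_free S φ _ _).trans (Eq.trans ?_ (eval_free S φ _ _).symm)
  rw [cls_eq]
  exact Der.ax p _ hp

end Free

/-- Translation of terms. -/
def trTerm {S S' : Cond} (s : ∀ g : Fin S'.m, Term S.ar (Fin (S'.ar g))) {X : Type} :
    Term S'.ar X → Term S.ar X
  | .var v => .var v
  | .app g t => (s g).subst fun j => trTerm s (t j)

lemma eval_trTerm {S S' : Cond} (s : ∀ g : Fin S'.m, Term S.ar (Fin (S'.ar g))) {X A : Type}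
    (I : ∀ i, (Fin (S.ar i) → A) → A) (x : X → A) (t : Term S'.ar X) :
    t.eval (fun g y => (s g).eval I y) x = (trTerm s t).eval I x := by
  induction t with
  | var v => rfl
  | app g t ih =>
    simp only [Term.eval, trTerm]
    rw [eval_subst]
    congr 1
    funext j
    exact ih j

theorem transfer (S S' : Cond) (hS : S.IsLinear) (hS' : S'.IsLinear)
    (φ : ∀ i, Option (Fin (S.ar i))) (hφ : Split S φ) (hmod : ∀ A, Models A S → Models A S') :
    ∃ c : ℕ, ∀ (A : Alg) (k' : ℕ),
      (∀ G : Set (Fin S.n → A.carrier), G.Finite → G.ncard ≤ c * k' → SatOn A S G) →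
      ∀ F : Set (Fin S'.n → A.carrier), F.Finite → F.ncard ≤ k' → SatOn A S' F := by
  obtain ⟨J, hJ, hJ'⟩ := hmod _ (free_models S φ)
  choose s hs using hJ
  have hder : ∀ p ∈ S'.ids, Der S φ ((trTerm s p.1).subst fun v => .var v.val)
      ((trTerm s p.2).subst fun v => .var v.val) := by
    intro p hp
    have h1 := hJ' p hp (fun v => cls S φ (.var v.val)) (Set.mem_univ _)
    have hJe : J = fun g y => (s g).eval (freeI S φ) y := by funext g; exact hs g
    rw [hJe] at h1
    have h2 := (eval_trTerm s (freeI S φ) (fun v => cls S φ (.var v.val)) p.1).symm.trans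
      (h1.trans (eval_trTerm s (freeI S φ) (fun v => cls S φ (.var v.val)) p.2))
    rw [eval_free, eval_free, cls_eq] at h2
    exact h2
  -- the finitely many instances
  have h3 : ∀ p : {p // p ∈ S'.ids}, ∃ N : Set (ℕ × (Fin S.n → Term S.ar ℕ)), N.Finite ∧
      ∀ (A : Type) (T : ℕ → ∀ i, (Fin (S.ar i) → A) → A) (x : ℕ → A) (l : ℕ),
        (∀ q ∈ N, Good S (T (l + q.1)) fun v => leval φ T x (q.2 v) (l + q.1 + 1)) →
        leval φ T x ((trTerm s p.1.1).subst fun v => .var v.val) l =
        leval φ T x ((trTerm s p.1.2).subst fun v => .var v.val) l :=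
    fun p => leval_der S hS φ hφ (hder p.1 p.2)
  choose N0 hN0 hN0' using h3
  have : Finite {p // p ∈ S'.ids} := S'.ids.finite_toSet
  let N : Set (ℕ × (Fin S.n → Term S.ar ℕ)) := ⋃ p, N0 p
  have hN : N.Finite := Set.finite_iUnion hN0
  obtain ⟨L, hL⟩ : ∃ L, ∀ q ∈ N, q.1 < L := by
    obtain ⟨L, hL⟩ := (hN.image Prod.fst).bddAbove
    exact ⟨L + 1, fun q hq => Nat.lt_succ_of_le (hL ⟨q, hq, rfl⟩)⟩
  refine ⟨N.ncard, fun A k' hA F hF hFk => ?_⟩
  obtain ⟨a0⟩ := A.nonempty
  let ext : (Fin S'.n → A.carrier) → ℕ → A.carrier := fun x v =>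
    if h : v < S'.n then x ⟨v, h⟩ else a0
  have key : ∀ d : ℕ, ∃ T : ℕ → ∀ i, (Fin (S.ar i) → A.carrier) → A.carrier,
      (∀ l i, T l i ∈ A.clo (S.ar i)) ∧ ∀ q ∈ N, L ≤ q.1 + d → ∀ x ∈ F,
        Good S (T q.1) fun v => leval φ T (ext x) (q.2 v) (q.1 + 1) := by
    intro d
    induction d with
    | zero =>
      obtain ⟨I, hI, -⟩ := hA ∅ Set.finite_empty (by simp)
      exact ⟨fun _ => I, fun _ => hI, fun q hq h => absurd (hL q hq) (by omega)⟩
    | succ d ih =>
      obtain ⟨T, hT, hT'⟩ := ih
      by_cases hd : d + 1 ≤ L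
      · obtain ⟨l0, hl0⟩ : ∃ l0, l0 + (d + 1) = L := ⟨L - (d + 1), by omega⟩
        let G : Set (Fin S.n → A.carrier) :=
          (fun r : (ℕ × (Fin S.n → Term S.ar ℕ)) × (Fin S'.n → A.carrier) =>
            fun v => leval φ T (ext r.2) (r.1.2 v) (r.1.1 + 1)) '' (N ×ˢ F)
        have hG : G.Finite := (hN.prod hF).image _
        have hGc : G.ncard ≤ N.ncard * k' := by
          refine (Set.ncard_image_le (hN.prod hF)).trans ?_
          rw [Set.ncard_prod]
          exact Nat.mul_le_mul_left _ hFk
        obtain ⟨I, hI, hI'⟩ := hA G hG hGc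
        refine ⟨Function.update T l0 I, fun l i => ?_, fun q hq hq' x hx => ?_⟩
        · by_cases hl : l = l0
          · subst hl; rw [Function.update_self]; exact hI i
          · rw [Function.update_of_ne hl]; exact hT l i
        · have e1 : ∀ v, leval φ (Function.update T l0 I) (ext x) (q.2 v) (q.1 + 1) =
              leval φ T (ext x) (q.2 v) (q.1 + 1) := fun v =>
            leval_congr φ _ _ _ _ _ fun l' hl' => Function.update_of_ne (by omega) _ _
          simp only [e1]
          by_cases hl : q.1 = l0
          · rw [hl, Function.update_self]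
            intro p hp
            have := hI' p hp _ (Set.mem_image_of_mem _ (Set.mk_mem_prod hq hx))
            simp only [hl] at this
            exact this
          · rw [Function.update_of_ne hl]
            exact hT' q hq (by omega) x hx
      · exact ⟨T, hT, fun q hq _ x hx => hT' q hq (by omega) x hx⟩
  obtain ⟨T, hT, hT'⟩ := key L
  refine ⟨fun g y => leval φ T y (s g) 0, fun g => leval_clo φ A T hT (s g) 0,
    fun p hp x hx => ?_⟩
  have h4 := hN0' ⟨p, hp⟩ A.carrier T (ext x) 0 (fun q hq => by
    rw [zero_add]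
    exact hT' q (Set.mem_iUnion.mpr ⟨_, hq⟩) (by omega) x hx)
  have h5 : ∀ t : Term S'.ar (Fin S'.n), t.IsLinear →
      t.eval (fun g y => leval φ T y (s g) 0) x =
      leval φ T (ext x) ((trTerm s t).subst fun v => .var v.val) 0 := by
    rintro t (⟨v, rfl⟩ | ⟨g, v, rfl⟩)
    · change x v = if h : v.val < S'.n then x ⟨v.val, h⟩ else a0
      rw [dif_pos v.2]
    · simp only [Term.eval, trTerm]
      rw [subst_subst]
      simp only [Term.subst]
      rw [leval_subst_var]
      congr 1
      funext j
      change x (v j) = if h : (v j).val < S'.n then x ⟨(v j).val, h⟩ else a0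
      rw [dif_pos (v j).2]
  rw [h5 _ (hS' p hp).1, h5 _ (hS' p hp).2]
  exact h4

end Q15LG
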