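import Pool.Agent.Q15.LGDefs

/-! A nonlinear pair of equivalent conditions, one local-global and the other not. -/

namespace Q15LG

/-- The identity `x ≈ y`. -/
def trivId : Term (m := 0) Fin.elim0 (Fin 2) × Term (m := 0) Fin.elim0 (Fin 2) := (.var 0, .var 1)

/-- The condition `x ≈ y`. -/
def triv : Cond where
  m := 0
  ar := Fin.elim0
  n := 2
  ids := [trivId]

/-- A unary, a quaternary and a binary symbol. -/
def far : Fin 3 → ℕ := ![1, 4, 2]

/-- `α(u)`. -/
def al {X : Type} (u : Term far X) : Term far X := .app 0 ![u]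

/-- `d(u,v,w,z)`. -/
def dd {X : Type} (u v w z : Term far X) : Term far X := .app 1 ![u, v, w, z]

/-- `t(u,v)`. -/
def tt {X : Type} (u v : Term far X) : Term far X := .app 2 ![u, v]

/-- The identities `ααx ≈ x`, `d(x,x,y,z) ≈ y`, `d(x,αx,y,z) ≈ z`, `t(x,y) ≈ t(y,x)`,
`αt(x,y) ≈ t(αx,αy)`. -/
def nonlIds : List (Term far (Fin 3) × Term far (Fin 3)) :=
  [(al (al (.var 0)), .var 0), (dd (.var 0) (.var 0) (.var 1) (.var 2), .var 1),
    (dd (.var 0) (al (.var 0)) (.var 1) (.var 2), .var 2),
    (tt (.var 0) (.var 1), tt (.var 1) (.var 0)),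
    (al (tt (.var 0) (.var 1)), tt (al (.var 0)) (al (.var 1)))]

/-- The condition `ααx ≈ x`, `d(x,x,y,z) ≈ y`, `d(x,αx,y,z) ≈ z`, `t(x,y) ≈ t(y,x)`,
`αt(x,y) ≈ t(αx,αy)`. -/
def nonl : Cond where
  m := 3
  ar := far
  n := 3
  ids := nonlIds

/-- The interpretation given by three operations. -/
def mkI {A : Type} (a : A → A) (d : A → A → A → A → A) (t : A → A → A) :
    ∀ i : Fin 3, (Fin (far i) → A) → A
  | 0 => fun x : Fin 1 → A => a (x 0)
  | 1 => fun x : Fin 4 → A => d (x 0) (x 1) (x 2) (x 3)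
  | 2 => fun x : Fin 2 → A => t (x 0) (x 1)

lemma mkI_al {A X : Type} (a : A → A) (d : A → A → A → A → A) (t : A → A → A) (x : X → A)
    (u : Term far X) : (al u).eval (mkI a d t) x = a (u.eval (mkI a d t) x) := rfl

lemma mkI_dd {A X : Type} (a : A → A) (d : A → A → A → A → A) (t : A → A → A) (x : X → A)
    (u v w z : Term far X) : (dd u v w z).eval (mkI a d t) x =
      d (u.eval (mkI a d t) x) (v.eval (mkI a d t) x) (w.eval (mkI a d t) x)
        (z.eval (mkI a d t) x) := rfl

lemma mkI_tt {A X : Type} (a : A → A) (d : A → A → A → A → A) (t : A → A → A) (x : X → A)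
    (u v : Term far X) : (tt u v).eval (mkI a d t) x =
      t (u.eval (mkI a d t) x) (v.eval (mkI a d t) x) := rfl

lemma eq_mkI {A : Type} (I : ∀ i : Fin 3, (Fin (far i) → A) → A) :
    ∃ a d t, I = mkI a d t := by
  refine ⟨fun u => I 0 (show Fin 1 → A from ![u]),
    fun u v w z => I 1 (show Fin 4 → A from ![u, v, w, z]),
    fun u v => I 2 (show Fin 2 → A from ![u, v]), ?_⟩
  funext i
  fin_cases i
  · funext (x : Fin 1 → A)
    change I 0 x = I 0 ![x 0]
    congr 1
    funext j
    fin_cases j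
    rfl
  · funext (x : Fin 4 → A)
    change I 1 x = I 1 ![x 0, x 1, x 2, x 3]
    congr 1
    funext j
    fin_cases j <;> rfl
  · funext (x : Fin 2 → A)
    change I 2 x = I 2 ![x 0, x 1]
    congr 1
    funext j
    fin_cases j <;> rfl

/-- The identities of `nonl` at a tuple. -/
lemma nonl_ids {A : Type} (a : A → A) (d : A → A → A → A → A) (t : A → A → A) (x : Fin 3 → A) :
    (∀ p ∈ nonl.ids, p.1.eval (mkI a d t) x = p.2.eval (mkI a d t) x) ↔
      a (a (x 0)) = x 0 ∧ d (x 0) (x 0) (x 1) (x 2) = x 1 ∧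
      d (x 0) (a (x 0)) (x 1) (x 2) = x 2 ∧ t (x 0) (x 1) = t (x 1) (x 0) ∧
      a (t (x 0) (x 1)) = t (a (x 0)) (a (x 1)) := by
  change (∀ p ∈ nonlIds, p.1.eval (mkI a d t) x = p.2.eval (mkI a d t) x) ↔ _
  unfold nonlIds
  rw [List.forall_mem_cons, List.forall_mem_cons, List.forall_mem_cons, List.forall_mem_cons,
    List.forall_mem_cons]
  simp only [List.not_mem_nil, false_imp_iff, implies_true, and_true]
  rfl

lemma models_triv (A : Alg) : Models A triv ↔ Subsingleton A.carrier := by
  constructor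
  · rintro ⟨I, -, h⟩
    refine ⟨fun a b => ?_⟩
    exact h trivId (List.mem_singleton.mpr rfl) ![a, b] (Set.mem_univ _)
  · intro h
    exact ⟨fun i => i.elim0, fun i => i.elim0, fun p _ x _ => Subsingleton.elim _ _⟩

lemma models_nonl (A : Alg) : Models A nonl ↔ Subsingleton A.carrier := by
  constructor
  · rintro ⟨I, -, h⟩
    obtain ⟨a, d, t, rfl⟩ := eq_mkI I
    obtain ⟨x⟩ := A.nonempty
    have key := fun y : Fin 3 → A.carrier => (nonl_ids a d t y).mp fun p hp =>
      h p hp y (Set.mem_univ _)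
    -- a fixed point
    have h1 : a (t x (a x)) = t x (a x) := by
      have h2 := (key ![x, a x, x]).2.2.2.2
      have h3 := (key ![x, a x, x]).1
      have h4 := (key ![a x, x, x]).2.2.2.1
      simp only [Matrix.cons_val_zero, Matrix.cons_val_one] at h2 h3 h4
      rw [h2, h3, h4]
    refine ⟨fun u v => ?_⟩
    have h5 := (key ![t x (a x), u, v]).2.1
    have h6 := (key ![t x (a x), u, v]).2.2.1
    simp only [Matrix.cons_val_zero, Matrix.cons_val_one, Matrix.cons_val] at h5 h6
    rw [h1] at h6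
    exact h5.symm.trans h6
  · intro h
    refine ⟨mkI (fun u => u) (fun u _ _ _ => u) (fun u _ => u), ?_,
      fun p _ x _ => Subsingleton.elim _ _⟩
    intro i
    fin_cases i
    · exact A.proj 1 0
    · exact A.proj 4 0
    · exact A.proj 2 0

theorem equivalent_triv_nonl : Equivalent triv nonl := fun A => by
  rw [models_triv, models_nonl]

theorem localGlobal_triv : LocalGlobal triv := by
  refine ⟨1, le_rfl, fun A _ h F => ?_⟩
  have hs : Subsingleton A.carrier := by
    refine ⟨fun a b => ?_⟩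
    obtain ⟨I, -, h1⟩ := h {![a, b]} (Finset.card_singleton _)
    exact h1 trivId (List.mem_singleton.mpr rfl) ![a, b]
      (Finset.mem_coe.mpr (Finset.mem_singleton_self _))
  exact ⟨fun i => i.elim0, fun i => i.elim0, fun p _ x _ => Subsingleton.elim _ _⟩

/-- The algebra with carrier `A` and all operations. -/
def full (A : Type) [h : Nonempty A] : Alg where
  carrier := A
  nonempty := h
  clo _ := Set.univ
  proj _ _ := Set.mem_univ _
  comp _ _ _ _ _ _ := Set.mem_univ _

theorem not_localGlobal_nonl : ¬ LocalGlobal nonl := by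
  rintro ⟨k, -, hk⟩
  have h1 := hk (full (Fin (6 * k + 2))) ?_ ?_
  · obtain ⟨I, hI, h2⟩ := h1 (Finset.univ : Finset (Fin 3 → Fin (6 * k + 2)))
    have h3 : Models (full (Fin (6 * k + 2))) nonl := ⟨I, hI, fun p hp x _ => h2 p hp x
      (Finset.mem_coe.mpr (Finset.mem_univ (α := Fin 3 → Fin (6 * k + 2)) x))⟩
    rw [models_nonl] at h3
    have h4 : (⟨0, by omega⟩ : Fin (6 * k + 2)) = ⟨1, by omega⟩ := h3.elim _ _
    exact absurd (congrArg Fin.val h4) (by norm_num)
  · change (k : Cardinal) ≤ Cardinal.mk (Fin 3 → Fin (6 * k + 2))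
    rw [Cardinal.mk_fintype, Fintype.card_fun, Fintype.card_fin, Fintype.card_fin]
    norm_cast
    calc k ≤ 6 * k + 2 := by omega
      _ ≤ (6 * k + 2) ^ 3 := Nat.le_self_pow (by norm_num) _
  · intro F hF
    classical
    let A := Fin (6 * k + 2)
    change Finset (Fin 3 → A) at F
    -- the elements that occur
    let B : Finset A := F.biUnion fun x => Finset.univ.image x
    have hB : B.card ≤ k * 3 := by
      rw [← hF]
      refine Finset.card_biUnion_le_card_mul _ _ _ fun x _ => ?_
      exact Finset.card_image_le.trans (by simp)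
    have hmem : ∀ x ∈ F, ∀ i, x i ∈ B := fun x hx i =>
      Finset.mem_biUnion.mpr ⟨x, hx, Finset.mem_image_of_mem _ (Finset.mem_univ _)⟩
    obtain ⟨e⟩ : Nonempty (B ↪ (Bᶜ : Finset A)) := by
      apply Function.Embedding.nonempty_of_card_le
      rw [Fintype.card_coe, Fintype.card_coe, Finset.card_compl, Fintype.card_fin]
      omega
    let a : A → A := fun u => if h : u ∈ B then (e ⟨u, h⟩ : A) else
      if h : ∃ b : B, (e b : A) = u then h.choose else u
    have ha1 : ∀ b : B, a b = e b := fun b => by simp only [a, dif_pos b.2]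
    have ha2 : ∀ b : B, a (e b) = b := fun b => by
      have h1 : (e b : A) ∉ B := Finset.mem_compl.mp (e b).2
      have h2 : ∃ b' : B, (e b' : A) = e b := ⟨b, rfl⟩
      simp only [a, dif_neg h1, dif_pos h2]
      exact congrArg Subtype.val (e.injective (Subtype.ext h2.choose_spec))
    let c : A := ⟨0, by omega⟩
    let d : A → A → A → A → A := fun u v y z => if u = v then y else z
    let t : A → A → A := fun u _ => if u ∈ B then c else a c
    refine ⟨mkI a d t, fun _ => Set.mem_univ _, ?_⟩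
    suffices hh : ∀ x ∈ F, ∀ p ∈ nonl.ids,
        p.1.eval (mkI a d t) x = p.2.eval (mkI a d t) x from fun p hp x hx => hh x hx p hp
    intro x hx
    rw [nonl_ids]
    have h0 := hmem x hx 0
    have h1 := hmem x hx 1
    have e0 : a (x 0) = e ⟨x 0, h0⟩ := ha1 ⟨x 0, h0⟩
    have n0 : a (x 0) ∉ B := by rw [e0]; exact Finset.mem_compl.mp (e _).2
    have hne : x 0 ≠ a (x 0) := fun h => n0 (h ▸ h0)
    refine ⟨?_, if_pos rfl, if_neg hne, ?_, ?_⟩
    · rw [e0]; exact ha2 ⟨x 0, h0⟩
    · simp only [t, if_pos h0, if_pos h1]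
    · simp only [t, if_pos h0, if_neg n0]

end Q15LG
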