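import Pool.Agent.Q15.LGLinear
import Pool.Agent.Q15.LGNonlin

/-! For linear conditions the local-global property is invariant under equivalence. -/

namespace Q15LG

open Cardinal

/-- The two-element algebra of the projections and the constants. -/
def EE : Alg where
  carrier := Bool
  nonempty := ⟨true⟩
  clo n := {f | (∃ i, f = fun x => x i) ∨ ∃ c, f = fun _ => c}
  proj n i := Or.inl ⟨i, rfl⟩
  comp n m f g hf hg := by
    rcases hf with ⟨i, rfl⟩ | ⟨c, rfl⟩
    · exact hg i
    · exact Or.inr ⟨c, rfl⟩

/-- Every condition that holds in `EE` splits. -/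
theorem split_of_EE (S : Cond) (hS : S.IsLinear) (h : Models EE S) :
    ∃ φ : ∀ i, Option (Fin (S.ar i)), Split S φ := by
  classical
  obtain ⟨I, hI, hI'⟩ := h
  let φ : ∀ i, Option (Fin (S.ar i)) := fun i =>
    if h : ∃ j, I i = fun x => x j then some h.choose else none
  have h1 : ∀ i j, φ i = some j → I i = fun x => x j := by
    intro i j h
    by_cases h' : ∃ j, I i = fun x => x j
    · simp only [φ, dif_pos h', Option.some.injEq] at h
      rw [← h]; exact h'.choose_spec
    · simp only [φ, dif_neg h'] at h; cases h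
  have h2 : ∀ i, φ i = none → ∃ c, I i = fun _ => c := by
    intro i h
    by_cases h' : ∃ j, I i = fun x => x j
    · simp only [φ, dif_pos h'] at h; cases h
    · rcases hI i with h3 | h3
      · exact absurd h3 h'
      · exact h3
  have h3 : ∀ t : Term S.ar (Fin S.n), t.IsLinear → ∀ v, side φ t = some v →
      ∀ x, t.eval I x = x v := by
    rintro t (⟨v, rfl⟩ | ⟨i, v, rfl⟩) w hw x
    · cases hw; rfl
    · rcases hi : φ i with _ | j
      · rw [side_app_none φ hi] at hw; cases hw
      · rw [side_app_some φ hi] at hw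
        cases hw
        simp only [Term.eval]
        rw [h1 i j hi]
  have h4 : ∀ t : Term S.ar (Fin S.n), t.IsLinear → side φ t = none →
      ∃ c, ∀ x, t.eval I x = c := by
    rintro t (⟨v, rfl⟩ | ⟨i, v, rfl⟩) hw
    · cases hw
    · rcases hi : φ i with _ | j
      · obtain ⟨c, hc⟩ := h2 i hi
        refine ⟨c, fun x => ?_⟩
        simp only [Term.eval]
        rw [hc]
      · rw [side_app_some φ hi] at hw; cases hw
  refine ⟨φ, fun p hp => ?_⟩
  obtain ⟨l1, l2⟩ := hS p hp
  have h5 := fun x => hI' p hp x (Set.mem_univ x)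
  rcases e1 : side φ p.1 with _ | v <;> rcases e2 : side φ p.2 with _ | w
  · exact Or.inr ⟨rfl, rfl⟩
  · exfalso
    obtain ⟨c, hc⟩ := h4 _ l1 e1
    have h6 := h5 fun _ => !c
    rw [hc, h3 _ l2 w e2] at h6
    exact (Bool.not_ne_self c) h6.symm
  · exfalso
    obtain ⟨c, hc⟩ := h4 _ l2 e2
    have h6 := h5 fun _ => !c
    rw [hc, h3 _ l1 v e1] at h6
    exact (Bool.not_ne_self c) h6
  · left
    refine ⟨v, rfl, ?_⟩
    have h6 := h5 fun u => decide (u = v)
    rw [h3 _ l1 v e1, h3 _ l2 w e2] at h6
    have h7 : w = v := by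
      by_contra hne
      simp [hne] at h6
    rw [h7]

lemma satOn_mono {A : Alg} {S : Cond} {F G : Set (Fin S.n → A.carrier)} (h : SatOn A S G)
    (hFG : F ⊆ G) : SatOn A S F := by
  obtain ⟨I, hI, hI'⟩ := h
  exact ⟨I, hI, fun p hp x hx => hI' p hp x (hFG hx)⟩

/-- A set of `k` elements containing a given smaller one. -/
lemma exists_superset {X : Type} (k : ℕ) (hk : (k : Cardinal) ≤ #X) (G : Set X) (hG : G.Finite)
    (hGk : G.ncard ≤ k) : ∃ F : Finset X, F.card = k ∧ G ⊆ F := by
  classical
  rcases finite_or_infinite X with hX | hX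
  · have := Fintype.ofFinite X
    have h1 : k ≤ Fintype.card X := by
      rw [Cardinal.mk_fintype] at hk; exact_mod_cast hk
    obtain ⟨F, hF1, hF2⟩ := Finset.exists_superset_card_eq (s := hG.toFinset) (n := k)
      (by rw [← Set.ncard_eq_toFinset_card G hG]; exact hGk) h1
    exact ⟨F, hF2, fun x hx => hF1 (hG.mem_toFinset.mpr hx)⟩
  · obtain ⟨F, hF1, hF2⟩ := Infinite.exists_superset_card_eq hG.toFinset k
      (by rw [← Set.ncard_eq_toFinset_card G hG]; exact hGk)
    exact ⟨F, hF2, fun x hx => hF1 (hG.mem_toFinset.mpr hx)⟩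

/-- If the condition fails in the two-element algebra of all operations, then it has the
local-global property. -/
theorem localGlobal_of_inconsistent (S : Cond) (hS : S.IsLinear) (h : ¬ Models (full Bool) S) :
    LocalGlobal S := by
  classical
  have hn : S.n ≠ 0 := by
    intro hn
    apply h
    refine ⟨fun _ _ => true, fun _ => Set.mem_univ _, fun p hp x _ => ?_⟩
    have key : ∀ t : Term S.ar (Fin S.n), t.IsLinear →
        t.eval (A := Bool) (fun _ _ => true) x = true := by
      rintro t (⟨v, rfl⟩ | ⟨i, v, rfl⟩)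
      · exact absurd v.2 (by omega)
      · rfl
    exact (key _ (hS p hp).1).trans (key _ (hS p hp).2).symm
  refine ⟨2 ^ S.n, Nat.one_le_two_pow, fun A hA hF => ?_⟩
  exfalso
  rcases subsingleton_or_nontrivial A.carrier with hs | ⟨a, b, hab⟩
  · have h1 : #(Fin S.n → A.carrier) ≤ 1 := Cardinal.le_one_iff_subsingleton.mpr inferInstance
    have h2 : ((2 ^ S.n : ℕ) : Cardinal) ≤ 1 := hA.trans h1
    have h3 : 2 ^ S.n ≤ 1 := by exact_mod_cast h2
    have h4 : 1 < 2 ^ S.n := Nat.one_lt_two_pow hn
    omega
  · let ι : Bool → A.carrier := fun c => if c then a else b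
    have hι : Function.Injective ι := by
      intro c d hcd
      cases c <;> cases d <;> simp_all [ι]
    have hinj : Function.Injective (fun (x : Fin S.n → Bool) (v : Fin S.n) => ι (x v)) := by
      intro x y hxy
      funext v
      exact hι (congrFun hxy v)
    obtain ⟨I, -, hI⟩ := hF (Finset.univ.map ⟨_, hinj⟩) (by
      rw [Finset.card_map, Finset.card_univ, Fintype.card_fun, Fintype.card_bool,
        Fintype.card_fin])
    apply h
    let r : A.carrier → Bool := fun u => decide (u = a)
    have hr : ∀ c, r (ι c) = c := by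
      intro c
      cases c
      · simp [r, ι, hab.symm]
      · simp [r, ι]
    refine ⟨fun i x => r (I i fun j => ι (x j)), fun _ => Set.mem_univ _, fun p hp x _ => ?_⟩
    have key : ∀ t : Term S.ar (Fin S.n), t.IsLinear →
        t.eval (A := Bool) (fun i x => r (I i fun j => ι (x j))) x =
        r (t.eval I fun v => ι (x v)) := by
      rintro t (⟨v, rfl⟩ | ⟨i, v, rfl⟩)
      · exact (hr _).symm
      · rfl
    refine (key _ (hS p hp).1).trans (Eq.trans ?_ (key _ (hS p hp).2).symm)
    congr 1
    exact hI p hp _ (by simp)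

/-- The algebra on `N` elements whose operations are the projections and all operations with at
most `K` values. -/
def small (N K : ℕ) (hN : 0 < N) : Alg where
  carrier := Fin N
  nonempty := ⟨⟨0, hN⟩⟩
  clo n := {f | (∃ i, f = fun x => x i) ∨ (Set.range f).ncard ≤ K}
  proj n i := Or.inl ⟨i, rfl⟩
  comp n m f g hf hg := by
    rcases hf with ⟨i, rfl⟩ | hf
    · exact hg i
    · right
      refine le_trans (Set.ncard_le_ncard ?_ (Set.toFinite _)) hf
      rintro _ ⟨x, rfl⟩
      exact ⟨_, rfl⟩

/-- The node of a term at a tuple. -/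
def node {m : ℕ} {ar : Fin m → ℕ} {n : ℕ} {A : Type} (x : Fin n → A) :
    Term ar (Fin n) → A ⊕ (Σ i, (Fin (ar i) → Option A))
  | .var v => .inl (x v)
  | .app i t => .inr ⟨i, fun j => match t j with
    | .var v => some (x v)
    | .app _ _ => none⟩

/-- Local satisfaction in the algebra of the operations with few values. -/
theorem small_sat (S : Cond) (hS : S.IsLinear) (h : Models (full Bool) S) (k N : ℕ)
    (hN : 0 < N) (F : Finset (Fin S.n → Fin N)) (hF : F.card ≤ k) :
    SatOn (small N (k * S.n + 1) hN) S (F : Set (Fin S.n → Fin N)) := by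
  classical
  obtain ⟨I2, -, hI2⟩ := h
  let Z := Fin N ⊕ (Σ i, (Fin (S.ar i) → Option (Fin N)))
  -- the links
  let R : Z → Z → Prop := fun z w => ∃ p ∈ S.ids, ∃ x ∈ F, z = node x p.1 ∧ w = node x p.2
  let E : Z → Z → Prop := Relation.EqvGen R
  let ψ : (Fin N → Bool) → Z → Bool := fun h z => match z with
    | .inl a => h a
    | .inr ⟨i, y⟩ => I2 i fun j => match y j with
      | some a => h a
      | none => true
  have hnode : ∀ (h : Fin N → Bool) (x : Fin S.n → Fin N) (t : Term S.ar (Fin S.n)),
      t.IsLinear → ψ h (node x t) = t.eval I2 fun v => h (x v) := by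
    rintro h x t (⟨v, rfl⟩ | ⟨i, v, rfl⟩) <;> rfl
  have hψ : ∀ h z w, E z w → ψ h z = ψ h w := by
    intro h z w hzw
    induction hzw with
    | rel z w hR =>
      obtain ⟨p, hp, x, -, rfl, rfl⟩ := hR
      rw [hnode h x _ (hS p hp).1, hnode h x _ (hS p hp).2]
      exact hI2 p hp _ (Set.mem_univ _)
    | refl => rfl
    | symm _ _ _ ih => exact ih.symm
    | trans _ _ _ _ _ ih1 ih2 => exact ih1.trans ih2
  have hE : ∀ a b : Fin N, E (.inl a) (.inl b) → a = b := by
    intro a b hab
    have := hψ (fun u => decide (u = a)) _ _ hab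
    simp only [ψ, decide_true] at this
    exact (of_decide_eq_true this.symm).symm
  -- the values
  let a0 : Fin N := ⟨0, hN⟩
  let val : Z → Fin N := fun z =>
    if h : ∃ r : (Fin S.n → Fin N) × Fin S.n, r.1 ∈ F ∧ E (.inl (r.1 r.2)) z then
      h.choose.1 h.choose.2 else a0
  have hval : ∀ (x) (_ : x ∈ F) (v : Fin S.n) (z : Z), E (.inl (x v)) z → val z = x v := by
    intro x hx v z hz
    have h' : ∃ r : (Fin S.n → Fin N) × Fin S.n, r.1 ∈ F ∧ E (.inl (r.1 r.2)) z :=
      ⟨(x, v), hx, hz⟩
    simp only [val, dif_pos h']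
    exact hE _ _ (h'.choose_spec.2.trans _ _ _ hz.symm)
  have hval2 : ∀ z w, E z w → val z = val w := by
    intro z w hzw
    by_cases h' : ∃ r : (Fin S.n → Fin N) × Fin S.n, r.1 ∈ F ∧ E (.inl (r.1 r.2)) z
    · obtain ⟨r, hr, hr'⟩ := h'
      rw [hval r.1 hr r.2 z hr', hval r.1 hr r.2 w (hr'.trans _ _ _ hzw)]
    · have h'' : ¬ ∃ r : (Fin S.n → Fin N) × Fin S.n, r.1 ∈ F ∧ E (.inl (r.1 r.2)) w := by
        rintro ⟨r, hr, hr'⟩
        exact h' ⟨r, hr, hr'.trans _ _ _ hzw.symm⟩
      simp only [val, dif_neg h', dif_neg h'']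
  have hrange : (Set.range val).ncard ≤ k * S.n + 1 := by
    have h1 : Set.range val ⊆ insert a0
        ((fun r : (Fin S.n → Fin N) × Fin S.n => r.1 r.2) '' ((F : Set _) ×ˢ Set.univ)) := by
      rintro _ ⟨z, rfl⟩
      by_cases h' : ∃ r : (Fin S.n → Fin N) × Fin S.n, r.1 ∈ F ∧ E (.inl (r.1 r.2)) z
      · right
        obtain ⟨r, hr, hr'⟩ := h'
        exact ⟨r, ⟨hr, Set.mem_univ _⟩, (hval r.1 hr r.2 z hr').symm⟩
      · left
        simp only [val, dif_neg h']
    refine (Set.ncard_le_ncard h1 (Set.toFinite _)).trans ?_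
    refine (Set.ncard_insert_le _ _).trans ?_
    refine Nat.add_le_add_right ?_ 1
    refine (Set.ncard_image_le (Set.toFinite _)).trans ?_
    rw [Set.ncard_prod, Set.ncard_coe_finset, Set.ncard_univ, Nat.card_fin]
    exact Nat.mul_le_mul_right _ hF
  refine ⟨fun i y => val (.inr ⟨i, fun j => some (y j)⟩), fun i => Or.inr ?_, ?_⟩
  · refine (Set.ncard_le_ncard ?_ (Set.toFinite _)).trans hrange
    rintro _ ⟨y, rfl⟩
    exact ⟨_, rfl⟩
  · intro p hp x hx
    have hx' : x ∈ F := hx
    have hlink : E (node x p.1) (node x p.2) := .rel _ _ ⟨p, hp, x, hx', rfl, rfl⟩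
    have hev : ∀ t : Term S.ar (Fin S.n), t.IsLinear →
        t.eval (A := Fin N) (fun i y => val (.inr ⟨i, fun j => some (y j)⟩)) x = val (node x t) := by
      rintro t (⟨v, rfl⟩ | ⟨i, v, rfl⟩)
      · exact (hval x hx' v _ (.refl _)).symm
      · rfl
    exact (hev _ (hS p hp).1).trans ((hval2 _ _ hlink).trans (hev _ (hS p hp).2).symm)

theorem EE_of_localGlobal (S : Cond) (hS : S.IsLinear) (hLG : LocalGlobal S)
    (h : Models (full Bool) S) : Models EE S := by
  classical
  rcases Nat.eq_zero_or_pos S.n with hn | hn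
  · refine ⟨fun _ _ => true, fun _ => Or.inr ⟨true, rfl⟩, fun p hp x _ => ?_⟩
    have key : ∀ t : Term S.ar (Fin S.n), t.IsLinear →
        t.eval (A := Bool) (fun _ _ => true) x = true := by
      rintro t (⟨v, rfl⟩ | ⟨i, v, rfl⟩)
      · exact absurd v.2 (by omega)
      · rfl
    exact (key _ (hS p hp).1).trans (key _ (hS p hp).2).symm
  · obtain ⟨k, -, hk⟩ := hLG
    let N := k * S.n + 2
    have hN : 0 < N := Nat.succ_pos _
    have h1 : Models (small N (k * S.n + 1) hN) S := by
      have h2 := hk (small N (k * S.n + 1) hN) (by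
        change (k : Cardinal) ≤ #(Fin S.n → Fin N)
        rw [Cardinal.mk_fintype, Fintype.card_fun, Fintype.card_fin, Fintype.card_fin]
        have h3 : k ≤ N ^ S.n := by
          calc k ≤ k * S.n := Nat.le_mul_of_pos_right _ hn
            _ ≤ N := by omega
            _ ≤ N ^ S.n := Nat.le_self_pow hn.ne' _
        exact_mod_cast h3) (fun F hF => small_sat S hS h k N hN F hF.le)
        (Finset.univ : Finset (Fin S.n → Fin N))
      exact satOn_mono h2 fun x _ => Finset.mem_coe.mpr (Finset.mem_univ (α := Fin S.n → Fin N) x)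
    obtain ⟨I, hI, hI'⟩ := h1
    -- the types of the symbols
    let φ : ∀ i, Option (Fin (S.ar i)) := fun i =>
      if h : ∃ j, I i = fun x => x j then some h.choose else none
    have h1 : ∀ i j, φ i = some j → I i = fun x => x j := by
      intro i j h
      by_cases h' : ∃ j, I i = fun x => x j
      · simp only [φ, dif_pos h', Option.some.injEq] at h
        rw [← h]; exact h'.choose_spec
      · simp only [φ, dif_neg h'] at h; cases h
    have h2 : ∀ i, φ i = none → (Set.range (I i)).ncard ≤ k * S.n + 1 := by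
      intro i h
      by_cases h' : ∃ j, I i = fun x => x j
      · simp only [φ, dif_pos h'] at h; cases h
      · rcases hI i with h3 | h3
        · exact absurd h3 h'
        · exact h3
    have h3 : ∀ t : Term S.ar (Fin S.n), t.IsLinear → ∀ v, side φ t = some v →
        ∀ x, t.eval I x = x v := by
      rintro t (⟨v, rfl⟩ | ⟨i, v, rfl⟩) w hw x
      · cases hw; rfl
      · rcases hi : φ i with _ | j
        · rw [side_app_none φ hi] at hw; cases hw
        · rw [side_app_some φ hi] at hw
          cases hw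
          simp only [Term.eval]
          rw [h1 i j hi]
    have h4 : ∀ t : Term S.ar (Fin S.n), t.IsLinear → side φ t = none →
        ∃ B : Set (Fin N), B.ncard ≤ k * S.n + 1 ∧ ∀ x, t.eval I x ∈ B := by
      rintro t (⟨v, rfl⟩ | ⟨i, v, rfl⟩) hw
      · cases hw
      · rcases hi : φ i with _ | j
        · exact ⟨_, h2 i hi, fun x => ⟨_, rfl⟩⟩
        · rw [side_app_some φ hi] at hw; cases hw
    have h5 : ∀ s t : Term S.ar (Fin S.n), s.IsLinear → t.IsLinear → ∀ v, side φ s = some v →
        side φ t = none → (∀ x, s.eval I x = t.eval I x) → False := by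
      intro s t hs ht v hv hn' hst
      obtain ⟨B, hB, hB'⟩ := h4 t ht hn'
      have h6 : (Set.univ : Set (Fin N)) ⊆ B := by
        intro a _
        have h7 := hB' fun _ => a
        rw [← hst, h3 s hs v hv] at h7
        exact h7
      have h7 := Set.ncard_le_ncard h6 (Set.toFinite _)
      rw [Set.ncard_univ, Nat.card_fin] at h7
      omega
    refine ⟨fun i x => match φ i with
      | none => true
      | some j => x j, fun i => ?_, fun p hp x _ => ?_⟩
    · rcases hi : φ i with _ | j
      · exact Or.inr ⟨true, by funext x; simp only [hi]⟩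
      · exact Or.inl ⟨j, by funext x; simp only [hi]⟩
    · have key : ∀ t : Term S.ar (Fin S.n), t.IsLinear →
          t.eval (A := Bool) (fun i x => match φ i with
            | none => true
            | some j => x j) x = match side φ t with
            | none => true
            | some v => x v := by
        rintro t (⟨v, rfl⟩ | ⟨i, v, rfl⟩)
        · rfl
        · rcases hi : φ i with _ | j
          · rw [side_app_none φ hi]
            simp only [Term.eval, hi]
          · rw [side_app_some φ hi]
            simp only [Term.eval, hi, side]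
      obtain ⟨l1, l2⟩ := hS p hp
      have h6 := fun x => hI' p hp x (Set.mem_univ x)
      refine (key _ l1).trans (Eq.trans ?_ (key _ l2).symm)
      rcases e1 : side φ p.1 with _ | v <;> rcases e2 : side φ p.2 with _ | w
      · rfl
      · exact (h5 _ _ l2 l1 w e2 e1 fun x => (h6 x).symm).elim
      · exact (h5 _ _ l1 l2 v e1 e2 h6).elim
      · have h7 : w = v := by
          by_contra hne
          have h8 := h6 fun u => if u = v then ⟨1, by omega⟩ else ⟨0, by omega⟩
          rw [h3 _ l1 v e1, h3 _ l2 w e2] at h8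
          simp only [if_pos, if_neg hne] at h8
          exact absurd (congrArg Fin.val h8) (by norm_num)
        rw [h7]

/-- For linear conditions the local-global property passes to equivalent conditions. -/
theorem localGlobal_of_equivalent (S₁ S₂ : Cond) (h₁ : S₁.IsLinear) (h₂ : S₂.IsLinear)
    (he : Equivalent S₁ S₂) (hLG : LocalGlobal S₁) : LocalGlobal S₂ := by
  by_cases hc : Models (full Bool) S₁
  · have hE := EE_of_localGlobal S₁ h₁ hLG hc
    obtain ⟨φ₁, hφ₁⟩ := split_of_EE S₁ h₁ hE
    obtain ⟨φ₂, hφ₂⟩ := split_of_EE S₂ h₂ ((he _).mp hE)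
    obtain ⟨c₁, hc₁⟩ := transfer S₁ S₂ h₁ h₂ φ₁ hφ₁ fun A => (he A).mp
    obtain ⟨c₂, hc₂⟩ := transfer S₂ S₁ h₂ h₁ φ₂ hφ₂ fun A => (he A).mpr
    obtain ⟨k, hk1, hk⟩ := hLG
    refine ⟨c₂ * k + 1, Nat.le_add_left _ _, fun A hA hF F => ?_⟩
    -- `S₂` holds on all small sets
    have h3 : ∀ G : Set (Fin S₂.n → A.carrier), G.Finite → G.ncard ≤ c₂ * k → SatOn A S₂ G := by
      intro G hG hGk
      obtain ⟨F', hF', hGF⟩ := exists_superset _ hA G hG (hGk.trans (Nat.le_succ _))
      exact satOn_mono (hF F' hF') hGF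
    have h4 := hc₂ A k h3
    by_cases hcard : (k : Cardinal) ≤ #(Fin S₁.n → A.carrier)
    · have h5 := hk A hcard fun F hF => h4 F F.finite_toSet (by
        rw [Set.ncard_coe_finset]; exact hF.le)
      exact hc₁ A F.card (fun G hG _ => by
        have := h5 hG.toFinset
        rwa [hG.coe_toFinset] at this) F F.finite_toSet (by rw [Set.ncard_coe_finset])
    · have h5 : #(Fin S₁.n → A.carrier) < k := not_le.mp hcard
      have hfin : Finite (Fin S₁.n → A.carrier) :=
        Cardinal.lt_aleph0_iff_finite.mp (h5.trans (Cardinal.natCast_lt_aleph0 (n := k)))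
      have h6 : Models A S₁ := by
        refine h4 Set.univ Set.finite_univ ?_
        rw [Set.ncard_univ]
        have : ((Nat.card (Fin S₁.n → A.carrier) : ℕ) : Cardinal) < k := by
          rw [Nat.cast_card]; exact h5
        have h7 : Nat.card (Fin S₁.n → A.carrier) < k := by exact_mod_cast this
        exact h7.le
      exact satOn_mono ((he A).mp h6) (Set.subset_univ _)
  · refine localGlobal_of_inconsistent S₂ h₂ fun h => hc ((he _).mpr h)

end Q15LG
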