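import Mathlib

/-! Lattice terms and identities. -/

namespace Q15Lat

/-- Lattice terms with variables indexed by `ℕ`. -/
inductive LTerm : Type
  | var (n : ℕ) : LTerm
  | sup (s t : LTerm) : LTerm
  | inf (s t : LTerm) : LTerm

/-- Value of a lattice term. -/
def LTerm.ev {L : Type*} [Lattice L] (v : ℕ → L) : LTerm → L
  | .var n => v n
  | .sup s t => s.ev v ⊔ t.ev v
  | .inf s t => s.ev v ⊓ t.ev v

/-- The lattice `L` satisfies the identity `p ≈ q`. -/
def Holds (L : Type*) [Lattice L] (p q : LTerm) : Prop := ∀ v : ℕ → L, p.ev v = q.ev v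

end Q15Lat
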