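import Pool.Agent.Q15.S70Defs
import Pool.Agent.Q15.S70Comb

/-!
# The semiring of a system of stars satisfies the identities of `S_7^0` in few variables
-/

set_option autoImplicit false
set_option linter.unusedSectionVars false

namespace Pool.Agent.Q15.S70

open Finset

/-! ### words -/

/-- the words of a term -/
def Term.words : Term → Set (List ℕ)
  | .var n => {[n]}
  | .zero => ∅
  | .add s t => s.words ∪ t.words
  | .mul s t => {l | ∃ u ∈ s.words, ∃ v ∈ t.words, l = u ++ v}

/-- all variables are smaller than `k` -/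
def Term.lt (k : ℕ) : Term → Prop
  | .var n => n < k
  | .zero => True
  | .add s t => s.lt k ∧ t.lt k
  | .mul s t => s.lt k ∧ t.lt k

theorem words_lt (k : ℕ) : ∀ (t : Term), t.lt k → ∀ w ∈ t.words, ∀ x ∈ w, x < k
  | .var n, h, w, hw, x, hx => by
    obtain rfl : w = [n] := hw
    rw [List.mem_singleton] at hx
    rw [hx]; exact h
  | .zero, _, w, hw, _, _ => absurd hw (Set.notMem_empty w)
  | .add s t, h, w, hw, x, hx => by
    rcases hw with hw | hw
    · exact words_lt k s h.1 w hw x hx
    · exact words_lt k t h.2 w hw x hx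
  | .mul s t, h, w, hw, x, hx => by
    obtain ⟨u, hu, v, hv, rfl⟩ := hw
    rcases List.mem_append.1 hx with hx | hx
    · exact words_lt k s h.1 u hu x hx
    · exact words_lt k t h.2 v hv x hx

theorem lt_mono {k l : ℕ} (hkl : k ≤ l) : ∀ (t : Term), t.lt k → t.lt l
  | .var _, h => lt_of_lt_of_le h hkl
  | .zero, _ => trivial
  | .add s t, h => ⟨lt_mono hkl s h.1, lt_mono hkl t h.2⟩
  | .mul s t, h => ⟨lt_mono hkl s h.1, lt_mono hkl t h.2⟩

theorem exists_lt : ∀ t : Term, ∃ k, t.lt k
  | .var n => ⟨n + 1, Nat.lt_succ_self n⟩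
  | .zero => ⟨0, trivial⟩
  | .add s t => by
    obtain ⟨k, hk⟩ := exists_lt s
    obtain ⟨l, hl⟩ := exists_lt t
    exact ⟨max k l, lt_mono (le_max_left k l) s hk, lt_mono (le_max_right k l) t hl⟩
  | .mul s t => by
    obtain ⟨k, hk⟩ := exists_lt s
    obtain ⟨l, hl⟩ := exists_lt t
    exact ⟨max k l, lt_mono (le_max_left k l) s hk, lt_mono (le_max_right k l) t hl⟩

/-! ### evaluation in `S_7^0` -/

/-- the value of a word in `S_7^0` -/
def val (v : ℕ → S70) : List ℕ → S70
  | [] => S70.of .one
  | x :: l => v x * val v l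

theorem one_mul' : ∀ x : S70, S70.of .one * x = x := by decide
theorem mul_one' : ∀ x : S70, x * S70.of .one = x := by decide
theorem mul_assoc' : ∀ x y z : S70, x * y * z = x * (y * z) := by decide

theorem val_append (v : ℕ → S70) : ∀ a b : List ℕ, val v (a ++ b) = val v a * val v b
  | [], b => (one_mul' _).symm
  | x :: a, b => by
    show v x * val v (a ++ b) = v x * val v a * val v b
    rw [val_append v a b, mul_assoc']

/-- an ideal of `(S_7^0, +)` -/
structure IsIdeal (I : S70 → Prop) : Prop where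
  zero : I 0
  add_iff : ∀ x y, I (x + y) ↔ I x ∧ I y

theorem mul_zero' : ∀ x : S70, x * 0 = 0 := by decide
theorem zero_mul' : ∀ x : S70, 0 * x = 0 := by decide
theorem add_mul' : ∀ x y z : S70, (x + y) * z = x * z + y * z := by decide
theorem mul_add' : ∀ x y z : S70, x * (y + z) = x * y + x * z := by decide

theorem IsIdeal.left {I : S70 → Prop} (hI : IsIdeal I) (p : S70) : IsIdeal (fun x => I (p * x)) :=
  ⟨by rw [mul_zero']; exact hI.zero, fun x y => by rw [mul_add', hI.add_iff]⟩

theorem IsIdeal.right {I : S70 → Prop} (hI : IsIdeal I) (p : S70) : IsIdeal (fun x => I (x * p)) :=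
  ⟨by rw [zero_mul']; exact hI.zero, fun x y => by rw [add_mul', hI.add_iff]⟩

theorem eval_mem_ideal (v : ℕ → S70) (t : Term) : ∀ I : S70 → Prop, IsIdeal I →
    (I (t.eval v) ↔ ∀ w ∈ t.words, I (val v w)) := by
  induction t with
  | var n =>
    intro I _
    have h1 : val v [n] = v n := mul_one' _
    constructor
    · rintro h w rfl
      rw [h1]; exact h
    · intro h
      have := h [n] rfl
      rwa [h1] at this
  | zero =>
    intro I hI
    exact ⟨fun _ w hw => absurd hw (Set.notMem_empty w), fun _ => hI.zero⟩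
  | add s t hs ht =>
    intro I hI
    show I (s.eval v + t.eval v) ↔ _
    rw [hI.add_iff, hs I hI, ht I hI]
    constructor
    · rintro ⟨h1, h2⟩ w (hw | hw)
      · exact h1 w hw
      · exact h2 w hw
    · intro h
      exact ⟨fun w hw => h w (Or.inl hw), fun w hw => h w (Or.inr hw)⟩
  | mul s t hs ht =>
    intro I hI
    show I (s.eval v * t.eval v) ↔ _
    rw [hs _ (hI.right (t.eval v))]
    constructor
    · rintro h w ⟨u, hu, w', hw', rfl⟩
      rw [val_append]
      exact (ht _ (hI.left (val v u))).1 (h u hu) w' hw'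
    · intro h u hu
      apply (ht _ (hI.left (val v u))).2
      intro w' hw'
      have := h (u ++ w') ⟨u, hu, w', hw', rfl⟩
      rwa [val_append] at this

theorem ideal_zero : IsIdeal (fun x => x = 0) := ⟨rfl, by decide⟩
theorem ideal_one : IsIdeal (fun x => x = 0 ∨ x = S70.of .one) := ⟨Or.inl rfl, by decide⟩
theorem ideal_a : IsIdeal (fun x => x = 0 ∨ x = S70.of .a) := ⟨Or.inl rfl, by decide⟩

/-- truncated counting -/
def tr : ℕ → S70
  | 0 => S70.of .one
  | 1 => S70.of .a
  | _ => S70.of .inf

theorem tr_add : ∀ m n : ℕ, tr (m + n) = tr m * tr n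
  | 0, n => by rw [Nat.zero_add]; exact (one_mul' _).symm
  | 1, 0 => rfl
  | 1, 1 => rfl
  | 1, n + 2 => by
    have : 1 + (n + 2) = (n + 1) + 2 := by omega
    rw [this]; rfl
  | m + 2, 0 => rfl
  | m + 2, 1 => rfl
  | m + 2, n + 2 => by
    have : m + 2 + (n + 2) = (m + n + 2) + 2 := by omega
    rw [this]; rfl

theorem tr_ne (n : ℕ) : tr n ≠ 0 := by
  rcases n with _ | _ | n
  · exact (by decide)
  · exact (by decide)
  · show S70.of .inf ≠ 0
    decide

theorem tr_eq_one {n : ℕ} (h : tr n = S70.of .one) : n = 0 := by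
  rcases n with _ | _ | n
  · rfl
  · exact absurd h (by decide)
  · exact absurd (show S70.of .inf = S70.of .one from h) (by decide)

theorem tr_eq_a {n : ℕ} (h : tr n = S70.of .a) : n = 1 := by
  rcases n with _ | _ | n
  · exact absurd h (by decide)
  · rfl
  · exact absurd (show S70.of .inf = S70.of .a from h) (by decide)

/-- the value of a word is zero iff a letter is zero -/
theorem val_eq_zero (v : ℕ → S70) : ∀ w : List ℕ, val v w = 0 ↔ ∃ x ∈ w, v x = 0
  | [] => by
    constructor
    · intro h; exact absurd (show S70.of .one = 0 from h) (by decide)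
    · rintro ⟨x, hx, _⟩; exact absurd hx (List.not_mem_nil)
  | x :: w => by
    have h1 : ∀ a b : S70, a * b = 0 ↔ a = 0 ∨ b = 0 := by decide
    show v x * val v w = 0 ↔ _
    rw [h1, val_eq_zero v w]
    simp

theorem val_eq_one (v : ℕ → S70) : ∀ w : List ℕ, val v w = S70.of .one ↔
    ∀ x ∈ w, v x = S70.of .one
  | [] => by
    constructor
    · intro _ x hx; exact absurd hx (List.not_mem_nil)
    · intro _; rfl
  | x :: w => by
    have h1 : ∀ a b : S70, a * b = S70.of .one ↔ a = S70.of .one ∧ b = S70.of .one := by decide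
    show v x * val v w = S70.of .one ↔ _
    rw [h1, val_eq_one v w]
    simp

/-- the value of a word given by counts -/
theorem val_tr {M : Type} [AddCommMonoid M] (f : M →+ ℕ) (v : ℕ → S70) (m : ℕ → M) :
    ∀ w : List ℕ, (∀ x ∈ w, v x = tr (f (m x))) → val v w = tr (f (w.map m).sum)
  | [], _ => by simp [val, tr]
  | x :: w, h => by
    show v x * val v w = _
    rw [h x (by simp), val_tr f v m w fun y hy => h y (by simp [hy]), ← tr_add, List.map_cons,
      List.sum_cons, map_add]

/-! ### the algebra of sets of multisets -/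

variable {N Ed : Type}

/-- sets of multisets -/
def PM (Ed : Type) : Type := Multiset Ed → Prop

instance : Zero (PM Ed) := ⟨fun _ => False⟩
instance : Add (PM Ed) := ⟨fun X Y z => X z ∨ Y z⟩
instance : Mul (PM Ed) := ⟨fun X Y z => ∃ x, X x ∧ ∃ y, Y y ∧ z = x + y⟩

/-- membership -/
def mem (z : Multiset Ed) (X : PM Ed) : Prop := X z

theorem mem_zero (z : Multiset Ed) : ¬ mem z (0 : PM Ed) := fun h => h
theorem mem_add (z : Multiset Ed) (X Y : PM Ed) : mem z (X + Y) ↔ mem z X ∨ mem z Y := Iff.rfl
theorem mem_mul (z : Multiset Ed) (X Y : PM Ed) : mem z (X * Y) ↔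
    ∃ x, mem x X ∧ ∃ y, mem y Y ∧ z = x + y := Iff.rfl

/-- the values of a word -/
def valS (φ : ℕ → PM Ed) : List ℕ → Multiset Ed → Prop
  | [], z => z = 0
  | x :: l, z => ∃ m, mem m (φ x) ∧ ∃ r, valS φ l r ∧ z = m + r

theorem valS_append (φ : ℕ → PM Ed) : ∀ (a b : List ℕ) (z : Multiset Ed),
    valS φ (a ++ b) z ↔ ∃ x, valS φ a x ∧ ∃ y, valS φ b y ∧ z = x + y
  | [], b, z => by
    constructor
    · intro h
      exact ⟨0, rfl, z, h, (zero_add z).symm⟩
    · rintro ⟨x, hx, y, hy, rfl⟩
      obtain rfl : x = 0 := hx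
      rw [zero_add]
      exact hy
  | c :: a, b, z => by
    constructor
    · rintro ⟨m, hm, r, hr, rfl⟩
      obtain ⟨x, hx, y, hy, rfl⟩ := (valS_append φ a b r).1 hr
      exact ⟨m + x, ⟨m, hm, x, hx, rfl⟩, y, hy, (add_assoc m x y).symm⟩
    · rintro ⟨x, ⟨m, hm, r, hr, rfl⟩, y, hy, rfl⟩
      exact ⟨m, hm, r + y, (valS_append φ a b _).2 ⟨r, hr, y, hy, rfl⟩, add_assoc m r y⟩

theorem mem_eval (φ : ℕ → PM Ed) (t : Term) : ∀ z, mem z (t.eval φ) ↔
    ∃ w ∈ t.words, valS φ w z := by
  induction t with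
  | var n =>
    intro z
    constructor
    · intro h
      exact ⟨[n], rfl, z, h, 0, rfl, (add_zero z).symm⟩
    · rintro ⟨w, rfl, m, hm, r, hr, rfl⟩
      obtain rfl : r = 0 := hr
      rw [add_zero]
      exact hm
  | zero =>
    intro z
    constructor
    · intro h; exact absurd h (mem_zero z)
    · rintro ⟨w, hw, _⟩
      exact absurd hw (Set.notMem_empty w)
  | add s t hs ht =>
    intro z
    show mem z (s.eval φ + t.eval φ) ↔ _
    rw [mem_add, hs, ht]
    constructor
    · rintro (⟨w, hw, h⟩ | ⟨w, hw, h⟩)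
      · exact ⟨w, Or.inl hw, h⟩
      · exact ⟨w, Or.inr hw, h⟩
    · rintro ⟨w, hw | hw, h⟩
      · exact Or.inl ⟨w, hw, h⟩
      · exact Or.inr ⟨w, hw, h⟩
  | mul s t hs ht =>
    intro z
    show mem z (s.eval φ * t.eval φ) ↔ _
    rw [mem_mul]
    constructor
    · rintro ⟨x, hx, y, hy, rfl⟩
      obtain ⟨u, hu, h1⟩ := (hs x).1 hx
      obtain ⟨v, hv, h2⟩ := (ht y).1 hy
      exact ⟨u ++ v, ⟨u, hu, v, hv, rfl⟩, (valS_append φ u v _).2 ⟨x, h1, y, h2, rfl⟩⟩
    · rintro ⟨w, ⟨u, hu, v, hv, rfl⟩, h⟩
      obtain ⟨x, h1, y, h2, rfl⟩ := (valS_append φ u v _).1 h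
      exact ⟨x, (hs x).2 ⟨u, hu, h1⟩, y, (ht y).2 ⟨v, hv, h2⟩, rfl⟩

theorem mem_list_sum (m : ℕ → Multiset Ed) (e : Ed) : ∀ u : List ℕ, e ∈ (u.map m).sum →
    ∃ y ∈ u, e ∈ m y
  | [], h => by simp at h
  | x :: u, h => by
    rw [List.map_cons, List.sum_cons, Multiset.mem_add] at h
    rcases h with h | h
    · exact ⟨x, by simp, h⟩
    · obtain ⟨y, hy, hey⟩ := mem_list_sum m e u h
      exact ⟨y, by simp [hy], hey⟩

/-- representatives -/
theorem valS_rep (φ : ℕ → PM Ed) (m : ℕ → Multiset Ed) : ∀ w : List ℕ,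
    (∀ x ∈ w, mem (m x) (φ x)) → valS φ w (w.map m).sum
  | [], _ => rfl
  | x :: w, h => ⟨m x, h x (by simp), _, valS_rep φ m w fun y hy => h y (by simp [hy]), by simp⟩

theorem valS_nonempty (φ : ℕ → PM Ed) : ∀ (w : List ℕ) (z : Multiset Ed), valS φ w z →
    ∀ x ∈ w, ∃ m, mem m (φ x)
  | [], _, _, x, hx => absurd hx List.not_mem_nil
  | c :: w, z, h, x, hx => by
    obtain ⟨m, hm, r, hr, rfl⟩ := h
    rcases List.mem_cons.1 hx with rfl | hx
    · exact ⟨m, hm⟩
    · exact valS_nonempty φ w r hr x hx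

section sys

variable [Fintype N] [DecidableEq N] [DecidableEq Ed] {K d : ℕ} (S : Sys N Ed K d)

/-- the stars as multisets -/
def Sys.W (m : Multiset Ed) : Prop := ∃ v, m = (S.star v).val

theorem Sys.star_le {v w : N} {m : Multiset Ed} (hm : 2 ≤ m.card) (h1 : m ≤ (S.star v).val)
    (h2 : m ≤ (S.star w).val) : v = w := by
  by_contra hne
  have h3 := S.lin v w hne
  have hnd : m.Nodup := Multiset.nodup_of_le h1 (S.star v).nodup
  have h4 : (⟨m, hnd⟩ : Finset Ed) ⊆ S.star v ∩ S.star w := by
    intro x hx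
    exact mem_inter.2 ⟨Multiset.mem_of_le h1 hx, Multiset.mem_of_le h2 hx⟩
  have h5 := card_le_card h4
  have h6 : (⟨m, hnd⟩ : Finset Ed).card = m.card := rfl
  omega

/-- two multisets with a common cofactor have the same cofactors -/
theorem Sys.cof {m m' r c : Multiset Ed} (h1 : S.W (m + r)) (h2 : S.W (m' + r)) (h3 : S.W (m + c)) :
    S.W (m' + c) := by
  obtain ⟨v, hv⟩ := h1
  obtain ⟨v', hv'⟩ := h2
  obtain ⟨w, hw⟩ := h3
  by_cases hr : 2 ≤ r.card
  · have : v = v' := S.star_le hr (hv ▸ Multiset.le_add_left r m) (hv' ▸ Multiset.le_add_left r m')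
    subst this
    have : m = m' := by
      have := hv.trans hv'.symm
      exact add_right_cancel this
    subst this
    exact ⟨w, hw⟩
  · have h4 : 2 ≤ m.card := by
      have h5 := congrArg Multiset.card hv
      rw [Multiset.card_add] at h5
      have h6 := S.four v
      have h7 : (S.star v).val.card = (S.star v).card := rfl
      omega
    have : v = w := S.star_le h4 (hv ▸ Multiset.le_add_right m r) (hw ▸ Multiset.le_add_right m c)
    subst this
    have : r = c := add_left_cancel (hv.trans hw.symm)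
    subst this
    exact ⟨v', hv'⟩

theorem Sys.swap (φ : ℕ → PM Ed) (m : ℕ → Multiset Ed) : ∀ (w : List ℕ),
    (∀ x ∈ w, ∀ m', mem m' (φ x) → ∀ c, S.W (m' + c) ↔ S.W (m x + c)) →
    ∀ z, valS φ w z → ∀ c, S.W (z + c) ↔ S.W ((w.map m).sum + c)
  | [], _, z, hz, c => by
    obtain rfl : z = 0 := hz
    rfl
  | x :: w, h, z, hz, c => by
    obtain ⟨m', hm', r, hr, rfl⟩ := hz
    rw [List.map_cons, List.sum_cons, add_assoc, h x (by simp) m' hm' (r + c)]
    have h1 := Sys.swap φ m w (fun y hy => h y (by simp [hy])) r hr (m x + c)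
    have e1 : m x + (r + c) = r + (m x + c) := by abel
    have e2 : m x + (w.map m).sum + c = (w.map m).sum + (m x + c) := by abel
    rw [e1, e2]
    exact h1

theorem Sys.main {s t : Term} (hS : Holds S70 (s, t)) {k : ℕ} (hs : s.lt k)
    (hK : 2 * (k * d + d) + 3 ≤ K) (φ : ℕ → PM Ed) (c : Multiset Ed)
    (hc : ∀ z, mem z (s.eval φ) → S.W (z + c)) (z : Multiset Ed) (hz : mem z (t.eval φ)) :
    S.W (z + c) := by
  classical
  obtain ⟨w, hw, hwz⟩ := (mem_eval φ t z).1 hz
  have hwne := valS_nonempty φ w z hwz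
  -- the words of `s` without letters of value `∅`
  let av : List ℕ → Prop := fun u => ∀ x ∈ u, ∃ m, mem m (φ x)
  let m : ℕ → Multiset Ed := fun x => if h : ∃ m, mem m (φ x) then h.choose else 0
  have hm : ∀ x, (∃ m, mem m (φ x)) → mem (m x) (φ x) := by
    intro x hx
    simp only [m, dif_pos hx]
    exact hx.choose_spec
  have hsW : ∀ u ∈ s.words, av u → ∀ z', valS φ u z' → S.W (z' + c) := fun u hu _ z' hz' =>
    hc z' ((mem_eval φ s z').2 ⟨u, hu, hz'⟩)
  have hsW' : ∀ u ∈ s.words, av u → S.W ((u.map m).sum + c) := fun u hu hav =>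
    hsW u hu hav _ (valS_rep φ m u fun x hx => hm x (hav x hx))
  -- every letter of `w` is a letter of a good word of `s`
  have hletter : ∀ (o : Option ℕ), (∀ x, o = some x → x ∈ w) →
      ∃ u ∈ s.words, av u ∧ ∀ x, o = some x → x ∈ u := by
    intro o ho
    by_contra hcon
    push Not at hcon
    let v0 : ℕ → S70 := fun y => if ∃ m, mem m (φ y) then S70.of .one else 0
    have hv0 : ∀ y, (∃ m, mem m (φ y)) → v0 y = S70.of .one := fun y hy => if_pos hy
    have hv0' : ∀ y, ¬ (∃ m, mem m (φ y)) → v0 y = 0 := fun y hy => if_neg hy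
    have hgood : ∃ u ∈ s.words, av u := by
      by_contra hno
      push Not at hno
      have h1 : s.eval v0 = 0 := by
        apply (eval_mem_ideal v0 s _ ideal_zero).2
        intro u hu
        rw [val_eq_zero]
        have := hno u hu
        simp only [av, not_forall] at this
        obtain ⟨x, hx, hx2⟩ := this
        exact ⟨x, hx, hv0' x hx2⟩
      have h2 : t.eval v0 = 0 := (hS v0).symm.trans h1
      have h3 := (eval_mem_ideal v0 t _ ideal_zero).1 h2 w hw
      rw [(val_eq_one v0 w).2 fun x hx => hv0 x (hwne x hx)] at h3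
      exact absurd h3 (by decide)
    rcases o with _ | x
    · obtain ⟨u, hu, hav⟩ := hgood
      obtain ⟨x, hx, _⟩ := hcon u hu hav
      exact absurd hx (by simp)
    · have hxw := ho x rfl
      let v1 : ℕ → S70 := fun y => if y = x then S70.of .inf else v0 y
      have h1 : s.eval v1 = 0 ∨ s.eval v1 = S70.of .one := by
        apply (eval_mem_ideal v1 s _ ideal_one).2
        intro u hu
        by_cases hav : av u
        · right
          rw [val_eq_one]
          intro y hy
          have hyx : y ≠ x := by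
            rintro rfl
            obtain ⟨x', hx', hx''⟩ := hcon u hu hav
            cases hx'
            exact hx'' hy
          simp only [v1, if_neg hyx]
          exact hv0 y (hav y hy)
        · left
          rw [val_eq_zero]
          simp only [av, not_forall] at hav
          obtain ⟨y, hy, hy2⟩ := hav
          have hyx : y ≠ x := by
            rintro rfl
            exact hy2 (hwne y hxw)
          refine ⟨y, hy, ?_⟩
          simp only [v1, if_neg hyx]
          exact hv0' y hy2
      rw [hS v1] at h1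
      have h2 := (eval_mem_ideal v1 t _ ideal_one).1 h1 w hw
      rcases h2 with h2 | h2
      · rw [val_eq_zero] at h2
        obtain ⟨y, hy, hy2⟩ := h2
        by_cases h3 : y = x
        · simp only [v1, if_pos h3] at hy2
          exact absurd hy2 (by decide)
        · simp only [v1, if_neg h3] at hy2
          rw [hv0 y (hwne y hy)] at hy2
          exact absurd hy2 (by decide)
      · rw [val_eq_one] at h2
        have := h2 x hxw
        simp only [v1, if_true] at this
        exact absurd this (by decide)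
  -- good letters
  let L : ℕ → Prop := fun x => ∃ u ∈ s.words, av u ∧ x ∈ u
  have hwL : ∀ x ∈ w, L x := by
    intro x hx
    obtain ⟨u, hu, hav, h⟩ := hletter (some x) (fun y hy => by cases hy; exact hx)
    exact ⟨u, hu, hav, h x rfl⟩
  have hLk : ∀ x, L x → x < k := by
    rintro x ⟨u, hu, _, hx⟩
    exact words_lt k s hs u hu x hx
  -- cofactors
  have hLsplit : ∀ x, L x → ∃ r, ∀ m', mem m' (φ x) → S.W (m' + r) := by
    rintro x ⟨u, hu, hav, hx⟩
    obtain ⟨p, q, rfl⟩ := List.append_of_mem hx
    refine ⟨(p.map m).sum + (q.map m).sum + c, fun m' hm' => ?_⟩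
    have h1 : valS φ (p ++ x :: q) ((p.map m).sum + (m' + (q.map m).sum)) := by
      rw [valS_append]
      refine ⟨_, valS_rep φ m p fun y hy => hm y (hav y (by simp [hy])), _,
        ⟨m', hm', _, valS_rep φ m q fun y hy => hm y (hav y (by simp [hy])), rfl⟩, rfl⟩
    have h2 := hsW _ hu hav _ h1
    have e : (p.map m).sum + (m' + (q.map m).sum) + c = m' + ((p.map m).sum + (q.map m).sum + c) := by
      abel
    rwa [e] at h2
  have hswap : ∀ x ∈ w, ∀ m', mem m' (φ x) → ∀ c', S.W (m' + c') ↔ S.W (m x + c') := by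
    intro x hx m' hm' c'
    obtain ⟨r, hr⟩ := hLsplit x (hwL x hx)
    have h1 := hr m' hm'
    have h2 := hr (m x) (hm x (hwne x hx))
    exact ⟨fun h => S.cof h1 h2 h, fun h => S.cof h2 h1 h⟩
  rw [S.swap φ m w hswap z hwz c]
  -- the set of relevant nodes
  obtain ⟨u0, hu0, hav0, _⟩ := hletter none (fun x hx => by cases hx)
  have hcc : c.toFinset.card ≤ d := by
    obtain ⟨v, hv⟩ := hsW' u0 hu0 hav0
    have h1 : c ≤ (S.star v).val := hv ▸ Multiset.le_add_left c _
    have h2 : c.toFinset ⊆ S.star v := by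
      intro e he
      exact Multiset.mem_of_le h1 (Multiset.mem_toFinset.1 he)
    exact (card_le_card h2).trans (S.bound v)
  have hmc : ∀ x, L x → (m x).toFinset.card ≤ d := by
    intro x hx
    obtain ⟨r, hr⟩ := hLsplit x hx
    obtain ⟨u, hu, hav, hxu⟩ := hx
    obtain ⟨v, hv⟩ := hr (m x) (hm x (hav x hxu))
    have h1 : m x ≤ (S.star v).val := hv ▸ Multiset.le_add_right _ r
    have h2 : (m x).toFinset ⊆ S.star v := by
      intro e he
      exact Multiset.mem_of_le h1 (Multiset.mem_toFinset.1 he)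
    exact (card_le_card h2).trans (S.bound v)
  set U : Finset Ed := ((range k).filter L).biUnion (fun x => (m x).toFinset) ∪ c.toFinset with hU
  have hUc : U.card ≤ k * d + d := by
    refine (card_union_le _ _).trans (Nat.add_le_add ?_ hcc)
    refine (card_biUnion_le).trans ?_
    refine (sum_le_sum (g := fun _ => d) fun x hx => hmc x (mem_filter.1 hx).2).trans ?_
    rw [sum_const, smul_eq_mul]
    refine Nat.mul_le_mul_right d ?_
    exact (card_filter_le _ _).trans (by simp)
  set E : Finset N := univ.filter (fun v => ∃ e ∈ U, e ∈ S.star v) with hE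
  have hEc : E.card ≤ K := by
    have h1 : E ⊆ U.biUnion (fun e => univ.filter (fun v => e ∈ S.star v)) := by
      intro v hv
      rw [hE, mem_filter] at hv
      obtain ⟨_, e, he, hev⟩ := hv
      exact mem_biUnion.2 ⟨e, he, mem_filter.2 ⟨mem_univ v, hev⟩⟩
    have h2 : ∀ e ∈ U, (univ.filter (fun v => e ∈ S.star v)).card ≤ 2 := by
      intro e _
      by_cases h : ∃ v, e ∈ S.star v
      · obtain ⟨v, hv⟩ := h
        exact (S.two v e hv).le
      · have : univ.filter (fun v => e ∈ S.star v) = ∅ := by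
          rw [filter_eq_empty_iff]
          intro v _ hv
          exact h ⟨v, hv⟩
        rw [this]; simp
    have h3 := (card_le_card h1).trans card_biUnion_le
    have h4 := sum_le_sum h2
    rw [sum_const, smul_eq_mul] at h4
    omega
  apply S.lp (by omega) E hEc
  intro A hA
  let f : Multiset Ed →+ ℕ := Multiset.countPAddMonoidHom (· ∈ A)
  have hf : ∀ y, y.countP (· ∈ A) = f y := fun y => rfl
  rw [hf, map_add]
  have hnode : ∀ u ∈ s.words, av u → f (u.map m).sum + f c = 1 := by
    intro u hu hav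
    obtain ⟨v, hv⟩ := hsW' u hu hav
    have hvE : v ∈ E := by
      rw [hE, mem_filter]
      refine ⟨mem_univ v, ?_⟩
      obtain ⟨e, he⟩ := card_pos.1 (show 0 < (S.star v).card by have := S.four v; omega)
      refine ⟨e, ?_, he⟩
      have h1 : e ∈ (u.map m).sum + c := by rw [hv]; exact he
      rw [Multiset.mem_add] at h1
      rw [hU, mem_union, mem_biUnion]
      rcases h1 with h1 | h1
      · left
        obtain ⟨y, hy, hey⟩ := mem_list_sum m e u h1
        have hyL : L y := ⟨u, hu, hav, hy⟩
        exact ⟨y, mem_filter.2 ⟨mem_range.2 (hLk y hyL), hyL⟩, Multiset.mem_toFinset.2 hey⟩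
      · right
        exact Multiset.mem_toFinset.2 h1
    have h2 := hA v hvE
    rw [← map_add, hv, ← hf, Multiset.countP_eq_card_filter, ← h2, ← filter_mem_eq_inter]
    rfl
  let vA : ℕ → S70 := fun x => if ∃ m, mem m (φ x) then tr (f (m x)) else 0
  have hvA : ∀ x, (∃ m, mem m (φ x)) → vA x = tr (f (m x)) := fun x hx => if_pos hx
  have hvA' : ∀ x, ¬ (∃ m, mem m (φ x)) → vA x = 0 := fun x hx => if_neg hx
  have hval : ∀ u, av u → val vA u = tr (f (u.map m).sum) := fun u hav =>
    val_tr f vA m u fun x hx => hvA x (hav x hx)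
  have hval0 : ∀ u, ¬ av u → val vA u = 0 := by
    intro u hav
    rw [val_eq_zero]
    simp only [av, not_forall] at hav
    obtain ⟨x, hx, hx2⟩ := hav
    exact ⟨x, hx, hvA' x hx2⟩
  have h0 := hnode u0 hu0 hav0
  rcases (show f c = 0 ∨ f c = 1 by omega) with hfc | hfc
  · have h1 : s.eval vA = 0 ∨ s.eval vA = S70.of .a := by
      apply (eval_mem_ideal vA s _ ideal_a).2
      intro u hu
      by_cases hav : av u
      · right
        rw [hval u hav]
        have := hnode u hu hav
        rw [hfc, add_zero] at this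
        rw [this]; rfl
      · exact Or.inl (hval0 u hav)
    rw [hS vA] at h1
    have h2 := (eval_mem_ideal vA t _ ideal_a).1 h1 w hw
    rw [hval w hwne] at h2
    rcases h2 with h2 | h2
    · exact absurd h2 (tr_ne _)
    · rw [tr_eq_a h2, hfc]
  · have h1 : s.eval vA = 0 ∨ s.eval vA = S70.of .one := by
      apply (eval_mem_ideal vA s _ ideal_one).2
      intro u hu
      by_cases hav : av u
      · right
        rw [hval u hav]
        have := hnode u hu hav
        have h3 : f (u.map m).sum = 0 := by omega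
        rw [h3]; rfl
      · exact Or.inl (hval0 u hav)
    rw [hS vA] at h1
    have h2 := (eval_mem_ideal vA t _ ideal_one).1 h1 w hw
    rw [hval w hwne] at h2
    rcases h2 with h2 | h2
    · exact absurd h2 (tr_ne _)
    · rw [tr_eq_one h2, hfc]

end sys

end Pool.Agent.Q15.S70
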