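import Mathlib

/-!
# The semiring `S_7^0`: definitions
-/

set_option autoImplicit false
set_option linter.dupNamespace false

namespace Pool.Agent.Q15.S70

/-- Terms in the variables `x_0, x_1, …`, the constant `0` and the two binary operations. -/
inductive Term : Type
  | var : ℕ → Term
  | zero : Term
  | add : Term → Term → Term
  | mul : Term → Term → Term
deriving DecidableEq

/-- The value of a term. -/
def Term.eval {A : Type} [Add A] [Mul A] [Zero A] (v : ℕ → A) : Term → A
  | .var n => v n
  | .zero => 0
  | .add s t => s.eval v + t.eval v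
  | .mul s t => s.eval v * t.eval v

/-- The identity `e.1 ≈ e.2` holds in the algebra `A`. -/
def Holds (A : Type) [Add A] [Mul A] [Zero A] (e : Term × Term) : Prop :=
  ∀ v : ℕ → A, e.1.eval v = e.2.eval v

/-- The algebra `S` of signature `{+, ·, 0}` is finitely based: there is a finite set of identities
of `S` such that all algebras satisfying them satisfy all identities of `S`. -/
def FinitelyBased (S : Type) [Add S] [Mul S] [Zero S] : Prop :=
  ∃ E : Finset (Term × Term), (∀ e ∈ E, Holds S e) ∧
    ∀ (A : Type) [Add A] [Mul A] [Zero A], (∀ e ∈ E, Holds A e) → ∀ e, Holds S e → Holds A e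

/-- The three-element semiring `S_7 = {1, a, ∞}`. -/
inductive S7 : Type
  | one : S7
  | a : S7
  | inf : S7
deriving DecidableEq, Fintype

/-- `x + x = x`, and `x + y = ∞` for `x ≠ y`. -/
instance : Add S7 := ⟨fun x y => if x = y then x else S7.inf⟩

/-- `1` is the identity element, and all products of two elements `≠ 1` are `∞`. -/
def S7.mul : S7 → S7 → S7
  | .one, y => y
  | x, .one => x
  | _, _ => .inf

instance : Mul S7 := ⟨S7.mul⟩

/-- The semiring `S_7^0`: a new element `0` is adjoined. -/
inductive S70 : Type
  | zero : S70
  | of : S7 → S70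
deriving DecidableEq

instance : Fintype S70 := ⟨{S70.zero, S70.of .one, S70.of .a, S70.of .inf}, by
  intro x
  rcases x with _ | x
  · decide
  · cases x <;> decide⟩

instance : Zero S70 := ⟨S70.zero⟩

/-- `0` is an additive identity. -/
def S70.add : S70 → S70 → S70
  | .zero, y => y
  | x, .zero => x
  | .of x, .of y => .of (x + y)

/-- `0` is a multiplicative zero. -/
def S70.mul : S70 → S70 → S70
  | .of x, .of y => .of (x * y)
  | _, _ => .zero

instance : Add S70 := ⟨S70.add⟩

instance : Mul S70 := ⟨S70.mul⟩

end Pool.Agent.Q15.S70
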