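import Pool.Agent.Q15.S70Alg
import Pool.Agent.Q15.S70Cay

/-!
# The semiring `S_7^0` is not finitely based
-/

set_option autoImplicit false
set_option linter.unusedSectionVars false

namespace Pool.Agent.Q15.S70

open Finset

variable {N Ed : Type} [Fintype N] [DecidableEq N] [DecidableEq Ed] {K d : ℕ} (S : Sys N Ed K d)

/-! ### the algebra -/

/-- the cofactors of a set of multisets -/
def Sys.pol (X : PM Ed) (c : Multiset Ed) : Prop := ∀ z, mem z X → S.W (z + c)

/-- sets with the same cofactors are identified -/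
def Sys.stoid : Setoid (PM Ed) where
  r X Y := ∀ c, S.pol X c ↔ S.pol Y c
  iseqv := ⟨fun _ _ => Iff.rfl, fun h c => (h c).symm, fun h1 h2 c => (h1 c).trans (h2 c)⟩

/-- the algebra of a system of stars -/
def Sys.AW : Type := Quotient S.stoid

/-- the class of a set -/
def Sys.cl (X : PM Ed) : S.AW := Quotient.mk S.stoid X

theorem Sys.cl_eq {X Y : PM Ed} : S.cl X = S.cl Y ↔ ∀ c, S.pol X c ↔ S.pol Y c :=
  ⟨fun h => Quotient.exact h, fun h => Quotient.sound h⟩

theorem Sys.pol_add (X Y : PM Ed) (c : Multiset Ed) : S.pol (X + Y) c ↔ S.pol X c ∧ S.pol Y c := by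
  constructor
  · intro h
    exact ⟨fun z hz => h z ((mem_add z X Y).2 (Or.inl hz)),
      fun z hz => h z ((mem_add z X Y).2 (Or.inr hz))⟩
  · rintro ⟨h1, h2⟩ z hz
    rcases (mem_add z X Y).1 hz with h | h
    · exact h1 z h
    · exact h2 z h

theorem Sys.pol_mul (X Y : PM Ed) (c : Multiset Ed) :
    S.pol (X * Y) c ↔ ∀ y, mem y Y → S.pol X (y + c) := by
  constructor
  · intro h y hy x hx
    rw [← add_assoc]
    exact h (x + y) ((mem_mul _ X Y).2 ⟨x, hx, y, hy, rfl⟩)
  · intro h z hz
    obtain ⟨x, hx, y, hy, rfl⟩ := (mem_mul z X Y).1 hz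
    rw [add_assoc]
    exact h y hy x hx

theorem mul_comm_PM (X Y : PM Ed) : X * Y = Y * X := by
  funext z
  apply propext
  constructor
  · rintro ⟨x, hx, y, hy, rfl⟩
    exact ⟨y, hy, x, hx, add_comm x y⟩
  · rintro ⟨x, hx, y, hy, rfl⟩
    exact ⟨y, hy, x, hx, add_comm x y⟩

theorem Sys.mul_congr_left {X X' : PM Ed} (Y : PM Ed) (h : ∀ c, S.pol X c ↔ S.pol X' c)
    (c : Multiset Ed) : S.pol (X * Y) c ↔ S.pol (X' * Y) c := by
  rw [S.pol_mul, S.pol_mul]
  exact forall_congr' fun y => imp_congr_right fun _ => h (y + c)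

instance : Zero S.AW := ⟨S.cl 0⟩

instance : Add S.AW := ⟨Quotient.map₂ (sa := S.stoid) (sb := S.stoid) (sc := S.stoid)
  (fun X Y => X + Y) (by
    intro X X' hX Y Y' hY c
    show S.pol (X + Y) c ↔ S.pol (X' + Y') c
    rw [S.pol_add, S.pol_add, hX c, hY c])⟩

instance : Mul S.AW := ⟨Quotient.map₂ (sa := S.stoid) (sb := S.stoid) (sc := S.stoid)
  (fun X Y => X * Y) (by
    intro X X' hX Y Y' hY c
    show S.pol (X * Y) c ↔ S.pol (X' * Y') c
    rw [S.mul_congr_left Y hX c, mul_comm_PM X' Y, S.mul_congr_left X' hY c, mul_comm_PM Y' X'])⟩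

theorem Sys.cl_add (X Y : PM Ed) : S.cl (X + Y) = S.cl X + S.cl Y := rfl
theorem Sys.cl_mul (X Y : PM Ed) : S.cl (X * Y) = S.cl X * S.cl Y := rfl
theorem Sys.cl_zero : S.cl 0 = 0 := rfl

theorem Sys.eval_cl (φ : ℕ → PM Ed) : ∀ t : Term, t.eval (fun n => S.cl (φ n)) = S.cl (t.eval φ)
  | .var _ => rfl
  | .zero => rfl
  | .add s t => by
    show s.eval _ + t.eval _ = _
    rw [Sys.eval_cl φ s, Sys.eval_cl φ t]
    rfl
  | .mul s t => by
    show s.eval _ * t.eval _ = _
    rw [Sys.eval_cl φ s, Sys.eval_cl φ t]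
    rfl

/-- the algebra satisfies all identities of `S_7^0` in few variables -/
theorem Sys.holds {s t : Term} (h : Holds S70 (s, t)) {k : ℕ} (hs : s.lt k) (ht : t.lt k)
    (hK : 2 * (k * d + d) + 3 ≤ K) : Holds S.AW (s, t) := by
  intro v
  obtain ⟨φ, rfl⟩ : ∃ φ : ℕ → PM Ed, v = fun n => S.cl (φ n) := by
    refine ⟨fun n => Quotient.out (v n), ?_⟩
    funext n
    exact (Quotient.out_eq (s := S.stoid) (v n)).symm
  show s.eval _ = t.eval _
  rw [S.eval_cl, S.eval_cl, S.cl_eq]
  intro c
  constructor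
  · intro hc z hz
    exact S.main h hs hK φ c hc z hz
  · intro hc z hz
    exact S.main (s := t) (t := s) (fun v => (h v).symm) ht hK φ c hc z hz

/-! ### the identity -/

variable (ι : Ed → ℕ)

/-- the product of the variables of a nonempty list -/
def prodT : List ℕ → Term
  | [] => .zero
  | [x] => .var x
  | x :: y :: l => .mul (.var x) (prodT (y :: l))

/-- the sum of a list of terms -/
def sumT : List Term → Term
  | [] => .zero
  | t :: l => .add t (sumT l)

theorem words_prodT : ∀ l : List ℕ, l ≠ [] → (prodT l).words = {l}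
  | [], h => absurd rfl h
  | [x], _ => rfl
  | x :: y :: l, _ => by
    ext w
    constructor
    · rintro ⟨u, hu, v, hv, rfl⟩
      obtain rfl : u = [x] := hu
      rw [words_prodT (y :: l) (by simp)] at hv
      obtain rfl : v = y :: l := hv
      rfl
    · intro h
      obtain rfl : w = x :: y :: l := h
      refine ⟨[x], rfl, y :: l, ?_, rfl⟩
      rw [words_prodT (y :: l) (by simp)]
      rfl

theorem words_sumT (w : List ℕ) : ∀ l : List Term, w ∈ (sumT l).words ↔ ∃ t ∈ l, w ∈ t.words
  | [] => by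
    constructor
    · intro h; exact absurd h (Set.notMem_empty w)
    · rintro ⟨t, ht, _⟩; exact absurd ht List.not_mem_nil
  | t :: l => by
    show w ∈ t.words ∪ (sumT l).words ↔ _
    rw [Set.mem_union, words_sumT w l]
    simp

/-- the word of a finite set -/
noncomputable def wd (s : Finset Ed) : List ℕ := s.toList.map ι

theorem mem_wd (s : Finset Ed) (n : ℕ) : n ∈ wd ι s ↔ ∃ e ∈ s, ι e = n := by
  simp [wd]

theorem wd_ne {s : Finset Ed} (h : s.Nonempty) : wd ι s ≠ [] := by
  simp [wd, h.ne_empty]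

/-- all edges -/
def Sys.all : Finset Ed := univ.biUnion S.star

/-- the sum of the products of the stars -/
noncomputable def Sys.tH : Term := sumT (univ.toList.map fun v => prodT (wd ι (S.star v)))

/-- the product of all variables -/
noncomputable def Sys.uH : Term := prodT (wd ι S.all)

/-- the identity -/
noncomputable def Sys.idn : Term × Term := (S.tH ι, .add (S.tH ι) (S.uH ι))

theorem Sys.star_nonempty (v : N) : (S.star v).Nonempty := card_pos.1 (by have := S.four v; omega)

include S in
theorem Sys.nonempty : Nonempty N := by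
  have h1 := S.odd
  rw [← Fintype.card_pos_iff]
  exact h1.pos

theorem Sys.all_nonempty : S.all.Nonempty := by
  obtain ⟨v⟩ := S.nonempty
  obtain ⟨e, he⟩ := S.star_nonempty v
  exact ⟨e, mem_biUnion.2 ⟨v, mem_univ v, he⟩⟩

theorem Sys.words_tH (w : List ℕ) : w ∈ (S.tH ι).words ↔ ∃ v, w = wd ι (S.star v) := by
  unfold Sys.tH
  rw [words_sumT]
  constructor
  · rintro ⟨t, ht, hw⟩
    rw [List.mem_map] at ht
    obtain ⟨v, _, rfl⟩ := ht
    rw [words_prodT _ (wd_ne ι (S.star_nonempty v))] at hw
    exact ⟨v, hw⟩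
  · rintro ⟨v, rfl⟩
    refine ⟨_, List.mem_map.2 ⟨v, by simp, rfl⟩, ?_⟩
    rw [words_prodT _ (wd_ne ι (S.star_nonempty v))]
    rfl

theorem Sys.words_uH : (S.uH ι).words = {wd ι S.all} := words_prodT _ (wd_ne ι S.all_nonempty)

theorem Sys.holds_idn : Holds S70 (S.idn ι) := by
  classical
  intro v
  show (S.tH ι).eval v = (S.tH ι).eval v + (S.uH ι).eval v
  have hu : ∀ I : S70 → Prop, IsIdeal I → (I ((S.uH ι).eval v) ↔ I (val v (wd ι S.all))) := by
    intro I hI
    rw [eval_mem_ideal v _ I hI, S.words_uH]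
    constructor
    · intro h; exact h _ rfl
    · rintro h w rfl; exact h
  have ht : ∀ I : S70 → Prop, IsIdeal I → (I ((S.tH ι).eval v) ↔
      ∀ x, I (val v (wd ι (S.star x)))) := by
    intro I hI
    rw [eval_mem_ideal v _ I hI]
    constructor
    · intro h x
      exact h _ ((S.words_tH ι _).2 ⟨x, rfl⟩)
    · intro h w hw
      obtain ⟨x, rfl⟩ := (S.words_tH ι w).1 hw
      exact h x
  by_cases hz : ∃ e ∈ S.all, v (ι e) = 0
  · obtain ⟨e, he, hve⟩ := hz
    have h1 : (S.uH ι).eval v = 0 := by
      rw [hu _ ideal_zero, val_eq_zero]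
      exact ⟨ι e, (mem_wd ι _ _).2 ⟨e, he, rfl⟩, hve⟩
    rw [h1]
    have : ∀ x : S70, x = x + 0 := by decide
    exact this _
  · push Not at hz
    have hnz : ∀ x, val v (wd ι (S.star x)) ≠ 0 := by
      intro x hx
      rw [val_eq_zero] at hx
      obtain ⟨n, hn, hn0⟩ := hx
      obtain ⟨e, he, rfl⟩ := (mem_wd ι _ _).1 hn
      exact hz e (mem_biUnion.2 ⟨x, mem_univ x, he⟩) hn0
    obtain ⟨x0⟩ := S.nonempty
    have hcases : ∀ X : S70, X = 0 ∨ X = S70.of .one ∨ X = S70.of .a ∨ X = S70.of .inf := by decide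
    rcases hcases ((S.tH ι).eval v) with h | h | h | h
    · have := (ht _ ideal_zero).1 h x0
      exact absurd this (hnz x0)
    · have h1 := (ht _ ideal_one).1 (Or.inr h)
      have h2 : (S.uH ι).eval v = 0 ∨ (S.uH ι).eval v = S70.of .one := by
        rw [hu _ ideal_one]
        right
        rw [val_eq_one]
        intro n hn
        obtain ⟨e, he, rfl⟩ := (mem_wd ι _ _).1 hn
        obtain ⟨x, _, hx⟩ := mem_biUnion.1 he
        have h3 := (h1 x).resolve_left (hnz x)
        rw [val_eq_one] at h3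
        exact h3 _ ((mem_wd ι _ _).2 ⟨e, hx, rfl⟩)
      rw [h]
      rcases h2 with h2 | h2 <;> rw [h2] <;> decide
    · exfalso
      have h1 := (ht _ ideal_a).1 (Or.inr h)
      have h2 : ∀ x, val v (wd ι (S.star x)) = S70.of .a := fun x => (h1 x).resolve_left (hnz x)
      -- values are counted
      have h3 : ∀ e ∈ S.all, v (ι e) = S70.of .one ∨ v (ι e) = S70.of .a := by
        intro e he
        obtain ⟨x, _, hx⟩ := mem_biUnion.1 he
        have h4 : ∀ w : List ℕ, val v w = S70.of .a ∨ val v w = S70.of .one →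
            ∀ n ∈ w, v n = S70.of .one ∨ v n = S70.of .a := by
          intro w
          induction w with
          | nil => intro _ n hn; exact absurd hn List.not_mem_nil
          | cons c w ih =>
            intro hw n hn
            have h5 : ∀ p q : S70, (p * q = S70.of .a ∨ p * q = S70.of .one) →
                (p = S70.of .one ∨ p = S70.of .a) ∧ (q = S70.of .a ∨ q = S70.of .one) := by
              decide
            obtain ⟨h6, h7⟩ := h5 _ _ hw
            rcases List.mem_cons.1 hn with rfl | hn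
            · exact h6
            · exact ih h7 n hn
        exact h4 _ (Or.inl (h2 x)) _ ((mem_wd ι _ _).2 ⟨e, hx, rfl⟩)
      let A : Finset Ed := S.all.filter fun e => v (ι e) = S70.of .a
      apply S.not_exact A
      intro x _
      have h5 : ∀ l : List Ed, (∀ e ∈ l, e ∈ S.all) →
          val v (l.map ι) = tr (l.countP fun e => decide (e ∈ A)) := by
        intro l
        induction l with
        | nil => intro _; rfl
        | cons e l ih =>
          intro hl
          show v (ι e) * val v (l.map ι) = _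
          rw [ih fun e' he' => hl e' (by simp [he']), List.countP_cons, add_comm, tr_add]
          congr 1
          have hall := hl e (by simp)
          rcases h3 e hall with h6 | h6
          · have : e ∉ A := by
              intro hA
              rw [(mem_filter.1 hA).2] at h6
              exact absurd h6 (by decide)
            rw [h6, decide_eq_false this]
            rfl
          · have : e ∈ A := mem_filter.2 ⟨hall, h6⟩
            rw [h6, decide_eq_true this]
            rfl
      have h6 := h5 (S.star x).toList fun e he => mem_biUnion.2 ⟨x, mem_univ x, mem_toList.1 he⟩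
      have h7 : val v ((S.star x).toList.map ι) = S70.of .a := h2 x
      rw [h7] at h6
      have h8 := tr_eq_a h6.symm
      rw [← h8, List.countP_eq_length_filter]
      have h9 : (S.star x ∩ A).card = ((S.star x).filter (fun e => e ∈ A)).card := by
        rw [filter_mem_eq_inter]
      rw [h9, ← Multiset.coe_card]
      show Multiset.card (Multiset.filter _ (S.star x).val) = _
      rw [← coe_toList, Multiset.filter_coe]
    · rw [h]
      have : ∀ X : S70, S70.of .inf = S70.of .inf + X := by decide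
      exact this _

/-- the identity fails in the algebra -/
theorem Sys.not_holds_idn (hι : Function.Injective ι) : ¬ Holds S.AW (S.idn ι) := by
  classical
  intro h
  let φ : ℕ → PM Ed := fun n z => ∃ e, ι e = n ∧ z = {e}
  have hφ : ∀ e z, mem z (φ (ι e)) ↔ z = {e} := by
    intro e z
    constructor
    · rintro ⟨e', h1, h2⟩
      rw [hι h1] at h2
      exact h2
    · intro h
      exact ⟨e, rfl, h⟩
  have hval : ∀ (l : List Ed) (z : Multiset Ed), valS φ (l.map ι) z ↔ z = (l : Multiset Ed) := by
    intro l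
    induction l with
    | nil => intro z; exact Iff.rfl
    | cons e l ih =>
      intro z
      constructor
      · rintro ⟨m, hm, r, hr, rfl⟩
        rw [(hφ e m).1 hm, (ih r).1 hr, Multiset.singleton_add, Multiset.cons_coe]
      · intro hz
        refine ⟨{e}, (hφ e _).2 rfl, _, (ih _).2 rfl, ?_⟩
        rw [hz, Multiset.singleton_add, Multiset.cons_coe]
  have hwd : ∀ (s : Finset Ed) (z : Multiset Ed), valS φ (wd ι s) z ↔ z = s.val := by
    intro s z
    unfold wd
    rw [hval, coe_toList]
  have h1 := h (fun n => S.cl (φ n))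
  change (S.tH ι).eval _ = (Term.add (S.tH ι) (S.uH ι)).eval _ at h1
  rw [S.eval_cl, S.eval_cl, S.cl_eq] at h1
  have h2 : S.pol ((S.tH ι).eval φ) 0 := by
    intro z hz
    obtain ⟨w, hw, hwz⟩ := (mem_eval φ _ z).1 hz
    obtain ⟨v, rfl⟩ := (S.words_tH ι w).1 hw
    rw [(hwd _ _).1 hwz, add_zero]
    exact ⟨v, rfl⟩
  have h3 := (h1 0).1 h2
  have h4 : S.W (S.all.val + 0) := by
    apply h3
    rw [mem_eval]
    refine ⟨wd ι S.all, Or.inr ?_, (hwd _ _).2 rfl⟩
    rw [S.words_uH]
    rfl
  rw [add_zero] at h4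
  obtain ⟨v, hv⟩ := h4
  -- another node
  obtain ⟨e, he⟩ := S.star_nonempty v
  have h5 := S.two v e he
  obtain ⟨a, b, hab, hab'⟩ := card_eq_two.1 h5
  obtain ⟨w, hwv⟩ : ∃ w, w ≠ v := by
    by_cases ha : a = v
    · exact ⟨b, fun h => hab (ha.trans h.symm)⟩
    · exact ⟨a, ha⟩
  have h6 : (S.star w).val ≤ (S.star v).val := by
    rw [← hv]
    rw [val_le_iff]
    intro x hx
    exact mem_biUnion.2 ⟨w, mem_univ w, hx⟩
  exact hwv (S.star_le (m := (S.star w).val) (by have := S.four w; exact (by omega : 2 ≤ (S.star w).card))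
    le_rfl h6)

theorem exists_bound (E : Finset (Term × Term)) : ∃ k, ∀ e ∈ E, e.1.lt k ∧ e.2.lt k := by
  classical
  induction E using Finset.induction_on with
  | empty => exact ⟨0, fun e he => absurd he (notMem_empty e)⟩
  | insert e E' _ ih =>
    obtain ⟨k, hk⟩ := ih
    obtain ⟨l, hl⟩ := exists_lt e.1
    obtain ⟨r, hr⟩ := exists_lt e.2
    refine ⟨max k (max l r), fun f hf => ?_⟩
    rcases mem_insert.1 hf with rfl | hf
    · exact ⟨lt_mono (by omega) _ hl, lt_mono (by omega) _ hr⟩
    · exact ⟨lt_mono (by omega) _ (hk f hf).1, lt_mono (by omega) _ (hk f hf).2⟩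

/-- **The semiring `S_7^0` is not finitely based.** -/
theorem not_finitelyBased : ¬ FinitelyBased S70 := by
  rintro ⟨E, hE1, hE2⟩
  obtain ⟨k, hk⟩ := exists_bound E
  obtain ⟨N, Ed, i1, i2, i3, i4, ⟨S⟩⟩ := exists_sys (2 * (k * 5 + 5) + 3)
  let ι : Ed → ℕ := fun e => (Fintype.equivFin Ed e).val
  have hι : Function.Injective ι := fun a b h => (Fintype.equivFin Ed).injective (Fin.ext h)
  refine S.not_holds_idn ι hι (hE2 S.AW (fun e he => ?_) _ (S.holds_idn ι))
  obtain ⟨s, t⟩ := e
  exact S.holds (hE1 _ he) (hk _ he).1 (hk _ he).2 le_rfl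

end Pool.Agent.Q15.S70
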