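import Mathlib

/-!
# Systems of stars with two half-edges: local extension of exact hitting sets
-/

set_option autoImplicit false
set_option linter.unusedSectionVars false

namespace Pool.Agent.Q15.S7I

open Finset

/-- The stars of the nodes of a finite graph with two half-edges `x`, `y`, of degrees `≥ 4` and
without short cycles, such that there are perfect matchings and all contain exactly one half-edge. -/
structure Sy (N Ed : Type) [Fintype N] [DecidableEq N] [DecidableEq Ed] (K d : ℕ) where
  star : N → Finset Ed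
  four : ∀ v, 4 ≤ (star v).card
  bound : ∀ v, (star v).card ≤ d
  lo : ∀ v, d ≤ (star v).card + 1
  lin : ∀ v w, v ≠ w → (star v ∩ star w).card ≤ 1
  leaf : ∀ E : Finset N, E.Nonempty → E.card ≤ K →
    ∃ x ∈ E, (star x ∩ (E.erase x).biUnion star).card ≤ 1
  le2 : ∀ e, (univ.filter fun w => e ∈ star w).card ≤ 2
  x : Ed
  y : Ed
  xy : x ≠ y
  hx : ∃ v, x ∈ star v
  hy : ∃ v, y ∈ star v
  mt : Finset Ed
  hmt : ∀ v, (star v ∩ mt).card = 1
  forced : ∀ A : Finset Ed, (∀ v, (star v ∩ A).card = 1) → (x ∈ A ↔ y ∉ A)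

variable {N Ed : Type} [Fintype N] [DecidableEq N] [DecidableEq Ed] {K d : ℕ} (S : Sy N Ed K d)

/-- the set `A` hits all stars of nodes in `E` exactly once -/
def Sy.Exact (E : Finset N) (A : Finset Ed) : Prop := ∀ x ∈ E, (S.star x ∩ A).card = 1

theorem Sy.extend : ∀ (n : ℕ) (E : Finset N), E.card = n → n ≤ K → ∀ T B : Finset Ed, B ⊆ T →
    T.card ≤ 2 → (∀ x ∈ E, (B ∩ S.star x).card ≤ 1) →
    ∃ A : Finset Ed, S.Exact E A ∧ ∀ g ∈ T, g ∈ A ↔ g ∈ B := by
  intro n
  induction n with
  | zero =>
    intro E hE _ T B _ _ _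
    have : E = ∅ := card_eq_zero.1 hE
    subst this
    exact ⟨B, fun x hx => absurd hx (notMem_empty x), fun g _ => Iff.rfl⟩
  | succ n ih =>
    intro E hE hK T B hBT hT hB
    obtain ⟨x, hx, hleaf⟩ := S.leaf E (card_pos.1 (by omega)) (by omega)
    set E' := E.erase x with hE'
    have hE'c : E'.card = n := by rw [hE', card_erase_of_mem hx, hE]; rfl
    set P := S.star x ∩ E'.biUnion S.star with hP
    set Q := S.star x \ P with hQ
    have hQ3 : 3 ≤ Q.card := by
      have h1 := S.four x
      have h2 : Q.card = (S.star x).card - P.card := card_sdiff_of_subset inter_subset_left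
      omega
    have hQdis : ∀ y ∈ E', ∀ g ∈ Q, g ∉ S.star y := by
      intro y hy g hg hgy
      rw [hQ, mem_sdiff] at hg
      exact hg.2 (mem_inter.2 ⟨hg.1, mem_biUnion.2 ⟨y, hy, hgy⟩⟩)
    have hxQP : ∀ g ∈ S.star x, g ∈ P ∨ g ∈ Q := by
      intro g hg
      by_cases h : g ∈ P
      · exact Or.inl h
      · exact Or.inr (mem_sdiff.2 ⟨hg, h⟩)
    have hPx : P ⊆ S.star x := inter_subset_left
    have hQx : Q ⊆ S.star x := sdiff_subset
    have hE'E : ∀ y ∈ E', y ∈ E := fun y hy => mem_of_mem_erase hy
    -- two ways to continue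
    have goA : ∀ A q, S.Exact E' A → (∀ p ∈ P, p ∉ A) → q ∈ Q →
        S.Exact E (insert q (A \ Q)) := by
      intro A q hA hPA hq y hy
      by_cases hyx : y = x
      · subst hyx
        rw [card_eq_one]
        refine ⟨q, ?_⟩
        ext g
        simp only [mem_inter, mem_insert, mem_sdiff, mem_singleton]
        constructor
        · rintro ⟨h1, h2 | ⟨h2, h3⟩⟩
          · exact h2
          · rcases hxQP g h1 with h | h
            · exact absurd h2 (hPA g h)
            · exact absurd h h3
        · rintro rfl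
          exact ⟨hQx hq, Or.inl rfl⟩
      · have hy' : y ∈ E' := mem_erase.2 ⟨hyx, hy⟩
        rw [← hA y hy']
        congr 1
        ext g
        simp only [mem_inter, mem_insert, mem_sdiff]
        constructor
        · rintro ⟨h1, h2 | ⟨h2, _⟩⟩
          · subst h2
            exact absurd h1 (hQdis y hy' g hq)
          · exact ⟨h1, h2⟩
        · rintro ⟨h1, h2⟩
          exact ⟨h1, Or.inr ⟨h2, fun h => hQdis y hy' g h h1⟩⟩
    have goB : ∀ A, S.Exact E' A → (∃ p ∈ P, p ∈ A) → S.Exact E (A \ Q) := by
      intro A hA hPA y hy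
      obtain ⟨p, hp, hpA⟩ := hPA
      by_cases hyx : y = x
      · subst hyx
        rw [card_eq_one]
        refine ⟨p, ?_⟩
        ext g
        simp only [mem_inter, mem_sdiff, mem_singleton]
        constructor
        · rintro ⟨h1, h2, h3⟩
          rcases hxQP g h1 with h | h
          · exact card_le_one.1 hleaf g h p hp
          · exact absurd h h3
        · rintro rfl
          refine ⟨hPx hp, hpA, fun h => ?_⟩
          rw [hQ, mem_sdiff] at h
          exact h.2 hp
      · have hy' : y ∈ E' := mem_erase.2 ⟨hyx, hy⟩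
        rw [← hA y hy']
        congr 1
        ext g
        simp only [mem_inter, mem_sdiff]
        constructor
        · rintro ⟨h1, h2, _⟩
          exact ⟨h1, h2⟩
        · rintro ⟨h1, h2⟩
          exact ⟨h1, h2, fun h => hQdis y hy' g h h1⟩
    by_cases hTQ : ∀ g ∈ T, g ∉ Q
    · obtain ⟨A, hA, hAT⟩ := ih E' hE'c (by omega) T B hBT hT fun y hy => hB y (hE'E y hy)
      by_cases hPA : ∃ p ∈ P, p ∈ A
      · refine ⟨A \ Q, goB A hA hPA, fun g hg => ?_⟩
        rw [mem_sdiff, hAT g hg]
        exact ⟨fun h => h.1, fun h => ⟨h, hTQ g hg⟩⟩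
      · push Not at hPA
        obtain ⟨q, hq⟩ := card_pos.1 (show 0 < Q.card by omega)
        refine ⟨insert q (A \ Q), goA A q hA hPA hq, fun g hg => ?_⟩
        rw [mem_insert, mem_sdiff, hAT g hg]
        constructor
        · rintro (h | h)
          · subst h
            exact absurd hq (hTQ g hg)
          · exact h.1
        · intro h
          exact Or.inr ⟨h, hTQ g hg⟩
    · push Not at hTQ
      obtain ⟨g0, hg0T, hg0Q⟩ := hTQ
      have hTQc : (T \ Q).card ≤ 1 := by
        have h1 : (T \ Q) ⊂ T := by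
          refine ssubset_of_subset_of_ne sdiff_subset fun h => ?_
          have := h ▸ hg0T
          exact (mem_sdiff.1 this).2 hg0Q
        have := card_lt_card h1
        omega
      have hT'c : ((T \ Q) ∪ P).card ≤ 2 := by
        have := card_union_le (T \ Q) P
        omega
      have hBx := hB x hx
      by_cases hBQ : ∃ q ∈ B, q ∈ Q
      · obtain ⟨q, hqB, hqQ⟩ := hBQ
        have huniq : ∀ g ∈ B, g ∈ S.star x → g = q := fun g hg hgx =>
          card_le_one.1 hBx g (mem_inter.2 ⟨hg, hgx⟩) q (mem_inter.2 ⟨hqB, hQx hqQ⟩)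
        obtain ⟨A, hA, hAT⟩ := ih E' hE'c (by omega) ((T \ Q) ∪ P) (B \ Q) (by
          intro g hg
          rw [mem_sdiff] at hg
          exact mem_union_left _ (mem_sdiff.2 ⟨hBT hg.1, hg.2⟩)) hT'c (by
          intro y hy
          refine le_trans (card_le_card ?_) (hB y (hE'E y hy))
          exact inter_subset_inter_right sdiff_subset)
        have hPA : ∀ p ∈ P, p ∉ A := by
          intro p hp hpA
          have h1 := (hAT p (mem_union_right _ hp)).1 hpA
          rw [mem_sdiff] at h1
          have h2 := huniq p h1.1 (hPx hp)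
          rw [h2] at h1
          exact h1.2 hqQ
        refine ⟨insert q (A \ Q), goA A q hA hPA hqQ, fun g hg => ?_⟩
        rw [mem_insert, mem_sdiff]
        by_cases hgQ : g ∈ Q
        · constructor
          · rintro (h | h)
            · rw [h]; exact hqB
            · exact absurd hgQ h.2
          · intro h
            exact Or.inl (huniq g h (hQx hgQ))
        · have h1 := hAT g (mem_union_left _ (mem_sdiff.2 ⟨hg, hgQ⟩))
          rw [h1, mem_sdiff]
          constructor
          · rintro (h | h)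
            · subst h
              exact absurd hqQ hgQ
            · exact h.1.1
          · intro h
            exact Or.inr ⟨⟨h, hgQ⟩, hgQ⟩
      · push Not at hBQ
        by_cases hBP : ∃ p ∈ P, p ∈ B
        · obtain ⟨p, hpP, hpB⟩ := hBP
          have hpQ : p ∉ Q := fun h => (mem_sdiff.1 h).2 hpP
          obtain ⟨A, hA, hAT⟩ := ih E' hE'c (by omega) (T \ Q) B (by
            intro g hg
            exact mem_sdiff.2 ⟨hBT hg, hBQ g hg⟩) (by omega) fun y hy => hB y (hE'E y hy)
          refine ⟨A \ Q, goB A hA ⟨p, hpP, (hAT p (mem_sdiff.2 ⟨hBT hpB, hpQ⟩)).2 hpB⟩,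
            fun g hg => ?_⟩
          rw [mem_sdiff]
          by_cases hgQ : g ∈ Q
          · constructor
            · rintro ⟨_, h⟩
              exact absurd hgQ h
            · intro h
              exact absurd hgQ (hBQ g h)
          · rw [hAT g (mem_sdiff.2 ⟨hg, hgQ⟩)]
            exact ⟨fun h => h.1, fun h => ⟨h, hgQ⟩⟩
        · push Not at hBP
          obtain ⟨A, hA, hAT⟩ := ih E' hE'c (by omega) ((T \ Q) ∪ P) B (by
            intro g hg
            exact mem_union_left _ (mem_sdiff.2 ⟨hBT hg, hBQ g hg⟩)) hT'c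
            fun y hy => hB y (hE'E y hy)
          have hPA : ∀ p ∈ P, p ∉ A := fun p hp hpA =>
            hBP p hp ((hAT p (mem_union_right _ hp)).1 hpA)
          obtain ⟨q, hq⟩ : (Q \ T).Nonempty := by
            rw [← card_pos]
            have := le_card_sdiff T Q
            omega
          rw [mem_sdiff] at hq
          refine ⟨insert q (A \ Q), goA A q hA hPA hq.1, fun g hg => ?_⟩
          rw [mem_insert, mem_sdiff]
          by_cases hgQ : g ∈ Q
          · constructor
            · rintro (h | h)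
              · subst h
                exact absurd hg hq.2
              · exact absurd hgQ h.2
            · intro h
              exact absurd hgQ (hBQ g h)
          · rw [hAT g (mem_union_left _ (mem_sdiff.2 ⟨hg, hgQ⟩))]
            constructor
            · rintro (h | h)
              · subst h
                exact absurd hg hq.2
              · exact h.1
            · intro h
              exact Or.inr ⟨h, hgQ⟩

/-- a multiset which is hit exactly once by all exact sets is a star -/
theorem Sy.lp (hK3 : 3 ≤ K) (E : Finset N) (hE : E.card ≤ K) (z : Multiset Ed)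
    (h : ∀ A : Finset Ed, S.Exact E A → z.countP (· ∈ A) = 1) : ∃ v, z = (S.star v).val := by
  have ext := S.extend E.card E rfl hE
  -- no repetition
  have hnodup : z.Nodup := by
    rw [Multiset.nodup_iff_count_le_one]
    intro e
    obtain ⟨A, hA, hAT⟩ := ext {e} {e} (Subset.refl _) (by simp) (by
      intro x _
      refine le_trans (card_le_card inter_subset_left) (by simp))
    have h1 := h A hA
    have h2 : e ∈ A := (hAT e (mem_singleton_self e)).2 (mem_singleton_self e)
    have h3 : z.count e ≤ z.countP (· ∈ A) := by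
      rw [Multiset.count, Multiset.countP_eq_card_filter, Multiset.countP_eq_card_filter]
      apply Multiset.card_le_card
      apply Multiset.monotone_filter_right
      intro b hb
      rw [← hb]
      exact h2
    omega
  obtain ⟨s, rfl⟩ : ∃ s : Finset Ed, z = s.val := ⟨⟨z, hnodup⟩, rfl⟩
  have hs : ∀ A : Finset Ed, S.Exact E A → (s ∩ A).card = 1 := by
    intro A hA
    rw [← h A hA, Multiset.countP_eq_card_filter]
    rw [← filter_mem_eq_inter]
    rfl
  have hpair : ∀ e ∈ s, ∀ f ∈ s, e ≠ f → ∃ x ∈ E, e ∈ S.star x ∧ f ∈ S.star x := by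
    intro e he f hf hef
    by_contra hcon
    push Not at hcon
    obtain ⟨A, hA, hAT⟩ := ext {e, f} {e, f} (Subset.refl _) (card_le_two) (by
      intro x hx
      rw [card_le_one]
      intro a ha b hb
      rw [mem_inter, mem_insert, mem_singleton] at ha hb
      rcases ha.1 with rfl | rfl <;> rcases hb.1 with rfl | rfl
      · rfl
      · exact absurd hb.2 (hcon x hx ha.2)
      · exact absurd ha.2 (hcon x hx hb.2)
      · rfl)
    have h1 := hs A hA
    have h2 : ({e, f} : Finset Ed) ⊆ s ∩ A := by
      intro g hg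
      have hgA := (hAT g hg).2 hg
      rw [mem_insert, mem_singleton] at hg
      rcases hg with rfl | rfl
      · exact mem_inter.2 ⟨he, hgA⟩
      · exact mem_inter.2 ⟨hf, hgA⟩
    have h3 := card_le_card h2
    rw [card_pair hef] at h3
    omega
  have hne : ∃ e, e ∈ s := by
    obtain ⟨A, hA, _⟩ := ext ∅ ∅ (Subset.refl _) (by simp) (by intro x _; simp)
    have h1 := hs A hA
    obtain ⟨e, he⟩ := card_pos.1 (show 0 < (s ∩ A).card by omega)
    exact ⟨e, (mem_inter.1 he).1⟩
  obtain ⟨e, he⟩ := hne
  obtain ⟨f, hf, hfe⟩ : ∃ f ∈ s, f ≠ e := by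
    obtain ⟨A, hA, hAT⟩ := ext {e} ∅ (empty_subset _) (by simp) (by intro x _; simp)
    have h1 := hs A hA
    obtain ⟨f, hf⟩ := card_pos.1 (show 0 < (s ∩ A).card by omega)
    refine ⟨f, (mem_inter.1 hf).1, ?_⟩
    rintro rfl
    have := (hAT f (mem_singleton_self f)).1 (mem_inter.1 hf).2
    exact notMem_empty f this
  obtain ⟨x0, hx0, hex, hfx⟩ := hpair e he f hf (Ne.symm hfe)
  have hsub : s ⊆ S.star x0 := by
    intro g hg
    by_contra hgx
    have hge : g ≠ e := fun h => hgx (h ▸ hex)
    have hgf : g ≠ f := fun h => hgx (h ▸ hfx)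
    obtain ⟨x1, _, h1e, h1g⟩ := hpair e he g hg (Ne.symm hge)
    obtain ⟨x2, _, h2f, h2g⟩ := hpair f hf g hg (Ne.symm hgf)
    have h01 : x0 ≠ x1 := fun h => hgx (h ▸ h1g)
    have h02 : x0 ≠ x2 := fun h => hgx (h ▸ h2g)
    have h12 : x1 ≠ x2 := by
      rintro rfl
      have := card_le_one.1 (S.lin x0 x1 h01) e (mem_inter.2 ⟨hex, h1e⟩) f (mem_inter.2 ⟨hfx, h2f⟩)
      exact hfe this.symm
    obtain ⟨x, hx, hlf⟩ := S.leaf {x0, x1, x2} (by simp) (by
      refine le_trans card_le_three hK3)
    rw [card_le_one] at hlf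
    have hmem : ∀ (x y : N) (g : Ed), x ∈ ({x0, x1, x2} : Finset N) →
        y ∈ ({x0, x1, x2} : Finset N) → x ≠ y → g ∈ S.star x → g ∈ S.star y →
        g ∈ S.star x ∩ (({x0, x1, x2} : Finset N).erase x).biUnion S.star := by
      intro x y g _ hy hxy hgx hgy
      exact mem_inter.2 ⟨hgx, mem_biUnion.2 ⟨y, mem_erase.2 ⟨Ne.symm hxy, hy⟩, hgy⟩⟩
    have m0 : x0 ∈ ({x0, x1, x2} : Finset N) := by simp
    have m1 : x1 ∈ ({x0, x1, x2} : Finset N) := by simp
    have m2 : x2 ∈ ({x0, x1, x2} : Finset N) := by simp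
    have hx' := hx
    rw [mem_insert, mem_insert, mem_singleton] at hx'
    rcases hx' with rfl | rfl | rfl
    · exact hfe (hlf e (hmem _ x1 e m0 m1 h01 hex h1e) f (hmem _ x2 f m0 m2 h02 hfx h2f)).symm
    · exact hge (hlf g (hmem _ x2 g m1 m2 h12 h1g h2g) e (hmem _ x0 e m1 m0 (Ne.symm h01) h1e hex))
    · exact hgf (hlf g (hmem _ x1 g m2 m1 (Ne.symm h12) h2g h1g) f
        (hmem _ x0 f m2 m0 (Ne.symm h02) h2f hfx))
  refine ⟨x0, ?_⟩
  congr 1
  refine Subset.antisymm hsub fun g hg => ?_
  by_contra hgs
  obtain ⟨A, hA, hAT⟩ := ext {g} {g} (Subset.refl _) (by simp) (by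
    intro x _
    refine le_trans (card_le_card inter_subset_left) (by simp))
  have h1 := hs A hA
  have hgA : g ∈ A := (hAT g (mem_singleton_self g)).2 (mem_singleton_self g)
  obtain ⟨b, hb⟩ := card_pos.1 (show 0 < (s ∩ A).card by omega)
  rw [mem_inter] at hb
  have h2 := card_le_one.1 (hA x0 hx0).le b (mem_inter.2 ⟨hsub hb.1, hb.2⟩) g
    (mem_inter.2 ⟨hg, hgA⟩)
  rw [h2] at hb
  exact hgs hb.1

end Pool.Agent.Q15.S7I
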