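import Pool.Agent.Q15.S70Alg
import Pool.Agent.Q15.B2Sem
import Pool.Agent.Q15.S7IComb

/-!
# The semiring of a system of stars with two half-edges
-/

set_option autoImplicit false
set_option linter.unusedSectionVars false
set_option linter.unusedVariables false

namespace Pool.Agent.Q15.S7I

open Finset
open Pool.Agent.Q15.B2 (Term Holds words_ne words_nonempty IsAI)
open Pool.Agent.Q15.S70 (S7 S70 tr tr_add tr_ne tr_eq_one tr_eq_a)

/-! ### words -/

/-- all variables are smaller than `k` -/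
def lt (k : ℕ) : Term → Prop
  | .var n => n < k
  | .add s t => lt k s ∧ lt k t
  | .mul s t => lt k s ∧ lt k t

theorem words_lt (k : ℕ) : ∀ (t : Term), lt k t → ∀ w ∈ t.words, ∀ x ∈ w, x < k
  | .var n, h, w, hw, x, hx => by
    obtain rfl : w = [n] := hw
    rw [List.mem_singleton] at hx
    rw [hx]; exact h
  | .add s t, h, w, hw, x, hx => by
    rcases hw with hw | hw
    · exact words_lt k s h.1 w hw x hx
    · exact words_lt k t h.2 w hw x hx
  | .mul s t, h, w, hw, x, hx => by
    obtain ⟨u, hu, v, hv, rfl⟩ := hw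
    rcases List.mem_append.1 hx with hx | hx
    · exact words_lt k s h.1 u hu x hx
    · exact words_lt k t h.2 v hv x hx

/-! ### evaluation in `S_7^0` -/

theorem isAI_S70 : IsAI S70 := ⟨by decide, by decide, by decide, by decide, by decide, by decide⟩

/-- the value of a word in `S_7^0` -/
def val (v : ℕ → S70) : List ℕ → S70
  | [] => S70.of .one
  | x :: l => v x * val v l

theorem mul_one' : ∀ x : S70, x * S70.of .one = x := by decide

theorem val_eq (v : ℕ → S70) : ∀ w : List ℕ, w ≠ [] → B2.val v w = val v w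
  | [], h => absurd rfl h
  | [x], _ => (mul_one' (v x)).symm
  | x :: y :: l, _ => by
    show v x * B2.val v (y :: l) = v x * val v (y :: l)
    rw [val_eq v (y :: l) (by simp)]

/-- the principal ideals of `S_7^0` -/
theorem eval_ideal (v : ℕ → S70) (t : Term) (z : S70) :
    t.eval v + z = z ↔ ∀ w ∈ t.words, val v w + z = z := by
  rw [B2.eval_mem_ideal isAI_S70 v t _ (B2.ideal_le isAI_S70 z)]
  constructor
  · intro h w hw
    rw [← val_eq v w (words_ne t w hw)]
    exact h w hw
  · intro h w hw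
    show B2.val v w + z = z
    rw [val_eq v w (words_ne t w hw)]
    exact h w hw

theorem le_zero_iff : ∀ x : S70, x + 0 = 0 ↔ x = 0 := by decide
theorem le_one_iff : ∀ x : S70, x + S70.of .one = S70.of .one ↔ x = 0 ∨ x = S70.of .one := by decide
theorem le_a_iff : ∀ x : S70, x + S70.of .a = S70.of .a ↔ x = 0 ∨ x = S70.of .a := by decide

/-- the value of a word is zero iff a letter is zero -/
theorem val_eq_zero (v : ℕ → S70) : ∀ w : List ℕ, val v w = 0 ↔ ∃ x ∈ w, v x = 0
  | [] => by
    constructor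
    · intro h; exact absurd (show S70.of .one = 0 from h) (by decide)
    · rintro ⟨x, hx, _⟩; exact absurd hx (List.not_mem_nil)
  | x :: w => by
    have h1 : ∀ a b : S70, a * b = 0 ↔ a = 0 ∨ b = 0 := by decide
    show v x * val v w = 0 ↔ _
    rw [h1, val_eq_zero v w]
    simp

theorem val_eq_one (v : ℕ → S70) : ∀ w : List ℕ, val v w = S70.of .one ↔
    ∀ x ∈ w, v x = S70.of .one
  | [] => by
    constructor
    · intro _ x hx; exact absurd hx (List.not_mem_nil)
    · intro _; rfl
  | x :: w => by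
    have h1 : ∀ a b : S70, a * b = S70.of .one ↔ a = S70.of .one ∧ b = S70.of .one := by decide
    show v x * val v w = S70.of .one ↔ _
    rw [h1, val_eq_one v w]
    simp

/-- the value of a word given by counts -/
theorem val_tr {M : Type} [AddCommMonoid M] (f : M →+ ℕ) (v : ℕ → S70) (m : ℕ → M) :
    ∀ w : List ℕ, (∀ x ∈ w, v x = tr (f (m x))) → val v w = tr (f (w.map m).sum)
  | [], _ => by simp [val, tr]
  | x :: w, h => by
    show v x * val v w = _
    rw [h x (by simp), val_tr f v m w fun y hy => h y (by simp [hy]), ← tr_add, List.map_cons,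
      List.sum_cons, map_add]

/-! ### the algebra of nonempty sets of nonempty multisets -/

variable {N Ed : Type}

/-- nonempty sets of nonempty multisets -/
def PM (Ed : Type) : Type := {X : Multiset Ed → Prop // (∃ z, X z) ∧ ∀ z, X z → z ≠ 0}

/-- membership -/
def mem (z : Multiset Ed) (X : PM Ed) : Prop := X.1 z

instance : Add (PM Ed) := ⟨fun X Y => ⟨fun z => X.1 z ∨ Y.1 z, by
  obtain ⟨z, hz⟩ := X.2.1
  exact ⟨⟨z, Or.inl hz⟩, fun z hz => hz.elim (X.2.2 z) (Y.2.2 z)⟩⟩⟩

instance : Mul (PM Ed) := ⟨fun X Y => ⟨fun z => ∃ x, X.1 x ∧ ∃ y, Y.1 y ∧ z = x + y, by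
  obtain ⟨x, hx⟩ := X.2.1
  obtain ⟨y, hy⟩ := Y.2.1
  refine ⟨⟨x + y, x, hx, y, hy, rfl⟩, ?_⟩
  rintro z ⟨x, hx, y, hy, rfl⟩ h
  exact X.2.2 x hx (add_eq_zero.1 h).1⟩⟩

theorem mem_add (z : Multiset Ed) (X Y : PM Ed) : mem z (X + Y) ↔ mem z X ∨ mem z Y := Iff.rfl
theorem mem_mul (z : Multiset Ed) (X Y : PM Ed) : mem z (X * Y) ↔
    ∃ x, mem x X ∧ ∃ y, mem y Y ∧ z = x + y := Iff.rfl

/-- the values of a word -/
def valS (φ : ℕ → PM Ed) : List ℕ → Multiset Ed → Prop
  | [], z => z = 0
  | x :: l, z => ∃ m, mem m (φ x) ∧ ∃ r, valS φ l r ∧ z = m + r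

theorem valS_append (φ : ℕ → PM Ed) : ∀ (a b : List ℕ) (z : Multiset Ed),
    valS φ (a ++ b) z ↔ ∃ x, valS φ a x ∧ ∃ y, valS φ b y ∧ z = x + y
  | [], b, z => by
    constructor
    · intro h
      exact ⟨0, rfl, z, h, (zero_add z).symm⟩
    · rintro ⟨x, hx, y, hy, rfl⟩
      obtain rfl : x = 0 := hx
      rw [zero_add]
      exact hy
  | c :: a, b, z => by
    constructor
    · rintro ⟨m, hm, r, hr, rfl⟩
      obtain ⟨x, hx, y, hy, rfl⟩ := (valS_append φ a b r).1 hr
      exact ⟨m + x, ⟨m, hm, x, hx, rfl⟩, y, hy, (add_assoc m x y).symm⟩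
    · rintro ⟨x, ⟨m, hm, r, hr, rfl⟩, y, hy, rfl⟩
      exact ⟨m, hm, r + y, (valS_append φ a b _).2 ⟨r, hr, y, hy, rfl⟩, add_assoc m r y⟩

theorem mem_eval (φ : ℕ → PM Ed) (t : Term) : ∀ z, mem z (t.eval φ) ↔
    ∃ w ∈ t.words, valS φ w z := by
  induction t with
  | var n =>
    intro z
    constructor
    · intro h
      exact ⟨[n], rfl, z, h, 0, rfl, (add_zero z).symm⟩
    · rintro ⟨w, rfl, m, hm, r, hr, rfl⟩
      obtain rfl : r = 0 := hr
      rw [add_zero]
      exact hm
  | add s t hs ht =>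
    intro z
    show mem z (s.eval φ + t.eval φ) ↔ _
    rw [mem_add, hs, ht]
    constructor
    · rintro (⟨w, hw, h⟩ | ⟨w, hw, h⟩)
      · exact ⟨w, Or.inl hw, h⟩
      · exact ⟨w, Or.inr hw, h⟩
    · rintro ⟨w, hw | hw, h⟩
      · exact Or.inl ⟨w, hw, h⟩
      · exact Or.inr ⟨w, hw, h⟩
  | mul s t hs ht =>
    intro z
    show mem z (s.eval φ * t.eval φ) ↔ _
    rw [mem_mul]
    constructor
    · rintro ⟨x, hx, y, hy, rfl⟩
      obtain ⟨u, hu, h1⟩ := (hs x).1 hx
      obtain ⟨v, hv, h2⟩ := (ht y).1 hy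
      exact ⟨u ++ v, ⟨u, hu, v, hv, rfl⟩, (valS_append φ u v _).2 ⟨x, h1, y, h2, rfl⟩⟩
    · rintro ⟨w, ⟨u, hu, v, hv, rfl⟩, h⟩
      obtain ⟨x, h1, y, h2, rfl⟩ := (valS_append φ u v _).1 h
      exact ⟨x, (hs x).2 ⟨u, hu, h1⟩, y, (ht y).2 ⟨v, hv, h2⟩, rfl⟩

theorem mem_list_sum (m : ℕ → Multiset Ed) (e : Ed) : ∀ u : List ℕ, e ∈ (u.map m).sum ↔
    ∃ y ∈ u, e ∈ m y
  | [] => by simp
  | x :: u => by
    rw [List.map_cons, List.sum_cons, Multiset.mem_add, mem_list_sum m e u]
    simp

/-- representatives -/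
theorem valS_rep (φ : ℕ → PM Ed) (m : ℕ → Multiset Ed) (hm : ∀ x, mem (m x) (φ x)) :
    ∀ w : List ℕ, valS φ w (w.map m).sum
  | [] => rfl
  | x :: w => ⟨m x, hm x, _, valS_rep φ m hm w, by simp⟩

theorem valS_exists (φ : ℕ → PM Ed) (w : List ℕ) : ∃ z, valS φ w z :=
  ⟨_, valS_rep φ (fun x => (φ x).2.1.choose) (fun x => (φ x).2.1.choose_spec) w⟩

theorem valS_length (φ : ℕ → PM Ed) : ∀ (w : List ℕ) (z : Multiset Ed), valS φ w z →
    w.length ≤ z.card
  | [], z, _ => Nat.zero_le _
  | x :: w, z, h => by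
    obtain ⟨m, hm, r, hr, rfl⟩ := h
    have h1 := valS_length φ w r hr
    have h2 : 0 < m.card := Multiset.card_pos.2 ((φ x).2.2 m hm)
    rw [Multiset.card_add, List.length_cons]
    omega

section sys

variable [Fintype N] [DecidableEq N] [DecidableEq Ed] {K d : ℕ} (S : Sy N Ed K d)

/-- the stars as multisets -/
def Sy.W (m : Multiset Ed) : Prop := ∃ v, m = (S.star v).val

theorem Sy.star_le {v w : N} {m : Multiset Ed} (hm : 2 ≤ m.card) (h1 : m ≤ (S.star v).val)
    (h2 : m ≤ (S.star w).val) : v = w := by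
  by_contra hne
  have h3 := S.lin v w hne
  have hnd : m.Nodup := Multiset.nodup_of_le h1 (S.star v).nodup
  have h4 : (⟨m, hnd⟩ : Finset Ed) ⊆ S.star v ∩ S.star w := by
    intro x hx
    exact mem_inter.2 ⟨Multiset.mem_of_le h1 hx, Multiset.mem_of_le h2 hx⟩
  have h5 := card_le_card h4
  have h6 : (⟨m, hnd⟩ : Finset Ed).card = m.card := rfl
  omega

/-- two multisets with a common cofactor have the same cofactors -/
theorem Sy.cof {m m' r c : Multiset Ed} (h1 : S.W (m + r)) (h2 : S.W (m' + r)) (h3 : S.W (m + c)) :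
    S.W (m' + c) := by
  obtain ⟨v, hv⟩ := h1
  obtain ⟨v', hv'⟩ := h2
  obtain ⟨w, hw⟩ := h3
  by_cases hr : 2 ≤ r.card
  · have : v = v' := S.star_le hr (hv ▸ Multiset.le_add_left r m) (hv' ▸ Multiset.le_add_left r m')
    subst this
    have : m = m' := by
      have := hv.trans hv'.symm
      exact add_right_cancel this
    subst this
    exact ⟨w, hw⟩
  · have h4 : 2 ≤ m.card := by
      have h5 := congrArg Multiset.card hv
      rw [Multiset.card_add] at h5
      have h6 := S.four v
      have h7 : (S.star v).val.card = (S.star v).card := rfl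
      omega
    have : v = w := S.star_le h4 (hv ▸ Multiset.le_add_right m r) (hw ▸ Multiset.le_add_right m c)
    subst this
    have : r = c := add_left_cancel (hv.trans hw.symm)
    subst this
    exact ⟨v', hv'⟩

theorem Sy.swap (φ : ℕ → PM Ed) (m : ℕ → Multiset Ed) : ∀ (w : List ℕ),
    (∀ x ∈ w, ∀ m', mem m' (φ x) → ∀ c, S.W (m' + c) ↔ S.W (m x + c)) →
    ∀ z, valS φ w z → ∀ c, S.W (z + c) ↔ S.W ((w.map m).sum + c)
  | [], _, z, hz, c => by
    obtain rfl : z = 0 := hz
    rfl
  | x :: w, h, z, hz, c => by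
    obtain ⟨m', hm', r, hr, rfl⟩ := hz
    rw [List.map_cons, List.sum_cons, add_assoc, h x (by simp) m' hm' (r + c)]
    have h1 := Sy.swap φ m w (fun y hy => h y (by simp [hy])) r hr (m x + c)
    have e1 : m x + (r + c) = r + (m x + c) := by abel
    have e2 : m x + (w.map m).sum + c = (w.map m).sum + (m x + c) := by abel
    rw [e1, e2]
    exact h1

/-- letters of a word of `s` all of whose values times `c` are stars -/
theorem Sy.split (φ : ℕ → PM Ed) (m : ℕ → Multiset Ed) (hm : ∀ x, mem (m x) (φ x)) (s : Term)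
    (c : Multiset Ed) (hc : ∀ z, mem z (s.eval φ) → S.W (z + c)) (u : List ℕ) (hu : u ∈ s.words)
    (x : ℕ) (hx : x ∈ u) : ∃ r, ∀ m', mem m' (φ x) → S.W (m' + r) := by
  obtain ⟨p, q, rfl⟩ := List.append_of_mem hx
  refine ⟨(p.map m).sum + (q.map m).sum + c, fun m' hm' => ?_⟩
  have h1 : valS φ (p ++ x :: q) ((p.map m).sum + (m' + (q.map m).sum)) := by
    rw [valS_append]
    exact ⟨_, valS_rep φ m hm p, _, ⟨m', hm', _, valS_rep φ m hm q, rfl⟩, rfl⟩
  have h2 := hc _ ((mem_eval φ s _).2 ⟨_, hu, h1⟩)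
  have e : (p.map m).sum + (m' + (q.map m).sum) + c = m' + ((p.map m).sum + (q.map m).sum + c) := by
    abel
  rwa [e] at h2

theorem Sy.swap' (φ : ℕ → PM Ed) (m : ℕ → Multiset Ed) (hm : ∀ x, mem (m x) (φ x)) (s : Term)
    (c : Multiset Ed) (hc : ∀ z, mem z (s.eval φ) → S.W (z + c)) (w : List ℕ)
    (hw : ∀ x ∈ w, ∃ u ∈ s.words, x ∈ u) (z : Multiset Ed) (hz : valS φ w z) :
    S.W (z + c) ↔ S.W ((w.map m).sum + c) := by
  refine S.swap φ m w (fun x hx m' hm' c' => ?_) z hz c
  obtain ⟨u, hu, hxu⟩ := hw x hx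
  obtain ⟨r, hr⟩ := S.split φ m hm s c hc u hu x hxu
  exact ⟨fun h => S.cof (hr m' hm') (hr (m x) (hm x)) h,
    fun h => S.cof (hr (m x) (hm x)) (hr m' hm') h⟩

/-- identities of `S_7` in few variables -/
theorem Sy.mainA {s t : Term} (hS : ∀ v : ℕ → S70, (∀ n, v n ≠ 0) → s.eval v = t.eval v) {k : ℕ}
    (hs : lt k s) (hK : 2 * (k * d + d) + 3 ≤ K) (φ : ℕ → PM Ed) (c : Multiset Ed)
    (hc : ∀ z, mem z (s.eval φ) → S.W (z + c)) (z : Multiset Ed) (hz : mem z (t.eval φ)) :
    S.W (z + c) := by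
  classical
  obtain ⟨w, hw, hwz⟩ := (mem_eval φ t z).1 hz
  let m : ℕ → Multiset Ed := fun x => (φ x).2.1.choose
  have hm : ∀ x, mem (m x) (φ x) := fun x => (φ x).2.1.choose_spec
  have hsW : ∀ u ∈ s.words, S.W ((u.map m).sum + c) := fun u hu =>
    hc _ ((mem_eval φ s _).2 ⟨u, hu, valS_rep φ m hm u⟩)
  -- every letter of `w` is a letter of a word of `s`
  have hletter : ∀ x ∈ w, ∃ u ∈ s.words, x ∈ u := by
    intro x hxw
    by_contra hcon
    push Not at hcon
    let v1 : ℕ → S70 := fun y => if y = x then S70.of .inf else S70.of .one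
    have hv1 : ∀ n, v1 n ≠ 0 := by
      intro n
      by_cases h : n = x
      · simp only [v1, if_pos h]; decide
      · simp only [v1, if_neg h]; decide
    have h1 : s.eval v1 + S70.of .one = S70.of .one := by
      rw [eval_ideal]
      intro u hu
      rw [le_one_iff]
      right
      rw [val_eq_one]
      intro y hy
      have hyx : y ≠ x := by
        rintro rfl
        exact hcon u hu hy
      simp only [v1, if_neg hyx]
    rw [hS v1 hv1, eval_ideal] at h1
    have h2 := (le_one_iff _).1 (h1 w hw)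
    rcases h2 with h2 | h2
    · rw [val_eq_zero] at h2
      obtain ⟨y, _, hy2⟩ := h2
      exact hv1 y hy2
    · rw [val_eq_one] at h2
      have := h2 x hxw
      simp only [v1, if_true] at this
      exact absurd this (by decide)
  rw [S.swap' φ m hm s c hc w hletter z hwz]
  -- good letters
  let L : ℕ → Prop := fun x => ∃ u ∈ s.words, x ∈ u
  have hLk : ∀ x, L x → x < k := by
    rintro x ⟨u, hu, hx⟩
    exact words_lt k s hs u hu x hx
  obtain ⟨u0, hu0⟩ := words_nonempty s
  have hcc : c.toFinset.card ≤ d := by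
    obtain ⟨v, hv⟩ := hsW u0 hu0
    have h1 : c ≤ (S.star v).val := hv ▸ Multiset.le_add_left c _
    have h2 : c.toFinset ⊆ S.star v := by
      intro e he
      exact Multiset.mem_of_le h1 (Multiset.mem_toFinset.1 he)
    exact (card_le_card h2).trans (S.bound v)
  have hmc : ∀ x, L x → (m x).toFinset.card ≤ d := by
    rintro x ⟨u, hu, hxu⟩
    obtain ⟨r, hr⟩ := S.split φ m hm s c hc u hu x hxu
    obtain ⟨v, hv⟩ := hr (m x) (hm x)
    have h1 : m x ≤ (S.star v).val := hv ▸ Multiset.le_add_right _ r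
    have h2 : (m x).toFinset ⊆ S.star v := by
      intro e he
      exact Multiset.mem_of_le h1 (Multiset.mem_toFinset.1 he)
    exact (card_le_card h2).trans (S.bound v)
  set U : Finset Ed := ((range k).filter L).biUnion (fun x => (m x).toFinset) ∪ c.toFinset with hU
  have hUc : U.card ≤ k * d + d := by
    refine (card_union_le _ _).trans (Nat.add_le_add ?_ hcc)
    refine (card_biUnion_le).trans ?_
    refine (sum_le_sum (g := fun _ => d) fun x hx => hmc x (mem_filter.1 hx).2).trans ?_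
    rw [sum_const, smul_eq_mul]
    refine Nat.mul_le_mul_right d ?_
    exact (card_filter_le _ _).trans (by simp)
  set E : Finset N := univ.filter (fun v => ∃ e ∈ U, e ∈ S.star v) with hE
  have hEc : E.card ≤ K := by
    have h1 : E ⊆ U.biUnion (fun e => univ.filter (fun v => e ∈ S.star v)) := by
      intro v hv
      rw [hE, mem_filter] at hv
      obtain ⟨_, e, he, hev⟩ := hv
      exact mem_biUnion.2 ⟨e, he, mem_filter.2 ⟨mem_univ v, hev⟩⟩
    have h3 := (card_le_card h1).trans card_biUnion_le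
    have h4 := sum_le_sum fun e (_ : e ∈ U) => S.le2 e
    rw [sum_const, smul_eq_mul] at h4
    omega
  apply S.lp (by omega) E hEc
  intro A hA
  let f : Multiset Ed →+ ℕ := Multiset.countPAddMonoidHom (· ∈ A)
  have hf : ∀ y, y.countP (· ∈ A) = f y := fun y => rfl
  rw [hf, map_add]
  have hnode : ∀ u ∈ s.words, f (u.map m).sum + f c = 1 := by
    intro u hu
    obtain ⟨v, hv⟩ := hsW u hu
    have hvE : v ∈ E := by
      rw [hE, mem_filter]
      refine ⟨mem_univ v, ?_⟩
      obtain ⟨e, he⟩ := card_pos.1 (show 0 < (S.star v).card by have := S.four v; omega)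
      refine ⟨e, ?_, he⟩
      have h1 : e ∈ (u.map m).sum + c := by rw [hv]; exact he
      rw [Multiset.mem_add] at h1
      rw [hU, mem_union, mem_biUnion]
      rcases h1 with h1 | h1
      · left
        obtain ⟨y, hy, hey⟩ := (mem_list_sum m e u).1 h1
        have hyL : L y := ⟨u, hu, hy⟩
        exact ⟨y, mem_filter.2 ⟨mem_range.2 (hLk y hyL), hyL⟩, Multiset.mem_toFinset.2 hey⟩
      · right
        exact Multiset.mem_toFinset.2 h1
    have h2 := hA v hvE
    rw [← map_add, hv, ← hf, Multiset.countP_eq_card_filter, ← h2, ← filter_mem_eq_inter]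
    rfl
  let vA : ℕ → S70 := fun x => tr (f (m x))
  have hvA : ∀ n, vA n ≠ 0 := fun n => tr_ne _
  have hval : ∀ u, val vA u = tr (f (u.map m).sum) := fun u =>
    val_tr f vA m u fun x _ => rfl
  have h0 := hnode u0 hu0
  rcases (show f c = 0 ∨ f c = 1 by omega) with hfc | hfc
  · have h1 : s.eval vA + S70.of .a = S70.of .a := by
      rw [eval_ideal]
      intro u hu
      rw [le_a_iff]
      right
      rw [hval u]
      have := hnode u hu
      rw [hfc, add_zero] at this
      rw [this]; rfl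
    rw [hS vA hvA, eval_ideal] at h1
    have h2 := (le_a_iff _).1 (h1 w hw)
    rw [hval w] at h2
    rcases h2 with h2 | h2
    · exact absurd h2 (tr_ne _)
    · rw [tr_eq_a h2, hfc]
  · have h1 : s.eval vA + S70.of .one = S70.of .one := by
      rw [eval_ideal]
      intro u hu
      rw [le_one_iff]
      right
      rw [hval u]
      have := hnode u hu
      have h3 : f (u.map m).sum = 0 := by omega
      rw [h3]; rfl
    rw [hS vA hvA, eval_ideal] at h1
    have h2 := (le_one_iff _).1 (h1 w hw)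
    rw [hval w] at h2
    rcases h2 with h2 | h2
    · exact absurd h2 (tr_ne _)
    · rw [tr_eq_one h2, hfc]

/-- identities of `S_7^0` -/
theorem Sy.mainB {s t : Term} (hS : ∀ v : ℕ → S70, s.eval v = t.eval v) (hK : 3 ≤ K)
    (φ : ℕ → PM Ed) (c : Multiset Ed)
    (hc : ∀ z, mem z (s.eval φ) → S.W (z + c)) (z : Multiset Ed) (hz : mem z (t.eval φ)) :
    S.W (z + c) := by
  classical
  obtain ⟨w, hw, hwz⟩ := (mem_eval φ t z).1 hz
  let m : ℕ → Multiset Ed := fun x => (φ x).2.1.choose
  have hm : ∀ x, mem (m x) (φ x) := fun x => (φ x).2.1.choose_spec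
  have hsW : ∀ u ∈ s.words, S.W ((u.map m).sum + c) := fun u hu =>
    hc _ ((mem_eval φ s _).2 ⟨u, hu, valS_rep φ m hm u⟩)
  have hletter : ∀ x ∈ w, ∃ u ∈ s.words, (∀ y ∈ u, y ∈ w) ∧ x ∈ u := by
    intro x hxw
    by_contra hcon
    push Not at hcon
    let v1 : ℕ → S70 := fun y => if y = x then S70.of .inf else if y ∈ w then S70.of .one else 0
    have h1 : s.eval v1 + S70.of .one = S70.of .one := by
      rw [eval_ideal]
      intro u hu
      rw [le_one_iff]
      by_cases huw : ∀ y ∈ u, y ∈ w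
      · right
        rw [val_eq_one]
        intro y hy
        have hyx : y ≠ x := by
          rintro rfl
          exact hcon u hu huw hy
        simp only [v1, if_neg hyx, if_pos (huw y hy)]
      · left
        push Not at huw
        obtain ⟨y, hy, hyw⟩ := huw
        rw [val_eq_zero]
        refine ⟨y, hy, ?_⟩
        have hyx : y ≠ x := by
          rintro rfl
          exact hyw hxw
        simp only [v1, if_neg hyx, if_neg hyw]
    rw [hS v1, eval_ideal] at h1
    have h2 := (le_one_iff _).1 (h1 w hw)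
    rcases h2 with h2 | h2
    · rw [val_eq_zero] at h2
      obtain ⟨y, hy, hy2⟩ := h2
      by_cases h3 : y = x
      · simp only [v1, if_pos h3] at hy2
        exact absurd hy2 (by decide)
      · simp only [v1, if_neg h3, if_pos hy] at hy2
        exact absurd hy2 (by decide)
    · rw [val_eq_one] at h2
      have := h2 x hxw
      simp only [v1, if_true] at this
      exact absurd this (by decide)
  rw [S.swap' φ m hm s c hc w (fun x hx => by
    obtain ⟨u, hu, _, h⟩ := hletter x hx
    exact ⟨u, hu, h⟩) z hwz]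
  obtain ⟨u0, hu0, hu0w⟩ : ∃ u ∈ s.words, ∀ y ∈ u, y ∈ w := by
    obtain ⟨x, hx⟩ := List.exists_mem_of_ne_nil w (words_ne t w hw)
    obtain ⟨u, hu, h, _⟩ := hletter x hx
    exact ⟨u, hu, h⟩
  set Y := (w.map m).sum + c with hY
  -- the relevant nodes
  set E : Finset N := univ.filter (fun v => ∃ u ∈ s.words, (∀ y ∈ u, y ∈ w) ∧
    (u.map m).sum + c = (S.star v).val) with hE
  have hEY : ∀ v ∈ E, ∀ e ∈ S.star v, e ∈ Y := by
    intro v hv e he
    rw [hE, mem_filter] at hv
    obtain ⟨_, u, _, huw, huv⟩ := hv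
    have h1 : e ∈ (u.map m).sum + c := by rw [huv]; exact he
    rw [Multiset.mem_add] at h1
    rw [hY, Multiset.mem_add]
    rcases h1 with h1 | h1
    · left
      obtain ⟨y, hy, hey⟩ := (mem_list_sum m e u).1 h1
      exact (mem_list_sum m e w).2 ⟨y, huw y hy, hey⟩
    · exact Or.inr h1
  have hex : ∀ A : Finset Ed, S.Exact E A → Y.countP (· ∈ A) = 1 := by
    intro A hA
    let f : Multiset Ed →+ ℕ := Multiset.countPAddMonoidHom (· ∈ A)
    have hf : ∀ y, y.countP (· ∈ A) = f y := fun y => rfl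
    rw [hf, hY, map_add]
    have hnode : ∀ u ∈ s.words, (∀ y ∈ u, y ∈ w) → f (u.map m).sum + f c = 1 := by
      intro u hu huw
      obtain ⟨v, hv⟩ := hsW u hu
      have hvE : v ∈ E := by
        rw [hE, mem_filter]
        exact ⟨mem_univ v, u, hu, huw, hv⟩
      have h2 := hA v hvE
      rw [← map_add, hv, ← hf, Multiset.countP_eq_card_filter, ← h2, ← filter_mem_eq_inter]
      rfl
    let vA : ℕ → S70 := fun x => if x ∈ w then tr (f (m x)) else 0
    have hval : ∀ u, (∀ y ∈ u, y ∈ w) → val vA u = tr (f (u.map m).sum) := fun u huw =>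
      val_tr f vA m u fun x hx => if_pos (huw x hx)
    have hval0 : ∀ u : List ℕ, ¬ (∀ y ∈ u, y ∈ w) → val vA u = 0 := by
      intro u huw
      push Not at huw
      obtain ⟨y, hy, hyw⟩ := huw
      rw [val_eq_zero]
      exact ⟨y, hy, if_neg hyw⟩
    have h0 := hnode u0 hu0 hu0w
    rcases (show f c = 0 ∨ f c = 1 by omega) with hfc | hfc
    · have h1 : s.eval vA + S70.of .a = S70.of .a := by
        rw [eval_ideal]
        intro u hu
        rw [le_a_iff]
        by_cases huw : ∀ y ∈ u, y ∈ w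
        · right
          rw [hval u huw]
          have := hnode u hu huw
          rw [hfc, add_zero] at this
          rw [this]; rfl
        · exact Or.inl (hval0 u huw)
      rw [hS vA, eval_ideal] at h1
      have h2 := (le_a_iff _).1 (h1 w hw)
      rw [hval w fun y hy => hy] at h2
      rcases h2 with h2 | h2
      · exact absurd h2 (tr_ne _)
      · rw [tr_eq_a h2, hfc]
    · have h1 : s.eval vA + S70.of .one = S70.of .one := by
        rw [eval_ideal]
        intro u hu
        rw [le_one_iff]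
        by_cases huw : ∀ y ∈ u, y ∈ w
        · right
          rw [hval u huw]
          have := hnode u hu huw
          have h3 : f (u.map m).sum = 0 := by omega
          rw [h3]; rfl
        · exact Or.inl (hval0 u huw)
      rw [hS vA, eval_ideal] at h1
      have h2 := (le_one_iff _).1 (h1 w hw)
      rw [hval w fun y hy => hy] at h2
      rcases h2 with h2 | h2
      · exact absurd h2 (tr_ne _)
      · rw [tr_eq_one h2, hfc]
  -- at most two relevant nodes
  have hEc : E.card ≤ 2 := by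
    have h1 := hex S.mt (fun v _ => S.hmt v)
    rw [Multiset.countP_eq_card_filter, Multiset.card_eq_one] at h1
    obtain ⟨e0, he0⟩ := h1
    have h2 : E ⊆ univ.filter (fun v => e0 ∈ S.star v) := by
      intro v hv
      rw [mem_filter]
      refine ⟨mem_univ v, ?_⟩
      obtain ⟨e, he⟩ := card_pos.1 (show 0 < (S.star v ∩ S.mt).card by rw [S.hmt v]; norm_num)
      rw [mem_inter] at he
      have h3 : e ∈ Y.filter (· ∈ S.mt) := Multiset.mem_filter.2 ⟨hEY v hv e he.1, he.2⟩
      rw [he0, Multiset.mem_singleton] at h3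
      rw [← h3]
      exact he.1
    exact (card_le_card h2).trans (S.le2 e0)
  exact S.lp hK E (by omega) Y hex

/-! ### the algebra -/

/-- the cofactors of a set of multisets -/
def Sy.pol (X : PM Ed) (c : Multiset Ed) : Prop := ∀ z, mem z X → S.W (z + c)

/-- sets with the same cofactors are identified -/
def Sy.stoid : Setoid (PM Ed) where
  r X Y := ∀ c, S.pol X c ↔ S.pol Y c
  iseqv := ⟨fun _ _ => Iff.rfl, fun h c => (h c).symm, fun h1 h2 c => (h1 c).trans (h2 c)⟩

/-- the algebra of a system of stars -/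
def Sy.AW : Type := Quotient S.stoid

/-- the class of a set -/
def Sy.cl (X : PM Ed) : S.AW := Quotient.mk S.stoid X

theorem Sy.cl_eq {X Y : PM Ed} : S.cl X = S.cl Y ↔ ∀ c, S.pol X c ↔ S.pol Y c :=
  ⟨fun h => Quotient.exact h, fun h => Quotient.sound h⟩

theorem Sy.pol_add (X Y : PM Ed) (c : Multiset Ed) : S.pol (X + Y) c ↔ S.pol X c ∧ S.pol Y c := by
  constructor
  · intro h
    exact ⟨fun z hz => h z ((mem_add z X Y).2 (Or.inl hz)),
      fun z hz => h z ((mem_add z X Y).2 (Or.inr hz))⟩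
  · rintro ⟨h1, h2⟩ z hz
    rcases (mem_add z X Y).1 hz with h | h
    · exact h1 z h
    · exact h2 z h

theorem Sy.pol_mul (X Y : PM Ed) (c : Multiset Ed) :
    S.pol (X * Y) c ↔ ∀ y, mem y Y → S.pol X (y + c) := by
  constructor
  · intro h y hy x hx
    rw [← add_assoc]
    exact h (x + y) ((mem_mul _ X Y).2 ⟨x, hx, y, hy, rfl⟩)
  · intro h z hz
    obtain ⟨x, hx, y, hy, rfl⟩ := (mem_mul z X Y).1 hz
    rw [add_assoc]
    exact h y hy x hx

theorem mul_comm_PM (X Y : PM Ed) : X * Y = Y * X := by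
  apply Subtype.ext
  funext z
  apply propext
  constructor
  · rintro ⟨x, hx, y, hy, rfl⟩
    exact ⟨y, hy, x, hx, add_comm x y⟩
  · rintro ⟨x, hx, y, hy, rfl⟩
    exact ⟨y, hy, x, hx, add_comm x y⟩

theorem Sy.mul_congr_left {X X' : PM Ed} (Y : PM Ed) (h : ∀ c, S.pol X c ↔ S.pol X' c)
    (c : Multiset Ed) : S.pol (X * Y) c ↔ S.pol (X' * Y) c := by
  rw [S.pol_mul, S.pol_mul]
  exact forall_congr' fun y => imp_congr_right fun _ => h (y + c)

instance : Add S.AW := ⟨Quotient.map₂ (sa := S.stoid) (sb := S.stoid) (sc := S.stoid)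
  (fun X Y => X + Y) (by
    intro X X' hX Y Y' hY c
    show S.pol (X + Y) c ↔ S.pol (X' + Y') c
    rw [S.pol_add, S.pol_add, hX c, hY c])⟩

instance : Mul S.AW := ⟨Quotient.map₂ (sa := S.stoid) (sb := S.stoid) (sc := S.stoid)
  (fun X Y => X * Y) (by
    intro X X' hX Y Y' hY c
    show S.pol (X * Y) c ↔ S.pol (X' * Y') c
    rw [S.mul_congr_left Y hX c, mul_comm_PM X' Y, S.mul_congr_left X' hY c, mul_comm_PM Y' X'])⟩

theorem Sy.eval_cl (φ : ℕ → PM Ed) : ∀ t : Term, t.eval (fun n => S.cl (φ n)) = S.cl (t.eval φ)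
  | .var _ => rfl
  | .add s t => by
    show s.eval _ + t.eval _ = _
    rw [Sy.eval_cl φ s, Sy.eval_cl φ t]
    rfl
  | .mul s t => by
    show s.eval _ * t.eval _ = _
    rw [Sy.eval_cl φ s, Sy.eval_cl φ t]
    rfl

theorem Sy.holds_iff (s t : Term) : Holds S.AW (s, t) ↔
    ∀ φ : ℕ → PM Ed, ∀ c, S.pol (s.eval φ) c ↔ S.pol (t.eval φ) c := by
  constructor
  · intro h φ
    have h1 := h fun n => S.cl (φ n)
    change s.eval _ = t.eval _ at h1
    rwa [S.eval_cl, S.eval_cl, S.cl_eq] at h1
  · intro h v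
    obtain ⟨φ, rfl⟩ : ∃ φ : ℕ → PM Ed, v = fun n => S.cl (φ n) := by
      refine ⟨fun n => Quotient.out (v n), ?_⟩
      funext n
      exact (Quotient.out_eq (s := S.stoid) (v n)).symm
    show s.eval _ = t.eval _
    rw [S.eval_cl, S.eval_cl, S.cl_eq]
    exact h φ

/-- the evaluation in `S_7` -/
theorem eval_of (v : ℕ → S7) : ∀ t : Term, t.eval (fun n => S70.of (v n)) = S70.of (t.eval v)
  | .var _ => rfl
  | .add s t => by
    show s.eval _ + t.eval _ = _
    rw [eval_of v s, eval_of v t]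
    rfl
  | .mul s t => by
    show s.eval _ * t.eval _ = _
    rw [eval_of v s, eval_of v t]
    rfl

theorem holds_S7_iff (s t : Term) : Holds S7 (s, t) ↔
    ∀ v : ℕ → S70, (∀ n, v n ≠ 0) → s.eval v = t.eval v := by
  constructor
  · intro h v hv
    obtain ⟨v', rfl⟩ : ∃ v' : ℕ → S7, v = fun n => S70.of (v' n) := by
      have : ∀ n, ∃ x, v n = S70.of x := by
        intro n
        have h1 := hv n
        rcases h2 : v n with _ | x
        · exact absurd h2 h1
        · exact ⟨x, rfl⟩
      choose v' hv' using this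
      exact ⟨v', funext hv'⟩
    have h1 : s.eval v' = t.eval v' := h v'
    rw [eval_of, eval_of, h1]
  · intro h v
    have h1 := h (fun n => S70.of (v n)) (fun n => by
      have : ∀ x : S7, S70.of x ≠ 0 := by decide
      exact this _)
    rw [eval_of, eval_of] at h1
    show s.eval v = t.eval v
    injection h1

/-- the algebra satisfies all identities of `S_7` in few variables -/
theorem Sy.holdsA {s t : Term} (h : Holds S7 (s, t)) {k : ℕ} (hs : lt k s) (ht : lt k t)
    (hK : 2 * (k * d + d) + 3 ≤ K) : Holds S.AW (s, t) := by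
  rw [S.holds_iff]
  rw [holds_S7_iff] at h
  intro φ c
  exact ⟨fun hc z hz => S.mainA h hs hK φ c hc z hz,
    fun hc z hz => S.mainA (s := t) (t := s) (fun v hv => (h v hv).symm) ht hK φ c hc z hz⟩

/-- the algebra satisfies all identities of `S_7^0` -/
theorem Sy.holdsB {s t : Term} (h : Holds S70 (s, t)) (hK : 3 ≤ K) : Holds S.AW (s, t) := by
  rw [S.holds_iff]
  intro φ c
  exact ⟨fun hc z hz => S.mainB h hK φ c hc z hz,
    fun hc z hz => S.mainB (s := t) (t := s) (fun v => (h v).symm) hK φ c hc z hz⟩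

end sys

end Pool.Agent.Q15.S7I
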