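import Pool.Agent.Q15.S7IComb
import Pool.Agent.H709Exc.J_girth_graph

/-!
# Systems of stars with two half-edges from Cayley graphs of large girth
-/

set_option autoImplicit false
set_option linter.unusedSectionVars false
set_option linter.unusedVariables false

namespace Pool.Agent.Q15.S7I

open Finset Pool.Agent.H709Exc

section cay

variable {Γ : Type} [Group Γ] [Fintype Γ] [DecidableEq Γ] {m : ℕ} (s : Fin (m + 6) → Γ) (g : ℕ)
  (hs2 : ∀ c, s c * s c = 1)
  (hs : ∀ w : List (Fin (m + 6)), w ≠ [] → w.length ≤ g → w.IsChain (fun a b => a ≠ b) →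
    (w.map s).prod ≠ 1)

include hs2 hs

theorem s_ne_one (hg : 2 ≤ g) (c : Fin (m + 6)) : s c ≠ 1 := by
  have := hs [c] (by simp) (by simp; omega) (by simp)
  simpa using this

theorem s_inj (hg : 2 ≤ g) {c c' : Fin (m + 6)} (h : s c = s c') : c = c' := by
  by_contra hne
  have h1 := hs [c, c'] (by simp) (by simpa using hg) (by simpa using hne)
  apply h1
  simp only [List.map_cons, List.map_nil, List.prod_cons, List.prod_nil, mul_one]
  rw [h]
  exact hs2 c'

/-- the star of a node -/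
def cstar (v : {v : Γ // v ≠ 1}) : Finset (Sym2 Γ) :=
  (univ.filter fun c : Fin (m + 6) => v.1 * s c ≠ 1 ∨ c = 0 ∨ c = 1).image
    fun c => s(v.1, v.1 * s c)

omit hs2 hs in
theorem mem_cstar (v : {v : Γ // v ≠ 1}) (e : Sym2 Γ) : e ∈ cstar s v ↔
    ∃ c, (v.1 * s c ≠ 1 ∨ c = 0 ∨ c = 1) ∧ e = s(v.1, v.1 * s c) := by
  unfold cstar
  rw [mem_image]
  constructor
  · rintro ⟨c, hc, rfl⟩
    exact ⟨c, (mem_filter.1 hc).2, rfl⟩
  · rintro ⟨c, hc, rfl⟩
    exact ⟨c, mem_filter.2 ⟨mem_univ c, hc⟩, rfl⟩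

theorem mul_s_ne (hg : 2 ≤ g) (v : Γ) (c : Fin (m + 6)) : v * s c ≠ v := by
  intro h
  exact s_ne_one s g hs2 hs hg c (mul_eq_left.1 h)

theorem cstar_card (hg : 2 ≤ g) (v : {v : Γ // v ≠ 1}) : m + 6 ≤ (cstar s v).card + 1 ∧
    (cstar s v).card ≤ m + 6 := by
  have hinj : Function.Injective fun c : Fin (m + 6) => s(v.1, v.1 * s c) := by
    intro c c' h
    simp only [Sym2.eq_iff] at h
    rcases h with ⟨_, h⟩ | ⟨h, _⟩
    · exact s_inj s g hs2 hs hg (mul_left_cancel h)
    · exact absurd h.symm (mul_s_ne s g hs2 hs hg v.1 c')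
  unfold cstar
  rw [card_image_of_injective _ hinj]
  constructor
  · have h1 : (univ.filter fun c : Fin (m + 6) =>
        ¬ (v.1 * s c ≠ 1 ∨ c = 0 ∨ c = 1)).card ≤ 1 := by
      rw [card_le_one]
      intro a ha b hb
      rw [mem_filter, not_or, not_not] at ha hb
      exact s_inj s g hs2 hs hg (mul_left_cancel (ha.2.1.trans hb.2.1.symm))
    have h2 := card_filter_add_card_filter_not (s := (univ : Finset (Fin (m + 6))))
      (fun c : Fin (m + 6) => v.1 * s c ≠ 1 ∨ c = 0 ∨ c = 1)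
    rw [card_univ, Fintype.card_fin] at h2
    omega
  · exact (card_filter_le _ _).trans (by simp)

omit hs2 hs in
theorem cstar_mem_both {v w : {v : Γ // v ≠ 1}} (hvw : v ≠ w) {e : Sym2 Γ} (h1 : e ∈ cstar s v)
    (h2 : e ∈ cstar s w) : e = s(v.1, w.1) := by
  obtain ⟨c, _, rfl⟩ := (mem_cstar s v e).1 h1
  obtain ⟨c', _, h3⟩ := (mem_cstar s w _).1 h2
  rw [Sym2.eq_iff] at h3
  rcases h3 with ⟨h4, _⟩ | ⟨_, h5⟩
  · exact absurd (Subtype.ext h4) hvw
  · rw [h5]

omit hs2 hs in
theorem mem_of_cstar {v : {v : Γ // v ≠ 1}} {e : Sym2 Γ} (h : e ∈ cstar s v) : v.1 ∈ e := by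
  obtain ⟨c, _, rfl⟩ := (mem_cstar s v e).1 h
  exact Sym2.mem_mk_left _ _

theorem cleaf (hg : 2 ≤ g) (E : Finset {v : Γ // v ≠ 1}) (hne : E.Nonempty) (hE : E.card ≤ g) :
    ∃ x ∈ E, (cstar s x ∩ (E.erase x).biUnion (cstar s)).card ≤ 1 := by
  by_contra hcon
  push Not at hcon
  -- every node of `E` has a neighbour in `E` by a colour different from a given one
  have hstep : ∀ x ∈ E, ∀ b : Fin (m + 6), ∃ y ∈ E, ∃ c, c ≠ b ∧ y.1 = x.1 * s c := by
    intro x hx b
    have hnb : ∀ e ∈ cstar s x ∩ (E.erase x).biUnion (cstar s), ∃ y ∈ E, ∃ c,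
        y.1 = x.1 * s c ∧ e = s(x.1, x.1 * s c) := by
      intro e he
      rw [mem_inter, mem_biUnion] at he
      obtain ⟨he1, y, hy, he2⟩ := he
      rw [mem_erase] at hy
      have h3 := cstar_mem_both s (Ne.symm hy.1) he1 he2
      obtain ⟨c, _, h4⟩ := (mem_cstar s x e).1 he1
      have h5 := h4.symm.trans h3
      rw [Sym2.eq_iff] at h5
      rcases h5 with ⟨_, h5⟩ | ⟨h5, _⟩
      · exact ⟨y, hy.2, c, h5.symm, h4⟩
      · exact absurd (Subtype.ext h5).symm hy.1
    obtain ⟨e, he, f, hf, hef⟩ := one_lt_card.1 (hcon x hx)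
    obtain ⟨y, hy, c, hyc, hec⟩ := hnb e he
    obtain ⟨y', hy', c', hyc', hfc⟩ := hnb f hf
    have hcc : c ≠ c' := by
      rintro rfl
      exact hef (hec.trans hfc.symm)
    by_cases hcb : c = b
    · refine ⟨y', hy', c', ?_, hyc'⟩
      rw [← hcb]
      exact Ne.symm hcc
    · exact ⟨y, hy, c, hcb, hyc⟩
  choose! ny hny nc hnc1 hnc2 using hstep
  -- the walk
  obtain ⟨x0, hx0⟩ := hne
  let st : ℕ → {v : Γ // v ≠ 1} × Fin (m + 6) := fun n =>
    Nat.rec (x0, 0) (fun _ p => (ny p.1 p.2, nc p.1 p.2)) n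
  have hst : ∀ n, st (n + 1) = (ny (st n).1 (st n).2, nc (st n).1 (st n).2) := fun n => rfl
  have hmem : ∀ n, (st n).1 ∈ E := by
    intro n
    induction n with
    | zero => exact hx0
    | succ n ih =>
      rw [hst]
      exact hny _ ih _
  have hcol : ∀ n, (st (n + 1)).2 ≠ (st n).2 := by
    intro n
    rw [hst]
    exact hnc1 _ (hmem n) _
  have hval : ∀ n, (st (n + 1)).1.1 = (st n).1.1 * s (st (n + 1)).2 := by
    intro n
    rw [hst]
    exact hnc2 _ (hmem n) _
  -- the word between two times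
  let wd : ℕ → ℕ → List (Fin (m + 6)) := fun i l => (List.range l).map fun j => (st (i + j + 1)).2
  have hwd : ∀ i l, (st (i + l)).1.1 = (st i).1.1 * ((wd i l).map s).prod := by
    intro i l
    induction l with
    | zero => simp [wd]
    | succ l ih =>
      have e1 : wd i (l + 1) = wd i l ++ [(st (i + l + 1)).2] := by
        simp only [wd, List.range_succ, List.map_append, List.map_cons, List.map_nil]
      rw [e1, List.map_append, List.prod_append, ← mul_assoc, ← ih]
      show (st (i + l + 1)).1.1 = _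
      rw [hval]
      simp
  have hchain : ∀ i l, (wd i l).IsChain (fun a b => a ≠ b) := by
    intro i l
    rw [List.isChain_iff_getElem]
    intro j hj
    simp only [wd, List.length_map, List.length_range] at hj
    simp only [wd, List.getElem_map, List.getElem_range]
    exact (hcol (i + j + 1)).symm
  have hpig : ∃ a ∈ range (g + 1), ∃ b ∈ range (g + 1), a ≠ b ∧ (st a).1 = (st b).1 := by
    apply exists_ne_map_eq_of_card_lt_of_maps_to (t := E)
    · rw [card_range]; omega
    · intro n _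
      exact hmem n
  obtain ⟨a, ha, b, hb, hab, heq⟩ := hpig
  rw [mem_range] at ha hb
  have key : ∀ a b, a < b → b < g + 1 → (st a).1 = (st b).1 → False := by
    intro a b hab hb heq
    obtain ⟨l, rfl⟩ := Nat.exists_eq_add_of_lt hab
    have h1 := hwd a (l + 1)
    rw [show a + (l + 1) = a + l + 1 by omega, ← heq] at h1
    have h2 : ((wd a (l + 1)).map s).prod = 1 := (mul_eq_left.1 h1.symm)
    refine hs (wd a (l + 1)) ?_ ?_ (hchain a (l + 1)) h2
    · intro h
      have := congrArg List.length h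
      simp [wd] at this
    · simp only [wd, List.length_map, List.length_range]
      omega
  rcases lt_or_gt_of_ne hab with h | h
  · exact key a b h hb heq
  · exact key b a h ha heq.symm

omit hs2 hs in
theorem cle2 (e : Sym2 Γ) : (univ.filter fun w => e ∈ cstar s w).card ≤ 2 := by
  induction e with
  | h p q =>
    have h1 : (univ.filter fun w => s(p, q) ∈ cstar s w).card ≤ ({p, q} : Finset Γ).card := by
      apply card_le_card_of_injOn (fun w => w.1)
      · intro w hw
        have hw' := (mem_filter.1 hw).2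
        have := mem_of_cstar s hw'
        rw [Sym2.mem_iff] at this
        simpa using this
      · intro a _ b _ h
        exact Subtype.ext h
    exact h1.trans card_le_two

theorem cdeg2 (hg : 2 ≤ g) (v : {v : Γ // v ≠ 1}) (c : Fin (m + 6)) (hc : v.1 * s c ≠ 1) :
    (univ.filter fun w => s(v.1, v.1 * s c) ∈ cstar s w).card = 2 := by
  have he : s(v.1, v.1 * s c) ∈ cstar s v := (mem_cstar s v _).2 ⟨c, Or.inl hc, rfl⟩
  have h1 : (univ.filter fun w => s(v.1, v.1 * s c) ∈ cstar s w) = {v, ⟨v.1 * s c, hc⟩} := by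
    ext w
    rw [mem_filter, mem_insert, mem_singleton]
    constructor
    · rintro ⟨_, h⟩
      by_cases hvw : v = w
      · exact Or.inl hvw.symm
      · right
        have h3 := cstar_mem_both s hvw he h
        rw [Sym2.eq_iff] at h3
        rcases h3 with ⟨_, h3⟩ | ⟨h3, _⟩
        · exact Subtype.ext h3.symm
        · exact absurd (Subtype.ext h3) hvw
    · rintro (rfl | rfl)
      · exact ⟨mem_univ _, he⟩
      · refine ⟨mem_univ _, (mem_cstar s _ _).2 ⟨c, Or.inl ?_, ?_⟩⟩
        · show v.1 * s c * s c ≠ 1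
          rw [mul_assoc, hs2, mul_one]
          exact v.2
        · show _ = s(v.1 * s c, v.1 * s c * s c)
          rw [mul_assoc, hs2, mul_one]
          exact Sym2.eq_swap
  rw [h1, card_pair]
  intro h
  have := congrArg Subtype.val h
  exact mul_s_ne s g hs2 hs hg v.1 c this.symm

theorem codd (hg : 2 ≤ g) : Odd (Fintype.card {v : Γ // v ≠ 1}) := by
  have h1 : Fintype.card {v : Γ // v ≠ 1} + 1 = Fintype.card Γ := by
    have h2 := Fintype.card_subtype_compl (fun v : Γ => v = 1)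
    have h3 : Fintype.card {v : Γ // v = 1} = 1 := Fintype.card_subtype_eq 1
    have h4 : 0 < Fintype.card Γ := Fintype.card_pos
    rw [h3] at h2
    have h5 : Fintype.card {v : Γ // v ≠ 1} = Fintype.card Γ - 1 := h2
    omega
  have h2 : orderOf (s 0) = 2 := orderOf_eq_prime (by rw [pow_two]; exact hs2 0)
    (s_ne_one s g hs2 hs hg 0)
  have h3 : 2 ∣ Fintype.card Γ := h2 ▸ orderOf_dvd_card
  obtain ⟨m, hm⟩ := h3
  rw [← Nat.not_even_iff_odd]
  rintro ⟨l, hl⟩
  omega

/-- the half-edges -/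
theorem chalf (hg : 2 ≤ g) (c : Fin (m + 6)) (hc : c = 0 ∨ c = 1) :
    (univ.filter fun w => s(s c, 1) ∈ cstar s w) = {⟨s c, s_ne_one s g hs2 hs hg c⟩} := by
  ext w
  rw [mem_filter, mem_singleton]
  constructor
  · rintro ⟨_, h⟩
    have h1 := mem_of_cstar s h
    rw [Sym2.mem_iff] at h1
    rcases h1 with h1 | h1
    · exact Subtype.ext h1
    · exact absurd h1 w.2
  · rintro rfl
    refine ⟨mem_univ _, (mem_cstar s _ _).2 ⟨c, Or.inr hc, ?_⟩⟩
    show s(s c, 1) = s(s c, s c * s c)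
    rw [hs2]

/-- the degree of an edge -/
theorem cdeg (hg : 2 ≤ g) (v : {v : Γ // v ≠ 1}) (e : Sym2 Γ) (he : e ∈ cstar s v) :
    ((univ.filter fun w => e ∈ cstar s w).card : ℤ) =
      2 - (if e = s(s 0, 1) then 1 else 0) - (if e = s(s 1, 1) then 1 else 0) := by
  have h01 : s(s 0, (1 : Γ)) ≠ s(s 1, 1) := by
    intro h
    rw [Sym2.eq_iff] at h
    rcases h with ⟨h, _⟩ | ⟨h, _⟩
    · have := s_inj s g hs2 hs hg h
      exact absurd this (by simp)
    · exact s_ne_one s g hs2 hs hg 0 h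
  by_cases h0 : e = s(s 0, 1)
  · subst h0
    rw [chalf s g hs2 hs hg 0 (Or.inl rfl), if_pos rfl, if_neg h01]
    simp
  · by_cases h1 : e = s(s 1, 1)
    · subst h1
      rw [chalf s g hs2 hs hg 1 (Or.inr rfl), if_pos rfl, if_neg h0]
      simp
    · rw [if_neg h0, if_neg h1]
      obtain ⟨c, hc, rfl⟩ := (mem_cstar s v e).1 he
      have h2 : v.1 * s c ≠ 1 := by
        intro h
        have h3 : v.1 = s c := by
          have := congrArg (· * s c) h
          simp only [mul_assoc, hs2, mul_one, one_mul] at this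
          exact this
        rcases hc with hc | rfl | rfl
        · exact hc h
        · apply h0
          rw [h, h3]
        · apply h1
          rw [h, h3]
      rw [cdeg2 s g hs2 hs hg v c h2]
      norm_num

theorem cforced (hg : 2 ≤ g) (A : Finset (Sym2 Γ)) (hA : ∀ v, (cstar s v ∩ A).card = 1) :
    s(s 0, (1 : Γ)) ∈ A ↔ s(s 1, (1 : Γ)) ∉ A := by
  set A' : Finset (Sym2 Γ) := A ∩ univ.biUnion (cstar s) with hA'
  have h1 := sum_card_bipartiteAbove_eq_sum_card_bipartiteBelow
    (s := (univ : Finset {v : Γ // v ≠ 1})) (t := A') (fun v e => e ∈ cstar s v)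
  have h2 : ∀ v ∈ (univ : Finset {v : Γ // v ≠ 1}), (bipartiteAbove (fun v e => e ∈ cstar s v)
      A' v).card = 1 := by
    intro v _
    rw [← hA v]
    congr 1
    ext e
    simp only [bipartiteAbove, hA', mem_filter, mem_inter, mem_biUnion, mem_univ, true_and]
    constructor
    · rintro ⟨⟨h1, _⟩, h2⟩
      exact ⟨h2, h1⟩
    · rintro ⟨h1, h2⟩
      exact ⟨⟨h2, v, h1⟩, h1⟩
  rw [sum_congr rfl h2, sum_const, smul_eq_mul, mul_one, card_univ] at h1
  have h3 : (Fintype.card {v : Γ // v ≠ 1} : ℤ) = ∑ e ∈ A',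
      ((2 : ℤ) - (if e = s(s 0, 1) then 1 else 0) - (if e = s(s 1, 1) then 1 else 0)) := by
    rw [h1]
    push_cast
    apply sum_congr rfl
    intro e he
    rw [hA', mem_inter, mem_biUnion] at he
    obtain ⟨_, v, _, hv⟩ := he
    exact cdeg s g hs2 hs hg v e hv
  rw [sum_sub_distrib, sum_sub_distrib, sum_const, sum_ite_eq', sum_ite_eq'] at h3
  have hmem : ∀ c : Fin (m + 6), (c = 0 ∨ c = 1) → (s(s c, (1 : Γ)) ∈ A' ↔ s(s c, (1 : Γ)) ∈ A) := by
    intro c hc
    rw [hA', mem_inter, mem_biUnion]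
    constructor
    · rintro ⟨h, _⟩; exact h
    · intro h
      refine ⟨h, ⟨s c, s_ne_one s g hs2 hs hg c⟩, mem_univ _, ?_⟩
      have := chalf s g hs2 hs hg c hc
      have h4 : (⟨s c, s_ne_one s g hs2 hs hg c⟩ : {v : Γ // v ≠ 1}) ∈
          (univ.filter fun w => s(s c, 1) ∈ cstar s w) := by
        rw [this]; simp
      exact (mem_filter.1 h4).2
  rw [← hmem 0 (Or.inl rfl), ← hmem 1 (Or.inr rfl)]
  obtain ⟨k, hk⟩ := codd s g hs2 hs hg
  rw [hk] at h3
  by_cases ha : s(s 0, (1 : Γ)) ∈ A' <;> by_cases hb : s(s 1, (1 : Γ)) ∈ A' <;>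
    simp only [ha, hb, if_true, if_false, not_true_eq_false, not_false_eq_true, iff_true,
      iff_false] at h3 ⊢ <;> push_cast at h3 <;> simp only [nsmul_eq_mul] at h3 <;> omega

/-- a perfect matching -/
def cmt : Finset (Sym2 Γ) := univ.image fun v : {v : Γ // v ≠ 1} => s(v.1, v.1 * s 0)

theorem cmt_exact (hg : 2 ≤ g) (v : {v : Γ // v ≠ 1}) : (cstar s v ∩ cmt s).card = 1 := by
  rw [card_eq_one]
  refine ⟨s(v.1, v.1 * s 0), ?_⟩
  ext e
  rw [mem_inter, mem_singleton]
  constructor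
  · rintro ⟨h1, h2⟩
    obtain ⟨c, _, rfl⟩ := (mem_cstar s v e).1 h1
    unfold cmt at h2
    rw [mem_image] at h2
    obtain ⟨w, _, hw⟩ := h2
    rw [Sym2.eq_iff] at hw
    rcases hw with ⟨h3, h4⟩ | ⟨h3, h4⟩
    · rw [← h4, h3]
    · -- `w = v * s c`, `w * s 0 = v`
      have h5 : v.1 * s c * s 0 = v.1 := by rw [← h3, h4]
      have h6 : v.1 * s c = v.1 * s 0 := by
        have := congrArg (· * s 0) h5
        simp only [mul_assoc, hs2, mul_one] at this
        exact this
      rw [h6]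
  · rintro rfl
    refine ⟨(mem_cstar s v _).2 ⟨0, Or.inr (Or.inl rfl), rfl⟩, ?_⟩
    unfold cmt
    exact mem_image.2 ⟨v, mem_univ _, rfl⟩

end cay

/-- there are systems of stars for all parameters -/
theorem exists_sy (K m : ℕ) : ∃ (N Ed : Type) (_ : Fintype N) (_ : DecidableEq N)
    (_ : DecidableEq Ed) (_ : Fintype Ed), Nonempty (Sy N Ed K (m + 6)) := by
  classical
  obtain ⟨Γ, i1, i2, s, hs2, hs⟩ := girth_graph_biggs (m + 6) (K + 2)
  refine ⟨{v : Γ // v ≠ 1}, Sym2 Γ, inferInstance, inferInstance, inferInstance, inferInstance, ⟨?_⟩⟩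
  have hg : 2 ≤ K + 2 := by omega
  have hh : ∀ c : Fin (m + 6), (c = 0 ∨ c = 1) → ∃ v, s(s c, (1 : Γ)) ∈ cstar s v := by
    intro c hc
    refine ⟨⟨s c, s_ne_one s _ hs2 hs hg c⟩, ?_⟩
    have := chalf s _ hs2 hs hg c hc
    have h4 : (⟨s c, s_ne_one s _ hs2 hs hg c⟩ : {v : Γ // v ≠ 1}) ∈
        (univ.filter fun w => s(s c, 1) ∈ cstar s w) := by
      rw [this]; simp
    exact (mem_filter.1 h4).2
  exact
    { star := cstar s
      four := fun v => by
        have := (cstar_card s _ hs2 hs hg v).1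
        omega
      bound := fun v => (cstar_card s _ hs2 hs hg v).2
      lo := fun v => (cstar_card s _ hs2 hs hg v).1
      lin := by
        intro v w hvw
        rw [card_le_one]
        intro a ha b hb
        rw [mem_inter] at ha hb
        rw [cstar_mem_both s hvw ha.1 ha.2, cstar_mem_both s hvw hb.1 hb.2]
      leaf := fun E hne hE => cleaf s _ hs2 hs hg E hne (by omega)
      le2 := cle2 s
      x := s(s 0, 1)
      y := s(s 1, 1)
      xy := by
        intro h
        rw [Sym2.eq_iff] at h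
        rcases h with ⟨h, _⟩ | ⟨h, _⟩
        · have := s_inj s _ hs2 hs hg h
          exact absurd this (by simp)
        · exact s_ne_one s _ hs2 hs hg 0 h
      hx := hh 0 (Or.inl rfl)
      hy := hh 1 (Or.inr rfl)
      mt := cmt s
      hmt := cmt_exact s _ hs2 hs hg
      forced := cforced s _ hs2 hs hg }

end Pool.Agent.Q15.S7I
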