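import Pool.Agent.Q15.S7IAlg
import Pool.Agent.Q15.S7ICay

/-!
# The interval between the varieties of `S_7` and `S_7^0`
-/

set_option autoImplicit false
set_option linter.unusedSectionVars false
set_option linter.unusedVariables false
set_option linter.style.haveILetI false

namespace Pool.Agent.Q15.S7I

open Finset
open Pool.Agent.Q15.B2 (Term Holds words_ne words_nonempty IsAI)
open Pool.Agent.Q15.S70 (S7 S70 tr tr_add tr_ne tr_eq_one tr_eq_a)

/-! ### varieties -/

/-- A class of algebras of type `(+, ·)`. -/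
abbrev AlgClass : Type 1 := (A : Type) → [Add A] → [Mul A] → Prop

/-- A variety: the class of all algebras satisfying a set of identities. -/
def IsVariety (V : AlgClass) : Prop :=
  ∃ T : Set (Term × Term), ∀ (A : Type) [Add A] [Mul A], V A ↔ ∀ e ∈ T, Holds A e

/-- The variety generated by an algebra: all algebras satisfying its identities. -/
def gen (S : Type) [Add S] [Mul S] : AlgClass := fun A _ _ => ∀ e, Holds S e → Holds A e

/-- The interval between the varieties generated by `S_7` and `S_7^0`. -/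
def Interval : Type 1 :=
  {V : AlgClass // IsVariety V ∧ (∀ (A : Type) [Add A] [Mul A], gen S7 A → V A) ∧
    ∀ (A : Type) [Add A] [Mul A], V A → gen S70 A}

/-! ### the identity of a system -/

/-- the product of the variables of a nonempty list -/
def prodT : List ℕ → Term
  | [] => .var 0
  | [x] => .var x
  | x :: y :: l => .mul (.var x) (prodT (y :: l))

/-- the sum of a nonempty list of terms -/
def sumT : List Term → Term
  | [] => .var 0
  | [t] => t
  | t :: u :: l => .add t (sumT (u :: l))

theorem words_prodT : ∀ l : List ℕ, l ≠ [] → (prodT l).words = {l}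
  | [], h => absurd rfl h
  | [x], _ => rfl
  | x :: y :: l, _ => by
    ext w
    constructor
    · rintro ⟨u, hu, v, hv, rfl⟩
      obtain rfl : u = [x] := hu
      rw [words_prodT (y :: l) (by simp)] at hv
      obtain rfl : v = y :: l := hv
      rfl
    · intro h
      obtain rfl : w = x :: y :: l := h
      refine ⟨[x], rfl, y :: l, ?_, rfl⟩
      rw [words_prodT (y :: l) (by simp)]
      rfl

theorem words_sumT (w : List ℕ) : ∀ l : List Term, l ≠ [] →
    (w ∈ (sumT l).words ↔ ∃ t ∈ l, w ∈ t.words)
  | [], h => absurd rfl h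
  | [t], _ => by simp [sumT]
  | t :: u :: l, _ => by
    show w ∈ t.words ∪ (sumT (u :: l)).words ↔ _
    rw [Set.mem_union, words_sumT w (u :: l) (by simp)]
    simp

theorem lt_prodT (k : ℕ) : ∀ l : List ℕ, l ≠ [] → (∀ x ∈ l, x < k) → lt k (prodT l)
  | [], h, _ => absurd rfl h
  | [x], _, h => h x (by simp)
  | x :: y :: l, _, h => ⟨h x (by simp), lt_prodT k (y :: l) (by simp) fun z hz => h z (by
      rw [List.mem_cons]; exact Or.inr hz)⟩

theorem lt_sumT (k : ℕ) : ∀ l : List Term, l ≠ [] → (∀ t ∈ l, lt k t) → lt k (sumT l)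
  | [], h, _ => absurd rfl h
  | [t], _, h => h t (by simp)
  | t :: u :: l, _, h => ⟨h t (by simp), lt_sumT k (u :: l) (by simp) fun z hz => h z (by
      rw [List.mem_cons]; exact Or.inr hz)⟩

theorem lt_mono {k l : ℕ} (hkl : k ≤ l) : ∀ (t : Term), lt k t → lt l t
  | .var _, h => lt_of_lt_of_le h hkl
  | .add s t, h => ⟨lt_mono hkl s h.1, lt_mono hkl t h.2⟩
  | .mul s t, h => ⟨lt_mono hkl s h.1, lt_mono hkl t h.2⟩

variable {N Ed : Type} [Fintype N] [DecidableEq N] [DecidableEq Ed] {K d : ℕ} (S : Sy N Ed K d)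
  (ι : Ed → ℕ)

/-- the word of a finite set -/
noncomputable def wd (s : Finset Ed) : List ℕ := s.toList.map ι

theorem mem_wd (s : Finset Ed) (n : ℕ) : n ∈ wd ι s ↔ ∃ e ∈ s, ι e = n := by
  simp [wd]

theorem wd_ne {s : Finset Ed} (h : s.Nonempty) : wd ι s ≠ [] := by
  simp [wd, h.ne_empty]

/-- all edges -/
def Sy.all : Finset Ed := univ.biUnion S.star

/-- the sum of the products of the stars -/
noncomputable def Sy.tH : Term := sumT (univ.toList.map fun v => prodT (wd ι (S.star v)))

/-- the identity -/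
noncomputable def Sy.idn : Term × Term :=
  (S.tH ι, .add (S.tH ι) (.mul (.var (ι S.x)) (.var (ι S.y))))

theorem Sy.star_nonempty (v : N) : (S.star v).Nonempty := card_pos.1 (by have := S.four v; omega)

include S in
theorem Sy.univ_ne : (univ : Finset N).toList ≠ [] := by
  obtain ⟨v, _⟩ := S.hx
  intro h
  have := mem_toList.2 (mem_univ v)
  rw [h] at this
  exact List.not_mem_nil this

theorem Sy.words_tH (w : List ℕ) : w ∈ (S.tH ι).words ↔ ∃ v, w = wd ι (S.star v) := by
  unfold Sy.tH
  rw [words_sumT _ _ (by simpa using S.univ_ne)]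
  constructor
  · rintro ⟨t, ht, hw⟩
    rw [List.mem_map] at ht
    obtain ⟨v, _, rfl⟩ := ht
    rw [words_prodT _ (wd_ne ι (S.star_nonempty v))] at hw
    exact ⟨v, hw⟩
  · rintro ⟨v, rfl⟩
    refine ⟨_, List.mem_map.2 ⟨v, by simp, rfl⟩, ?_⟩
    rw [words_prodT _ (wd_ne ι (S.star_nonempty v))]
    rfl

theorem Sy.lt_idn (k : ℕ) (hk : ∀ e, ι e < k) : lt k (S.idn ι).1 ∧ lt k (S.idn ι).2 := by
  have h1 : lt k (S.tH ι) := by
    unfold Sy.tH
    apply lt_sumT k _ (by simpa using S.univ_ne)
    intro t ht
    rw [List.mem_map] at ht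
    obtain ⟨v, _, rfl⟩ := ht
    apply lt_prodT k _ (wd_ne ι (S.star_nonempty v))
    intro x hx
    obtain ⟨e, _, rfl⟩ := (mem_wd ι _ _).1 hx
    exact hk e
  exact ⟨h1, h1, hk _, hk _⟩

theorem Sy.holds_S7 : Holds S7 (S.idn ι) := by
  classical
  unfold Sy.idn
  rw [holds_S7_iff]
  intro v hv
  show (S.tH ι).eval v = (S.tH ι).eval v + v (ι S.x) * v (ι S.y)
  have ht : ∀ z : S70, (S.tH ι).eval v + z = z → ∀ x, val v (wd ι (S.star x)) + z = z := by
    intro z h x
    exact (eval_ideal v _ z).1 h _ ((S.words_tH ι _).2 ⟨x, rfl⟩)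
  have hnz : ∀ w : List ℕ, val v w ≠ 0 := by
    intro w hw
    rw [val_eq_zero] at hw
    obtain ⟨n, _, hn⟩ := hw
    exact hv n hn
  obtain ⟨vx, hvx⟩ := S.hx
  obtain ⟨vy, hvy⟩ := S.hy
  have hcases : ∀ X : S70, X = 0 ∨ X = S70.of .one ∨ X = S70.of .a ∨ X = S70.of .inf := by decide
  rcases hcases ((S.tH ι).eval v) with h | h | h | h
  · have := ht 0 (by rw [h]; decide) vx
    exact absurd ((le_zero_iff _).1 this) (hnz _)
  · have h1 : ∀ x, val v (wd ι (S.star x)) = S70.of .one := fun x =>
      ((le_one_iff _).1 (ht _ (by rw [h]; decide) x)).resolve_left (hnz _)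
    have h2 : v (ι S.x) = S70.of .one := by
      have := h1 vx
      rw [val_eq_one] at this
      exact this _ ((mem_wd ι _ _).2 ⟨_, hvx, rfl⟩)
    have h3 : v (ι S.y) = S70.of .one := by
      have := h1 vy
      rw [val_eq_one] at this
      exact this _ ((mem_wd ι _ _).2 ⟨_, hvy, rfl⟩)
    rw [h, h2, h3]
    decide
  · have h2 : ∀ x, val v (wd ι (S.star x)) = S70.of .a := fun x =>
      ((le_a_iff _).1 (ht _ (by rw [h]; decide) x)).resolve_left (hnz _)
    have h3 : ∀ x, ∀ e ∈ S.star x, v (ι e) = S70.of .one ∨ v (ι e) = S70.of .a := by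
      intro x e hx
      have h4 : ∀ w : List ℕ, val v w = S70.of .a ∨ val v w = S70.of .one →
          ∀ n ∈ w, v n = S70.of .one ∨ v n = S70.of .a := by
        intro w
        induction w with
        | nil => intro _ n hn; exact absurd hn List.not_mem_nil
        | cons c w ih =>
          intro hw n hn
          have h5 : ∀ p q : S70, (p * q = S70.of .a ∨ p * q = S70.of .one) →
              (p = S70.of .one ∨ p = S70.of .a) ∧ (q = S70.of .a ∨ q = S70.of .one) := by
            decide
          obtain ⟨h6, h7⟩ := h5 _ _ hw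
          rcases List.mem_cons.1 hn with rfl | hn
          · exact h6
          · exact ih h7 n hn
      exact h4 _ (Or.inl (h2 x)) _ ((mem_wd ι _ _).2 ⟨e, hx, rfl⟩)
    let A : Finset Ed := S.all.filter fun e => v (ι e) = S70.of .a
    have hmemall : ∀ x, ∀ e ∈ S.star x, e ∈ S.all := fun x e he =>
      mem_biUnion.2 ⟨x, mem_univ x, he⟩
    have hex : ∀ x, (S.star x ∩ A).card = 1 := by
      intro x
      have h5 : ∀ l : List Ed, (∀ e ∈ l, e ∈ S.star x) →
          val v (l.map ι) = tr (l.countP fun e => decide (e ∈ A)) := by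
        intro l
        induction l with
        | nil => intro _; rfl
        | cons e l ih =>
          intro hl
          show v (ι e) * val v (l.map ι) = _
          rw [ih fun e' he' => hl e' (by simp [he']), List.countP_cons, add_comm, tr_add]
          congr 1
          have hall := hl e (by simp)
          rcases h3 x e hall with h6 | h6
          · have : e ∉ A := by
              intro hA
              rw [(mem_filter.1 hA).2] at h6
              exact absurd h6 (by decide)
            rw [h6, decide_eq_false this]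
            rfl
          · have : e ∈ A := mem_filter.2 ⟨hmemall x e hall, h6⟩
            rw [h6, decide_eq_true this]
            rfl
      have h6 := h5 (S.star x).toList fun e he => mem_toList.1 he
      have h7 : val v ((S.star x).toList.map ι) = S70.of .a := h2 x
      rw [h7] at h6
      have h8 := tr_eq_a h6.symm
      rw [← h8, List.countP_eq_length_filter]
      have h9 : (S.star x ∩ A).card = ((S.star x).filter (fun e => e ∈ A)).card := by
        rw [filter_mem_eq_inter]
      rw [h9, ← Multiset.coe_card]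
      show Multiset.card (Multiset.filter _ (S.star x).val) = _
      rw [← coe_toList, Multiset.filter_coe]
    have hfo := S.forced A hex
    have hA : ∀ e ∈ S.all, (e ∈ A ↔ v (ι e) = S70.of .a) := fun e he =>
      ⟨fun h => (mem_filter.1 h).2, fun h => mem_filter.2 ⟨he, h⟩⟩
    rw [hA _ (hmemall vx _ hvx), hA _ (hmemall vy _ hvy)] at hfo
    rw [h]
    rcases h3 vx _ hvx with hx | hx <;> rcases h3 vy _ hvy with hy | hy
    · rw [hx, hy] at hfo
      exact absurd (hfo.2 (by decide)) (by decide)
    · rw [hx, hy]; decide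
    · rw [hx, hy]; decide
    · rw [hx, hy] at hfo
      exact absurd rfl (hfo.1 rfl)
  · rw [h]
    have : ∀ X : S70, S70.of .inf = S70.of .inf + X := by decide
    exact this _

/-- the identity fails in the algebra -/
theorem Sy.not_holds_idn (hι : Function.Injective ι) : ¬ Holds S.AW (S.idn ι) := by
  classical
  intro h
  unfold Sy.idn at h
  rw [S.holds_iff] at h
  let φ : ℕ → PM Ed := fun n =>
    if hn : ∃ e, ι e = n then ⟨fun z => z = {hn.choose}, ⟨_, rfl⟩, by
        rintro z rfl
        exact Multiset.singleton_ne_zero _⟩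
      else ⟨fun z => z = {S.x}, ⟨_, rfl⟩, by
        rintro z rfl
        exact Multiset.singleton_ne_zero _⟩
  have hφ : ∀ e z, mem z (φ (ι e)) ↔ z = {e} := by
    intro e z
    have hn : ∃ e', ι e' = ι e := ⟨e, rfl⟩
    have h1 : hn.choose = e := hι hn.choose_spec
    simp only [φ, dif_pos hn]
    show z = {hn.choose} ↔ _
    rw [h1]
  have hval : ∀ (l : List Ed) (z : Multiset Ed), valS φ (l.map ι) z ↔ z = (l : Multiset Ed) := by
    intro l
    induction l with
    | nil => intro z; exact Iff.rfl
    | cons e l ih =>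
      intro z
      constructor
      · rintro ⟨m, hm, r, hr, rfl⟩
        rw [(hφ e m).1 hm, (ih r).1 hr, Multiset.singleton_add, Multiset.cons_coe]
      · intro hz
        refine ⟨{e}, (hφ e _).2 rfl, _, (ih _).2 rfl, ?_⟩
        rw [hz, Multiset.singleton_add, Multiset.cons_coe]
  have hwd : ∀ (s : Finset Ed) (z : Multiset Ed), valS φ (wd ι s) z ↔ z = s.val := by
    intro s z
    unfold wd
    rw [hval, coe_toList]
  have h2 : S.pol ((S.tH ι).eval φ) 0 := by
    intro z hz
    obtain ⟨w, hw, hwz⟩ := (mem_eval φ _ z).1 hz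
    obtain ⟨v, rfl⟩ := (S.words_tH ι w).1 hw
    rw [(hwd _ _).1 hwz, add_zero]
    exact ⟨v, rfl⟩
  have h3 := (h φ 0).1 h2
  have h4 : S.W (({S.x} + {S.y}) + 0) := by
    apply h3
    refine Or.inr ⟨{S.x}, (hφ _ _).2 rfl, {S.y}, (hφ _ _).2 rfl, rfl⟩
  obtain ⟨v, hv⟩ := h4
  have h5 := congrArg Multiset.card hv
  have h6 := S.four v
  have h7 : (S.star v).val.card = (S.star v).card := rfl
  rw [h7] at h5
  simp at h5
  omega

/-- the identity holds in algebras of systems of small degree -/
theorem Sy.holds_small {N' Ed' : Type} [Fintype N'] [DecidableEq N'] [DecidableEq Ed'] {K' d' : ℕ}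
    (S' : Sy N' Ed' K' d') (h : ∀ v, d' < (S.star v).card) : Holds S'.AW (S.idn ι) := by
  unfold Sy.idn
  rw [S'.holds_iff]
  intro φ c
  have h1 : ¬ S'.pol ((S.tH ι).eval φ) c := by
    intro hc
    obtain ⟨v, _⟩ := S.hx
    obtain ⟨z, hz⟩ := valS_exists φ (wd ι (S.star v))
    obtain ⟨v', hv'⟩ := hc z ((mem_eval φ _ z).2 ⟨_, (S.words_tH ι _).2 ⟨v, rfl⟩, hz⟩)
    have h2 := valS_length φ _ _ hz
    have h3 : (wd ι (S.star v)).length = (S.star v).card := by simp [wd]
    have h4 := congrArg Multiset.card hv'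
    rw [Multiset.card_add] at h4
    have h5 : (S'.star v').val.card = (S'.star v').card := rfl
    have h6 := S'.bound v'
    have h7 := h v
    omega
  constructor
  · intro h2; exact absurd h2 h1
  · intro h2
    exact absurd ((S'.pol_add _ _ c).1 h2).1 h1

/-! ### the sequence of systems -/

/-- a system with its types -/
structure Pk (m K : ℕ) : Type 1 where
  N : Type
  Ed : Type
  i1 : Fintype N
  i2 : DecidableEq N
  i3 : DecidableEq Ed
  i4 : Fintype Ed
  S : Sy N Ed K (m + 6)

theorem pk_nonempty (m K : ℕ) : Nonempty (Pk m K) := by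
  obtain ⟨N, Ed, i1, i2, i3, i4, ⟨S⟩⟩ := exists_sy K m
  exact ⟨⟨N, Ed, i1, i2, i3, i4, S⟩⟩

/-- a chosen system -/
noncomputable def pk (m K : ℕ) : Pk m K := Classical.choice (pk_nonempty m K)

/-- the parameter -/
def KK (j b : ℕ) : ℕ := 2 * (b * (2 * j + 6) + (2 * j + 6)) + 3

/-- a bound for the number of variables of the earlier identities -/
noncomputable def bnd : ℕ → ℕ
  | 0 => 0
  | j + 1 => max (bnd j) (@Fintype.card (pk (2 * j) (KK j (bnd j))).Ed (pk (2 * j) (KK j (bnd j))).i4)

/-- the system with number `j` -/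
noncomputable def sy (j : ℕ) : Pk (2 * j) (KK j (bnd j)) := pk (2 * j) (KK j (bnd j))

theorem bnd_mono {i j : ℕ} (h : i ≤ j) : bnd i ≤ bnd j := by
  induction h with
  | refl => exact le_rfl
  | step _ ih => exact ih.trans (le_max_left _ _)

/-- the algebra with number `j` -/
noncomputable def alg (j : ℕ) : Type :=
  letI := (sy j).i1
  letI := (sy j).i2
  letI := (sy j).i3
  (sy j).S.AW

noncomputable instance (j : ℕ) : Add (alg j) :=
  letI := (sy j).i1
  letI := (sy j).i2
  letI := (sy j).i3
  inferInstanceAs (Add (sy j).S.AW)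

noncomputable instance (j : ℕ) : Mul (alg j) :=
  letI := (sy j).i1
  letI := (sy j).i2
  letI := (sy j).i3
  inferInstanceAs (Mul (sy j).S.AW)

/-- the numbering of the variables -/
noncomputable def io (j : ℕ) : (sy j).Ed → ℕ :=
  letI := (sy j).i4
  fun e => (Fintype.equivFin (sy j).Ed e).val

/-- the identity with number `j` -/
noncomputable def idt (j : ℕ) : Term × Term :=
  letI := (sy j).i1
  letI := (sy j).i2
  letI := (sy j).i3
  (sy j).S.idn (io j)

theorem io_inj (j : ℕ) : Function.Injective (io j) := by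
  letI := (sy j).i4
  exact fun a b h => (Fintype.equivFin (sy j).Ed).injective (Fin.ext h)

theorem idt_S7 (j : ℕ) : Holds S7 (idt j) := by
  letI := (sy j).i1
  letI := (sy j).i2
  letI := (sy j).i3
  exact (sy j).S.holds_S7 (io j)

theorem alg_S70 (j : ℕ) (e : Term × Term) (h : Holds S70 e) : Holds (alg j) e := by
  letI := (sy j).i1
  letI := (sy j).i2
  letI := (sy j).i3
  obtain ⟨s, t⟩ := e
  exact (sy j).S.holdsB h (by unfold KK; omega)

theorem idt_not (j : ℕ) : ¬ Holds (alg j) (idt j) := by
  letI := (sy j).i1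
  letI := (sy j).i2
  letI := (sy j).i3
  exact (sy j).S.not_holds_idn (io j) (io_inj j)

theorem idt_lt (i j : ℕ) (hij : i < j) : Holds (alg j) (idt i) := by
  letI := (sy i).i1
  letI := (sy i).i2
  letI := (sy i).i3
  letI := (sy i).i4
  letI := (sy j).i1
  letI := (sy j).i2
  letI := (sy j).i3
  have h1 : ∀ e, io i e < bnd j := by
    intro e
    have h2 : io i e < Fintype.card (sy i).Ed := (Fintype.equivFin (sy i).Ed e).isLt
    have h3 : Fintype.card (sy i).Ed ≤ bnd (i + 1) := le_max_right _ _
    exact lt_of_lt_of_le h2 (h3.trans (bnd_mono hij))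
  have h2 := (sy i).S.lt_idn (io i) (bnd j) h1
  exact (sy j).S.holdsA (s := (idt i).1) (t := (idt i).2) (idt_S7 i) h2.1 h2.2 le_rfl

theorem idt_gt (i j : ℕ) (hij : j < i) : Holds (alg j) (idt i) := by
  letI := (sy i).i1
  letI := (sy i).i2
  letI := (sy i).i3
  letI := (sy j).i1
  letI := (sy j).i2
  letI := (sy j).i3
  refine (sy i).S.holds_small (io i) (sy j).S fun v => ?_
  have := (sy i).S.lo v
  omega

theorem idt_ne (i j : ℕ) (hij : i ≠ j) : Holds (alg j) (idt i) := by
  rcases lt_or_gt_of_ne hij with h | h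
  · exact idt_lt i j h
  · exact idt_gt i j h

/-! ### the cardinality -/

deriving instance Countable for Pool.Agent.Q15.B2.Term

/-- the identities of the variety with index `I` -/
def thy (I : Set ℕ) : Set (Term × Term) := {e | Holds S7 e ∧ ∀ i ∈ I, Holds (alg i) e}

/-- the variety with index `I` -/
def vr (I : Set ℕ) : AlgClass := fun A _ _ => ∀ e ∈ thy I, Holds A e

theorem S7_of_S70 (e : Term × Term) (h : Holds S70 e) : Holds S7 e := by
  obtain ⟨s, t⟩ := e
  rw [holds_S7_iff]
  exact fun v _ => h v

/-- the varieties belong to the interval -/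
def vrI (I : Set ℕ) : Interval := ⟨vr I, ⟨thy I, fun A _ _ => Iff.rfl⟩,
  fun A _ _ h e he => h e he.1,
  fun A _ _ h e he => h e ⟨S7_of_S70 e he, fun i _ => alg_S70 i e he⟩⟩

theorem vrI_inj : Function.Injective vrI := by
  have key : ∀ I J : Set ℕ, vrI I = vrI J → I ⊆ J := by
    intro I J h i hi
    by_contra hj
    have h1 : vr I (alg i) := fun e he => he.2 i hi
    have h2 : vr J (alg i) := by
      have := congrArg Subtype.val h
      change vr I = vr J at this
      rw [← this]
      exact h1
    refine idt_not i (h2 (idt i) ⟨idt_S7 i, fun j hjJ => ?_⟩)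
    refine idt_ne i j ?_
    rintro rfl
    exact hj hjJ
  intro I J h
  exact Set.Subset.antisymm (key I J h) (key J I h.symm)

/-- the identities of a variety -/
def idsOf (V : Interval) : Set (Term × Term) :=
  {e | ∀ (A : Type) [Add A] [Mul A], V.1 A → Holds A e}

theorem idsOf_inj : Function.Injective idsOf := by
  intro V W h
  have key : ∀ (V : Interval) (A : Type) [Add A] [Mul A], V.1 A ↔ ∀ e ∈ idsOf V, Holds A e := by
    intro V A _ _
    constructor
    · intro hA e he
      exact he A hA
    · intro hA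
      obtain ⟨T, hT⟩ := V.2.1
      rw [hT]
      intro e he
      apply hA
      intro B _ _ hB
      exact (hT B).1 hB e he
  apply Subtype.ext
  funext A iA iM
  apply propext
  rw [key V A, key W A, h]

/-- **The interval has the cardinality of the continuum.** -/
theorem card_interval : Cardinal.mk Interval = Cardinal.continuum := by
  apply le_antisymm
  · have h1 : Cardinal.lift.{0} (Cardinal.mk Interval) ≤
        Cardinal.lift.{1} (Cardinal.mk (Set (Term × Term))) :=
      Cardinal.lift_mk_le'.2 ⟨⟨idsOf, idsOf_inj⟩⟩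
    rw [Cardinal.lift_id'.{0, 1}] at h1
    refine h1.trans ?_
    rw [Cardinal.mk_set]
    have h2 : Cardinal.mk (Term × Term) ≤ Cardinal.aleph0 := Cardinal.mk_le_aleph0
    have h3 : (2 : Cardinal.{0}) ^ Cardinal.mk (Term × Term) ≤ 2 ^ Cardinal.aleph0 :=
      Cardinal.power_le_power_left two_ne_zero h2
    have h4 := Cardinal.lift_le.{1}.2 h3
    rw [Cardinal.two_power_aleph0, Cardinal.lift_continuum] at h4
    exact h4
  · have h1 : Cardinal.lift.{1} (Cardinal.mk (Set ℕ)) ≤ Cardinal.lift.{0} (Cardinal.mk Interval) :=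
      Cardinal.lift_mk_le'.2 ⟨⟨vrI, vrI_inj⟩⟩
    rw [Cardinal.lift_id'.{0, 1}, Cardinal.mk_set, Cardinal.mk_nat, Cardinal.two_power_aleph0,
      Cardinal.lift_continuum] at h1
    exact h1

end Pool.Agent.Q15.S7I
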