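import Mathlib

/-! Self-inverting formal power series which are not Hessian nilpotent. -/

namespace Q15SelfInv

open MvPowerSeries

variable {m : ℕ}

/-- power series in `m + 3` variables -/
abbrev PS (m : ℕ) := MvPowerSeries (Fin (m + 3)) ℂ

noncomputable section

/-- the constant `i` -/
def J : PS m := C Complex.I

lemma J_sq : (J : PS m) * J = -1 := by
  unfold J
  rw [← map_mul, Complex.I_mul_I, map_neg, map_one]

/-- the isotropic vector -/
def c (j : Fin (m + 3)) : PS m := (if j = 0 then 1 else 0) + (if j = 1 then J else 0)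

/-- the translated coordinates -/
def y (j : Fin (m + 3)) : PS m := X j - (if j = 2 then 1 else 0)

/-- `⟨y, y⟩` -/
def D : PS m := ∑ j, y j ^ 2

/-- `⟨c, y⟩` -/
def w : PS m := X 0 + J * X 1

lemma val2 : ((2 : Fin (m + 3)) : ℕ) = 2 := by
  have h : 2 < m + 3 := by omega
  exact Nat.mod_eq_of_lt h

lemma h02 : (0 : Fin (m + 3)) ≠ 2 := by
  intro h
  have := congrArg Fin.val h
  rw [val2] at this
  simp at this

lemma h12 : (1 : Fin (m + 3)) ≠ 2 := by
  intro h
  have := congrArg Fin.val h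
  rw [val2] at this
  simp at this

lemma h01 : (0 : Fin (m + 3)) ≠ 1 := by
  intro h
  have := congrArg Fin.val h
  simp at this

lemma sum_cy : ∑ j, c j * y j = (w : PS m) := by
  unfold c y w
  simp only [add_mul, ite_mul, one_mul, zero_mul, Finset.sum_add_distrib, Finset.sum_ite_eq',
    Finset.mem_univ, if_true, if_neg h02, if_neg h12, sub_zero]

lemma sum_cc : ∑ j, c j * c j = (0 : PS m) := by
  have : ∀ j : Fin (m + 3), (c j * c j : PS m) =
      (if j = 0 then 1 else 0) + (if j = 1 then J * J else 0) := by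
    intro j
    unfold c
    by_cases h0 : j = 0
    · subst h0
      simp
    · by_cases h1 : j = 1
      · subst h1
        simp
      · simp [h0, h1]
  simp only [this, Finset.sum_add_distrib, Finset.sum_ite_eq', Finset.mem_univ, if_true, J_sq]
  ring

lemma constCoeff_D : constantCoeff (D : PS m) = 1 := by
  unfold D
  rw [map_sum, Finset.sum_eq_single (2 : Fin (m + 3))]
  · simp [y]
  · intro j _ hj
    simp [y, hj]
  · intro h
    exact absurd (Finset.mem_univ _) h

/-- `1 / ⟨y,y⟩` -/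
def E : PS m := (D)⁻¹

lemma DE : (D : PS m) * E = 1 :=
  MvPowerSeries.mul_inv_cancel _ (by rw [constCoeff_D]; exact one_ne_zero)

lemma constCoeff_E : constantCoeff (E : PS m) = 1 := by
  have := congrArg constantCoeff (DE (m := m))
  rwa [map_mul, constCoeff_D, one_mul, map_one] at this

lemma constCoeff_w : constantCoeff (w : PS m) = 0 := by
  unfold w
  simp

lemma dJ (i : Fin (m + 3)) : pderiv ℂ i (J : PS m) = 0 := pderiv_C

lemma dw (i : Fin (m + 3)) : pderiv ℂ i (w : PS m) = c i := by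
  unfold w c
  rw [map_add, Derivation.leibniz, dJ]
  by_cases h0 : i = 0
  · subst h0
    simp [pderiv_X_self, pderiv_X_of_ne (h01 (m := m)).symm]
  · by_cases h1 : i = 1
    · subst h1
      simp [pderiv_X_self, pderiv_X_of_ne (h01 (m := m))]
    · simp [h0, h1, pderiv_X_of_ne (Ne.symm h0), pderiv_X_of_ne (Ne.symm h1)]

lemma dy (i j : Fin (m + 3)) : pderiv ℂ i (y j : PS m) = if j = i then 1 else 0 := by
  unfold y
  have : pderiv ℂ i ((if j = 2 then 1 else 0 : PS m)) = 0 := by
    split_ifs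
    · exact pderiv_one
    · exact map_zero _
  rw [map_sub, this, sub_zero]
  by_cases h : j = i
  · subst h
    rw [if_pos rfl, pderiv_X_self]
  · rw [if_neg h, pderiv_X_of_ne h]

lemma dD (i : Fin (m + 3)) : pderiv ℂ i (D : PS m) = 2 * y i := by
  unfold D
  rw [map_sum, Finset.sum_eq_single i]
  · rw [Derivation.leibniz_pow, dy, if_pos rfl]
    simp [two_mul]
  · intro j _ hj
    rw [Derivation.leibniz_pow, dy, if_neg hj]
    simp
  · intro h
    exact absurd (Finset.mem_univ _) h

lemma dE (i : Fin (m + 3)) : pderiv ℂ i (E : PS m) = - (2 * y i * E ^ 2) := by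
  have h := congrArg (pderiv ℂ i) (DE (m := m))
  rw [Derivation.leibniz, dD, pderiv_one] at h
  simp only [smul_eq_mul] at h
  have h2 := congrArg (E * ·) h
  simp only [mul_add, mul_zero] at h2
  rw [← mul_assoc, mul_comm E D, DE, one_mul] at h2
  linear_combination h2

/-- the derivative of `u = w E` -/
def vv (j : Fin (m + 3)) : PS m := c j * E - 2 * w * y j * E ^ 2

/-- The power series `P = (w / ⟨y,y⟩)^2`. -/
def P : PS m := (w * E) ^ 2

lemma du (i : Fin (m + 3)) : pderiv ℂ i (w * E : PS m) = vv i := by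
  rw [Derivation.leibniz, dw, dE, vv]
  simp only [smul_eq_mul]
  ring

lemma dP (i : Fin (m + 3)) : pderiv ℂ i (P : PS m) = 2 * (w * E) * vv i := by
  unfold P
  rw [Derivation.leibniz_pow, du]
  simp only [smul_eq_mul, nsmul_eq_mul, Nat.cast_ofNat, Nat.add_one_sub_one, pow_one]
  ring

lemma dc (i j : Fin (m + 3)) : pderiv ℂ i (c j : PS m) = 0 := by
  unfold c
  rw [map_add]
  have h1 : pderiv ℂ i ((if j = 0 then 1 else 0 : PS m)) = 0 := by
    split_ifs
    · exact pderiv_one
    · exact map_zero _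
  have h2 : pderiv ℂ i ((if j = 1 then J else 0 : PS m)) = 0 := by
    split_ifs
    · exact dJ i
    · exact map_zero _
  rw [h1, h2, add_zero]

/-- The substitution argument. -/
def sb (s : ℂ) (j : Fin (m + 3)) : PS m := X j + C s * pderiv ℂ j P

lemma constCoeff_sb (s : ℂ) (j : Fin (m + 3)) : constantCoeff (sb s j : PS m) = 0 := by
  unfold sb
  rw [dP]
  simp [constCoeff_w]

lemma hasSubst (s : ℂ) : HasSubst (sb (m := m) s) :=
  hasSubst_of_constantCoeff_zero (constCoeff_sb s)

/-- the substitution homomorphism -/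
def φ (s : ℂ) : PS m →ₐ[ℂ] PS m := substAlgHom (hasSubst s)

lemma φ_X (s : ℂ) (j : Fin (m + 3)) : φ s (X j : PS m) = X j + C s * pderiv ℂ j P :=
  substAlgHom_X (hasSubst s) j

lemma φ_C (s a : ℂ) : φ s (C a : PS m) = C a := by
  have : (C a : PS m) = algebraMap ℂ (PS m) a := by
    rw [MvPowerSeries.algebraMap_apply]; rfl
  rw [this]
  exact (φ s).commutes a

lemma φ_c (s : ℂ) (j : Fin (m + 3)) : φ s (c j : PS m) = c j := by
  unfold c
  rw [map_add]
  congr 1
  · split_ifs
    · exact map_one _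
    · exact map_zero _
  · split_ifs
    · exact φ_C s _
    · exact map_zero _

lemma φ_y (s : ℂ) (j : Fin (m + 3)) : φ s (y j : PS m) = y j + C s * pderiv ℂ j P := by
  unfold y
  rw [map_sub, φ_X]
  have : φ s (if j = 2 then 1 else 0 : PS m) = if j = 2 then 1 else 0 := by
    split_ifs
    · exact map_one _
    · exact map_zero _
  rw [this]
  ring

/-- the factor -/
def lam (s : ℂ) : PS m := 1 - 4 * C s * w ^ 2 * E ^ 3

lemma sum_yy : ∑ j, y j * y j = (D : PS m) := by
  unfold D
  exact Finset.sum_congr rfl fun j _ => (sq _).symm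

lemma φ_w (s : ℂ) : φ s (w : PS m) = w * lam s := by
  have h : (w : PS m) = ∑ j, c j * y j := sum_cy.symm
  rw [h, map_sum]
  have : ∀ j, φ s (c j * y j : PS m) =
      c j * y j + (2 * C s * w * E ^ 2) * (c j * c j) - (4 * C s * w ^ 2 * E ^ 3) * (c j * y j) := by
    intro j
    rw [map_mul, φ_c, φ_y, dP, vv]
    ring
  rw [Finset.sum_congr rfl fun j _ => this j, Finset.sum_sub_distrib, Finset.sum_add_distrib,
    ← Finset.mul_sum, ← Finset.mul_sum, sum_cc, sum_cy, lam]
  ring

lemma φ_D (s : ℂ) : φ s (D : PS m) = lam s * D := by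
  have h : (D : PS m) = ∑ j, y j * y j := sum_yy.symm
  conv_lhs => rw [h, map_sum]
  have : ∀ j, φ s (y j * y j : PS m) =
      (lam s ^ 2) * (y j * y j) + (4 * C s * lam s * w * E ^ 2) * (c j * y j) +
      (4 * C s ^ 2 * w ^ 2 * E ^ 4) * (c j * c j) := by
    intro j
    rw [map_mul, φ_y, dP, vv, lam]
    ring
  rw [Finset.sum_congr rfl fun j _ => this j, Finset.sum_add_distrib, Finset.sum_add_distrib,
    ← Finset.mul_sum, ← Finset.mul_sum, ← Finset.mul_sum, sum_cc, sum_cy, sum_yy]
  have hDE := DE (m := m)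
  unfold lam
  linear_combination (- 4 * C s * w ^ 2 * E ^ 2 * (1 - 4 * C s * w ^ 2 * E ^ 3)) * hDE

lemma constCoeff_lam (s : ℂ) : constantCoeff (lam s : PS m) = 1 := by
  unfold lam
  simp [constCoeff_w]

lemma lam_ne (s : ℂ) : (lam s : PS m) ≠ 0 := by
  intro h
  have := constCoeff_lam (m := m) s
  rw [h, map_zero] at this
  exact zero_ne_one this

lemma φ_E (s : ℂ) : lam s * φ s (E : PS m) = E := by
  have h := congrArg (φ s) (DE (m := m))
  rw [map_mul, φ_D, map_one] at h
  have h2 := congrArg (E * ·) h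
  simp only [mul_one] at h2
  have hDE := DE (m := m)
  linear_combination h2 - (lam s * φ s (E : PS m)) * hDE

lemma φ_vv (s : ℂ) (j : Fin (m + 3)) : φ s (vv j : PS m) = vv j := by
  have hE := φ_E (m := m) s
  apply mul_left_cancel₀ (lam_ne (m := m) s)
  have h2 : φ s (2 : PS m) = 2 := map_ofNat _ 2
  have hl : (lam s : PS m) = 1 - 4 * C s * w ^ 2 * E ^ 3 := rfl
  rw [vv, map_sub, map_mul, map_mul, map_mul, map_mul, map_pow, φ_c, φ_y, φ_w, dP, h2, vv]
  linear_combination (c j - 2 * w * (lam s * φ s (E : PS m) + E) *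
    (y j + C s * (2 * (w * E) * (c j * E - 2 * w * y j * E ^ 2)))) * hE -
    ((c j * E - 2 * w * y j * E ^ 2)) * hl

lemma φ_dP (s : ℂ) (j : Fin (m + 3)) : φ s (pderiv ℂ j P : PS m) = pderiv ℂ j P := by
  have hE := φ_E (m := m) s
  have h2 : φ s (2 : PS m) = 2 := map_ofNat _ 2
  rw [dP, map_mul, map_mul, map_mul, φ_vv, φ_w, h2, mul_assoc w, hE]

/-- The Laplacian of `P`. -/
lemma laplace : ∑ j, pderiv ℂ j (pderiv ℂ j P) =
    ((8 - 4 * ((m : ℂ) + 3)) • (w ^ 2 * E ^ 3 : PS m)) := by
  have hv : ∀ j : Fin (m + 3), pderiv ℂ j (vv j : PS m) = 8 * w * E ^ 3 * (y j * y j) -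
      4 * E ^ 2 * (c j * y j) - 2 * w * E ^ 2 := by
    intro j
    have e2 : pderiv ℂ j (2 : PS m) = 0 := by
      have : (2 : PS m) = C 2 := by rw [map_ofNat]
      rw [this, pderiv_C]
    unfold vv
    simp only [map_sub, Derivation.leibniz, Derivation.leibniz_pow, dc, dE, dw, dy, if_true,
      smul_eq_mul, nsmul_eq_mul, Nat.cast_ofNat, Nat.add_one_sub_one, pow_one, e2]
    ring
  have h1 : ∀ j : Fin (m + 3), pderiv ℂ j (pderiv ℂ j (P : PS m)) = (2 * E ^ 2) * (c j * c j) +
      (- 16 * w * E ^ 3) * (c j * y j) + (24 * w ^ 2 * E ^ 4) * (y j * y j) -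
      4 * w ^ 2 * E ^ 3 := by
    intro j
    have e2 : pderiv ℂ j (2 : PS m) = 0 := by
      have : (2 : PS m) = C 2 := by rw [map_ofNat]
      rw [this, pderiv_C]
    rw [dP]
    simp only [Derivation.leibniz, e2, dw, dE, hv, smul_eq_mul]
    unfold vv
    ring
  rw [Finset.sum_congr rfl fun j _ => h1 j, Finset.sum_sub_distrib, Finset.sum_add_distrib,
    Finset.sum_add_distrib, ← Finset.mul_sum, ← Finset.mul_sum, ← Finset.mul_sum, sum_cc,
    sum_cy, sum_yy, Finset.sum_const, Finset.card_univ, Fintype.card_fin]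
  have hDE := DE (m := m)
  rw [MvPowerSeries.smul_eq_C_mul, nsmul_eq_mul]
  have hC : (C (8 - 4 * ((m : ℂ) + 3)) : PS m) = 8 - 4 * ((m : PS m) + 3) := by
    rw [map_sub, map_mul, map_add, map_ofNat, map_ofNat, map_ofNat, map_natCast]
  rw [hC]
  push_cast
  linear_combination (24 * w ^ 2 * E ^ 3) * hDE

end

end Q15SelfInv
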