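import Mathlib

/-! Polynomial maps `g` with `g(z + g(z)) = g(z)` have nilpotent Jacobian matrix. -/

namespace Q15SelfInv

open MvPolynomial

variable {σ : Type*} [Fintype σ] [DecidableEq σ]

lemma chain (a : σ → MvPolynomial σ ℂ) (l : σ) (f : MvPolynomial σ ℂ) :
    pderiv l (aeval a f) = ∑ j, aeval a (pderiv j f) * pderiv l (a j) := by
  induction f using MvPolynomial.induction_on with
  | C r => simp
  | add p q hp hq => simp only [map_add, hp, hq, add_mul, Finset.sum_add_distrib]
  | mul_X p i hp =>
    rw [map_mul, aeval_X, Derivation.leibniz, hp]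
    simp only [Derivation.leibniz, smul_eq_mul, map_add, map_mul, aeval_X, pderiv_X]
    simp only [add_mul, Finset.sum_add_distrib, Finset.mul_sum]
    congr 1
    · rw [Finset.sum_eq_single i]
      · simp
      · intro j _ hj
        rw [Pi.single_eq_of_ne hj.symm]
        simp
      · intro h; exact absurd (Finset.mem_univ _) h
    · exact Finset.sum_congr rfl fun j _ => by ring

theorem jacobian_nilpotent (g : σ → MvPolynomial σ ℂ)
    (hg : ∀ i, aeval (fun j => X j + g j) (g i) = g i) :
    IsNilpotent (Matrix.of fun i l => pderiv l (g i)) := by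
  classical
  set H : Matrix σ σ (MvPolynomial σ ℂ) := Matrix.of fun i l => pderiv l (g i) with hH
  -- iterates
  have hk : ∀ k : ℕ, ∀ i, aeval (fun j => X j + (k : MvPolynomial σ ℂ) * g j) (g i) = g i := by
    intro k
    induction k with
    | zero =>
      intro i
      simp [aeval_X_left]
    | succ k ih =>
      intro i
      have h1 := congrArg (aeval (fun j => X j + g j)) (ih i)
      rw [hg i] at h1
      have h2 : (aeval (fun j => X j + g j)).comp
          (aeval (fun j => X j + (k : MvPolynomial σ ℂ) * g j)) =
          (aeval (fun j => X j + ((k + 1 : ℕ) : MvPolynomial σ ℂ) * g j) :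
            MvPolynomial σ ℂ →ₐ[ℂ] MvPolynomial σ ℂ) := by
        apply MvPolynomial.algHom_ext
        intro j
        rw [AlgHom.comp_apply, aeval_X, map_add, aeval_X, map_mul, hg j, aeval_X, map_natCast]
        push_cast
        ring
      have h3 := congrArg (fun φ => φ (g i)) h2
      simp only [AlgHom.comp_apply] at h3
      rw [← h3]
      exact h1
  -- the polynomial homotopy
  let Ψ : MvPolynomial σ ℂ →ₐ[ℂ] Polynomial (MvPolynomial σ ℂ) :=
    aeval (fun j => Polynomial.C (X j) + Polynomial.X * Polynomial.C (g j))
  have hev : ∀ (k : ℕ) (f : MvPolynomial σ ℂ),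
      Polynomial.eval (k : MvPolynomial σ ℂ) (Ψ f) =
        aeval (fun j => X j + (k : MvPolynomial σ ℂ) * g j) f := by
    intro k f
    induction f using MvPolynomial.induction_on with
    | C r =>
      have h1 : (C r : MvPolynomial σ ℂ) = algebraMap ℂ _ r := rfl
      rw [h1, AlgHom.commutes, AlgHom.commutes]
      rw [Polynomial.algebraMap_apply, Polynomial.eval_C]
    | add p q hp hq => rw [map_add, Polynomial.eval_add, hp, hq, map_add]
    | mul_X p i hp =>
      rw [map_mul, Polynomial.eval_mul, hp, map_mul]
      congr 1
      change Polynomial.eval _ (aeval _ (X i)) = _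
      rw [aeval_X, aeval_X, Polynomial.eval_add, Polynomial.eval_mul, Polynomial.eval_C,
        Polynomial.eval_X, Polynomial.eval_C]
  let A : Matrix σ σ (Polynomial (MvPolynomial σ ℂ)) := Matrix.of fun i l => Ψ (pderiv l (g i))
  -- the matrix identity
  have hA : ∀ i l, A i l + Polynomial.X * ∑ j, A i j * Polynomial.C (H j l) =
      Polynomial.C (H i l) := by
    intro i l
    apply Polynomial.eq_of_infinite_eval_eq
    apply Set.Infinite.mono (s := Set.range (fun k : ℕ => (k : MvPolynomial σ ℂ)))
    · rintro _ ⟨k, rfl⟩
      have h1 := congrArg (pderiv l) (hk k i)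
      rw [chain] at h1
      change Polynomial.eval _ _ = Polynomial.eval _ _
      rw [Polynomial.eval_C]
      change _ = pderiv l (g i)
      rw [← h1]
      simp only [Polynomial.eval_add, Polynomial.eval_mul, Polynomial.eval_X,
        Polynomial.eval_finsetSum, Polynomial.eval_C]
      have h2 : ∀ j, pderiv l (X j + (k : MvPolynomial σ ℂ) * g j) =
          (if j = l then 1 else 0) + (k : MvPolynomial σ ℂ) * pderiv l (g j) := by
        intro j
        rw [map_add, Derivation.leibniz, pderiv_X]
        have : pderiv l ((k : MvPolynomial σ ℂ)) = 0 := by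
          rw [← map_natCast (C : ℂ →+* MvPolynomial σ ℂ), pderiv_C]
        rw [this, smul_zero, add_zero, smul_eq_mul]
        congr 1
        by_cases h : j = l
        · subst h; simp
        · rw [if_neg h, Pi.single_eq_of_ne h]
      simp only [h2, mul_add, Finset.sum_add_distrib, mul_ite, mul_one, mul_zero,
        Finset.sum_ite_eq', Finset.mem_univ, if_true]
      congr 1
      · exact hev k _
      · rw [Finset.mul_sum]
        refine Finset.sum_congr rfl fun j _ => ?_
        have : Polynomial.eval (k : MvPolynomial σ ℂ) (A i j) = _ := hev k (pderiv j (g i))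
        rw [this]
        change _ * (_ * pderiv l (g j)) = _
        ring
    · exact Set.infinite_range_of_injective Nat.cast_injective
  -- coefficients
  let B : ℕ → Matrix σ σ (MvPolynomial σ ℂ) := fun k => Matrix.of fun i l => (A i l).coeff k
  have hB0 : B 0 = H := by
    ext1 i l
    have := congrArg (fun p => Polynomial.coeff p 0) (hA i l)
    simp only [Polynomial.coeff_add, Polynomial.mul_coeff_zero, Polynomial.coeff_X_zero,
      zero_mul, add_zero, Polynomial.coeff_C_zero] at this
    exact this
  have hB : ∀ k, B (k + 1) = - (B k * H) := by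
    intro k
    ext1 i l
    have := congrArg (fun p => Polynomial.coeff p (k + 1)) (hA i l)
    simp only [Polynomial.coeff_add, Polynomial.coeff_X_mul, Polynomial.finsetSum_coeff,
      Polynomial.coeff_mul_C, Polynomial.coeff_C_succ] at this
    rw [Matrix.neg_apply, Matrix.mul_apply]
    exact eq_neg_of_add_eq_zero_left this
  have hBk : ∀ k, B k = (-1) ^ k • H ^ (k + 1) := by
    intro k
    induction k with
    | zero => simpa using hB0
    | succ k ih =>
      rw [hB, ih, pow_succ (-1 : ℤ), pow_succ H (k + 1), Matrix.smul_mul]
      simp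
  let N : ℕ := Finset.univ.sup fun i => Finset.univ.sup fun l => (A i l).natDegree
  have hN : B (N + 1) = 0 := by
    ext1 i l
    apply Polynomial.coeff_eq_zero_of_natDegree_lt
    refine Nat.lt_succ_of_le ?_
    exact (Finset.le_sup (f := fun l => (A i l).natDegree) (Finset.mem_univ l)).trans
      (Finset.le_sup (f := fun i => Finset.univ.sup fun l => (A i l).natDegree)
        (Finset.mem_univ i))
  refine ⟨N + 2, ?_⟩
  have h3 := hBk (N + 1)
  rw [hN] at h3
  rcases Nat.even_or_odd (N + 1) with h4 | h4
  · rw [h4.neg_one_pow, one_smul] at h3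
    exact h3.symm
  · rw [h4.neg_one_pow] at h3
    simpa using h3.symm

end Q15SelfInv
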