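import Mathlib

/-!
Loop conditions following from a 6-ary Siggers operation.
All the operations live on an arbitrary type and nothing is assumed idempotent.
-/

namespace Pool.Agent.Q15Sig

universe u

variable {B : Type u}

/-- The 6-ary Siggers identity. -/
def Sig (s : B → B → B → B → B → B → B) : Prop :=
  ∀ x y z, s x y x z y z = s y x z x z y

/-- A ternary relation closed under a 6-ary operation. -/
def Cl3 (s : B → B → B → B → B → B → B) (P : B → B → B → Prop) : Prop :=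
  ∀ x0 x1 x2 x3 x4 x5 y0 y1 y2 y3 y4 y5 z0 z1 z2 z3 z4 z5,
    P x0 y0 z0 → P x1 y1 z1 → P x2 y2 z2 → P x3 y3 z3 → P x4 y4 z4 → P x5 y5 z5 →
    P (s x0 x1 x2 x3 x4 x5) (s y0 y1 y2 y3 y4 y5) (s z0 z1 z2 z3 z4 z5)

/-- A binary relation closed under a 6-ary operation. -/
def Cl6 (s : B → B → B → B → B → B → B) (R : B → B → Prop) : Prop :=
  ∀ x0 x1 x2 x3 x4 x5 y0 y1 y2 y3 y4 y5,
    R x0 y0 → R x1 y1 → R x2 y2 → R x3 y3 → R x4 y4 → R x5 y5 →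
    R (s x0 x1 x2 x3 x4 x5) (s y0 y1 y2 y3 y4 y5)

/-- A binary relation closed under a 4-ary operation. -/
def Cl4 (t : B → B → B → B → B) (R : B → B → Prop) : Prop :=
  ∀ x0 x1 x2 x3 y0 y1 y2 y3, R x0 y0 → R x1 y1 → R x2 y2 → R x3 y3 →
    R (t x0 x1 x2 x3) (t y0 y1 y2 y3)

/-- A binary relation closed under a 5-ary operation. -/
def Cl5 (h : B → B → B → B → B → B) (R : B → B → Prop) : Prop :=
  ∀ x0 x1 x2 x3 x4 y0 y1 y2 y3 y4, R x0 y0 → R x1 y1 → R x2 y2 → R x3 y3 → R x4 y4 →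
    R (h x0 x1 x2 x3 x4) (h y0 y1 y2 y3 y4)


section Ternary

variable {s : B → B → B → B → B → B → B} {P : B → B → B → Prop}

theorem s111 (hs : Sig s) (hP : Cl3 s P) {x0 x1 x2 x3 x4 x5 y0 y1 y2 y3 y4 y5 z0 z1 z2 z3 z4 z5 : B}
    (p0 : P x0 y0 z0) (p1 : P x1 y1 z1) (p2 : P x2 y2 z2) (p3 : P x3 y3 z3) (p4 : P x4 y4 z4) (p5 : P x5 y5 z5) :
    P (s x0 x1 x2 x3 x4 x5) (s y0 y1 y2 y3 y4 y5) (s z0 z1 z2 z3 z4 z5) := by
  exact hP _ _ _ _ _ _ _ _ _ _ _ _ _ _ _ _ _ _ p0 p1 p2 p3 p4 p5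

theorem s112 (hs : Sig s) (hP : Cl3 s P) {x0 x1 x2 x3 x4 x5 y0 y1 y2 y3 y4 y5 za zb zc : B}
    (p0 : P x0 y0 zb) (p1 : P x1 y1 za) (p2 : P x2 y2 zc) (p3 : P x3 y3 za) (p4 : P x4 y4 zc) (p5 : P x5 y5 zb) :
    P (s x0 x1 x2 x3 x4 x5) (s y0 y1 y2 y3 y4 y5) (s za zb za zc zb zc) := by
  rw [hs za zb zc]
  exact hP _ _ _ _ _ _ _ _ _ _ _ _ _ _ _ _ _ _ p0 p1 p2 p3 p4 p5

theorem s121 (hs : Sig s) (hP : Cl3 s P) {x0 x1 x2 x3 x4 x5 ya yb yc z0 z1 z2 z3 z4 z5 : B}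
    (p0 : P x0 yb z0) (p1 : P x1 ya z1) (p2 : P x2 yc z2) (p3 : P x3 ya z3) (p4 : P x4 yc z4) (p5 : P x5 yb z5) :
    P (s x0 x1 x2 x3 x4 x5) (s ya yb ya yc yb yc) (s z0 z1 z2 z3 z4 z5) := by
  rw [hs ya yb yc]
  exact hP _ _ _ _ _ _ _ _ _ _ _ _ _ _ _ _ _ _ p0 p1 p2 p3 p4 p5

theorem s122 (hs : Sig s) (hP : Cl3 s P) {x0 x1 x2 x3 x4 x5 ya yb yc za zb zc : B}
    (p0 : P x0 yb zb) (p1 : P x1 ya za) (p2 : P x2 yc zc) (p3 : P x3 ya za) (p4 : P x4 yc zc) (p5 : P x5 yb zb) :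
    P (s x0 x1 x2 x3 x4 x5) (s ya yb ya yc yb yc) (s za zb za zc zb zc) := by
  rw [hs ya yb yc, hs za zb zc]
  exact hP _ _ _ _ _ _ _ _ _ _ _ _ _ _ _ _ _ _ p0 p1 p2 p3 p4 p5

theorem s211 (hs : Sig s) (hP : Cl3 s P) {xa xb xc y0 y1 y2 y3 y4 y5 z0 z1 z2 z3 z4 z5 : B}
    (p0 : P xb y0 z0) (p1 : P xa y1 z1) (p2 : P xc y2 z2) (p3 : P xa y3 z3) (p4 : P xc y4 z4) (p5 : P xb y5 z5) :
    P (s xa xb xa xc xb xc) (s y0 y1 y2 y3 y4 y5) (s z0 z1 z2 z3 z4 z5) := by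
  rw [hs xa xb xc]
  exact hP _ _ _ _ _ _ _ _ _ _ _ _ _ _ _ _ _ _ p0 p1 p2 p3 p4 p5

theorem s221 (hs : Sig s) (hP : Cl3 s P) {xa xb xc ya yb yc z0 z1 z2 z3 z4 z5 : B}
    (p0 : P xb yb z0) (p1 : P xa ya z1) (p2 : P xc yc z2) (p3 : P xa ya z3) (p4 : P xc yc z4) (p5 : P xb yb z5) :
    P (s xa xb xa xc xb xc) (s ya yb ya yc yb yc) (s z0 z1 z2 z3 z4 z5) := by
  rw [hs xa xb xc, hs ya yb yc]
  exact hP _ _ _ _ _ _ _ _ _ _ _ _ _ _ _ _ _ _ p0 p1 p2 p3 p4 p5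

end Ternary

/-- auxiliary element -/
abbrev el_x (s : B → B → B → B → B → B → B) (u v : B) : B :=
  (s (s u u u v u v) (s u v u u v u) (s u u u v u v) (s v u v u u u) (s u v u u v u) (s v u v u u u))

/-- auxiliary element -/
abbrev el_y (s : B → B → B → B → B → B → B) (u v : B) : B :=
  (s (s u u v v v u) (s v v u u u v) (s u u v u v v) (s v v u v u u) (s v u u u v v) (s v u v v u u))

/-- auxiliary element -/
abbrev el_c (s : B → B → B → B → B → B → B) (u v : B) : B :=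
  (s (s v v u u u u) (s u u v v u u) (s v v u u u u) (s u u u u v v) (s u u v v u u) (s u u u u v v))

/-- auxiliary element -/
abbrev el_d (s : B → B → B → B → B → B → B) (u v : B) : B :=
  (s (s v v u u u v) (s u u v v v u) (s v v u v u u) (s u u v u v v) (s u v v v u u) (s u v u u v v))

theorem tr_cxx {s : B → B → B → B → B → B → B} {P : B → B → B → Prop} (hs : Sig s) (hP : Cl3 s P) {u v : B}
    (h101 : P v u v) (h100 : P v u u) (h001 : P u u v) (h010 : P u v u) :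
    P (el_c s u v) (el_x s u v) (el_x s u v) :=
  (s111 hs hP (s112 hs hP h100 h100 h001 h010 h001 h010) (s112 hs hP h001 h010 h100 h100 h010 h001) (s112 hs hP h100 h100 h001 h010 h001 h010) (s112 hs hP h010 h001 h010 h001 h100 h100) (s112 hs hP h001 h010 h100 h100 h010 h001) (s112 hs hP h010 h001 h010 h001 h100 h100))

theorem tr_dxx {s : B → B → B → B → B → B → B} {P : B → B → B → Prop} (hs : Sig s) (hP : Cl3 s P) {u v : B}
    (h101 : P v u v) (h100 : P v u u) (h001 : P u u v) (h010 : P u v u) :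
    P (el_d s u v) (el_x s u v) (el_x s u v) :=
  (s111 hs hP (s121 hs hP h100 h100 h010 h001 h010 h101) (s121 hs hP h010 h001 h100 h100 h101 h010) (s121 hs hP h100 h100 h010 h101 h010 h001) (s121 hs hP h001 h010 h101 h010 h100 h100) (s121 hs hP h010 h101 h100 h100 h001 h010) (s112 hs hP h010 h101 h010 h001 h100 h100))

theorem tr_dyd {s : B → B → B → B → B → B → B} {P : B → B → B → Prop} (hs : Sig s) (hP : Cl3 s P) {u v : B}
    (h101 : P v u v) (h100 : P v u u) (h001 : P u u v) (h010 : P u v u) :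
    P (el_d s u v) (el_y s u v) (el_d s u v) :=
  (s111 hs hP (s111 hs hP h101 h101 h010 h010 h010 h101) (s111 hs hP h010 h010 h101 h101 h101 h010) (s111 hs hP h101 h101 h010 h101 h010 h010) (s111 hs hP h010 h010 h101 h010 h101 h101) (s111 hs hP h010 h101 h101 h101 h010 h010) (s111 hs hP h010 h101 h010 h010 h101 h101))

theorem tr_dyx {s : B → B → B → B → B → B → B} {P : B → B → B → Prop} (hs : Sig s) (hP : Cl3 s P) {u v : B}
    (h101 : P v u v) (h100 : P v u u) (h001 : P u u v) (h010 : P u v u) :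
    P (el_d s u v) (el_y s u v) (el_x s u v) :=
  (s112 hs hP (s112 hs hP h101 h100 h010 h010 h010 h101) (s112 hs hP h010 h010 h101 h100 h101 h010) (s112 hs hP h100 h101 h010 h101 h010 h010) (s112 hs hP h010 h010 h101 h010 h101 h100) (s112 hs hP h010 h101 h100 h101 h010 h010) (s111 hs hP h010 h101 h010 h010 h101 h100))

theorem tr_xcd {s : B → B → B → B → B → B → B} {P : B → B → B → Prop} (hs : Sig s) (hP : Cl3 s P) {u v : B}
    (h101 : P v u v) (h100 : P v u u) (h001 : P u u v) (h010 : P u v u) :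
    P (el_x s u v) (el_c s u v) (el_d s u v) :=
  (s221 hs hP (s111 hs hP h001 h101 h010 h010 h100 h001) (s111 hs hP h010 h010 h001 h101 h001 h100) (s111 hs hP h101 h001 h100 h001 h010 h010) (s111 hs hP h010 h010 h001 h100 h001 h101) (s111 hs hP h100 h001 h101 h001 h010 h010) (s211 hs hP h100 h001 h010 h010 h001 h101))

theorem tr_xcy {s : B → B → B → B → B → B → B} {P : B → B → B → Prop} (hs : Sig s) (hP : Cl3 s P) {u v : B}
    (h101 : P v u v) (h100 : P v u u) (h001 : P u u v) (h010 : P u v u) :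
    P (el_x s u v) (el_c s u v) (el_y s u v) :=
  (s111 hs hP (s111 hs hP h010 h010 h001 h101 h001 h100) (s111 hs hP h001 h101 h010 h010 h100 h001) (s111 hs hP h010 h010 h001 h100 h001 h101) (s111 hs hP h101 h001 h100 h001 h010 h010) (s111 hs hP h001 h100 h010 h010 h101 h001) (s211 hs hP h001 h100 h001 h101 h010 h010))

theorem tr_xdc {s : B → B → B → B → B → B → B} {P : B → B → B → Prop} (hs : Sig s) (hP : Cl3 s P) {u v : B}
    (h101 : P v u v) (h100 : P v u u) (h001 : P u u v) (h010 : P u v u) :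
    P (el_x s u v) (el_d s u v) (el_c s u v) :=
  (s112 hs hP (s211 hs hP h010 h010 h101 h001 h100 h010) (s211 hs hP h101 h001 h010 h010 h010 h100) (s211 hs hP h010 h010 h100 h010 h101 h001) (s211 hs hP h001 h101 h010 h100 h010 h010) (s211 hs hP h100 h010 h010 h010 h001 h101) (s111 hs hP h100 h010 h101 h001 h010 h010))

theorem tr_xdy {s : B → B → B → B → B → B → B} {P : B → B → B → Prop} (hs : Sig s) (hP : Cl3 s P) {u v : B}
    (h101 : P v u v) (h100 : P v u u) (h001 : P u u v) (h010 : P u v u) :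
    P (el_x s u v) (el_d s u v) (el_y s u v) :=
  (s111 hs hP (s211 hs hP h010 h010 h101 h001 h101 h010) (s211 hs hP h101 h001 h010 h010 h010 h101) (s211 hs hP h010 h010 h101 h010 h101 h001) (s211 hs hP h001 h101 h010 h101 h010 h010) (s211 hs hP h101 h010 h010 h010 h001 h101) (s111 hs hP h101 h010 h101 h001 h010 h010))

theorem tr_xxd {s : B → B → B → B → B → B → B} {P : B → B → B → Prop} (hs : Sig s) (hP : Cl3 s P) {u v : B}
    (h101 : P v u v) (h100 : P v u u) (h001 : P u u v) (h010 : P u v u) :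
    P (el_x s u v) (el_x s u v) (el_d s u v) :=
  (s111 hs hP (s121 hs hP h001 h001 h010 h100 h010 h101) (s121 hs hP h010 h100 h001 h001 h101 h010) (s121 hs hP h001 h001 h010 h101 h010 h100) (s121 hs hP h100 h010 h101 h010 h001 h001) (s121 hs hP h010 h101 h001 h001 h100 h010) (s211 hs hP h010 h101 h010 h100 h001 h001))

theorem tr_xxy {s : B → B → B → B → B → B → B} {P : B → B → B → Prop} (hs : Sig s) (hP : Cl3 s P) {u v : B}
    (h101 : P v u v) (h100 : P v u u) (h001 : P u u v) (h010 : P u v u) :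
    P (el_x s u v) (el_x s u v) (el_y s u v) :=
  (s221 hs hP (s121 hs hP h010 h100 h001 h001 h101 h010) (s121 hs hP h001 h001 h010 h100 h010 h101) (s121 hs hP h100 h010 h101 h010 h001 h001) (s121 hs hP h001 h001 h010 h101 h010 h100) (s121 hs hP h101 h010 h100 h010 h001 h001) (s211 hs hP h101 h010 h001 h001 h010 h100))

theorem tr_xyc {s : B → B → B → B → B → B → B} {P : B → B → B → Prop} (hs : Sig s) (hP : Cl3 s P) {u v : B}
    (h101 : P v u v) (h100 : P v u u) (h001 : P u u v) (h010 : P u v u) :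
    P (el_x s u v) (el_y s u v) (el_c s u v) :=
  (s211 hs hP (s211 hs hP h101 h001 h010 h010 h010 h100) (s211 hs hP h010 h010 h101 h001 h100 h010) (s211 hs hP h001 h101 h010 h100 h010 h010) (s211 hs hP h010 h010 h100 h010 h101 h001) (s211 hs hP h010 h100 h001 h101 h010 h010) (s111 hs hP h010 h100 h010 h010 h101 h001))

theorem tr_xyd {s : B → B → B → B → B → B → B} {P : B → B → B → Prop} (hs : Sig s) (hP : Cl3 s P) {u v : B}
    (h101 : P v u v) (h100 : P v u u) (h001 : P u u v) (h010 : P u v u) :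
    P (el_x s u v) (el_y s u v) (el_d s u v) :=
  (s211 hs hP (s211 hs hP h101 h001 h010 h010 h010 h101) (s211 hs hP h010 h010 h101 h001 h101 h010) (s211 hs hP h001 h101 h010 h101 h010 h010) (s211 hs hP h010 h010 h101 h010 h101 h001) (s211 hs hP h010 h101 h001 h101 h010 h010) (s111 hs hP h010 h101 h010 h010 h101 h001))

theorem tr_ydx {s : B → B → B → B → B → B → B} {P : B → B → B → Prop} (hs : Sig s) (hP : Cl3 s P) {u v : B}
    (h101 : P v u v) (h100 : P v u u) (h001 : P u u v) (h010 : P u v u) :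
    P (el_y s u v) (el_d s u v) (el_x s u v) :=
  (s111 hs hP (s112 hs hP h010 h010 h101 h100 h101 h010) (s112 hs hP h101 h100 h010 h010 h010 h101) (s112 hs hP h010 h010 h101 h010 h101 h100) (s112 hs hP h100 h101 h010 h101 h010 h010) (s112 hs hP h101 h010 h010 h010 h100 h101) (s111 hs hP h101 h010 h101 h100 h010 h010))

theorem tr_ydy {s : B → B → B → B → B → B → B} {P : B → B → B → Prop} (hs : Sig s) (hP : Cl3 s P) {u v : B}
    (h101 : P v u v) (h100 : P v u u) (h001 : P u u v) (h010 : P u v u) :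
    P (el_y s u v) (el_d s u v) (el_y s u v) :=
  (s111 hs hP (s111 hs hP h010 h010 h101 h101 h101 h010) (s111 hs hP h101 h101 h010 h010 h010 h101) (s111 hs hP h010 h010 h101 h010 h101 h101) (s111 hs hP h101 h101 h010 h101 h010 h010) (s111 hs hP h101 h010 h010 h010 h101 h101) (s111 hs hP h101 h010 h101 h101 h010 h010))

theorem tr_yxx {s : B → B → B → B → B → B → B} {P : B → B → B → Prop} (hs : Sig s) (hP : Cl3 s P) {u v : B}
    (h101 : P v u v) (h100 : P v u u) (h001 : P u u v) (h010 : P u v u) :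
    P (el_y s u v) (el_x s u v) (el_x s u v) :=
  (s122 hs hP (s121 hs hP h010 h001 h100 h100 h101 h010) (s121 hs hP h100 h100 h010 h001 h010 h101) (s121 hs hP h001 h010 h101 h010 h100 h100) (s121 hs hP h100 h100 h010 h101 h010 h001) (s121 hs hP h101 h010 h001 h010 h100 h100) (s112 hs hP h101 h010 h100 h100 h010 h001))

/-- The loop condition `t(x,x,y,y) = t(y,y,y,x) = t(x,y,x,y)`. -/
theorem loopT {s : B → B → B → B → B → B → B} {P : B → B → B → Prop} (hs : Sig s) (hP : Cl3 s P) {u v : B}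
    (h101 : P v u v) (h100 : P v u u) (h001 : P u u v) (h010 : P u v u) : ∃ b, P b b b := by
  obtain ⟨x, y, c, d, hcxx, hdxx, hdyd, hdyx, hxcd, hxcy, hxdc, hxdy, hxxd, hxxy, hxyc, hxyd, hydx, hydy, hyxx⟩ : ∃ x y c d : B, P c x x ∧ P d x x ∧ P d y d ∧ P d y x ∧ P x c d ∧ P x c y ∧ P x d c ∧ P x d y ∧ P x x d ∧ P x x y ∧ P x y c ∧ P x y d ∧ P y d x ∧ P y d y ∧ P y x x :=
    ⟨el_x s u v, el_y s u v, el_c s u v, el_d s u v, tr_cxx hs hP h101 h100 h001 h010, tr_dxx hs hP h101 h100 h001 h010, tr_dyd hs hP h101 h100 h001 h010, tr_dyx hs hP h101 h100 h001 h010, tr_xcd hs hP h101 h100 h001 h010, tr_xcy hs hP h101 h100 h001 h010, tr_xdc hs hP h101 h100 h001 h010, tr_xdy hs hP h101 h100 h001 h010, tr_xxd hs hP h101 h100 h001 h010, tr_xxy hs hP h101 h100 h001 h010, tr_xyc hs hP h101 h100 h001 h010, tr_xyd hs hP h101 h100 h001 h010, tr_ydx hs hP h101 h100 h001 h010,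 tr_ydy hs hP h101 h100 h001 h010, tr_yxx hs hP h101 h100 h001 h010⟩
  have k12 : P (s y d y x d x) (s y d y x d x) (s d y d x y x) :=
    (s122 hs hP hydy hdyd hyxx hxyd hdxx hxdy)
  have k13 : P (s y d y x d x) (s y d y x d x) (s x x x c x c) :=
    (s121 hs hP hydx hdyx hyxx hxyc hdxx hxdc)
  have k21 : P (s d y d x y x) (s d y d x y x) (s y d y x d x) :=
    (s122 hs hP hdyd hydy hdxx hxdy hyxx hxyd)
  have k23 : P (s d y d x y x) (s d y d x y x) (s x x x c x c) :=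
    (s121 hs hP hdyx hydx hdxx hxdc hyxx hxyc)
  have k31 : P (s x x x c x c) (s x x x c x c) (s y d y x d x) :=
    (s121 hs hP hxxy hxxd hxcy hcxx hxcd hcxx)
  have k32 : P (s x x x c x c) (s x x x c x c) (s d y d x y x) :=
    (s121 hs hP hxxd hxxy hxcd hcxx hxcy hcxx)
  exact ⟨_, s112 hs hP k12 k21 k13 k31 k23 k32⟩
section Binary

variable {s : B → B → B → B → B → B → B} {t : B → B → B → B → B} {h : B → B → B → B → B → B} {R : B → B → Prop}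

/-- The identities of the 4-ary operation. -/
def IdT (t : B → B → B → B → B) : Prop := ∀ x y, t x x y y = t y y y x ∧ t x x y y = t x y x y

/-- The identity of the 5-ary operation. -/
def IdH (h : B → B → B → B → B → B) : Prop := ∀ x y z, h x x y y z = h y z x z x

theorem h11 (hh : IdH h) (hR : Cl5 h R) {x0 x1 x2 x3 x4 y0 y1 y2 y3 y4 : B}
    (p0 : R x0 y0) (p1 : R x1 y1) (p2 : R x2 y2) (p3 : R x3 y3) (p4 : R x4 y4) :
    R (h x0 x1 x2 x3 x4) (h y0 y1 y2 y3 y4) := by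
  exact hR _ _ _ _ _ _ _ _ _ _ p0 p1 p2 p3 p4

theorem h12 (hh : IdH h) (hR : Cl5 h R) {x0 x1 x2 x3 x4 ya yb yc : B}
    (p0 : R x0 yb) (p1 : R x1 yc) (p2 : R x2 ya) (p3 : R x3 yc) (p4 : R x4 ya) :
    R (h x0 x1 x2 x3 x4) (h ya ya yb yb yc) := by
  rw [hh ya yb yc]
  exact hR _ _ _ _ _ _ _ _ _ _ p0 p1 p2 p3 p4

theorem h21 (hh : IdH h) (hR : Cl5 h R) {xa xb xc y0 y1 y2 y3 y4 : B}
    (p0 : R xb y0) (p1 : R xc y1) (p2 : R xa y2) (p3 : R xc y3) (p4 : R xa y4) :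
    R (h xa xa xb xb xc) (h y0 y1 y2 y3 y4) := by
  rw [hh xa xb xc]
  exact hR _ _ _ _ _ _ _ _ _ _ p0 p1 p2 p3 p4

theorem s11 (hs : Sig s) (hR : Cl6 s R) {x0 x1 x2 x3 x4 x5 y0 y1 y2 y3 y4 y5 : B}
    (p0 : R x0 y0) (p1 : R x1 y1) (p2 : R x2 y2) (p3 : R x3 y3) (p4 : R x4 y4) (p5 : R x5 y5) :
    R (s x0 x1 x2 x3 x4 x5) (s y0 y1 y2 y3 y4 y5) := by
  exact hR _ _ _ _ _ _ _ _ _ _ _ _ p0 p1 p2 p3 p4 p5

theorem s12 (hs : Sig s) (hR : Cl6 s R) {x0 x1 x2 x3 x4 x5 ya yb yc : B}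
    (p0 : R x0 yb) (p1 : R x1 ya) (p2 : R x2 yc) (p3 : R x3 ya) (p4 : R x4 yc) (p5 : R x5 yb) :
    R (s x0 x1 x2 x3 x4 x5) (s ya yb ya yc yb yc) := by
  rw [hs ya yb yc]
  exact hR _ _ _ _ _ _ _ _ _ _ _ _ p0 p1 p2 p3 p4 p5

theorem s21 (hs : Sig s) (hR : Cl6 s R) {xa xb xc y0 y1 y2 y3 y4 y5 : B}
    (p0 : R xb y0) (p1 : R xa y1) (p2 : R xc y2) (p3 : R xa y3) (p4 : R xc y4) (p5 : R xb y5) :
    R (s xa xb xa xc xb xc) (s y0 y1 y2 y3 y4 y5) := by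
  rw [hs xa xb xc]
  exact hR _ _ _ _ _ _ _ _ _ _ _ _ p0 p1 p2 p3 p4 p5

theorem t11 (ht : IdT t) (hR : Cl4 t R) {x0 x1 x2 x3 y0 y1 y2 y3 : B}
    (p0 : R x0 y0) (p1 : R x1 y1) (p2 : R x2 y2) (p3 : R x3 y3) :
    R (t x0 x1 x2 x3) (t y0 y1 y2 y3) := by
  exact hR _ _ _ _ _ _ _ _ p0 p1 p2 p3

theorem t12 (ht : IdT t) (hR : Cl4 t R) {x0 x1 x2 x3 ya yb : B}
    (p0 : R x0 yb) (p1 : R x1 yb) (p2 : R x2 yb) (p3 : R x3 ya) :
    R (t x0 x1 x2 x3) (t ya ya yb yb) := by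
  rw [(ht ya yb).1]
  exact hR _ _ _ _ _ _ _ _ p0 p1 p2 p3

theorem t13 (ht : IdT t) (hR : Cl4 t R) {x0 x1 x2 x3 ya yb : B}
    (p0 : R x0 ya) (p1 : R x1 yb) (p2 : R x2 ya) (p3 : R x3 yb) :
    R (t x0 x1 x2 x3) (t ya ya yb yb) := by
  rw [(ht ya yb).2]
  exact hR _ _ _ _ _ _ _ _ p0 p1 p2 p3

theorem t21 (ht : IdT t) (hR : Cl4 t R) {xa xb y0 y1 y2 y3 : B}
    (p0 : R xb y0) (p1 : R xb y1) (p2 : R xb y2) (p3 : R xa y3) :
    R (t xa xa xb xb) (t y0 y1 y2 y3) := by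
  rw [(ht xa xb).1]
  exact hR _ _ _ _ _ _ _ _ p0 p1 p2 p3

theorem t31 (ht : IdT t) (hR : Cl4 t R) {xa xb y0 y1 y2 y3 : B}
    (p0 : R xa y0) (p1 : R xb y1) (p2 : R xa y2) (p3 : R xb y3) :
    R (t xa xa xb xb) (t y0 y1 y2 y3) := by
  rw [(ht xa xb).2]
  exact hR _ _ _ _ _ _ _ _ p0 p1 p2 p3

end Binary

/-- from a copy of the digraph `h5` to a copy of the digraph `k3` -/
theorem step_h5 {t : B → B → B → B → B} {R : B → B → Prop} (ht : IdT t) (hRt : Cl4 t R) {b0 b1 b2 : B}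
    (e01 : R b0 b1) (e02 : R b0 b2) (e10 : R b1 b0) (e12 : R b1 b2) (e20 : R b2 b0) :
    ∃ c0 c1 c2 : B, R c0 c1 ∧ R c1 c0 ∧ R c0 c2 ∧ R c2 c0 ∧ R c1 c2 ∧ R c2 c1 :=
  ⟨(t (t b0 b2 b0 b2) (t b0 b2 b0 b2) (t b0 b0 b0 b2) (t b0 b0 b0 b2)),
    (t (t b0 b0 b2 b2) (t b0 b0 b1 b1) (t b0 b0 b2 b2) (t b1 b1 b0 b0)),
    (t (t b1 b0 b1 b0) (t b1 b0 b1 b0) (t b2 b2 b1 b0) (t b2 b2 b1 b0)),
    (t21 ht hRt (t12 ht hRt e02 e02 e02 e20) (t12 ht hRt e01 e01 e01 e20) (t12 ht hRt e02 e02 e02 e20) (t13 ht hRt e01 e20 e01 e20)),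
    (t12 ht hRt (t21 ht hRt e20 e20 e20 e02) (t21 ht hRt e10 e10 e10 e02) (t21 ht hRt e20 e20 e20 e02) (t31 ht hRt e10 e02 e10 e02)),
    (t11 ht hRt (t11 ht hRt e01 e20 e01 e20) (t11 ht hRt e01 e20 e01 e20) (t11 ht hRt e02 e02 e01 e20) (t11 ht hRt e02 e02 e01 e20)),
    (t11 ht hRt (t11 ht hRt e10 e02 e10 e02) (t11 ht hRt e10 e02 e10 e02) (t11 ht hRt e20 e20 e10 e02) (t11 ht hRt e20 e20 e10 e02)),
    (t13 ht hRt (t31 ht hRt e01 e20 e01 e20) (t31 ht hRt e02 e12 e01 e10) (t31 ht hRt e01 e20 e01 e20) (t21 ht hRt e02 e02 e01 e10)),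
    (t11 ht hRt (t13 ht hRt e10 e02 e10 e02) (t13 ht hRt e10 e01 e10 e01) (t11 ht hRt e20 e20 e12 e02) (t12 ht hRt e20 e20 e10 e01))⟩

/-- from a copy of the digraph `p2` to a copy of the digraph `h5` -/
theorem step_p2 {s : B → B → B → B → B → B → B} {R : B → B → Prop} (hs : Sig s) (hRs : Cl6 s R) {b0 b1 b2 b3 : B}
    (e01 : R b0 b1) (e02 : R b0 b2) (e03 : R b0 b3) (e12 : R b1 b2) (e13 : R b1 b3) (e21 : R b2 b1) (e23 : R b2 b3) (e30 : R b3 b0) :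
    ∃ c0 c1 c2 : B, R c0 c1 ∧ R c0 c2 ∧ R c1 c0 ∧ R c1 c2 ∧ R c2 c0 :=
  ⟨(s (s b3 b0 b1 b2 b0 b3) (s b3 b0 b3 b0 b1 b2) (s b3 b0 b1 b2 b0 b3) (s b2 b1 b3 b0 b3 b0) (s b3 b0 b3 b0 b1 b2) (s b2 b1 b3 b0 b3 b0)),
    (s (s b0 b3 b2 b1 b3 b0) (s b0 b3 b0 b3 b2 b1) (s b0 b3 b2 b1 b3 b0) (s b1 b2 b0 b3 b0 b3) (s b0 b3 b0 b3 b2 b1) (s b1 b2 b0 b3 b0 b3)),
    (s (s b3 b0 b3 b2 b0 b2) (s b0 b3 b0 b1 b3 b1) (s b1 b0 b1 b3 b0 b3) (s b2 b3 b2 b0 b3 b0) (s b0 b2 b0 b3 b2 b3) (s b3 b1 b3 b0 b1 b0)),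
    (s11 hs hRs (s11 hs hRs e30 e03 e12 e21 e03 e30) (s11 hs hRs e30 e03 e30 e03 e12 e21) (s11 hs hRs e30 e03 e12 e21 e03 e30) (s11 hs hRs e21 e12 e30 e03 e30 e03) (s11 hs hRs e30 e03 e30 e03 e12 e21) (s11 hs hRs e21 e12 e30 e03 e30 e03)),
    (s11 hs hRs (s12 hs hRs e30 e03 e12 e23 e02 e30) (s11 hs hRs e30 e03 e30 e01 e13 e21) (s12 hs hRs e30 e01 e13 e21 e03 e30) (s12 hs hRs e23 e12 e30 e02 e30 e03) (s11 hs hRs e30 e02 e30 e03 e12 e23) (s12 hs hRs e21 e13 e30 e03 e30 e01)),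
    (s11 hs hRs (s11 hs hRs e03 e30 e21 e12 e30 e03) (s11 hs hRs e03 e30 e03 e30 e21 e12) (s11 hs hRs e03 e30 e21 e12 e30 e03) (s11 hs hRs e12 e21 e03 e30 e03 e30) (s11 hs hRs e03 e30 e03 e30 e21 e12) (s11 hs hRs e12 e21 e03 e30 e03 e30)),
    (s11 hs hRs (s11 hs hRs e03 e30 e23 e12 e30 e02) (s12 hs hRs e03 e30 e01 e30 e21 e13) (s11 hs hRs e01 e30 e21 e13 e30 e03) (s11 hs hRs e12 e23 e02 e30 e03 e30) (s12 hs hRs e02 e30 e03 e30 e23 e12) (s11 hs hRs e13 e21 e03 e30 e01 e30)),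
    (s12 hs hRs (s21 hs hRs e03 e30 e23 e30 e21 e02) (s11 hs hRs e03 e30 e01 e12 e30 e13) (s11 hs hRs e12 e01 e13 e30 e03 e30) (s11 hs hRs e23 e30 e21 e02 e30 e03) (s11 hs hRs e02 e21 e03 e30 e23 e30) (s21 hs hRs e13 e30 e03 e30 e01 e12))⟩

/-- from a copy of the digraph `p14` to a copy of the digraph `p2` -/
theorem step_p14 {t : B → B → B → B → B} {h : B → B → B → B → B → B} {R : B → B → Prop} (ht : IdT t) (hRt : Cl4 t R) (hh : IdH h) (hRh : Cl5 h R) {b0 b1 b2 b3 : B}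
    (e01 : R b0 b1) (e02 : R b0 b2) (e10 : R b1 b0) (e13 : R b1 b3) (e21 : R b2 b1) (e30 : R b3 b0) :
    ∃ c0 c1 c2 c3 : B, R c0 c1 ∧ R c0 c2 ∧ R c0 c3 ∧ R c1 c2 ∧ R c1 c3 ∧ R c2 c1 ∧ R c2 c3 ∧ R c3 c0 :=
  ⟨(h (t b0 b0 b1 b1) (t b0 b0 b1 b1) (t b1 b0 b1 b0) (t b1 b1 b0 b0) (t b1 b1 b0 b0)),
    (h (t b1 b0 b1 b0) (t b1 b3 b2 b0) (t b0 b0 b1 b1) (t b1 b1 b2 b0) (t b0 b2 b3 b1)),
    (h (t b2 b1 b0 b3) (t b2 b1 b0 b3) (t b0 b2 b0 b1) (t b0 b2 b0 b1) (t b3 b0 b1 b2)),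
    (h (t b1 b1 b0 b0) (t b1 b1 b0 b0) (t b0 b0 b1 b1) (t b0 b0 b1 b1) (t b0 b0 b1 b1)),
    (h11 hh hRh (t31 ht hRt e01 e10 e01 e10) (t31 ht hRt e01 e13 e02 e10) (t13 ht hRt e10 e01 e10 e01) (t21 ht hRt e01 e01 e02 e10) (t31 ht hRt e10 e02 e13 e01)),
    (h11 hh hRh (t11 ht hRt e02 e01 e10 e13) (t11 ht hRt e02 e01 e10 e13) (t11 ht hRt e10 e02 e10 e01) (t31 ht hRt e10 e02 e10 e01) (t11 ht hRt e13 e10 e01 e02)),
    (h11 hh hRh (t11 ht hRt e01 e01 e10 e10) (t11 ht hRt e01 e01 e10 e10) (t13 ht hRt e10 e01 e10 e01) (t11 ht hRt e10 e10 e01 e01) (t11 ht hRt e10 e10 e01 e01)),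
    (h12 hh hRh (t11 ht hRt e10 e02 e10 e01) (t11 ht hRt e13 e30 e21 e02) (t11 ht hRt e02 e01 e10 e13) (t11 ht hRt e13 e10 e21 e02) (t11 ht hRt e02 e21 e30 e13)),
    (h12 hh hRh (t13 ht hRt e10 e01 e10 e01) (t11 ht hRt e10 e30 e21 e01) (t11 ht hRt e01 e01 e10 e10) (t11 ht hRt e10 e10 e21 e01) (t11 ht hRt e01 e21 e30 e10)),
    (h11 hh hRh (t11 ht hRt e21 e10 e01 e30) (t11 ht hRt e21 e13 e02 e30) (t12 ht hRt e01 e21 e01 e10) (t11 ht hRt e01 e21 e02 e10) (t11 ht hRt e30 e02 e13 e21)),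
    (h11 hh hRh (t13 ht hRt e21 e10 e01 e30) (t13 ht hRt e21 e10 e01 e30) (t12 ht hRt e01 e21 e01 e10) (t12 ht hRt e01 e21 e01 e10) (t13 ht hRt e30 e01 e10 e21)),
    (h11 hh hRh (t11 ht hRt e10 e10 e01 e01) (t11 ht hRt e10 e10 e01 e01) (t31 ht hRt e01 e10 e01 e10) (t11 ht hRt e01 e01 e10 e10) (t11 ht hRt e01 e01 e10 e10))⟩

/-- from a copy of the digraph `p15` to a copy of the digraph `p14` -/
theorem step_p15 {t : B → B → B → B → B} {h : B → B → B → B → B → B} {R : B → B → Prop} (ht : IdT t) (hRt : Cl4 t R) (hh : IdH h) (hRh : Cl5 h R) {b0 b1 b2 b3 : B}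
    (e02 : R b0 b2) (e10 : R b1 b0) (e13 : R b1 b3) (e20 : R b2 b0) (e21 : R b2 b1) (e30 : R b3 b0) :
    ∃ c0 c1 c2 c3 : B, R c0 c1 ∧ R c0 c2 ∧ R c1 c0 ∧ R c1 c3 ∧ R c2 c1 ∧ R c3 c0 :=
  ⟨(h (t b0 b0 b2 b2) (t b2 b2 b1 b0) (t b0 b0 b2 b1) (t b2 b1 b2 b0) (t b3 b0 b2 b0)),
    (h (t b1 b1 b0 b2) (t b1 b1 b0 b2) (t b2 b2 b0 b0) (t b2 b2 b0 b0) (t b0 b0 b2 b2)),
    (h (t b0 b0 b1 b2) (t b0 b0 b0 b2) (t b2 b2 b1 b0) (t b0 b0 b0 b2) (t b0 b0 b2 b2)),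
    (h (t b3 b0 b2 b0) (t b0 b0 b2 b1) (t b1 b2 b0 b2) (t b0 b0 b2 b2) (t b1 b1 b0 b2)),
    (h11 hh hRh (t21 ht hRt e21 e21 e20 e02) (t11 ht hRt e21 e21 e10 e02) (t11 ht hRt e02 e02 e20 e10) (t12 ht hRt e20 e10 e20 e02) (t13 ht hRt e30 e02 e20 e02)),
    (h11 hh hRh (t21 ht hRt e20 e20 e21 e02) (t11 ht hRt e20 e20 e10 e02) (t11 ht hRt e02 e02 e21 e10) (t11 ht hRt e20 e10 e20 e02) (t13 ht hRt e30 e02 e20 e02)),
    (h21 hh hRh (t11 ht hRt e20 e20 e02 e02) (t11 ht hRt e02 e02 e21 e20) (t11 ht hRt e10 e10 e02 e21) (t31 ht hRt e02 e21 e02 e20) (t11 ht hRt e13 e10 e02 e20)),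
    (h11 hh hRh (t11 ht hRt e13 e10 e02 e20) (t11 ht hRt e10 e10 e02 e21) (t31 ht hRt e21 e02 e20 e02) (t11 ht hRt e20 e20 e02 e02) (t21 ht hRt e21 e21 e20 e02)),
    (h12 hh hRh (t11 ht hRt e02 e02 e10 e20) (t12 ht hRt e02 e02 e02 e20) (t11 ht hRt e21 e21 e10 e02) (t12 ht hRt e02 e02 e02 e20) (t21 ht hRt e21 e21 e20 e02)),
    (h11 hh hRh (t13 ht hRt e30 e02 e20 e02) (t11 ht hRt e02 e02 e21 e10) (t11 ht hRt e10 e20 e02 e21) (t31 ht hRt e02 e21 e02 e20) (t11 ht hRt e13 e10 e02 e20))⟩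

/-- from a copy of the digraph `g4` to a copy of the digraph `p15` -/
theorem step_g4 {t : B → B → B → B → B} {R : B → B → Prop} (ht : IdT t) (hRt : Cl4 t R) {b0 b1 b2 : B}
    (e01 : R b0 b1) (e10 : R b1 b0) (e02 : R b0 b2) (e21 : R b2 b1) :
    ∃ c0 c1 c2 c3 : B, R c0 c2 ∧ R c1 c0 ∧ R c1 c3 ∧ R c2 c0 ∧ R c2 c1 ∧ R c3 c0 :=
  ⟨(t b0 b0 b1 b1),
    (t b0 b2 b0 b1),
    (t b1 b0 b1 b0),
    (t b1 b1 b2 b0),
    (t31 ht hRt e01 e10 e01 e10),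
    (t12 ht hRt e01 e21 e01 e10),
    (t11 ht hRt e01 e21 e02 e10),
    (t13 ht hRt e10 e01 e10 e01),
    (t11 ht hRt e10 e02 e10 e01),
    (t11 ht hRt e10 e10 e21 e01)⟩

section Gen

variable (s : B → B → B → B → B → B → B)

/-- The 4-ary operations generated by `s`. -/
inductive Gen4 : (B → B → B → B → B) → Prop
  | p0 : Gen4 (fun a _ _ _ => a)
  | p1 : Gen4 (fun _ a _ _ => a)
  | p2 : Gen4 (fun _ _ a _ => a)
  | p3 : Gen4 (fun _ _ _ a => a)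
  | comp {t0 t1 t2 t3 t4 t5 : B → B → B → B → B} : Gen4 t0 → Gen4 t1 → Gen4 t2 → Gen4 t3 →
      Gen4 t4 → Gen4 t5 → Gen4 (fun a b c d => s (t0 a b c d) (t1 a b c d) (t2 a b c d)
        (t3 a b c d) (t4 a b c d) (t5 a b c d))

/-- The 5-ary operations generated by `s`. -/
inductive Gen5 : (B → B → B → B → B → B) → Prop
  | p0 : Gen5 (fun a _ _ _ _ => a)
  | p1 : Gen5 (fun _ a _ _ _ => a)
  | p2 : Gen5 (fun _ _ a _ _ => a)
  | p3 : Gen5 (fun _ _ _ a _ => a)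
  | p4 : Gen5 (fun _ _ _ _ a => a)
  | comp {t0 t1 t2 t3 t4 t5 : B → B → B → B → B → B} : Gen5 t0 → Gen5 t1 → Gen5 t2 → Gen5 t3 →
      Gen5 t4 → Gen5 t5 → Gen5 (fun a b c d e => s (t0 a b c d e) (t1 a b c d e) (t2 a b c d e)
        (t3 a b c d e) (t4 a b c d e) (t5 a b c d e))

variable {s}

theorem Gen4.cl {R : B → B → Prop} (hR : Cl6 s R) {t : B → B → B → B → B} (ht : Gen4 s t) :
    Cl4 t R := by
  induction ht with
  | p0 => intro _ _ _ _ _ _ _ _ h _ _ _; exact h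
  | p1 => intro _ _ _ _ _ _ _ _ _ h _ _; exact h
  | p2 => intro _ _ _ _ _ _ _ _ _ _ h _; exact h
  | p3 => intro _ _ _ _ _ _ _ _ _ _ _ h; exact h
  | comp _ _ _ _ _ _ i0 i1 i2 i3 i4 i5 =>
    intro x0 x1 x2 x3 y0 y1 y2 y3 a0 a1 a2 a3
    exact hR _ _ _ _ _ _ _ _ _ _ _ _
      (i0 _ _ _ _ _ _ _ _ a0 a1 a2 a3) (i1 _ _ _ _ _ _ _ _ a0 a1 a2 a3)
      (i2 _ _ _ _ _ _ _ _ a0 a1 a2 a3) (i3 _ _ _ _ _ _ _ _ a0 a1 a2 a3)
      (i4 _ _ _ _ _ _ _ _ a0 a1 a2 a3) (i5 _ _ _ _ _ _ _ _ a0 a1 a2 a3)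

theorem Gen5.cl {R : B → B → Prop} (hR : Cl6 s R) {h : B → B → B → B → B → B} (hh : Gen5 s h) :
    Cl5 h R := by
  induction hh with
  | p0 => intro _ _ _ _ _ _ _ _ _ _ h _ _ _ _; exact h
  | p1 => intro _ _ _ _ _ _ _ _ _ _ _ h _ _ _; exact h
  | p2 => intro _ _ _ _ _ _ _ _ _ _ _ _ h _ _; exact h
  | p3 => intro _ _ _ _ _ _ _ _ _ _ _ _ _ h _; exact h
  | p4 => intro _ _ _ _ _ _ _ _ _ _ _ _ _ _ h; exact h
  | comp _ _ _ _ _ _ i0 i1 i2 i3 i4 i5 =>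
    intro x0 x1 x2 x3 x4 y0 y1 y2 y3 y4 a0 a1 a2 a3 a4
    exact hR _ _ _ _ _ _ _ _ _ _ _ _
      (i0 _ _ _ _ _ _ _ _ _ _ a0 a1 a2 a3 a4) (i1 _ _ _ _ _ _ _ _ _ _ a0 a1 a2 a3 a4)
      (i2 _ _ _ _ _ _ _ _ _ _ a0 a1 a2 a3 a4) (i3 _ _ _ _ _ _ _ _ _ _ a0 a1 a2 a3 a4)
      (i4 _ _ _ _ _ _ _ _ _ _ a0 a1 a2 a3 a4) (i5 _ _ _ _ _ _ _ _ _ _ a0 a1 a2 a3 a4)

/-- A 6-ary Siggers operation generates a 4-ary operation with
`t(x,x,y,y) = t(y,y,y,x) = t(x,y,x,y)`. -/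
theorem exists_t (hs : Sig s) : ∃ t, Gen4 s t ∧ IdT t := by
  have hs' : Sig (B := B → B → B) (fun f0 f1 f2 f3 f4 f5 u v =>
      s (f0 u v) (f1 u v) (f2 u v) (f3 u v) (f4 u v) (f5 u v)) := by
    intro x y z
    funext u v
    exact hs _ _ _
  have hP' : Cl3 (B := B → B → B) (fun f0 f1 f2 f3 f4 f5 u v =>
      s (f0 u v) (f1 u v) (f2 u v) (f3 u v) (f4 u v) (f5 u v))
      (fun f g h => ∃ t, Gen4 s t ∧ f = (fun u v => t v v u u) ∧ g = (fun u v => t u u u v) ∧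
        h = (fun u v => t v u v u)) := by
    rintro x0 x1 x2 x3 x4 x5 y0 y1 y2 y3 y4 y5 z0 z1 z2 z3 z4 z5
      ⟨t0, h0, rfl, rfl, rfl⟩ ⟨t1, h1, rfl, rfl, rfl⟩ ⟨t2, h2, rfl, rfl, rfl⟩
      ⟨t3, h3, rfl, rfl, rfl⟩ ⟨t4, h4, rfl, rfl, rfl⟩ ⟨t5, h5, rfl, rfl, rfl⟩
    exact ⟨_, Gen4.comp h0 h1 h2 h3 h4 h5, rfl, rfl, rfl⟩
  obtain ⟨b, t, ht, h1, h2, h3⟩ := loopT hs' hP' (u := fun u _ => u) (v := fun _ v => v)
    ⟨_, Gen4.p0, rfl, rfl, rfl⟩ ⟨_, Gen4.p1, rfl, rfl, rfl⟩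
    ⟨_, Gen4.p2, rfl, rfl, rfl⟩ ⟨_, Gen4.p3, rfl, rfl, rfl⟩
  refine ⟨t, ht, fun x y => ?_⟩
  have e1 := congrFun (congrFun h1 y) x
  have e2 := congrFun (congrFun h2 y) x
  have e3 := congrFun (congrFun h3 y) x
  exact ⟨e1.symm.trans e2, e1.symm.trans e3⟩

/-- The loop condition of the triangle. -/
theorem loopK3 {R : B → B → Prop} (hs : Sig s) (hR : Cl6 s R) {b0 b1 b2 : B}
    (e01 : R b0 b1) (e02 : R b0 b2) (e10 : R b1 b0) (e12 : R b1 b2) (e20 : R b2 b0)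
    (e21 : R b2 b1) : ∃ b, R b b :=
  ⟨_, s12 hs hR e01 e10 e02 e20 e12 e21⟩

/-- The loop condition of the triangle minus one edge. -/
theorem loopH5 {R : B → B → Prop} (hs : Sig s) (hR : Cl6 s R) {b0 b1 b2 : B}
    (e01 : R b0 b1) (e02 : R b0 b2) (e10 : R b1 b0) (e12 : R b1 b2) (e20 : R b2 b0) :
    ∃ b, R b b := by
  obtain ⟨t, ht, hi⟩ := exists_t hs
  obtain ⟨c0, c1, c2, f01, f10, f02, f20, f12, f21⟩ :=
    step_h5 hi (ht.cl hR) e01 e02 e10 e12 e20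
  exact loopK3 hs hR f01 f02 f10 f12 f20 f21

/-- A 6-ary Siggers operation generates a 5-ary operation with `h(x,x,y,y,z) = h(y,z,x,z,x)`. -/
theorem exists_h (hs : Sig s) : ∃ h, Gen5 s h ∧ IdH h := by
  have hs' : Sig (B := B → B → B → B) (fun f0 f1 f2 f3 f4 f5 u v w =>
      s (f0 u v w) (f1 u v w) (f2 u v w) (f3 u v w) (f4 u v w) (f5 u v w)) := by
    intro x y z
    funext u v w
    exact hs _ _ _
  have hP' : Cl6 (B := B → B → B → B) (fun f0 f1 f2 f3 f4 f5 u v w =>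
      s (f0 u v w) (f1 u v w) (f2 u v w) (f3 u v w) (f4 u v w) (f5 u v w))
      (fun f g => ∃ h, Gen5 s h ∧ f = (fun x y z => h x x y y z) ∧
        g = (fun x y z => h y z x z x)) := by
    rintro x0 x1 x2 x3 x4 x5 y0 y1 y2 y3 y4 y5
      ⟨t0, h0, rfl, rfl⟩ ⟨t1, h1, rfl, rfl⟩ ⟨t2, h2, rfl, rfl⟩
      ⟨t3, h3, rfl, rfl⟩ ⟨t4, h4, rfl, rfl⟩ ⟨t5, h5, rfl, rfl⟩
    exact ⟨_, Gen5.comp h0 h1 h2 h3 h4 h5, rfl, rfl⟩
  obtain ⟨b, h, hh, h1, h2⟩ := loopH5 hs' hP' (b0 := fun x _ _ => x) (b1 := fun _ y _ => y)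
    (b2 := fun _ _ z => z)
    ⟨_, Gen5.p0, rfl, rfl⟩ ⟨_, Gen5.p1, rfl, rfl⟩ ⟨_, Gen5.p2, rfl, rfl⟩
    ⟨_, Gen5.p3, rfl, rfl⟩ ⟨_, Gen5.p4, rfl, rfl⟩
  refine ⟨h, hh, fun x y z => ?_⟩
  have e1 := congrFun (congrFun (congrFun h1 x) y) z
  have e2 := congrFun (congrFun (congrFun h2 x) y) z
  exact e1.symm.trans e2

theorem loopP2 {R : B → B → Prop} (hs : Sig s) (hR : Cl6 s R) {b0 b1 b2 b3 : B}
    (e01 : R b0 b1) (e02 : R b0 b2) (e03 : R b0 b3) (e12 : R b1 b2) (e13 : R b1 b3)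
    (e21 : R b2 b1) (e23 : R b2 b3) (e30 : R b3 b0) : ∃ b, R b b := by
  obtain ⟨c0, c1, c2, f01, f02, f10, f12, f20⟩ :=
    step_p2 hs hR e01 e02 e03 e12 e13 e21 e23 e30
  exact loopH5 hs hR f01 f02 f10 f12 f20

theorem loopP14 {R : B → B → Prop} (hs : Sig s) (hR : Cl6 s R) {b0 b1 b2 b3 : B}
    (e01 : R b0 b1) (e02 : R b0 b2) (e10 : R b1 b0) (e13 : R b1 b3) (e21 : R b2 b1)
    (e30 : R b3 b0) : ∃ b, R b b := by
  obtain ⟨t, ht, hi⟩ := exists_t hs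
  obtain ⟨h, hh, hj⟩ := exists_h hs
  obtain ⟨c0, c1, c2, c3, f01, f02, f03, f12, f13, f21, f23, f30⟩ :=
    step_p14 hi (ht.cl hR) hj (hh.cl hR) e01 e02 e10 e13 e21 e30
  exact loopP2 hs hR f01 f02 f03 f12 f13 f21 f23 f30

theorem loopP15 {R : B → B → Prop} (hs : Sig s) (hR : Cl6 s R) {b0 b1 b2 b3 : B}
    (e02 : R b0 b2) (e10 : R b1 b0) (e13 : R b1 b3) (e20 : R b2 b0) (e21 : R b2 b1)
    (e30 : R b3 b0) : ∃ b, R b b := by
  obtain ⟨t, ht, hi⟩ := exists_t hs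
  obtain ⟨h, hh, hj⟩ := exists_h hs
  obtain ⟨c0, c1, c2, c3, f01, f02, f10, f13, f21, f30⟩ :=
    step_p15 hi (ht.cl hR) hj (hh.cl hR) e02 e10 e13 e20 e21 e30
  exact loopP14 hs hR f01 f02 f10 f13 f21 f30

/-- The loop condition of the digraph `r ↔ a`, `r → e → a`. -/
theorem loopG4 {R : B → B → Prop} (hs : Sig s) (hR : Cl6 s R) {r a e : B}
    (e01 : R r a) (e10 : R a r) (e02 : R r e) (e21 : R e a) : ∃ b, R b b := by
  obtain ⟨t, ht, hi⟩ := exists_t hs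
  obtain ⟨c0, c1, c2, c3, f02, f10, f13, f20, f21, f30⟩ :=
    step_g4 hi (ht.cl hR) e01 e10 e02 e21
  exact loopP15 hs hR f02 f10 f13 f20 f21 f30

end Gen

end Pool.Agent.Q15Sig
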