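import Mathlib

/-! Lattice embeddings `Sub(A) → Sub_D(V)` and sections `(ℤ/m)^3` of `A`. -/

namespace Q15SubEmb

open Submodule

variable {A : Type*} [AddCommGroup A] {D : Type*} [DivisionRing D] {V : Type*}
  [AddCommGroup V] [Module D V]

/-- The core: lattice data in `Sub_D(V)`. -/
lemma step (P E1 E2 E3 E13 E23 P' : Submodule D V) (v1 v2 v3 : V) (r : V)
    (hP : v1 - r ∈ P) (hr : r ∈ E2) (h1 : v1 ∈ E1) (h2 : v2 ∈ E2) (h3 : v3 ∈ E3)
    (h13 : v1 + v3 ∈ E13) (h23 : v2 + v3 ∈ E23)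
    (hP' : ((((P ⊔ E3) ⊓ (E2 ⊔ E13)) ⊔ E23) ⊓ (E1 ⊔ E2)) ≤ P') :
    v1 - (r + v2) ∈ P' := by
  apply hP'
  refine ⟨?_, ?_⟩
  · have hq : v1 - r + v3 ∈ (P ⊔ E3) ⊓ (E2 ⊔ E13) := by
      refine ⟨?_, ?_⟩
      · exact add_mem (mem_sup_left hP) (mem_sup_right h3)
      · have : v1 - r + v3 = -r + (v1 + v3) := by abel
        rw [this]
        exact add_mem (mem_sup_left (neg_mem hr)) (mem_sup_right h13)
    have : v1 - (r + v2) = (v1 - r + v3) + -(v2 + v3) := by abel
    rw [this]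
    exact add_mem (mem_sup_left hq) (mem_sup_right (neg_mem h23))
  · have : v1 - (r + v2) = v1 + -(r + v2) := by abel
    rw [this]
    exact add_mem (mem_sup_left h1) (mem_sup_right (neg_mem (add_mem hr h2)))

/-- The abstract statement: a sublattice datum with a sequence `P n`. -/
theorem core (f : LatticeHom (AddSubgroup A) (Submodule D V)) (hf : Function.Injective f)
    (B E1 E2 E3 E13 E23 : AddSubgroup A) (P : ℕ → AddSubgroup A) (m : ℕ)
    (hB1 : B ≤ E1) (hne : ¬ E1 ≤ B)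
    (hB2 : B ≤ E23) (hB3 : B ≤ E13)
    (h12 : E1 ⊓ E2 ≤ B) (h313 : E1 ⊓ E13 ≤ B) (h323 : E3 ⊓ E23 ≤ B)
    (hE1 : E1 ≤ E13 ⊔ E3) (hE3 : E3 ≤ E23 ⊔ E2)
    (hP0 : P 0 = E1) (hP : ∀ n, ((((P n ⊔ E3) ⊓ (E2 ⊔ E13)) ⊔ E23) ⊓ (E1 ⊔ E2)) ≤ P (n + 1))
    (hm : m ≠ 0) (hPm : P m ≤ E1) :
    ∃ p : ℕ, p.Prime ∧ CharP D p ∧ p ∣ m ∧ E1 ≤ P p := by
  have mono : ∀ {X Y : AddSubgroup A}, X ≤ Y → f X ≤ f Y := fun h => OrderHomClass.mono f h
  have refl : ∀ {X Y : AddSubgroup A}, f X ≤ f Y → X ≤ Y := by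
    intro X Y h
    have : f (X ⊓ Y) = f X := by rw [InfHomClass.map_inf, inf_eq_left.mpr h]
    exact inf_eq_left.mp (hf this)
  -- for every `v1 ∈ f E1` choose `v3`, `v2`
  have choose1 : ∀ v1 ∈ f E1, ∃ v3 ∈ f E3, ∃ v2 ∈ f E2, v1 + v3 ∈ f E13 ∧ v2 + v3 ∈ f E23 := by
    intro v1 hv1
    have h := mono hE1 hv1
    rw [SupHomClass.map_sup, Submodule.mem_sup] at h
    obtain ⟨w, hw, u, hu, e⟩ := h
    have h' := mono hE3 (neg_mem hu)
    rw [SupHomClass.map_sup, Submodule.mem_sup] at h'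
    obtain ⟨w', hw', u', hu', e'⟩ := h'
    refine ⟨-u, neg_mem hu, -u', neg_mem hu', ?_, ?_⟩
    · rw [← e]; simpa using hw
    · rw [← e']; simpa using hw'
  have main : ∀ v1 ∈ f E1, ∀ v3 ∈ f E3, ∀ v2 ∈ f E2, v1 + v3 ∈ f E13 → v2 + v3 ∈ f E23 →
      ∀ n : ℕ, v1 - (n : D) • v2 ∈ f (P n) := by
    intro v1 h1 v3 h3 v2 h2 h13 h23 n
    induction n with
    | zero => simpa [hP0] using h1
    | succ n ih =>
      have := step (f (P n)) (f E1) (f E2) (f E3) (f E13) (f E23) (f (P (n + 1))) v1 v2 v3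
        ((n : D) • v2) ih (smul_mem _ _ h2) h1 h2 h3 h13 h23 (by
          have := mono (hP n)
          simpa only [SupHomClass.map_sup, InfHomClass.map_inf] using this)
      rw [Nat.cast_succ, add_smul, one_smul]
      exact this
  -- nonzero element
  have hne' : ¬ f E1 ≤ f B := fun h => hne (refl h)
  obtain ⟨v1, hv1, hv1B⟩ := SetLike.not_le_iff_exists.mp hne'
  obtain ⟨v3, h3, v2, h2, h13, h23⟩ := choose1 v1 hv1
  have hv2 : v2 ∉ f B := by
    intro hv2
    have a1 : v3 ∈ f E23 := by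
      have : v3 = (v2 + v3) - v2 := by abel
      rw [this]
      exact sub_mem h23 (mono hB2 hv2)
    have a2 : v3 ∈ f B := by
      apply mono h323
      rw [InfHomClass.map_inf]
      exact ⟨h3, a1⟩
    have a3 : v1 ∈ f E13 := by
      have : v1 = (v1 + v3) - v3 := by abel
      rw [this]
      exact sub_mem h13 (mono hB3 a2)
    apply hv1B
    apply mono h313
    rw [InfHomClass.map_inf]
    exact ⟨hv1, a3⟩
  have hmD : (m : D) = 0 := by
    by_contra hmD
    have a1 := mono hPm (main v1 hv1 v3 h3 v2 h2 h13 h23 m)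
    have a2 : (m : D) • v2 ∈ f E1 := by
      have : (m : D) • v2 = v1 - (v1 - (m : D) • v2) := by abel
      rw [this]
      exact sub_mem hv1 a1
    have a3 : (m : D) • v2 ∈ f B := by
      apply mono h12
      rw [InfHomClass.map_inf]
      exact ⟨a2, smul_mem _ _ h2⟩
    exact hv2 ((smul_mem_iff _ hmD).mp a3)
  obtain ⟨p, hp⟩ := CharP.exists D
  have hpm : p ∣ m := (CharP.cast_eq_zero_iff D p m).mp hmD
  have hp0 : p ≠ 0 := by
    rintro rfl
    exact hm (Nat.eq_zero_of_zero_dvd hpm)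
  have hpp : p.Prime := (CharP.char_is_prime_or_zero D p).resolve_right hp0
  refine ⟨p, hpp, hp, hpm, refl ?_⟩
  intro w hw
  obtain ⟨w3, g3, w2, g2, g13, g23⟩ := choose1 w hw
  have := main w hw w3 g3 w2 g2 g13 g23 p
  rwa [CharP.cast_eq_zero, zero_smul, sub_zero] at this

/-- The lattice embedding `Sub(Q) → Sub(A)` for a surjection `g : C → Q` from a subgroup
`C` of `A`. -/
def sect {Q : Type*} [AddCommGroup Q] (C : AddSubgroup A) (g : C →+ Q)
    (hg : Function.Surjective g) : LatticeHom (AddSubgroup Q) (AddSubgroup A) where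
  toFun X := (X.comap g).map C.subtype
  map_inf' X Y := by
    rw [AddSubgroup.comap_inf, AddSubgroup.map_inf_eq _ _ _ C.subtype_injective]
  map_sup' X Y := by
    rw [← AddSubgroup.map_sup, AddSubgroup.comap_sup_eq _ _ _ hg]

lemma sect_injective {Q : Type*} [AddCommGroup Q] (C : AddSubgroup A) (g : C →+ Q)
    (hg : Function.Surjective g) : Function.Injective (sect C g hg) := by
  intro X Y h
  have h1 : X.comap g = Y.comap g := AddSubgroup.map_injective C.subtype_injective h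
  exact AddSubgroup.comap_injective hg h1

open AddSubgroup in
theorem prime_of_embedding_cube {m : ℕ} (hm : 2 ≤ m)
    (f : LatticeHom (AddSubgroup (Fin 3 → ZMod m)) (Submodule D V))
    (hf : Function.Injective f) : m.Prime ∧ CharP D m := by
  have hz : ∀ (v x : Fin 3 → ZMod m), x ∈ zmultiples v →
      ∃ k : ZMod m, x = fun i => k * v i := by
    intro v x hx
    obtain ⟨k, rfl⟩ := mem_zmultiples_iff.mp hx
    exact ⟨(k : ZMod m), by funext i; simp⟩
  have hz' : ∀ (v x : Fin 3 → ZMod m) (k : ZMod m), (x = fun i => k * v i) →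
      x ∈ zmultiples v := by
    intro v x k hx
    obtain ⟨k', rfl⟩ := ZMod.intCast_surjective k
    exact mem_zmultiples_iff.mpr ⟨k', by rw [hx]; funext i; simp⟩
  have h1 : (1 : ZMod m) ≠ 0 := by
    have : Fact (1 < m) := ⟨hm⟩
    exact one_ne_zero
  obtain ⟨p, hp, hpD, hpm, hle⟩ := core f hf ⊥ (zmultiples ![1, 0, 0]) (zmultiples ![0, 1, 0])
    (zmultiples ![0, 0, 1]) (zmultiples ![1, 0, 1]) (zmultiples ![0, 1, 1])
    (fun n => zmultiples ![1, -(n : ZMod m), 0]) m bot_le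
    (by
      intro h
      have := h (mem_zmultiples _)
      have := congrFun (AddSubgroup.mem_bot.mp this) 0
      exact h1 (by simpa using this))
    bot_le bot_le
    (by
      rintro x ⟨hx, hy⟩
      obtain ⟨k, rfl⟩ := hz _ _ hx
      obtain ⟨l, hl⟩ := hz _ _ hy
      have e0 := congrFun hl 0
      simp at e0
      rw [AddSubgroup.mem_bot]
      funext i
      fin_cases i <;> simp [e0])
    (by
      rintro x ⟨hx, hy⟩
      obtain ⟨k, rfl⟩ := hz _ _ hx
      obtain ⟨l, hl⟩ := hz _ _ hy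
      have e0 := congrFun hl 0
      have e2 := congrFun hl 2
      simp at e0 e2
      rw [AddSubgroup.mem_bot]
      funext i
      fin_cases i <;> simp [e0, ← e2])
    (by
      rintro x ⟨hx, hy⟩
      obtain ⟨k, rfl⟩ := hz _ _ hx
      obtain ⟨l, hl⟩ := hz _ _ hy
      have e1 := congrFun hl 1
      have e2 := congrFun hl 2
      simp at e1 e2
      rw [AddSubgroup.mem_bot]
      funext i
      fin_cases i <;> simp [e2, ← e1])
    (by
      rw [zmultiples_le]
      have : (![1, 0, 0] : Fin 3 → ZMod m) = ![1, 0, 1] + -![0, 0, 1] := by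
        funext i; fin_cases i <;> simp
      rw [this]
      exact add_mem (AddSubgroup.mem_sup_left (mem_zmultiples _)) (AddSubgroup.mem_sup_right (neg_mem (mem_zmultiples _))))
    (by
      rw [zmultiples_le]
      have : (![0, 0, 1] : Fin 3 → ZMod m) = ![0, 1, 1] + -![0, 1, 0] := by
        funext i; fin_cases i <;> simp
      rw [this]
      exact add_mem (AddSubgroup.mem_sup_left (mem_zmultiples _)) (AddSubgroup.mem_sup_right (neg_mem (mem_zmultiples _))))
    (by simp)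
    (by
      intro n x hx
      obtain ⟨hx1, hx2⟩ := hx
      obtain ⟨q, hq, s, hs, rfl⟩ := AddSubgroup.mem_sup.mp hx1
      obtain ⟨k, rfl⟩ := hz _ _ hs
      obtain ⟨hqq1, hqq2⟩ := hq
      obtain ⟨q1, hq1, q2, hq2', rfl⟩ := AddSubgroup.mem_sup.mp hqq1
      obtain ⟨a, rfl⟩ := hz _ _ hq1
      obtain ⟨b, rfl⟩ := hz _ _ hq2'
      obtain ⟨q3, hq3, q4, hq4, e⟩ := AddSubgroup.mem_sup.mp hqq2
      obtain ⟨c, rfl⟩ := hz _ _ hq3
      obtain ⟨d, rfl⟩ := hz _ _ hq4
      obtain ⟨r1, hr1, r2, hr2, e'⟩ := AddSubgroup.mem_sup.mp hx2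
      obtain ⟨u, rfl⟩ := hz _ _ hr1
      obtain ⟨v, rfl⟩ := hz _ _ hr2
      have e0 := congrFun e 0
      have e1 := congrFun e 1
      have e2 := congrFun e 2
      have e2' := congrFun e' 2
      simp at e0 e1 e2 e2'
      refine hz' _ _ a ?_
      have hb : b = a := by rw [← e2, ← e0]
      have hk : k = -a := by
        rw [hb] at e2'
        exact eq_neg_of_add_eq_zero_right e2'.symm
      subst hb
      rw [hk]
      funext i
      fin_cases i
      · simp
      · simp; ring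
      · simp)
    (by omega)
    (by simp)
  have : (![1, 0, 0] : Fin 3 → ZMod m) ∈ zmultiples ![1, -(p : ZMod m), 0] :=
    hle (mem_zmultiples _)
  obtain ⟨k, hk⟩ := hz _ _ this
  have e0 := congrFun hk 0
  have e1 := congrFun hk 1
  simp at e0 e1
  rw [← e0, one_mul] at e1
  have hmp : m ∣ p := (ZMod.natCast_eq_zero_iff p m).mp e1
  have : m = p := Nat.dvd_antisymm hmp hpm
  subst this
  exact ⟨hp, hpD⟩

theorem prime_of_embedding {m : ℕ} (hm : 2 ≤ m) (C : AddSubgroup A)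
    (g : C →+ (Fin 3 → ZMod m)) (hg : Function.Surjective g)
    (f : LatticeHom (AddSubgroup A) (Submodule D V))
    (hf : Function.Injective f) : m.Prime ∧ CharP D m :=
  prime_of_embedding_cube hm (f.comp (sect C g hg)) (hf.comp (sect_injective C g hg))

end Q15SubEmb
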