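import Mathlib

/-! Symmetric lattice identities. -/

namespace Q15Sym

universe u

/-- Lattice terms in the variables `X`. -/
inductive LTerm (X : Type) : Type
  | var (i : X) : LTerm X
  | sup (s t : LTerm X) : LTerm X
  | inf (s t : LTerm X) : LTerm X

/-- The value of a lattice term. -/
def LTerm.ev {X : Type} {L : Type*} [Lattice L] (v : X → L) : LTerm X → L
  | .var i => v i
  | .sup s t => s.ev v ⊔ t.ev v
  | .inf s t => s.ev v ⊓ t.ev v

/-- The lattice `L` satisfies the identity `t ≈ s`. -/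
def Holds (L : Type*) [Lattice L] {X : Type} (t s : LTerm X) : Prop :=
  ∀ v : X → L, t.ev v = s.ev v

/-- Replacing the variable `i` by `f i`. -/
def LTerm.rename {X Y : Type} (f : X → Y) : LTerm X → LTerm Y
  | .var i => .var (f i)
  | .sup s t => .sup (s.rename f) (t.rename f)
  | .inf s t => .inf (s.rename f) (t.rename f)

section
variable {X Y : Type} {L : Type*} [Lattice L]

lemma ev_rename (f : X → Y) (v : Y → L) (t : LTerm X) :
    (t.rename f).ev v = t.ev fun i => v (f i) := by
  induction t with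
  | var i => rfl
  | sup s t hs ht => simp only [LTerm.rename, LTerm.ev, hs, ht]
  | inf s t hs ht => simp only [LTerm.rename, LTerm.ev, hs, ht]

lemma ev_mono {v w : X → L} (h : ∀ i, v i ≤ w i) (t : LTerm X) : t.ev v ≤ t.ev w := by
  induction t with
  | var i => exact h i
  | sup s t hs ht => exact sup_le_sup hs ht
  | inf s t hs ht => exact inf_le_inf hs ht

/-- The value of a term at ideals. -/
lemma mem_ev (v : X → Order.Ideal L) (t : LTerm X) (x : L) :
    x ∈ t.ev v ↔ ∃ a : X → L, (∀ i, a i ∈ v i) ∧ x ≤ t.ev a := by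
  classical
  have hne : ∀ i, ∃ a, a ∈ v i := fun i => (v i).nonempty
  choose a0 ha0 using hne
  induction t generalizing x with
  | var i =>
    constructor
    · intro hx
      refine ⟨Function.update a0 i x, fun j => ?_, ?_⟩
      · by_cases hj : j = i
        · subst hj; rw [Function.update_self]; exact hx
        · rw [Function.update_of_ne hj]; exact ha0 j
      · simp [LTerm.ev]
    · rintro ⟨a, ha, hx⟩
      exact (v i).lower hx (ha i)
  | sup s t hs ht =>
    constructor
    · intro hx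
      obtain ⟨y, hy, z, hz, hx⟩ := Order.Ideal.mem_sup.mp hx
      obtain ⟨a, ha, hya⟩ := (hs y).mp hy
      obtain ⟨b, hb, hzb⟩ := (ht z).mp hz
      refine ⟨fun i => a i ⊔ b i, fun i => Order.Ideal.sup_mem (ha i) (hb i), hx.trans ?_⟩
      exact sup_le_sup (hya.trans (ev_mono (fun i => le_sup_left) s))
        (hzb.trans (ev_mono (fun i => le_sup_right) t))
    · rintro ⟨a, ha, hx⟩
      exact Order.Ideal.mem_sup.mpr ⟨s.ev a, (hs _).mpr ⟨a, ha, le_rfl⟩, t.ev a,
        (ht _).mpr ⟨a, ha, le_rfl⟩, hx⟩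
  | inf s t hs ht =>
    constructor
    · intro hx
      obtain ⟨h1, h2⟩ := Order.Ideal.mem_inf.mp hx
      obtain ⟨a, ha, hya⟩ := (hs x).mp h1
      obtain ⟨b, hb, hzb⟩ := (ht x).mp h2
      refine ⟨fun i => a i ⊔ b i, fun i => Order.Ideal.sup_mem (ha i) (hb i), ?_⟩
      exact le_inf (hya.trans (ev_mono (fun i => le_sup_left) s))
        (hzb.trans (ev_mono (fun i => le_sup_right) t))
    · rintro ⟨a, ha, hx⟩
      exact Order.Ideal.mem_inf.mpr ⟨(hs x).mpr ⟨a, ha, hx.trans inf_le_left⟩,
        (ht x).mpr ⟨a, ha, hx.trans inf_le_right⟩⟩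

/-- Identities pass to the lattice of ideals. -/
lemma Holds.ideal {t s : LTerm X} (h : Holds L t s) : Holds (Order.Ideal L) t s := by
  intro v
  ext x
  change x ∈ t.ev v ↔ x ∈ s.ev v
  rw [mem_ev, mem_ev]
  simp only [h _]

/-- The value of a term at principal ideals. -/
lemma mem_ev_principal (b : X → L) (t : LTerm X) (x : L) :
    x ∈ t.ev (fun i => Order.Ideal.principal (b i)) ↔ x ≤ t.ev b := by
  rw [mem_ev]
  constructor
  · rintro ⟨a, ha, hx⟩
    exact hx.trans (ev_mono (fun i => Order.Ideal.mem_principal.mp (ha i)) t)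
  · intro hx
    exact ⟨b, fun i => Order.Ideal.mem_principal_self, hx⟩

/-- A maximal ideal among those that contain `p` and do not contain `q`. -/
lemma exists_ideal (p q : L) (h : ¬ q ≤ p) : ∃ e : Order.Ideal L, p ∈ e ∧ q ∉ e ∧
    ∀ a b : Order.Ideal L, a ⊓ b = e → a = e ∨ b = e := by
  obtain ⟨e, -, he⟩ := zorn_le_nonempty₀ {I : Order.Ideal L | p ∈ I ∧ q ∉ I}
    (fun c hc hchain J hJ => by
      refine ⟨⟨⟨⋃ I ∈ c, (I : Set L), ?_⟩, ?_, ?_⟩, ⟨?_, ?_⟩, ?_⟩
      · intro a b hab ha
        obtain ⟨I, hI, haI⟩ := Set.mem_iUnion₂.mp ha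
        exact Set.mem_iUnion₂.mpr ⟨I, hI, I.lower hab haI⟩
      · exact ⟨p, Set.mem_iUnion₂.mpr ⟨J, hJ, (hc hJ).1⟩⟩
      · rintro a ha b hb
        obtain ⟨I, hI, haI⟩ := Set.mem_iUnion₂.mp ha
        obtain ⟨I', hI', hbI'⟩ := Set.mem_iUnion₂.mp hb
        rcases hchain.total hI hI' with h1 | h1
        · exact ⟨a ⊔ b, Set.mem_iUnion₂.mpr ⟨I', hI', Order.Ideal.sup_mem (h1 haI) hbI'⟩,
            le_sup_left, le_sup_right⟩
        · exact ⟨a ⊔ b, Set.mem_iUnion₂.mpr ⟨I, hI, Order.Ideal.sup_mem haI (h1 hbI')⟩,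
            le_sup_left, le_sup_right⟩
      · exact Set.mem_iUnion₂.mpr ⟨J, hJ, (hc hJ).1⟩
      · intro hq
        obtain ⟨I, hI, hqI⟩ := Set.mem_iUnion₂.mp hq
        exact (hc hI).2 hqI
      · intro I hI x hx
        exact Set.mem_iUnion₂.mpr ⟨I, hI, hx⟩)
    (Order.Ideal.principal p)
    ⟨Order.Ideal.mem_principal_self, fun hq => h (Order.Ideal.mem_principal.mp hq)⟩
  refine ⟨e, he.prop.1, he.prop.2, fun a b hab => ?_⟩
  by_contra hcon
  rw [not_or] at hcon
  have ha : e ≤ a := hab ▸ inf_le_left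
  have hb : e ≤ b := hab ▸ inf_le_right
  have hqa : q ∈ a := by
    by_contra hqa
    exact hcon.1 (le_antisymm (he.le_of_ge ⟨ha he.prop.1, hqa⟩ ha) ha)
  have hqb : q ∈ b := by
    by_contra hqb
    exact hcon.2 (le_antisymm (he.le_of_ge ⟨hb he.prop.1, hqb⟩ hb) hb)
  exact he.prop.2 (hab ▸ Order.Ideal.mem_inf.mpr ⟨hqa, hqb⟩)

/-- The join of a list of terms. -/
def sups (t : LTerm X) (l : List (LTerm X)) : LTerm X := l.foldr LTerm.sup t

/-- The meet of a list of terms. -/
def infs (t : LTerm X) (l : List (LTerm X)) : LTerm X := l.foldr LTerm.inf t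

lemma ev_sups_le (t : LTerm X) (l : List (LTerm X)) (v : X → L) (z : L) :
    (sups t l).ev v ≤ z ↔ t.ev v ≤ z ∧ ∀ s ∈ l, s.ev v ≤ z := by
  induction l with
  | nil => simp [sups]
  | cons s l ih =>
    have : (sups t (s :: l)).ev v = s.ev v ⊔ (sups t l).ev v := rfl
    rw [this, sup_le_iff, ih, List.forall_mem_cons]
    tauto

lemma le_ev_infs (t : LTerm X) (l : List (LTerm X)) (v : X → L) (z : L) :
    z ≤ (infs t l).ev v ↔ z ≤ t.ev v ∧ ∀ s ∈ l, z ≤ s.ev v := by
  induction l with
  | nil => simp [infs]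
  | cons s l ih =>
    have : (infs t (s :: l)).ev v = s.ev v ⊓ (infs t l).ev v := rfl
    rw [this, le_inf_iff, ih, List.forall_mem_cons]
    tauto

lemma ev_infs_ne (e : L) (he : ∀ a b : L, a ⊓ b = e → a = e ∨ b = e) (t : LTerm X)
    (l : List (LTerm X)) (v : X → L) (ht : t.ev v ≠ e) (hl : ∀ s ∈ l, s.ev v ≠ e) :
    (infs t l).ev v ≠ e := by
  induction l with
  | nil => exact ht
  | cons s l ih =>
    intro h
    rcases he _ _ (show s.ev v ⊓ (infs t l).ev v = e from h) with h1 | h1
    · exact hl s (List.mem_cons_self) h1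
    · exact ih (fun s hs => hl s (List.mem_cons_of_mem _ hs)) h1

variable [Fintype X] [DecidableEq X]

/-- The meet of all terms obtained from `t` by permuting the variables. -/
noncomputable def sym (t : LTerm X) : LTerm X :=
  infs t ((Finset.univ : Finset (Equiv.Perm X)).toList.map fun σ : Equiv.Perm X => t.rename σ)

lemma le_ev_sym (t : LTerm X) (v : X → L) (z : L) :
    z ≤ (sym t).ev v ↔ ∀ σ : Equiv.Perm X, z ≤ t.ev fun i => v (σ i) := by
  rw [sym, le_ev_infs]
  constructor
  · rintro ⟨-, h⟩ σ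
    have := h (t.rename σ) (List.mem_map.mpr ⟨σ, by simp, rfl⟩)
    rwa [ev_rename] at this
  · intro h
    refine ⟨h 1, fun s hs => ?_⟩
    obtain ⟨σ, -, rfl⟩ := List.mem_map.mp hs
    rw [ev_rename]
    exact h σ

lemma ev_sym_perm (t : LTerm X) (v : X → L) (τ : Equiv.Perm X) :
    (sym t).ev (fun i => v (τ i)) = (sym t).ev v := by
  apply eq_of_forall_le_iff
  intro z
  rw [le_ev_sym, le_ev_sym]
  constructor
  · intro h σ
    have := h (τ⁻¹ * σ)
    simpa using this
  · intro h σ
    exact h (τ * σ)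

/-- The separating argument. -/
theorem separate (n : ℕ) (p q : LTerm (Fin n)) (b : Fin n → L) (e : L)
    (he : ∀ a b : L, a ⊓ b = e → a = e ∨ b = e) (hp : p.ev b ≤ e) (hq : ¬ q.ev b ≤ e) :
    ∃ w : LTerm (Fin (n + (n + 1))), ∃ B : Fin (n + (n + 1)) → L,
      (sym (.sup (p.rename (Fin.castAdd (n + 1))) w)).ev B ≠
      (sym (.sup (q.rename (Fin.castAdd (n + 1))) w)).ev B := by
  classical
  let J := Fin (n + (n + 1))
  let B : J → L := Fin.append b fun _ => e
  let D : Finset J := Finset.univ.filter fun j => B j ≤ e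
  have hB1 : ∀ i : Fin n, B (Fin.castAdd (n + 1) i) = b i := fun i => Fin.append_left _ _ _
  have hB2 : ∀ i : Fin (n + 1), B (Fin.natAdd n i) = e := fun i => Fin.append_right _ _ _
  let j0 : J := Fin.natAdd n 0
  let w0 : LTerm J := sups (.var j0) (D.toList.map .var)
  have hw0 : w0.ev B ≤ e := by
    rw [ev_sups_le]
    refine ⟨(hB2 0).le, fun s hs => ?_⟩
    obtain ⟨j, hj, rfl⟩ := List.mem_map.mp hs
    exact (Finset.mem_filter.mp (Finset.mem_toList.mp hj)).2
  -- some variable of `w0` has value `e` after a permutation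
  have hw0' : ∀ σ : Equiv.Perm J, e ≤ w0.ev fun j => B (σ j) := by
    intro σ
    obtain ⟨j, hj, i, hi⟩ : ∃ j ∈ D, ∃ i : Fin (n + 1), σ j = Fin.natAdd n i := by
      by_contra hcon
      push Not at hcon
      -- the `n + 1` positions with value `e` are mapped outside of `D`
      have h1 : (Finset.univ.image fun i : Fin (n + 1) => σ.symm (Fin.natAdd n i)) ⊆
          Finset.univ.image (Fin.castAdd (n + 1) : Fin n → J) := by
        intro j hj
        obtain ⟨i, -, rfl⟩ := Finset.mem_image.mp hj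
        have h2 : σ.symm (Fin.natAdd n i) ∉ D := fun h3 =>
          hcon _ h3 i (σ.apply_symm_apply _)
        refine Fin.addCases (motive := fun j => j ∉ D →
          j ∈ Finset.univ.image (Fin.castAdd (n + 1) : Fin n → J)) (fun k _ => ?_)
          (fun k hk => ?_) (σ.symm (Fin.natAdd n i)) h2
        · exact Finset.mem_image_of_mem _ (Finset.mem_univ _)
        · have h3 : (Fin.natAdd n k : J) ∈ D :=
            Finset.mem_filter.mpr ⟨Finset.mem_univ (Fin.natAdd n k : J), (hB2 k).le⟩
          exact absurd h3 hk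
      have h2 := Finset.card_le_card h1
      have h4 : Function.Injective fun i : Fin (n + 1) => σ.symm (Fin.natAdd n i) :=
        σ.symm.injective.comp (Fin.natAdd_injective _ _)
      rw [Finset.card_image_of_injective _ h4,
        Finset.card_image_of_injective _ (Fin.castAdd_injective _ _), Finset.card_univ,
        Finset.card_univ, Fintype.card_fin, Fintype.card_fin] at h2
      omega
    have h1 : B (σ j) = e := by rw [hi]; exact hB2 i
    have h2 := ((ev_sups_le (.var j0) (D.toList.map .var) (fun j => B (σ j))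
      (w0.ev fun j => B (σ j))).mp le_rfl).2 (.var j) (List.mem_map.mpr ⟨j,
        Finset.mem_toList.mpr hj, rfl⟩)
    exact h1.ge.trans h2
  -- separating terms
  have hsep : ∀ σ : Equiv.Perm J, ∃ w : LTerm J, w.ev B ≤ e ∧
      ((∃ w : LTerm J, w.ev B ≤ e ∧ ¬ (w.ev fun j => B (σ j)) ≤ e) →
        ¬ (w.ev fun j => B (σ j)) ≤ e) := by
    intro σ
    by_cases h : ∃ w : LTerm J, w.ev B ≤ e ∧ ¬ (w.ev fun j => B (σ j)) ≤ e
    · obtain ⟨w, h1, h2⟩ := h
      exact ⟨w, h1, fun _ => h2⟩
    · exact ⟨w0, hw0, fun h' => absurd h' h⟩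
  choose ws hws1 hws2 using hsep
  let w : LTerm J := sups w0 ((Finset.univ : Finset (Equiv.Perm J)).toList.map ws)
  have hw : w.ev B ≤ e := by
    rw [ev_sups_le]
    refine ⟨hw0, fun s hs => ?_⟩
    obtain ⟨σ, -, rfl⟩ := List.mem_map.mp hs
    exact hws1 σ
  have hw1 : ∀ v : J → L, w0.ev v ≤ w.ev v := fun v => ((ev_sups_le _ _ v _).mp le_rfl).1
  have hw2 : ∀ (v : J → L) σ, (ws σ).ev v ≤ w.ev v := fun v σ =>
    ((ev_sups_le _ _ v _).mp le_rfl).2 _ (List.mem_map.mpr ⟨σ, by simp, rfl⟩)
  refine ⟨w, B, fun heq => ?_⟩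
  have hpB : (LTerm.sup (p.rename (Fin.castAdd (n + 1))) w).ev B ≤ e := by
    change (p.rename (Fin.castAdd (n + 1))).ev B ⊔ w.ev B ≤ e
    rw [ev_rename]
    simp only [hB1]
    exact sup_le hp hw
  have h1 : (sym (.sup (p.rename (Fin.castAdd (n + 1))) w)).ev B ≤ e :=
    ((le_ev_sym _ _ _).mp le_rfl 1).trans hpB
  have hqe : ∀ σ : Equiv.Perm J, e ≤
      (LTerm.sup (q.rename (Fin.castAdd (n + 1))) w).ev fun j => B (σ j) := fun σ =>
    (hw0' σ).trans ((hw1 _).trans le_sup_right)
  have hqne : ∀ σ : Equiv.Perm J,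
      (LTerm.sup (q.rename (Fin.castAdd (n + 1))) w).ev (fun j => B (σ j)) ≠ e := by
    intro σ heq'
    have hle : (LTerm.sup (q.rename (Fin.castAdd (n + 1))) w).ev (fun j => B (σ j)) ≤ e := heq'.le
    by_cases h : ∃ w : LTerm J, w.ev B ≤ e ∧ ¬ (w.ev fun j => B (σ j)) ≤ e
    · exact hws2 σ h ((hw2 _ σ).trans (le_sup_right.trans hle))
    · push Not at h
      -- powers of `σ`
      have hpow : ∀ (k : ℕ) (w : LTerm J), w.ev B ≤ e → (w.ev fun j => B ((σ ^ k) j)) ≤ e := by
        intro k
        induction k with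
        | zero => intro w hw; simpa using hw
        | succ k ih =>
          intro w hw
          have h2 := ih w hw
          have h3 := h (w.rename (σ ^ k)) (by rw [ev_rename]; exact h2)
          rw [ev_rename] at h3
          rw [pow_succ']
          exact h3
      have h4 : (q.rename (Fin.castAdd (n + 1)) : LTerm J).ev (fun j => B (σ j)) ≤ e :=
        le_sup_left.trans hle
      have h5 := hpow (orderOf σ - 1) ((q.rename (Fin.castAdd (n + 1)) : LTerm J).rename σ)
        (by rw [ev_rename]; exact h4)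
      rw [ev_rename] at h5
      have h6 : ∀ j, (σ ^ (orderOf σ - 1)) (σ j) = j := by
        intro j
        have h7 : σ ^ (orderOf σ - 1) * σ = 1 := by
          rw [← pow_succ, Nat.sub_add_cancel (orderOf_pos σ), pow_orderOf_eq_one]
        calc (σ ^ (orderOf σ - 1)) (σ j) = (σ ^ (orderOf σ - 1) * σ) j := rfl
          _ = j := by rw [h7]; rfl
      simp only [h6] at h5
      rw [ev_rename] at h5
      simp only [hB1] at h5
      exact hq h5
  have h2 : (sym (.sup (q.rename (Fin.castAdd (n + 1))) w)).ev B ≠ e := by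
    refine ev_infs_ne e he _ _ B ?_ ?_
    · exact hqne 1
    · intro s hs
      obtain ⟨σ, -, rfl⟩ := List.mem_map.mp hs
      rw [ev_rename]
      exact hqne σ
  have h3 : e ≤ (sym (.sup (q.rename (Fin.castAdd (n + 1))) w)).ev B := by
    rw [le_ev_sym]
    exact hqe
  exact h2 (le_antisymm (heq ▸ h1) h3)

end

/-- The lattice `L` belongs to the variety defined by the set `E` of identities. -/
def InVariety (E : Set (Σ n : ℕ, LTerm (Fin n) × LTerm (Fin n))) (L : Type u) [Lattice L] : Prop :=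
  ∀ e ∈ E, Holds L e.2.1 e.2.2

/-- The term `t` of `FL(n)` is symmetric: `t = t_σ` in the free lattice, that is, `t ≈ t_σ` holds in
all lattices. -/
def IsSymmetric {n : ℕ} (t : LTerm (Fin n)) : Prop :=
  ∀ (σ : Equiv.Perm (Fin n)) (L : Type u) [Lattice L], Holds L t (t.rename σ)

/-- The lattice `L` satisfies every symmetric identity that holds in the variety defined by `E`. -/
def InSymmetricPart (E : Set (Σ n : ℕ, LTerm (Fin n) × LTerm (Fin n))) (L : Type u) [Lattice L] :
    Prop :=
  ∀ (n : ℕ) (t s : LTerm (Fin n)), IsSymmetric.{u} t → IsSymmetric.{u} s →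
    (∀ (K : Type u) [Lattice K], InVariety E K → Holds K t s) → Holds L t s

lemma isSymmetric_sym {n : ℕ} (t : LTerm (Fin n)) : IsSymmetric.{u} (sym t) := by
  intro σ L _ v
  rw [ev_rename, ev_sym_perm]

lemma holds_sym {n : ℕ} {p q : LTerm (Fin n)} (K : Type u) [Lattice K] (h : Holds K p q) :
    Holds K (sym p) (sym q) := by
  intro v
  apply eq_of_forall_le_iff
  intro z
  rw [le_ev_sym, le_ev_sym]
  simp only [h _]

theorem main (E : Set (Σ n : ℕ, LTerm (Fin n) × LTerm (Fin n))) (L : Type u) [Lattice L] :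
    InVariety E L ↔ InSymmetricPart E L := by
  constructor
  · intro h n t s _ _ hts
    exact hts L h
  · intro h
    have key : ∀ (n : ℕ) (p q : LTerm (Fin n)),
        (∀ (K : Type u) [Lattice K], InVariety E K → Holds K p q) →
        ∀ b : Fin n → L, q.ev b ≤ p.ev b := by
      intro n p q hpq b
      by_contra hcon
      obtain ⟨e, hpe, hqe, he⟩ := exists_ideal _ _ hcon
      obtain ⟨w, B, hB⟩ := separate n p q (fun i => Order.Ideal.principal (b i)) e he
        (fun x hx => e.lower ((mem_ev_principal b p x).mp hx) hpe)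
        (fun h' => hqe (h' ((mem_ev_principal b q _).mpr le_rfl)))
      apply hB
      refine Holds.ideal (h _ _ _ (isSymmetric_sym _) (isSymmetric_sym _) ?_) B
      intro K _ hK
      apply holds_sym
      intro v
      change (p.rename _).ev v ⊔ w.ev v = (q.rename _).ev v ⊔ w.ev v
      rw [ev_rename, ev_rename, hpq K hK]
    intro e he b
    exact le_antisymm (key e.1 e.2.2 e.2.1 (fun K _ hK v => (hK e he v).symm) b)
      (key e.1 e.2.1 e.2.2 (fun K _ hK => hK e he) b)

end Q15Sym
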