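import Pool.Agent.Q15.SymLat

/-! A variety of lattices defined by identities in four variables that is not defined by its
symmetric identities in at most four variables. -/

namespace Q15SymK

open Q15Sym

/-- The six edges of the complete graph on four vertices: three perfect matchings of two edges. -/
abbrev I : Type := Fin 3 × Bool

/-- The graph `z` contains a perfect matching. -/
def U (z : Finset I) : Prop := ∃ j : Fin 3, (j, false) ∈ z ∧ (j, true) ∈ z

/-- The graph `z` contains a perfect matching and a triangle. -/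
def D (z : Finset I) : Prop := U z ∧ ∃ a b c : Bool, (0, a) ∈ z ∧ (1, b) ∈ z ∧ (2, c) ∈ z ∧
  xor a (xor b c) = true

instance : DecidablePred U := fun z => by unfold U; infer_instance

instance : DecidablePred D := fun z => by unfold D; infer_instance

lemma U_mono {z w : Finset I} (h : z ⊆ w) (hz : U z) : U w := by
  obtain ⟨j, h1, h2⟩ := hz
  exact ⟨j, h h1, h h2⟩

lemma D_mono {z w : Finset I} (h : z ⊆ w) (hz : D z) : D w := by
  obtain ⟨h0, a, b, c, h1, h2, h3, h4⟩ := hz
  exact ⟨U_mono h h0, a, b, c, h h1, h h2, h h3, h4⟩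

/-- The lattice: pairs of a graph and a bit, where the bit is `1` if the graph satisfies `D` and
is `0` if it does not satisfy `U`. -/
@[ext]
structure LL where
  z : Finset I
  i : Bool
  hD : D z → i = true
  hU : i = true → U z

deriving instance DecidableEq for LL

instance : LE LL := ⟨fun p q => p.z ⊆ q.z ∧ (p.i = true → q.i = true)⟩

lemma le_def (p q : LL) : p ≤ q ↔ p.z ⊆ q.z ∧ (p.i = true → q.i = true) := Iff.rfl

instance : PartialOrder LL where
  le_refl p := ⟨subset_rfl, fun h => h⟩
  le_trans p q r h1 h2 := ⟨h1.1.trans h2.1, fun h => h2.2 (h1.2 h)⟩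
  le_antisymm p q h1 h2 := by
    have hz : p.z = q.z := Finset.Subset.antisymm h1.1 h2.1
    have hi : p.i = q.i := Bool.eq_iff_iff.mpr ⟨h1.2, h2.2⟩
    exact LL.ext hz hi

/-- The join. -/
def sup (p q : LL) : LL where
  z := p.z ∪ q.z
  i := p.i || q.i || decide (D (p.z ∪ q.z))
  hD h := by simp [h]
  hU h := by
    rcases hp : p.i with _ | _
    · rcases hq : q.i with _ | _
      · rw [hp, hq] at h
        simp at h
        exact h.1
      · exact U_mono Finset.subset_union_right (q.hU hq)
    · exact U_mono Finset.subset_union_left (p.hU hp)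

/-- The meet. -/
def inf (p q : LL) : LL where
  z := p.z ∩ q.z
  i := p.i && q.i && decide (U (p.z ∩ q.z))
  hD h := by
    have h1 := p.hD (D_mono Finset.inter_subset_left h)
    have h2 := q.hD (D_mono Finset.inter_subset_right h)
    simp [h1, h2, h.1]
  hU h := by
    simp at h
    exact h.2

instance : Lattice LL where
  sup := sup
  inf := inf
  le_sup_left p q := ⟨Finset.subset_union_left, fun h => by simp [sup, h]⟩
  le_sup_right p q := ⟨Finset.subset_union_right, fun h => by simp [sup, h]⟩
  sup_le p q r h1 h2 := ⟨Finset.union_subset h1.1 h2.1, fun h => by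
    simp only [sup, Bool.or_eq_true, decide_eq_true_eq] at h
    rcases h with (h | h) | h
    · exact h1.2 h
    · exact h2.2 h
    · exact r.hD (D_mono (Finset.union_subset h1.1 h2.1) h)⟩
  inf_le_left p q := ⟨Finset.inter_subset_left, fun h => by
    simp only [inf, Bool.and_eq_true] at h; exact h.1.1⟩
  inf_le_right p q := ⟨Finset.inter_subset_right, fun h => by
    simp only [inf, Bool.and_eq_true] at h; exact h.1.2⟩
  le_inf p q r h1 h2 := ⟨Finset.subset_inter h1.1 h2.1, fun h => by
    simp only [inf, Bool.and_eq_true, decide_eq_true_eq]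
    exact ⟨⟨h1.2 h, h2.2 h⟩, U_mono (Finset.subset_inter h1.1 h2.1) (p.hU h)⟩⟩

lemma sup_z (p q : LL) : (p ⊔ q).z = p.z ∪ q.z := rfl
lemma inf_z (p q : LL) : (p ⊓ q).z = p.z ∩ q.z := rfl
lemma sup_i (p q : LL) : (p ⊔ q).i = (p.i || q.i || decide (D (p.z ∪ q.z))) := rfl
lemma inf_i (p q : LL) : (p ⊓ q).i = (p.i && q.i && decide (U (p.z ∩ q.z))) := rfl

instance : Finite LL := by
  apply Finite.of_injective (fun p : LL => (p.z, p.i))
  intro p q h
  exact LL.ext (congrArg Prod.fst h) (congrArg Prod.snd h)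

/-- The least element over a graph. -/
def lo (z : Finset I) : LL where
  z := z
  i := decide (D z)
  hD h := by simp [h]
  hU h := by simp at h; exact h.1

/-- The greatest element over a graph. -/
def hi (z : Finset I) : LL where
  z := z
  i := decide (U z)
  hD h := by simp [h.1]
  hU h := by simpa using h

lemma eq_lo_or_hi (p : LL) : p = lo p.z ∨ p = hi p.z := by
  rcases hp : p.i with _ | _
  · left
    ext1
    · rfl
    · have : ¬ D p.z := fun h => by rw [p.hD h] at hp; cases hp
      rw [hp]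
      simp [lo, this]
  · right
    ext1
    · rfl
    · have := p.hU hp
      rw [hp]
      simp [hi, this]

lemma lo_sup_lo (z w : Finset I) : lo z ⊔ lo w = lo (z ∪ w) := by
  ext1
  · rfl
  · rw [sup_i]
    change (decide (D z) || decide (D w) || decide (D (z ∪ w))) = decide (D (z ∪ w))
    by_cases h1 : D z
    · simp [h1, D_mono Finset.subset_union_left h1]
    · by_cases h2 : D w
      · simp [h2, D_mono Finset.subset_union_right h2]
      · simp [h1, h2]

lemma hi_inf_hi (z w : Finset I) : hi z ⊓ hi w = hi (z ∩ w) := by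
  ext1
  · rfl
  · rw [inf_i]
    change (decide (U z) && decide (U w) && decide (U (z ∩ w))) = decide (U (z ∩ w))
    by_cases h1 : U (z ∩ w)
    · simp [h1, U_mono Finset.inter_subset_left h1, U_mono Finset.inter_subset_right h1]
    · simp [h1]

/-- The generators: the stars. -/
def star (k : Fin 4) : Finset I :=
  match k with
  | 0 => {(0, false), (1, false), (2, false)}
  | 1 => {(0, false), (1, true), (2, true)}
  | 2 => {(0, true), (1, false), (2, true)}
  | 3 => {(0, true), (1, true), (2, false)}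

/-- The generating tuple. -/
def gen (k : Fin 4) : LL := lo (star k)

/-- The values of terms at the generating tuple. -/
def Val (p : LL) : Prop := ∃ t : LTerm (Fin 4), t.ev gen = p

lemma Val.sup {p q : LL} (hp : Val p) (hq : Val q) : Val (p ⊔ q) := by
  obtain ⟨s, rfl⟩ := hp
  obtain ⟨t, rfl⟩ := hq
  exact ⟨.sup s t, rfl⟩

lemma Val.inf {p q : LL} (hp : Val p) (hq : Val q) : Val (p ⊓ q) := by
  obtain ⟨s, rfl⟩ := hp
  obtain ⟨t, rfl⟩ := hq
  exact ⟨.inf s t, rfl⟩

lemma edge_eq : ∀ c : I, ∃ k l : Fin 4, lo (star k) ⊓ lo (star l) = lo {c} := by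
  decide

lemma val_edge (c : I) : Val (lo {c}) := by
  obtain ⟨k, l, h⟩ := edge_eq c
  rw [← h]
  exact Val.inf ⟨.var k, rfl⟩ ⟨.var l, rfl⟩

lemma empty_eq : lo {((0 : Fin 3), false)} ⊓ lo {((0 : Fin 3), true)} = lo ∅ := by
  decide

lemma val_lo (z : Finset I) : Val (lo z) := by
  induction z using Finset.induction_on with
  | empty => rw [← empty_eq]; exact Val.inf (val_edge _) (val_edge _)
  | insert c z _ ih =>
    rw [Finset.insert_eq, ← lo_sup_lo]
    exact Val.sup (val_edge _) ih

lemma erase_eq : ∀ c : I, lo (Finset.univ.erase c) = hi (Finset.univ.erase c) := by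
  decide

lemma val_hi (z : Finset I) : Val (hi z) := by
  have key : ∀ w : Finset I, Val (hi (Finset.univ \ w)) := by
    intro w
    induction w using Finset.induction_on with
    | empty =>
      have : hi (Finset.univ \ ∅) = lo Finset.univ := by decide
      rw [this]; exact val_lo _
    | insert c w _ ih =>
      have h1 : (Finset.univ : Finset I) \ insert c w = (Finset.univ.erase c) ∩ (Finset.univ \ w) := by
        ext x
        simp only [Finset.mem_sdiff, Finset.mem_univ, true_and, Finset.mem_insert,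
          Finset.mem_inter, Finset.mem_erase, not_or, and_true]
      rw [h1, ← hi_inf_hi]
      refine Val.inf ?_ ih
      rw [← erase_eq]
      exact val_lo _
  have := key (Finset.univ \ z)
  rwa [sdiff_sdiff_right_self, Finset.inf_eq_inter, Finset.univ_inter] at this

lemma val_all (p : LL) : Val p := by
  rcases eq_lo_or_hi p with h | h
  · rw [h]; exact val_lo _
  · rw [h]; exact val_hi _

/-- The four-cycle that avoids the matching `j`. -/
def Q (j : Fin 3) : Finset I := Finset.univ.filter fun c => c.1 ≠ j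

/-- The lower element of the critical pair. -/
def uu : LL := lo (Q 0)

/-- The upper element of the critical pair. -/
def vv : LL := hi (Q 0)

lemma step1 : ∀ c : I, ((lo {c} ⊔ lo (Q c.1)) ⊓ hi (Q c.1 ∩ Q 0)) ⊔ lo (Q 0) = vv ∧
    ((lo ∅ ⊔ lo (Q c.1)) ⊓ hi (Q c.1 ∩ Q 0)) ⊔ lo (Q 0) = uu := by
  decide

lemma step2 : ∀ j : Fin 3, (hi (Q j) ⊓ hi (Q j ∩ Q 0)) ⊔ lo (Q 0) = vv ∧
    (lo (Q j) ⊓ hi (Q j ∩ Q 0)) ⊔ lo (Q 0) = uu := by
  decide

lemma exists_Q {z : Finset I} (h1 : U z) (h2 : ¬ D z) : ∃ j, z ⊆ Q j := by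
  by_contra hcon
  push Not at hcon
  apply h2
  refine ⟨h1, ?_⟩
  have h3 : ∀ j, ∃ b, (j, b) ∈ z := by
    intro j
    have := hcon j
    rw [Finset.not_subset] at this
    obtain ⟨⟨k, b⟩, hk, hk'⟩ := this
    simp only [Q, Finset.mem_filter, Finset.mem_univ, true_and, not_not] at hk'
    subst hk'
    exact ⟨b, hk⟩
  obtain ⟨a, ha⟩ := h3 0
  obtain ⟨b, hb⟩ := h3 1
  obtain ⟨c, hc⟩ := h3 2
  obtain ⟨j, hj1, hj2⟩ := h1
  have hj : ∀ b, (j, b) ∈ z := fun b => by cases b <;> assumption
  fin_cases j
  · exact ⟨xor true (xor b c), b, c, hj _, hb, hc, by cases b <;> cases c <;> rfl⟩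
  · exact ⟨a, xor true (xor a c), c, ha, hj _, hc, by cases a <;> cases c <;> rfl⟩
  · exact ⟨a, b, xor true (xor a b), ha, hb, hj _, by cases a <;> cases b <;> rfl⟩

/-- Every proper interval projects onto the critical pair. -/
theorem project {p q : LL} (hpq : p < q) : ∃ g₁ g₂ g₃ g₄ : LL,
    (((p ⊓ g₁) ⊔ g₂) ⊓ g₃) ⊔ g₄ = uu ∧ (((q ⊓ g₁) ⊔ g₂) ⊓ g₃) ⊔ g₄ = vv := by
  by_cases hz : q.z ⊆ p.z
  · -- same graph
    have hz' : p.z = q.z := Finset.Subset.antisymm hpq.le.1 hz
    have hp : p.i = false := by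
      by_contra h
      rw [Bool.not_eq_false] at h
      exact hpq.not_ge ⟨hz, fun _ => h⟩
    have hq : q.i = true := by
      by_contra h
      rw [Bool.not_eq_true] at h
      exact hpq.not_ge ⟨hz, fun h' => by rw [h] at h'; cases h'⟩
    have hU := q.hU hq
    have hD : ¬ D q.z := fun h => by
      rw [← hz'] at h
      rw [p.hD h] at hp; cases hp
    obtain ⟨j, hj⟩ := exists_Q hU hD
    have h1 : p ⊓ hi Finset.univ = p := inf_eq_left.mpr ⟨Finset.subset_univ _, fun _ => by decide⟩
    have h2 : q ⊓ hi Finset.univ = q := inf_eq_left.mpr ⟨Finset.subset_univ _, fun _ => by decide⟩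
    have hQ : ∀ j, ¬ D (Q j) ∧ U (Q j) := by decide
    have h3 : p ⊔ lo (Q j) = lo (Q j) := by
      apply sup_eq_right.mpr
      exact ⟨by rw [hz']; exact hj, fun h => by rw [hp] at h; cases h⟩
    have h4 : q ⊔ lo (Q j) = hi (Q j) := by
      ext1
      · exact Finset.union_eq_right.mpr hj
      · rw [sup_i, hq]
        simp [hi, (hQ j).2]
    refine ⟨hi Finset.univ, lo (Q j), hi (Q j ∩ Q 0), lo (Q 0), ?_, ?_⟩
    · rw [h1, h3]; exact (step2 j).2
    · rw [h2, h4]; exact (step2 j).1
  · obtain ⟨c, hc1, hc2⟩ := Finset.not_subset.mp hz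
    have hc : ∀ c : I, ¬ D {c} ∧ ¬ U {c} := by decide
    have h1 : p ⊓ lo {c} = lo ∅ := by
      ext1
      · rw [inf_z]
        exact Finset.inter_singleton_of_notMem hc2
      · rw [inf_i]
        simp [lo, (hc c).1]
        decide
    have h2 : q ⊓ lo {c} = lo {c} := by
      ext1
      · rw [inf_z]
        exact Finset.inter_singleton_of_mem hc1
      · rw [inf_i]
        simp [lo, (hc c).1]
    refine ⟨lo {c}, lo (Q c.1), hi (Q c.1 ∩ Q 0), lo (Q 0), ?_, ?_⟩
    · rw [h1]; exact (step1 c).2
    · rw [h2]; exact (step1 c).1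

lemma uu_le_vv : uu ≤ vv := ⟨by decide, by decide⟩

lemma uu_ne_vv : uu ≠ vv := by decide

end Q15SymK
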