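import Pool.Agent.Q15.SymLatK

/-! A variety of lattices defined by identities in four variables that is not defined by its
symmetric identities in at most four variables: conclusion. -/

namespace Q15SymK

open Q15Sym

/-- The sublattice of the elements whose graph contains `c'` if it contains `c`. -/
def K (c c' : I) : Sublattice LL where
  carrier := {p | c ∈ p.z → c' ∈ p.z}
  supClosed' := by
    intro p hp q hq h
    simp only [sup_z, Finset.mem_union] at h ⊢
    rcases h with h | h
    · exact Or.inl (hp h)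
    · exact Or.inr (hq h)
  infClosed' := by
    intro p hp q hq h
    simp only [inf_z, Finset.mem_inter] at h ⊢
    exact ⟨hp h.1, hq h.2⟩

lemma mem_K {c c' : I} {p : LL} : p ∈ K c c' ↔ (c ∈ p.z → c' ∈ p.z) := Iff.rfl

/-- The identities in four variables that hold in all `K c c'`. -/
def EE : Set (Σ n : ℕ, LTerm (Fin n) × LTerm (Fin n)) :=
  {e | ∃ t s : LTerm (Fin 4), e = ⟨4, (t, s)⟩ ∧ ∀ c c' : I, c ≠ c' → Holds (K c c') t s}

lemma ev_coe {X : Type} (S : Sublattice LL) (v : X → S) (t : LTerm X) :
    ((t.ev v : S) : LL) = t.ev fun i => (v i : LL) := by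
  induction t with
  | var i => rfl
  | sup s t hs ht => simp only [LTerm.ev, Sublattice.coe_sup, hs, ht]
  | inf s t hs ht => simp only [LTerm.ev, Sublattice.coe_inf, hs, ht]

/-- For each tuple of a sublattice `K c c'` there are two terms that agree at this tuple and have
the values `uu` and `vv` at the generators. -/
lemma exists_pair (c c' : I) (hc : c ≠ c') (κ : Fin 4 → LL) (hκ : ∀ i, κ i ∈ K c c') :
    ∃ a b : LTerm (Fin 4), a.ev κ = b.ev κ ∧ a.ev gen = uu ∧ b.ev gen = vv := by
  choose τ hτ using val_all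
  -- not injective
  have hmem : ∀ t : LTerm (Fin 4), t.ev κ ∈ K c c' := by
    intro t
    have := ev_coe (K c c') (fun i => ⟨κ i, hκ i⟩) t
    rw [← this]
    exact (t.ev fun i => (⟨κ i, hκ i⟩ : K c c')).2
  have hninj : ∃ p q : LL, p ≠ q ∧ (τ p).ev κ = (τ q).ev κ := by
    by_contra hcon
    push Not at hcon
    have hinj : Function.Injective fun p : LL => (τ p).ev κ := by
      intro p q h
      by_contra hne
      exact hcon p q hne h
    have hsurj := Finite.surjective_of_injective hinj
    obtain ⟨p, hp⟩ := hsurj (lo {c})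
    have h1 := hmem (τ p)
    simp only at hp
    rw [hp, mem_K] at h1
    have h2 := h1 (Finset.mem_singleton_self c)
    exact hc (Finset.mem_singleton.mp h2).symm
  obtain ⟨p, q, hpq, heq⟩ := hninj
  have hlt : p ⊓ q < p ⊔ q := inf_lt_sup.mpr hpq
  obtain ⟨g₁, g₂, g₃, g₄, h1, h2⟩ := project hlt
  refine ⟨.sup (.inf (.sup (.inf (.inf (τ p) (τ q)) (τ g₁)) (τ g₂)) (τ g₃)) (τ g₄),
    .sup (.inf (.sup (.inf (.sup (τ p) (τ q)) (τ g₁)) (τ g₂)) (τ g₃)) (τ g₄), ?_, ?_, ?_⟩
  · simp only [LTerm.ev, heq, inf_idem, sup_idem]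
  · simp only [LTerm.ev, hτ]; exact h1
  · simp only [LTerm.ev, hτ]; exact h2

lemma exists_terms (S : Finset (Fin 4 → LL))
    (hS : ∀ κ ∈ S, ∃ c c' : I, c ≠ c' ∧ ∀ i, κ i ∈ K c c') :
    ∃ a b : LTerm (Fin 4), (∀ κ ∈ S, a.ev κ = b.ev κ) ∧ a.ev gen = uu ∧ b.ev gen = vv := by
  classical
  induction S using Finset.induction_on with
  | empty =>
    obtain ⟨a, ha⟩ := val_all uu
    obtain ⟨b, hb⟩ := val_all vv
    exact ⟨a, b, fun κ hκ => absurd hκ (Finset.notMem_empty κ), ha, hb⟩
  | insert κ S _ ih =>
    obtain ⟨A, B, hAB, hA, hB⟩ := ih fun κ' hκ' => hS κ' (Finset.mem_insert_of_mem hκ')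
    obtain ⟨c, c', hc, hκ⟩ := hS κ (Finset.mem_insert_self _ _)
    obtain ⟨a, b, hab, ha, hb⟩ := exists_pair c c' hc κ hκ
    refine ⟨.sup A (.inf a B), .sup A (.inf b B), fun κ' hκ' => ?_, ?_, ?_⟩
    · rcases Finset.mem_insert.mp hκ' with rfl | hκ'
      · simp only [LTerm.ev, hab]
      · simp only [LTerm.ev]
        rw [← hAB κ' hκ', sup_eq_left.mpr inf_le_right, sup_eq_left.mpr inf_le_right]
    · simp only [LTerm.ev, hA, ha, hB]
      rw [inf_eq_left.mpr uu_le_vv, sup_idem]
    · simp only [LTerm.ev, hA, hb, hB]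
      rw [inf_idem, sup_eq_right.mpr uu_le_vv]

lemma not_inVariety : ¬ InVariety EE LL := by
  classical
  intro h
  have : Fintype (Fin 4 → LL) := Fintype.ofFinite _
  obtain ⟨a, b, hab, ha, hb⟩ := exists_terms
    (Finset.univ.filter fun κ => ∃ c c' : I, c ≠ c' ∧ ∀ i, κ i ∈ K c c')
    (fun κ hκ => (Finset.mem_filter.mp hκ).2)
  have hE : (⟨4, (a, b)⟩ : Σ n : ℕ, LTerm (Fin n) × LTerm (Fin n)) ∈ EE := by
    refine ⟨a, b, rfl, fun c c' hc v => ?_⟩
    apply Subtype.ext
    have e1 : ((a.ev v : K c c') : LL) = ((b.ev v : K c c') : LL) := by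
      rw [ev_coe, ev_coe]
      exact hab _ (Finset.mem_filter.mpr ⟨Finset.mem_univ _, c, c', hc, fun i => (v i).2⟩)
    exact e1
  have := h _ hE gen
  simp only [ha, hb] at this
  exact uu_ne_vv this

lemma K_inVariety (c c' : I) (hc : c ≠ c') : InVariety EE (K c c') := by
  rintro e ⟨t, s, rfl, h⟩
  exact h c c' hc

/-- Evaluation in the two-element lattice. -/
lemma mem_ev_z {X : Type} (y : X → LL) (t : LTerm X) (c : I) :
    c ∈ (t.ev y).z ↔ t.ev (fun i => decide (c ∈ (y i).z)) = true := by
  induction t with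
  | var i => simp [LTerm.ev]
  | sup s t hs ht =>
    simp only [LTerm.ev, sup_z, Finset.mem_union, hs, ht]
    cases s.ev (fun i => decide (c ∈ (y i).z)) <;> simp
  | inf s t hs ht =>
    simp only [LTerm.ev, inf_z, Finset.mem_inter, hs, ht]
    cases s.ev (fun i => decide (c ∈ (y i).z)) <;> simp

/-- The embedding of the two-element lattice. -/
def emb (b : Bool) : LL := if b then hi Finset.univ else lo ∅

lemma emb_ev {X : Type} (v : X → Bool) (t : LTerm X) :
    t.ev (fun i => emb (v i)) = emb (t.ev v) := by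
  have h : (∀ a b : Bool, emb a ⊔ emb b = emb (a ⊔ b)) ∧
      (∀ a b : Bool, emb a ⊓ emb b = emb (a ⊓ b)) := by decide
  induction t with
  | var i => rfl
  | sup s t hs ht => simp only [LTerm.ev, hs, ht, h.1]
  | inf s t hs ht => simp only [LTerm.ev, hs, ht, h.2]

lemma bool_inVariety : InVariety EE Bool := by
  rintro e ⟨t, s, rfl, h⟩ v
  have hmem : ∀ b, emb b ∈ K (0, false) (0, true) := by
    intro b
    rw [mem_K]
    revert b
    decide
  have h1 := h (0, false) (0, true) (by decide) fun i => ⟨emb (v i), hmem _⟩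
  have h2 := congrArg (fun x : K (0, false) (0, true) => (x : LL)) h1
  simp only [ev_coe] at h2
  rw [emb_ev, emb_ev] at h2
  have hinj : ∀ a b, emb a = emb b → a = b := by decide
  exact hinj _ _ h2

/-- The value of a symmetric term in the two-element lattice depends on the number of ones. -/
lemma symm_bool {n : ℕ} (t : LTerm (Fin n)) (ht : IsSymmetric.{0} t) (A B : Finset (Fin n))
    (hAB : A.card = B.card) :
    t.ev (fun i => decide (i ∈ A)) = t.ev (fun i => decide (i ∈ B)) := by
  classical
  let e : {x // x ∈ A} ≃ {x // x ∈ B} := Finset.equivOfCardEq hAB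
  let σ : Equiv.Perm (Fin n) := e.extendSubtype
  have h1 : ∀ i, i ∈ A ↔ σ i ∈ B := by
    intro i
    constructor
    · intro h
      exact e.extendSubtype_mem i h
    · intro h
      by_contra hn
      exact e.extendSubtype_not_mem i hn h
  have h2 := ht σ Bool fun i => decide (i ∈ B)
  rw [ev_rename] at h2
  rw [h2]
  congr 1
  funext i
  exact decide_eq_decide.mpr (h1 i)

/-- An antichain of six subsets of a set of at most four elements consists of sets of the same
size. -/
lemma card_eq_of_antichain {n : ℕ} (hn : n ≤ 4) (X : I → Finset (Fin n))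
    (hX : ∀ c c', c ≠ c' → ¬ X c ⊆ X c') (c c' : I) : (X c).card = (X c').card := by
  classical
  have hinj : Function.Injective X := by
    intro c c' h
    by_contra hne
    exact hX c c' hne h.subset
  have hanti : IsAntichain (· ⊆ ·) (SetLike.coe (Finset.univ.image X)) := by
    rintro A hA B hB hAB
    obtain ⟨c, -, rfl⟩ := Finset.mem_image.mp hA
    obtain ⟨c', -, rfl⟩ := Finset.mem_image.mp hB
    exact hX c c' fun h => hAB (by rw [h])
  have hlym := Finset.lubell_yamamoto_meshalkin_inequality_sum_inv_choose (𝕜 := ℚ) hanti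
  rw [Finset.sum_image (fun a _ b _ h => hinj h), Fintype.card_fin] at hlym
  have hle : ∀ c, n.choose (X c).card ≤ 6 := by
    intro c
    have h1 : (X c).card ≤ n := by simpa using Finset.card_le_univ (X c)
    generalize (X c).card = r at h1
    interval_cases n <;> interval_cases r <;> decide
  have hpos : ∀ c, 0 < n.choose (X c).card := fun c =>
    Nat.choose_pos (by simpa using Finset.card_le_univ (X c))
  -- all binomial coefficients are equal to 6
  have h6 : ∀ c, n.choose (X c).card = 6 := by
    intro c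
    by_contra hne
    have h1 : n.choose (X c).card < 6 := lt_of_le_of_ne (hle c) hne
    have h2 : ∑ c, ((n.choose (X c).card : ℚ))⁻¹ > ∑ _c : I, (6 : ℚ)⁻¹ := by
      apply Finset.sum_lt_sum
      · intro i _
        apply inv_anti₀
        · exact_mod_cast hpos i
        · exact_mod_cast hle i
      · refine ⟨c, Finset.mem_univ _, ?_⟩
        apply inv_strictAnti₀
        · exact_mod_cast hpos c
        · exact_mod_cast h1
    rw [Finset.sum_const, Finset.card_univ] at h2
    simp only [Fintype.card_prod, Fintype.card_fin, Fintype.card_bool] at h2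
    norm_num at h2
    linarith
  have key : ∀ r, n.choose r = 6 → r = 2 := by
    intro r hr
    have hrn : r ≤ n := by
      by_contra h
      rw [Nat.choose_eq_zero_of_lt (not_le.mp h)] at hr
      omega
    interval_cases n <;> interval_cases r <;> revert hr <;> decide
  rw [key _ (h6 c), key _ (h6 c')]

lemma holds_symmetric (n : ℕ) (hn : n ≤ 4) (t s : LTerm (Fin n)) (ht : IsSymmetric.{0} t)
    (hs : IsSymmetric.{0} s) (h : ∀ (K : Type) [Lattice K], InVariety EE K → Holds K t s) :
    Holds LL t s := by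
  classical
  intro y
  by_cases hy : ∃ c c' : I, c ≠ c' ∧ ∀ i, y i ∈ K c c'
  · obtain ⟨c, c', hc, hy⟩ := hy
    have h1 := h (K c c') (K_inVariety c c' hc) fun i => ⟨y i, hy i⟩
    have h2 := congrArg (fun x : K c c' => (x : LL)) h1
    simp only [ev_coe] at h2
    exact h2
  · push Not at hy
    let X : I → Finset (Fin n) := fun c => Finset.univ.filter fun i => c ∈ (y i).z
    have hX : ∀ c c', c ≠ c' → ¬ X c ⊆ X c' := by
      intro c c' hc hsub
      obtain ⟨i, hi⟩ := hy c c' hc
      apply hi
      rw [mem_K]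
      intro hci
      have := hsub (Finset.mem_filter.mpr ⟨Finset.mem_univ i, hci⟩)
      exact (Finset.mem_filter.mp this).2
    have hcard := card_eq_of_antichain hn X hX
    have hXe : ∀ c, (fun i => decide (c ∈ (y i).z)) = fun i => decide (i ∈ X c) := by
      intro c
      funext i
      simp [X]
    -- the graph of the value is empty or complete
    have hval : ∀ t : LTerm (Fin n), IsSymmetric.{0} t → (∀ c, c ∉ (t.ev y).z) ∨
        (∀ c, c ∈ (t.ev y).z) := by
      intro t ht
      have h1 : ∀ c c', c ∈ (t.ev y).z → c' ∈ (t.ev y).z := by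
        intro c c' hc
        rw [mem_ev_z, hXe] at hc ⊢
        rw [← hc]
        exact symm_bool t ht _ _ (hcard _ _)
      by_cases h2 : ∃ c, c ∈ (t.ev y).z
      · obtain ⟨c, hc⟩ := h2
        exact Or.inr fun c' => h1 c c' hc
      · push Not at h2
        exact Or.inl h2
    have hz : (t.ev y).z = (s.ev y).z := by
      ext c
      rw [mem_ev_z, mem_ev_z, h Bool bool_inVariety]
    have hi : ∀ p : LL, ((∀ c, c ∉ p.z) → p.i = false) ∧ ((∀ c, c ∈ p.z) → p.i = true) := by
      intro p
      constructor
      · intro hp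
        by_contra hcon
        rw [Bool.not_eq_false] at hcon
        obtain ⟨j, hj, -⟩ := p.hU hcon
        exact hp _ hj
      · intro hp
        apply p.hD
        exact ⟨⟨0, hp _, hp _⟩, true, false, false, hp _, hp _, hp _, rfl⟩
    apply LL.ext hz
    rcases hval t ht with h1 | h1
    · rw [(hi _).1 h1, (hi _).1 (by rw [← hz]; exact h1)]
    · rw [(hi _).2 h1, (hi _).2 (by rw [← hz]; exact h1)]

end Q15SymK
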