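import Mathlib

/-! The groups `G c = ℤ ⋉ N c`, where `N c` is a central extension of `ℤ^(ℤ)` by `ℤ`
with commutator form determined by `c : ℤ → ℤ`. -/

namespace Q15UnivRO

/-- The bilinear form `β(a,b) = Σ_{i,j} a_i b_j c(j-i)`. -/
noncomputable def bet (c : ℤ → ℤ) (a b : ℤ →₀ ℤ) : ℤ :=
  a.sum fun i r => b.sum fun j q => r * q * c (j - i)

/-- Shift by `l`. -/
noncomputable def sh (l : ℤ) (a : ℤ →₀ ℤ) : ℤ →₀ ℤ := a.mapDomain (fun i => i + l)

lemma bet_add_left (c : ℤ → ℤ) (a a' b : ℤ →₀ ℤ) :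
    bet c (a + a') b = bet c a b + bet c a' b := by
  unfold bet
  rw [Finsupp.sum_add_index']
  · intro i; simp
  · intro i r r'
    rw [← Finsupp.sum_add]
    refine Finsupp.sum_congr fun j _ => by ring

lemma bet_add_right (c : ℤ → ℤ) (a b b' : ℤ →₀ ℤ) :
    bet c a (b + b') = bet c a b + bet c a b' := by
  unfold bet
  rw [← Finsupp.sum_add]
  refine Finsupp.sum_congr fun i _ => ?_
  rw [Finsupp.sum_add_index']
  · intro j; simp
  · intro j q q'; ring

lemma bet_zero_left (c : ℤ → ℤ) (b : ℤ →₀ ℤ) : bet c 0 b = 0 := by simp [bet]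

lemma bet_zero_right (c : ℤ → ℤ) (a : ℤ →₀ ℤ) : bet c a 0 = 0 := by simp [bet]

lemma bet_neg_left (c : ℤ → ℤ) (a b : ℤ →₀ ℤ) : bet c (-a) b = - bet c a b := by
  have := bet_add_left c a (-a) b
  rw [add_neg_cancel, bet_zero_left] at this
  linarith

lemma bet_neg_right (c : ℤ → ℤ) (a b : ℤ →₀ ℤ) : bet c a (-b) = - bet c a b := by
  have := bet_add_right c a b (-b)
  rw [add_neg_cancel, bet_zero_right] at this
  linarith

lemma bet_sh (c : ℤ → ℤ) (l : ℤ) (a b : ℤ →₀ ℤ) : bet c (sh l a) (sh l b) = bet c a b := by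
  unfold bet sh
  rw [Finsupp.sum_mapDomain_index]
  · refine Finsupp.sum_congr fun i _ => ?_
    rw [Finsupp.sum_mapDomain_index]
    · refine Finsupp.sum_congr fun j _ => ?_
      congr 2
      ring
    · intro j; simp
    · intro j q q'; ring
  · intro i; simp
  · intro i r r'
    rw [← Finsupp.sum_add]
    refine Finsupp.sum_congr fun j _ => by ring

lemma bet_single (c : ℤ → ℤ) (i j : ℤ) :
    bet c (Finsupp.single i 1) (Finsupp.single j 1) = c (j - i) := by
  simp [bet]

lemma sh_add (l : ℤ) (a b : ℤ →₀ ℤ) : sh l (a + b) = sh l a + sh l b :=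
  Finsupp.mapDomain_add

lemma sh_zero_right (l : ℤ) : sh l 0 = 0 := Finsupp.mapDomain_zero

lemma sh_neg (l : ℤ) (a : ℤ →₀ ℤ) : sh l (-a) = - sh l a := by
  have := sh_add l a (-a)
  rw [add_neg_cancel, sh_zero_right] at this
  exact (neg_eq_of_add_eq_zero_right this.symm).symm

lemma sh_sh (l m : ℤ) (a : ℤ →₀ ℤ) : sh l (sh m a) = sh (m + l) a := by
  unfold sh
  rw [← Finsupp.mapDomain_comp]
  congr 1
  funext i
  simp [add_assoc]

lemma sh_zero (a : ℤ →₀ ℤ) : sh 0 a = a := by
  unfold sh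
  simp only [add_zero]
  exact Finsupp.mapDomain_id

lemma sh_apply (l i : ℤ) (a : ℤ →₀ ℤ) : sh l a i = a (i - l) := by
  unfold sh
  have h := Finsupp.mapDomain_apply (f := fun i : ℤ => i + l) (add_left_injective l) a (i - l)
  simpa using h

lemma sh_single (l i : ℤ) : sh l (Finsupp.single i 1) = Finsupp.single (i + l) 1 := by
  unfold sh; rw [Finsupp.mapDomain_single]

/-- The group. -/
@[ext]
structure G (c : ℤ → ℤ) : Type where
  k : ℤ
  a : ℤ →₀ ℤ
  x : ℤ

variable {c : ℤ → ℤ}

noncomputable instance : Mul (G c) :=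
  ⟨fun g h => ⟨g.k + h.k, sh h.k g.a + h.a, g.x + h.x + bet c (sh h.k g.a) h.a⟩⟩

noncomputable instance : One (G c) := ⟨⟨0, 0, 0⟩⟩

noncomputable instance : Inv (G c) :=
  ⟨fun g => ⟨-g.k, -sh (-g.k) g.a, -g.x + bet c g.a g.a⟩⟩

@[simp] lemma mul_k (g h : G c) : (g * h).k = g.k + h.k := rfl
@[simp] lemma mul_a (g h : G c) : (g * h).a = sh h.k g.a + h.a := rfl
@[simp] lemma mul_x (g h : G c) : (g * h).x = g.x + h.x + bet c (sh h.k g.a) h.a := rfl
@[simp] lemma one_k : (1 : G c).k = 0 := rfl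
@[simp] lemma one_a : (1 : G c).a = 0 := rfl
@[simp] lemma one_x : (1 : G c).x = 0 := rfl
@[simp] lemma inv_k (g : G c) : (g⁻¹).k = -g.k := rfl
@[simp] lemma inv_a (g : G c) : (g⁻¹).a = -sh (-g.k) g.a := rfl
@[simp] lemma inv_x (g : G c) : (g⁻¹).x = -g.x + bet c g.a g.a := rfl

noncomputable instance : Group (G c) := Group.ofLeftAxioms
  (by
    intro g h m
    ext
    · simp [add_assoc]
    · simp [sh_add, sh_sh, add_assoc]
    · simp only [mul_x, mul_k, mul_a, sh_add, sh_sh, bet_add_left, bet_add_right]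
      have := bet_sh c m.k (sh h.k g.a) h.a
      rw [sh_sh] at this
      rw [← this]
      ring)
  (by
    intro g
    ext
    · simp
    · simp [sh_zero_right]
    · simp [sh_zero_right, bet_zero_left])
  (by
    intro g
    ext
    · simp
    · simp [sh_neg, sh_sh, sh_zero]
    · simp [sh_neg, sh_sh, sh_zero, bet_neg_left])

/-- The key for the ordering. -/
noncomputable def key (g : G c) : ℤ ×ₗ (Lex (ℤ →₀ ℤ) ×ₗ ℤ) :=
  toLex (g.k, toLex (toLex g.a, g.x))

lemma key_inj : Function.Injective (key (c := c)) := by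
  intro g h e
  have e1 := toLex.injective e
  have e2 := Prod.mk.inj e1
  have e3 := Prod.mk.inj (toLex.injective e2.2)
  ext1
  · exact e2.1
  · exact toLex.injective e3.1
  · exact e3.2

noncomputable instance : LinearOrder (G c) := LinearOrder.lift' key key_inj

lemma le_def (g h : G c) : g ≤ h ↔ key g ≤ key h := Iff.rfl

lemma lt_iff (g h : G c) : g < h ↔ key g < key h := by
  rw [lt_iff_le_not_ge, lt_iff_le_not_ge]; rfl

lemma key_lt_iff (g h : G c) : key g < key h ↔
    g.k < h.k ∨ g.k = h.k ∧ (toLex g.a < toLex h.a ∨ g.a = h.a ∧ g.x < h.x) := by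
  unfold key
  rw [Prod.Lex.toLex_lt_toLex, Prod.Lex.toLex_lt_toLex]
  simp only [EmbeddingLike.apply_eq_iff_eq]

lemma lex_sh (l : ℤ) (a b : ℤ →₀ ℤ) (h : toLex a < toLex b) :
    toLex (sh l a) < toLex (sh l b) := by
  rw [Finsupp.Lex.lt_iff] at h ⊢
  obtain ⟨i, hi, hlt⟩ := h
  refine ⟨i + l, ?_, ?_⟩
  · intro j hj
    simp only [ofLex_toLex, sh_apply] at *
    exact hi (j - l) (by linarith)
  · simp only [ofLex_toLex, sh_apply] at *
    simpa using hlt

lemma mul_lt_right (g h m : G c) (hgh : g < h) : g * m < h * m := by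
  rw [lt_iff, key_lt_iff] at *
  rcases hgh with hk | ⟨hk, ha | ⟨ha, hx⟩⟩
  · left; simpa using hk
  · right
    refine ⟨by simpa using hk, Or.inl ?_⟩
    have := lex_sh m.k _ _ ha
    simp only [mul_a, toLex_add]
    exact add_lt_add_left this _
  · right
    refine ⟨by simpa using hk, Or.inr ⟨by simp [ha], ?_⟩⟩
    simp only [mul_x, ha]
    linarith

lemma mul_lt_left (g h m : G c) (hgh : g < h) : m * g < m * h := by
  rw [lt_iff, key_lt_iff] at *
  rcases hgh with hk | ⟨hk, ha | ⟨ha, hx⟩⟩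
  · left; simpa using hk
  · right
    refine ⟨by simpa using hk, Or.inl ?_⟩
    simp only [mul_a, toLex_add, hk]
    exact add_lt_add_right ha _
  · right
    refine ⟨by simpa using hk, Or.inr ⟨by simp [ha, hk], ?_⟩⟩
    simp only [mul_x, ha, hk]
    linarith

/-- `t` -/
noncomputable def t (c : ℤ → ℤ) : G c := ⟨1, 0, 0⟩

/-- `a_i` -/
noncomputable def e (c : ℤ → ℤ) (i : ℤ) : G c := ⟨0, Finsupp.single i 1, 0⟩

/-- the central element -/
noncomputable def z (c : ℤ → ℤ) : G c := ⟨0, 0, 1⟩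

lemma t_pow (n : ℕ) : (t c) ^ n = ⟨n, 0, 0⟩ := by
  induction n with
  | zero => rfl
  | succ n ih =>
    rw [pow_succ, ih]
    ext <;> simp [t, sh_zero_right, bet_zero_left]

lemma t_zpow (n : ℤ) : (t c) ^ n = ⟨n, 0, 0⟩ := by
  obtain ⟨m, rfl | rfl⟩ := n.eq_nat_or_neg
  · rw [zpow_natCast, t_pow]
  · rw [zpow_neg, zpow_natCast, t_pow]
    ext <;> simp [sh_zero_right, bet_zero_left]

lemma z_pow (n : ℕ) : (z c) ^ n = ⟨0, 0, n⟩ := by
  induction n with
  | zero => rfl
  | succ n ih =>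
    rw [pow_succ, ih]
    ext <;> simp [z, sh_zero_right, bet_zero_left]

lemma z_zpow (n : ℤ) : (z c) ^ n = ⟨0, 0, n⟩ := by
  obtain ⟨m, rfl | rfl⟩ := n.eq_nat_or_neg
  · rw [zpow_natCast, z_pow]
  · rw [zpow_neg, zpow_natCast, z_pow]
    ext <;> simp [sh_zero_right, bet_zero_left]

lemma conj_e (n : ℤ) : (t c) ^ (-n) * e c 0 * (t c) ^ n = e c n := by
  rw [t_zpow, t_zpow]
  ext
  · simp [e]
  · simp [e, sh_zero_right, sh_single]
  · simp [e, sh_zero_right, bet_zero_left, bet_zero_right]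

lemma e_mul_e (i j : ℤ) : e c i * e c j =
    ⟨0, Finsupp.single i 1 + Finsupp.single j 1, c (j - i)⟩ := by
  ext
  · simp [e]
  · simp [e, sh_zero]
  · simp [e, sh_zero, bet_single]

lemma comm_iff (n : ℤ) : e c 0 * e c n = e c n * e c 0 ↔ c n = c (-n) := by
  rw [e_mul_e, e_mul_e]
  constructor
  · intro h
    have := congrArg G.x h
    simpa using this
  · intro h
    ext
    · rfl
    · simp [add_comm]
    · simpa using h

/-- The relation on words in `t` and `a_0` expressing that `a_0` and `a_n` commute. -/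
def Rel {H : Type*} [Group H] (u v : H) (n : ℤ) : Prop :=
  v * (u ^ (-n) * v * u ^ n) = (u ^ (-n) * v * u ^ n) * v

lemma rel_iff (n : ℤ) : Rel (t c) (e c 0) n ↔ c n = c (-n) := by
  unfold Rel
  rw [conj_e]
  exact comm_iff n

lemma rel_map {H K : Type*} [Group H] [Group K] (f : H →* K) (hf : Function.Injective f)
    (u v : H) (n : ℤ) : Rel (f u) (f v) n ↔ Rel u v n := by
  unfold Rel
  rw [← map_zpow, ← map_zpow, ← map_mul, ← map_mul, ← map_mul, ← map_mul]
  exact hf.eq_iff

lemma closure_eq_top (hc : c 1 = 1) (hc' : c (-1) = 0) :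
    Subgroup.closure {t c, e c 0} = ⊤ := by
  set H := Subgroup.closure {t c, e c 0} with hH
  have ht : t c ∈ H := Subgroup.subset_closure (by simp)
  have he0 : e c 0 ∈ H := Subgroup.subset_closure (by simp)
  have he : ∀ i, e c i ∈ H := by
    intro i
    rw [← conj_e]
    exact H.mul_mem (H.mul_mem (H.zpow_mem ht _) he0) (H.zpow_mem ht _)
  have hz : z c ∈ H := by
    have : z c = (e c 1 * e c 0)⁻¹ * (e c 0 * e c 1) := by
      rw [eq_inv_mul_iff_mul_eq, e_mul_e, e_mul_e]
      ext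
      · simp [z]
      · simp [z, sh_zero, add_comm]
      · simp [z, bet_zero_right, hc, hc']
    rw [this]
    exact H.mul_mem (H.inv_mem (H.mul_mem (he 1) (he 0))) (H.mul_mem (he 0) (he 1))
  have h1 : ∀ a : ℤ →₀ ℤ, ∃ x, (⟨0, a, x⟩ : G c) ∈ H := by
    intro a
    induction a using Finsupp.induction_linear with
    | zero => exact ⟨0, H.one_mem⟩
    | add a b iha ihb =>
      obtain ⟨x, hx⟩ := iha
      obtain ⟨y, hy⟩ := ihb
      refine ⟨x + y + bet c a b, ?_⟩
      have := H.mul_mem hx hy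
      convert this using 1
      ext <;> simp [sh_zero]
    | single i r =>
      have key : ∀ n : ℕ, ∃ x, (e c i) ^ n = ⟨0, Finsupp.single i (n : ℤ), x⟩ := by
        intro n
        induction n with
        | zero => exact ⟨0, by simp; rfl⟩
        | succ n ih =>
          obtain ⟨x, hx⟩ := ih
          refine ⟨x + bet c (Finsupp.single i (n : ℤ)) (Finsupp.single i 1), ?_⟩
          rw [pow_succ, hx]
          ext <;> simp [e, sh_zero]
      obtain ⟨m, rfl | rfl⟩ := r.eq_nat_or_neg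
      · obtain ⟨x, hx⟩ := key m
        exact ⟨x, hx ▸ H.pow_mem (he i) m⟩
      · obtain ⟨x, hx⟩ := key m
        refine ⟨((⟨0, Finsupp.single i (m : ℤ), x⟩ : G c)⁻¹).x, ?_⟩
        have := H.inv_mem (H.pow_mem (he i) m)
        rw [hx] at this
        convert this using 1
        ext
        · simp
        · simp [sh_zero]
        · rfl
  have h2 : ∀ (a : ℤ →₀ ℤ) (x : ℤ), (⟨0, a, x⟩ : G c) ∈ H := by
    intro a x
    obtain ⟨y, hy⟩ := h1 a
    have : (⟨0, a, x⟩ : G c) = ⟨0, a, y⟩ * (z c) ^ (x - y) := by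
      rw [z_zpow]
      ext <;> simp [sh_zero, bet_zero_right]
    rw [this]
    exact H.mul_mem hy (H.zpow_mem hz _)
  rw [eq_top_iff]
  rintro ⟨k, a, x⟩ -
  have : (⟨k, a, x⟩ : G c) = (t c) ^ k * ⟨0, a, x⟩ := by
    rw [t_zpow]
    ext <;> simp [sh_zero_right, bet_zero_left]
  rw [this]
  exact H.mul_mem (H.zpow_mem ht _) (h2 a x)

/-- projection to `k` -/
noncomputable def projK (c : ℤ → ℤ) : G c →* Multiplicative ℤ where
  toFun g := Multiplicative.ofAdd g.k
  map_one' := rfl
  map_mul' _ _ := rfl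

lemma commutator_le_ker : commutator (G c) ≤ (projK c).ker :=
  Abelianization.commutator_subset_ker _

lemma k_of_mem (g : G c) (h : g ∈ commutator (G c)) : g.k = 0 := by
  have := commutator_le_ker h
  rw [MonoidHom.mem_ker] at this
  exact this

lemma mem_center_of (g : G c) (hk : g.k = 0) (ha : g.a = 0) : g ∈ Subgroup.center (G c) := by
  rw [Subgroup.mem_center_iff]
  intro h
  ext
  · simp [hk]
  · simp [hk, ha, sh_zero, sh_zero_right]
  · simp [hk, ha, sh_zero, sh_zero_right, bet_zero_left, bet_zero_right, add_comm]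

lemma centre_by_metabelian :
    ⁅commutator (G c), commutator (G c)⁆ ≤ Subgroup.center (G c) := by
  rw [Subgroup.commutator_le]
  intro g hg h hh
  have h1 := k_of_mem g hg
  have h2 := k_of_mem h hh
  apply mem_center_of
  · simp [commutatorElement_def, h1, h2]
  · simp [commutatorElement_def, h1, h2, sh_zero]

noncomputable instance : Countable (G c) := by
  have : Function.Injective (fun g : G c => (g.k, g.a, g.x)) := by
    intro g h e
    simp only [Prod.mk.injEq] at e
    ext1 <;> tauto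
  exact this.countable

open Classical in
/-- the form attached to a set `S` of naturals -/
noncomputable def cS (S : Set ℕ) (n : ℤ) : ℤ :=
  if n = 1 then 1 else if ∃ m ∈ S, n = (m : ℤ) + 2 then 1 else 0

lemma cS_one (S : Set ℕ) : cS S 1 = 1 := by simp [cS]

lemma cS_neg (S : Set ℕ) (n : ℤ) (hn : n ≤ 0) : cS S n = 0 := by
  unfold cS
  rw [if_neg (by omega), if_neg]
  rintro ⟨m, -, hm⟩
  omega

lemma cS_add_two (S : Set ℕ) (m : ℕ) : cS S ((m : ℤ) + 2) ≠ 0 ↔ m ∈ S := by
  unfold cS
  rw [if_neg (by omega)]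
  constructor
  · intro h
    by_contra hm
    apply h
    rw [if_neg]
    rintro ⟨m', hm', e⟩
    have : m = m' := by omega
    exact hm (this ▸ hm')
  · intro h
    rw [if_pos ⟨m, h, rfl⟩]
    exact one_ne_zero

theorem exists_not_embed (U : Type*) [Group U] [Countable U] :
    ∃ S : Set ℕ, ¬ ∃ f : G (cS S) →* U, Function.Injective f := by
  by_contra hcon
  push Not at hcon
  choose f hf using hcon
  have hinj : Function.Injective (fun S : Set ℕ => (f S (t (cS S)), f S (e (cS S) 0))) := by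
    intro S S' hSS
    simp only [Prod.mk.injEq] at hSS
    obtain ⟨h1, h2⟩ := hSS
    have key : ∀ n : ℤ, (cS S n = cS S (-n) ↔ cS S' n = cS S' (-n)) := by
      intro n
      rw [← rel_iff, ← rel_iff, ← rel_map (f S) (hf S), ← rel_map (f S') (hf S'), h1, h2]
    ext m
    have := key ((m : ℤ) + 2)
    rw [cS_neg S (-((m : ℤ) + 2)) (by omega), cS_neg S' (-((m : ℤ) + 2)) (by omega)] at this
    rw [← cS_add_two, ← cS_add_two]
    exact not_congr this
  have : Countable (Set ℕ) := hinj.countable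
  exact Function.cantor_injective (fun S : Set ℕ => (Encodable.ofCountable (Set ℕ)).encode S)
    (@Encodable.encode_injective _ (Encodable.ofCountable (Set ℕ)))

end Q15UnivRO
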