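import Mathlib
import Pool.Agent.Q15.LatTerm

/-! An identity that holds in all finite partition lattices holds in all lattices. -/

namespace Q15Lat

/-- the dual term -/
def LTerm.dual : LTerm → LTerm
  | .var n => .var n
  | .sup s t => .inf s.dual t.dual
  | .inf s t => .sup s.dual t.dual

lemma ev_dual {L : Type*} [Lattice L] (v : ℕ → L) (t : LTerm) :
    t.dual.ev (fun n => OrderDual.toDual (v n)) = OrderDual.toDual (t.ev v) := by
  induction t with
  | var n => rfl
  | sup s t ihs iht => simp only [LTerm.dual, LTerm.ev, ihs, iht]; rfl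
  | inf s t ihs iht => simp only [LTerm.dual, LTerm.ev, ihs, iht]; rfl

lemma dual_dual (t : LTerm) : t.dual.dual = t := by
  induction t with
  | var n => rfl
  | sup s t ihs iht => simp only [LTerm.dual, ihs, iht]
  | inf s t ihs iht => simp only [LTerm.dual, ihs, iht]

lemma ev_map {L M : Type*} [Lattice L] [Lattice M] (f : L → M)
    (hs : ∀ a b, f (a ⊔ b) = f a ⊔ f b) (hi : ∀ a b, f (a ⊓ b) = f a ⊓ f b) (v : ℕ → L)
    (t : LTerm) : t.ev (fun n => f (v n)) = f (t.ev v) := by
  induction t with
  | var n => rfl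
  | sup s t ihs iht => simp only [LTerm.ev, ihs, iht, hs]
  | inf s t ihs iht => simp only [LTerm.ev, ihs, iht, hi]

lemma Holds.of_embedding {L M : Type*} [Lattice L] [Lattice M] (f : L → M)
    (hf : Function.Injective f)
    (hs : ∀ a b, f (a ⊔ b) = f a ⊔ f b) (hi : ∀ a b, f (a ⊓ b) = f a ⊓ f b) {p q : LTerm}
    (h : Holds M p q) : Holds L p q := by
  intro v
  apply hf
  rw [← ev_map f hs hi, ← ev_map f hs hi]
  exact h _

lemma Holds.dual {L : Type*} [Lattice L] {p q : LTerm} (h : Holds L p q) :
    Holds Lᵒᵈ p.dual q.dual := by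
  intro v
  have h1 := ev_dual (fun n => OrderDual.ofDual (v n)) p
  have h2 := ev_dual (fun n => OrderDual.ofDual (v n)) q
  simp only [OrderDual.toDual_ofDual] at h1 h2
  rw [h1, h2, h]

/-- A weak distance on `A` with values in the lattice `L`. -/
structure WM (A : Type*) (L : Type*) [Lattice L] [OrderBot L] where
  δ : A → A → L
  self : ∀ a, δ a a = ⊥
  symm : ∀ a b, δ a b = δ b a
  tri : ∀ a b c, δ a c ≤ δ a b ⊔ δ b c

section
variable {L : Type*} [Lattice L] [OrderBot L]

/-- the equivalence relation attached to `x` -/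
def WM.rel {A : Type*} (w : WM A L) (x : L) : Setoid A where
  r a b := w.δ a b ≤ x
  iseqv := ⟨fun a => by rw [w.self]; exact bot_le, fun {a b} h => by rw [w.symm]; exact h,
    fun {a b c} h1 h2 => (w.tri a b c).trans (sup_le h1 h2)⟩

/-- the evaluation of a term in the lattice of equivalence relations -/
def WM.ev {A : Type*} (w : WM A L) (v : ℕ → L) (t : LTerm) : Setoid A :=
  t.ev fun n => w.rel (v n)

lemma sup_rel {A : Type*} (r s : Setoid A) (a b : A) :
    (r ⊔ s) a b ↔ Relation.EqvGen (fun a b => r a b ∨ s a b) a b := by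
  rw [Setoid.sup_eq_eqvGen]
  rfl

lemma ev_le {A : Type*} (w : WM A L) (v : ℕ → L) (t : LTerm) :
    w.ev v t ≤ w.rel (t.ev v) := by
  induction t with
  | var n => exact le_rfl
  | sup s t ihs iht =>
    refine sup_le (ihs.trans ?_) (iht.trans ?_)
    · intro a b h; exact le_trans h le_sup_left
    · intro a b h; exact le_trans h le_sup_right
  | inf s t ihs iht =>
    intro a b h
    exact le_inf (ihs h.1) (iht h.2)

lemma persist {A B : Type*} (w : WM A L) (w' : WM B L) (f : A → B)
    (hf : ∀ a b, w'.δ (f a) (f b) = w.δ a b) (v : ℕ → L) (t : LTerm) (a b : A)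
    (h : w.ev v t a b) : w'.ev v t (f a) (f b) := by
  induction t generalizing a b with
  | var n =>
    change w'.δ (f a) (f b) ≤ v n
    rw [hf]
    exact h
  | sup s t ihs iht =>
    have h' : (w.ev v s ⊔ w.ev v t) a b := h
    rw [sup_rel] at h'
    change (w'.ev v s ⊔ w'.ev v t) (f a) (f b)
    rw [sup_rel]
    induction h' with
    | rel a b hab =>
      exact .rel _ _ (hab.imp (ihs _ _) (iht _ _))
    | refl a => exact .refl _
    | symm a b _ ih => exact .symm _ _ (ih (by
        change (w.ev v s ⊔ w.ev v t) a b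
        rw [sup_rel]; assumption))
    | trans a b c _ _ ih1 ih2 => exact .trans _ _ _ (ih1 (by
        change (w.ev v s ⊔ w.ev v t) a b
        rw [sup_rel]; assumption)) (ih2 (by
        change (w.ev v s ⊔ w.ev v t) b c
        rw [sup_rel]; assumption))
  | inf s t ihs iht =>
    exact ⟨ihs _ _ h.1, iht _ _ h.2⟩

/-- distances between the new points -/
def newD (x y : L) : Fin 3 → Fin 3 → L
  | 0, 0 => ⊥
  | 1, 1 => ⊥
  | 2, 2 => ⊥
  | 0, 1 => y
  | 1, 0 => y
  | 1, 2 => x
  | 2, 1 => x
  | 0, 2 => x ⊔ y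
  | 2, 0 => x ⊔ y

/-- lengths -/
def newLen (x y : L) : Fin 3 → L
  | 0 => x
  | 1 => x ⊔ y
  | 2 => y

/-- anchors -/
def anc {A : Type*} (a b : A) : Fin 3 → A
  | 0 => a
  | 1 => a
  | 2 => b

/-- The extension of a weak distance by three points. -/
def WM.ext {A : Type*} (w : WM A L) (a b : A) (x y : L) (h : w.δ a b ≤ x ⊔ y) :
    WM (A ⊕ Fin 3) L where
  δ p q := match p, q with
    | .inl c, .inl c' => w.δ c c'
    | .inl c, .inr k => w.δ c (anc a b k) ⊔ newLen x y k
    | .inr k, .inl c => w.δ c (anc a b k) ⊔ newLen x y k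
    | .inr k, .inr l => newD x y k l
  self p := by
    rcases p with c | k
    · exact w.self c
    · fin_cases k <;> rfl
  symm p q := by
    rcases p with c | k <;> rcases q with c' | l
    · exact w.symm _ _
    · rfl
    · rfl
    · fin_cases k <;> fin_cases l <;> rfl
  tri p q r := by
    have h' : w.δ b a ≤ x ⊔ y := by rw [w.symm]; exact h
    have key1 : ∀ c, w.δ c a ≤ w.δ c b ⊔ (x ⊔ y) := fun c =>
      (w.tri c b a).trans (sup_le le_sup_left (h'.trans le_sup_right))
    have key2 : ∀ c, w.δ c b ≤ w.δ c a ⊔ (x ⊔ y) := fun c =>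
      (w.tri c a b).trans (sup_le le_sup_left (h.trans le_sup_right))
    have lx : ∀ z, x ≤ z ⊔ (x ⊔ y) := fun z => le_sup_left.trans le_sup_right
    have ly : ∀ z, y ≤ z ⊔ (x ⊔ y) := fun z => le_sup_right.trans le_sup_right
    rcases p with c | k <;> rcases q with c' | l <;> rcases r with c'' | m
    · exact w.tri _ _ _
    · show w.δ c (anc a b m) ⊔ newLen x y m ≤ w.δ c c' ⊔ (w.δ c' (anc a b m) ⊔ newLen x y m)
      rw [← sup_assoc]
      exact sup_le_sup_right (w.tri _ _ _) _
    · show w.δ c c'' ≤ (w.δ c (anc a b l) ⊔ newLen x y l) ⊔ (w.δ c'' (anc a b l) ⊔ newLen x y l)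
      refine (w.tri c (anc a b l) c'').trans (sup_le (le_sup_left.trans le_sup_left) ?_)
      rw [w.symm]
      exact le_sup_left.trans le_sup_right
    · show w.δ c (anc a b m) ⊔ newLen x y m ≤
        (w.δ c (anc a b l) ⊔ newLen x y l) ⊔ newD x y l m
      fin_cases l <;> fin_cases m <;>
        simp only [anc, newLen, newD, Fin.zero_eta, Fin.mk_one, Fin.reduceFinMk, sup_bot_eq,
          le_refl]
      · rw [sup_assoc]
      · rw [sup_assoc]
        refine sup_le ((key2 c).trans ?_) ?_
        · refine sup_le le_sup_left ?_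
          exact le_sup_right.trans le_sup_right
        · exact le_sup_right.trans (le_sup_right.trans le_sup_right)
      · refine sup_le (le_sup_left.trans le_sup_left) ?_
        exact (le_sup_left.trans le_sup_right).trans le_sup_left
      · refine sup_le ?_ ?_
        · exact (key2 c).trans le_sup_left
        · exact (ly _).trans le_sup_left
      · refine sup_le ?_ ?_
        · refine (key1 c).trans (sup_le (le_sup_left.trans le_sup_left) le_sup_right)
        · exact le_sup_left.trans le_sup_right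
      · refine sup_le ?_ ?_
        · refine (key1 c).trans (sup_le (le_sup_left.trans le_sup_left) (sup_le le_sup_right ?_))
          exact le_sup_right.trans le_sup_left
        · exact sup_le le_sup_right (le_sup_right.trans le_sup_left)
    · show w.δ c'' (anc a b k) ⊔ newLen x y k ≤
        (w.δ c' (anc a b k) ⊔ newLen x y k) ⊔ w.δ c' c''
      refine sup_le ((w.tri c'' c' _).trans (sup_le ?_ ?_)) ?_
      · rw [w.symm]; exact le_sup_right
      · exact le_sup_left.trans le_sup_left
      · exact le_sup_right.trans le_sup_left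
    · show newD x y k m ≤
        (w.δ c' (anc a b k) ⊔ newLen x y k) ⊔ (w.δ c' (anc a b m) ⊔ newLen x y m)
      have e : newD x y k m ≤ newLen x y k ⊔ newLen x y m := by
        fin_cases k <;> fin_cases m <;>
          simp [newLen, newD]
      exact e.trans (sup_le (le_sup_right.trans le_sup_left) (le_sup_right.trans le_sup_right))
    · show w.δ c'' (anc a b k) ⊔ newLen x y k ≤
        newD x y k l ⊔ (w.δ c'' (anc a b l) ⊔ newLen x y l)
      fin_cases k <;> fin_cases l <;>
        simp only [anc, newLen, newD, Fin.zero_eta, Fin.mk_one, Fin.reduceFinMk, bot_sup_eq,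
          le_refl]
      · refine sup_le (le_sup_left.trans le_sup_right) ?_
        exact (lx _).trans le_sup_right
      · refine sup_le ((key1 c'').trans ?_) ?_
        · refine sup_le (le_sup_left.trans le_sup_right) le_sup_left
        · exact le_sup_left.trans le_sup_left
      · refine sup_le (le_sup_left.trans le_sup_right) (sup_le ?_ le_sup_left)
        exact le_sup_right.trans le_sup_right
      · refine sup_le ((key1 c'').trans ?_) ?_
        · refine sup_le (le_sup_left.trans le_sup_right) (sup_le le_sup_left ?_)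
          exact le_sup_right.trans le_sup_right
        · exact sup_le le_sup_left (le_sup_right.trans le_sup_right)
      · refine sup_le ((key2 c'').trans ?_) ?_
        · refine sup_le (le_sup_left.trans le_sup_right) le_sup_left
        · exact le_sup_right.trans le_sup_left
      · refine sup_le ((key2 c'').trans le_sup_right) ?_
        exact (ly _).trans le_sup_right
    · show newD x y k m ≤ newD x y k l ⊔ newD x y l m
      fin_cases k <;> fin_cases l <;> fin_cases m <;>
        simp [newD]

lemma exists_ext (v : ℕ → L) (t : LTerm) : ∀ (A : Type) [Finite A] (w : WM A L) (a b : A),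
    w.δ a b ≤ t.ev v → ∃ (B : Type) (_ : Finite B) (w' : WM B L) (f : A → B),
      (∀ a b, w'.δ (f a) (f b) = w.δ a b) ∧ w'.ev v t (f a) (f b) := by
  induction t with
  | var n => exact fun A _ w a b h => ⟨A, inferInstance, w, id, fun _ _ => rfl, h⟩
  | inf s t ihs iht =>
    intro A _ w a b h
    obtain ⟨B, _, w1, f, hf, h1⟩ := ihs A w a b (h.trans inf_le_left)
    obtain ⟨B', _, w2, f', hf', h2⟩ := iht B w1 (f a) (f b) (by
      rw [hf]; exact h.trans inf_le_right)
    refine ⟨B', inferInstance, w2, f' ∘ f, fun a b => by simp [hf', hf], ?_, ?_⟩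
    · exact persist w1 w2 f' hf' v s _ _ h1
    · exact h2
  | sup s t ihs iht =>
    intro A _ w a b h
    let w0 := w.ext a b _ _ h
    let f0 : A → A ⊕ Fin 3 := Sum.inl
    obtain ⟨B1, _, w1, f1, hf1, h1⟩ := ihs (A ⊕ Fin 3) w0 (f0 a) (.inr 0) (by
      show w.δ a a ⊔ s.ev v ≤ _
      rw [w.self, bot_sup_eq])
    obtain ⟨B2, _, w2, f2, hf2, h2⟩ := iht B1 w1 (f1 (.inr 0)) (f1 (.inr 1)) (by
      rw [hf1]; exact le_rfl)
    obtain ⟨B3, _, w3, f3, hf3, h3⟩ := ihs B2 w2 (f2 (f1 (.inr 1))) (f2 (f1 (.inr 2))) (by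
      rw [hf2, hf1]; exact le_rfl)
    obtain ⟨B4, _, w4, f4, hf4, h4⟩ := iht B3 w3 (f3 (f2 (f1 (.inr 2))))
      (f3 (f2 (f1 (f0 b)))) (by
      rw [hf3, hf2, hf1]
      show w.δ b b ⊔ t.ev v ≤ _
      rw [w.self, bot_sup_eq])
    refine ⟨B4, inferInstance, w4, fun a => f4 (f3 (f2 (f1 (f0 a)))), ?_, ?_⟩
    · intro a b
      rw [hf4, hf3, hf2, hf1]
      rfl
    · have g1 := persist w3 w4 f4 hf4 v _ _ _ (persist w2 w3 f3 hf3 v _ _ _
        (persist w1 w2 f2 hf2 v _ _ _ h1))
      have g2 := persist w3 w4 f4 hf4 v _ _ _ (persist w2 w3 f3 hf3 v _ _ _ h2)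
      have g3 := persist w3 w4 f4 hf4 v _ _ _ h3
      have l1 : w4.ev v s ≤ w4.ev v (.sup s t) := le_sup_left
      have l2 : w4.ev v t ≤ w4.ev v (.sup s t) := le_sup_right
      exact Setoid.trans' _ (l1 g1) (Setoid.trans' _ (l2 g2) (Setoid.trans' _ (l1 g3) (l2 h4)))

theorem le_of_bot (p q : LTerm) (h : ∀ m : ℕ, Holds (Setoid (Fin m)) p q) (v : ℕ → L) :
    p.ev v ≤ q.ev v := by
  classical
  let w : WM Bool L :=
    { δ := fun a b => if a = b then ⊥ else p.ev v
      self := fun a => if_pos rfl
      symm := fun a b => by simp only [eq_comm]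
      tri := fun a b c => by
        cases a <;> cases b <;> cases c <;> simp }
  obtain ⟨B, _, w', f, hf, hev⟩ := exists_ext v p Bool w false true le_rfl
  obtain ⟨m, ⟨e⟩⟩ := Finite.exists_equiv_fin B
  let w2 : WM (Fin m) L :=
    { δ := fun a b => w'.δ (e.symm a) (e.symm b)
      self := fun a => w'.self _
      symm := fun a b => w'.symm _ _
      tri := fun a b c => w'.tri _ _ _ }
  have h1 : w2.ev v p (e (f false)) (e (f true)) :=
    persist w' w2 e (fun a b => by simp [w2]) v p _ _ hev
  have h2 : w2.ev v p = w2.ev v q := h m _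
  rw [h2] at h1
  have h3 := ev_le w2 v q h1
  change w'.δ (e.symm (e (f false))) (e.symm (e (f true))) ≤ q.ev v at h3
  rw [Equiv.symm_apply_apply, Equiv.symm_apply_apply, hf] at h3
  exact h3

end

theorem sachs (p q : LTerm) (h : ∀ m : ℕ, Holds (Setoid (Fin m)) p q) (L : Type*) [Lattice L] :
    Holds L p q := by
  have h' : Holds (WithBot L) p q := fun v =>
    le_antisymm (le_of_bot p q h v) (le_of_bot q p (fun m v => (h m v).symm) v)
  exact h'.of_embedding (fun a : L => (a : WithBot L)) WithBot.coe_injective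
    (fun a b => WithBot.coe_sup a b) (fun a b => WithBot.coe_inf a b)

end Q15Lat
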